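/-!
# Fast evaluation of the pattern checks (block PAT of MP_1e13ac_co)

The functions are written with bare recursors over core types only, which the kernel evaluates
several times faster than compiled structural recursions.
-/

set_option autoImplicit false

namespace Pool.Agent.Work.MP_1e13ac_Fast

noncomputable section

def tbR (x i : Nat) : Bool := Nat.beq (Nat.mod (Nat.shiftRight x i) (nat_lit 2)) (nat_lit 1)

def memR (x : Nat) (l : List Nat) : Bool :=
  List.rec (motive := fun _ => Bool) false
    (fun y _ ih => Bool.rec (motive := fun _ => Bool) ih true (Nat.beq x y)) l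

def nodupR (l : List Nat) : Bool :=
  List.rec (motive := fun _ => Bool) true
    (fun x t ih => Bool.rec (motive := fun _ => Bool) ih false (memR x t)) l

def glR (L : List (List Nat)) : Nat → List Nat :=
  List.rec (motive := fun _ => Nat → List Nat) (fun _ => [])
    (fun l _ ih n => Nat.rec (motive := fun _ => List Nat) l (fun k _ => ih k) n) L

def gpR (L : List (List (List Nat))) : Nat → List (List Nat) :=
  List.rec (motive := fun _ => Nat → List (List Nat)) (fun _ => [])
    (fun l _ ih n => Nat.rec (motive := fun _ => List (List Nat)) l (fun k _ => ih k) n) L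

def gqR (L : List (List (List (List Nat)))) : Nat → List (List (List Nat)) :=
  List.rec (motive := fun _ => Nat → List (List (List Nat))) (fun _ => [])
    (fun l _ ih n => Nat.rec (motive := fun _ => List (List (List Nat))) l (fun k _ => ih k) n) L

/-- lookup in a two level table with blocks of 32 -/
def lkR (T : List (List (List (List Nat)))) (t : Nat) : List (List Nat) :=
  gpR (gqR T (Nat.div t (nat_lit 32))) (Nat.mod t (nat_lit 32))

def allR (f : Nat → Bool) (l : List Nat) : Bool :=
  List.rec (motive := fun _ => Bool) true
    (fun x _ ih => Bool.rec (motive := fun _ => Bool) false ih (f x)) l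

def allIdxR (f : Nat → List Nat → Bool) (L : List (List Nat)) : Nat → Bool :=
  List.rec (motive := fun _ => Nat → Bool) (fun _ => true)
    (fun l _ ih i => Bool.rec (motive := fun _ => Bool) false (ih (Nat.succ i)) (f i l)) L

def lenR (L : List (List Nat)) : Nat :=
  List.rec (motive := fun _ => Nat) (nat_lit 0) (fun _ _ ih => Nat.succ ih) L

def lenN (L : List Nat) : Nat :=
  List.rec (motive := fun _ => Nat) (nat_lit 0) (fun _ _ ih => Nat.succ ih) L

/-- well formed pattern with `n` vertices -/
def wfR (n : Nat) (P : List (List Nat)) : Bool :=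
  allIdxR (fun i l => Bool.rec (motive := fun _ => Bool) false
    (Bool.rec (motive := fun _ => Bool) false
      (allR (fun j => Bool.rec (motive := fun _ => Bool) false
        (Bool.rec (motive := fun _ => Bool) (memR i (glR P j)) false (Nat.beq j i))
        (Nat.ble (Nat.succ j) n)) l)
      (Nat.ble (lenN l) (nat_lit 3))) (nodupR l)) P (nat_lit 0)

def consIf (d : Nat) (t : List Nat) : List Nat :=
  Bool.rec (motive := fun _ => List Nat) (d :: t) t (Nat.beq d (nat_lit 31))

/-- adjacency lists from a code: three digits in base 32 for each vertex, the digit 31 means no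
neighbour -/
def decR (m : Nat) : Nat → List (List Nat) :=
  Nat.rec (motive := fun _ => Nat → List (List Nat)) (fun _ => [])
    (fun _ ih x => consIf (Nat.mod x (nat_lit 32))
      (consIf (Nat.mod (Nat.div x (nat_lit 32)) (nat_lit 32))
        (consIf (Nat.mod (Nat.div x (nat_lit 1024)) (nat_lit 32)) [])) ::
      ih (Nat.div x (nat_lit 32768))) m

/-! ## Leaves -/

def filtSR (S : Nat) (l : List Nat) : List Nat :=
  List.rec (motive := fun _ => List Nat) []
    (fun j _ ih => Bool.rec (motive := fun _ => List Nat) ih (j :: ih) (tbR S j)) l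

def restrR (S : Nat) (L : List (List Nat)) : Nat → List (List Nat) :=
  List.rec (motive := fun _ => Nat → List (List Nat)) (fun _ => [])
    (fun l _ ih i => Bool.rec (motive := fun _ => List Nat) [] (filtSR S l) (tbR S i) ::
      ih (Nat.succ i)) L

/-- `S1` are the bits of `S` with colour bit 1, `S0` those with colour bit 0 -/
def monoR (S c S1 S0 : Nat) (L : List (List Nat)) : Nat → List (List Nat) :=
  List.rec (motive := fun _ => Nat → List (List Nat)) (fun _ => [])
    (fun l _ ih i => Bool.rec (motive := fun _ => List Nat) []
      (filtSR (Bool.rec (motive := fun _ => Nat) S0 S1 (tbR c i)) l) (tbR S i) ::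
      ih (Nat.succ i)) L

def monR (S c : Nat) (P : List (List Nat)) : List (List Nat) :=
  monoR S c (Nat.land S c) (Nat.land S (Nat.xor S c)) P (nat_lit 0)

def chkPreR (S : Nat) (N M : List (List Nat)) : Bool :=
  allIdxR (fun i n => Bool.rec (motive := fun _ => Bool) true
    (Bool.rec (motive := fun _ => Bool) false
      (Bool.rec (motive := fun _ => Bool) false
        (allR (fun j => allR (fun k => Bool.rec (motive := fun _ => Bool)
          (allR (fun l => Bool.rec (motive := fun _ => Bool)
            (allR (fun p => Nat.beq p k) (glR M l)) true (Nat.beq l j)) (glR M k)) true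
            (Nat.beq k i)) (glR M j)) (glR M i))
        (Bool.rec (motive := fun _ => Bool)
          (allR (fun j => Bool.rec (motive := fun _ => Bool) false
            (allR (fun k => Nat.beq k i) (glR M j)) (Nat.beq (lenN (glR N j)) (nat_lit 3)))
            (glR M i)) true
          (Nat.beq (lenN n) (nat_lit 3))))
      (Nat.ble (Nat.succ (lenN (glR M i))) (lenN n))) (tbR S i)) N (nat_lit 0)

def anyR (f : Nat → Bool) (l : List Nat) : Bool :=
  List.rec (motive := fun _ => Bool) false
    (fun x _ ih => Bool.rec (motive := fun _ => Bool) ih true (f x)) l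

/-- sum over the vertices of `U` of one plus the signed indicator of a property -/
def cntR (U c : Nat) (f : List Nat → Bool) (L : List (List Nat)) : Nat → Nat :=
  List.rec (motive := fun _ => Nat → Nat) (fun _ => nat_lit 0)
    (fun l _ ih i => Bool.rec (motive := fun _ => Nat) (ih (Nat.succ i))
      (Nat.add (Bool.rec (motive := fun _ => Nat) (nat_lit 1)
        (Bool.rec (motive := fun _ => Nat) (nat_lit 0) (nat_lit 2) (tbR c i)) (f l))
        (ih (Nat.succ i))) (tbR U i)) L

/-- check of one gadget; `d0, d1, d2` are the differences plus 50 -/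
def chkG (P : List (List Nat)) (S U c1 c2 d0 d1 d2 : Nat) : Bool :=
  Bool.rec (motive := fun _ => Bool) false
  (Bool.rec (motive := fun _ => Bool) false
  (Bool.rec (motive := fun _ => Bool) false
  (Bool.rec (motive := fun _ => Bool) false
  (Bool.rec (motive := fun _ => Bool) false
  (Bool.rec (motive := fun _ => Bool) false
  (Bool.rec (motive := fun _ => Bool) false
    (Nat.beq (Nat.add (cntR U c2 (fun l => Bool.rec (motive := fun _ => Bool) false
        (anyR (fun j => Nat.beq (lenN (glR (monR S c2 P) j)) (nat_lit 2)) l)
        (Nat.beq (lenN l) (nat_lit 2))) (monR S c2 P) (nat_lit 0)) (nat_lit 50))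
      (Nat.add (cntR U c1 (fun l => Bool.rec (motive := fun _ => Bool) false
        (anyR (fun j => Nat.beq (lenN (glR (monR S c1 P) j)) (nat_lit 2)) l)
        (Nat.beq (lenN l) (nat_lit 2))) (monR S c1 P) (nat_lit 0)) d2))
    (Nat.beq (Nat.add (cntR U c2 (fun l => Nat.beq (lenN l) (nat_lit 2)) (monR S c2 P) (nat_lit 0))
        (nat_lit 50))
      (Nat.add (cntR U c1 (fun l => Nat.beq (lenN l) (nat_lit 2)) (monR S c1 P) (nat_lit 0)) d1)))
    (Nat.beq (Nat.add (cntR U c2 (fun _ => true) (monR S c2 P) (nat_lit 0)) (nat_lit 50))
      (Nat.add (cntR U c1 (fun _ => true) (monR S c1 P) (nat_lit 0)) d0)))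
    (chkPreR S (restrR S P (nat_lit 0)) (monR S c2 P)))
    (chkPreR S (restrR S P (nat_lit 0)) (monR S c1 P)))
    (allIdxR (fun i n => Bool.rec (motive := fun _ => Bool) true
      (Bool.rec (motive := fun _ => Bool) false
        (Bool.rec (motive := fun _ => Bool) false
          (allR (fun j => tbR U j) (glR (monR S c2 P) i))
          (allR (fun j => tbR U j) (glR (monR S c1 P) i)))
        (Nat.beq (lenN n) (nat_lit 3))) (tbR U i)) (restrR S P (nat_lit 0)) (nat_lit 0)))
    (Nat.beq (Nat.land (Nat.xor c1 c2) U) (Nat.xor c1 c2)))
    (Nat.beq (Nat.land U S) U)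

def B24 (x : Nat) : Nat := Nat.mod x (nat_lit 16777216)

/-- decode a gadget: four blocks of 24 bits; the difference vector is given by three blocks of
7 bits -/
def chkGX (P : List (List Nat)) (x d : Nat) : Bool :=
  chkG P (B24 x) (B24 (Nat.div x (nat_lit 16777216)))
    (B24 (Nat.div x (nat_lit 281474976710656)))
    (Nat.div x (nat_lit 4722366482869645213696))
    (Nat.mod d (nat_lit 128))
    (Nat.mod (Nat.div d (nat_lit 128)) (nat_lit 128))
    (Nat.div d (nat_lit 16384))

/-- entry of a list of numbers, default `0` -/
def gnR (L : List Nat) : Nat → Nat :=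
  List.rec (motive := fun _ => Nat → Nat) (fun _ => nat_lit 0)
    (fun l _ ih n => Nat.rec (motive := fun _ => Nat) l (fun k _ => ih k) n) L

/-- three gadgets with the nonzero code `d` of their difference vectors (21 bits each) -/
def chkLeafR (P : List (List Nat)) (x y z d : Nat) : Bool :=
  Bool.rec (motive := fun _ => Bool)
  (Bool.rec (motive := fun _ => Bool) false
  (Bool.rec (motive := fun _ => Bool) false
  (Bool.rec (motive := fun _ => Bool) false
  (Bool.rec (motive := fun _ => Bool) false
    (chkGX P z (Nat.div d (nat_lit 4398046511104)))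
    (chkGX P y (Nat.mod (Nat.div d (nat_lit 2097152)) (nat_lit 2097152))))
    (chkGX P x (Nat.mod d (nat_lit 2097152))))
    (wfR (lenR P) P))
    (Nat.ble (lenR P) (nat_lit 23)))
    false (Nat.beq d (nat_lit 0))

/-- all leaf checks of a block: for each pattern a code that holds the index of the code of the
difference vectors in the table `D` (8 bits) and the three gadgets (96 bits each) -/
def leafAllR (D : List Nat) (Ps : List (List (List Nat))) : List Nat → Bool :=
  List.rec (motive := fun _ => List Nat → Bool) (fun _ => true)
    (fun P _ ih cs => List.rec (motive := fun _ => Bool) false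
      (fun c t _ => Bool.rec (motive := fun _ => Bool) false (ih t)
        (chkLeafR P (Nat.mod (Nat.shiftRight c (nat_lit 8)) (nat_lit 79228162514264337593543950336))
          (Nat.mod (Nat.shiftRight c (nat_lit 104)) (nat_lit 79228162514264337593543950336))
          (Nat.shiftRight c (nat_lit 200))
          (gnR D (Nat.mod c (nat_lit 256))))) cs) Ps

/-! ## Nodes -/

/-- digit `k` of a base 32 code -/
def dgR (r k : Nat) : Nat := Nat.mod (Nat.shiftRight r (Nat.mul (nat_lit 5) k)) (nat_lit 32)

def bitR (r k : Nat) : Nat := Nat.shiftLeft (nat_lit 1) (dgR r k)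

/-- mask of the images of the first vertices; `0` if a value is repeated -/
def rmR (r : Nat) (L : List (List Nat)) : Nat → Nat → Nat :=
  List.rec (motive := fun _ => Nat → Nat → Nat) (fun _ acc => acc)
    (fun _ _ ih k acc => Bool.rec (motive := fun _ => Nat)
      (ih (Nat.succ k) (Nat.lor acc (bitR r k))) (nat_lit 0) (tbR acc (dgR r k))) L

/-- mask of the images of the elements of a list -/
def imgL (r : Nat) (l : List Nat) : Nat :=
  List.rec (motive := fun _ => Nat) (nat_lit 0) (fun x _ ih => Nat.lor (bitR r x) ih) l

/-- bit code of the image of a pattern -/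
def imgR (r : Nat) (L : List (List Nat)) : Nat → Nat :=
  List.rec (motive := fun _ => Nat → Nat) (fun _ => nat_lit 0)
    (fun l _ ih k => Nat.lor (Nat.shiftLeft (imgL r l) (Nat.mul (nat_lit 32) (dgR r k)))
      (ih (Nat.succ k))) L

/-- union of the rows `m` at the images -/
def mskR (r m : Nat) (L : List (List Nat)) : Nat → Nat :=
  List.rec (motive := fun _ => Nat → Nat) (fun _ => nat_lit 0)
    (fun _ _ ih k => Nat.lor (Nat.shiftLeft m (Nat.mul (nat_lit 32) (dgR r k)))
      (ih (Nat.succ k))) L

/-- mask of a list -/
def mskL (l : List Nat) : Nat :=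
  List.rec (motive := fun _ => Nat) (nat_lit 0)
    (fun x _ ih => Nat.lor (Nat.shiftLeft (nat_lit 1) x) ih) l

/-- bit code of a pattern -/
def codR (L : List (List Nat)) : Nat → Nat :=
  List.rec (motive := fun _ => Nat → Nat) (fun _ => nat_lit 0)
    (fun l _ ih k => Nat.lor (Nat.shiftLeft (mskL l) (Nat.mul (nat_lit 32) k))
      (ih (Nat.succ k))) L

/-- bits of the two ordered pairs -/
def b2R (x m : Nat) : Nat :=
  Nat.lor (Nat.shiftLeft (nat_lit 1) (Nat.add (Nat.mul (nat_lit 32) x) m))
    (Nat.shiftLeft (nat_lit 1) (Nat.add (Nat.mul (nat_lit 32) m) x))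

def nbT (m : Nat) (T : List Nat) : Nat :=
  List.rec (motive := fun _ => Nat) (nat_lit 0) (fun x _ ih => Nat.lor (b2R x m) ih) T

def tgR (T : List (List (List (List Nat)))) (c : Nat) : List (List Nat) :=
  lkR T (Nat.mod (Nat.div c (nat_lit 4)) (nat_lit 1024))

def rmC (T : List (List (List (List Nat)))) (c : Nat) : Nat :=
  rmR (Nat.div c (nat_lit 4096)) (tgR T c) (nat_lit 0) (nat_lit 0)

def imC (T : List (List (List (List Nat)))) (c : Nat) : Nat :=
  imgR (Nat.div c (nat_lit 4096)) (tgR T c) (nat_lit 0)

def mkC (T : List (List (List (List Nat)))) (c : Nat) : Nat :=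
  mskR (Nat.div c (nat_lit 4096)) (rmC T c) (tgR T c) (nat_lit 0)

/-- the images of the target are distinct and less than `n` -/
def vdC (T : List (List (List (List Nat)))) (n c : Nat) : Bool :=
  Bool.rec (motive := fun _ => Bool)
    (Nat.ble (Nat.succ (rmC T c)) (Nat.shiftLeft (nat_lit 1) n)) false
    (Nat.beq (rmC T c) (nat_lit 0))

/-- the pattern with bit code `q` contains the target -/
def hitC (T : List (List (List (List Nat)))) (n q c : Nat) : Bool :=
  Bool.rec (motive := fun _ => Bool) false (vdC T n c)
    (Nat.beq (Nat.land q (mkC T c)) (imC T c))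

/-- all degrees are three -/
def cplR (L : List (List Nat)) : Bool :=
  List.rec (motive := fun _ => Bool) true
    (fun l _ ih => Bool.rec (motive := fun _ => Bool) false ih (Nat.beq (lenN l) (nat_lit 3))) L

def appR (l : List Nat) (m : Nat) : List Nat :=
  List.rec (motive := fun _ => List Nat) [m] (fun x _ ih => x :: ih) l

/-- the child pattern -/
def chdR (a m : Nat) (T : List Nat) (L : List (List Nat)) : Nat → List (List Nat) :=
  List.rec (motive := fun _ => Nat → List (List Nat)) (fun _ => [a :: T])
    (fun l _ ih i => Bool.rec (motive := fun _ => List Nat)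
      (Bool.rec (motive := fun _ => List Nat) l (appR l m) (memR i T)) (appR l m) (Nat.beq i a) ::
      ih (Nat.succ i)) L

/-- one child; kind 0: leaf, kind 1: open, other kinds: complete -/
def kidR (lv op : List (List (List (List Nat)))) (P : List (List Nat)) (n q a : Nat)
    (T : List Nat) (c : Nat) : Bool :=
  Nat.rec (motive := fun _ => Bool)
    (hitC lv (Nat.succ n) (Nat.lor q (nbT n T)) c)
    (fun k _ => Nat.rec (motive := fun _ => Bool)
      (Bool.rec (motive := fun _ => Bool) false
        (hitC op (Nat.succ n) (Nat.lor q (nbT n T)) c)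
        (Nat.beq (lenR (tgR op c)) (Nat.succ n)))
      (fun _ _ => cplR (chdR a n T P (nat_lit 0))) k)
    (Nat.mod c (nat_lit 4))

def kidsR (lv op : List (List (List (List Nat)))) (P : List (List Nat)) (n q a : Nat)
    (Ts : List (List Nat)) : List Nat → Bool :=
  List.rec (motive := fun _ => List Nat → Bool) (fun _ => true)
    (fun T _ ih cs => List.rec (motive := fun _ => Bool) false
      (fun c t _ => Bool.rec (motive := fun _ => Bool) false (ih t) (kidR lv op P n q a T c)) cs) Ts

/-- `s` is the list of the stub vertices different from `a` -/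
def stbR (a : Nat) (L : List (List Nat)) : Nat → List Nat → Bool :=
  List.rec (motive := fun _ => Nat → List Nat → Bool)
    (fun _ s => List.rec (motive := fun _ => Bool) true (fun _ _ _ => false) s)
    (fun l _ ih i s => Bool.rec (motive := fun _ => Bool)
      (Bool.rec (motive := fun _ => Bool) (ih (Nat.succ i) s)
        (List.rec (motive := fun _ => Bool) false
          (fun x t _ => Bool.rec (motive := fun _ => Bool) false (ih (Nat.succ i) t)
            (Nat.beq x i)) s)
        (Nat.ble (lenN l) (nat_lit 2)))
      (ih (Nat.succ i) s) (Nat.beq i a)) L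

/-- the pairs with first element `x`, followed by `r` -/
def prsR (x : Nat) (r : List (List Nat)) (t : List Nat) : List (List Nat) :=
  List.rec (motive := fun _ => List (List Nat)) r (fun y _ ih => [x, y] :: ih) t

/-- sublists with at most two elements -/
def sb2R (s : List Nat) : List (List Nat) :=
  List.rec (motive := fun _ => List (List Nat)) [[]] (fun x t ih => prsR x ([x] :: ih) t) s

/-- check of an open pattern, expanded at `a`, with stubs `s` -/
def nodR (lv op : List (List (List (List Nat)))) (P : List (List Nat)) (a : Nat)
    (s cs : List Nat) : Bool :=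
  Bool.rec (motive := fun _ => Bool) false
  (Bool.rec (motive := fun _ => Bool) false
  (Bool.rec (motive := fun _ => Bool) false
  (Bool.rec (motive := fun _ => Bool) false
  (Bool.rec (motive := fun _ => Bool) false
    (kidsR lv op P (lenR P) (Nat.lor (codR P (nat_lit 0)) (b2R a (lenR P))) a (sb2R s) cs)
    (stbR a P (nat_lit 0) s))
    (Nat.ble (lenN (glR P a)) (nat_lit 2)))
    (Nat.ble (Nat.succ a) (lenR P)))
    (Nat.ble (lenR P) (nat_lit 22)))
    (wfR (lenR P) P)

/-- one entry of a node certificate: expansion vertex, stubs, codes of the children -/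
def nodeAllR (lv op : List (List (List (List Nat)))) (Ps : List (List (List Nat))) :
    List (List (List Nat)) → Bool :=
  List.rec (motive := fun _ => List (List (List Nat)) → Bool) (fun _ => true)
    (fun P _ ih cs => List.rec (motive := fun _ => Bool) false
      (fun c t _ => Bool.rec (motive := fun _ => Bool) false (ih t)
        (nodR lv op P (gnR (glR c (nat_lit 0)) (nat_lit 0)) (glR c (nat_lit 1))
          (glR c (nat_lit 2)))) cs) Ps

end

end Pool.Agent.Work.MP_1e13ac_Fast
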