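import Pool.Agent.Work.MP_1e13ac_Fast.Defs

/-! Generated tables of patterns for block PAT of MP_1e13ac_co. -/

set_option autoImplicit false

namespace Pool.Agent.Work.MP_1e13ac_Fast

noncomputable def dTab : List Nat := [
  nat_lit 3776498717751548340,
  nat_lit 3776498718024178100,
  nat_lit 3775926971977734580,
  nat_lit 3776489990650632628,
  nat_lit 3776498786739460532,
  nat_lit 3777061736697076148,
  nat_lit 3776498717755742642,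
  nat_lit 3775364021751683508,
  nat_lit 3631811852621355444,
  nat_lit 3775926971709299252,
  nat_lit 3631811852348725684,
  nat_lit 3777061667709196852,
  nat_lit 3776489921658526132,
  nat_lit 3775364090743790004,
  nat_lit 3631820648441748020,
  nat_lit 3776498786202589620,
  nat_lit 3775926971705104820,
  nat_lit 3777061667977599412,
  nat_lit 3776498718024210866,
  nat_lit 3632383598667798964,
  nat_lit 3776498717755775538,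
  nat_lit 3775364021755877810,
  nat_lit 3777061736697076276,
  nat_lit 3631820648441747890,
  nat_lit 3775926971705137716,
  nat_lit 3776489990378002868,
  nat_lit 3776498717755742772,
  nat_lit 3775364022024346034,
  nat_lit 3776498787012090292,
  nat_lit 3631811852080323124,
  nat_lit 3776498786471025204,
  nat_lit 3775926971705104948,
  nat_lit 3631820579722303794,
  nat_lit 3632383598395202100,
  nat_lit 3775364091012258356,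
  nat_lit 3632383529679919668,
  nat_lit 3775927040697211444,
  nat_lit 3631811852080290228,
  nat_lit 3775927040156146100,
  nat_lit 3631820648714377780,
  nat_lit 3775935767802321330,
  nat_lit 3775364022024313268,
  nat_lit 3776489921931155892,
  nat_lit 3632383598936234420,
  nat_lit 3631811852617161140,
  nat_lit 3777061736424446388,
  nat_lit 3632383598395169204,
  nat_lit 3775935768070756788,
  nat_lit 3775926971977767476,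
  nat_lit 3775364021755877940,
  nat_lit 3632383598663604660]

noncomputable def lv0 : List (List (List Nat)) := [
  [[nat_lit 2], [nat_lit 3], [nat_lit 0, nat_lit 4, nat_lit 5], [nat_lit 1, nat_lit 6, nat_lit 7], [nat_lit 2, nat_lit 5, nat_lit 7], [nat_lit 2, nat_lit 4, nat_lit 7], [nat_lit 3], [nat_lit 3, nat_lit 4, nat_lit 5]],
  [[nat_lit 1, nat_lit 2, nat_lit 3], [nat_lit 0, nat_lit 4, nat_lit 5], [nat_lit 0, nat_lit 4, nat_lit 6], [nat_lit 0], [nat_lit 1, nat_lit 2, nat_lit 5], [nat_lit 1, nat_lit 4, nat_lit 7], [nat_lit 2], [nat_lit 5]],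
  [[nat_lit 1, nat_lit 2], [nat_lit 0, nat_lit 3, nat_lit 5], [nat_lit 0, nat_lit 6, nat_lit 7], [nat_lit 1], [nat_lit 5], [nat_lit 1, nat_lit 4, nat_lit 8], [nat_lit 2, nat_lit 7, nat_lit 8], [nat_lit 2, nat_lit 6, nat_lit 8], [nat_lit 5, nat_lit 6, nat_lit 7]],
  [[nat_lit 1, nat_lit 2, nat_lit 3], [nat_lit 0, nat_lit 4, nat_lit 5], [nat_lit 0, nat_lit 6, nat_lit 7], [nat_lit 0, nat_lit 8, nat_lit 9], [nat_lit 1, nat_lit 10, nat_lit 11], [nat_lit 1], [nat_lit 2, nat_lit 10], [nat_lit 2], [nat_lit 3], [nat_lit 3], [nat_lit 4, nat_lit 6], [nat_lit 4]],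
  [[nat_lit 1, nat_lit 2, nat_lit 3], [nat_lit 0, nat_lit 4, nat_lit 5], [nat_lit 0, nat_lit 4, nat_lit 6], [nat_lit 0, nat_lit 4, nat_lit 7], [nat_lit 1, nat_lit 2, nat_lit 3], [nat_lit 1, nat_lit 8, nat_lit 9], [nat_lit 2], [nat_lit 3], [nat_lit 5], [nat_lit 5]],
  [[nat_lit 1], [nat_lit 0, nat_lit 2, nat_lit 3], [nat_lit 1, nat_lit 6, nat_lit 7], [nat_lit 1, nat_lit 8, nat_lit 9], [nat_lit 6], [nat_lit 9], [nat_lit 2, nat_lit 4, nat_lit 7], [nat_lit 2, nat_lit 6, nat_lit 9], [nat_lit 3], [nat_lit 3, nat_lit 5, nat_lit 7]],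
  [[nat_lit 1, nat_lit 2, nat_lit 3], [nat_lit 0, nat_lit 4, nat_lit 5], [nat_lit 0, nat_lit 4, nat_lit 6], [nat_lit 0, nat_lit 7, nat_lit 8], [nat_lit 1, nat_lit 2, nat_lit 9], [nat_lit 1, nat_lit 7], [nat_lit 2], [nat_lit 3, nat_lit 5], [nat_lit 3], [nat_lit 4]],
  [[nat_lit 1, nat_lit 2, nat_lit 3], [nat_lit 0, nat_lit 4, nat_lit 5], [nat_lit 0, nat_lit 6, nat_lit 7], [nat_lit 0, nat_lit 8, nat_lit 9], [nat_lit 1, nat_lit 10, nat_lit 11], [nat_lit 1], [nat_lit 2], [nat_lit 2], [nat_lit 3], [nat_lit 3], [nat_lit 4], [nat_lit 4]],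
  [[nat_lit 1, nat_lit 2, nat_lit 3], [nat_lit 0, nat_lit 4], [nat_lit 0, nat_lit 5, nat_lit 6], [nat_lit 0, nat_lit 5, nat_lit 6], [nat_lit 1, nat_lit 5, nat_lit 7], [nat_lit 2, nat_lit 3, nat_lit 4], [nat_lit 2, nat_lit 3, nat_lit 8], [nat_lit 4], [nat_lit 6]],
  [[nat_lit 1, nat_lit 2], [nat_lit 0, nat_lit 3, nat_lit 4], [nat_lit 0, nat_lit 3, nat_lit 5], [nat_lit 1, nat_lit 2, nat_lit 4], [nat_lit 1, nat_lit 3, nat_lit 8], [nat_lit 2, nat_lit 6, nat_lit 8], [nat_lit 5], [nat_lit 8], [nat_lit 4, nat_lit 5, nat_lit 7]],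
  [[nat_lit 1, nat_lit 2, nat_lit 3], [nat_lit 0, nat_lit 4, nat_lit 5], [nat_lit 0, nat_lit 6, nat_lit 7], [nat_lit 0, nat_lit 8], [nat_lit 1, nat_lit 5, nat_lit 6], [nat_lit 1, nat_lit 4, nat_lit 8], [nat_lit 2, nat_lit 4, nat_lit 9], [nat_lit 2], [nat_lit 3, nat_lit 5], [nat_lit 6]],
  [[nat_lit 1, nat_lit 2, nat_lit 3], [nat_lit 0, nat_lit 4, nat_lit 5], [nat_lit 0, nat_lit 6, nat_lit 7], [nat_lit 0, nat_lit 8, nat_lit 9], [nat_lit 1, nat_lit 5, nat_lit 6], [nat_lit 1, nat_lit 4], [nat_lit 2, nat_lit 4, nat_lit 8], [nat_lit 2], [nat_lit 3, nat_lit 6], [nat_lit 3]],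
  [[nat_lit 1, nat_lit 2], [nat_lit 0, nat_lit 4, nat_lit 5], [nat_lit 0, nat_lit 4, nat_lit 6], [nat_lit 5], [nat_lit 1, nat_lit 2, nat_lit 6], [nat_lit 1, nat_lit 3, nat_lit 6], [nat_lit 2, nat_lit 4, nat_lit 5]],
  [[nat_lit 1, nat_lit 2, nat_lit 3], [nat_lit 0, nat_lit 4, nat_lit 5], [nat_lit 0, nat_lit 6, nat_lit 7], [nat_lit 0], [nat_lit 1, nat_lit 6, nat_lit 7], [nat_lit 1], [nat_lit 2, nat_lit 4, nat_lit 8], [nat_lit 2, nat_lit 4, nat_lit 9], [nat_lit 6], [nat_lit 7]],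
  [[nat_lit 1, nat_lit 2], [nat_lit 0, nat_lit 3, nat_lit 4], [nat_lit 0, nat_lit 5, nat_lit 6], [nat_lit 1, nat_lit 5, nat_lit 7], [nat_lit 1, nat_lit 9, nat_lit 10], [nat_lit 2, nat_lit 3, nat_lit 10], [nat_lit 2, nat_lit 9], [nat_lit 3], [nat_lit 10], [nat_lit 4, nat_lit 6], [nat_lit 4, nat_lit 5, nat_lit 8]],
  [[nat_lit 1, nat_lit 2, nat_lit 3], [nat_lit 0, nat_lit 4, nat_lit 5], [nat_lit 0, nat_lit 4, nat_lit 6], [nat_lit 0, nat_lit 4, nat_lit 7], [nat_lit 1, nat_lit 2, nat_lit 3], [nat_lit 1, nat_lit 8, nat_lit 9], [nat_lit 2, nat_lit 8], [nat_lit 3], [nat_lit 5, nat_lit 6], [nat_lit 5]],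
  [[nat_lit 1], [nat_lit 0, nat_lit 2, nat_lit 3], [nat_lit 1, nat_lit 6, nat_lit 7], [nat_lit 1, nat_lit 6, nat_lit 8], [nat_lit 8], [nat_lit 8], [nat_lit 2, nat_lit 3, nat_lit 7], [nat_lit 2, nat_lit 6], [nat_lit 3, nat_lit 4, nat_lit 5]],
  [[nat_lit 1, nat_lit 2, nat_lit 3], [nat_lit 0, nat_lit 2, nat_lit 4], [nat_lit 0, nat_lit 1], [nat_lit 0, nat_lit 5, nat_lit 6], [nat_lit 1, nat_lit 7, nat_lit 8], [nat_lit 3, nat_lit 6, nat_lit 8], [nat_lit 3, nat_lit 5, nat_lit 8], [nat_lit 4], [nat_lit 4, nat_lit 5, nat_lit 6]],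
  [[nat_lit 1, nat_lit 2, nat_lit 3], [nat_lit 0, nat_lit 4, nat_lit 5], [nat_lit 0, nat_lit 4, nat_lit 6], [nat_lit 0, nat_lit 7, nat_lit 8], [nat_lit 1, nat_lit 2, nat_lit 9], [nat_lit 1], [nat_lit 2], [nat_lit 3], [nat_lit 3], [nat_lit 4]],
  [[nat_lit 1, nat_lit 2, nat_lit 3], [nat_lit 0, nat_lit 4, nat_lit 5], [nat_lit 0, nat_lit 6, nat_lit 7], [nat_lit 0, nat_lit 8, nat_lit 9], [nat_lit 1, nat_lit 5, nat_lit 10], [nat_lit 1, nat_lit 4], [nat_lit 2, nat_lit 8, nat_lit 10], [nat_lit 2], [nat_lit 3, nat_lit 6], [nat_lit 3], [nat_lit 4, nat_lit 6]],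
  [[nat_lit 1, nat_lit 2, nat_lit 3], [nat_lit 0, nat_lit 2, nat_lit 4], [nat_lit 0, nat_lit 1, nat_lit 5], [nat_lit 0, nat_lit 6], [nat_lit 1, nat_lit 6, nat_lit 7], [nat_lit 2, nat_lit 6, nat_lit 8], [nat_lit 3, nat_lit 4, nat_lit 5], [nat_lit 4], [nat_lit 5]],
  [[nat_lit 1, nat_lit 2, nat_lit 3], [nat_lit 0, nat_lit 4, nat_lit 5], [nat_lit 0, nat_lit 6, nat_lit 7], [nat_lit 0, nat_lit 8, nat_lit 9], [nat_lit 1, nat_lit 5, nat_lit 10], [nat_lit 1, nat_lit 4], [nat_lit 2, nat_lit 7, nat_lit 10], [nat_lit 2, nat_lit 6], [nat_lit 3], [nat_lit 3], [nat_lit 4, nat_lit 6]],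
  [[nat_lit 1, nat_lit 2, nat_lit 3], [nat_lit 0, nat_lit 4, nat_lit 5], [nat_lit 0, nat_lit 4, nat_lit 6], [nat_lit 0, nat_lit 7, nat_lit 8], [nat_lit 1, nat_lit 2, nat_lit 7], [nat_lit 1, nat_lit 9], [nat_lit 2], [nat_lit 3, nat_lit 4, nat_lit 9], [nat_lit 3], [nat_lit 5, nat_lit 7]],
  [[nat_lit 1, nat_lit 2, nat_lit 3], [nat_lit 0, nat_lit 2, nat_lit 4], [nat_lit 0, nat_lit 1, nat_lit 5], [nat_lit 0, nat_lit 6, nat_lit 7], [nat_lit 1, nat_lit 8, nat_lit 9], [nat_lit 2], [nat_lit 3], [nat_lit 3], [nat_lit 4], [nat_lit 4]],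
  [[nat_lit 2, nat_lit 3], [nat_lit 4, nat_lit 5], [nat_lit 0, nat_lit 3, nat_lit 8], [nat_lit 0, nat_lit 2, nat_lit 9], [nat_lit 1, nat_lit 6, nat_lit 8], [nat_lit 1, nat_lit 7, nat_lit 10], [nat_lit 4], [nat_lit 5, nat_lit 10], [nat_lit 2, nat_lit 4, nat_lit 10], [nat_lit 3], [nat_lit 5, nat_lit 7, nat_lit 8]],
  [[nat_lit 1, nat_lit 2, nat_lit 3], [nat_lit 0, nat_lit 2, nat_lit 4], [nat_lit 0, nat_lit 1, nat_lit 5], [nat_lit 0, nat_lit 6, nat_lit 7], [nat_lit 1, nat_lit 8, nat_lit 9], [nat_lit 2, nat_lit 8], [nat_lit 3, nat_lit 8], [nat_lit 3, nat_lit 9], [nat_lit 4, nat_lit 5, nat_lit 6], [nat_lit 4, nat_lit 7]],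
  [[nat_lit 1, nat_lit 2, nat_lit 3], [nat_lit 0, nat_lit 2, nat_lit 4], [nat_lit 0, nat_lit 1], [nat_lit 0, nat_lit 5, nat_lit 6], [nat_lit 1, nat_lit 5, nat_lit 6], [nat_lit 3, nat_lit 4, nat_lit 7], [nat_lit 3, nat_lit 4, nat_lit 8], [nat_lit 5], [nat_lit 6]],
  [[nat_lit 1, nat_lit 2, nat_lit 3], [nat_lit 0, nat_lit 2, nat_lit 4], [nat_lit 0, nat_lit 1, nat_lit 5], [nat_lit 0, nat_lit 4, nat_lit 6], [nat_lit 1, nat_lit 3, nat_lit 6], [nat_lit 2], [nat_lit 3, nat_lit 4, nat_lit 7], [nat_lit 6]],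
  [[nat_lit 1, nat_lit 2, nat_lit 3], [nat_lit 0, nat_lit 4, nat_lit 5], [nat_lit 0, nat_lit 4, nat_lit 6], [nat_lit 0, nat_lit 7, nat_lit 8], [nat_lit 1, nat_lit 2, nat_lit 9], [nat_lit 1, nat_lit 7], [nat_lit 2], [nat_lit 3, nat_lit 5, nat_lit 9], [nat_lit 3], [nat_lit 4, nat_lit 7]],
  [[nat_lit 1, nat_lit 2, nat_lit 3], [nat_lit 0, nat_lit 2, nat_lit 4], [nat_lit 0, nat_lit 1, nat_lit 5], [nat_lit 0, nat_lit 6, nat_lit 7], [nat_lit 1, nat_lit 8, nat_lit 9], [nat_lit 2], [nat_lit 3, nat_lit 7, nat_lit 8], [nat_lit 3, nat_lit 6], [nat_lit 4, nat_lit 6], [nat_lit 4]],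
  [[nat_lit 1, nat_lit 2, nat_lit 3], [nat_lit 0, nat_lit 4, nat_lit 5], [nat_lit 0, nat_lit 4, nat_lit 6], [nat_lit 0, nat_lit 7, nat_lit 8], [nat_lit 1, nat_lit 2, nat_lit 9], [nat_lit 1, nat_lit 6, nat_lit 7], [nat_lit 2, nat_lit 5], [nat_lit 3, nat_lit 5, nat_lit 9], [nat_lit 3], [nat_lit 4, nat_lit 7]],
  [[nat_lit 1, nat_lit 2, nat_lit 3], [nat_lit 0, nat_lit 4, nat_lit 5], [nat_lit 0, nat_lit 6, nat_lit 7], [nat_lit 0, nat_lit 8, nat_lit 9], [nat_lit 1, nat_lit 5, nat_lit 10], [nat_lit 1, nat_lit 4], [nat_lit 2], [nat_lit 2], [nat_lit 3], [nat_lit 3], [nat_lit 4]]]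

noncomputable def lv1 : List (List (List Nat)) := [
  [[nat_lit 1, nat_lit 2], [nat_lit 0, nat_lit 3, nat_lit 4], [nat_lit 0, nat_lit 7, nat_lit 8], [nat_lit 1, nat_lit 4, nat_lit 8], [nat_lit 1, nat_lit 3, nat_lit 8], [nat_lit 7], [nat_lit 7], [nat_lit 2, nat_lit 5, nat_lit 6], [nat_lit 2, nat_lit 3, nat_lit 4]],
  [[nat_lit 1, nat_lit 2, nat_lit 3], [nat_lit 0, nat_lit 4, nat_lit 5], [nat_lit 0, nat_lit 4, nat_lit 6], [nat_lit 0, nat_lit 7, nat_lit 8], [nat_lit 1, nat_lit 2, nat_lit 9], [nat_lit 1, nat_lit 9], [nat_lit 2], [nat_lit 3, nat_lit 9], [nat_lit 3], [nat_lit 4, nat_lit 5, nat_lit 7]],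
  [[nat_lit 1, nat_lit 2, nat_lit 3], [nat_lit 0, nat_lit 4], [nat_lit 0, nat_lit 5, nat_lit 6], [nat_lit 0, nat_lit 5, nat_lit 6], [nat_lit 1, nat_lit 7, nat_lit 8], [nat_lit 2, nat_lit 3, nat_lit 8], [nat_lit 2, nat_lit 3, nat_lit 8], [nat_lit 4], [nat_lit 4, nat_lit 5, nat_lit 6]],
  [[nat_lit 1, nat_lit 2, nat_lit 3], [nat_lit 0, nat_lit 4, nat_lit 5], [nat_lit 0, nat_lit 6], [nat_lit 0, nat_lit 7, nat_lit 8], [nat_lit 1, nat_lit 6, nat_lit 9], [nat_lit 1, nat_lit 7, nat_lit 10], [nat_lit 2, nat_lit 4], [nat_lit 3, nat_lit 5, nat_lit 9], [nat_lit 3], [nat_lit 4, nat_lit 7], [nat_lit 5]],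
  [[nat_lit 1, nat_lit 2, nat_lit 3], [nat_lit 0, nat_lit 2, nat_lit 4], [nat_lit 0, nat_lit 1, nat_lit 5], [nat_lit 0, nat_lit 6, nat_lit 7], [nat_lit 1, nat_lit 8, nat_lit 9], [nat_lit 2, nat_lit 8], [nat_lit 3, nat_lit 8], [nat_lit 3], [nat_lit 4, nat_lit 5, nat_lit 6], [nat_lit 4]],
  [[nat_lit 1, nat_lit 2, nat_lit 3], [nat_lit 0, nat_lit 4, nat_lit 5], [nat_lit 0, nat_lit 6], [nat_lit 0, nat_lit 7, nat_lit 8], [nat_lit 1, nat_lit 5, nat_lit 6], [nat_lit 1, nat_lit 4, nat_lit 8], [nat_lit 2, nat_lit 4, nat_lit 8], [nat_lit 3], [nat_lit 3, nat_lit 5, nat_lit 6]],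
  [[nat_lit 1, nat_lit 2, nat_lit 3], [nat_lit 0, nat_lit 2], [nat_lit 0, nat_lit 1, nat_lit 4], [nat_lit 0, nat_lit 5, nat_lit 6], [nat_lit 2, nat_lit 6, nat_lit 8], [nat_lit 3], [nat_lit 3, nat_lit 4, nat_lit 8], [nat_lit 8], [nat_lit 4, nat_lit 6, nat_lit 7]],
  [[nat_lit 1, nat_lit 2, nat_lit 3], [nat_lit 0, nat_lit 4, nat_lit 5], [nat_lit 0, nat_lit 4, nat_lit 6], [nat_lit 0, nat_lit 7, nat_lit 8], [nat_lit 1, nat_lit 2, nat_lit 9], [nat_lit 1, nat_lit 7], [nat_lit 2, nat_lit 9], [nat_lit 3, nat_lit 5, nat_lit 9], [nat_lit 3], [nat_lit 4, nat_lit 6, nat_lit 7]],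
  [[nat_lit 1, nat_lit 2, nat_lit 3], [nat_lit 0, nat_lit 4, nat_lit 5], [nat_lit 0, nat_lit 6, nat_lit 7], [nat_lit 0, nat_lit 8, nat_lit 9], [nat_lit 1, nat_lit 10, nat_lit 11], [nat_lit 1], [nat_lit 2, nat_lit 10], [nat_lit 2, nat_lit 11], [nat_lit 3], [nat_lit 3], [nat_lit 4, nat_lit 6], [nat_lit 4, nat_lit 7]],
  [[nat_lit 1, nat_lit 2], [nat_lit 0, nat_lit 4], [nat_lit 0, nat_lit 5, nat_lit 6], [nat_lit 7], [nat_lit 1, nat_lit 8, nat_lit 9], [nat_lit 2, nat_lit 6, nat_lit 10], [nat_lit 2, nat_lit 5], [nat_lit 3, nat_lit 8, nat_lit 10], [nat_lit 4, nat_lit 7, nat_lit 10], [nat_lit 4], [nat_lit 5, nat_lit 7, nat_lit 8]],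
  [[nat_lit 1, nat_lit 2], [nat_lit 0, nat_lit 3, nat_lit 4], [nat_lit 0, nat_lit 3, nat_lit 5], [nat_lit 1, nat_lit 2, nat_lit 8], [nat_lit 1, nat_lit 9, nat_lit 10], [nat_lit 2], [nat_lit 8], [nat_lit 10], [nat_lit 3, nat_lit 6, nat_lit 10], [nat_lit 4], [nat_lit 4, nat_lit 7, nat_lit 8]],
  [[nat_lit 1, nat_lit 2, nat_lit 3], [nat_lit 0, nat_lit 2, nat_lit 4], [nat_lit 0, nat_lit 1, nat_lit 5], [nat_lit 0, nat_lit 6, nat_lit 7], [nat_lit 1, nat_lit 6, nat_lit 8], [nat_lit 2, nat_lit 7, nat_lit 9], [nat_lit 3, nat_lit 4], [nat_lit 3, nat_lit 5, nat_lit 8], [nat_lit 4, nat_lit 7], [nat_lit 5]],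
  [[nat_lit 1, nat_lit 2], [nat_lit 0, nat_lit 3, nat_lit 4], [nat_lit 0, nat_lit 3, nat_lit 5], [nat_lit 1, nat_lit 2, nat_lit 8], [nat_lit 1, nat_lit 5, nat_lit 6], [nat_lit 2, nat_lit 4, nat_lit 8], [nat_lit 4], [nat_lit 8], [nat_lit 3, nat_lit 5, nat_lit 7]],
  [[nat_lit 1, nat_lit 2, nat_lit 3], [nat_lit 0, nat_lit 4, nat_lit 5], [nat_lit 0, nat_lit 4, nat_lit 6], [nat_lit 0, nat_lit 4, nat_lit 7], [nat_lit 1, nat_lit 2, nat_lit 3], [nat_lit 1, nat_lit 8, nat_lit 9], [nat_lit 2, nat_lit 8], [nat_lit 3, nat_lit 8], [nat_lit 5, nat_lit 6, nat_lit 7], [nat_lit 5]],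
  [[nat_lit 1, nat_lit 2], [nat_lit 0, nat_lit 3, nat_lit 4], [nat_lit 0, nat_lit 5, nat_lit 6], [nat_lit 1, nat_lit 5, nat_lit 7], [nat_lit 1, nat_lit 9, nat_lit 10], [nat_lit 2, nat_lit 3, nat_lit 10], [nat_lit 2], [nat_lit 3], [nat_lit 10], [nat_lit 4], [nat_lit 4, nat_lit 5, nat_lit 8]],
  [[nat_lit 1, nat_lit 2, nat_lit 3], [nat_lit 0, nat_lit 4], [nat_lit 0, nat_lit 5, nat_lit 6], [nat_lit 0, nat_lit 5, nat_lit 6], [nat_lit 1, nat_lit 5, nat_lit 7], [nat_lit 2, nat_lit 3, nat_lit 4], [nat_lit 2, nat_lit 3, nat_lit 8], [nat_lit 4, nat_lit 8], [nat_lit 6, nat_lit 7]],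
  [[nat_lit 2], [nat_lit 3], [nat_lit 0, nat_lit 4, nat_lit 5], [nat_lit 1, nat_lit 6, nat_lit 7], [nat_lit 2, nat_lit 5, nat_lit 8], [nat_lit 2, nat_lit 4, nat_lit 8], [nat_lit 3, nat_lit 7, nat_lit 8], [nat_lit 3, nat_lit 6], [nat_lit 4, nat_lit 5, nat_lit 6]],
  [[nat_lit 1, nat_lit 2, nat_lit 3], [nat_lit 0, nat_lit 4, nat_lit 5], [nat_lit 0, nat_lit 4, nat_lit 6], [nat_lit 0, nat_lit 7, nat_lit 8], [nat_lit 1, nat_lit 2, nat_lit 9], [nat_lit 1, nat_lit 6, nat_lit 7], [nat_lit 2, nat_lit 5], [nat_lit 3, nat_lit 5], [nat_lit 3, nat_lit 9], [nat_lit 4, nat_lit 8]],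
  [[nat_lit 1, nat_lit 2, nat_lit 3], [nat_lit 0, nat_lit 4, nat_lit 5], [nat_lit 0, nat_lit 4, nat_lit 6], [nat_lit 0, nat_lit 7, nat_lit 8], [nat_lit 1, nat_lit 2, nat_lit 9], [nat_lit 1, nat_lit 7], [nat_lit 2], [nat_lit 3, nat_lit 5, nat_lit 8], [nat_lit 3, nat_lit 7], [nat_lit 4]],
  [[nat_lit 1, nat_lit 2, nat_lit 3], [nat_lit 0, nat_lit 2, nat_lit 4], [nat_lit 0, nat_lit 1, nat_lit 5], [nat_lit 0, nat_lit 6, nat_lit 7], [nat_lit 1, nat_lit 8, nat_lit 9], [nat_lit 2, nat_lit 8], [nat_lit 3], [nat_lit 3], [nat_lit 4, nat_lit 5], [nat_lit 4]],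
  [[nat_lit 1, nat_lit 2, nat_lit 3], [nat_lit 0, nat_lit 4, nat_lit 5], [nat_lit 0, nat_lit 4, nat_lit 6], [nat_lit 0, nat_lit 7, nat_lit 8], [nat_lit 1, nat_lit 2, nat_lit 9], [nat_lit 1, nat_lit 7, nat_lit 9], [nat_lit 2], [nat_lit 3, nat_lit 5], [nat_lit 3], [nat_lit 4, nat_lit 5]],
  [[nat_lit 1, nat_lit 2, nat_lit 3], [nat_lit 0, nat_lit 4, nat_lit 5], [nat_lit 0, nat_lit 4, nat_lit 6], [nat_lit 0, nat_lit 7, nat_lit 8], [nat_lit 1, nat_lit 2, nat_lit 7], [nat_lit 1, nat_lit 6, nat_lit 8], [nat_lit 2, nat_lit 5, nat_lit 9], [nat_lit 3, nat_lit 4], [nat_lit 3, nat_lit 5], [nat_lit 6]],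
  [[nat_lit 1, nat_lit 2, nat_lit 3], [nat_lit 0, nat_lit 4, nat_lit 5], [nat_lit 0, nat_lit 4, nat_lit 6], [nat_lit 0], [nat_lit 1, nat_lit 2, nat_lit 7], [nat_lit 1, nat_lit 6, nat_lit 8], [nat_lit 2, nat_lit 5, nat_lit 8], [nat_lit 4, nat_lit 8], [nat_lit 5, nat_lit 6, nat_lit 7]],
  [[nat_lit 1, nat_lit 2, nat_lit 3], [nat_lit 0, nat_lit 4, nat_lit 5], [nat_lit 0, nat_lit 4, nat_lit 6], [nat_lit 0, nat_lit 7, nat_lit 8], [nat_lit 1, nat_lit 2, nat_lit 9], [nat_lit 1, nat_lit 10], [nat_lit 2, nat_lit 10], [nat_lit 3, nat_lit 9, nat_lit 10], [nat_lit 3], [nat_lit 4, nat_lit 7], [nat_lit 5, nat_lit 6, nat_lit 7]],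
  [[nat_lit 1, nat_lit 2, nat_lit 3], [nat_lit 0, nat_lit 4, nat_lit 5], [nat_lit 0, nat_lit 4, nat_lit 6], [nat_lit 0, nat_lit 7, nat_lit 8], [nat_lit 1, nat_lit 2, nat_lit 9], [nat_lit 1, nat_lit 7, nat_lit 9], [nat_lit 2, nat_lit 8], [nat_lit 3, nat_lit 5], [nat_lit 3, nat_lit 6], [nat_lit 4, nat_lit 5]],
  [[nat_lit 1, nat_lit 2, nat_lit 3], [nat_lit 0, nat_lit 4, nat_lit 5], [nat_lit 0, nat_lit 4, nat_lit 5], [nat_lit 0, nat_lit 4, nat_lit 6], [nat_lit 1, nat_lit 2, nat_lit 3], [nat_lit 1, nat_lit 2, nat_lit 7], [nat_lit 3, nat_lit 8, nat_lit 9], [nat_lit 5, nat_lit 8], [nat_lit 6, nat_lit 7], [nat_lit 6]],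
  [[nat_lit 1, nat_lit 2, nat_lit 3], [nat_lit 0, nat_lit 4, nat_lit 5], [nat_lit 0, nat_lit 6, nat_lit 7], [nat_lit 0, nat_lit 8, nat_lit 9], [nat_lit 1, nat_lit 10, nat_lit 11], [nat_lit 1], [nat_lit 2, nat_lit 10], [nat_lit 2], [nat_lit 3], [nat_lit 3], [nat_lit 4, nat_lit 6, nat_lit 11], [nat_lit 4, nat_lit 10]],
  [[nat_lit 1, nat_lit 2, nat_lit 3], [nat_lit 0, nat_lit 4, nat_lit 5], [nat_lit 0, nat_lit 6, nat_lit 7], [nat_lit 0, nat_lit 8, nat_lit 9], [nat_lit 1, nat_lit 6], [nat_lit 1, nat_lit 10, nat_lit 11], [nat_lit 2, nat_lit 4], [nat_lit 2], [nat_lit 3], [nat_lit 3], [nat_lit 5], [nat_lit 5]],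
  [[nat_lit 1, nat_lit 2, nat_lit 3], [nat_lit 0, nat_lit 2, nat_lit 4], [nat_lit 0, nat_lit 1, nat_lit 5], [nat_lit 0, nat_lit 6, nat_lit 7], [nat_lit 1, nat_lit 6, nat_lit 8], [nat_lit 2, nat_lit 7, nat_lit 8], [nat_lit 3, nat_lit 4, nat_lit 9], [nat_lit 3, nat_lit 5], [nat_lit 4, nat_lit 5], [nat_lit 6]],
  [[nat_lit 1, nat_lit 2, nat_lit 3], [nat_lit 0, nat_lit 4, nat_lit 5], [nat_lit 0, nat_lit 6, nat_lit 7], [nat_lit 0, nat_lit 8, nat_lit 9], [nat_lit 1, nat_lit 6, nat_lit 7], [nat_lit 1, nat_lit 9], [nat_lit 2, nat_lit 4, nat_lit 9], [nat_lit 2, nat_lit 4], [nat_lit 3], [nat_lit 3, nat_lit 5, nat_lit 6]],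
  [[nat_lit 1, nat_lit 2, nat_lit 3], [nat_lit 0, nat_lit 4, nat_lit 5], [nat_lit 0, nat_lit 6, nat_lit 7], [nat_lit 0, nat_lit 8, nat_lit 9], [nat_lit 1, nat_lit 5], [nat_lit 1, nat_lit 4, nat_lit 10], [nat_lit 2, nat_lit 7, nat_lit 11], [nat_lit 2, nat_lit 6], [nat_lit 3], [nat_lit 3], [nat_lit 5], [nat_lit 6]],
  [[nat_lit 1, nat_lit 2, nat_lit 3], [nat_lit 0, nat_lit 4, nat_lit 5], [nat_lit 0], [nat_lit 0], [nat_lit 1, nat_lit 6, nat_lit 7], [nat_lit 1, nat_lit 6, nat_lit 7], [nat_lit 4, nat_lit 5, nat_lit 7], [nat_lit 4, nat_lit 5, nat_lit 6]]]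

noncomputable def lv2 : List (List (List Nat)) := [
  [[nat_lit 1, nat_lit 2, nat_lit 3], [nat_lit 0, nat_lit 4, nat_lit 5], [nat_lit 0, nat_lit 4, nat_lit 6], [nat_lit 0, nat_lit 7, nat_lit 8], [nat_lit 1, nat_lit 2, nat_lit 9], [nat_lit 1, nat_lit 10], [nat_lit 2], [nat_lit 3, nat_lit 9, nat_lit 10], [nat_lit 3], [nat_lit 4, nat_lit 7], [nat_lit 5, nat_lit 7]],
  [[nat_lit 1, nat_lit 2, nat_lit 3], [nat_lit 0, nat_lit 2, nat_lit 4], [nat_lit 0, nat_lit 1, nat_lit 5], [nat_lit 0, nat_lit 6, nat_lit 7], [nat_lit 1, nat_lit 8, nat_lit 9], [nat_lit 2, nat_lit 8], [nat_lit 3, nat_lit 7, nat_lit 8], [nat_lit 3, nat_lit 6], [nat_lit 4, nat_lit 5, nat_lit 6], [nat_lit 4]],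
  [[nat_lit 1, nat_lit 2, nat_lit 3], [nat_lit 0, nat_lit 4, nat_lit 5], [nat_lit 0, nat_lit 6, nat_lit 7], [nat_lit 0], [nat_lit 1, nat_lit 8, nat_lit 9], [nat_lit 1], [nat_lit 2, nat_lit 10, nat_lit 11], [nat_lit 2, nat_lit 10, nat_lit 11], [nat_lit 4, nat_lit 9, nat_lit 12], [nat_lit 4, nat_lit 8], [nat_lit 6, nat_lit 7], [nat_lit 6, nat_lit 7], [nat_lit 8]],
  [[nat_lit 1, nat_lit 2, nat_lit 3], [nat_lit 0, nat_lit 4, nat_lit 5], [nat_lit 0, nat_lit 6, nat_lit 7], [nat_lit 0, nat_lit 8, nat_lit 9], [nat_lit 1, nat_lit 5], [nat_lit 1, nat_lit 4, nat_lit 10], [nat_lit 2, nat_lit 7, nat_lit 11], [nat_lit 2, nat_lit 6], [nat_lit 3, nat_lit 9, nat_lit 11], [nat_lit 3, nat_lit 8], [nat_lit 5], [nat_lit 6, nat_lit 8]],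
  [[nat_lit 1, nat_lit 2, nat_lit 3], [nat_lit 0, nat_lit 4, nat_lit 5], [nat_lit 0, nat_lit 4, nat_lit 6], [nat_lit 0, nat_lit 7, nat_lit 8], [nat_lit 1, nat_lit 2, nat_lit 9], [nat_lit 1, nat_lit 7, nat_lit 10], [nat_lit 2, nat_lit 10], [nat_lit 3, nat_lit 5], [nat_lit 3, nat_lit 9], [nat_lit 4, nat_lit 8], [nat_lit 5, nat_lit 6]],
  [[nat_lit 1, nat_lit 2], [nat_lit 0, nat_lit 3, nat_lit 4], [nat_lit 0, nat_lit 3, nat_lit 5], [nat_lit 1, nat_lit 2, nat_lit 8], [nat_lit 1, nat_lit 6, nat_lit 8], [nat_lit 2, nat_lit 7, nat_lit 8], [nat_lit 4], [nat_lit 5], [nat_lit 3, nat_lit 4, nat_lit 5]],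
  [[nat_lit 1, nat_lit 2, nat_lit 3], [nat_lit 0, nat_lit 4, nat_lit 5], [nat_lit 0, nat_lit 4, nat_lit 6], [nat_lit 0, nat_lit 7, nat_lit 8], [nat_lit 1, nat_lit 2, nat_lit 9], [nat_lit 1, nat_lit 7], [nat_lit 2], [nat_lit 3, nat_lit 5, nat_lit 8], [nat_lit 3, nat_lit 7, nat_lit 9], [nat_lit 4, nat_lit 8]],
  [[nat_lit 1, nat_lit 2, nat_lit 3], [nat_lit 0, nat_lit 4, nat_lit 5], [nat_lit 0, nat_lit 4, nat_lit 6], [nat_lit 0, nat_lit 7, nat_lit 8], [nat_lit 1, nat_lit 2, nat_lit 9], [nat_lit 1, nat_lit 7], [nat_lit 2, nat_lit 7], [nat_lit 3, nat_lit 5, nat_lit 6], [nat_lit 3], [nat_lit 4]],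
  [[nat_lit 1, nat_lit 2, nat_lit 3], [nat_lit 0, nat_lit 4, nat_lit 5], [nat_lit 0, nat_lit 6, nat_lit 7], [nat_lit 0, nat_lit 8, nat_lit 9], [nat_lit 1, nat_lit 6, nat_lit 10], [nat_lit 1, nat_lit 11], [nat_lit 2, nat_lit 4], [nat_lit 2], [nat_lit 3, nat_lit 10, nat_lit 11], [nat_lit 3], [nat_lit 4, nat_lit 8], [nat_lit 5, nat_lit 8]],
  [[nat_lit 1, nat_lit 2], [nat_lit 0, nat_lit 3, nat_lit 4], [nat_lit 0, nat_lit 5, nat_lit 6], [nat_lit 1, nat_lit 4, nat_lit 5], [nat_lit 1, nat_lit 3, nat_lit 6], [nat_lit 2, nat_lit 3, nat_lit 6], [nat_lit 2, nat_lit 4, nat_lit 5]],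
  [[nat_lit 1, nat_lit 2, nat_lit 3], [nat_lit 0, nat_lit 4, nat_lit 5], [nat_lit 0, nat_lit 6, nat_lit 7], [nat_lit 0, nat_lit 6, nat_lit 7], [nat_lit 1], [nat_lit 1], [nat_lit 2, nat_lit 3, nat_lit 8], [nat_lit 2, nat_lit 3, nat_lit 9], [nat_lit 6, nat_lit 9], [nat_lit 7, nat_lit 8]],
  [[nat_lit 1, nat_lit 2, nat_lit 3], [nat_lit 0, nat_lit 4, nat_lit 5], [nat_lit 0, nat_lit 4, nat_lit 6], [nat_lit 0, nat_lit 7, nat_lit 8], [nat_lit 1, nat_lit 2, nat_lit 9], [nat_lit 1, nat_lit 6, nat_lit 7], [nat_lit 2, nat_lit 5], [nat_lit 3, nat_lit 5], [nat_lit 3], [nat_lit 4]],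
  [[nat_lit 1, nat_lit 2, nat_lit 3], [nat_lit 0, nat_lit 4, nat_lit 5], [nat_lit 0, nat_lit 4, nat_lit 6], [nat_lit 0, nat_lit 7, nat_lit 8], [nat_lit 1, nat_lit 2, nat_lit 9], [nat_lit 1, nat_lit 9], [nat_lit 2], [nat_lit 3], [nat_lit 3], [nat_lit 4, nat_lit 5]],
  [[nat_lit 1, nat_lit 2, nat_lit 3], [nat_lit 0, nat_lit 4, nat_lit 5], [nat_lit 0, nat_lit 6], [nat_lit 0, nat_lit 7, nat_lit 8], [nat_lit 1, nat_lit 6, nat_lit 9], [nat_lit 1, nat_lit 7, nat_lit 9], [nat_lit 2, nat_lit 4, nat_lit 10], [nat_lit 3, nat_lit 5, nat_lit 10], [nat_lit 3], [nat_lit 4, nat_lit 5], [nat_lit 6, nat_lit 7]],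
  [[nat_lit 1, nat_lit 2, nat_lit 3], [nat_lit 0, nat_lit 4, nat_lit 5], [nat_lit 0, nat_lit 4, nat_lit 6], [nat_lit 0, nat_lit 7], [nat_lit 1, nat_lit 2, nat_lit 8], [nat_lit 1, nat_lit 6, nat_lit 7], [nat_lit 2, nat_lit 5, nat_lit 8], [nat_lit 3, nat_lit 5], [nat_lit 4, nat_lit 6]],
  [[nat_lit 1, nat_lit 2, nat_lit 3], [nat_lit 0, nat_lit 4, nat_lit 5], [nat_lit 0, nat_lit 4], [nat_lit 0, nat_lit 6, nat_lit 7], [nat_lit 1, nat_lit 2, nat_lit 8], [nat_lit 1, nat_lit 6, nat_lit 8], [nat_lit 3, nat_lit 5, nat_lit 8], [nat_lit 3], [nat_lit 4, nat_lit 5, nat_lit 6]],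
  [[nat_lit 1, nat_lit 2, nat_lit 3], [nat_lit 0, nat_lit 4], [nat_lit 0, nat_lit 5, nat_lit 6], [nat_lit 0, nat_lit 7, nat_lit 8], [nat_lit 1, nat_lit 5, nat_lit 6], [nat_lit 2, nat_lit 4, nat_lit 8], [nat_lit 2, nat_lit 4, nat_lit 8], [nat_lit 3], [nat_lit 3, nat_lit 5, nat_lit 6]],
  [[nat_lit 1, nat_lit 2, nat_lit 3], [nat_lit 0, nat_lit 4, nat_lit 5], [nat_lit 0, nat_lit 6, nat_lit 7], [nat_lit 0, nat_lit 8, nat_lit 9], [nat_lit 1, nat_lit 10, nat_lit 11], [nat_lit 1], [nat_lit 2, nat_lit 10], [nat_lit 2, nat_lit 11], [nat_lit 3, nat_lit 10], [nat_lit 3], [nat_lit 4, nat_lit 6, nat_lit 8], [nat_lit 4, nat_lit 7]],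
  [[nat_lit 1, nat_lit 2, nat_lit 3], [nat_lit 0, nat_lit 4, nat_lit 5], [nat_lit 0, nat_lit 4, nat_lit 6], [nat_lit 0, nat_lit 7, nat_lit 8], [nat_lit 1, nat_lit 2, nat_lit 9], [nat_lit 1, nat_lit 10], [nat_lit 2], [nat_lit 3, nat_lit 8, nat_lit 10], [nat_lit 3, nat_lit 7], [nat_lit 4], [nat_lit 5, nat_lit 7]],
  [[nat_lit 1, nat_lit 2, nat_lit 3], [nat_lit 0, nat_lit 4, nat_lit 5], [nat_lit 0, nat_lit 6], [nat_lit 0, nat_lit 7, nat_lit 8], [nat_lit 1, nat_lit 9], [nat_lit 1, nat_lit 7, nat_lit 10], [nat_lit 2, nat_lit 9, nat_lit 10], [nat_lit 3, nat_lit 5, nat_lit 9], [nat_lit 3], [nat_lit 4, nat_lit 6, nat_lit 7], [nat_lit 5, nat_lit 6]],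
  [[nat_lit 1, nat_lit 2, nat_lit 3], [nat_lit 0, nat_lit 4, nat_lit 5], [nat_lit 0, nat_lit 6, nat_lit 7], [nat_lit 0, nat_lit 8, nat_lit 9], [nat_lit 1, nat_lit 10, nat_lit 11], [nat_lit 1, nat_lit 10], [nat_lit 2, nat_lit 10], [nat_lit 2, nat_lit 11], [nat_lit 3], [nat_lit 3], [nat_lit 4, nat_lit 5, nat_lit 6], [nat_lit 4, nat_lit 7]],
  [[nat_lit 1, nat_lit 2, nat_lit 3], [nat_lit 0, nat_lit 4, nat_lit 5], [nat_lit 0, nat_lit 6, nat_lit 7], [nat_lit 0, nat_lit 8, nat_lit 9], [nat_lit 1, nat_lit 6], [nat_lit 1, nat_lit 10], [nat_lit 2, nat_lit 4, nat_lit 11], [nat_lit 2], [nat_lit 3, nat_lit 10, nat_lit 11], [nat_lit 3], [nat_lit 5, nat_lit 8], [nat_lit 6, nat_lit 8]],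
  [[nat_lit 1, nat_lit 2, nat_lit 3], [nat_lit 0, nat_lit 4, nat_lit 5], [nat_lit 0, nat_lit 6, nat_lit 7], [nat_lit 0, nat_lit 6, nat_lit 7], [nat_lit 1, nat_lit 5], [nat_lit 1, nat_lit 4, nat_lit 8], [nat_lit 2, nat_lit 3, nat_lit 9], [nat_lit 2, nat_lit 3, nat_lit 9], [nat_lit 5], [nat_lit 6, nat_lit 7]],
  [[nat_lit 1, nat_lit 2, nat_lit 3], [nat_lit 0, nat_lit 4, nat_lit 5], [nat_lit 0, nat_lit 4, nat_lit 6], [nat_lit 0, nat_lit 4, nat_lit 7], [nat_lit 1, nat_lit 2, nat_lit 3], [nat_lit 1, nat_lit 8, nat_lit 9], [nat_lit 2, nat_lit 8], [nat_lit 3], [nat_lit 5, nat_lit 6, nat_lit 9], [nat_lit 5, nat_lit 8]],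
  [[nat_lit 1, nat_lit 2, nat_lit 3], [nat_lit 0, nat_lit 4, nat_lit 5], [nat_lit 0, nat_lit 6, nat_lit 7], [nat_lit 0, nat_lit 8, nat_lit 9], [nat_lit 1, nat_lit 5], [nat_lit 1, nat_lit 4, nat_lit 10], [nat_lit 2, nat_lit 7], [nat_lit 2, nat_lit 6, nat_lit 11], [nat_lit 3, nat_lit 9, nat_lit 12], [nat_lit 3, nat_lit 8], [nat_lit 5], [nat_lit 7], [nat_lit 8]],
  [[nat_lit 1, nat_lit 2, nat_lit 3], [nat_lit 0, nat_lit 2, nat_lit 4], [nat_lit 0, nat_lit 1, nat_lit 5], [nat_lit 0, nat_lit 4, nat_lit 6], [nat_lit 1, nat_lit 3, nat_lit 7], [nat_lit 2, nat_lit 8], [nat_lit 3, nat_lit 7, nat_lit 8], [nat_lit 4, nat_lit 6], [nat_lit 5, nat_lit 6]],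
  [[nat_lit 1, nat_lit 2, nat_lit 3], [nat_lit 0, nat_lit 4, nat_lit 5], [nat_lit 0, nat_lit 6, nat_lit 7], [nat_lit 0, nat_lit 8, nat_lit 9], [nat_lit 1, nat_lit 5], [nat_lit 1, nat_lit 4, nat_lit 10], [nat_lit 2, nat_lit 8, nat_lit 11], [nat_lit 2, nat_lit 9], [nat_lit 3, nat_lit 6], [nat_lit 3, nat_lit 7, nat_lit 11], [nat_lit 5], [nat_lit 6, nat_lit 9]],
  [[nat_lit 1, nat_lit 2, nat_lit 3], [nat_lit 0, nat_lit 4, nat_lit 5], [nat_lit 0, nat_lit 6, nat_lit 7], [nat_lit 0, nat_lit 8, nat_lit 9], [nat_lit 1, nat_lit 10, nat_lit 11], [nat_lit 1, nat_lit 12], [nat_lit 2], [nat_lit 2], [nat_lit 3], [nat_lit 3], [nat_lit 4, nat_lit 11, nat_lit 12], [nat_lit 4, nat_lit 10], [nat_lit 5, nat_lit 10]],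
  [[nat_lit 1, nat_lit 2, nat_lit 3], [nat_lit 0, nat_lit 4, nat_lit 5], [nat_lit 0, nat_lit 4, nat_lit 6], [nat_lit 0, nat_lit 7, nat_lit 8], [nat_lit 1, nat_lit 2, nat_lit 7], [nat_lit 1, nat_lit 6, nat_lit 9], [nat_lit 2, nat_lit 5, nat_lit 10], [nat_lit 3, nat_lit 4], [nat_lit 3, nat_lit 9], [nat_lit 5, nat_lit 8], [nat_lit 6]],
  [[nat_lit 1, nat_lit 2, nat_lit 3], [nat_lit 0, nat_lit 4, nat_lit 5], [nat_lit 0, nat_lit 6, nat_lit 7], [nat_lit 0], [nat_lit 1, nat_lit 6, nat_lit 8], [nat_lit 1, nat_lit 9, nat_lit 10], [nat_lit 2, nat_lit 4, nat_lit 8], [nat_lit 2, nat_lit 9], [nat_lit 4, nat_lit 6], [nat_lit 5, nat_lit 7], [nat_lit 5]],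
  [[nat_lit 1, nat_lit 2, nat_lit 3], [nat_lit 0, nat_lit 2, nat_lit 4], [nat_lit 0, nat_lit 1, nat_lit 5], [nat_lit 0, nat_lit 6, nat_lit 7], [nat_lit 1, nat_lit 8, nat_lit 9], [nat_lit 2, nat_lit 10], [nat_lit 3, nat_lit 8, nat_lit 10], [nat_lit 3], [nat_lit 4, nat_lit 6], [nat_lit 4], [nat_lit 5, nat_lit 6]],
  [[nat_lit 1, nat_lit 2, nat_lit 3], [nat_lit 0, nat_lit 2, nat_lit 4], [nat_lit 0, nat_lit 1, nat_lit 5], [nat_lit 0, nat_lit 6, nat_lit 7], [nat_lit 1, nat_lit 8, nat_lit 9], [nat_lit 2], [nat_lit 3, nat_lit 7, nat_lit 10], [nat_lit 3, nat_lit 6], [nat_lit 4, nat_lit 9, nat_lit 10], [nat_lit 4, nat_lit 8], [nat_lit 6, nat_lit 8]]]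

noncomputable def lv3 : List (List (List Nat)) := [
  [[nat_lit 1, nat_lit 2, nat_lit 3], [nat_lit 0, nat_lit 4, nat_lit 5], [nat_lit 0, nat_lit 6, nat_lit 7], [nat_lit 0], [nat_lit 1, nat_lit 6, nat_lit 8], [nat_lit 1, nat_lit 9, nat_lit 10], [nat_lit 2, nat_lit 4, nat_lit 8], [nat_lit 2], [nat_lit 4, nat_lit 6], [nat_lit 5], [nat_lit 5]],
  [[nat_lit 1, nat_lit 2], [nat_lit 0, nat_lit 2, nat_lit 3], [nat_lit 0, nat_lit 1, nat_lit 4], [nat_lit 1, nat_lit 5, nat_lit 6], [nat_lit 2, nat_lit 5, nat_lit 6], [nat_lit 3, nat_lit 4, nat_lit 6], [nat_lit 3, nat_lit 4, nat_lit 5]],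
  [[nat_lit 1, nat_lit 2], [nat_lit 0, nat_lit 3, nat_lit 4], [nat_lit 0, nat_lit 3, nat_lit 5], [nat_lit 1, nat_lit 2, nat_lit 6], [nat_lit 1, nat_lit 5, nat_lit 6], [nat_lit 2, nat_lit 4, nat_lit 6], [nat_lit 3, nat_lit 4, nat_lit 5]],
  [[nat_lit 1, nat_lit 2, nat_lit 3], [nat_lit 0, nat_lit 4, nat_lit 5], [nat_lit 0, nat_lit 6, nat_lit 7], [nat_lit 0, nat_lit 8, nat_lit 9], [nat_lit 1, nat_lit 5, nat_lit 6], [nat_lit 1, nat_lit 4], [nat_lit 2, nat_lit 4, nat_lit 8], [nat_lit 2], [nat_lit 3, nat_lit 6, nat_lit 9], [nat_lit 3, nat_lit 8]],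
  [[nat_lit 1, nat_lit 2, nat_lit 3], [nat_lit 0, nat_lit 4, nat_lit 5], [nat_lit 0, nat_lit 6, nat_lit 7], [nat_lit 0, nat_lit 8, nat_lit 9], [nat_lit 1, nat_lit 5], [nat_lit 1, nat_lit 4, nat_lit 10], [nat_lit 2, nat_lit 8, nat_lit 11], [nat_lit 2], [nat_lit 3, nat_lit 6], [nat_lit 3], [nat_lit 5], [nat_lit 6]],
  [[nat_lit 1, nat_lit 2, nat_lit 3], [nat_lit 0, nat_lit 4, nat_lit 5], [nat_lit 0, nat_lit 4, nat_lit 6], [nat_lit 0, nat_lit 7, nat_lit 8], [nat_lit 1, nat_lit 2, nat_lit 9], [nat_lit 1], [nat_lit 2], [nat_lit 3, nat_lit 8, nat_lit 10], [nat_lit 3, nat_lit 7], [nat_lit 4, nat_lit 10], [nat_lit 7, nat_lit 9]],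
  [[nat_lit 1, nat_lit 2, nat_lit 3], [nat_lit 0, nat_lit 4, nat_lit 5], [nat_lit 0, nat_lit 6, nat_lit 7], [nat_lit 0, nat_lit 8, nat_lit 9], [nat_lit 1, nat_lit 5, nat_lit 10], [nat_lit 1, nat_lit 4], [nat_lit 2, nat_lit 8, nat_lit 10], [nat_lit 2], [nat_lit 3, nat_lit 6], [nat_lit 3, nat_lit 10], [nat_lit 4, nat_lit 6, nat_lit 9]],
  [[nat_lit 1, nat_lit 2, nat_lit 3], [nat_lit 0, nat_lit 4, nat_lit 5], [nat_lit 0, nat_lit 4, nat_lit 6], [nat_lit 0, nat_lit 7, nat_lit 8], [nat_lit 1, nat_lit 2, nat_lit 9], [nat_lit 1], [nat_lit 2], [nat_lit 3, nat_lit 8, nat_lit 10], [nat_lit 3, nat_lit 7], [nat_lit 4], [nat_lit 7]],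
  [[nat_lit 1, nat_lit 2, nat_lit 3], [nat_lit 0, nat_lit 4, nat_lit 5], [nat_lit 0, nat_lit 6, nat_lit 7], [nat_lit 0, nat_lit 8], [nat_lit 1, nat_lit 5, nat_lit 6], [nat_lit 1, nat_lit 4, nat_lit 8], [nat_lit 2, nat_lit 4, nat_lit 7], [nat_lit 2, nat_lit 6, nat_lit 8], [nat_lit 3, nat_lit 5, nat_lit 7]],
  [[nat_lit 1, nat_lit 2, nat_lit 3], [nat_lit 0, nat_lit 4, nat_lit 5], [nat_lit 0, nat_lit 6, nat_lit 7], [nat_lit 0, nat_lit 6, nat_lit 7], [nat_lit 1, nat_lit 8, nat_lit 9], [nat_lit 1, nat_lit 10, nat_lit 11], [nat_lit 2, nat_lit 3, nat_lit 12], [nat_lit 2, nat_lit 3], [nat_lit 4, nat_lit 12], [nat_lit 4], [nat_lit 5], [nat_lit 5], [nat_lit 6, nat_lit 8]],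
  [[nat_lit 1, nat_lit 2, nat_lit 3], [nat_lit 0, nat_lit 4, nat_lit 5], [nat_lit 0, nat_lit 6, nat_lit 7], [nat_lit 0, nat_lit 8, nat_lit 9], [nat_lit 1, nat_lit 5, nat_lit 6], [nat_lit 1, nat_lit 4, nat_lit 8], [nat_lit 2, nat_lit 4, nat_lit 9], [nat_lit 2], [nat_lit 3, nat_lit 5], [nat_lit 3, nat_lit 6]],
  [[nat_lit 1, nat_lit 2, nat_lit 3], [nat_lit 0, nat_lit 4, nat_lit 5], [nat_lit 0, nat_lit 4, nat_lit 6], [nat_lit 0, nat_lit 7, nat_lit 8], [nat_lit 1, nat_lit 2, nat_lit 9], [nat_lit 1, nat_lit 7, nat_lit 9], [nat_lit 2, nat_lit 7], [nat_lit 3, nat_lit 5, nat_lit 6], [nat_lit 3], [nat_lit 4, nat_lit 5]],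
  [[nat_lit 1, nat_lit 2, nat_lit 3], [nat_lit 0, nat_lit 4, nat_lit 5], [nat_lit 0, nat_lit 6, nat_lit 7], [nat_lit 0], [nat_lit 1, nat_lit 5, nat_lit 6], [nat_lit 1, nat_lit 4, nat_lit 8], [nat_lit 2, nat_lit 4, nat_lit 9], [nat_lit 2, nat_lit 9], [nat_lit 5], [nat_lit 6, nat_lit 7]],
  [[nat_lit 1, nat_lit 2, nat_lit 3], [nat_lit 0, nat_lit 2, nat_lit 4], [nat_lit 0, nat_lit 1, nat_lit 5], [nat_lit 0, nat_lit 6, nat_lit 7], [nat_lit 1, nat_lit 8, nat_lit 9], [nat_lit 2], [nat_lit 3, nat_lit 8], [nat_lit 3, nat_lit 8], [nat_lit 4, nat_lit 6, nat_lit 7], [nat_lit 4]],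
  [[nat_lit 1, nat_lit 2, nat_lit 3], [nat_lit 0, nat_lit 4, nat_lit 5], [nat_lit 0, nat_lit 6, nat_lit 7], [nat_lit 0, nat_lit 8, nat_lit 9], [nat_lit 1, nat_lit 5], [nat_lit 1, nat_lit 4, nat_lit 10], [nat_lit 2, nat_lit 7, nat_lit 11], [nat_lit 2, nat_lit 6], [nat_lit 3], [nat_lit 3, nat_lit 10], [nat_lit 5, nat_lit 9], [nat_lit 6]],
  [[nat_lit 1, nat_lit 2, nat_lit 3], [nat_lit 0, nat_lit 4, nat_lit 5], [nat_lit 0, nat_lit 6, nat_lit 7], [nat_lit 0, nat_lit 8, nat_lit 9], [nat_lit 1, nat_lit 10, nat_lit 11], [nat_lit 1], [nat_lit 2, nat_lit 10, nat_lit 11], [nat_lit 2], [nat_lit 3], [nat_lit 3], [nat_lit 4, nat_lit 6], [nat_lit 4, nat_lit 6]],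
  [[nat_lit 1, nat_lit 2, nat_lit 3], [nat_lit 0, nat_lit 4, nat_lit 5], [nat_lit 0, nat_lit 4, nat_lit 6], [nat_lit 0, nat_lit 4, nat_lit 7], [nat_lit 1, nat_lit 2, nat_lit 3], [nat_lit 1, nat_lit 8, nat_lit 9], [nat_lit 2, nat_lit 10], [nat_lit 3], [nat_lit 5, nat_lit 9, nat_lit 10], [nat_lit 5, nat_lit 8], [nat_lit 6, nat_lit 8]],
  [[nat_lit 1, nat_lit 2, nat_lit 3], [nat_lit 0, nat_lit 4, nat_lit 5], [nat_lit 0, nat_lit 6, nat_lit 7], [nat_lit 0, nat_lit 8, nat_lit 9], [nat_lit 1, nat_lit 6, nat_lit 8], [nat_lit 1, nat_lit 7, nat_lit 9], [nat_lit 2, nat_lit 4, nat_lit 10], [nat_lit 2, nat_lit 5], [nat_lit 3, nat_lit 4], [nat_lit 3, nat_lit 5], [nat_lit 6]],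
  [[nat_lit 1, nat_lit 2, nat_lit 3], [nat_lit 0, nat_lit 4, nat_lit 5], [nat_lit 0, nat_lit 4, nat_lit 6], [nat_lit 0, nat_lit 7, nat_lit 8], [nat_lit 1, nat_lit 2, nat_lit 9], [nat_lit 1, nat_lit 10], [nat_lit 2], [nat_lit 3, nat_lit 8, nat_lit 10], [nat_lit 3, nat_lit 7], [nat_lit 4, nat_lit 10], [nat_lit 5, nat_lit 7, nat_lit 9]],
  [[nat_lit 1, nat_lit 2, nat_lit 3], [nat_lit 0, nat_lit 4, nat_lit 5], [nat_lit 0, nat_lit 6], [nat_lit 0, nat_lit 7, nat_lit 8], [nat_lit 1, nat_lit 6], [nat_lit 1, nat_lit 7, nat_lit 9], [nat_lit 2, nat_lit 4, nat_lit 10], [nat_lit 3, nat_lit 5, nat_lit 10], [nat_lit 3, nat_lit 10], [nat_lit 5], [nat_lit 6, nat_lit 7, nat_lit 8]],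
  [[nat_lit 1, nat_lit 2, nat_lit 3], [nat_lit 0, nat_lit 4, nat_lit 5], [nat_lit 0, nat_lit 6, nat_lit 7], [nat_lit 0], [nat_lit 1, nat_lit 6, nat_lit 8], [nat_lit 1, nat_lit 7, nat_lit 9], [nat_lit 2, nat_lit 4, nat_lit 10], [nat_lit 2, nat_lit 5, nat_lit 10], [nat_lit 4], [nat_lit 5], [nat_lit 6, nat_lit 7]],
  [[nat_lit 1, nat_lit 2, nat_lit 3], [nat_lit 0, nat_lit 4, nat_lit 5], [nat_lit 0, nat_lit 6, nat_lit 7], [nat_lit 0, nat_lit 8, nat_lit 9], [nat_lit 1, nat_lit 5, nat_lit 10], [nat_lit 1, nat_lit 4], [nat_lit 2, nat_lit 8, nat_lit 11], [nat_lit 2, nat_lit 10], [nat_lit 3, nat_lit 6], [nat_lit 3], [nat_lit 4, nat_lit 7], [nat_lit 6]],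
  [[nat_lit 1, nat_lit 2, nat_lit 3], [nat_lit 0, nat_lit 4, nat_lit 5], [nat_lit 0, nat_lit 6, nat_lit 7], [nat_lit 0, nat_lit 8, nat_lit 9], [nat_lit 1, nat_lit 6], [nat_lit 1, nat_lit 10, nat_lit 11], [nat_lit 2, nat_lit 4], [nat_lit 2, nat_lit 10], [nat_lit 3], [nat_lit 3], [nat_lit 5, nat_lit 7], [nat_lit 5]],
  [[nat_lit 1, nat_lit 2, nat_lit 3], [nat_lit 0], [nat_lit 0, nat_lit 4, nat_lit 5], [nat_lit 0, nat_lit 6, nat_lit 7], [nat_lit 2, nat_lit 6, nat_lit 7], [nat_lit 2, nat_lit 6, nat_lit 7], [nat_lit 3, nat_lit 4, nat_lit 5], [nat_lit 3, nat_lit 4, nat_lit 5]],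
  [[nat_lit 1, nat_lit 2, nat_lit 3], [nat_lit 0, nat_lit 2, nat_lit 4], [nat_lit 0, nat_lit 1, nat_lit 5], [nat_lit 0, nat_lit 6, nat_lit 7], [nat_lit 1, nat_lit 6], [nat_lit 2, nat_lit 7, nat_lit 8], [nat_lit 3, nat_lit 4], [nat_lit 3, nat_lit 5, nat_lit 8], [nat_lit 5, nat_lit 7]],
  [[nat_lit 1, nat_lit 2, nat_lit 3], [nat_lit 0, nat_lit 4, nat_lit 5], [nat_lit 0, nat_lit 6, nat_lit 7], [nat_lit 0, nat_lit 8], [nat_lit 1, nat_lit 5, nat_lit 6], [nat_lit 1, nat_lit 4, nat_lit 9], [nat_lit 2, nat_lit 4, nat_lit 8], [nat_lit 2], [nat_lit 3, nat_lit 6], [nat_lit 5]],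
  [[nat_lit 1, nat_lit 2], [nat_lit 0, nat_lit 4, nat_lit 5], [nat_lit 0, nat_lit 6, nat_lit 7], [nat_lit 6, nat_lit 9], [nat_lit 1], [nat_lit 1, nat_lit 7, nat_lit 8], [nat_lit 2, nat_lit 3, nat_lit 9], [nat_lit 2, nat_lit 5, nat_lit 9], [nat_lit 5], [nat_lit 3, nat_lit 6, nat_lit 7]],
  [[nat_lit 3, nat_lit 4], [nat_lit 5, nat_lit 6], [nat_lit 7, nat_lit 8], [nat_lit 0, nat_lit 4, nat_lit 9], [nat_lit 0, nat_lit 3, nat_lit 10], [nat_lit 1, nat_lit 6, nat_lit 9], [nat_lit 1, nat_lit 5, nat_lit 11], [nat_lit 2, nat_lit 8, nat_lit 12], [nat_lit 2, nat_lit 7, nat_lit 12], [nat_lit 3, nat_lit 5, nat_lit 12], [nat_lit 4], [nat_lit 6], [nat_lit 7, nat_lit 8, nat_lit 9]],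
  [[nat_lit 1, nat_lit 3], [nat_lit 0, nat_lit 4], [nat_lit 5, nat_lit 6], [nat_lit 0, nat_lit 7, nat_lit 8], [nat_lit 1, nat_lit 9, nat_lit 10], [nat_lit 2, nat_lit 6, nat_lit 9], [nat_lit 2, nat_lit 5, nat_lit 10], [nat_lit 3, nat_lit 8, nat_lit 10], [nat_lit 3, nat_lit 7], [nat_lit 4, nat_lit 5], [nat_lit 4, nat_lit 6, nat_lit 7]],
  [[nat_lit 1, nat_lit 2, nat_lit 3], [nat_lit 0, nat_lit 4, nat_lit 5], [nat_lit 0, nat_lit 6, nat_lit 7], [nat_lit 0, nat_lit 8, nat_lit 9], [nat_lit 1, nat_lit 6, nat_lit 7], [nat_lit 1, nat_lit 10], [nat_lit 2, nat_lit 4, nat_lit 8], [nat_lit 2, nat_lit 4], [nat_lit 3, nat_lit 6, nat_lit 10], [nat_lit 3], [nat_lit 5, nat_lit 8]],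
  [[nat_lit 1, nat_lit 2, nat_lit 3], [nat_lit 0, nat_lit 4, nat_lit 5], [nat_lit 0, nat_lit 6, nat_lit 7], [nat_lit 0, nat_lit 8], [nat_lit 1, nat_lit 6, nat_lit 8], [nat_lit 1, nat_lit 7, nat_lit 9], [nat_lit 2, nat_lit 4, nat_lit 10], [nat_lit 2, nat_lit 5, nat_lit 10], [nat_lit 3, nat_lit 4], [nat_lit 5], [nat_lit 6, nat_lit 7]],
  [[nat_lit 1, nat_lit 2, nat_lit 3], [nat_lit 0, nat_lit 4, nat_lit 5], [nat_lit 0, nat_lit 6, nat_lit 7], [nat_lit 0, nat_lit 8, nat_lit 9], [nat_lit 1, nat_lit 6, nat_lit 8], [nat_lit 1, nat_lit 10], [nat_lit 2, nat_lit 4], [nat_lit 2, nat_lit 8, nat_lit 10], [nat_lit 3, nat_lit 4, nat_lit 7], [nat_lit 3], [nat_lit 5, nat_lit 7]]]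

noncomputable def lv4 : List (List (List Nat)) := [
  [[nat_lit 1, nat_lit 2, nat_lit 3], [nat_lit 0, nat_lit 4, nat_lit 5], [nat_lit 0, nat_lit 6, nat_lit 7], [nat_lit 0, nat_lit 8], [nat_lit 1, nat_lit 6, nat_lit 9], [nat_lit 1, nat_lit 8, nat_lit 10], [nat_lit 2, nat_lit 4], [nat_lit 2, nat_lit 9], [nat_lit 3, nat_lit 5, nat_lit 9], [nat_lit 4, nat_lit 7, nat_lit 8], [nat_lit 5]],
  [[nat_lit 1, nat_lit 2, nat_lit 3], [nat_lit 0, nat_lit 4, nat_lit 5], [nat_lit 0, nat_lit 6, nat_lit 7], [nat_lit 0, nat_lit 8, nat_lit 9], [nat_lit 1, nat_lit 6, nat_lit 10], [nat_lit 1, nat_lit 8], [nat_lit 2, nat_lit 4, nat_lit 11], [nat_lit 2], [nat_lit 3, nat_lit 5], [nat_lit 3, nat_lit 10, nat_lit 11], [nat_lit 4, nat_lit 9], [nat_lit 6, nat_lit 9]],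
  [[nat_lit 1, nat_lit 2, nat_lit 3], [nat_lit 0, nat_lit 4, nat_lit 5], [nat_lit 0, nat_lit 6, nat_lit 7], [nat_lit 0, nat_lit 8, nat_lit 9], [nat_lit 1, nat_lit 6], [nat_lit 1, nat_lit 10, nat_lit 11], [nat_lit 2, nat_lit 4], [nat_lit 2, nat_lit 10], [nat_lit 3, nat_lit 10], [nat_lit 3], [nat_lit 5, nat_lit 7, nat_lit 8], [nat_lit 5]],
  [[nat_lit 1, nat_lit 2, nat_lit 3], [nat_lit 0, nat_lit 4, nat_lit 5], [nat_lit 0, nat_lit 6, nat_lit 7], [nat_lit 0, nat_lit 8, nat_lit 9], [nat_lit 1, nat_lit 10, nat_lit 11], [nat_lit 1], [nat_lit 2, nat_lit 12, nat_lit 13], [nat_lit 2, nat_lit 12], [nat_lit 3], [nat_lit 3], [nat_lit 4, nat_lit 11, nat_lit 13], [nat_lit 4, nat_lit 10], [nat_lit 6, nat_lit 7], [nat_lit 6, nat_lit 10]],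
  [[nat_lit 1, nat_lit 2, nat_lit 3], [nat_lit 0, nat_lit 2, nat_lit 4], [nat_lit 0, nat_lit 1, nat_lit 5], [nat_lit 0, nat_lit 6, nat_lit 7], [nat_lit 1, nat_lit 8, nat_lit 9], [nat_lit 2, nat_lit 8], [nat_lit 3, nat_lit 7, nat_lit 9], [nat_lit 3, nat_lit 6], [nat_lit 4, nat_lit 5], [nat_lit 4, nat_lit 6]],
  [[nat_lit 1, nat_lit 2, nat_lit 3], [nat_lit 0, nat_lit 4, nat_lit 5], [nat_lit 0, nat_lit 4, nat_lit 6], [nat_lit 0, nat_lit 7, nat_lit 8], [nat_lit 1, nat_lit 2, nat_lit 7], [nat_lit 1, nat_lit 6, nat_lit 8], [nat_lit 2, nat_lit 5, nat_lit 9], [nat_lit 3, nat_lit 4, nat_lit 9], [nat_lit 3, nat_lit 5], [nat_lit 6, nat_lit 7]],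
  [[nat_lit 1, nat_lit 2, nat_lit 3], [nat_lit 0, nat_lit 2, nat_lit 3], [nat_lit 0, nat_lit 1, nat_lit 4], [nat_lit 0, nat_lit 1, nat_lit 5], [nat_lit 2, nat_lit 6, nat_lit 7], [nat_lit 3, nat_lit 6, nat_lit 7], [nat_lit 4, nat_lit 5, nat_lit 8], [nat_lit 4, nat_lit 5, nat_lit 9], [nat_lit 6], [nat_lit 7]],
  [[nat_lit 1, nat_lit 2, nat_lit 3], [nat_lit 0, nat_lit 2, nat_lit 4], [nat_lit 0, nat_lit 1, nat_lit 5], [nat_lit 0, nat_lit 6, nat_lit 7], [nat_lit 1, nat_lit 6, nat_lit 7], [nat_lit 2, nat_lit 8, nat_lit 9], [nat_lit 3, nat_lit 4, nat_lit 8], [nat_lit 3, nat_lit 4], [nat_lit 5, nat_lit 6], [nat_lit 5]],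
  [[nat_lit 1, nat_lit 2, nat_lit 3], [nat_lit 0, nat_lit 4, nat_lit 5], [nat_lit 0, nat_lit 4, nat_lit 6], [nat_lit 0, nat_lit 4, nat_lit 7], [nat_lit 1, nat_lit 2, nat_lit 3], [nat_lit 1, nat_lit 8, nat_lit 9], [nat_lit 2, nat_lit 8, nat_lit 9], [nat_lit 3], [nat_lit 5, nat_lit 6], [nat_lit 5, nat_lit 6]],
  [[nat_lit 1, nat_lit 2, nat_lit 3], [nat_lit 0, nat_lit 4, nat_lit 5], [nat_lit 0, nat_lit 4, nat_lit 6], [nat_lit 0, nat_lit 7, nat_lit 8], [nat_lit 1, nat_lit 2, nat_lit 9], [nat_lit 1, nat_lit 7], [nat_lit 2, nat_lit 8], [nat_lit 3, nat_lit 5, nat_lit 8], [nat_lit 3, nat_lit 6, nat_lit 7], [nat_lit 4]],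
  [[nat_lit 1, nat_lit 2, nat_lit 3], [nat_lit 0, nat_lit 4, nat_lit 5], [nat_lit 0, nat_lit 6, nat_lit 7], [nat_lit 0, nat_lit 8, nat_lit 9], [nat_lit 1, nat_lit 5, nat_lit 6], [nat_lit 1, nat_lit 4], [nat_lit 2, nat_lit 4, nat_lit 9], [nat_lit 2, nat_lit 9], [nat_lit 3], [nat_lit 3, nat_lit 6, nat_lit 7]],
  [[nat_lit 1, nat_lit 2, nat_lit 3], [nat_lit 0, nat_lit 4, nat_lit 5], [nat_lit 0, nat_lit 6, nat_lit 7], [nat_lit 0, nat_lit 8, nat_lit 9], [nat_lit 1, nat_lit 5, nat_lit 6], [nat_lit 1, nat_lit 4], [nat_lit 2, nat_lit 4, nat_lit 10], [nat_lit 2, nat_lit 8], [nat_lit 3, nat_lit 7], [nat_lit 3, nat_lit 10], [nat_lit 6, nat_lit 9]],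
  [[nat_lit 1, nat_lit 2, nat_lit 3], [nat_lit 0, nat_lit 4, nat_lit 5], [nat_lit 0, nat_lit 6, nat_lit 7], [nat_lit 0, nat_lit 8], [nat_lit 1, nat_lit 6, nat_lit 9], [nat_lit 1, nat_lit 8, nat_lit 9], [nat_lit 2, nat_lit 4, nat_lit 10], [nat_lit 2], [nat_lit 3, nat_lit 5], [nat_lit 4, nat_lit 5], [nat_lit 6]],
  [[nat_lit 1, nat_lit 2, nat_lit 3], [nat_lit 0, nat_lit 4, nat_lit 5], [nat_lit 0, nat_lit 6, nat_lit 7], [nat_lit 0], [nat_lit 1, nat_lit 5, nat_lit 8], [nat_lit 1, nat_lit 4, nat_lit 9], [nat_lit 2, nat_lit 8], [nat_lit 2, nat_lit 10], [nat_lit 4, nat_lit 6, nat_lit 10], [nat_lit 5], [nat_lit 7, nat_lit 8]],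
  [[nat_lit 1, nat_lit 2, nat_lit 3], [nat_lit 0, nat_lit 4, nat_lit 5], [nat_lit 0, nat_lit 6, nat_lit 7], [nat_lit 0], [nat_lit 1, nat_lit 6, nat_lit 8], [nat_lit 1, nat_lit 9], [nat_lit 2, nat_lit 4, nat_lit 10], [nat_lit 2, nat_lit 9, nat_lit 10], [nat_lit 4], [nat_lit 5, nat_lit 7], [nat_lit 6, nat_lit 7]],
  [[nat_lit 1, nat_lit 2, nat_lit 3], [nat_lit 0, nat_lit 4], [nat_lit 0, nat_lit 5, nat_lit 6], [nat_lit 0, nat_lit 7, nat_lit 8], [nat_lit 1, nat_lit 9, nat_lit 10], [nat_lit 2, nat_lit 7], [nat_lit 2], [nat_lit 3, nat_lit 5, nat_lit 10], [nat_lit 3, nat_lit 9, nat_lit 10], [nat_lit 4, nat_lit 8], [nat_lit 4, nat_lit 7, nat_lit 8]],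
  [[nat_lit 1, nat_lit 2, nat_lit 3], [nat_lit 0, nat_lit 2, nat_lit 4], [nat_lit 0, nat_lit 1, nat_lit 5], [nat_lit 0, nat_lit 6, nat_lit 7], [nat_lit 1, nat_lit 6, nat_lit 7], [nat_lit 2, nat_lit 8], [nat_lit 3, nat_lit 4, nat_lit 8], [nat_lit 3, nat_lit 4, nat_lit 8], [nat_lit 5, nat_lit 6, nat_lit 7]],
  [[nat_lit 1, nat_lit 2, nat_lit 3], [nat_lit 0, nat_lit 4], [nat_lit 0, nat_lit 4, nat_lit 5], [nat_lit 0, nat_lit 6, nat_lit 7], [nat_lit 1, nat_lit 2], [nat_lit 2, nat_lit 8], [nat_lit 3, nat_lit 7, nat_lit 8], [nat_lit 3, nat_lit 6, nat_lit 8], [nat_lit 5, nat_lit 6, nat_lit 7]],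
  [[nat_lit 1, nat_lit 2], [nat_lit 0, nat_lit 4, nat_lit 5], [nat_lit 0, nat_lit 6, nat_lit 7], [nat_lit 8], [nat_lit 1, nat_lit 6, nat_lit 7], [nat_lit 1, nat_lit 6, nat_lit 8], [nat_lit 2, nat_lit 4, nat_lit 5], [nat_lit 2, nat_lit 4, nat_lit 8], [nat_lit 3, nat_lit 5, nat_lit 7]],
  [[nat_lit 1, nat_lit 2, nat_lit 3], [nat_lit 0, nat_lit 2, nat_lit 4], [nat_lit 0, nat_lit 1, nat_lit 5], [nat_lit 0, nat_lit 6, nat_lit 7], [nat_lit 1, nat_lit 6, nat_lit 7], [nat_lit 2], [nat_lit 3, nat_lit 4, nat_lit 8], [nat_lit 3, nat_lit 4, nat_lit 8], [nat_lit 6, nat_lit 7]],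
  [[nat_lit 1, nat_lit 2, nat_lit 3], [nat_lit 0, nat_lit 4, nat_lit 5], [nat_lit 0, nat_lit 6, nat_lit 7], [nat_lit 0, nat_lit 8, nat_lit 9], [nat_lit 1, nat_lit 10, nat_lit 11], [nat_lit 1], [nat_lit 2, nat_lit 11], [nat_lit 2, nat_lit 11], [nat_lit 3], [nat_lit 3], [nat_lit 4], [nat_lit 4, nat_lit 6, nat_lit 7]],
  [[nat_lit 1, nat_lit 2, nat_lit 3], [nat_lit 0, nat_lit 4, nat_lit 5], [nat_lit 0], [nat_lit 0, nat_lit 6, nat_lit 7], [nat_lit 1, nat_lit 5, nat_lit 7], [nat_lit 1, nat_lit 4, nat_lit 7], [nat_lit 3], [nat_lit 3, nat_lit 4, nat_lit 5]],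
  [[nat_lit 1, nat_lit 2, nat_lit 3], [nat_lit 0, nat_lit 4, nat_lit 5], [nat_lit 0, nat_lit 6, nat_lit 7], [nat_lit 0, nat_lit 8, nat_lit 9], [nat_lit 1, nat_lit 5, nat_lit 10], [nat_lit 1, nat_lit 4], [nat_lit 2, nat_lit 8, nat_lit 11], [nat_lit 2, nat_lit 10], [nat_lit 3, nat_lit 6], [nat_lit 3, nat_lit 11], [nat_lit 4, nat_lit 7], [nat_lit 6, nat_lit 9]],
  [[nat_lit 1, nat_lit 2, nat_lit 3], [nat_lit 0, nat_lit 4, nat_lit 5], [nat_lit 0, nat_lit 6, nat_lit 7], [nat_lit 0, nat_lit 8, nat_lit 9], [nat_lit 1, nat_lit 6], [nat_lit 1, nat_lit 10, nat_lit 11], [nat_lit 2, nat_lit 4], [nat_lit 2], [nat_lit 3], [nat_lit 3, nat_lit 10, nat_lit 11], [nat_lit 5, nat_lit 9], [nat_lit 5, nat_lit 9]],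
  [[nat_lit 1, nat_lit 2, nat_lit 3], [nat_lit 0, nat_lit 4, nat_lit 5], [nat_lit 0, nat_lit 6, nat_lit 7], [nat_lit 0, nat_lit 8], [nat_lit 1, nat_lit 6, nat_lit 9], [nat_lit 1, nat_lit 8, nat_lit 10], [nat_lit 2, nat_lit 4, nat_lit 11], [nat_lit 2, nat_lit 10], [nat_lit 3, nat_lit 5], [nat_lit 4], [nat_lit 5, nat_lit 7], [nat_lit 6]],
  [[nat_lit 1, nat_lit 2, nat_lit 3], [nat_lit 0, nat_lit 4, nat_lit 5], [nat_lit 0, nat_lit 6, nat_lit 7], [nat_lit 0, nat_lit 8, nat_lit 9], [nat_lit 1, nat_lit 10, nat_lit 11], [nat_lit 1, nat_lit 10], [nat_lit 2, nat_lit 10, nat_lit 11], [nat_lit 2], [nat_lit 3], [nat_lit 3], [nat_lit 4, nat_lit 5, nat_lit 6], [nat_lit 4, nat_lit 6]],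
  [[nat_lit 1, nat_lit 2, nat_lit 3], [nat_lit 0, nat_lit 4, nat_lit 5], [nat_lit 0, nat_lit 6, nat_lit 7], [nat_lit 0, nat_lit 8, nat_lit 9], [nat_lit 1, nat_lit 6], [nat_lit 1, nat_lit 10, nat_lit 11], [nat_lit 2, nat_lit 4, nat_lit 11], [nat_lit 2], [nat_lit 3], [nat_lit 3], [nat_lit 5], [nat_lit 5, nat_lit 6]],
  [[nat_lit 1, nat_lit 2, nat_lit 3], [nat_lit 0, nat_lit 4, nat_lit 5], [nat_lit 0, nat_lit 6, nat_lit 7], [nat_lit 0, nat_lit 8, nat_lit 9], [nat_lit 1, nat_lit 10, nat_lit 11], [nat_lit 1, nat_lit 10], [nat_lit 2, nat_lit 10], [nat_lit 2], [nat_lit 3], [nat_lit 3], [nat_lit 4, nat_lit 5, nat_lit 6], [nat_lit 4]],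
  [[nat_lit 1, nat_lit 2, nat_lit 3], [nat_lit 0, nat_lit 4, nat_lit 5], [nat_lit 0, nat_lit 6, nat_lit 7], [nat_lit 0, nat_lit 6, nat_lit 7], [nat_lit 1, nat_lit 8, nat_lit 9], [nat_lit 1, nat_lit 10], [nat_lit 2, nat_lit 3, nat_lit 8], [nat_lit 2, nat_lit 3, nat_lit 10], [nat_lit 4, nat_lit 6], [nat_lit 4], [nat_lit 5, nat_lit 7]],
  [[nat_lit 1, nat_lit 2, nat_lit 3], [nat_lit 0, nat_lit 4, nat_lit 5], [nat_lit 0, nat_lit 6, nat_lit 7], [nat_lit 0, nat_lit 8, nat_lit 9], [nat_lit 1, nat_lit 6, nat_lit 8], [nat_lit 1, nat_lit 10], [nat_lit 2, nat_lit 4, nat_lit 10], [nat_lit 2, nat_lit 8], [nat_lit 3, nat_lit 4, nat_lit 7], [nat_lit 3], [nat_lit 5, nat_lit 6]],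
  [[nat_lit 1, nat_lit 2, nat_lit 3], [nat_lit 0, nat_lit 4, nat_lit 5], [nat_lit 0, nat_lit 6, nat_lit 7], [nat_lit 0, nat_lit 8, nat_lit 9], [nat_lit 1, nat_lit 5, nat_lit 6], [nat_lit 1, nat_lit 4], [nat_lit 2, nat_lit 4, nat_lit 10], [nat_lit 2, nat_lit 8], [nat_lit 3, nat_lit 7], [nat_lit 3], [nat_lit 6]],
  [[nat_lit 1, nat_lit 2, nat_lit 3], [nat_lit 0, nat_lit 4, nat_lit 5], [nat_lit 0, nat_lit 4, nat_lit 6], [nat_lit 0, nat_lit 7, nat_lit 8], [nat_lit 1, nat_lit 2], [nat_lit 1, nat_lit 9, nat_lit 10], [nat_lit 2], [nat_lit 3], [nat_lit 3, nat_lit 9, nat_lit 10], [nat_lit 5, nat_lit 8], [nat_lit 5, nat_lit 8]]]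

noncomputable def lv5 : List (List (List Nat)) := [
  [[nat_lit 1, nat_lit 2, nat_lit 3], [nat_lit 0, nat_lit 4, nat_lit 5], [nat_lit 0, nat_lit 4, nat_lit 5], [nat_lit 0, nat_lit 4, nat_lit 6], [nat_lit 1, nat_lit 2, nat_lit 3], [nat_lit 1, nat_lit 2, nat_lit 7], [nat_lit 3, nat_lit 8, nat_lit 9], [nat_lit 5], [nat_lit 6], [nat_lit 6]],
  [[nat_lit 1, nat_lit 2, nat_lit 3], [nat_lit 0, nat_lit 4, nat_lit 5], [nat_lit 0, nat_lit 4, nat_lit 6], [nat_lit 0, nat_lit 7, nat_lit 8], [nat_lit 1, nat_lit 2, nat_lit 7], [nat_lit 1, nat_lit 9], [nat_lit 2, nat_lit 9], [nat_lit 3, nat_lit 4, nat_lit 9], [nat_lit 3], [nat_lit 5, nat_lit 6, nat_lit 7]],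
  [[nat_lit 1, nat_lit 2, nat_lit 3], [nat_lit 0, nat_lit 4, nat_lit 5], [nat_lit 0, nat_lit 4, nat_lit 6], [nat_lit 0, nat_lit 7, nat_lit 8], [nat_lit 1, nat_lit 2, nat_lit 9], [nat_lit 1, nat_lit 7, nat_lit 9], [nat_lit 2], [nat_lit 3, nat_lit 5, nat_lit 8], [nat_lit 3, nat_lit 7], [nat_lit 4, nat_lit 5]],
  [[nat_lit 1, nat_lit 2, nat_lit 3], [nat_lit 0, nat_lit 4, nat_lit 5], [nat_lit 0, nat_lit 4, nat_lit 6], [nat_lit 0, nat_lit 7, nat_lit 8], [nat_lit 1, nat_lit 2, nat_lit 9], [nat_lit 1, nat_lit 9], [nat_lit 2], [nat_lit 3, nat_lit 8, nat_lit 9], [nat_lit 3, nat_lit 7], [nat_lit 4, nat_lit 5, nat_lit 7]],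
  [[nat_lit 1, nat_lit 2, nat_lit 3], [nat_lit 0, nat_lit 2, nat_lit 4], [nat_lit 0, nat_lit 1, nat_lit 5], [nat_lit 0, nat_lit 6, nat_lit 7], [nat_lit 1, nat_lit 8, nat_lit 9], [nat_lit 2], [nat_lit 3, nat_lit 7, nat_lit 8], [nat_lit 3, nat_lit 6], [nat_lit 4, nat_lit 6, nat_lit 9], [nat_lit 4, nat_lit 8]],
  [[nat_lit 1, nat_lit 2, nat_lit 3], [nat_lit 0, nat_lit 4, nat_lit 5], [nat_lit 0, nat_lit 6, nat_lit 7], [nat_lit 0, nat_lit 8, nat_lit 9], [nat_lit 1, nat_lit 5, nat_lit 6], [nat_lit 1, nat_lit 4], [nat_lit 2, nat_lit 4, nat_lit 7], [nat_lit 2, nat_lit 6], [nat_lit 3], [nat_lit 3]],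
  [[nat_lit 1, nat_lit 2, nat_lit 3], [nat_lit 0, nat_lit 4, nat_lit 5], [nat_lit 0], [nat_lit 0, nat_lit 6, nat_lit 7], [nat_lit 1, nat_lit 5, nat_lit 8], [nat_lit 1, nat_lit 4, nat_lit 9], [nat_lit 3, nat_lit 9], [nat_lit 3], [nat_lit 4, nat_lit 9], [nat_lit 5, nat_lit 6, nat_lit 8]],
  [[nat_lit 1, nat_lit 2, nat_lit 3], [nat_lit 0, nat_lit 2, nat_lit 4], [nat_lit 0, nat_lit 1], [nat_lit 0, nat_lit 5, nat_lit 6], [nat_lit 1, nat_lit 7, nat_lit 8], [nat_lit 3, nat_lit 6, nat_lit 7], [nat_lit 3, nat_lit 5, nat_lit 8], [nat_lit 4, nat_lit 5, nat_lit 8], [nat_lit 4, nat_lit 6, nat_lit 7]],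
  [[nat_lit 1, nat_lit 2, nat_lit 3], [nat_lit 0, nat_lit 2, nat_lit 4], [nat_lit 0, nat_lit 1], [nat_lit 0, nat_lit 5, nat_lit 6], [nat_lit 1, nat_lit 7, nat_lit 8], [nat_lit 3, nat_lit 7, nat_lit 8], [nat_lit 3, nat_lit 7, nat_lit 8], [nat_lit 4, nat_lit 5, nat_lit 6], [nat_lit 4, nat_lit 5, nat_lit 6]],
  [[nat_lit 1, nat_lit 2, nat_lit 3], [nat_lit 0, nat_lit 4, nat_lit 5], [nat_lit 0, nat_lit 4, nat_lit 6], [nat_lit 0, nat_lit 4], [nat_lit 1, nat_lit 2, nat_lit 3], [nat_lit 1, nat_lit 7, nat_lit 8], [nat_lit 2, nat_lit 7, nat_lit 8], [nat_lit 5, nat_lit 6, nat_lit 8], [nat_lit 5, nat_lit 6, nat_lit 7]],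
  [[nat_lit 1, nat_lit 2, nat_lit 3], [nat_lit 0, nat_lit 4, nat_lit 5], [nat_lit 0, nat_lit 4], [nat_lit 0, nat_lit 6, nat_lit 7], [nat_lit 1, nat_lit 2, nat_lit 6], [nat_lit 1, nat_lit 7, nat_lit 8], [nat_lit 3, nat_lit 4, nat_lit 8], [nat_lit 3, nat_lit 5, nat_lit 8], [nat_lit 5, nat_lit 6, nat_lit 7]],
  [[nat_lit 1, nat_lit 2, nat_lit 3], [nat_lit 0, nat_lit 4, nat_lit 5], [nat_lit 0, nat_lit 4, nat_lit 6], [nat_lit 0, nat_lit 5, nat_lit 7], [nat_lit 1, nat_lit 2], [nat_lit 1, nat_lit 3, nat_lit 8], [nat_lit 2, nat_lit 7, nat_lit 8], [nat_lit 3, nat_lit 6, nat_lit 8], [nat_lit 5, nat_lit 6, nat_lit 7]],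
  [[nat_lit 1, nat_lit 2, nat_lit 3], [nat_lit 0, nat_lit 4, nat_lit 5], [nat_lit 0, nat_lit 4], [nat_lit 0, nat_lit 6, nat_lit 7], [nat_lit 1, nat_lit 2, nat_lit 8], [nat_lit 1, nat_lit 6, nat_lit 7], [nat_lit 3, nat_lit 5, nat_lit 8], [nat_lit 3, nat_lit 5, nat_lit 8], [nat_lit 4, nat_lit 6, nat_lit 7]],
  [[nat_lit 1, nat_lit 2, nat_lit 3], [nat_lit 0, nat_lit 2, nat_lit 4], [nat_lit 0, nat_lit 1, nat_lit 5], [nat_lit 0, nat_lit 6, nat_lit 7], [nat_lit 1, nat_lit 6], [nat_lit 2, nat_lit 7, nat_lit 8], [nat_lit 3, nat_lit 4, nat_lit 8], [nat_lit 3, nat_lit 5, nat_lit 8], [nat_lit 5, nat_lit 6, nat_lit 7]],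
  [[nat_lit 1, nat_lit 2, nat_lit 3], [nat_lit 0, nat_lit 2, nat_lit 4], [nat_lit 0, nat_lit 1, nat_lit 5], [nat_lit 0, nat_lit 4, nat_lit 6], [nat_lit 1, nat_lit 3, nat_lit 7], [nat_lit 2, nat_lit 8], [nat_lit 3, nat_lit 7, nat_lit 8], [nat_lit 4, nat_lit 6, nat_lit 8], [nat_lit 5, nat_lit 6, nat_lit 7]],
  [[nat_lit 1, nat_lit 2, nat_lit 3], [nat_lit 0, nat_lit 4, nat_lit 5], [nat_lit 0, nat_lit 4, nat_lit 6], [nat_lit 0, nat_lit 7], [nat_lit 1, nat_lit 2, nat_lit 8], [nat_lit 1, nat_lit 7, nat_lit 8], [nat_lit 2, nat_lit 7, nat_lit 8], [nat_lit 3, nat_lit 5, nat_lit 6], [nat_lit 4, nat_lit 5, nat_lit 6]],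
  [[nat_lit 1, nat_lit 2, nat_lit 3], [nat_lit 0, nat_lit 4, nat_lit 5], [nat_lit 0, nat_lit 6], [nat_lit 0, nat_lit 7, nat_lit 8], [nat_lit 1, nat_lit 6, nat_lit 7], [nat_lit 1, nat_lit 7, nat_lit 8], [nat_lit 2, nat_lit 4, nat_lit 8], [nat_lit 3, nat_lit 4, nat_lit 5], [nat_lit 3, nat_lit 5, nat_lit 6]],
  [[nat_lit 1, nat_lit 2, nat_lit 3], [nat_lit 0, nat_lit 4, nat_lit 5], [nat_lit 0, nat_lit 4, nat_lit 6], [nat_lit 0, nat_lit 7], [nat_lit 1, nat_lit 2, nat_lit 8], [nat_lit 1, nat_lit 6, nat_lit 7], [nat_lit 2, nat_lit 5, nat_lit 8], [nat_lit 3, nat_lit 5, nat_lit 8], [nat_lit 4, nat_lit 6, nat_lit 7]],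
  [[nat_lit 1, nat_lit 2, nat_lit 3], [nat_lit 0, nat_lit 4, nat_lit 5], [nat_lit 0, nat_lit 4, nat_lit 6], [nat_lit 0, nat_lit 7], [nat_lit 1, nat_lit 2, nat_lit 7], [nat_lit 1, nat_lit 6, nat_lit 8], [nat_lit 2, nat_lit 5, nat_lit 8], [nat_lit 3, nat_lit 4, nat_lit 8], [nat_lit 5, nat_lit 6, nat_lit 7]],
  [[nat_lit 1, nat_lit 2, nat_lit 3], [nat_lit 0, nat_lit 4, nat_lit 5], [nat_lit 0, nat_lit 4, nat_lit 6], [nat_lit 0, nat_lit 7], [nat_lit 1, nat_lit 2, nat_lit 8], [nat_lit 1, nat_lit 8], [nat_lit 2, nat_lit 7, nat_lit 8], [nat_lit 3, nat_lit 6], [nat_lit 4, nat_lit 5, nat_lit 6]],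
  [[nat_lit 1, nat_lit 2, nat_lit 3], [nat_lit 0, nat_lit 4, nat_lit 5], [nat_lit 0, nat_lit 4, nat_lit 6], [nat_lit 0, nat_lit 7], [nat_lit 1, nat_lit 2, nat_lit 8], [nat_lit 1, nat_lit 6], [nat_lit 2, nat_lit 5, nat_lit 8], [nat_lit 3, nat_lit 8], [nat_lit 4, nat_lit 6, nat_lit 7]],
  [[nat_lit 1, nat_lit 2, nat_lit 3], [nat_lit 0, nat_lit 4, nat_lit 5], [nat_lit 0, nat_lit 4], [nat_lit 0], [nat_lit 1, nat_lit 2, nat_lit 6], [nat_lit 1, nat_lit 7, nat_lit 8], [nat_lit 4, nat_lit 7, nat_lit 8], [nat_lit 5, nat_lit 6, nat_lit 8], [nat_lit 5, nat_lit 6, nat_lit 7]],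
  [[nat_lit 1, nat_lit 2, nat_lit 3], [nat_lit 0, nat_lit 4, nat_lit 5], [nat_lit 0, nat_lit 6], [nat_lit 0], [nat_lit 1, nat_lit 5, nat_lit 7], [nat_lit 1, nat_lit 4, nat_lit 8], [nat_lit 2, nat_lit 7, nat_lit 8], [nat_lit 4, nat_lit 6, nat_lit 8], [nat_lit 5, nat_lit 6, nat_lit 7]],
  [[nat_lit 1, nat_lit 2, nat_lit 3], [nat_lit 0, nat_lit 2, nat_lit 4], [nat_lit 0, nat_lit 1, nat_lit 5], [nat_lit 0, nat_lit 6, nat_lit 7], [nat_lit 1, nat_lit 8], [nat_lit 2], [nat_lit 3, nat_lit 7, nat_lit 8], [nat_lit 3, nat_lit 6, nat_lit 8], [nat_lit 4, nat_lit 6, nat_lit 7]],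
  [[nat_lit 1, nat_lit 2], [nat_lit 0, nat_lit 2, nat_lit 3], [nat_lit 0, nat_lit 1, nat_lit 4], [nat_lit 1, nat_lit 6, nat_lit 7], [nat_lit 2, nat_lit 6, nat_lit 8], [nat_lit 8], [nat_lit 3, nat_lit 4, nat_lit 7], [nat_lit 3, nat_lit 6, nat_lit 8], [nat_lit 4, nat_lit 5, nat_lit 7]],
  [[nat_lit 1, nat_lit 2, nat_lit 3], [nat_lit 0, nat_lit 2, nat_lit 4], [nat_lit 0, nat_lit 1], [nat_lit 0, nat_lit 4, nat_lit 5], [nat_lit 1, nat_lit 3, nat_lit 6], [nat_lit 3, nat_lit 6, nat_lit 8], [nat_lit 4, nat_lit 5, nat_lit 8], [nat_lit 8], [nat_lit 5, nat_lit 6, nat_lit 7]],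
  [[nat_lit 1, nat_lit 2], [nat_lit 0, nat_lit 3, nat_lit 4], [nat_lit 0, nat_lit 3, nat_lit 5], [nat_lit 1, nat_lit 2, nat_lit 7], [nat_lit 1, nat_lit 7, nat_lit 8], [nat_lit 2, nat_lit 7, nat_lit 8], [nat_lit 8], [nat_lit 3, nat_lit 4, nat_lit 5], [nat_lit 4, nat_lit 5, nat_lit 6]],
  [[nat_lit 1, nat_lit 2], [nat_lit 0, nat_lit 3, nat_lit 4], [nat_lit 0, nat_lit 5, nat_lit 6], [nat_lit 1, nat_lit 4, nat_lit 5], [nat_lit 1, nat_lit 3, nat_lit 8], [nat_lit 2, nat_lit 3, nat_lit 6], [nat_lit 2, nat_lit 5, nat_lit 8], [nat_lit 8], [nat_lit 4, nat_lit 6, nat_lit 7]],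
  [[nat_lit 1, nat_lit 2], [nat_lit 0, nat_lit 3, nat_lit 4], [nat_lit 0, nat_lit 3, nat_lit 5], [nat_lit 1, nat_lit 2, nat_lit 7], [nat_lit 1, nat_lit 5, nat_lit 7], [nat_lit 2, nat_lit 4, nat_lit 8], [nat_lit 8], [nat_lit 3, nat_lit 4, nat_lit 8], [nat_lit 5, nat_lit 6, nat_lit 7]],
  [[nat_lit 1, nat_lit 2, nat_lit 3], [nat_lit 0, nat_lit 4, nat_lit 5], [nat_lit 0, nat_lit 6], [nat_lit 0, nat_lit 6], [nat_lit 1, nat_lit 5, nat_lit 7], [nat_lit 1, nat_lit 4, nat_lit 8], [nat_lit 2, nat_lit 3, nat_lit 7], [nat_lit 4, nat_lit 6, nat_lit 8], [nat_lit 5, nat_lit 7]],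
  [[nat_lit 1, nat_lit 2, nat_lit 3], [nat_lit 0, nat_lit 4, nat_lit 5], [nat_lit 0, nat_lit 6], [nat_lit 0, nat_lit 6], [nat_lit 1, nat_lit 6, nat_lit 7], [nat_lit 1, nat_lit 7, nat_lit 8], [nat_lit 2, nat_lit 3, nat_lit 4], [nat_lit 4, nat_lit 5, nat_lit 8], [nat_lit 5, nat_lit 7]],
  [[nat_lit 1, nat_lit 2], [nat_lit 0, nat_lit 3, nat_lit 4], [nat_lit 0, nat_lit 6, nat_lit 7], [nat_lit 1], [nat_lit 1, nat_lit 6, nat_lit 8], [nat_lit 8], [nat_lit 2, nat_lit 4, nat_lit 7], [nat_lit 2, nat_lit 6, nat_lit 8], [nat_lit 4, nat_lit 5, nat_lit 7]]]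

noncomputable def lv6 : List (List (List Nat)) := [
  [[nat_lit 1, nat_lit 2, nat_lit 3], [nat_lit 0, nat_lit 4, nat_lit 5], [nat_lit 0, nat_lit 4, nat_lit 6], [nat_lit 0], [nat_lit 1, nat_lit 2, nat_lit 7], [nat_lit 1], [nat_lit 2, nat_lit 7, nat_lit 8], [nat_lit 4, nat_lit 6, nat_lit 8], [nat_lit 6, nat_lit 7]],
  [[nat_lit 1, nat_lit 2, nat_lit 3], [nat_lit 0, nat_lit 4, nat_lit 5], [nat_lit 0, nat_lit 6, nat_lit 7], [nat_lit 0, nat_lit 8], [nat_lit 1, nat_lit 6, nat_lit 9], [nat_lit 1, nat_lit 8, nat_lit 10], [nat_lit 2, nat_lit 4, nat_lit 11], [nat_lit 2, nat_lit 9], [nat_lit 3, nat_lit 5], [nat_lit 4, nat_lit 7], [nat_lit 5], [nat_lit 6]],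
  [[nat_lit 1, nat_lit 2, nat_lit 3], [nat_lit 0, nat_lit 4, nat_lit 5], [nat_lit 0, nat_lit 6, nat_lit 7], [nat_lit 0, nat_lit 8, nat_lit 9], [nat_lit 1, nat_lit 5], [nat_lit 1, nat_lit 4, nat_lit 10], [nat_lit 2, nat_lit 8, nat_lit 11], [nat_lit 2, nat_lit 11], [nat_lit 3, nat_lit 6], [nat_lit 3], [nat_lit 5], [nat_lit 6, nat_lit 7]],
  [[nat_lit 1, nat_lit 2, nat_lit 3], [nat_lit 0, nat_lit 4, nat_lit 5], [nat_lit 0, nat_lit 6, nat_lit 7], [nat_lit 0, nat_lit 8, nat_lit 9], [nat_lit 1, nat_lit 5, nat_lit 10], [nat_lit 1, nat_lit 4, nat_lit 10], [nat_lit 2, nat_lit 7, nat_lit 11], [nat_lit 2, nat_lit 6], [nat_lit 3, nat_lit 9, nat_lit 11], [nat_lit 3, nat_lit 8], [nat_lit 4, nat_lit 5], [nat_lit 6, nat_lit 8]],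
  [[nat_lit 1, nat_lit 2, nat_lit 3], [nat_lit 0, nat_lit 4, nat_lit 5], [nat_lit 0, nat_lit 6, nat_lit 7], [nat_lit 0, nat_lit 8], [nat_lit 1, nat_lit 6, nat_lit 9], [nat_lit 1, nat_lit 8, nat_lit 10], [nat_lit 2, nat_lit 4, nat_lit 11], [nat_lit 2], [nat_lit 3, nat_lit 5], [nat_lit 4], [nat_lit 5], [nat_lit 6]],
  [[nat_lit 1, nat_lit 2, nat_lit 3], [nat_lit 0, nat_lit 4, nat_lit 5], [nat_lit 0, nat_lit 4, nat_lit 6], [nat_lit 0, nat_lit 7, nat_lit 8], [nat_lit 1, nat_lit 2, nat_lit 9], [nat_lit 1, nat_lit 7, nat_lit 10], [nat_lit 2, nat_lit 7, nat_lit 10], [nat_lit 3, nat_lit 5, nat_lit 6], [nat_lit 3, nat_lit 9], [nat_lit 4, nat_lit 8], [nat_lit 5, nat_lit 6]],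
  [[nat_lit 1, nat_lit 2, nat_lit 3], [nat_lit 0, nat_lit 2, nat_lit 4], [nat_lit 0, nat_lit 1, nat_lit 5], [nat_lit 0, nat_lit 6, nat_lit 7], [nat_lit 1, nat_lit 8, nat_lit 9], [nat_lit 2, nat_lit 10], [nat_lit 3, nat_lit 8, nat_lit 10], [nat_lit 3, nat_lit 9], [nat_lit 4, nat_lit 6, nat_lit 10], [nat_lit 4, nat_lit 7], [nat_lit 5, nat_lit 6, nat_lit 8]],
  [[nat_lit 1, nat_lit 2, nat_lit 3], [nat_lit 0, nat_lit 4, nat_lit 5], [nat_lit 0, nat_lit 6, nat_lit 7], [nat_lit 0, nat_lit 8, nat_lit 9], [nat_lit 1, nat_lit 5, nat_lit 10], [nat_lit 1, nat_lit 4], [nat_lit 2, nat_lit 8], [nat_lit 2, nat_lit 8], [nat_lit 3, nat_lit 6, nat_lit 7], [nat_lit 3, nat_lit 10], [nat_lit 4, nat_lit 9]],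
  [[nat_lit 1, nat_lit 2, nat_lit 3], [nat_lit 0, nat_lit 4, nat_lit 5], [nat_lit 0, nat_lit 6, nat_lit 7], [nat_lit 0, nat_lit 8], [nat_lit 1, nat_lit 6, nat_lit 9], [nat_lit 1, nat_lit 8, nat_lit 10], [nat_lit 2, nat_lit 4, nat_lit 10], [nat_lit 2], [nat_lit 3, nat_lit 5], [nat_lit 4, nat_lit 10], [nat_lit 5, nat_lit 6, nat_lit 9]],
  [[nat_lit 1, nat_lit 2, nat_lit 3], [nat_lit 0, nat_lit 4, nat_lit 5], [nat_lit 0, nat_lit 4, nat_lit 6], [nat_lit 0, nat_lit 7, nat_lit 8], [nat_lit 1, nat_lit 2, nat_lit 9], [nat_lit 1, nat_lit 10], [nat_lit 2], [nat_lit 3, nat_lit 8, nat_lit 9], [nat_lit 3, nat_lit 7, nat_lit 10], [nat_lit 4, nat_lit 7], [nat_lit 5, nat_lit 8]],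
  [[nat_lit 1, nat_lit 2, nat_lit 3], [nat_lit 0, nat_lit 4, nat_lit 5], [nat_lit 0, nat_lit 6], [nat_lit 0, nat_lit 7, nat_lit 8], [nat_lit 1, nat_lit 6, nat_lit 9], [nat_lit 1, nat_lit 7, nat_lit 10], [nat_lit 2, nat_lit 4], [nat_lit 3, nat_lit 5, nat_lit 9], [nat_lit 3, nat_lit 9], [nat_lit 4, nat_lit 7, nat_lit 8], [nat_lit 5]],
  [[nat_lit 1, nat_lit 2, nat_lit 3], [nat_lit 0, nat_lit 4, nat_lit 5], [nat_lit 0, nat_lit 4, nat_lit 6], [nat_lit 0, nat_lit 7, nat_lit 8], [nat_lit 1, nat_lit 2, nat_lit 7], [nat_lit 1, nat_lit 6, nat_lit 9], [nat_lit 2, nat_lit 5, nat_lit 10], [nat_lit 3, nat_lit 4], [nat_lit 3, nat_lit 9, nat_lit 10], [nat_lit 5, nat_lit 8], [nat_lit 6, nat_lit 8]],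
  [[nat_lit 1, nat_lit 2, nat_lit 3], [nat_lit 0, nat_lit 4, nat_lit 5], [nat_lit 0], [nat_lit 0, nat_lit 6, nat_lit 7], [nat_lit 1, nat_lit 5, nat_lit 8], [nat_lit 1, nat_lit 4, nat_lit 9], [nat_lit 3, nat_lit 10], [nat_lit 3], [nat_lit 4, nat_lit 9, nat_lit 10], [nat_lit 5, nat_lit 8], [nat_lit 6, nat_lit 8]],
  [[nat_lit 1, nat_lit 2, nat_lit 3], [nat_lit 0, nat_lit 4, nat_lit 5], [nat_lit 0, nat_lit 4, nat_lit 6], [nat_lit 0, nat_lit 7, nat_lit 8], [nat_lit 1, nat_lit 2, nat_lit 9], [nat_lit 1, nat_lit 9], [nat_lit 2], [nat_lit 3, nat_lit 8, nat_lit 10], [nat_lit 3, nat_lit 7], [nat_lit 4, nat_lit 5], [nat_lit 7]],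
  [[nat_lit 1, nat_lit 2, nat_lit 3], [nat_lit 0, nat_lit 4, nat_lit 5], [nat_lit 0, nat_lit 6, nat_lit 7], [nat_lit 0, nat_lit 6, nat_lit 7], [nat_lit 1], [nat_lit 1, nat_lit 8, nat_lit 9], [nat_lit 2, nat_lit 3, nat_lit 10], [nat_lit 2, nat_lit 3, nat_lit 10], [nat_lit 5], [nat_lit 5], [nat_lit 6, nat_lit 7]],
  [[nat_lit 1, nat_lit 2, nat_lit 3], [nat_lit 0, nat_lit 4, nat_lit 5], [nat_lit 0, nat_lit 6, nat_lit 7], [nat_lit 0, nat_lit 6, nat_lit 7], [nat_lit 1, nat_lit 5], [nat_lit 1, nat_lit 4, nat_lit 8], [nat_lit 2, nat_lit 3, nat_lit 9], [nat_lit 2, nat_lit 3, nat_lit 10], [nat_lit 5], [nat_lit 6], [nat_lit 7]],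
  [[nat_lit 1, nat_lit 2, nat_lit 3], [nat_lit 0, nat_lit 4, nat_lit 5], [nat_lit 0, nat_lit 6, nat_lit 7], [nat_lit 0, nat_lit 6, nat_lit 7], [nat_lit 1, nat_lit 8], [nat_lit 1, nat_lit 8, nat_lit 9], [nat_lit 2, nat_lit 3], [nat_lit 2, nat_lit 3, nat_lit 10], [nat_lit 4, nat_lit 5, nat_lit 10], [nat_lit 5], [nat_lit 7, nat_lit 8]],
  [[nat_lit 1, nat_lit 2], [nat_lit 0, nat_lit 3, nat_lit 4], [nat_lit 0, nat_lit 5, nat_lit 6], [nat_lit 1, nat_lit 5, nat_lit 7], [nat_lit 1, nat_lit 9, nat_lit 10], [nat_lit 2, nat_lit 3, nat_lit 10], [nat_lit 2, nat_lit 9], [nat_lit 3], [nat_lit 9, nat_lit 10], [nat_lit 4, nat_lit 6, nat_lit 8], [nat_lit 4, nat_lit 5, nat_lit 8]],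
  [[nat_lit 1, nat_lit 2, nat_lit 3], [nat_lit 0, nat_lit 4, nat_lit 5], [nat_lit 0, nat_lit 6, nat_lit 7], [nat_lit 0, nat_lit 8, nat_lit 9], [nat_lit 1, nat_lit 6, nat_lit 8], [nat_lit 1, nat_lit 10], [nat_lit 2, nat_lit 4, nat_lit 10], [nat_lit 2], [nat_lit 3, nat_lit 4], [nat_lit 3, nat_lit 10], [nat_lit 5, nat_lit 6, nat_lit 9]],
  [[nat_lit 1, nat_lit 2, nat_lit 3], [nat_lit 0, nat_lit 4, nat_lit 5], [nat_lit 0, nat_lit 4, nat_lit 6], [nat_lit 0, nat_lit 7, nat_lit 8], [nat_lit 1, nat_lit 2, nat_lit 9], [nat_lit 1, nat_lit 10], [nat_lit 2, nat_lit 10], [nat_lit 3, nat_lit 8, nat_lit 10], [nat_lit 3, nat_lit 7], [nat_lit 4], [nat_lit 5, nat_lit 6, nat_lit 7]],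
  [[nat_lit 1, nat_lit 2, nat_lit 3], [nat_lit 0, nat_lit 4, nat_lit 5], [nat_lit 0, nat_lit 6, nat_lit 7], [nat_lit 0, nat_lit 8, nat_lit 9], [nat_lit 1, nat_lit 6, nat_lit 8], [nat_lit 1, nat_lit 7, nat_lit 10], [nat_lit 2, nat_lit 4], [nat_lit 2, nat_lit 5, nat_lit 9], [nat_lit 3, nat_lit 4], [nat_lit 3, nat_lit 7], [nat_lit 5]],
  [[nat_lit 1, nat_lit 2, nat_lit 3], [nat_lit 0, nat_lit 4, nat_lit 5], [nat_lit 0, nat_lit 6, nat_lit 7], [nat_lit 0, nat_lit 8, nat_lit 9], [nat_lit 1, nat_lit 5, nat_lit 10], [nat_lit 1, nat_lit 4], [nat_lit 2, nat_lit 10], [nat_lit 2], [nat_lit 3], [nat_lit 3], [nat_lit 4, nat_lit 6]],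
  [[nat_lit 1, nat_lit 2, nat_lit 3], [nat_lit 0, nat_lit 2, nat_lit 4], [nat_lit 0, nat_lit 1, nat_lit 5], [nat_lit 0, nat_lit 6, nat_lit 7], [nat_lit 1], [nat_lit 2, nat_lit 8, nat_lit 9], [nat_lit 3, nat_lit 7, nat_lit 10], [nat_lit 3, nat_lit 6], [nat_lit 5], [nat_lit 5], [nat_lit 6]],
  [[nat_lit 1, nat_lit 2, nat_lit 3], [nat_lit 0, nat_lit 4, nat_lit 5], [nat_lit 0, nat_lit 4, nat_lit 6], [nat_lit 0, nat_lit 7, nat_lit 8], [nat_lit 1, nat_lit 2], [nat_lit 1, nat_lit 6], [nat_lit 2, nat_lit 5, nat_lit 9], [nat_lit 3, nat_lit 8, nat_lit 10], [nat_lit 3, nat_lit 7], [nat_lit 6], [nat_lit 7]],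
  [[nat_lit 3, nat_lit 4], [nat_lit 5, nat_lit 6], [nat_lit 7], [nat_lit 0, nat_lit 5, nat_lit 8], [nat_lit 0, nat_lit 7, nat_lit 9], [nat_lit 1, nat_lit 3, nat_lit 10], [nat_lit 1, nat_lit 8, nat_lit 10], [nat_lit 2, nat_lit 4, nat_lit 10], [nat_lit 3, nat_lit 6], [nat_lit 4], [nat_lit 5, nat_lit 6, nat_lit 7]],
  [[nat_lit 1, nat_lit 2], [nat_lit 0, nat_lit 3, nat_lit 4], [nat_lit 0, nat_lit 5, nat_lit 6], [nat_lit 1, nat_lit 9, nat_lit 10], [nat_lit 1], [nat_lit 2, nat_lit 9, nat_lit 10], [nat_lit 2], [nat_lit 9], [nat_lit 10], [nat_lit 3, nat_lit 5, nat_lit 7], [nat_lit 3, nat_lit 5, nat_lit 8]],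
  [[nat_lit 1, nat_lit 2, nat_lit 3], [nat_lit 0, nat_lit 4, nat_lit 5], [nat_lit 0, nat_lit 4, nat_lit 5], [nat_lit 0, nat_lit 4, nat_lit 6], [nat_lit 1, nat_lit 2, nat_lit 3], [nat_lit 1, nat_lit 2, nat_lit 7], [nat_lit 3, nat_lit 8, nat_lit 9], [nat_lit 5, nat_lit 8, nat_lit 9], [nat_lit 6, nat_lit 7], [nat_lit 6, nat_lit 7]],
  [[nat_lit 1, nat_lit 2, nat_lit 3], [nat_lit 0, nat_lit 2, nat_lit 4], [nat_lit 0, nat_lit 1, nat_lit 5], [nat_lit 0, nat_lit 6, nat_lit 7], [nat_lit 1, nat_lit 6, nat_lit 7], [nat_lit 2], [nat_lit 3, nat_lit 4, nat_lit 8], [nat_lit 3, nat_lit 4, nat_lit 9], [nat_lit 6, nat_lit 9], [nat_lit 7, nat_lit 8]],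
  [[nat_lit 1, nat_lit 2, nat_lit 3], [nat_lit 0, nat_lit 4, nat_lit 5], [nat_lit 0, nat_lit 4, nat_lit 6], [nat_lit 0, nat_lit 7, nat_lit 8], [nat_lit 1, nat_lit 2, nat_lit 9], [nat_lit 1, nat_lit 7, nat_lit 8], [nat_lit 2, nat_lit 7], [nat_lit 3, nat_lit 5, nat_lit 6], [nat_lit 3, nat_lit 5], [nat_lit 4]],
  [[nat_lit 1, nat_lit 2], [nat_lit 0, nat_lit 3, nat_lit 4], [nat_lit 0, nat_lit 3, nat_lit 5], [nat_lit 1, nat_lit 2, nat_lit 8], [nat_lit 1, nat_lit 6, nat_lit 9], [nat_lit 2, nat_lit 8, nat_lit 9], [nat_lit 4], [nat_lit 8, nat_lit 9], [nat_lit 3, nat_lit 5, nat_lit 7], [nat_lit 4, nat_lit 5, nat_lit 7]],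
  [[nat_lit 1, nat_lit 2, nat_lit 3], [nat_lit 0, nat_lit 4, nat_lit 5], [nat_lit 0, nat_lit 4, nat_lit 6], [nat_lit 0, nat_lit 7, nat_lit 8], [nat_lit 1, nat_lit 2, nat_lit 9], [nat_lit 1, nat_lit 7, nat_lit 8], [nat_lit 2], [nat_lit 3, nat_lit 5], [nat_lit 3, nat_lit 5], [nat_lit 4]],
  [[nat_lit 1, nat_lit 2, nat_lit 3], [nat_lit 0, nat_lit 4, nat_lit 5], [nat_lit 0, nat_lit 6, nat_lit 7], [nat_lit 0, nat_lit 8, nat_lit 9], [nat_lit 1, nat_lit 10, nat_lit 11], [nat_lit 1, nat_lit 10], [nat_lit 2, nat_lit 11, nat_lit 12], [nat_lit 2], [nat_lit 3, nat_lit 12], [nat_lit 3], [nat_lit 4, nat_lit 5], [nat_lit 4, nat_lit 6], [nat_lit 6, nat_lit 8]]]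

noncomputable def lv7 : List (List (List Nat)) := [
  [[nat_lit 1, nat_lit 2, nat_lit 3], [nat_lit 0, nat_lit 4, nat_lit 5], [nat_lit 0, nat_lit 6, nat_lit 7], [nat_lit 0, nat_lit 8, nat_lit 9], [nat_lit 1, nat_lit 5, nat_lit 10], [nat_lit 1, nat_lit 4, nat_lit 10], [nat_lit 2, nat_lit 7, nat_lit 11], [nat_lit 2, nat_lit 6], [nat_lit 3, nat_lit 11], [nat_lit 3], [nat_lit 4, nat_lit 5], [nat_lit 6, nat_lit 8]],
  [[nat_lit 1, nat_lit 2, nat_lit 3], [nat_lit 0, nat_lit 4, nat_lit 5], [nat_lit 0, nat_lit 6, nat_lit 7], [nat_lit 0, nat_lit 8, nat_lit 9], [nat_lit 1, nat_lit 6, nat_lit 10], [nat_lit 1, nat_lit 11], [nat_lit 2, nat_lit 4], [nat_lit 2], [nat_lit 3, nat_lit 10, nat_lit 11], [nat_lit 3, nat_lit 10], [nat_lit 4, nat_lit 8, nat_lit 9], [nat_lit 5, nat_lit 8]],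
  [[nat_lit 1, nat_lit 2, nat_lit 3], [nat_lit 0, nat_lit 4, nat_lit 5], [nat_lit 0, nat_lit 6, nat_lit 7], [nat_lit 0, nat_lit 8, nat_lit 9], [nat_lit 1, nat_lit 6], [nat_lit 1, nat_lit 10, nat_lit 11], [nat_lit 2, nat_lit 4], [nat_lit 2, nat_lit 10], [nat_lit 3], [nat_lit 3, nat_lit 10, nat_lit 11], [nat_lit 5, nat_lit 7, nat_lit 9], [nat_lit 5, nat_lit 9]],
  [[nat_lit 1, nat_lit 2, nat_lit 3], [nat_lit 0, nat_lit 4, nat_lit 5], [nat_lit 0, nat_lit 6], [nat_lit 0, nat_lit 7, nat_lit 8], [nat_lit 1, nat_lit 6, nat_lit 9], [nat_lit 1, nat_lit 10, nat_lit 11], [nat_lit 2, nat_lit 4], [nat_lit 3, nat_lit 11], [nat_lit 3], [nat_lit 4, nat_lit 11], [nat_lit 5], [nat_lit 5, nat_lit 7, nat_lit 9]],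
  [[nat_lit 1, nat_lit 2, nat_lit 3], [nat_lit 0, nat_lit 4, nat_lit 5], [nat_lit 0, nat_lit 6, nat_lit 7], [nat_lit 0, nat_lit 8, nat_lit 9], [nat_lit 1, nat_lit 10, nat_lit 11], [nat_lit 1, nat_lit 10], [nat_lit 2, nat_lit 10], [nat_lit 2, nat_lit 11], [nat_lit 3, nat_lit 11], [nat_lit 3], [nat_lit 4, nat_lit 5, nat_lit 6], [nat_lit 4, nat_lit 7, nat_lit 8]],
  [[nat_lit 1, nat_lit 2, nat_lit 3], [nat_lit 0, nat_lit 4, nat_lit 5], [nat_lit 0, nat_lit 6, nat_lit 7], [nat_lit 0, nat_lit 8, nat_lit 9], [nat_lit 1, nat_lit 10, nat_lit 11], [nat_lit 1], [nat_lit 2, nat_lit 10], [nat_lit 2, nat_lit 11], [nat_lit 3], [nat_lit 3], [nat_lit 4, nat_lit 6, nat_lit 11], [nat_lit 4, nat_lit 7, nat_lit 10]],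
  [[nat_lit 1, nat_lit 2, nat_lit 3], [nat_lit 0, nat_lit 4, nat_lit 5], [nat_lit 0, nat_lit 6, nat_lit 7], [nat_lit 0, nat_lit 8, nat_lit 9], [nat_lit 1, nat_lit 6, nat_lit 10], [nat_lit 1, nat_lit 11], [nat_lit 2, nat_lit 4, nat_lit 11], [nat_lit 2], [nat_lit 3], [nat_lit 3], [nat_lit 4, nat_lit 11], [nat_lit 5, nat_lit 6, nat_lit 10]],
  [[nat_lit 1, nat_lit 2, nat_lit 3], [nat_lit 0, nat_lit 2, nat_lit 4], [nat_lit 0, nat_lit 1, nat_lit 5], [nat_lit 0, nat_lit 6, nat_lit 7], [nat_lit 1], [nat_lit 2, nat_lit 8, nat_lit 9], [nat_lit 3, nat_lit 7], [nat_lit 3, nat_lit 6, nat_lit 10], [nat_lit 5, nat_lit 9, nat_lit 11], [nat_lit 5, nat_lit 8], [nat_lit 7], [nat_lit 8]],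
  [[nat_lit 1, nat_lit 2, nat_lit 3], [nat_lit 0, nat_lit 4, nat_lit 5], [nat_lit 0, nat_lit 6], [nat_lit 0, nat_lit 7, nat_lit 8], [nat_lit 1, nat_lit 6, nat_lit 9], [nat_lit 1, nat_lit 7, nat_lit 10], [nat_lit 2, nat_lit 4, nat_lit 11], [nat_lit 3, nat_lit 5, nat_lit 11], [nat_lit 3], [nat_lit 4], [nat_lit 5], [nat_lit 6, nat_lit 7]],
  [[nat_lit 1, nat_lit 2, nat_lit 3], [nat_lit 0, nat_lit 4, nat_lit 5], [nat_lit 0, nat_lit 6, nat_lit 7], [nat_lit 0, nat_lit 8, nat_lit 9], [nat_lit 1, nat_lit 6, nat_lit 10], [nat_lit 1, nat_lit 11], [nat_lit 2, nat_lit 4, nat_lit 11], [nat_lit 2], [nat_lit 3], [nat_lit 3], [nat_lit 4], [nat_lit 5, nat_lit 6]],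
  [[nat_lit 1, nat_lit 2, nat_lit 3], [nat_lit 0, nat_lit 4, nat_lit 5], [nat_lit 0, nat_lit 6, nat_lit 7], [nat_lit 0, nat_lit 8, nat_lit 9], [nat_lit 1, nat_lit 6, nat_lit 8], [nat_lit 1, nat_lit 7, nat_lit 10], [nat_lit 2, nat_lit 4], [nat_lit 2, nat_lit 5, nat_lit 8], [nat_lit 3, nat_lit 4, nat_lit 7], [nat_lit 3, nat_lit 10], [nat_lit 5, nat_lit 9]],
  [[nat_lit 1, nat_lit 2], [nat_lit 0, nat_lit 4], [nat_lit 0, nat_lit 5, nat_lit 6], [nat_lit 7, nat_lit 8], [nat_lit 1, nat_lit 9, nat_lit 10], [nat_lit 2, nat_lit 6, nat_lit 10], [nat_lit 2, nat_lit 5], [nat_lit 3, nat_lit 9, nat_lit 10], [nat_lit 3, nat_lit 9], [nat_lit 4, nat_lit 7, nat_lit 8], [nat_lit 4, nat_lit 5, nat_lit 7]],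
  [[nat_lit 1, nat_lit 2, nat_lit 3], [nat_lit 0, nat_lit 2, nat_lit 4], [nat_lit 0, nat_lit 1, nat_lit 5], [nat_lit 0, nat_lit 6, nat_lit 7], [nat_lit 1, nat_lit 8, nat_lit 9], [nat_lit 2, nat_lit 10], [nat_lit 3, nat_lit 8, nat_lit 10], [nat_lit 3, nat_lit 9], [nat_lit 4, nat_lit 6], [nat_lit 4, nat_lit 7], [nat_lit 5, nat_lit 6]],
  [[nat_lit 1, nat_lit 2, nat_lit 3], [nat_lit 0, nat_lit 4, nat_lit 5], [nat_lit 0, nat_lit 6, nat_lit 7], [nat_lit 0, nat_lit 6, nat_lit 7], [nat_lit 1, nat_lit 6, nat_lit 8], [nat_lit 1, nat_lit 9, nat_lit 10], [nat_lit 2, nat_lit 3, nat_lit 4], [nat_lit 2, nat_lit 3], [nat_lit 4, nat_lit 9], [nat_lit 5, nat_lit 8], [nat_lit 5]],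
  [[nat_lit 1, nat_lit 2, nat_lit 3], [nat_lit 0, nat_lit 4, nat_lit 5], [nat_lit 0, nat_lit 6, nat_lit 7], [nat_lit 0, nat_lit 8, nat_lit 9], [nat_lit 1, nat_lit 6, nat_lit 7], [nat_lit 1, nat_lit 10], [nat_lit 2, nat_lit 4, nat_lit 8], [nat_lit 2, nat_lit 4, nat_lit 10], [nat_lit 3, nat_lit 6], [nat_lit 3], [nat_lit 5, nat_lit 7]],
  [[nat_lit 1, nat_lit 2, nat_lit 3], [nat_lit 0, nat_lit 4, nat_lit 5], [nat_lit 0, nat_lit 6, nat_lit 7], [nat_lit 0, nat_lit 8, nat_lit 9], [nat_lit 1, nat_lit 6, nat_lit 10], [nat_lit 1, nat_lit 8], [nat_lit 2, nat_lit 4, nat_lit 10], [nat_lit 2], [nat_lit 3, nat_lit 5], [nat_lit 3, nat_lit 10], [nat_lit 4, nat_lit 6, nat_lit 9]],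
  [[nat_lit 1, nat_lit 2, nat_lit 3], [nat_lit 0, nat_lit 2, nat_lit 4], [nat_lit 0, nat_lit 1, nat_lit 5], [nat_lit 0, nat_lit 6, nat_lit 7], [nat_lit 1, nat_lit 6, nat_lit 8], [nat_lit 2, nat_lit 9, nat_lit 10], [nat_lit 3, nat_lit 4], [nat_lit 3, nat_lit 8, nat_lit 9], [nat_lit 4, nat_lit 7, nat_lit 10], [nat_lit 5, nat_lit 7], [nat_lit 5, nat_lit 8]],
  [[nat_lit 1, nat_lit 2, nat_lit 3], [nat_lit 0, nat_lit 4, nat_lit 5], [nat_lit 0, nat_lit 6, nat_lit 7], [nat_lit 0, nat_lit 8, nat_lit 9], [nat_lit 1, nat_lit 6, nat_lit 8], [nat_lit 1, nat_lit 7, nat_lit 10], [nat_lit 2, nat_lit 4, nat_lit 9], [nat_lit 2, nat_lit 5], [nat_lit 3, nat_lit 4], [nat_lit 3, nat_lit 6, nat_lit 10], [nat_lit 5, nat_lit 9]],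
  [[nat_lit 1, nat_lit 2, nat_lit 3], [nat_lit 0, nat_lit 4, nat_lit 5], [nat_lit 0, nat_lit 6, nat_lit 7], [nat_lit 0, nat_lit 8, nat_lit 9], [nat_lit 1, nat_lit 6, nat_lit 8], [nat_lit 1, nat_lit 7, nat_lit 10], [nat_lit 2, nat_lit 4], [nat_lit 2, nat_lit 5, nat_lit 9], [nat_lit 3, nat_lit 4], [nat_lit 3, nat_lit 7, nat_lit 10], [nat_lit 5, nat_lit 9]],
  [[nat_lit 1, nat_lit 2], [nat_lit 0, nat_lit 3], [nat_lit 0, nat_lit 6, nat_lit 7], [nat_lit 1, nat_lit 6, nat_lit 8], [nat_lit 9], [nat_lit 10], [nat_lit 2, nat_lit 3], [nat_lit 2, nat_lit 9, nat_lit 10], [nat_lit 3, nat_lit 9, nat_lit 10], [nat_lit 4, nat_lit 7, nat_lit 8], [nat_lit 5, nat_lit 7, nat_lit 8]],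
  [[nat_lit 1, nat_lit 2, nat_lit 3], [nat_lit 0, nat_lit 2, nat_lit 4], [nat_lit 0, nat_lit 1, nat_lit 5], [nat_lit 0, nat_lit 6, nat_lit 7], [nat_lit 1], [nat_lit 2, nat_lit 8, nat_lit 9], [nat_lit 3, nat_lit 7, nat_lit 10], [nat_lit 3, nat_lit 6, nat_lit 10], [nat_lit 5], [nat_lit 5], [nat_lit 6, nat_lit 7]],
  [[nat_lit 1, nat_lit 2, nat_lit 3], [nat_lit 0, nat_lit 4, nat_lit 5], [nat_lit 0, nat_lit 6, nat_lit 7], [nat_lit 0, nat_lit 8, nat_lit 9], [nat_lit 1, nat_lit 5, nat_lit 6], [nat_lit 1, nat_lit 4, nat_lit 10], [nat_lit 2, nat_lit 4], [nat_lit 2, nat_lit 8], [nat_lit 3, nat_lit 7, nat_lit 10], [nat_lit 3], [nat_lit 5, nat_lit 8]],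
  [[nat_lit 1, nat_lit 2, nat_lit 3], [nat_lit 0, nat_lit 4, nat_lit 5], [nat_lit 0, nat_lit 6], [nat_lit 0, nat_lit 6], [nat_lit 1, nat_lit 7, nat_lit 8], [nat_lit 1, nat_lit 9, nat_lit 10], [nat_lit 2, nat_lit 3, nat_lit 10], [nat_lit 4, nat_lit 8], [nat_lit 4, nat_lit 7, nat_lit 10], [nat_lit 5], [nat_lit 5, nat_lit 6, nat_lit 8]],
  [[nat_lit 1, nat_lit 2, nat_lit 3], [nat_lit 0, nat_lit 4, nat_lit 5], [nat_lit 0, nat_lit 6, nat_lit 7], [nat_lit 0], [nat_lit 1, nat_lit 5, nat_lit 8], [nat_lit 1, nat_lit 4, nat_lit 9], [nat_lit 2, nat_lit 7, nat_lit 10], [nat_lit 2, nat_lit 6], [nat_lit 4, nat_lit 9, nat_lit 10], [nat_lit 5, nat_lit 8], [nat_lit 6, nat_lit 8]],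
  [[nat_lit 1, nat_lit 2, nat_lit 3], [nat_lit 0, nat_lit 4, nat_lit 5], [nat_lit 0, nat_lit 4, nat_lit 6], [nat_lit 0], [nat_lit 1, nat_lit 2, nat_lit 7], [nat_lit 1, nat_lit 7, nat_lit 8], [nat_lit 2, nat_lit 9, nat_lit 10], [nat_lit 4, nat_lit 5], [nat_lit 5, nat_lit 9], [nat_lit 6, nat_lit 8, nat_lit 10], [nat_lit 6, nat_lit 9]],
  [[nat_lit 1, nat_lit 2, nat_lit 3], [nat_lit 0, nat_lit 4, nat_lit 5], [nat_lit 0, nat_lit 6, nat_lit 7], [nat_lit 0, nat_lit 8, nat_lit 9], [nat_lit 1, nat_lit 5, nat_lit 10], [nat_lit 1, nat_lit 4], [nat_lit 2, nat_lit 8, nat_lit 10], [nat_lit 2, nat_lit 8], [nat_lit 3, nat_lit 6, nat_lit 7], [nat_lit 3], [nat_lit 4, nat_lit 6]],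
  [[nat_lit 3], [nat_lit 4], [nat_lit 5, nat_lit 6], [nat_lit 0, nat_lit 8, nat_lit 9], [nat_lit 1, nat_lit 8, nat_lit 9], [nat_lit 2, nat_lit 6, nat_lit 10], [nat_lit 2, nat_lit 5, nat_lit 10], [nat_lit 8], [nat_lit 3, nat_lit 4, nat_lit 7], [nat_lit 3, nat_lit 4, nat_lit 10], [nat_lit 5, nat_lit 6, nat_lit 9]],
  [[nat_lit 1], [nat_lit 0, nat_lit 2, nat_lit 3], [nat_lit 1, nat_lit 6, nat_lit 7], [nat_lit 1, nat_lit 8, nat_lit 9], [nat_lit 6], [nat_lit 10], [nat_lit 2, nat_lit 4, nat_lit 7], [nat_lit 2, nat_lit 6, nat_lit 10], [nat_lit 3, nat_lit 9, nat_lit 10], [nat_lit 3, nat_lit 8], [nat_lit 5, nat_lit 7, nat_lit 8]],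
  [[nat_lit 1], [nat_lit 0, nat_lit 2, nat_lit 3], [nat_lit 1, nat_lit 6, nat_lit 7], [nat_lit 1, nat_lit 8, nat_lit 9], [nat_lit 6], [nat_lit 10], [nat_lit 2, nat_lit 4, nat_lit 8], [nat_lit 2, nat_lit 9, nat_lit 10], [nat_lit 3, nat_lit 6, nat_lit 10], [nat_lit 3, nat_lit 7], [nat_lit 5, nat_lit 7, nat_lit 8]],
  [[nat_lit 1, nat_lit 2, nat_lit 3], [nat_lit 0, nat_lit 2], [nat_lit 0, nat_lit 1, nat_lit 4], [nat_lit 0, nat_lit 5, nat_lit 6], [nat_lit 2, nat_lit 9, nat_lit 10], [nat_lit 3, nat_lit 7, nat_lit 10], [nat_lit 3, nat_lit 8, nat_lit 10], [nat_lit 5], [nat_lit 6], [nat_lit 4], [nat_lit 4, nat_lit 5, nat_lit 6]],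
  [[nat_lit 1, nat_lit 2, nat_lit 3], [nat_lit 0, nat_lit 2, nat_lit 3], [nat_lit 0, nat_lit 1, nat_lit 4], [nat_lit 0, nat_lit 1, nat_lit 5], [nat_lit 2, nat_lit 6], [nat_lit 3, nat_lit 7, nat_lit 8], [nat_lit 4, nat_lit 8], [nat_lit 5, nat_lit 8], [nat_lit 5, nat_lit 6, nat_lit 7]],
  [[nat_lit 1, nat_lit 2, nat_lit 3], [nat_lit 0, nat_lit 4, nat_lit 5], [nat_lit 0, nat_lit 4, nat_lit 6], [nat_lit 0, nat_lit 7], [nat_lit 1, nat_lit 2, nat_lit 5], [nat_lit 1, nat_lit 4, nat_lit 8], [nat_lit 2, nat_lit 8], [nat_lit 3, nat_lit 8], [nat_lit 5, nat_lit 6, nat_lit 7]]]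

noncomputable def lv8 : List (List (List Nat)) := [
  [[nat_lit 1, nat_lit 2, nat_lit 3], [nat_lit 0, nat_lit 4, nat_lit 5], [nat_lit 0, nat_lit 4, nat_lit 6], [nat_lit 0, nat_lit 7], [nat_lit 1, nat_lit 2, nat_lit 5], [nat_lit 1, nat_lit 4, nat_lit 8], [nat_lit 2, nat_lit 7, nat_lit 8], [nat_lit 3, nat_lit 6], [nat_lit 5, nat_lit 6]],
  [[nat_lit 1, nat_lit 2, nat_lit 3], [nat_lit 0, nat_lit 4, nat_lit 5], [nat_lit 0, nat_lit 4, nat_lit 6], [nat_lit 0, nat_lit 5], [nat_lit 1, nat_lit 2, nat_lit 7], [nat_lit 1, nat_lit 3], [nat_lit 2, nat_lit 7, nat_lit 8], [nat_lit 4, nat_lit 6, nat_lit 8], [nat_lit 6, nat_lit 7]],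
  [[nat_lit 1, nat_lit 2, nat_lit 3], [nat_lit 0, nat_lit 4, nat_lit 5], [nat_lit 0, nat_lit 4, nat_lit 6], [nat_lit 0, nat_lit 7], [nat_lit 1, nat_lit 2, nat_lit 8], [nat_lit 1, nat_lit 7, nat_lit 8], [nat_lit 2], [nat_lit 3, nat_lit 5, nat_lit 8], [nat_lit 4, nat_lit 5, nat_lit 7]],
  [[nat_lit 1, nat_lit 2], [nat_lit 0, nat_lit 3, nat_lit 4], [nat_lit 0, nat_lit 3, nat_lit 5], [nat_lit 1, nat_lit 2, nat_lit 7], [nat_lit 1, nat_lit 5, nat_lit 8], [nat_lit 2, nat_lit 4, nat_lit 8], [nat_lit 7], [nat_lit 3, nat_lit 6, nat_lit 8], [nat_lit 4, nat_lit 5, nat_lit 7]],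
  [[nat_lit 1, nat_lit 2, nat_lit 3], [nat_lit 0, nat_lit 2, nat_lit 4], [nat_lit 0, nat_lit 1, nat_lit 5], [nat_lit 0], [nat_lit 1, nat_lit 6, nat_lit 7], [nat_lit 2, nat_lit 6, nat_lit 8], [nat_lit 4, nat_lit 5, nat_lit 7], [nat_lit 4, nat_lit 6, nat_lit 8], [nat_lit 5, nat_lit 7]],
  [[nat_lit 1, nat_lit 2, nat_lit 3], [nat_lit 0, nat_lit 2, nat_lit 4], [nat_lit 0, nat_lit 1, nat_lit 5], [nat_lit 0, nat_lit 4, nat_lit 6], [nat_lit 1, nat_lit 3, nat_lit 7], [nat_lit 2], [nat_lit 3, nat_lit 7, nat_lit 8], [nat_lit 4, nat_lit 6], [nat_lit 6]],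
  [[nat_lit 1, nat_lit 2, nat_lit 3], [nat_lit 0, nat_lit 4, nat_lit 5], [nat_lit 0, nat_lit 6, nat_lit 7], [nat_lit 0, nat_lit 8, nat_lit 9], [nat_lit 1, nat_lit 5], [nat_lit 1, nat_lit 4, nat_lit 10], [nat_lit 2, nat_lit 8, nat_lit 11], [nat_lit 2, nat_lit 9, nat_lit 12], [nat_lit 3, nat_lit 6], [nat_lit 3, nat_lit 7], [nat_lit 5, nat_lit 12], [nat_lit 6], [nat_lit 7, nat_lit 10]],
  [[nat_lit 1, nat_lit 2, nat_lit 3], [nat_lit 0, nat_lit 4, nat_lit 5], [nat_lit 0, nat_lit 6, nat_lit 7], [nat_lit 0, nat_lit 8, nat_lit 9], [nat_lit 1, nat_lit 10, nat_lit 11], [nat_lit 1, nat_lit 12], [nat_lit 2, nat_lit 10], [nat_lit 2], [nat_lit 3, nat_lit 11], [nat_lit 3], [nat_lit 4, nat_lit 6, nat_lit 12], [nat_lit 4, nat_lit 8], [nat_lit 5, nat_lit 10]],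
  [[nat_lit 1, nat_lit 2, nat_lit 3], [nat_lit 0, nat_lit 4, nat_lit 5], [nat_lit 0, nat_lit 6, nat_lit 7], [nat_lit 0, nat_lit 8, nat_lit 9], [nat_lit 1, nat_lit 10, nat_lit 11], [nat_lit 1, nat_lit 10, nat_lit 12], [nat_lit 2], [nat_lit 2], [nat_lit 3], [nat_lit 3], [nat_lit 4, nat_lit 5], [nat_lit 4, nat_lit 12], [nat_lit 5, nat_lit 11]],
  [[nat_lit 1, nat_lit 2, nat_lit 3], [nat_lit 0, nat_lit 4, nat_lit 5], [nat_lit 0, nat_lit 6, nat_lit 7], [nat_lit 0, nat_lit 8, nat_lit 9], [nat_lit 1, nat_lit 10, nat_lit 11], [nat_lit 1, nat_lit 10, nat_lit 12], [nat_lit 2], [nat_lit 2], [nat_lit 3], [nat_lit 3], [nat_lit 4, nat_lit 5], [nat_lit 4], [nat_lit 5]],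
  [[nat_lit 1, nat_lit 2, nat_lit 3], [nat_lit 0, nat_lit 4, nat_lit 5], [nat_lit 0, nat_lit 6], [nat_lit 0, nat_lit 7, nat_lit 8], [nat_lit 1, nat_lit 6, nat_lit 9], [nat_lit 1, nat_lit 10, nat_lit 11], [nat_lit 2, nat_lit 4], [nat_lit 3, nat_lit 10], [nat_lit 3, nat_lit 11], [nat_lit 4, nat_lit 10], [nat_lit 5, nat_lit 7, nat_lit 9], [nat_lit 5, nat_lit 8]],
  [[nat_lit 1, nat_lit 2, nat_lit 3], [nat_lit 0, nat_lit 4, nat_lit 5], [nat_lit 0, nat_lit 6, nat_lit 7], [nat_lit 0, nat_lit 8, nat_lit 9], [nat_lit 1, nat_lit 6, nat_lit 10], [nat_lit 1, nat_lit 11], [nat_lit 2, nat_lit 4], [nat_lit 2, nat_lit 10], [nat_lit 3, nat_lit 10, nat_lit 11], [nat_lit 3], [nat_lit 4, nat_lit 7, nat_lit 8], [nat_lit 5, nat_lit 8]],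
  [[nat_lit 1, nat_lit 2, nat_lit 3], [nat_lit 0, nat_lit 4, nat_lit 5], [nat_lit 0, nat_lit 6, nat_lit 7], [nat_lit 0, nat_lit 8, nat_lit 9], [nat_lit 1, nat_lit 6, nat_lit 10], [nat_lit 1, nat_lit 11], [nat_lit 2, nat_lit 4, nat_lit 11], [nat_lit 2], [nat_lit 3, nat_lit 10], [nat_lit 3], [nat_lit 4, nat_lit 8], [nat_lit 5, nat_lit 6]],
  [[nat_lit 1, nat_lit 2, nat_lit 3], [nat_lit 0, nat_lit 4, nat_lit 5], [nat_lit 0, nat_lit 6, nat_lit 7], [nat_lit 0, nat_lit 8], [nat_lit 1, nat_lit 6, nat_lit 9], [nat_lit 1, nat_lit 8, nat_lit 10], [nat_lit 2, nat_lit 4, nat_lit 11], [nat_lit 2, nat_lit 11], [nat_lit 3, nat_lit 5], [nat_lit 4], [nat_lit 5], [nat_lit 6, nat_lit 7]],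
  [[nat_lit 1, nat_lit 2, nat_lit 3], [nat_lit 0, nat_lit 4, nat_lit 5], [nat_lit 0, nat_lit 6, nat_lit 7], [nat_lit 0, nat_lit 8, nat_lit 9], [nat_lit 1, nat_lit 5], [nat_lit 1, nat_lit 4, nat_lit 10], [nat_lit 2, nat_lit 8, nat_lit 11], [nat_lit 2], [nat_lit 3, nat_lit 6], [nat_lit 3, nat_lit 11], [nat_lit 5], [nat_lit 6, nat_lit 9]],
  [[nat_lit 1, nat_lit 2, nat_lit 3], [nat_lit 0, nat_lit 2, nat_lit 4], [nat_lit 0, nat_lit 1, nat_lit 5], [nat_lit 0, nat_lit 6, nat_lit 7], [nat_lit 1], [nat_lit 2, nat_lit 8, nat_lit 9], [nat_lit 3, nat_lit 7, nat_lit 10], [nat_lit 3, nat_lit 6, nat_lit 10], [nat_lit 5, nat_lit 9, nat_lit 11], [nat_lit 5, nat_lit 8], [nat_lit 6, nat_lit 7], [nat_lit 8]],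
  [[nat_lit 3, nat_lit 4], [nat_lit 5, nat_lit 6], [nat_lit 7, nat_lit 8], [nat_lit 0, nat_lit 5, nat_lit 9], [nat_lit 0, nat_lit 7, nat_lit 10], [nat_lit 1, nat_lit 3, nat_lit 11], [nat_lit 1, nat_lit 8, nat_lit 11], [nat_lit 2, nat_lit 4, nat_lit 11], [nat_lit 2, nat_lit 6, nat_lit 9], [nat_lit 3, nat_lit 8], [nat_lit 4], [nat_lit 5, nat_lit 6, nat_lit 7]],
  [[nat_lit 1, nat_lit 2, nat_lit 3], [nat_lit 0, nat_lit 4, nat_lit 5], [nat_lit 0, nat_lit 6, nat_lit 7], [nat_lit 0, nat_lit 8, nat_lit 9], [nat_lit 1, nat_lit 5], [nat_lit 1, nat_lit 4, nat_lit 10], [nat_lit 2, nat_lit 7, nat_lit 11], [nat_lit 2, nat_lit 6], [nat_lit 3], [nat_lit 3, nat_lit 11], [nat_lit 5, nat_lit 11], [nat_lit 6, nat_lit 9, nat_lit 10]],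
  [[nat_lit 1, nat_lit 2, nat_lit 3], [nat_lit 0, nat_lit 4, nat_lit 5], [nat_lit 0, nat_lit 6, nat_lit 7], [nat_lit 0, nat_lit 8, nat_lit 9], [nat_lit 1, nat_lit 5], [nat_lit 1, nat_lit 4, nat_lit 10], [nat_lit 2, nat_lit 7, nat_lit 11], [nat_lit 2, nat_lit 6], [nat_lit 3, nat_lit 11], [nat_lit 3, nat_lit 11], [nat_lit 5], [nat_lit 6, nat_lit 8, nat_lit 9]],
  [[nat_lit 1, nat_lit 2, nat_lit 3], [nat_lit 0, nat_lit 4, nat_lit 5], [nat_lit 0, nat_lit 6, nat_lit 7], [nat_lit 0, nat_lit 8, nat_lit 9], [nat_lit 1, nat_lit 5, nat_lit 10], [nat_lit 1, nat_lit 4, nat_lit 10], [nat_lit 2, nat_lit 7, nat_lit 11], [nat_lit 2, nat_lit 6], [nat_lit 3], [nat_lit 3], [nat_lit 4, nat_lit 5], [nat_lit 6]],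
  [[nat_lit 1, nat_lit 2, nat_lit 3], [nat_lit 0, nat_lit 4, nat_lit 5], [nat_lit 0, nat_lit 6, nat_lit 7], [nat_lit 0, nat_lit 8, nat_lit 9], [nat_lit 1, nat_lit 6, nat_lit 8], [nat_lit 1, nat_lit 10, nat_lit 11], [nat_lit 2, nat_lit 4], [nat_lit 2, nat_lit 10], [nat_lit 3, nat_lit 4], [nat_lit 3], [nat_lit 5, nat_lit 7, nat_lit 11], [nat_lit 5, nat_lit 10]],
  [[nat_lit 1, nat_lit 2, nat_lit 3], [nat_lit 0, nat_lit 4, nat_lit 5], [nat_lit 0, nat_lit 6, nat_lit 7], [nat_lit 0, nat_lit 8, nat_lit 9], [nat_lit 1, nat_lit 5, nat_lit 8], [nat_lit 1, nat_lit 4, nat_lit 9], [nat_lit 2, nat_lit 10, nat_lit 11], [nat_lit 2], [nat_lit 3, nat_lit 4], [nat_lit 3, nat_lit 5], [nat_lit 6], [nat_lit 6]],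
  [[nat_lit 1, nat_lit 2, nat_lit 3], [nat_lit 0, nat_lit 4, nat_lit 5], [nat_lit 0, nat_lit 6, nat_lit 7], [nat_lit 0, nat_lit 8, nat_lit 9], [nat_lit 1, nat_lit 10, nat_lit 11], [nat_lit 1], [nat_lit 2, nat_lit 10], [nat_lit 2], [nat_lit 3, nat_lit 11], [nat_lit 3], [nat_lit 4, nat_lit 6, nat_lit 11], [nat_lit 4, nat_lit 8, nat_lit 10]],
  [[nat_lit 1, nat_lit 2, nat_lit 3], [nat_lit 0, nat_lit 4, nat_lit 5], [nat_lit 0, nat_lit 6, nat_lit 7], [nat_lit 0, nat_lit 8, nat_lit 9], [nat_lit 1, nat_lit 5], [nat_lit 1, nat_lit 4, nat_lit 10], [nat_lit 2, nat_lit 8, nat_lit 11], [nat_lit 2], [nat_lit 3, nat_lit 6, nat_lit 11], [nat_lit 3], [nat_lit 5], [nat_lit 6, nat_lit 8]],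
  [[nat_lit 1, nat_lit 2, nat_lit 3], [nat_lit 0, nat_lit 4, nat_lit 5], [nat_lit 0, nat_lit 6, nat_lit 7], [nat_lit 0, nat_lit 8, nat_lit 9], [nat_lit 1, nat_lit 10, nat_lit 11], [nat_lit 1], [nat_lit 2, nat_lit 10, nat_lit 11], [nat_lit 2], [nat_lit 3, nat_lit 10], [nat_lit 3], [nat_lit 4, nat_lit 6, nat_lit 8], [nat_lit 4, nat_lit 6]],
  [[nat_lit 1, nat_lit 2, nat_lit 3], [nat_lit 0, nat_lit 4, nat_lit 5], [nat_lit 0, nat_lit 6, nat_lit 7], [nat_lit 0, nat_lit 8, nat_lit 9], [nat_lit 1, nat_lit 6, nat_lit 10], [nat_lit 1], [nat_lit 2, nat_lit 4, nat_lit 11], [nat_lit 2], [nat_lit 3, nat_lit 10], [nat_lit 3], [nat_lit 4, nat_lit 8], [nat_lit 6]],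
  [[nat_lit 1, nat_lit 2, nat_lit 3], [nat_lit 0, nat_lit 4, nat_lit 5], [nat_lit 0, nat_lit 6, nat_lit 7], [nat_lit 0, nat_lit 8, nat_lit 9], [nat_lit 1, nat_lit 6, nat_lit 10], [nat_lit 1, nat_lit 10, nat_lit 11], [nat_lit 2, nat_lit 4], [nat_lit 2], [nat_lit 3], [nat_lit 3], [nat_lit 4, nat_lit 5], [nat_lit 5]],
  [[nat_lit 1, nat_lit 2, nat_lit 3], [nat_lit 0, nat_lit 4, nat_lit 5], [nat_lit 0, nat_lit 6, nat_lit 7], [nat_lit 0, nat_lit 8, nat_lit 9], [nat_lit 1, nat_lit 10, nat_lit 11], [nat_lit 1], [nat_lit 2, nat_lit 12, nat_lit 13], [nat_lit 2], [nat_lit 3], [nat_lit 3], [nat_lit 4, nat_lit 11, nat_lit 12], [nat_lit 4, nat_lit 10], [nat_lit 6, nat_lit 10, nat_lit 13], [nat_lit 6, nat_lit 12]],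
  [[nat_lit 1, nat_lit 2, nat_lit 3], [nat_lit 0, nat_lit 4, nat_lit 5], [nat_lit 0, nat_lit 6, nat_lit 7], [nat_lit 0, nat_lit 6, nat_lit 7], [nat_lit 1, nat_lit 5, nat_lit 8], [nat_lit 1, nat_lit 4, nat_lit 8], [nat_lit 2, nat_lit 3, nat_lit 9], [nat_lit 2, nat_lit 3, nat_lit 9], [nat_lit 4, nat_lit 5], [nat_lit 6, nat_lit 7]],
  [[nat_lit 1, nat_lit 2, nat_lit 3], [nat_lit 0, nat_lit 2, nat_lit 4], [nat_lit 0, nat_lit 1, nat_lit 5], [nat_lit 0, nat_lit 6, nat_lit 7], [nat_lit 1, nat_lit 6, nat_lit 8], [nat_lit 2, nat_lit 9], [nat_lit 3, nat_lit 4], [nat_lit 3, nat_lit 8, nat_lit 9], [nat_lit 4, nat_lit 7, nat_lit 9], [nat_lit 5, nat_lit 7, nat_lit 8]],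
  [[nat_lit 1, nat_lit 2, nat_lit 3], [nat_lit 0, nat_lit 4, nat_lit 5], [nat_lit 0, nat_lit 4, nat_lit 6], [nat_lit 0, nat_lit 7, nat_lit 8], [nat_lit 1, nat_lit 2, nat_lit 9], [nat_lit 1, nat_lit 7, nat_lit 9], [nat_lit 2, nat_lit 8], [nat_lit 3, nat_lit 5, nat_lit 8], [nat_lit 3, nat_lit 6, nat_lit 7], [nat_lit 4, nat_lit 5]],
  [[nat_lit 1, nat_lit 2, nat_lit 3], [nat_lit 0, nat_lit 4, nat_lit 5], [nat_lit 0, nat_lit 4, nat_lit 6], [nat_lit 0, nat_lit 4, nat_lit 7], [nat_lit 1, nat_lit 2, nat_lit 3], [nat_lit 1, nat_lit 8, nat_lit 9], [nat_lit 2, nat_lit 8, nat_lit 9], [nat_lit 3, nat_lit 8], [nat_lit 5, nat_lit 6, nat_lit 7], [nat_lit 5, nat_lit 6]]]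

noncomputable def lv9 : List (List (List Nat)) := [
  [[nat_lit 1, nat_lit 2, nat_lit 3], [nat_lit 0, nat_lit 2, nat_lit 4], [nat_lit 0, nat_lit 1, nat_lit 5], [nat_lit 0, nat_lit 6, nat_lit 7], [nat_lit 1, nat_lit 6, nat_lit 8], [nat_lit 2, nat_lit 7, nat_lit 9], [nat_lit 3, nat_lit 4, nat_lit 9], [nat_lit 3, nat_lit 5, nat_lit 8], [nat_lit 4, nat_lit 7], [nat_lit 5, nat_lit 6]],
  [[nat_lit 1, nat_lit 2, nat_lit 3], [nat_lit 0, nat_lit 4, nat_lit 5], [nat_lit 0, nat_lit 4, nat_lit 6], [nat_lit 0, nat_lit 5, nat_lit 7], [nat_lit 1, nat_lit 2, nat_lit 8], [nat_lit 1, nat_lit 3, nat_lit 9], [nat_lit 2, nat_lit 7, nat_lit 8], [nat_lit 3, nat_lit 6], [nat_lit 4, nat_lit 6], [nat_lit 5]],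
  [[nat_lit 1, nat_lit 2, nat_lit 3], [nat_lit 0, nat_lit 4, nat_lit 5], [nat_lit 0, nat_lit 4, nat_lit 6], [nat_lit 0, nat_lit 5, nat_lit 7], [nat_lit 1, nat_lit 2, nat_lit 8], [nat_lit 1, nat_lit 3, nat_lit 9], [nat_lit 2, nat_lit 7], [nat_lit 3, nat_lit 6, nat_lit 8], [nat_lit 4, nat_lit 7], [nat_lit 5]],
  [[nat_lit 1, nat_lit 2, nat_lit 3], [nat_lit 0, nat_lit 2, nat_lit 4], [nat_lit 0, nat_lit 1, nat_lit 5], [nat_lit 0, nat_lit 6, nat_lit 7], [nat_lit 1, nat_lit 8, nat_lit 9], [nat_lit 2], [nat_lit 3, nat_lit 7, nat_lit 8], [nat_lit 3, nat_lit 6, nat_lit 9], [nat_lit 4, nat_lit 6], [nat_lit 4, nat_lit 7]],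
  [[nat_lit 1, nat_lit 2, nat_lit 3], [nat_lit 0, nat_lit 4, nat_lit 5], [nat_lit 0, nat_lit 4, nat_lit 6], [nat_lit 0, nat_lit 7, nat_lit 8], [nat_lit 1, nat_lit 2, nat_lit 9], [nat_lit 1, nat_lit 6, nat_lit 7], [nat_lit 2, nat_lit 5, nat_lit 8], [nat_lit 3, nat_lit 5], [nat_lit 3, nat_lit 6], [nat_lit 4]],
  [[nat_lit 1, nat_lit 2, nat_lit 3], [nat_lit 0, nat_lit 2, nat_lit 4], [nat_lit 0, nat_lit 1, nat_lit 5], [nat_lit 0, nat_lit 6, nat_lit 7], [nat_lit 1, nat_lit 6, nat_lit 8], [nat_lit 2], [nat_lit 3, nat_lit 4, nat_lit 9], [nat_lit 3, nat_lit 8, nat_lit 9], [nat_lit 4, nat_lit 7], [nat_lit 6, nat_lit 7]],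
  [[nat_lit 1, nat_lit 2, nat_lit 3], [nat_lit 0, nat_lit 2, nat_lit 4], [nat_lit 0, nat_lit 1, nat_lit 5], [nat_lit 0, nat_lit 6, nat_lit 7], [nat_lit 1, nat_lit 6, nat_lit 8], [nat_lit 2, nat_lit 9], [nat_lit 3, nat_lit 4, nat_lit 9], [nat_lit 3, nat_lit 9], [nat_lit 4], [nat_lit 5, nat_lit 6, nat_lit 7]],
  [[nat_lit 1, nat_lit 2, nat_lit 3], [nat_lit 0, nat_lit 4, nat_lit 5], [nat_lit 0, nat_lit 4, nat_lit 6], [nat_lit 0, nat_lit 7, nat_lit 8], [nat_lit 1, nat_lit 2, nat_lit 7], [nat_lit 1, nat_lit 9], [nat_lit 2], [nat_lit 3, nat_lit 4, nat_lit 9], [nat_lit 3, nat_lit 9], [nat_lit 5, nat_lit 7, nat_lit 8]],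
  [[nat_lit 1, nat_lit 2, nat_lit 3], [nat_lit 0, nat_lit 4, nat_lit 5], [nat_lit 0, nat_lit 6, nat_lit 7], [nat_lit 0], [nat_lit 1, nat_lit 5, nat_lit 8], [nat_lit 1, nat_lit 4, nat_lit 9], [nat_lit 2, nat_lit 7, nat_lit 8], [nat_lit 2, nat_lit 6], [nat_lit 4, nat_lit 6, nat_lit 9], [nat_lit 5, nat_lit 8]],
  [[nat_lit 1, nat_lit 2, nat_lit 3], [nat_lit 0, nat_lit 2, nat_lit 4], [nat_lit 0, nat_lit 1, nat_lit 5], [nat_lit 0, nat_lit 6, nat_lit 7], [nat_lit 1, nat_lit 8, nat_lit 9], [nat_lit 2, nat_lit 8], [nat_lit 3, nat_lit 8, nat_lit 9], [nat_lit 3], [nat_lit 4, nat_lit 5, nat_lit 6], [nat_lit 4, nat_lit 6]],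
  [[nat_lit 1, nat_lit 2, nat_lit 3], [nat_lit 0, nat_lit 2, nat_lit 4], [nat_lit 0, nat_lit 1, nat_lit 5], [nat_lit 0, nat_lit 6, nat_lit 7], [nat_lit 1, nat_lit 8, nat_lit 9], [nat_lit 2], [nat_lit 3, nat_lit 8, nat_lit 9], [nat_lit 3, nat_lit 8], [nat_lit 4, nat_lit 6, nat_lit 7], [nat_lit 4, nat_lit 6]],
  [[nat_lit 1, nat_lit 2, nat_lit 3], [nat_lit 0, nat_lit 4, nat_lit 5], [nat_lit 0, nat_lit 4, nat_lit 6], [nat_lit 0, nat_lit 5, nat_lit 7], [nat_lit 1, nat_lit 2, nat_lit 8], [nat_lit 1, nat_lit 3, nat_lit 9], [nat_lit 2, nat_lit 7], [nat_lit 3, nat_lit 6], [nat_lit 4], [nat_lit 5]],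
  [[nat_lit 1, nat_lit 2, nat_lit 3], [nat_lit 0, nat_lit 2, nat_lit 4], [nat_lit 0, nat_lit 1, nat_lit 5], [nat_lit 0, nat_lit 6, nat_lit 7], [nat_lit 1, nat_lit 6, nat_lit 7], [nat_lit 2, nat_lit 8, nat_lit 9], [nat_lit 3, nat_lit 4], [nat_lit 3, nat_lit 4], [nat_lit 5], [nat_lit 5]],
  [[nat_lit 1, nat_lit 2, nat_lit 3], [nat_lit 0, nat_lit 4, nat_lit 5], [nat_lit 0, nat_lit 6, nat_lit 7], [nat_lit 0, nat_lit 8, nat_lit 9], [nat_lit 1, nat_lit 10, nat_lit 11], [nat_lit 1, nat_lit 12], [nat_lit 2, nat_lit 10], [nat_lit 2, nat_lit 12], [nat_lit 3, nat_lit 11], [nat_lit 3], [nat_lit 4, nat_lit 6, nat_lit 12], [nat_lit 4, nat_lit 8], [nat_lit 5, nat_lit 7, nat_lit 10]],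
  [[nat_lit 1, nat_lit 2, nat_lit 3], [nat_lit 0, nat_lit 4, nat_lit 5], [nat_lit 0, nat_lit 6, nat_lit 7], [nat_lit 0, nat_lit 8, nat_lit 9], [nat_lit 1, nat_lit 5], [nat_lit 1, nat_lit 4, nat_lit 10], [nat_lit 2, nat_lit 7], [nat_lit 2, nat_lit 6, nat_lit 11], [nat_lit 3, nat_lit 9, nat_lit 12], [nat_lit 3, nat_lit 8], [nat_lit 5, nat_lit 11], [nat_lit 7, nat_lit 10], [nat_lit 8]],
  [[nat_lit 1, nat_lit 2, nat_lit 3], [nat_lit 0, nat_lit 4, nat_lit 5], [nat_lit 0, nat_lit 6, nat_lit 7], [nat_lit 0, nat_lit 8, nat_lit 9], [nat_lit 1, nat_lit 5], [nat_lit 1, nat_lit 4, nat_lit 10], [nat_lit 2, nat_lit 8, nat_lit 11], [nat_lit 2, nat_lit 9, nat_lit 12], [nat_lit 3, nat_lit 6], [nat_lit 3, nat_lit 7], [nat_lit 5], [nat_lit 6, nat_lit 12], [nat_lit 7, nat_lit 11]],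
  [[nat_lit 1, nat_lit 2, nat_lit 3], [nat_lit 0, nat_lit 4, nat_lit 5], [nat_lit 0, nat_lit 6, nat_lit 7], [nat_lit 0, nat_lit 8, nat_lit 9], [nat_lit 1, nat_lit 5, nat_lit 10], [nat_lit 1, nat_lit 4, nat_lit 10], [nat_lit 2, nat_lit 7, nat_lit 11], [nat_lit 2, nat_lit 6, nat_lit 11], [nat_lit 3, nat_lit 9, nat_lit 12], [nat_lit 3, nat_lit 8], [nat_lit 4, nat_lit 5], [nat_lit 6, nat_lit 7], [nat_lit 8]],
  [[nat_lit 1, nat_lit 2, nat_lit 3], [nat_lit 0, nat_lit 4, nat_lit 5], [nat_lit 0, nat_lit 6, nat_lit 7], [nat_lit 0, nat_lit 6, nat_lit 7], [nat_lit 1, nat_lit 8, nat_lit 9], [nat_lit 1, nat_lit 10, nat_lit 11], [nat_lit 2, nat_lit 3, nat_lit 12], [nat_lit 2, nat_lit 3], [nat_lit 4, nat_lit 12], [nat_lit 4, nat_lit 12], [nat_lit 5], [nat_lit 5], [nat_lit 6, nat_lit 8, nat_lit 9]],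
  [[nat_lit 1, nat_lit 2, nat_lit 3], [nat_lit 0, nat_lit 4, nat_lit 5], [nat_lit 0, nat_lit 6, nat_lit 7], [nat_lit 0, nat_lit 8, nat_lit 9], [nat_lit 1, nat_lit 10, nat_lit 11], [nat_lit 1, nat_lit 10, nat_lit 12], [nat_lit 2, nat_lit 11], [nat_lit 2], [nat_lit 3], [nat_lit 3], [nat_lit 4, nat_lit 5], [nat_lit 4, nat_lit 6], [nat_lit 5]],
  [[nat_lit 1, nat_lit 2, nat_lit 3], [nat_lit 0, nat_lit 4, nat_lit 5], [nat_lit 0, nat_lit 6, nat_lit 7], [nat_lit 0, nat_lit 8, nat_lit 9], [nat_lit 1, nat_lit 10, nat_lit 11], [nat_lit 1], [nat_lit 2], [nat_lit 2], [nat_lit 3], [nat_lit 3], [nat_lit 4, nat_lit 11, nat_lit 12], [nat_lit 4, nat_lit 10, nat_lit 12], [nat_lit 10, nat_lit 11]],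
  [[nat_lit 1, nat_lit 2, nat_lit 3], [nat_lit 0, nat_lit 4, nat_lit 5], [nat_lit 0, nat_lit 6, nat_lit 7], [nat_lit 0, nat_lit 8, nat_lit 9], [nat_lit 1, nat_lit 6, nat_lit 10], [nat_lit 1], [nat_lit 2, nat_lit 4, nat_lit 10], [nat_lit 2], [nat_lit 3, nat_lit 11, nat_lit 12], [nat_lit 3], [nat_lit 4, nat_lit 6], [nat_lit 8], [nat_lit 8]],
  [[nat_lit 1, nat_lit 2, nat_lit 3], [nat_lit 0, nat_lit 4, nat_lit 5], [nat_lit 0, nat_lit 6, nat_lit 7], [nat_lit 0, nat_lit 8, nat_lit 9], [nat_lit 1, nat_lit 10, nat_lit 11], [nat_lit 1], [nat_lit 2], [nat_lit 2], [nat_lit 3], [nat_lit 3], [nat_lit 4, nat_lit 11, nat_lit 12], [nat_lit 4, nat_lit 10], [nat_lit 10]],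
  [[nat_lit 1, nat_lit 2, nat_lit 3], [nat_lit 0, nat_lit 4, nat_lit 5], [nat_lit 0, nat_lit 6, nat_lit 7], [nat_lit 0, nat_lit 8, nat_lit 9], [nat_lit 1, nat_lit 6, nat_lit 8], [nat_lit 1, nat_lit 7, nat_lit 9], [nat_lit 2, nat_lit 4, nat_lit 10], [nat_lit 2, nat_lit 5, nat_lit 8], [nat_lit 3, nat_lit 4, nat_lit 7], [nat_lit 3, nat_lit 5, nat_lit 10], [nat_lit 6, nat_lit 9]],
  [[nat_lit 1, nat_lit 2, nat_lit 3], [nat_lit 0, nat_lit 4, nat_lit 5], [nat_lit 0, nat_lit 6, nat_lit 7], [nat_lit 0, nat_lit 6, nat_lit 7], [nat_lit 1, nat_lit 8, nat_lit 9], [nat_lit 1, nat_lit 10], [nat_lit 2, nat_lit 3, nat_lit 8], [nat_lit 2, nat_lit 3], [nat_lit 4, nat_lit 6, nat_lit 9], [nat_lit 4, nat_lit 8, nat_lit 10], [nat_lit 5, nat_lit 9]],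
  [[nat_lit 1, nat_lit 2, nat_lit 3], [nat_lit 0, nat_lit 4, nat_lit 5], [nat_lit 0, nat_lit 4, nat_lit 6], [nat_lit 0, nat_lit 7, nat_lit 8], [nat_lit 1, nat_lit 2, nat_lit 9], [nat_lit 1, nat_lit 7, nat_lit 10], [nat_lit 2, nat_lit 8], [nat_lit 3, nat_lit 5], [nat_lit 3, nat_lit 6], [nat_lit 4, nat_lit 10], [nat_lit 5, nat_lit 9]],
  [[nat_lit 1, nat_lit 2, nat_lit 3], [nat_lit 0, nat_lit 4, nat_lit 5], [nat_lit 0, nat_lit 6, nat_lit 7], [nat_lit 0, nat_lit 6, nat_lit 7], [nat_lit 1, nat_lit 5], [nat_lit 1, nat_lit 4, nat_lit 8], [nat_lit 2, nat_lit 3, nat_lit 9], [nat_lit 2, nat_lit 3, nat_lit 10], [nat_lit 5], [nat_lit 6, nat_lit 10], [nat_lit 7, nat_lit 9]],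
  [[nat_lit 1, nat_lit 2, nat_lit 3], [nat_lit 0, nat_lit 4, nat_lit 5], [nat_lit 0, nat_lit 4, nat_lit 6], [nat_lit 0, nat_lit 7, nat_lit 8], [nat_lit 1, nat_lit 2, nat_lit 7], [nat_lit 1, nat_lit 6], [nat_lit 2, nat_lit 5], [nat_lit 3, nat_lit 4, nat_lit 9], [nat_lit 3, nat_lit 9, nat_lit 10], [nat_lit 7, nat_lit 8], [nat_lit 8]],
  [[nat_lit 1, nat_lit 2, nat_lit 3], [nat_lit 0, nat_lit 4, nat_lit 5], [nat_lit 0, nat_lit 6, nat_lit 7], [nat_lit 0, nat_lit 8], [nat_lit 1, nat_lit 5, nat_lit 9], [nat_lit 1, nat_lit 4, nat_lit 10], [nat_lit 2, nat_lit 7, nat_lit 10], [nat_lit 2, nat_lit 6], [nat_lit 3, nat_lit 10], [nat_lit 4], [nat_lit 5, nat_lit 6, nat_lit 8]],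
  [[nat_lit 1, nat_lit 2, nat_lit 3], [nat_lit 0, nat_lit 4, nat_lit 5], [nat_lit 0, nat_lit 4, nat_lit 6], [nat_lit 0, nat_lit 7, nat_lit 8], [nat_lit 1, nat_lit 2, nat_lit 9], [nat_lit 1, nat_lit 10], [nat_lit 2], [nat_lit 3, nat_lit 8, nat_lit 9], [nat_lit 3, nat_lit 7], [nat_lit 4, nat_lit 7, nat_lit 10], [nat_lit 5, nat_lit 9]],
  [[nat_lit 1, nat_lit 2, nat_lit 3], [nat_lit 0, nat_lit 4, nat_lit 5], [nat_lit 0, nat_lit 4, nat_lit 6], [nat_lit 0, nat_lit 7, nat_lit 8], [nat_lit 1, nat_lit 2, nat_lit 7], [nat_lit 1, nat_lit 6, nat_lit 9], [nat_lit 2, nat_lit 5, nat_lit 10], [nat_lit 3, nat_lit 4], [nat_lit 3, nat_lit 9], [nat_lit 5, nat_lit 8, nat_lit 10], [nat_lit 6, nat_lit 9]],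
  [[nat_lit 1, nat_lit 2, nat_lit 3], [nat_lit 0, nat_lit 4, nat_lit 5], [nat_lit 0, nat_lit 6, nat_lit 7], [nat_lit 0, nat_lit 6, nat_lit 7], [nat_lit 1, nat_lit 8, nat_lit 9], [nat_lit 1, nat_lit 8, nat_lit 10], [nat_lit 2, nat_lit 3, nat_lit 9], [nat_lit 2, nat_lit 3], [nat_lit 4, nat_lit 5], [nat_lit 4, nat_lit 6, nat_lit 10], [nat_lit 5, nat_lit 9]],
  [[nat_lit 1, nat_lit 2, nat_lit 3], [nat_lit 0, nat_lit 4, nat_lit 5], [nat_lit 0, nat_lit 6, nat_lit 7], [nat_lit 0, nat_lit 8, nat_lit 9], [nat_lit 1, nat_lit 6, nat_lit 8], [nat_lit 1, nat_lit 7, nat_lit 9], [nat_lit 2, nat_lit 4, nat_lit 10], [nat_lit 2, nat_lit 5, nat_lit 10], [nat_lit 3, nat_lit 4], [nat_lit 3, nat_lit 5], [nat_lit 6, nat_lit 7]]]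

noncomputable def lv10 : List (List (List Nat)) := [
  [[nat_lit 1, nat_lit 2, nat_lit 3], [nat_lit 0, nat_lit 4, nat_lit 5], [nat_lit 0, nat_lit 4, nat_lit 6], [nat_lit 0, nat_lit 7, nat_lit 8], [nat_lit 1, nat_lit 2, nat_lit 9], [nat_lit 1, nat_lit 10], [nat_lit 2, nat_lit 10], [nat_lit 3, nat_lit 9, nat_lit 10], [nat_lit 3, nat_lit 9], [nat_lit 4, nat_lit 7, nat_lit 8], [nat_lit 5, nat_lit 6, nat_lit 7]],
  [[nat_lit 1, nat_lit 2, nat_lit 3], [nat_lit 0, nat_lit 4, nat_lit 5], [nat_lit 0, nat_lit 6, nat_lit 7], [nat_lit 0, nat_lit 8, nat_lit 9], [nat_lit 1, nat_lit 6, nat_lit 7], [nat_lit 1, nat_lit 10], [nat_lit 2, nat_lit 4, nat_lit 8], [nat_lit 2, nat_lit 4], [nat_lit 3, nat_lit 6, nat_lit 10], [nat_lit 3, nat_lit 10], [nat_lit 5, nat_lit 8, nat_lit 9]],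
  [[nat_lit 1, nat_lit 2, nat_lit 3], [nat_lit 0, nat_lit 2, nat_lit 4], [nat_lit 0, nat_lit 1, nat_lit 5], [nat_lit 0, nat_lit 6, nat_lit 7], [nat_lit 1, nat_lit 8, nat_lit 9], [nat_lit 2, nat_lit 10], [nat_lit 3, nat_lit 8, nat_lit 10], [nat_lit 3, nat_lit 9, nat_lit 10], [nat_lit 4, nat_lit 6], [nat_lit 4, nat_lit 7], [nat_lit 5, nat_lit 6, nat_lit 7]],
  [[nat_lit 1, nat_lit 2, nat_lit 3], [nat_lit 0, nat_lit 4, nat_lit 5], [nat_lit 0, nat_lit 6, nat_lit 7], [nat_lit 0, nat_lit 8, nat_lit 9], [nat_lit 1, nat_lit 5, nat_lit 10], [nat_lit 1, nat_lit 4], [nat_lit 2, nat_lit 8, nat_lit 10], [nat_lit 2, nat_lit 9], [nat_lit 3, nat_lit 6], [nat_lit 3, nat_lit 7, nat_lit 10], [nat_lit 4, nat_lit 6, nat_lit 9]],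
  [[nat_lit 1, nat_lit 2, nat_lit 3], [nat_lit 0, nat_lit 4, nat_lit 5], [nat_lit 0, nat_lit 6, nat_lit 7], [nat_lit 0, nat_lit 8, nat_lit 9], [nat_lit 1, nat_lit 6, nat_lit 8], [nat_lit 1, nat_lit 7, nat_lit 9], [nat_lit 2, nat_lit 4, nat_lit 10], [nat_lit 2, nat_lit 5], [nat_lit 3, nat_lit 4], [nat_lit 3, nat_lit 5, nat_lit 10], [nat_lit 6, nat_lit 9]],
  [[nat_lit 1, nat_lit 2, nat_lit 3], [nat_lit 0, nat_lit 4, nat_lit 5], [nat_lit 0, nat_lit 4, nat_lit 6], [nat_lit 0, nat_lit 7, nat_lit 8], [nat_lit 1, nat_lit 2, nat_lit 9], [nat_lit 1, nat_lit 7, nat_lit 10], [nat_lit 2, nat_lit 10], [nat_lit 3, nat_lit 5], [nat_lit 3, nat_lit 9, nat_lit 10], [nat_lit 4, nat_lit 8], [nat_lit 5, nat_lit 6, nat_lit 8]],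
  [[nat_lit 1, nat_lit 2, nat_lit 3], [nat_lit 0, nat_lit 4, nat_lit 5], [nat_lit 0, nat_lit 6, nat_lit 7], [nat_lit 0, nat_lit 6, nat_lit 7], [nat_lit 1, nat_lit 5, nat_lit 8], [nat_lit 1, nat_lit 4, nat_lit 8], [nat_lit 2, nat_lit 3, nat_lit 9], [nat_lit 2, nat_lit 3, nat_lit 10], [nat_lit 4, nat_lit 5], [nat_lit 6], [nat_lit 7]],
  [[nat_lit 1, nat_lit 2, nat_lit 3], [nat_lit 0, nat_lit 2, nat_lit 4], [nat_lit 0, nat_lit 1, nat_lit 5], [nat_lit 0, nat_lit 6, nat_lit 7], [nat_lit 1, nat_lit 8, nat_lit 9], [nat_lit 2, nat_lit 10], [nat_lit 3, nat_lit 8, nat_lit 10], [nat_lit 3], [nat_lit 4, nat_lit 6, nat_lit 10], [nat_lit 4], [nat_lit 5, nat_lit 6, nat_lit 8]],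
  [[nat_lit 1, nat_lit 2, nat_lit 3], [nat_lit 0, nat_lit 4, nat_lit 5], [nat_lit 0, nat_lit 4, nat_lit 6], [nat_lit 0, nat_lit 7, nat_lit 8], [nat_lit 1, nat_lit 2, nat_lit 9], [nat_lit 1, nat_lit 10], [nat_lit 2], [nat_lit 3, nat_lit 9], [nat_lit 3], [nat_lit 4, nat_lit 7, nat_lit 10], [nat_lit 5, nat_lit 9]],
  [[nat_lit 1, nat_lit 2, nat_lit 3], [nat_lit 0, nat_lit 4, nat_lit 5], [nat_lit 0, nat_lit 6, nat_lit 7], [nat_lit 0, nat_lit 8], [nat_lit 1, nat_lit 6, nat_lit 9], [nat_lit 1, nat_lit 9, nat_lit 10], [nat_lit 2, nat_lit 4], [nat_lit 2], [nat_lit 3, nat_lit 9], [nat_lit 4, nat_lit 5, nat_lit 8], [nat_lit 5]],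
  [[nat_lit 1, nat_lit 2], [nat_lit 0, nat_lit 3, nat_lit 5], [nat_lit 0, nat_lit 6, nat_lit 7], [nat_lit 1], [nat_lit 5, nat_lit 8], [nat_lit 1, nat_lit 4, nat_lit 9], [nat_lit 2, nat_lit 7, nat_lit 10], [nat_lit 2, nat_lit 6], [nat_lit 4, nat_lit 9, nat_lit 10], [nat_lit 5, nat_lit 8, nat_lit 10], [nat_lit 6, nat_lit 8, nat_lit 9]],
  [[nat_lit 1, nat_lit 2, nat_lit 3], [nat_lit 0, nat_lit 4, nat_lit 5], [nat_lit 0, nat_lit 6, nat_lit 7], [nat_lit 0, nat_lit 8, nat_lit 9], [nat_lit 1, nat_lit 5, nat_lit 10], [nat_lit 1, nat_lit 4], [nat_lit 2, nat_lit 8, nat_lit 10], [nat_lit 2, nat_lit 10], [nat_lit 3, nat_lit 6], [nat_lit 3], [nat_lit 4, nat_lit 6, nat_lit 7]],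
  [[nat_lit 1, nat_lit 2, nat_lit 3], [nat_lit 0, nat_lit 4, nat_lit 5], [nat_lit 0, nat_lit 6, nat_lit 7], [nat_lit 0, nat_lit 6, nat_lit 7], [nat_lit 1, nat_lit 6, nat_lit 8], [nat_lit 1, nat_lit 9, nat_lit 10], [nat_lit 2, nat_lit 3, nat_lit 4], [nat_lit 2, nat_lit 3], [nat_lit 4], [nat_lit 5], [nat_lit 5]],
  [[nat_lit 1, nat_lit 2, nat_lit 3], [nat_lit 0, nat_lit 4, nat_lit 5], [nat_lit 0, nat_lit 4, nat_lit 6], [nat_lit 0, nat_lit 7, nat_lit 8], [nat_lit 1, nat_lit 2, nat_lit 7], [nat_lit 1, nat_lit 6, nat_lit 9], [nat_lit 2, nat_lit 5, nat_lit 10], [nat_lit 3, nat_lit 4], [nat_lit 3], [nat_lit 5], [nat_lit 6]],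
  [[nat_lit 1, nat_lit 2, nat_lit 3], [nat_lit 0, nat_lit 4, nat_lit 5], [nat_lit 0, nat_lit 6, nat_lit 7], [nat_lit 0, nat_lit 8, nat_lit 9], [nat_lit 1, nat_lit 6, nat_lit 10], [nat_lit 1], [nat_lit 2, nat_lit 4, nat_lit 10], [nat_lit 2], [nat_lit 3, nat_lit 10], [nat_lit 3], [nat_lit 4, nat_lit 6, nat_lit 8]],
  [[nat_lit 1, nat_lit 2, nat_lit 3], [nat_lit 0, nat_lit 4, nat_lit 5], [nat_lit 0, nat_lit 4, nat_lit 6], [nat_lit 0, nat_lit 7, nat_lit 8], [nat_lit 1, nat_lit 2, nat_lit 9], [nat_lit 1, nat_lit 7, nat_lit 10], [nat_lit 2, nat_lit 8, nat_lit 10], [nat_lit 3, nat_lit 5], [nat_lit 3, nat_lit 6], [nat_lit 4], [nat_lit 5, nat_lit 6]],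
  [[nat_lit 1, nat_lit 2, nat_lit 3], [nat_lit 0, nat_lit 4, nat_lit 5], [nat_lit 0, nat_lit 6, nat_lit 7], [nat_lit 0, nat_lit 8, nat_lit 9], [nat_lit 1, nat_lit 6, nat_lit 8], [nat_lit 1], [nat_lit 2, nat_lit 4, nat_lit 10], [nat_lit 2, nat_lit 9, nat_lit 10], [nat_lit 3, nat_lit 4], [nat_lit 3, nat_lit 7], [nat_lit 6, nat_lit 7]],
  [[nat_lit 1, nat_lit 2, nat_lit 3], [nat_lit 0, nat_lit 4, nat_lit 5], [nat_lit 0, nat_lit 4, nat_lit 6], [nat_lit 0, nat_lit 7, nat_lit 8], [nat_lit 1, nat_lit 2, nat_lit 9], [nat_lit 1, nat_lit 6, nat_lit 10], [nat_lit 2, nat_lit 5], [nat_lit 3, nat_lit 8, nat_lit 10], [nat_lit 3, nat_lit 7], [nat_lit 4], [nat_lit 5, nat_lit 7]],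
  [[nat_lit 1, nat_lit 2, nat_lit 3], [nat_lit 0, nat_lit 4, nat_lit 5], [nat_lit 0, nat_lit 4, nat_lit 6], [nat_lit 0, nat_lit 7, nat_lit 8], [nat_lit 1, nat_lit 2, nat_lit 9], [nat_lit 1, nat_lit 10], [nat_lit 2], [nat_lit 3, nat_lit 9], [nat_lit 3, nat_lit 10], [nat_lit 4, nat_lit 7, nat_lit 10], [nat_lit 5, nat_lit 8, nat_lit 9]],
  [[nat_lit 1, nat_lit 2, nat_lit 3], [nat_lit 0, nat_lit 4, nat_lit 5], [nat_lit 0, nat_lit 6, nat_lit 7], [nat_lit 0, nat_lit 8, nat_lit 9], [nat_lit 1, nat_lit 5, nat_lit 6], [nat_lit 1, nat_lit 4], [nat_lit 2, nat_lit 4, nat_lit 10], [nat_lit 2], [nat_lit 3, nat_lit 9, nat_lit 10], [nat_lit 3, nat_lit 8], [nat_lit 6, nat_lit 8]],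
  [[nat_lit 1, nat_lit 2, nat_lit 3], [nat_lit 0, nat_lit 4, nat_lit 5], [nat_lit 0, nat_lit 6], [nat_lit 0, nat_lit 7, nat_lit 8], [nat_lit 1, nat_lit 6, nat_lit 9], [nat_lit 1, nat_lit 7, nat_lit 10], [nat_lit 2, nat_lit 4, nat_lit 9], [nat_lit 3, nat_lit 5, nat_lit 10], [nat_lit 3], [nat_lit 4, nat_lit 6], [nat_lit 5, nat_lit 7]],
  [[nat_lit 1, nat_lit 2, nat_lit 3], [nat_lit 0, nat_lit 4, nat_lit 5], [nat_lit 0, nat_lit 4, nat_lit 6], [nat_lit 0, nat_lit 7, nat_lit 8], [nat_lit 1, nat_lit 2, nat_lit 9], [nat_lit 1, nat_lit 10], [nat_lit 2], [nat_lit 3, nat_lit 9, nat_lit 10], [nat_lit 3, nat_lit 10], [nat_lit 4, nat_lit 7], [nat_lit 5, nat_lit 7, nat_lit 8]],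
  [[nat_lit 1, nat_lit 2, nat_lit 3], [nat_lit 0, nat_lit 4, nat_lit 5], [nat_lit 0, nat_lit 6, nat_lit 7], [nat_lit 0, nat_lit 8, nat_lit 9], [nat_lit 1, nat_lit 5, nat_lit 10], [nat_lit 1, nat_lit 4], [nat_lit 2, nat_lit 10], [nat_lit 2, nat_lit 10], [nat_lit 3], [nat_lit 3], [nat_lit 4, nat_lit 6, nat_lit 7]],
  [[nat_lit 1, nat_lit 2, nat_lit 3], [nat_lit 0, nat_lit 2, nat_lit 4], [nat_lit 0, nat_lit 1, nat_lit 5], [nat_lit 0], [nat_lit 1, nat_lit 6, nat_lit 7], [nat_lit 2, nat_lit 8, nat_lit 9], [nat_lit 4], [nat_lit 4, nat_lit 9, nat_lit 10], [nat_lit 5], [nat_lit 5, nat_lit 7], [nat_lit 7]],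
  [[nat_lit 1, nat_lit 2, nat_lit 3], [nat_lit 0], [nat_lit 0, nat_lit 4, nat_lit 5], [nat_lit 0, nat_lit 6, nat_lit 7], [nat_lit 2, nat_lit 10], [nat_lit 2], [nat_lit 3, nat_lit 8, nat_lit 10], [nat_lit 3, nat_lit 9, nat_lit 10], [nat_lit 6], [nat_lit 7], [nat_lit 4, nat_lit 6, nat_lit 7]],
  [[nat_lit 1, nat_lit 2, nat_lit 3], [nat_lit 0, nat_lit 4, nat_lit 5], [nat_lit 0, nat_lit 6], [nat_lit 0, nat_lit 7, nat_lit 8], [nat_lit 1, nat_lit 6, nat_lit 9], [nat_lit 1, nat_lit 10, nat_lit 11], [nat_lit 2, nat_lit 4], [nat_lit 3, nat_lit 9], [nat_lit 3, nat_lit 11], [nat_lit 4, nat_lit 7, nat_lit 10], [nat_lit 5, nat_lit 9], [nat_lit 5, nat_lit 8]],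
  [[nat_lit 1, nat_lit 2, nat_lit 3], [nat_lit 0, nat_lit 4, nat_lit 5], [nat_lit 0, nat_lit 6], [nat_lit 0, nat_lit 7, nat_lit 8], [nat_lit 1, nat_lit 9, nat_lit 10], [nat_lit 1, nat_lit 9, nat_lit 11], [nat_lit 2, nat_lit 11], [nat_lit 3, nat_lit 10], [nat_lit 3, nat_lit 11], [nat_lit 4, nat_lit 5], [nat_lit 4, nat_lit 7], [nat_lit 5, nat_lit 6, nat_lit 8]],
  [[nat_lit 1, nat_lit 2, nat_lit 3], [nat_lit 0, nat_lit 4, nat_lit 5], [nat_lit 0, nat_lit 6, nat_lit 7], [nat_lit 0, nat_lit 8], [nat_lit 1, nat_lit 6, nat_lit 7], [nat_lit 1, nat_lit 8, nat_lit 9], [nat_lit 2, nat_lit 4, nat_lit 10], [nat_lit 2, nat_lit 4, nat_lit 11], [nat_lit 3, nat_lit 5], [nat_lit 5], [nat_lit 6, nat_lit 11], [nat_lit 7, nat_lit 10]],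
  [[nat_lit 1, nat_lit 2, nat_lit 3], [nat_lit 0, nat_lit 4, nat_lit 5], [nat_lit 0, nat_lit 6], [nat_lit 0, nat_lit 7, nat_lit 8], [nat_lit 1, nat_lit 6, nat_lit 9], [nat_lit 1, nat_lit 10, nat_lit 11], [nat_lit 2, nat_lit 4], [nat_lit 3, nat_lit 10, nat_lit 11], [nat_lit 3, nat_lit 10], [nat_lit 4], [nat_lit 5, nat_lit 7, nat_lit 8], [nat_lit 5, nat_lit 7]],
  [[nat_lit 1, nat_lit 2, nat_lit 3], [nat_lit 0, nat_lit 4, nat_lit 5], [nat_lit 0, nat_lit 6, nat_lit 7], [nat_lit 0, nat_lit 8, nat_lit 9], [nat_lit 1, nat_lit 6, nat_lit 10], [nat_lit 1, nat_lit 8], [nat_lit 2, nat_lit 4, nat_lit 11], [nat_lit 2, nat_lit 10, nat_lit 11], [nat_lit 3, nat_lit 5], [nat_lit 3], [nat_lit 4, nat_lit 7], [nat_lit 6, nat_lit 7]],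
  [[nat_lit 1, nat_lit 2, nat_lit 3], [nat_lit 0, nat_lit 4, nat_lit 5], [nat_lit 0, nat_lit 6, nat_lit 7], [nat_lit 0, nat_lit 8, nat_lit 9], [nat_lit 1, nat_lit 6, nat_lit 8], [nat_lit 1, nat_lit 10, nat_lit 11], [nat_lit 2, nat_lit 4, nat_lit 10], [nat_lit 2, nat_lit 11], [nat_lit 3, nat_lit 4], [nat_lit 3], [nat_lit 5, nat_lit 6], [nat_lit 5, nat_lit 7]],
  [[nat_lit 1, nat_lit 2, nat_lit 3], [nat_lit 0, nat_lit 4, nat_lit 5], [nat_lit 0, nat_lit 6, nat_lit 7], [nat_lit 0, nat_lit 8, nat_lit 9], [nat_lit 1, nat_lit 6, nat_lit 10], [nat_lit 1, nat_lit 11], [nat_lit 2, nat_lit 4], [nat_lit 2, nat_lit 10, nat_lit 11], [nat_lit 3, nat_lit 10], [nat_lit 3], [nat_lit 4, nat_lit 7, nat_lit 8], [nat_lit 5, nat_lit 7]]]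

noncomputable def lv11 : List (List (List Nat)) := [
  [[nat_lit 1, nat_lit 2, nat_lit 3], [nat_lit 0, nat_lit 4, nat_lit 5], [nat_lit 0, nat_lit 6, nat_lit 7], [nat_lit 0, nat_lit 8, nat_lit 9], [nat_lit 1, nat_lit 6, nat_lit 8], [nat_lit 1], [nat_lit 2, nat_lit 4, nat_lit 10], [nat_lit 2, nat_lit 10, nat_lit 11], [nat_lit 3, nat_lit 4], [nat_lit 3, nat_lit 11], [nat_lit 6, nat_lit 7], [nat_lit 7, nat_lit 9]],
  [[nat_lit 1, nat_lit 2, nat_lit 3], [nat_lit 0, nat_lit 4, nat_lit 5], [nat_lit 0, nat_lit 6], [nat_lit 0, nat_lit 7, nat_lit 8], [nat_lit 1, nat_lit 6, nat_lit 9], [nat_lit 1, nat_lit 7, nat_lit 10], [nat_lit 2, nat_lit 4, nat_lit 11], [nat_lit 3, nat_lit 5, nat_lit 11], [nat_lit 3], [nat_lit 4, nat_lit 10], [nat_lit 5, nat_lit 9], [nat_lit 6, nat_lit 7]],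
  [[nat_lit 1, nat_lit 2, nat_lit 3], [nat_lit 0, nat_lit 4, nat_lit 5], [nat_lit 0, nat_lit 6, nat_lit 7], [nat_lit 0, nat_lit 8, nat_lit 9], [nat_lit 1, nat_lit 6, nat_lit 10], [nat_lit 1, nat_lit 11], [nat_lit 2, nat_lit 4, nat_lit 11], [nat_lit 2], [nat_lit 3, nat_lit 10], [nat_lit 3, nat_lit 10], [nat_lit 4, nat_lit 8, nat_lit 9], [nat_lit 5, nat_lit 6]],
  [[nat_lit 1, nat_lit 2, nat_lit 3], [nat_lit 0, nat_lit 4, nat_lit 5], [nat_lit 0, nat_lit 6], [nat_lit 0, nat_lit 7, nat_lit 8], [nat_lit 1, nat_lit 6, nat_lit 9], [nat_lit 1, nat_lit 10, nat_lit 11], [nat_lit 2, nat_lit 4], [nat_lit 3], [nat_lit 3], [nat_lit 4, nat_lit 10], [nat_lit 5, nat_lit 9, nat_lit 11], [nat_lit 5, nat_lit 10]],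
  [[nat_lit 1, nat_lit 2, nat_lit 3], [nat_lit 0, nat_lit 4, nat_lit 5], [nat_lit 0, nat_lit 6, nat_lit 7], [nat_lit 0, nat_lit 8, nat_lit 9], [nat_lit 1, nat_lit 6, nat_lit 10], [nat_lit 1, nat_lit 11], [nat_lit 2, nat_lit 4], [nat_lit 2, nat_lit 10, nat_lit 11], [nat_lit 3], [nat_lit 3], [nat_lit 4, nat_lit 7], [nat_lit 5, nat_lit 7]],
  [[nat_lit 1, nat_lit 2, nat_lit 3], [nat_lit 0, nat_lit 4, nat_lit 5], [nat_lit 0, nat_lit 6], [nat_lit 0, nat_lit 7, nat_lit 8], [nat_lit 1, nat_lit 6, nat_lit 9], [nat_lit 1, nat_lit 10, nat_lit 11], [nat_lit 2, nat_lit 4], [nat_lit 3, nat_lit 9], [nat_lit 3, nat_lit 9], [nat_lit 4, nat_lit 7, nat_lit 8], [nat_lit 5], [nat_lit 5]],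
  [[nat_lit 1, nat_lit 2, nat_lit 3], [nat_lit 0, nat_lit 4, nat_lit 5], [nat_lit 0, nat_lit 6, nat_lit 7], [nat_lit 0, nat_lit 8, nat_lit 9], [nat_lit 1, nat_lit 5], [nat_lit 1, nat_lit 4, nat_lit 10], [nat_lit 2, nat_lit 8, nat_lit 11], [nat_lit 2], [nat_lit 3, nat_lit 6], [nat_lit 3], [nat_lit 5, nat_lit 11], [nat_lit 6, nat_lit 10]],
  [[nat_lit 1, nat_lit 2, nat_lit 3], [nat_lit 0, nat_lit 4, nat_lit 5], [nat_lit 0, nat_lit 6, nat_lit 7], [nat_lit 0, nat_lit 8, nat_lit 9], [nat_lit 1, nat_lit 5, nat_lit 10], [nat_lit 1, nat_lit 4, nat_lit 10], [nat_lit 2, nat_lit 8, nat_lit 11], [nat_lit 2, nat_lit 9], [nat_lit 3, nat_lit 6], [nat_lit 3, nat_lit 7, nat_lit 11], [nat_lit 4, nat_lit 5], [nat_lit 6, nat_lit 9]],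
  [[nat_lit 1, nat_lit 2, nat_lit 3], [nat_lit 0, nat_lit 4, nat_lit 5], [nat_lit 0, nat_lit 6, nat_lit 7], [nat_lit 0, nat_lit 8, nat_lit 9], [nat_lit 1, nat_lit 6, nat_lit 10], [nat_lit 1, nat_lit 11], [nat_lit 2, nat_lit 4], [nat_lit 2, nat_lit 11], [nat_lit 3, nat_lit 10, nat_lit 11], [nat_lit 3, nat_lit 10], [nat_lit 4, nat_lit 8, nat_lit 9], [nat_lit 5, nat_lit 7, nat_lit 8]],
  [[nat_lit 3, nat_lit 4], [nat_lit 5, nat_lit 6], [nat_lit 7, nat_lit 8], [nat_lit 0, nat_lit 5, nat_lit 9], [nat_lit 0, nat_lit 7, nat_lit 10], [nat_lit 1, nat_lit 3, nat_lit 11], [nat_lit 1, nat_lit 8, nat_lit 11], [nat_lit 2, nat_lit 4, nat_lit 11], [nat_lit 2, nat_lit 6, nat_lit 9], [nat_lit 3, nat_lit 8, nat_lit 10], [nat_lit 4, nat_lit 9], [nat_lit 5, nat_lit 6, nat_lit 7]],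
  [[nat_lit 1, nat_lit 2, nat_lit 3], [nat_lit 0, nat_lit 4, nat_lit 5], [nat_lit 0, nat_lit 6], [nat_lit 0, nat_lit 7, nat_lit 8], [nat_lit 1, nat_lit 6, nat_lit 9], [nat_lit 1, nat_lit 7, nat_lit 10], [nat_lit 2, nat_lit 4, nat_lit 11], [nat_lit 3, nat_lit 5, nat_lit 11], [nat_lit 3], [nat_lit 4, nat_lit 11], [nat_lit 5], [nat_lit 6, nat_lit 7, nat_lit 9]],
  [[nat_lit 1, nat_lit 2, nat_lit 3], [nat_lit 0, nat_lit 4, nat_lit 5], [nat_lit 0, nat_lit 6, nat_lit 7], [nat_lit 0, nat_lit 8, nat_lit 9], [nat_lit 1, nat_lit 6, nat_lit 10], [nat_lit 1, nat_lit 11], [nat_lit 2, nat_lit 4], [nat_lit 2], [nat_lit 3, nat_lit 10, nat_lit 11], [nat_lit 3, nat_lit 11], [nat_lit 4, nat_lit 8], [nat_lit 5, nat_lit 8, nat_lit 9]],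
  [[nat_lit 1, nat_lit 2, nat_lit 3], [nat_lit 0, nat_lit 4, nat_lit 5], [nat_lit 0, nat_lit 6, nat_lit 7], [nat_lit 0, nat_lit 8, nat_lit 9], [nat_lit 1, nat_lit 10, nat_lit 11], [nat_lit 1, nat_lit 10], [nat_lit 2, nat_lit 10], [nat_lit 2], [nat_lit 3, nat_lit 11], [nat_lit 3, nat_lit 11], [nat_lit 4, nat_lit 5, nat_lit 6], [nat_lit 4, nat_lit 8, nat_lit 9]],
  [[nat_lit 1, nat_lit 2, nat_lit 3], [nat_lit 0, nat_lit 4, nat_lit 5], [nat_lit 0, nat_lit 6, nat_lit 7], [nat_lit 0, nat_lit 8, nat_lit 9], [nat_lit 1, nat_lit 5], [nat_lit 1, nat_lit 4, nat_lit 10], [nat_lit 2, nat_lit 8, nat_lit 11], [nat_lit 2, nat_lit 11], [nat_lit 3, nat_lit 6], [nat_lit 3, nat_lit 11], [nat_lit 5], [nat_lit 6, nat_lit 7, nat_lit 9]],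
  [[nat_lit 1, nat_lit 2, nat_lit 3], [nat_lit 0, nat_lit 4, nat_lit 5], [nat_lit 0, nat_lit 6, nat_lit 7], [nat_lit 0, nat_lit 8, nat_lit 9], [nat_lit 1, nat_lit 5], [nat_lit 1, nat_lit 4, nat_lit 10], [nat_lit 2, nat_lit 8, nat_lit 11], [nat_lit 2, nat_lit 9, nat_lit 11], [nat_lit 3, nat_lit 6], [nat_lit 3, nat_lit 7], [nat_lit 5], [nat_lit 6, nat_lit 7]],
  [[nat_lit 1, nat_lit 2, nat_lit 3], [nat_lit 0, nat_lit 4, nat_lit 5], [nat_lit 0, nat_lit 6, nat_lit 7], [nat_lit 0, nat_lit 8, nat_lit 9], [nat_lit 1, nat_lit 6, nat_lit 10], [nat_lit 1, nat_lit 10, nat_lit 11], [nat_lit 2, nat_lit 4, nat_lit 11], [nat_lit 2], [nat_lit 3], [nat_lit 3], [nat_lit 4, nat_lit 5], [nat_lit 5, nat_lit 6]],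
  [[nat_lit 1, nat_lit 2, nat_lit 3], [nat_lit 0, nat_lit 4, nat_lit 5], [nat_lit 0, nat_lit 6, nat_lit 7], [nat_lit 0, nat_lit 8, nat_lit 9], [nat_lit 1, nat_lit 10, nat_lit 11], [nat_lit 1], [nat_lit 2, nat_lit 10], [nat_lit 2, nat_lit 11], [nat_lit 3, nat_lit 10], [nat_lit 3, nat_lit 11], [nat_lit 4, nat_lit 6, nat_lit 8], [nat_lit 4, nat_lit 7, nat_lit 9]],
  [[nat_lit 1, nat_lit 2, nat_lit 3], [nat_lit 0, nat_lit 4, nat_lit 5], [nat_lit 0, nat_lit 6, nat_lit 7], [nat_lit 0, nat_lit 8, nat_lit 9], [nat_lit 1, nat_lit 6, nat_lit 10], [nat_lit 1, nat_lit 11], [nat_lit 2, nat_lit 4], [nat_lit 2, nat_lit 11], [nat_lit 3, nat_lit 10, nat_lit 11], [nat_lit 3], [nat_lit 4, nat_lit 8], [nat_lit 5, nat_lit 7, nat_lit 8]],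
  [[nat_lit 1, nat_lit 2, nat_lit 3], [nat_lit 0, nat_lit 4, nat_lit 5], [nat_lit 0, nat_lit 6, nat_lit 7], [nat_lit 0, nat_lit 8, nat_lit 9], [nat_lit 1, nat_lit 6, nat_lit 10], [nat_lit 1], [nat_lit 2, nat_lit 4, nat_lit 11], [nat_lit 2], [nat_lit 3, nat_lit 10], [nat_lit 3, nat_lit 10], [nat_lit 4, nat_lit 8, nat_lit 9], [nat_lit 6]],
  [[nat_lit 1, nat_lit 2, nat_lit 3], [nat_lit 0, nat_lit 4, nat_lit 5], [nat_lit 0, nat_lit 6, nat_lit 7], [nat_lit 0, nat_lit 8, nat_lit 9], [nat_lit 1, nat_lit 10, nat_lit 11], [nat_lit 1], [nat_lit 2, nat_lit 10], [nat_lit 2], [nat_lit 3, nat_lit 10], [nat_lit 3], [nat_lit 4, nat_lit 6, nat_lit 8], [nat_lit 4]],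
  [[nat_lit 1, nat_lit 2, nat_lit 3], [nat_lit 0, nat_lit 2, nat_lit 3], [nat_lit 0, nat_lit 1, nat_lit 4], [nat_lit 0, nat_lit 1, nat_lit 4], [nat_lit 2, nat_lit 3, nat_lit 5], [nat_lit 4, nat_lit 6, nat_lit 7], [nat_lit 5, nat_lit 7, nat_lit 8], [nat_lit 5, nat_lit 6, nat_lit 8], [nat_lit 6, nat_lit 7]],
  [[nat_lit 1, nat_lit 2, nat_lit 3], [nat_lit 0, nat_lit 2, nat_lit 3], [nat_lit 0, nat_lit 1, nat_lit 4], [nat_lit 0, nat_lit 1, nat_lit 5], [nat_lit 2, nat_lit 5, nat_lit 6], [nat_lit 3, nat_lit 4, nat_lit 7], [nat_lit 4, nat_lit 7, nat_lit 8], [nat_lit 5, nat_lit 6, nat_lit 8], [nat_lit 6, nat_lit 7]],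
  [[nat_lit 1, nat_lit 2, nat_lit 3], [nat_lit 0, nat_lit 4, nat_lit 5], [nat_lit 0, nat_lit 4], [nat_lit 0, nat_lit 6, nat_lit 7], [nat_lit 1, nat_lit 2, nat_lit 5], [nat_lit 1, nat_lit 4, nat_lit 8], [nat_lit 3, nat_lit 7, nat_lit 8], [nat_lit 3, nat_lit 6, nat_lit 8], [nat_lit 5, nat_lit 6, nat_lit 7]],
  [[nat_lit 1, nat_lit 2, nat_lit 3], [nat_lit 0, nat_lit 2, nat_lit 3], [nat_lit 0, nat_lit 1, nat_lit 4], [nat_lit 0, nat_lit 1, nat_lit 5], [nat_lit 2, nat_lit 6, nat_lit 7], [nat_lit 3, nat_lit 8], [nat_lit 4, nat_lit 7, nat_lit 8], [nat_lit 4, nat_lit 6, nat_lit 8], [nat_lit 5, nat_lit 6, nat_lit 7]],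
  [[nat_lit 1, nat_lit 2, nat_lit 3], [nat_lit 0, nat_lit 4], [nat_lit 0, nat_lit 5], [nat_lit 0, nat_lit 6, nat_lit 7], [nat_lit 1, nat_lit 5], [nat_lit 2, nat_lit 4, nat_lit 8], [nat_lit 3, nat_lit 7, nat_lit 8], [nat_lit 3, nat_lit 6, nat_lit 8], [nat_lit 5, nat_lit 6, nat_lit 7]],
  [[nat_lit 1, nat_lit 2, nat_lit 3], [nat_lit 0, nat_lit 2, nat_lit 3], [nat_lit 0, nat_lit 1, nat_lit 4], [nat_lit 0, nat_lit 1, nat_lit 4], [nat_lit 2, nat_lit 3, nat_lit 5], [nat_lit 4, nat_lit 6, nat_lit 7], [nat_lit 5, nat_lit 7, nat_lit 8], [nat_lit 5, nat_lit 6], [nat_lit 6]],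
  [[nat_lit 1, nat_lit 2, nat_lit 3], [nat_lit 0, nat_lit 2, nat_lit 3], [nat_lit 0, nat_lit 1, nat_lit 4], [nat_lit 0, nat_lit 1], [nat_lit 2, nat_lit 5, nat_lit 6], [nat_lit 4, nat_lit 6, nat_lit 8], [nat_lit 4, nat_lit 5, nat_lit 8], [nat_lit 8], [nat_lit 5, nat_lit 6, nat_lit 7]],
  [[nat_lit 1, nat_lit 2, nat_lit 3], [nat_lit 0, nat_lit 2, nat_lit 4], [nat_lit 0, nat_lit 1], [nat_lit 0, nat_lit 5, nat_lit 6], [nat_lit 1, nat_lit 5, nat_lit 6], [nat_lit 3, nat_lit 4, nat_lit 8], [nat_lit 3, nat_lit 4, nat_lit 8], [nat_lit 8], [nat_lit 5, nat_lit 6, nat_lit 7]],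
  [[nat_lit 1, nat_lit 2], [nat_lit 0, nat_lit 3, nat_lit 4], [nat_lit 0, nat_lit 5, nat_lit 6], [nat_lit 1, nat_lit 4, nat_lit 5], [nat_lit 1, nat_lit 3], [nat_lit 2, nat_lit 3, nat_lit 8], [nat_lit 2, nat_lit 7, nat_lit 8], [nat_lit 6, nat_lit 8], [nat_lit 5, nat_lit 6, nat_lit 7]],
  [[nat_lit 3, nat_lit 4], [nat_lit 5], [nat_lit 5], [nat_lit 0, nat_lit 4, nat_lit 6], [nat_lit 0, nat_lit 3, nat_lit 7], [nat_lit 1, nat_lit 2, nat_lit 8], [nat_lit 3, nat_lit 7, nat_lit 8], [nat_lit 4, nat_lit 6, nat_lit 8], [nat_lit 5, nat_lit 6, nat_lit 7]],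
  [[nat_lit 1, nat_lit 2, nat_lit 3], [nat_lit 0, nat_lit 4], [nat_lit 0], [nat_lit 0, nat_lit 5, nat_lit 6], [nat_lit 1, nat_lit 7, nat_lit 8], [nat_lit 3, nat_lit 6, nat_lit 8], [nat_lit 3, nat_lit 5, nat_lit 8], [nat_lit 4], [nat_lit 4, nat_lit 5, nat_lit 6]],
  [[nat_lit 1, nat_lit 2, nat_lit 3], [nat_lit 0, nat_lit 4], [nat_lit 0], [nat_lit 0, nat_lit 5, nat_lit 6], [nat_lit 1, nat_lit 5, nat_lit 8], [nat_lit 3, nat_lit 4, nat_lit 6], [nat_lit 3, nat_lit 5, nat_lit 8], [nat_lit 8], [nat_lit 4, nat_lit 6, nat_lit 7]]]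

noncomputable def lv12 : List (List (List Nat)) := [
  [[nat_lit 1, nat_lit 2], [nat_lit 0, nat_lit 3, nat_lit 4], [nat_lit 0, nat_lit 7, nat_lit 8], [nat_lit 1, nat_lit 5, nat_lit 7], [nat_lit 1, nat_lit 7, nat_lit 8], [nat_lit 3], [nat_lit 8], [nat_lit 2, nat_lit 3, nat_lit 4], [nat_lit 2, nat_lit 4, nat_lit 6]],
  [[nat_lit 1, nat_lit 2, nat_lit 3], [nat_lit 0, nat_lit 4, nat_lit 5], [nat_lit 0, nat_lit 6, nat_lit 7], [nat_lit 0, nat_lit 8, nat_lit 9], [nat_lit 1, nat_lit 10, nat_lit 11], [nat_lit 1, nat_lit 10], [nat_lit 2, nat_lit 11, nat_lit 12], [nat_lit 2], [nat_lit 3, nat_lit 12], [nat_lit 3, nat_lit 12], [nat_lit 4, nat_lit 5], [nat_lit 4, nat_lit 6], [nat_lit 6, nat_lit 8, nat_lit 9]],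
  [[nat_lit 1, nat_lit 2, nat_lit 3], [nat_lit 0, nat_lit 4, nat_lit 5], [nat_lit 0, nat_lit 6, nat_lit 7], [nat_lit 0, nat_lit 8, nat_lit 9], [nat_lit 1, nat_lit 10, nat_lit 11], [nat_lit 1, nat_lit 10, nat_lit 12], [nat_lit 2, nat_lit 11], [nat_lit 2, nat_lit 12], [nat_lit 3], [nat_lit 3], [nat_lit 4, nat_lit 5], [nat_lit 4, nat_lit 6, nat_lit 12], [nat_lit 5, nat_lit 7, nat_lit 11]],
  [[nat_lit 1, nat_lit 2, nat_lit 3], [nat_lit 0, nat_lit 4, nat_lit 5], [nat_lit 0, nat_lit 6, nat_lit 7], [nat_lit 0, nat_lit 8, nat_lit 9], [nat_lit 1, nat_lit 10, nat_lit 11], [nat_lit 1], [nat_lit 2, nat_lit 10, nat_lit 12], [nat_lit 2, nat_lit 12], [nat_lit 3, nat_lit 11, nat_lit 12], [nat_lit 3], [nat_lit 4, nat_lit 6], [nat_lit 4, nat_lit 8], [nat_lit 6, nat_lit 7, nat_lit 8]],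
  [[nat_lit 1, nat_lit 2, nat_lit 3], [nat_lit 0, nat_lit 4, nat_lit 5], [nat_lit 0], [nat_lit 0, nat_lit 6, nat_lit 7], [nat_lit 1, nat_lit 8, nat_lit 9], [nat_lit 1, nat_lit 10, nat_lit 11], [nat_lit 3, nat_lit 9, nat_lit 12], [nat_lit 3, nat_lit 11], [nat_lit 4], [nat_lit 4, nat_lit 6], [nat_lit 5], [nat_lit 5, nat_lit 7], [nat_lit 6]],
  [[nat_lit 1, nat_lit 2, nat_lit 3], [nat_lit 0, nat_lit 4, nat_lit 5], [nat_lit 0, nat_lit 6, nat_lit 7], [nat_lit 0, nat_lit 8, nat_lit 9], [nat_lit 1, nat_lit 10, nat_lit 11], [nat_lit 1, nat_lit 12], [nat_lit 2, nat_lit 12], [nat_lit 2], [nat_lit 3], [nat_lit 3], [nat_lit 4, nat_lit 11, nat_lit 12], [nat_lit 4, nat_lit 10], [nat_lit 5, nat_lit 6, nat_lit 10]],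
  [[nat_lit 1, nat_lit 2, nat_lit 3], [nat_lit 0, nat_lit 4, nat_lit 5], [nat_lit 0, nat_lit 6, nat_lit 7], [nat_lit 0, nat_lit 8, nat_lit 9], [nat_lit 1, nat_lit 5], [nat_lit 1, nat_lit 4, nat_lit 10], [nat_lit 2, nat_lit 8, nat_lit 11], [nat_lit 2, nat_lit 9, nat_lit 12], [nat_lit 3, nat_lit 6], [nat_lit 3, nat_lit 7], [nat_lit 5], [nat_lit 6], [nat_lit 7]],
  [[nat_lit 1, nat_lit 2], [nat_lit 0, nat_lit 3, nat_lit 4], [nat_lit 0, nat_lit 5, nat_lit 6], [nat_lit 1, nat_lit 9], [nat_lit 1, nat_lit 10, nat_lit 11], [nat_lit 2, nat_lit 12, nat_lit 13], [nat_lit 2], [nat_lit 12], [nat_lit 13], [nat_lit 3, nat_lit 12], [nat_lit 4, nat_lit 11, nat_lit 13], [nat_lit 4, nat_lit 10], [nat_lit 5, nat_lit 7, nat_lit 9], [nat_lit 5, nat_lit 8, nat_lit 10]],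
  [[nat_lit 1, nat_lit 2, nat_lit 3], [nat_lit 0, nat_lit 4, nat_lit 5], [nat_lit 0, nat_lit 6, nat_lit 7], [nat_lit 0, nat_lit 8, nat_lit 9], [nat_lit 1, nat_lit 10, nat_lit 11], [nat_lit 1, nat_lit 10, nat_lit 12], [nat_lit 2, nat_lit 11, nat_lit 13], [nat_lit 2, nat_lit 12, nat_lit 13], [nat_lit 3], [nat_lit 3], [nat_lit 4, nat_lit 5], [nat_lit 4, nat_lit 6], [nat_lit 5, nat_lit 7], [nat_lit 6, nat_lit 7]],
  [[nat_lit 1, nat_lit 2, nat_lit 3], [nat_lit 0, nat_lit 4, nat_lit 5], [nat_lit 0, nat_lit 6, nat_lit 7], [nat_lit 0, nat_lit 8, nat_lit 9], [nat_lit 1, nat_lit 10, nat_lit 11], [nat_lit 1], [nat_lit 2, nat_lit 12, nat_lit 13], [nat_lit 2, nat_lit 12], [nat_lit 3], [nat_lit 3], [nat_lit 4, nat_lit 11, nat_lit 12], [nat_lit 4, nat_lit 10], [nat_lit 6, nat_lit 7, nat_lit 10], [nat_lit 6]],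
  [[nat_lit 1, nat_lit 2, nat_lit 3], [nat_lit 0, nat_lit 2, nat_lit 4], [nat_lit 0, nat_lit 1, nat_lit 5], [nat_lit 0, nat_lit 6, nat_lit 7], [nat_lit 1, nat_lit 6, nat_lit 8], [nat_lit 2, nat_lit 7, nat_lit 9], [nat_lit 3, nat_lit 4], [nat_lit 3, nat_lit 5], [nat_lit 4, nat_lit 9], [nat_lit 5, nat_lit 8]],
  [[nat_lit 1, nat_lit 2, nat_lit 3], [nat_lit 0, nat_lit 4, nat_lit 5], [nat_lit 0, nat_lit 4, nat_lit 5], [nat_lit 0, nat_lit 4, nat_lit 6], [nat_lit 1, nat_lit 2, nat_lit 3], [nat_lit 1, nat_lit 2, nat_lit 7], [nat_lit 3, nat_lit 8, nat_lit 9], [nat_lit 5, nat_lit 8], [nat_lit 6, nat_lit 7, nat_lit 9], [nat_lit 6, nat_lit 8]],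
  [[nat_lit 1, nat_lit 2, nat_lit 3], [nat_lit 0, nat_lit 4, nat_lit 5], [nat_lit 0, nat_lit 4, nat_lit 6], [nat_lit 0, nat_lit 7, nat_lit 8], [nat_lit 1, nat_lit 2, nat_lit 7], [nat_lit 1, nat_lit 6, nat_lit 9], [nat_lit 2, nat_lit 5], [nat_lit 3, nat_lit 4, nat_lit 8], [nat_lit 3, nat_lit 7, nat_lit 9], [nat_lit 5, nat_lit 8]],
  [[nat_lit 1, nat_lit 2, nat_lit 3], [nat_lit 0, nat_lit 4, nat_lit 5], [nat_lit 0, nat_lit 4, nat_lit 6], [nat_lit 0, nat_lit 7, nat_lit 8], [nat_lit 1, nat_lit 2, nat_lit 7], [nat_lit 1, nat_lit 6, nat_lit 9], [nat_lit 2, nat_lit 5, nat_lit 9], [nat_lit 3, nat_lit 4, nat_lit 8], [nat_lit 3, nat_lit 7], [nat_lit 5, nat_lit 6]],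
  [[nat_lit 1, nat_lit 2, nat_lit 3], [nat_lit 0, nat_lit 2, nat_lit 4], [nat_lit 0, nat_lit 1, nat_lit 5], [nat_lit 0, nat_lit 6, nat_lit 7], [nat_lit 1, nat_lit 6, nat_lit 7], [nat_lit 2, nat_lit 8, nat_lit 9], [nat_lit 3, nat_lit 4, nat_lit 8], [nat_lit 3, nat_lit 4], [nat_lit 5, nat_lit 6, nat_lit 9], [nat_lit 5, nat_lit 8]],
  [[nat_lit 1, nat_lit 2, nat_lit 3], [nat_lit 0, nat_lit 4, nat_lit 5], [nat_lit 0, nat_lit 6, nat_lit 7], [nat_lit 0, nat_lit 8, nat_lit 9], [nat_lit 1, nat_lit 5, nat_lit 6], [nat_lit 1, nat_lit 4], [nat_lit 2, nat_lit 4, nat_lit 8], [nat_lit 2, nat_lit 9], [nat_lit 3, nat_lit 6, nat_lit 9], [nat_lit 3, nat_lit 7, nat_lit 8]],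
  [[nat_lit 1, nat_lit 2, nat_lit 3], [nat_lit 0, nat_lit 2, nat_lit 4], [nat_lit 0, nat_lit 1, nat_lit 5], [nat_lit 0, nat_lit 6, nat_lit 7], [nat_lit 1, nat_lit 8, nat_lit 9], [nat_lit 2, nat_lit 8], [nat_lit 3, nat_lit 7, nat_lit 9], [nat_lit 3, nat_lit 6], [nat_lit 4, nat_lit 5, nat_lit 9], [nat_lit 4, nat_lit 6, nat_lit 8]],
  [[nat_lit 1, nat_lit 2, nat_lit 3], [nat_lit 0, nat_lit 2, nat_lit 4], [nat_lit 0, nat_lit 1, nat_lit 5], [nat_lit 0, nat_lit 6, nat_lit 7], [nat_lit 1, nat_lit 6, nat_lit 8], [nat_lit 2, nat_lit 7, nat_lit 8], [nat_lit 3, nat_lit 4, nat_lit 9], [nat_lit 3, nat_lit 5, nat_lit 9], [nat_lit 4, nat_lit 5], [nat_lit 6, nat_lit 7]],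
  [[nat_lit 1, nat_lit 2, nat_lit 3], [nat_lit 0, nat_lit 4, nat_lit 5], [nat_lit 0, nat_lit 4, nat_lit 6], [nat_lit 0, nat_lit 5, nat_lit 7], [nat_lit 1, nat_lit 2, nat_lit 8], [nat_lit 1, nat_lit 3, nat_lit 9], [nat_lit 2, nat_lit 7, nat_lit 8], [nat_lit 3, nat_lit 6], [nat_lit 4, nat_lit 6, nat_lit 9], [nat_lit 5, nat_lit 8]],
  [[nat_lit 1, nat_lit 2, nat_lit 3], [nat_lit 0, nat_lit 4, nat_lit 5], [nat_lit 0, nat_lit 4, nat_lit 6], [nat_lit 0, nat_lit 5, nat_lit 7], [nat_lit 1, nat_lit 2, nat_lit 8], [nat_lit 1, nat_lit 3, nat_lit 9], [nat_lit 2, nat_lit 8, nat_lit 9], [nat_lit 3, nat_lit 8], [nat_lit 4, nat_lit 6, nat_lit 7], [nat_lit 5, nat_lit 6]],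
  [[nat_lit 1, nat_lit 2, nat_lit 3], [nat_lit 0, nat_lit 2, nat_lit 4], [nat_lit 0, nat_lit 1, nat_lit 5], [nat_lit 0, nat_lit 6, nat_lit 7], [nat_lit 1, nat_lit 8, nat_lit 9], [nat_lit 2, nat_lit 8], [nat_lit 3, nat_lit 8, nat_lit 9], [nat_lit 3, nat_lit 9], [nat_lit 4, nat_lit 5, nat_lit 6], [nat_lit 4, nat_lit 6, nat_lit 7]],
  [[nat_lit 1, nat_lit 2, nat_lit 3], [nat_lit 0, nat_lit 4, nat_lit 5], [nat_lit 0, nat_lit 4, nat_lit 6], [nat_lit 0, nat_lit 7, nat_lit 8], [nat_lit 1, nat_lit 2, nat_lit 9], [nat_lit 1, nat_lit 6, nat_lit 7], [nat_lit 2, nat_lit 5], [nat_lit 3, nat_lit 5, nat_lit 9], [nat_lit 3, nat_lit 9], [nat_lit 4, nat_lit 7, nat_lit 8]],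
  [[nat_lit 1, nat_lit 2, nat_lit 3], [nat_lit 0, nat_lit 4, nat_lit 5], [nat_lit 0, nat_lit 6, nat_lit 7], [nat_lit 0, nat_lit 8, nat_lit 9], [nat_lit 1, nat_lit 6, nat_lit 7], [nat_lit 1, nat_lit 8, nat_lit 9], [nat_lit 2, nat_lit 4, nat_lit 9], [nat_lit 2, nat_lit 4], [nat_lit 3, nat_lit 5], [nat_lit 3, nat_lit 5, nat_lit 6]],
  [[nat_lit 1, nat_lit 2, nat_lit 3], [nat_lit 0, nat_lit 2, nat_lit 4], [nat_lit 0, nat_lit 1, nat_lit 5], [nat_lit 0, nat_lit 6, nat_lit 7], [nat_lit 1, nat_lit 6, nat_lit 8], [nat_lit 2, nat_lit 7, nat_lit 9], [nat_lit 3, nat_lit 4], [nat_lit 3, nat_lit 5, nat_lit 8], [nat_lit 4, nat_lit 7, nat_lit 9], [nat_lit 5, nat_lit 8]],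
  [[nat_lit 1, nat_lit 2, nat_lit 3], [nat_lit 0, nat_lit 4, nat_lit 5], [nat_lit 0, nat_lit 6, nat_lit 7], [nat_lit 0, nat_lit 8, nat_lit 9], [nat_lit 1, nat_lit 5, nat_lit 6], [nat_lit 1, nat_lit 4, nat_lit 8], [nat_lit 2, nat_lit 4, nat_lit 9], [nat_lit 2, nat_lit 9], [nat_lit 3, nat_lit 5], [nat_lit 3, nat_lit 6, nat_lit 7]],
  [[nat_lit 1, nat_lit 2, nat_lit 3], [nat_lit 0, nat_lit 4, nat_lit 5], [nat_lit 0, nat_lit 4, nat_lit 6], [nat_lit 0, nat_lit 5, nat_lit 7], [nat_lit 1, nat_lit 2, nat_lit 8], [nat_lit 1, nat_lit 3, nat_lit 9], [nat_lit 2, nat_lit 7, nat_lit 8], [nat_lit 3, nat_lit 6, nat_lit 9], [nat_lit 4, nat_lit 6], [nat_lit 5, nat_lit 7]],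
  [[nat_lit 1, nat_lit 2, nat_lit 3], [nat_lit 0, nat_lit 4, nat_lit 5], [nat_lit 0, nat_lit 4, nat_lit 6], [nat_lit 0, nat_lit 5, nat_lit 7], [nat_lit 1, nat_lit 2, nat_lit 8], [nat_lit 1, nat_lit 3, nat_lit 9], [nat_lit 2, nat_lit 8], [nat_lit 3, nat_lit 8, nat_lit 9], [nat_lit 4, nat_lit 6, nat_lit 7], [nat_lit 5, nat_lit 7]],
  [[nat_lit 1, nat_lit 2, nat_lit 3], [nat_lit 0, nat_lit 4, nat_lit 5], [nat_lit 0, nat_lit 4, nat_lit 6], [nat_lit 0, nat_lit 7, nat_lit 8], [nat_lit 1, nat_lit 2, nat_lit 7], [nat_lit 1, nat_lit 6, nat_lit 8], [nat_lit 2, nat_lit 5, nat_lit 9], [nat_lit 3, nat_lit 4], [nat_lit 3, nat_lit 5, nat_lit 9], [nat_lit 6, nat_lit 8]],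
  [[nat_lit 1, nat_lit 2, nat_lit 3], [nat_lit 0, nat_lit 4, nat_lit 5], [nat_lit 0, nat_lit 4, nat_lit 6], [nat_lit 0, nat_lit 5, nat_lit 7], [nat_lit 1, nat_lit 2, nat_lit 8], [nat_lit 1, nat_lit 3, nat_lit 9], [nat_lit 2, nat_lit 7, nat_lit 9], [nat_lit 3, nat_lit 6, nat_lit 8], [nat_lit 4, nat_lit 7], [nat_lit 5, nat_lit 6]],
  [[nat_lit 1, nat_lit 2, nat_lit 3], [nat_lit 0, nat_lit 4, nat_lit 5], [nat_lit 0, nat_lit 4, nat_lit 6], [nat_lit 0, nat_lit 5, nat_lit 7], [nat_lit 1, nat_lit 2, nat_lit 8], [nat_lit 1, nat_lit 3, nat_lit 9], [nat_lit 2, nat_lit 7], [nat_lit 3, nat_lit 6, nat_lit 8], [nat_lit 4, nat_lit 7, nat_lit 9], [nat_lit 5, nat_lit 8]],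
  [[nat_lit 1, nat_lit 2, nat_lit 3], [nat_lit 0, nat_lit 2, nat_lit 4], [nat_lit 0, nat_lit 1, nat_lit 5], [nat_lit 0, nat_lit 6, nat_lit 7], [nat_lit 1, nat_lit 8, nat_lit 9], [nat_lit 2, nat_lit 8], [nat_lit 3, nat_lit 7, nat_lit 8], [nat_lit 3, nat_lit 6, nat_lit 9], [nat_lit 4, nat_lit 5, nat_lit 6], [nat_lit 4, nat_lit 7]],
  [[nat_lit 1, nat_lit 2, nat_lit 3], [nat_lit 0, nat_lit 4, nat_lit 5], [nat_lit 0, nat_lit 4, nat_lit 6], [nat_lit 0, nat_lit 7, nat_lit 8], [nat_lit 1, nat_lit 2, nat_lit 9], [nat_lit 1, nat_lit 7, nat_lit 8], [nat_lit 2, nat_lit 7], [nat_lit 3, nat_lit 5, nat_lit 6], [nat_lit 3, nat_lit 5, nat_lit 9], [nat_lit 4, nat_lit 8]]]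

noncomputable def lv13 : List (List (List Nat)) := [
  [[nat_lit 1, nat_lit 2, nat_lit 3], [nat_lit 0, nat_lit 2, nat_lit 4], [nat_lit 0, nat_lit 1, nat_lit 5], [nat_lit 0, nat_lit 6, nat_lit 7], [nat_lit 1, nat_lit 6, nat_lit 8], [nat_lit 2, nat_lit 9], [nat_lit 3, nat_lit 4, nat_lit 9], [nat_lit 3, nat_lit 8, nat_lit 9], [nat_lit 4, nat_lit 7], [nat_lit 5, nat_lit 6, nat_lit 7]],
  [[nat_lit 1, nat_lit 2, nat_lit 3], [nat_lit 0, nat_lit 4, nat_lit 5], [nat_lit 0, nat_lit 4, nat_lit 6], [nat_lit 0, nat_lit 7, nat_lit 8], [nat_lit 1, nat_lit 2, nat_lit 9], [nat_lit 1, nat_lit 6, nat_lit 7], [nat_lit 2, nat_lit 5, nat_lit 8], [nat_lit 3, nat_lit 5, nat_lit 9], [nat_lit 3, nat_lit 6], [nat_lit 4, nat_lit 7]],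
  [[nat_lit 1, nat_lit 2, nat_lit 3], [nat_lit 0, nat_lit 4, nat_lit 5], [nat_lit 0, nat_lit 4, nat_lit 6], [nat_lit 0, nat_lit 7, nat_lit 8], [nat_lit 1, nat_lit 2, nat_lit 9], [nat_lit 1, nat_lit 7, nat_lit 8], [nat_lit 2, nat_lit 7, nat_lit 9], [nat_lit 3, nat_lit 5, nat_lit 6], [nat_lit 3, nat_lit 5], [nat_lit 4, nat_lit 6]],
  [[nat_lit 1, nat_lit 2, nat_lit 3], [nat_lit 0, nat_lit 4, nat_lit 5], [nat_lit 0, nat_lit 4, nat_lit 6], [nat_lit 0, nat_lit 7, nat_lit 8], [nat_lit 1, nat_lit 2], [nat_lit 1, nat_lit 7, nat_lit 9], [nat_lit 2], [nat_lit 3, nat_lit 5, nat_lit 8], [nat_lit 3, nat_lit 7, nat_lit 9], [nat_lit 5, nat_lit 8]],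
  [[nat_lit 1, nat_lit 2, nat_lit 3], [nat_lit 0, nat_lit 4, nat_lit 5], [nat_lit 0, nat_lit 6, nat_lit 7], [nat_lit 0, nat_lit 8, nat_lit 9], [nat_lit 1, nat_lit 5, nat_lit 8], [nat_lit 1, nat_lit 4, nat_lit 9], [nat_lit 2, nat_lit 8], [nat_lit 2], [nat_lit 3, nat_lit 4, nat_lit 6], [nat_lit 3, nat_lit 5]],
  [[nat_lit 1, nat_lit 2, nat_lit 3], [nat_lit 0, nat_lit 2, nat_lit 4], [nat_lit 0, nat_lit 1, nat_lit 5], [nat_lit 0, nat_lit 6, nat_lit 7], [nat_lit 1, nat_lit 8, nat_lit 9], [nat_lit 2, nat_lit 8], [nat_lit 3, nat_lit 9], [nat_lit 3], [nat_lit 4, nat_lit 5, nat_lit 9], [nat_lit 4, nat_lit 6, nat_lit 8]],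
  [[nat_lit 1, nat_lit 2, nat_lit 3], [nat_lit 0, nat_lit 4, nat_lit 5], [nat_lit 0, nat_lit 6, nat_lit 7], [nat_lit 0, nat_lit 6, nat_lit 7], [nat_lit 1, nat_lit 6, nat_lit 8], [nat_lit 1, nat_lit 8, nat_lit 9], [nat_lit 2, nat_lit 3, nat_lit 4], [nat_lit 2, nat_lit 3], [nat_lit 4, nat_lit 5], [nat_lit 5]],
  [[nat_lit 1, nat_lit 2, nat_lit 3], [nat_lit 0, nat_lit 4, nat_lit 5], [nat_lit 0, nat_lit 4, nat_lit 6], [nat_lit 0, nat_lit 7, nat_lit 8], [nat_lit 1, nat_lit 2, nat_lit 7], [nat_lit 1, nat_lit 6, nat_lit 9], [nat_lit 2, nat_lit 5], [nat_lit 3, nat_lit 4, nat_lit 8], [nat_lit 3, nat_lit 7], [nat_lit 5]],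
  [[nat_lit 1, nat_lit 2, nat_lit 3], [nat_lit 0, nat_lit 4], [nat_lit 0, nat_lit 4, nat_lit 5], [nat_lit 0, nat_lit 6], [nat_lit 1, nat_lit 2, nat_lit 7], [nat_lit 2, nat_lit 6, nat_lit 9], [nat_lit 3, nat_lit 5, nat_lit 9], [nat_lit 4, nat_lit 8, nat_lit 9], [nat_lit 7], [nat_lit 5, nat_lit 6, nat_lit 7]],
  [[nat_lit 1, nat_lit 2, nat_lit 3], [nat_lit 0, nat_lit 4, nat_lit 5], [nat_lit 0, nat_lit 4, nat_lit 6], [nat_lit 0, nat_lit 5, nat_lit 7], [nat_lit 1, nat_lit 2, nat_lit 8], [nat_lit 1, nat_lit 3, nat_lit 9], [nat_lit 2, nat_lit 8], [nat_lit 3, nat_lit 8], [nat_lit 4, nat_lit 6, nat_lit 7], [nat_lit 5]],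
  [[nat_lit 1, nat_lit 2, nat_lit 3], [nat_lit 0, nat_lit 2, nat_lit 4], [nat_lit 0, nat_lit 1, nat_lit 5], [nat_lit 0, nat_lit 6, nat_lit 7], [nat_lit 1, nat_lit 6, nat_lit 8], [nat_lit 2], [nat_lit 3, nat_lit 4, nat_lit 9], [nat_lit 3, nat_lit 9], [nat_lit 4, nat_lit 9], [nat_lit 6, nat_lit 7, nat_lit 8]],
  [[nat_lit 1, nat_lit 2], [nat_lit 0, nat_lit 3, nat_lit 4], [nat_lit 0, nat_lit 5, nat_lit 6], [nat_lit 1, nat_lit 5, nat_lit 6], [nat_lit 1, nat_lit 7, nat_lit 9], [nat_lit 2, nat_lit 3, nat_lit 8], [nat_lit 2, nat_lit 3, nat_lit 9], [nat_lit 4], [nat_lit 5, nat_lit 9], [nat_lit 4, nat_lit 6, nat_lit 8]],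
  [[nat_lit 1, nat_lit 2], [nat_lit 0, nat_lit 3, nat_lit 4], [nat_lit 0, nat_lit 5, nat_lit 6], [nat_lit 1, nat_lit 4, nat_lit 5], [nat_lit 1, nat_lit 3, nat_lit 9], [nat_lit 2, nat_lit 3, nat_lit 7], [nat_lit 2, nat_lit 8, nat_lit 9], [nat_lit 5, nat_lit 9], [nat_lit 6], [nat_lit 4, nat_lit 6, nat_lit 7]],
  [[nat_lit 1, nat_lit 2, nat_lit 3], [nat_lit 0, nat_lit 4, nat_lit 5], [nat_lit 0, nat_lit 4, nat_lit 6], [nat_lit 0, nat_lit 7, nat_lit 8], [nat_lit 1, nat_lit 2, nat_lit 9], [nat_lit 1, nat_lit 6, nat_lit 7], [nat_lit 2, nat_lit 5], [nat_lit 3, nat_lit 5, nat_lit 8], [nat_lit 3, nat_lit 7], [nat_lit 4]],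
  [[nat_lit 1, nat_lit 2], [nat_lit 0, nat_lit 3, nat_lit 4], [nat_lit 0, nat_lit 3, nat_lit 5], [nat_lit 1, nat_lit 2, nat_lit 8], [nat_lit 1, nat_lit 6, nat_lit 9], [nat_lit 2, nat_lit 7, nat_lit 9], [nat_lit 4, nat_lit 8], [nat_lit 5], [nat_lit 3, nat_lit 6, nat_lit 9], [nat_lit 4, nat_lit 5, nat_lit 8]],
  [[nat_lit 1, nat_lit 2, nat_lit 3], [nat_lit 0, nat_lit 2, nat_lit 4], [nat_lit 0, nat_lit 1, nat_lit 5], [nat_lit 0, nat_lit 4, nat_lit 6], [nat_lit 1, nat_lit 3, nat_lit 7], [nat_lit 2, nat_lit 8, nat_lit 9], [nat_lit 3, nat_lit 7], [nat_lit 4, nat_lit 6], [nat_lit 5], [nat_lit 5]],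
  [[nat_lit 1, nat_lit 2, nat_lit 3], [nat_lit 0, nat_lit 4, nat_lit 5], [nat_lit 0, nat_lit 4, nat_lit 6], [nat_lit 0, nat_lit 5, nat_lit 7], [nat_lit 1, nat_lit 2, nat_lit 8], [nat_lit 1, nat_lit 3, nat_lit 9], [nat_lit 2, nat_lit 8], [nat_lit 3], [nat_lit 4, nat_lit 6], [nat_lit 5]],
  [[nat_lit 1, nat_lit 2, nat_lit 3], [nat_lit 0, nat_lit 4, nat_lit 5], [nat_lit 0, nat_lit 4, nat_lit 6], [nat_lit 0, nat_lit 5, nat_lit 7], [nat_lit 1, nat_lit 2, nat_lit 8], [nat_lit 1, nat_lit 3, nat_lit 9], [nat_lit 2], [nat_lit 3, nat_lit 8], [nat_lit 4, nat_lit 7], [nat_lit 5]],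
  [[nat_lit 1, nat_lit 2, nat_lit 3], [nat_lit 0, nat_lit 2, nat_lit 4], [nat_lit 0, nat_lit 1, nat_lit 5], [nat_lit 0, nat_lit 6, nat_lit 7], [nat_lit 1, nat_lit 8, nat_lit 9], [nat_lit 2, nat_lit 8], [nat_lit 3], [nat_lit 3], [nat_lit 4, nat_lit 5, nat_lit 9], [nat_lit 4, nat_lit 8]],
  [[nat_lit 1, nat_lit 2, nat_lit 3], [nat_lit 0, nat_lit 4, nat_lit 5], [nat_lit 0, nat_lit 4, nat_lit 6], [nat_lit 0, nat_lit 7, nat_lit 8], [nat_lit 1, nat_lit 2, nat_lit 9], [nat_lit 1, nat_lit 6, nat_lit 9], [nat_lit 2, nat_lit 5], [nat_lit 3], [nat_lit 3], [nat_lit 4, nat_lit 5]],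
  [[nat_lit 1, nat_lit 2, nat_lit 3], [nat_lit 0, nat_lit 4, nat_lit 5], [nat_lit 0, nat_lit 4, nat_lit 6], [nat_lit 0, nat_lit 7, nat_lit 8], [nat_lit 1, nat_lit 2, nat_lit 9], [nat_lit 1, nat_lit 9], [nat_lit 2, nat_lit 9], [nat_lit 3], [nat_lit 3], [nat_lit 4, nat_lit 5, nat_lit 6]],
  [[nat_lit 1, nat_lit 2, nat_lit 3], [nat_lit 0, nat_lit 2, nat_lit 4], [nat_lit 0, nat_lit 1, nat_lit 5], [nat_lit 0, nat_lit 6, nat_lit 7], [nat_lit 1, nat_lit 6, nat_lit 8], [nat_lit 2, nat_lit 7, nat_lit 9], [nat_lit 3, nat_lit 4], [nat_lit 3, nat_lit 5], [nat_lit 4], [nat_lit 5]],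
  [[nat_lit 1, nat_lit 2], [nat_lit 0, nat_lit 3, nat_lit 4], [nat_lit 0, nat_lit 6, nat_lit 7], [nat_lit 1, nat_lit 6], [nat_lit 1, nat_lit 8, nat_lit 9], [nat_lit 8], [nat_lit 2, nat_lit 3, nat_lit 9], [nat_lit 2], [nat_lit 4, nat_lit 5, nat_lit 9], [nat_lit 4, nat_lit 6, nat_lit 8]],
  [[nat_lit 1, nat_lit 2], [nat_lit 0, nat_lit 3, nat_lit 4], [nat_lit 0, nat_lit 5, nat_lit 6], [nat_lit 1, nat_lit 4, nat_lit 5], [nat_lit 1, nat_lit 3, nat_lit 7], [nat_lit 2, nat_lit 3, nat_lit 9], [nat_lit 2, nat_lit 9], [nat_lit 4], [nat_lit 9], [nat_lit 5, nat_lit 6, nat_lit 8]],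
  [[nat_lit 1, nat_lit 2, nat_lit 3], [nat_lit 0, nat_lit 4, nat_lit 5], [nat_lit 0, nat_lit 4], [nat_lit 0, nat_lit 6, nat_lit 7], [nat_lit 1, nat_lit 2, nat_lit 8], [nat_lit 1, nat_lit 6, nat_lit 9], [nat_lit 3, nat_lit 5, nat_lit 9], [nat_lit 3], [nat_lit 4], [nat_lit 5, nat_lit 6]],
  [[nat_lit 1, nat_lit 2, nat_lit 3], [nat_lit 0, nat_lit 4, nat_lit 5], [nat_lit 0, nat_lit 4, nat_lit 6], [nat_lit 0, nat_lit 5, nat_lit 7], [nat_lit 1, nat_lit 2, nat_lit 8], [nat_lit 1, nat_lit 3, nat_lit 9], [nat_lit 2], [nat_lit 3], [nat_lit 4], [nat_lit 5]],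
  [[nat_lit 1, nat_lit 2, nat_lit 3], [nat_lit 0, nat_lit 4, nat_lit 5], [nat_lit 0, nat_lit 4, nat_lit 6], [nat_lit 0, nat_lit 7, nat_lit 8], [nat_lit 1, nat_lit 2, nat_lit 9], [nat_lit 1, nat_lit 7, nat_lit 10], [nat_lit 2, nat_lit 7, nat_lit 10], [nat_lit 3, nat_lit 5, nat_lit 6], [nat_lit 3, nat_lit 9], [nat_lit 4, nat_lit 8, nat_lit 10], [nat_lit 5, nat_lit 6, nat_lit 9]],
  [[nat_lit 1, nat_lit 2, nat_lit 3], [nat_lit 0, nat_lit 2, nat_lit 4], [nat_lit 0, nat_lit 1, nat_lit 5], [nat_lit 0, nat_lit 6, nat_lit 7], [nat_lit 1, nat_lit 6, nat_lit 8], [nat_lit 2, nat_lit 9, nat_lit 10], [nat_lit 3, nat_lit 4], [nat_lit 3, nat_lit 9, nat_lit 10], [nat_lit 4, nat_lit 9, nat_lit 10], [nat_lit 5, nat_lit 7, nat_lit 8], [nat_lit 5, nat_lit 7, nat_lit 8]],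
  [[nat_lit 1, nat_lit 2, nat_lit 3], [nat_lit 0, nat_lit 4, nat_lit 5], [nat_lit 0, nat_lit 6, nat_lit 7], [nat_lit 0, nat_lit 6, nat_lit 7], [nat_lit 1, nat_lit 5, nat_lit 8], [nat_lit 1, nat_lit 4, nat_lit 8], [nat_lit 2, nat_lit 3, nat_lit 9], [nat_lit 2, nat_lit 3, nat_lit 10], [nat_lit 4, nat_lit 5], [nat_lit 6, nat_lit 10], [nat_lit 7, nat_lit 9]],
  [[nat_lit 1, nat_lit 2, nat_lit 3], [nat_lit 0, nat_lit 4, nat_lit 5], [nat_lit 0, nat_lit 6, nat_lit 7], [nat_lit 0, nat_lit 6, nat_lit 7], [nat_lit 1, nat_lit 8, nat_lit 9], [nat_lit 1, nat_lit 8, nat_lit 10], [nat_lit 2, nat_lit 3, nat_lit 8], [nat_lit 2, nat_lit 3], [nat_lit 4, nat_lit 5, nat_lit 6], [nat_lit 4, nat_lit 10], [nat_lit 5, nat_lit 9]],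
  [[nat_lit 1, nat_lit 2, nat_lit 3], [nat_lit 0, nat_lit 4, nat_lit 5], [nat_lit 0, nat_lit 4, nat_lit 6], [nat_lit 0, nat_lit 7, nat_lit 8], [nat_lit 1, nat_lit 2, nat_lit 9], [nat_lit 1, nat_lit 6, nat_lit 10], [nat_lit 2, nat_lit 5], [nat_lit 3, nat_lit 9], [nat_lit 3, nat_lit 10], [nat_lit 4, nat_lit 7], [nat_lit 5, nat_lit 8]],
  [[nat_lit 1, nat_lit 2, nat_lit 3], [nat_lit 0, nat_lit 4, nat_lit 5], [nat_lit 0, nat_lit 4, nat_lit 6], [nat_lit 0, nat_lit 7, nat_lit 8], [nat_lit 1, nat_lit 2, nat_lit 9], [nat_lit 1, nat_lit 7, nat_lit 10], [nat_lit 2, nat_lit 9], [nat_lit 3, nat_lit 5], [nat_lit 3, nat_lit 10], [nat_lit 4, nat_lit 6], [nat_lit 5, nat_lit 8]]]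

noncomputable def lv14 : List (List (List Nat)) := [
  [[nat_lit 1, nat_lit 2, nat_lit 3], [nat_lit 0, nat_lit 4, nat_lit 5], [nat_lit 0, nat_lit 4, nat_lit 6], [nat_lit 0, nat_lit 7], [nat_lit 1, nat_lit 2, nat_lit 8], [nat_lit 1, nat_lit 9, nat_lit 10], [nat_lit 2, nat_lit 9], [nat_lit 3, nat_lit 10], [nat_lit 4, nat_lit 10], [nat_lit 5, nat_lit 6], [nat_lit 5, nat_lit 7, nat_lit 8]],
  [[nat_lit 3, nat_lit 4], [nat_lit 5, nat_lit 6], [nat_lit 7, nat_lit 8], [nat_lit 0, nat_lit 5, nat_lit 9], [nat_lit 0, nat_lit 7, nat_lit 9], [nat_lit 1, nat_lit 3, nat_lit 10], [nat_lit 1, nat_lit 8, nat_lit 10], [nat_lit 2, nat_lit 4, nat_lit 10], [nat_lit 2, nat_lit 6], [nat_lit 3, nat_lit 4], [nat_lit 5, nat_lit 6, nat_lit 7]],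
  [[nat_lit 1, nat_lit 2, nat_lit 3], [nat_lit 0, nat_lit 2, nat_lit 3], [nat_lit 0, nat_lit 1, nat_lit 4], [nat_lit 0, nat_lit 1, nat_lit 5], [nat_lit 2, nat_lit 6, nat_lit 7], [nat_lit 3, nat_lit 6, nat_lit 7], [nat_lit 4, nat_lit 5, nat_lit 8], [nat_lit 4, nat_lit 5, nat_lit 9], [nat_lit 6, nat_lit 9, nat_lit 10], [nat_lit 7, nat_lit 8], [nat_lit 8]],
  [[nat_lit 1, nat_lit 2, nat_lit 3], [nat_lit 0, nat_lit 4, nat_lit 5], [nat_lit 0, nat_lit 6, nat_lit 7], [nat_lit 0, nat_lit 8, nat_lit 9], [nat_lit 1, nat_lit 6, nat_lit 8], [nat_lit 1, nat_lit 7, nat_lit 9], [nat_lit 2, nat_lit 4, nat_lit 10], [nat_lit 2, nat_lit 5, nat_lit 8], [nat_lit 3, nat_lit 4, nat_lit 7], [nat_lit 3, nat_lit 5], [nat_lit 6]],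
  [[nat_lit 1, nat_lit 2, nat_lit 3], [nat_lit 0, nat_lit 2, nat_lit 4], [nat_lit 0, nat_lit 1, nat_lit 5], [nat_lit 0, nat_lit 6, nat_lit 7], [nat_lit 1, nat_lit 6, nat_lit 8], [nat_lit 2, nat_lit 9, nat_lit 10], [nat_lit 3, nat_lit 4], [nat_lit 3, nat_lit 9], [nat_lit 4, nat_lit 10], [nat_lit 5, nat_lit 7], [nat_lit 5, nat_lit 8]],
  [[nat_lit 1, nat_lit 2, nat_lit 3], [nat_lit 0, nat_lit 4], [nat_lit 0, nat_lit 5, nat_lit 6], [nat_lit 0, nat_lit 7, nat_lit 8], [nat_lit 1, nat_lit 5, nat_lit 6], [nat_lit 2, nat_lit 4, nat_lit 9], [nat_lit 2, nat_lit 4, nat_lit 10], [nat_lit 3, nat_lit 9], [nat_lit 3, nat_lit 10], [nat_lit 5, nat_lit 7], [nat_lit 6, nat_lit 8]],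
  [[nat_lit 1, nat_lit 2, nat_lit 3], [nat_lit 0, nat_lit 2, nat_lit 4], [nat_lit 0, nat_lit 1, nat_lit 5], [nat_lit 0, nat_lit 6, nat_lit 7], [nat_lit 1, nat_lit 8], [nat_lit 2, nat_lit 9], [nat_lit 3, nat_lit 8, nat_lit 10], [nat_lit 3, nat_lit 9, nat_lit 10], [nat_lit 4, nat_lit 6], [nat_lit 5, nat_lit 7], [nat_lit 6, nat_lit 7]],
  [[nat_lit 1, nat_lit 2, nat_lit 3], [nat_lit 0, nat_lit 4, nat_lit 5], [nat_lit 0, nat_lit 6, nat_lit 7], [nat_lit 0, nat_lit 8, nat_lit 9], [nat_lit 1, nat_lit 5, nat_lit 6], [nat_lit 1, nat_lit 4, nat_lit 8], [nat_lit 2, nat_lit 4, nat_lit 10], [nat_lit 2, nat_lit 10], [nat_lit 3, nat_lit 5], [nat_lit 3], [nat_lit 6, nat_lit 7]],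
  [[nat_lit 1, nat_lit 2, nat_lit 3], [nat_lit 0, nat_lit 4, nat_lit 5], [nat_lit 0, nat_lit 4, nat_lit 6], [nat_lit 0, nat_lit 5, nat_lit 7], [nat_lit 1, nat_lit 2, nat_lit 8], [nat_lit 1, nat_lit 3, nat_lit 9], [nat_lit 2, nat_lit 8, nat_lit 10], [nat_lit 3, nat_lit 9], [nat_lit 4, nat_lit 6], [nat_lit 5, nat_lit 7], [nat_lit 6]],
  [[nat_lit 1, nat_lit 2, nat_lit 3], [nat_lit 0, nat_lit 4, nat_lit 5], [nat_lit 0, nat_lit 6, nat_lit 7], [nat_lit 0, nat_lit 8, nat_lit 9], [nat_lit 1, nat_lit 6, nat_lit 10], [nat_lit 1, nat_lit 7], [nat_lit 2, nat_lit 4, nat_lit 10], [nat_lit 2, nat_lit 5], [nat_lit 3, nat_lit 10], [nat_lit 3], [nat_lit 4, nat_lit 6, nat_lit 8]],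
  [[nat_lit 1, nat_lit 2], [nat_lit 0, nat_lit 3], [nat_lit 0, nat_lit 5, nat_lit 6], [nat_lit 1, nat_lit 5, nat_lit 6], [nat_lit 7, nat_lit 8], [nat_lit 2, nat_lit 3, nat_lit 9], [nat_lit 2, nat_lit 3, nat_lit 10], [nat_lit 4, nat_lit 8, nat_lit 10], [nat_lit 4, nat_lit 7, nat_lit 10], [nat_lit 5], [nat_lit 6, nat_lit 7, nat_lit 8]],
  [[nat_lit 1, nat_lit 2, nat_lit 3], [nat_lit 0, nat_lit 4, nat_lit 5], [nat_lit 0, nat_lit 4, nat_lit 6], [nat_lit 0, nat_lit 7, nat_lit 8], [nat_lit 1, nat_lit 2, nat_lit 9], [nat_lit 1, nat_lit 9], [nat_lit 2], [nat_lit 3, nat_lit 8, nat_lit 10], [nat_lit 3, nat_lit 7, nat_lit 10], [nat_lit 4, nat_lit 5], [nat_lit 7, nat_lit 8]],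
  [[nat_lit 1, nat_lit 2, nat_lit 3], [nat_lit 0, nat_lit 4, nat_lit 5], [nat_lit 0, nat_lit 6, nat_lit 7], [nat_lit 0, nat_lit 6, nat_lit 7], [nat_lit 1, nat_lit 6, nat_lit 8], [nat_lit 1, nat_lit 9, nat_lit 10], [nat_lit 2, nat_lit 3, nat_lit 4], [nat_lit 2, nat_lit 3], [nat_lit 4, nat_lit 9, nat_lit 10], [nat_lit 5, nat_lit 8], [nat_lit 5, nat_lit 8]],
  [[nat_lit 1, nat_lit 2, nat_lit 3], [nat_lit 0, nat_lit 4, nat_lit 5], [nat_lit 0, nat_lit 4, nat_lit 6], [nat_lit 0, nat_lit 4, nat_lit 7], [nat_lit 1, nat_lit 2, nat_lit 3], [nat_lit 1, nat_lit 8, nat_lit 9], [nat_lit 2, nat_lit 8, nat_lit 10], [nat_lit 3, nat_lit 9, nat_lit 10], [nat_lit 5, nat_lit 6], [nat_lit 5, nat_lit 7], [nat_lit 6, nat_lit 7]],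
  [[nat_lit 1, nat_lit 2, nat_lit 3], [nat_lit 0, nat_lit 4, nat_lit 5], [nat_lit 0, nat_lit 4, nat_lit 6], [nat_lit 0, nat_lit 5, nat_lit 7], [nat_lit 1, nat_lit 2, nat_lit 8], [nat_lit 1, nat_lit 3, nat_lit 9], [nat_lit 2, nat_lit 9, nat_lit 10], [nat_lit 3, nat_lit 8], [nat_lit 4, nat_lit 7, nat_lit 10], [nat_lit 5, nat_lit 6], [nat_lit 6, nat_lit 8]],
  [[nat_lit 1, nat_lit 2, nat_lit 3], [nat_lit 0, nat_lit 4, nat_lit 5], [nat_lit 0, nat_lit 6, nat_lit 7], [nat_lit 0, nat_lit 6, nat_lit 7], [nat_lit 1, nat_lit 8, nat_lit 9], [nat_lit 1, nat_lit 8, nat_lit 10], [nat_lit 2, nat_lit 3, nat_lit 9], [nat_lit 2, nat_lit 3, nat_lit 10], [nat_lit 4, nat_lit 5], [nat_lit 4, nat_lit 6], [nat_lit 5, nat_lit 7]],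
  [[nat_lit 1, nat_lit 2, nat_lit 3], [nat_lit 0, nat_lit 4, nat_lit 5], [nat_lit 0, nat_lit 4, nat_lit 6], [nat_lit 0, nat_lit 5, nat_lit 7], [nat_lit 1, nat_lit 2, nat_lit 8], [nat_lit 1, nat_lit 3, nat_lit 9], [nat_lit 2, nat_lit 8, nat_lit 10], [nat_lit 3, nat_lit 9, nat_lit 10], [nat_lit 4, nat_lit 6], [nat_lit 5, nat_lit 7], [nat_lit 6, nat_lit 7]],
  [[nat_lit 1, nat_lit 2, nat_lit 3], [nat_lit 0, nat_lit 4, nat_lit 5], [nat_lit 0, nat_lit 4, nat_lit 6], [nat_lit 0, nat_lit 5, nat_lit 7], [nat_lit 1, nat_lit 2, nat_lit 8], [nat_lit 1, nat_lit 3, nat_lit 9], [nat_lit 2, nat_lit 8, nat_lit 10], [nat_lit 3, nat_lit 9], [nat_lit 4, nat_lit 6], [nat_lit 5, nat_lit 7, nat_lit 10], [nat_lit 6, nat_lit 9]],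
  [[nat_lit 1, nat_lit 2, nat_lit 3], [nat_lit 0, nat_lit 4, nat_lit 5], [nat_lit 0, nat_lit 6, nat_lit 7], [nat_lit 0, nat_lit 8, nat_lit 9], [nat_lit 1, nat_lit 5, nat_lit 6], [nat_lit 1, nat_lit 4, nat_lit 8], [nat_lit 2, nat_lit 4, nat_lit 10], [nat_lit 2, nat_lit 9, nat_lit 10], [nat_lit 3, nat_lit 5], [nat_lit 3, nat_lit 7], [nat_lit 6, nat_lit 7]],
  [[nat_lit 1, nat_lit 2, nat_lit 3], [nat_lit 0, nat_lit 4, nat_lit 5], [nat_lit 0, nat_lit 6, nat_lit 7], [nat_lit 0, nat_lit 8, nat_lit 9], [nat_lit 1, nat_lit 6, nat_lit 7], [nat_lit 1, nat_lit 8, nat_lit 10], [nat_lit 2, nat_lit 4, nat_lit 9], [nat_lit 2, nat_lit 4, nat_lit 10], [nat_lit 3, nat_lit 5], [nat_lit 3, nat_lit 6], [nat_lit 5, nat_lit 7]],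
  [[nat_lit 1, nat_lit 2, nat_lit 3], [nat_lit 0, nat_lit 2, nat_lit 4], [nat_lit 0, nat_lit 1, nat_lit 5], [nat_lit 0, nat_lit 6, nat_lit 7], [nat_lit 1, nat_lit 6, nat_lit 7], [nat_lit 2, nat_lit 8, nat_lit 9], [nat_lit 3, nat_lit 4, nat_lit 10], [nat_lit 3, nat_lit 4], [nat_lit 5, nat_lit 9, nat_lit 10], [nat_lit 5, nat_lit 8], [nat_lit 6, nat_lit 8]],
  [[nat_lit 1, nat_lit 2, nat_lit 3], [nat_lit 0, nat_lit 4, nat_lit 5], [nat_lit 0, nat_lit 6, nat_lit 7], [nat_lit 0, nat_lit 6, nat_lit 7], [nat_lit 1, nat_lit 6, nat_lit 8], [nat_lit 1, nat_lit 9, nat_lit 10], [nat_lit 2, nat_lit 3, nat_lit 4], [nat_lit 2, nat_lit 3], [nat_lit 4, nat_lit 9], [nat_lit 5, nat_lit 8, nat_lit 10], [nat_lit 5, nat_lit 9]],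
  [[nat_lit 1, nat_lit 2, nat_lit 3], [nat_lit 0, nat_lit 4, nat_lit 5], [nat_lit 0, nat_lit 4, nat_lit 6], [nat_lit 0, nat_lit 7, nat_lit 8], [nat_lit 1, nat_lit 2, nat_lit 9], [nat_lit 1, nat_lit 7, nat_lit 10], [nat_lit 2, nat_lit 9], [nat_lit 3, nat_lit 5], [nat_lit 3, nat_lit 9, nat_lit 10], [nat_lit 4, nat_lit 6, nat_lit 8], [nat_lit 5, nat_lit 8]],
  [[nat_lit 1, nat_lit 2, nat_lit 3], [nat_lit 0, nat_lit 4, nat_lit 5], [nat_lit 0, nat_lit 6, nat_lit 7], [nat_lit 0, nat_lit 8, nat_lit 9], [nat_lit 1, nat_lit 5, nat_lit 8], [nat_lit 1, nat_lit 4, nat_lit 9], [nat_lit 2, nat_lit 7, nat_lit 10], [nat_lit 2, nat_lit 6, nat_lit 10], [nat_lit 3, nat_lit 4], [nat_lit 3, nat_lit 5], [nat_lit 6, nat_lit 7]],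
  [[nat_lit 1, nat_lit 2, nat_lit 3], [nat_lit 0, nat_lit 4, nat_lit 5], [nat_lit 0, nat_lit 6, nat_lit 7], [nat_lit 0, nat_lit 8, nat_lit 9], [nat_lit 1, nat_lit 6, nat_lit 8], [nat_lit 1, nat_lit 7, nat_lit 10], [nat_lit 2, nat_lit 4, nat_lit 9], [nat_lit 2, nat_lit 5, nat_lit 10], [nat_lit 3, nat_lit 4], [nat_lit 3, nat_lit 6], [nat_lit 5, nat_lit 7]],
  [[nat_lit 1, nat_lit 2, nat_lit 3], [nat_lit 0, nat_lit 4, nat_lit 5], [nat_lit 0, nat_lit 6, nat_lit 7], [nat_lit 0, nat_lit 8, nat_lit 9], [nat_lit 1, nat_lit 6, nat_lit 7], [nat_lit 1, nat_lit 8, nat_lit 10], [nat_lit 2, nat_lit 4, nat_lit 9], [nat_lit 2, nat_lit 4], [nat_lit 3, nat_lit 5], [nat_lit 3, nat_lit 6, nat_lit 10], [nat_lit 5, nat_lit 9]],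
  [[nat_lit 1, nat_lit 2, nat_lit 3], [nat_lit 0, nat_lit 4, nat_lit 5], [nat_lit 0, nat_lit 6, nat_lit 7], [nat_lit 0, nat_lit 8, nat_lit 9], [nat_lit 1, nat_lit 5, nat_lit 6], [nat_lit 1, nat_lit 4, nat_lit 10], [nat_lit 2, nat_lit 4], [nat_lit 2, nat_lit 8], [nat_lit 3, nat_lit 7, nat_lit 9], [nat_lit 3, nat_lit 8, nat_lit 10], [nat_lit 5, nat_lit 9]],
  [[nat_lit 1, nat_lit 2, nat_lit 3], [nat_lit 0, nat_lit 4, nat_lit 5], [nat_lit 0, nat_lit 6, nat_lit 7], [nat_lit 0, nat_lit 8, nat_lit 9], [nat_lit 1, nat_lit 6, nat_lit 8], [nat_lit 1, nat_lit 7, nat_lit 10], [nat_lit 2, nat_lit 4, nat_lit 9], [nat_lit 2, nat_lit 5], [nat_lit 3, nat_lit 4, nat_lit 10], [nat_lit 3, nat_lit 6], [nat_lit 5, nat_lit 8]],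
  [[nat_lit 1, nat_lit 2, nat_lit 3], [nat_lit 0, nat_lit 4, nat_lit 5], [nat_lit 0, nat_lit 4, nat_lit 6], [nat_lit 0, nat_lit 7, nat_lit 8], [nat_lit 1, nat_lit 2, nat_lit 9], [nat_lit 1, nat_lit 6, nat_lit 10], [nat_lit 2, nat_lit 5], [nat_lit 3, nat_lit 8, nat_lit 9], [nat_lit 3, nat_lit 7, nat_lit 10], [nat_lit 4, nat_lit 7], [nat_lit 5, nat_lit 8]],
  [[nat_lit 1, nat_lit 2, nat_lit 3], [nat_lit 0, nat_lit 2, nat_lit 4], [nat_lit 0, nat_lit 1, nat_lit 5], [nat_lit 0, nat_lit 6, nat_lit 7], [nat_lit 1, nat_lit 6, nat_lit 8], [nat_lit 2, nat_lit 9, nat_lit 10], [nat_lit 3, nat_lit 4], [nat_lit 3, nat_lit 9, nat_lit 10], [nat_lit 4, nat_lit 9], [nat_lit 5, nat_lit 7, nat_lit 8], [nat_lit 5, nat_lit 7]],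
  [[nat_lit 1, nat_lit 2, nat_lit 3], [nat_lit 0, nat_lit 4, nat_lit 5], [nat_lit 0, nat_lit 6, nat_lit 7], [nat_lit 0, nat_lit 8, nat_lit 9], [nat_lit 1, nat_lit 5, nat_lit 6], [nat_lit 1, nat_lit 4, nat_lit 10], [nat_lit 2, nat_lit 4], [nat_lit 2, nat_lit 8], [nat_lit 3, nat_lit 7, nat_lit 10], [nat_lit 3, nat_lit 10], [nat_lit 5, nat_lit 8, nat_lit 9]],
  [[nat_lit 1, nat_lit 2, nat_lit 3], [nat_lit 0, nat_lit 4, nat_lit 5], [nat_lit 0, nat_lit 6, nat_lit 7], [nat_lit 0, nat_lit 6, nat_lit 7], [nat_lit 1, nat_lit 5, nat_lit 8], [nat_lit 1, nat_lit 4, nat_lit 9], [nat_lit 2, nat_lit 3, nat_lit 10], [nat_lit 2, nat_lit 3], [nat_lit 4, nat_lit 9, nat_lit 10], [nat_lit 5, nat_lit 8], [nat_lit 6, nat_lit 8]]]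

noncomputable def lv15 : List (List (List Nat)) := [
  [[nat_lit 1, nat_lit 2, nat_lit 3], [nat_lit 0, nat_lit 4, nat_lit 5], [nat_lit 0, nat_lit 4, nat_lit 6], [nat_lit 0, nat_lit 7, nat_lit 8], [nat_lit 1, nat_lit 2, nat_lit 9], [nat_lit 1, nat_lit 7, nat_lit 8], [nat_lit 2, nat_lit 9, nat_lit 10], [nat_lit 3, nat_lit 5, nat_lit 10], [nat_lit 3, nat_lit 5], [nat_lit 4, nat_lit 6], [nat_lit 6, nat_lit 7]],
  [[nat_lit 1, nat_lit 2, nat_lit 3], [nat_lit 0, nat_lit 4, nat_lit 5], [nat_lit 0, nat_lit 4, nat_lit 6], [nat_lit 0, nat_lit 7, nat_lit 8], [nat_lit 1, nat_lit 2, nat_lit 9], [nat_lit 1, nat_lit 6, nat_lit 10], [nat_lit 2, nat_lit 5], [nat_lit 3, nat_lit 9, nat_lit 10], [nat_lit 3, nat_lit 9], [nat_lit 4, nat_lit 7, nat_lit 8], [nat_lit 5, nat_lit 7]],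
  [[nat_lit 1, nat_lit 2, nat_lit 3], [nat_lit 0, nat_lit 4, nat_lit 5], [nat_lit 0, nat_lit 6, nat_lit 7], [nat_lit 0, nat_lit 8, nat_lit 9], [nat_lit 1, nat_lit 6, nat_lit 8], [nat_lit 1, nat_lit 10], [nat_lit 2, nat_lit 4], [nat_lit 2, nat_lit 9, nat_lit 10], [nat_lit 3, nat_lit 4], [nat_lit 3, nat_lit 7, nat_lit 10], [nat_lit 5, nat_lit 7, nat_lit 9]],
  [[nat_lit 1, nat_lit 2, nat_lit 3], [nat_lit 0, nat_lit 4, nat_lit 5], [nat_lit 0, nat_lit 4, nat_lit 6], [nat_lit 0, nat_lit 4, nat_lit 7], [nat_lit 1, nat_lit 2, nat_lit 3], [nat_lit 1, nat_lit 8, nat_lit 9], [nat_lit 2, nat_lit 10], [nat_lit 3, nat_lit 10], [nat_lit 5, nat_lit 9, nat_lit 10], [nat_lit 5, nat_lit 8], [nat_lit 6, nat_lit 7, nat_lit 8]],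
  [[nat_lit 1, nat_lit 2, nat_lit 3], [nat_lit 0, nat_lit 4, nat_lit 5], [nat_lit 0, nat_lit 4, nat_lit 6], [nat_lit 0, nat_lit 7, nat_lit 8], [nat_lit 1, nat_lit 2, nat_lit 9], [nat_lit 1, nat_lit 7, nat_lit 10], [nat_lit 2, nat_lit 7], [nat_lit 3, nat_lit 5, nat_lit 6], [nat_lit 3, nat_lit 9], [nat_lit 4, nat_lit 8, nat_lit 10], [nat_lit 5, nat_lit 9]],
  [[nat_lit 1, nat_lit 2, nat_lit 3], [nat_lit 0, nat_lit 4, nat_lit 5], [nat_lit 0, nat_lit 4, nat_lit 6], [nat_lit 0, nat_lit 7, nat_lit 8], [nat_lit 1, nat_lit 2, nat_lit 9], [nat_lit 1, nat_lit 7, nat_lit 10], [nat_lit 2, nat_lit 8, nat_lit 10], [nat_lit 3, nat_lit 5], [nat_lit 3, nat_lit 6], [nat_lit 4, nat_lit 10], [nat_lit 5, nat_lit 6, nat_lit 9]],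
  [[nat_lit 1, nat_lit 2, nat_lit 3], [nat_lit 0, nat_lit 4, nat_lit 5], [nat_lit 0, nat_lit 4, nat_lit 6], [nat_lit 0, nat_lit 7, nat_lit 8], [nat_lit 1, nat_lit 2, nat_lit 9], [nat_lit 1, nat_lit 7, nat_lit 10], [nat_lit 2, nat_lit 9, nat_lit 10], [nat_lit 3, nat_lit 5, nat_lit 8], [nat_lit 3, nat_lit 7], [nat_lit 4, nat_lit 6], [nat_lit 5, nat_lit 6]],
  [[nat_lit 1, nat_lit 2, nat_lit 3], [nat_lit 0, nat_lit 4, nat_lit 5], [nat_lit 0, nat_lit 4, nat_lit 6], [nat_lit 0, nat_lit 7, nat_lit 8], [nat_lit 1, nat_lit 2, nat_lit 9], [nat_lit 1, nat_lit 10], [nat_lit 2, nat_lit 10], [nat_lit 3, nat_lit 8, nat_lit 9], [nat_lit 3, nat_lit 7], [nat_lit 4, nat_lit 7, nat_lit 10], [nat_lit 5, nat_lit 6, nat_lit 9]],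
  [[nat_lit 1, nat_lit 2, nat_lit 3], [nat_lit 0, nat_lit 4, nat_lit 5], [nat_lit 0, nat_lit 6, nat_lit 7], [nat_lit 0, nat_lit 6, nat_lit 7], [nat_lit 1, nat_lit 8, nat_lit 9], [nat_lit 1, nat_lit 10], [nat_lit 2, nat_lit 3, nat_lit 10], [nat_lit 2, nat_lit 3], [nat_lit 4, nat_lit 9, nat_lit 10], [nat_lit 4, nat_lit 8], [nat_lit 5, nat_lit 6, nat_lit 8]],
  [[nat_lit 1, nat_lit 2, nat_lit 3], [nat_lit 0, nat_lit 4, nat_lit 5], [nat_lit 0, nat_lit 6, nat_lit 7], [nat_lit 0, nat_lit 8, nat_lit 9], [nat_lit 1, nat_lit 5, nat_lit 10], [nat_lit 1, nat_lit 4], [nat_lit 2, nat_lit 8, nat_lit 10], [nat_lit 2, nat_lit 8], [nat_lit 3, nat_lit 6, nat_lit 7], [nat_lit 3, nat_lit 10], [nat_lit 4, nat_lit 6, nat_lit 9]],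
  [[nat_lit 1, nat_lit 2, nat_lit 3], [nat_lit 0, nat_lit 4, nat_lit 5], [nat_lit 0, nat_lit 6, nat_lit 7], [nat_lit 0, nat_lit 8, nat_lit 9], [nat_lit 1, nat_lit 5, nat_lit 6], [nat_lit 1, nat_lit 4, nat_lit 10], [nat_lit 2, nat_lit 4], [nat_lit 2, nat_lit 8, nat_lit 10], [nat_lit 3, nat_lit 7, nat_lit 9], [nat_lit 3, nat_lit 8], [nat_lit 5, nat_lit 7]],
  [[nat_lit 1, nat_lit 2, nat_lit 3], [nat_lit 0, nat_lit 4, nat_lit 5], [nat_lit 0, nat_lit 4, nat_lit 6], [nat_lit 0, nat_lit 7, nat_lit 8], [nat_lit 1, nat_lit 2, nat_lit 9], [nat_lit 1, nat_lit 9, nat_lit 10], [nat_lit 2, nat_lit 10], [nat_lit 3, nat_lit 8, nat_lit 10], [nat_lit 3, nat_lit 7], [nat_lit 4, nat_lit 5], [nat_lit 5, nat_lit 6, nat_lit 7]],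
  [[nat_lit 1, nat_lit 2, nat_lit 3], [nat_lit 0, nat_lit 4, nat_lit 5], [nat_lit 0, nat_lit 4, nat_lit 6], [nat_lit 0, nat_lit 7, nat_lit 8], [nat_lit 1, nat_lit 2, nat_lit 9], [nat_lit 1, nat_lit 6, nat_lit 10], [nat_lit 2, nat_lit 5], [nat_lit 3, nat_lit 8, nat_lit 10], [nat_lit 3, nat_lit 7], [nat_lit 4, nat_lit 10], [nat_lit 5, nat_lit 7, nat_lit 9]],
  [[nat_lit 1, nat_lit 2, nat_lit 3], [nat_lit 0, nat_lit 4, nat_lit 5], [nat_lit 0, nat_lit 6, nat_lit 7], [nat_lit 0, nat_lit 8, nat_lit 9], [nat_lit 1, nat_lit 5, nat_lit 10], [nat_lit 1, nat_lit 4, nat_lit 10], [nat_lit 2, nat_lit 8, nat_lit 9], [nat_lit 2, nat_lit 8], [nat_lit 3, nat_lit 6, nat_lit 7], [nat_lit 3, nat_lit 6], [nat_lit 4, nat_lit 5]],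
  [[nat_lit 1, nat_lit 2, nat_lit 3], [nat_lit 0, nat_lit 4, nat_lit 5], [nat_lit 0, nat_lit 6, nat_lit 7], [nat_lit 0, nat_lit 8, nat_lit 9], [nat_lit 1, nat_lit 5, nat_lit 6], [nat_lit 1, nat_lit 4, nat_lit 10], [nat_lit 2, nat_lit 4], [nat_lit 2, nat_lit 8, nat_lit 9], [nat_lit 3, nat_lit 7, nat_lit 10], [nat_lit 3, nat_lit 7], [nat_lit 5, nat_lit 8]],
  [[nat_lit 1, nat_lit 2, nat_lit 3], [nat_lit 0, nat_lit 4, nat_lit 5], [nat_lit 0, nat_lit 4, nat_lit 6], [nat_lit 0, nat_lit 7, nat_lit 8], [nat_lit 1, nat_lit 2, nat_lit 9], [nat_lit 1, nat_lit 6, nat_lit 10], [nat_lit 2, nat_lit 5], [nat_lit 3, nat_lit 9, nat_lit 10], [nat_lit 3, nat_lit 10], [nat_lit 4, nat_lit 7], [nat_lit 5, nat_lit 7, nat_lit 8]],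
  [[nat_lit 1, nat_lit 2, nat_lit 3], [nat_lit 0, nat_lit 4, nat_lit 5], [nat_lit 0, nat_lit 6, nat_lit 7], [nat_lit 0, nat_lit 8, nat_lit 9], [nat_lit 1, nat_lit 6, nat_lit 8], [nat_lit 1, nat_lit 10], [nat_lit 2, nat_lit 4, nat_lit 10], [nat_lit 2, nat_lit 9], [nat_lit 3, nat_lit 4], [nat_lit 3, nat_lit 7, nat_lit 10], [nat_lit 5, nat_lit 6, nat_lit 9]],
  [[nat_lit 1, nat_lit 2, nat_lit 3], [nat_lit 0, nat_lit 4, nat_lit 5], [nat_lit 0, nat_lit 4, nat_lit 6], [nat_lit 0, nat_lit 7, nat_lit 8], [nat_lit 1, nat_lit 2, nat_lit 9], [nat_lit 1, nat_lit 7, nat_lit 10], [nat_lit 2, nat_lit 8], [nat_lit 3, nat_lit 5], [nat_lit 3, nat_lit 6, nat_lit 10], [nat_lit 4, nat_lit 10], [nat_lit 5, nat_lit 8, nat_lit 9]],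
  [[nat_lit 1, nat_lit 2, nat_lit 3], [nat_lit 0, nat_lit 4, nat_lit 5], [nat_lit 0, nat_lit 6, nat_lit 7], [nat_lit 0, nat_lit 8, nat_lit 9], [nat_lit 1, nat_lit 6, nat_lit 7], [nat_lit 1, nat_lit 8, nat_lit 10], [nat_lit 2, nat_lit 4, nat_lit 9], [nat_lit 2, nat_lit 4], [nat_lit 3, nat_lit 5, nat_lit 10], [nat_lit 3, nat_lit 6], [nat_lit 5, nat_lit 8]],
  [[nat_lit 1, nat_lit 2, nat_lit 3], [nat_lit 0, nat_lit 4, nat_lit 5], [nat_lit 0, nat_lit 6, nat_lit 7], [nat_lit 0, nat_lit 8, nat_lit 9], [nat_lit 1, nat_lit 6, nat_lit 8], [nat_lit 1, nat_lit 7, nat_lit 10], [nat_lit 2, nat_lit 4], [nat_lit 2, nat_lit 5, nat_lit 9], [nat_lit 3, nat_lit 4, nat_lit 10], [nat_lit 3, nat_lit 7], [nat_lit 5, nat_lit 8]],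
  [[nat_lit 1, nat_lit 2, nat_lit 3], [nat_lit 0, nat_lit 4, nat_lit 5], [nat_lit 0, nat_lit 6, nat_lit 7], [nat_lit 0, nat_lit 6, nat_lit 7], [nat_lit 1, nat_lit 8, nat_lit 9], [nat_lit 1, nat_lit 8, nat_lit 10], [nat_lit 2, nat_lit 3, nat_lit 8], [nat_lit 2, nat_lit 3], [nat_lit 4, nat_lit 5, nat_lit 6], [nat_lit 4], [nat_lit 5]],
  [[nat_lit 1, nat_lit 2, nat_lit 3], [nat_lit 0, nat_lit 4, nat_lit 5], [nat_lit 0, nat_lit 6, nat_lit 7], [nat_lit 0, nat_lit 8, nat_lit 9], [nat_lit 1, nat_lit 6, nat_lit 8], [nat_lit 1, nat_lit 7, nat_lit 10], [nat_lit 2, nat_lit 4], [nat_lit 2, nat_lit 5, nat_lit 8], [nat_lit 3, nat_lit 4, nat_lit 7], [nat_lit 3], [nat_lit 5]],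
  [[nat_lit 1, nat_lit 2, nat_lit 3], [nat_lit 0, nat_lit 2, nat_lit 4], [nat_lit 0, nat_lit 1, nat_lit 5], [nat_lit 0, nat_lit 6, nat_lit 7], [nat_lit 1, nat_lit 8, nat_lit 9], [nat_lit 2, nat_lit 10], [nat_lit 3, nat_lit 7, nat_lit 10], [nat_lit 3, nat_lit 6], [nat_lit 4, nat_lit 9, nat_lit 10], [nat_lit 4, nat_lit 8], [nat_lit 5, nat_lit 6, nat_lit 8]],
  [[nat_lit 1, nat_lit 2, nat_lit 3], [nat_lit 0, nat_lit 2, nat_lit 4], [nat_lit 0, nat_lit 1, nat_lit 5], [nat_lit 0, nat_lit 6, nat_lit 7], [nat_lit 1, nat_lit 8, nat_lit 9], [nat_lit 2, nat_lit 10], [nat_lit 3, nat_lit 8, nat_lit 10], [nat_lit 3, nat_lit 9], [nat_lit 4, nat_lit 6], [nat_lit 4, nat_lit 7, nat_lit 10], [nat_lit 5, nat_lit 6, nat_lit 9]],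
  [[nat_lit 1, nat_lit 2, nat_lit 3], [nat_lit 0, nat_lit 2, nat_lit 4], [nat_lit 0, nat_lit 1, nat_lit 5], [nat_lit 0, nat_lit 6, nat_lit 7], [nat_lit 1, nat_lit 8, nat_lit 9], [nat_lit 2, nat_lit 10], [nat_lit 3, nat_lit 7, nat_lit 10], [nat_lit 3, nat_lit 6], [nat_lit 4], [nat_lit 4], [nat_lit 5, nat_lit 6]],
  [[nat_lit 1, nat_lit 2, nat_lit 3], [nat_lit 0, nat_lit 4, nat_lit 5], [nat_lit 0, nat_lit 6, nat_lit 7], [nat_lit 0, nat_lit 8, nat_lit 9], [nat_lit 1, nat_lit 5, nat_lit 6], [nat_lit 1, nat_lit 4, nat_lit 10], [nat_lit 2, nat_lit 4], [nat_lit 2, nat_lit 10], [nat_lit 3], [nat_lit 3], [nat_lit 5, nat_lit 7]],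
  [[nat_lit 1, nat_lit 2, nat_lit 3], [nat_lit 0, nat_lit 4, nat_lit 5], [nat_lit 0, nat_lit 4, nat_lit 6], [nat_lit 0, nat_lit 7, nat_lit 8], [nat_lit 1, nat_lit 2, nat_lit 9], [nat_lit 1, nat_lit 6, nat_lit 10], [nat_lit 2, nat_lit 5], [nat_lit 3], [nat_lit 3], [nat_lit 4, nat_lit 10], [nat_lit 5, nat_lit 9]],
  [[nat_lit 1, nat_lit 2, nat_lit 3], [nat_lit 0, nat_lit 4, nat_lit 5], [nat_lit 0, nat_lit 6, nat_lit 7], [nat_lit 0, nat_lit 8, nat_lit 9], [nat_lit 1, nat_lit 5, nat_lit 6], [nat_lit 1, nat_lit 4, nat_lit 10], [nat_lit 2, nat_lit 4], [nat_lit 2], [nat_lit 3, nat_lit 10], [nat_lit 3], [nat_lit 5, nat_lit 8]],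
  [[nat_lit 1, nat_lit 2, nat_lit 3], [nat_lit 0, nat_lit 4, nat_lit 5], [nat_lit 0, nat_lit 4, nat_lit 6], [nat_lit 0, nat_lit 7, nat_lit 8], [nat_lit 1, nat_lit 2, nat_lit 9], [nat_lit 1, nat_lit 6, nat_lit 10], [nat_lit 2, nat_lit 5], [nat_lit 3, nat_lit 9], [nat_lit 3], [nat_lit 4, nat_lit 7], [nat_lit 5]],
  [[nat_lit 1, nat_lit 2, nat_lit 3], [nat_lit 0, nat_lit 4, nat_lit 5], [nat_lit 0, nat_lit 4, nat_lit 6], [nat_lit 0, nat_lit 7, nat_lit 8], [nat_lit 1, nat_lit 2, nat_lit 9], [nat_lit 1, nat_lit 6, nat_lit 10], [nat_lit 2, nat_lit 5], [nat_lit 3, nat_lit 10], [nat_lit 3], [nat_lit 4], [nat_lit 5, nat_lit 7]],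
  [[nat_lit 1, nat_lit 2, nat_lit 3], [nat_lit 0, nat_lit 4, nat_lit 5], [nat_lit 0, nat_lit 4, nat_lit 6], [nat_lit 0, nat_lit 7, nat_lit 8], [nat_lit 1, nat_lit 2, nat_lit 9], [nat_lit 1, nat_lit 7, nat_lit 10], [nat_lit 2, nat_lit 9], [nat_lit 3, nat_lit 5], [nat_lit 3], [nat_lit 4, nat_lit 6], [nat_lit 5]],
  [[nat_lit 1, nat_lit 2, nat_lit 3], [nat_lit 0, nat_lit 4, nat_lit 5], [nat_lit 0, nat_lit 6], [nat_lit 0, nat_lit 7, nat_lit 8], [nat_lit 1, nat_lit 5, nat_lit 9], [nat_lit 1, nat_lit 4, nat_lit 10], [nat_lit 2, nat_lit 9], [nat_lit 3], [nat_lit 3, nat_lit 9], [nat_lit 4, nat_lit 6, nat_lit 8], [nat_lit 5]]]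

noncomputable def lv16 : List (List (List Nat)) := [
  [[nat_lit 1, nat_lit 2, nat_lit 3], [nat_lit 0, nat_lit 4, nat_lit 5], [nat_lit 0, nat_lit 4, nat_lit 6], [nat_lit 0, nat_lit 7, nat_lit 8], [nat_lit 1, nat_lit 2, nat_lit 9], [nat_lit 1, nat_lit 7, nat_lit 10], [nat_lit 2, nat_lit 9], [nat_lit 3, nat_lit 5], [nat_lit 3, nat_lit 9], [nat_lit 4, nat_lit 6, nat_lit 8], [nat_lit 5]],
  [[nat_lit 1, nat_lit 2, nat_lit 3], [nat_lit 0, nat_lit 4, nat_lit 5], [nat_lit 0, nat_lit 6, nat_lit 7], [nat_lit 0, nat_lit 8, nat_lit 9], [nat_lit 1, nat_lit 5, nat_lit 6], [nat_lit 1, nat_lit 4, nat_lit 10], [nat_lit 2, nat_lit 4], [nat_lit 2, nat_lit 8, nat_lit 10], [nat_lit 3, nat_lit 7], [nat_lit 3], [nat_lit 5, nat_lit 7]],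
  [[nat_lit 1, nat_lit 2, nat_lit 3], [nat_lit 0, nat_lit 4, nat_lit 5], [nat_lit 0, nat_lit 4, nat_lit 6], [nat_lit 0, nat_lit 7, nat_lit 8], [nat_lit 1, nat_lit 2, nat_lit 9], [nat_lit 1, nat_lit 6, nat_lit 10], [nat_lit 2, nat_lit 5], [nat_lit 3, nat_lit 10], [nat_lit 3], [nat_lit 4, nat_lit 10], [nat_lit 5, nat_lit 7, nat_lit 9]],
  [[nat_lit 1, nat_lit 2, nat_lit 3], [nat_lit 0, nat_lit 2, nat_lit 4], [nat_lit 0, nat_lit 1, nat_lit 5], [nat_lit 0, nat_lit 6, nat_lit 7], [nat_lit 1, nat_lit 8, nat_lit 9], [nat_lit 2, nat_lit 10], [nat_lit 3, nat_lit 7, nat_lit 10], [nat_lit 3, nat_lit 6], [nat_lit 4, nat_lit 10], [nat_lit 4], [nat_lit 5, nat_lit 6, nat_lit 8]],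
  [[nat_lit 1, nat_lit 2, nat_lit 3], [nat_lit 0, nat_lit 4, nat_lit 5], [nat_lit 0, nat_lit 6, nat_lit 7], [nat_lit 0, nat_lit 8, nat_lit 9], [nat_lit 1, nat_lit 6, nat_lit 8], [nat_lit 1, nat_lit 7, nat_lit 10], [nat_lit 2, nat_lit 4], [nat_lit 2, nat_lit 5, nat_lit 10], [nat_lit 3, nat_lit 4], [nat_lit 3], [nat_lit 5, nat_lit 7]],
  [[nat_lit 1, nat_lit 2, nat_lit 3], [nat_lit 0, nat_lit 4, nat_lit 5], [nat_lit 0, nat_lit 6, nat_lit 7], [nat_lit 0, nat_lit 8, nat_lit 9], [nat_lit 1, nat_lit 5, nat_lit 10], [nat_lit 1, nat_lit 4], [nat_lit 2, nat_lit 8, nat_lit 9], [nat_lit 2, nat_lit 8], [nat_lit 3, nat_lit 6, nat_lit 7], [nat_lit 3, nat_lit 6], [nat_lit 4]],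
  [[nat_lit 1, nat_lit 2, nat_lit 3], [nat_lit 0, nat_lit 4, nat_lit 5], [nat_lit 0, nat_lit 6, nat_lit 7], [nat_lit 0, nat_lit 8, nat_lit 9], [nat_lit 1, nat_lit 5, nat_lit 10], [nat_lit 1, nat_lit 4], [nat_lit 2, nat_lit 7, nat_lit 10], [nat_lit 2, nat_lit 6], [nat_lit 3, nat_lit 10], [nat_lit 3], [nat_lit 4, nat_lit 6, nat_lit 8]],
  [[nat_lit 1, nat_lit 2, nat_lit 3], [nat_lit 0, nat_lit 4, nat_lit 5], [nat_lit 0, nat_lit 6, nat_lit 7], [nat_lit 0, nat_lit 8, nat_lit 9], [nat_lit 1, nat_lit 5, nat_lit 8], [nat_lit 1, nat_lit 4, nat_lit 9], [nat_lit 2, nat_lit 7, nat_lit 10], [nat_lit 2, nat_lit 6], [nat_lit 3, nat_lit 4], [nat_lit 3, nat_lit 5], [nat_lit 6]],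
  [[nat_lit 1, nat_lit 2, nat_lit 3], [nat_lit 0, nat_lit 2, nat_lit 4], [nat_lit 0, nat_lit 1, nat_lit 5], [nat_lit 0, nat_lit 6, nat_lit 7], [nat_lit 1, nat_lit 8, nat_lit 9], [nat_lit 2, nat_lit 10], [nat_lit 3, nat_lit 8, nat_lit 10], [nat_lit 3, nat_lit 10], [nat_lit 4, nat_lit 6], [nat_lit 4], [nat_lit 5, nat_lit 6, nat_lit 7]],
  [[nat_lit 1, nat_lit 2, nat_lit 3], [nat_lit 0, nat_lit 4, nat_lit 5], [nat_lit 0, nat_lit 4, nat_lit 6], [nat_lit 0, nat_lit 7, nat_lit 8], [nat_lit 1, nat_lit 2, nat_lit 9], [nat_lit 1, nat_lit 10], [nat_lit 2, nat_lit 10], [nat_lit 3, nat_lit 9], [nat_lit 3], [nat_lit 4, nat_lit 7, nat_lit 10], [nat_lit 5, nat_lit 6, nat_lit 9]],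
  [[nat_lit 1, nat_lit 2, nat_lit 3], [nat_lit 0, nat_lit 4, nat_lit 5], [nat_lit 0, nat_lit 6, nat_lit 7], [nat_lit 0, nat_lit 8, nat_lit 9], [nat_lit 1, nat_lit 6, nat_lit 10], [nat_lit 1, nat_lit 7, nat_lit 10], [nat_lit 2, nat_lit 4], [nat_lit 2, nat_lit 5], [nat_lit 3, nat_lit 10], [nat_lit 3], [nat_lit 4, nat_lit 5, nat_lit 8]],
  [[nat_lit 1, nat_lit 2, nat_lit 3], [nat_lit 0, nat_lit 4, nat_lit 5], [nat_lit 0, nat_lit 6, nat_lit 7], [nat_lit 0, nat_lit 8, nat_lit 9], [nat_lit 1, nat_lit 5, nat_lit 6], [nat_lit 1, nat_lit 4, nat_lit 10], [nat_lit 2, nat_lit 4], [nat_lit 2], [nat_lit 3, nat_lit 10], [nat_lit 3, nat_lit 10], [nat_lit 5, nat_lit 8, nat_lit 9]],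
  [[nat_lit 1, nat_lit 2, nat_lit 3], [nat_lit 0, nat_lit 4, nat_lit 5], [nat_lit 0, nat_lit 4, nat_lit 6], [nat_lit 0, nat_lit 7, nat_lit 8], [nat_lit 1, nat_lit 2, nat_lit 9], [nat_lit 1, nat_lit 7, nat_lit 8], [nat_lit 2, nat_lit 9, nat_lit 10], [nat_lit 3, nat_lit 5], [nat_lit 3, nat_lit 5], [nat_lit 4, nat_lit 6], [nat_lit 6]],
  [[nat_lit 1, nat_lit 2, nat_lit 3], [nat_lit 0, nat_lit 4, nat_lit 5], [nat_lit 0, nat_lit 4, nat_lit 6], [nat_lit 0, nat_lit 7, nat_lit 8], [nat_lit 1, nat_lit 2, nat_lit 9], [nat_lit 1, nat_lit 6, nat_lit 10], [nat_lit 2, nat_lit 5], [nat_lit 3, nat_lit 9], [nat_lit 3, nat_lit 9], [nat_lit 4, nat_lit 7, nat_lit 8], [nat_lit 5]],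
  [[nat_lit 1, nat_lit 2, nat_lit 3], [nat_lit 0, nat_lit 4, nat_lit 5], [nat_lit 0, nat_lit 6, nat_lit 7], [nat_lit 0, nat_lit 8, nat_lit 9], [nat_lit 1, nat_lit 5, nat_lit 6], [nat_lit 1, nat_lit 4, nat_lit 10], [nat_lit 2, nat_lit 4], [nat_lit 2], [nat_lit 3, nat_lit 9, nat_lit 10], [nat_lit 3, nat_lit 8], [nat_lit 5, nat_lit 8]],
  [[nat_lit 1, nat_lit 2, nat_lit 3], [nat_lit 0, nat_lit 4, nat_lit 5], [nat_lit 0, nat_lit 4, nat_lit 6], [nat_lit 0, nat_lit 7, nat_lit 8], [nat_lit 1, nat_lit 2, nat_lit 9], [nat_lit 1, nat_lit 6, nat_lit 10], [nat_lit 2, nat_lit 5], [nat_lit 3, nat_lit 8, nat_lit 9], [nat_lit 3, nat_lit 7], [nat_lit 4, nat_lit 7], [nat_lit 5]],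
  [[nat_lit 1, nat_lit 2, nat_lit 3], [nat_lit 0, nat_lit 4, nat_lit 5], [nat_lit 0, nat_lit 6, nat_lit 7], [nat_lit 0, nat_lit 8, nat_lit 9], [nat_lit 1, nat_lit 6, nat_lit 10], [nat_lit 1, nat_lit 8, nat_lit 10], [nat_lit 2, nat_lit 4], [nat_lit 2, nat_lit 10], [nat_lit 3, nat_lit 5], [nat_lit 3], [nat_lit 4, nat_lit 5, nat_lit 7]],
  [[nat_lit 1, nat_lit 2, nat_lit 3], [nat_lit 0, nat_lit 4, nat_lit 5], [nat_lit 0, nat_lit 6, nat_lit 7], [nat_lit 0, nat_lit 8, nat_lit 9], [nat_lit 1, nat_lit 6, nat_lit 8], [nat_lit 1, nat_lit 7, nat_lit 10], [nat_lit 2, nat_lit 4, nat_lit 9], [nat_lit 2, nat_lit 5], [nat_lit 3, nat_lit 4], [nat_lit 3, nat_lit 6], [nat_lit 5]],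
  [[nat_lit 1, nat_lit 2, nat_lit 3], [nat_lit 0, nat_lit 4, nat_lit 5], [nat_lit 0, nat_lit 6, nat_lit 7], [nat_lit 0, nat_lit 8, nat_lit 9], [nat_lit 1, nat_lit 5, nat_lit 10], [nat_lit 1, nat_lit 4, nat_lit 10], [nat_lit 2, nat_lit 8], [nat_lit 2, nat_lit 8], [nat_lit 3, nat_lit 6, nat_lit 7], [nat_lit 3], [nat_lit 4, nat_lit 5]],
  [[nat_lit 1, nat_lit 2, nat_lit 3], [nat_lit 0, nat_lit 2, nat_lit 4], [nat_lit 0, nat_lit 1, nat_lit 5], [nat_lit 0, nat_lit 6, nat_lit 7], [nat_lit 1, nat_lit 6, nat_lit 8], [nat_lit 2, nat_lit 9, nat_lit 10], [nat_lit 3, nat_lit 4], [nat_lit 3, nat_lit 9], [nat_lit 4, nat_lit 9], [nat_lit 5, nat_lit 7, nat_lit 8], [nat_lit 5]],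
  [[nat_lit 1, nat_lit 2, nat_lit 3], [nat_lit 0, nat_lit 4, nat_lit 5], [nat_lit 0, nat_lit 4, nat_lit 6], [nat_lit 0, nat_lit 7, nat_lit 8], [nat_lit 1, nat_lit 2, nat_lit 9], [nat_lit 1, nat_lit 6, nat_lit 10], [nat_lit 2, nat_lit 5], [nat_lit 3, nat_lit 9, nat_lit 10], [nat_lit 3], [nat_lit 4, nat_lit 7], [nat_lit 5, nat_lit 7]],
  [[nat_lit 1, nat_lit 2, nat_lit 3], [nat_lit 0, nat_lit 4, nat_lit 5], [nat_lit 0, nat_lit 6, nat_lit 7], [nat_lit 0, nat_lit 8, nat_lit 9], [nat_lit 1, nat_lit 5, nat_lit 6], [nat_lit 1, nat_lit 4, nat_lit 10], [nat_lit 2, nat_lit 4], [nat_lit 2, nat_lit 8, nat_lit 9], [nat_lit 3, nat_lit 7], [nat_lit 3, nat_lit 7], [nat_lit 5]],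
  [[nat_lit 1, nat_lit 2, nat_lit 3], [nat_lit 0, nat_lit 4, nat_lit 5], [nat_lit 0, nat_lit 4, nat_lit 6], [nat_lit 0, nat_lit 7, nat_lit 8], [nat_lit 1, nat_lit 2, nat_lit 9], [nat_lit 1, nat_lit 6, nat_lit 10], [nat_lit 2, nat_lit 5], [nat_lit 3, nat_lit 10], [nat_lit 3, nat_lit 10], [nat_lit 4], [nat_lit 5, nat_lit 7, nat_lit 8]],
  [[nat_lit 1, nat_lit 2, nat_lit 3], [nat_lit 0, nat_lit 4, nat_lit 5], [nat_lit 0, nat_lit 6, nat_lit 7], [nat_lit 0, nat_lit 8, nat_lit 9], [nat_lit 1, nat_lit 6, nat_lit 7], [nat_lit 1, nat_lit 8, nat_lit 10], [nat_lit 2, nat_lit 4], [nat_lit 2, nat_lit 4], [nat_lit 3, nat_lit 5, nat_lit 10], [nat_lit 3], [nat_lit 5, nat_lit 8]],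
  [[nat_lit 1, nat_lit 2, nat_lit 3], [nat_lit 0, nat_lit 4, nat_lit 5], [nat_lit 0, nat_lit 6], [nat_lit 0, nat_lit 6], [nat_lit 1, nat_lit 5, nat_lit 7], [nat_lit 1, nat_lit 4, nat_lit 8], [nat_lit 2, nat_lit 3, nat_lit 10], [nat_lit 4, nat_lit 9, nat_lit 10], [nat_lit 5], [nat_lit 7, nat_lit 10], [nat_lit 6, nat_lit 7, nat_lit 9]],
  [[nat_lit 1, nat_lit 2], [nat_lit 0, nat_lit 3, nat_lit 4], [nat_lit 0, nat_lit 3, nat_lit 4], [nat_lit 1, nat_lit 2], [nat_lit 1, nat_lit 2, nat_lit 6], [nat_lit 7, nat_lit 8], [nat_lit 4, nat_lit 9, nat_lit 10], [nat_lit 5, nat_lit 8, nat_lit 10], [nat_lit 5, nat_lit 7, nat_lit 10], [nat_lit 6], [nat_lit 6, nat_lit 7, nat_lit 8]],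
  [[nat_lit 1, nat_lit 2, nat_lit 3], [nat_lit 0, nat_lit 2, nat_lit 4], [nat_lit 0, nat_lit 1, nat_lit 5], [nat_lit 0, nat_lit 6, nat_lit 7], [nat_lit 1, nat_lit 8, nat_lit 9], [nat_lit 2, nat_lit 10], [nat_lit 3, nat_lit 8, nat_lit 10], [nat_lit 3], [nat_lit 4, nat_lit 6], [nat_lit 4, nat_lit 10], [nat_lit 5, nat_lit 6, nat_lit 9]],
  [[nat_lit 1, nat_lit 2, nat_lit 3], [nat_lit 0, nat_lit 4, nat_lit 5], [nat_lit 0, nat_lit 6, nat_lit 7], [nat_lit 0, nat_lit 8, nat_lit 9], [nat_lit 1, nat_lit 5, nat_lit 6], [nat_lit 1, nat_lit 4, nat_lit 10], [nat_lit 2, nat_lit 4], [nat_lit 2, nat_lit 8], [nat_lit 3, nat_lit 7, nat_lit 9], [nat_lit 3, nat_lit 8], [nat_lit 5]],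
  [[nat_lit 1, nat_lit 2, nat_lit 3], [nat_lit 0, nat_lit 4, nat_lit 5], [nat_lit 0, nat_lit 4, nat_lit 6], [nat_lit 0, nat_lit 7, nat_lit 8], [nat_lit 1, nat_lit 2, nat_lit 9], [nat_lit 1, nat_lit 9, nat_lit 10], [nat_lit 2], [nat_lit 3, nat_lit 8, nat_lit 10], [nat_lit 3, nat_lit 7], [nat_lit 4, nat_lit 5], [nat_lit 5, nat_lit 7]],
  [[nat_lit 1, nat_lit 2, nat_lit 3], [nat_lit 0, nat_lit 4], [nat_lit 0, nat_lit 5, nat_lit 6], [nat_lit 0, nat_lit 5, nat_lit 6], [nat_lit 1, nat_lit 8, nat_lit 9], [nat_lit 2, nat_lit 3], [nat_lit 2, nat_lit 3, nat_lit 10], [nat_lit 10], [nat_lit 4, nat_lit 9, nat_lit 10], [nat_lit 4, nat_lit 8], [nat_lit 6, nat_lit 7, nat_lit 8]],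
  [[nat_lit 1, nat_lit 2, nat_lit 3], [nat_lit 0, nat_lit 4, nat_lit 5], [nat_lit 0, nat_lit 6], [nat_lit 0, nat_lit 7, nat_lit 8], [nat_lit 1, nat_lit 6], [nat_lit 1, nat_lit 7, nat_lit 9], [nat_lit 2, nat_lit 4, nat_lit 8], [nat_lit 3, nat_lit 5, nat_lit 10], [nat_lit 3, nat_lit 6, nat_lit 10], [nat_lit 5], [nat_lit 7, nat_lit 8]],
  [[nat_lit 1, nat_lit 2, nat_lit 3], [nat_lit 0, nat_lit 4, nat_lit 5], [nat_lit 0, nat_lit 6], [nat_lit 0, nat_lit 7, nat_lit 8], [nat_lit 1, nat_lit 6, nat_lit 9], [nat_lit 1, nat_lit 7, nat_lit 10], [nat_lit 2, nat_lit 4, nat_lit 10], [nat_lit 3, nat_lit 5, nat_lit 9], [nat_lit 3], [nat_lit 4, nat_lit 7], [nat_lit 5, nat_lit 6]]]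

noncomputable def lv17 : List (List (List Nat)) := [
  [[nat_lit 1, nat_lit 2], [nat_lit 0, nat_lit 3, nat_lit 4], [nat_lit 0, nat_lit 5, nat_lit 6], [nat_lit 1, nat_lit 4, nat_lit 9], [nat_lit 1, nat_lit 3, nat_lit 10], [nat_lit 2, nat_lit 7, nat_lit 10], [nat_lit 2, nat_lit 8, nat_lit 10], [nat_lit 5], [nat_lit 6], [nat_lit 3], [nat_lit 4, nat_lit 5, nat_lit 6]],
  [[nat_lit 1, nat_lit 2, nat_lit 3], [nat_lit 0, nat_lit 4, nat_lit 5], [nat_lit 0, nat_lit 6, nat_lit 7], [nat_lit 0, nat_lit 8, nat_lit 9], [nat_lit 1, nat_lit 5, nat_lit 10], [nat_lit 1, nat_lit 4, nat_lit 10], [nat_lit 2], [nat_lit 2], [nat_lit 3], [nat_lit 3], [nat_lit 4, nat_lit 5]],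
  [[nat_lit 1, nat_lit 2, nat_lit 3], [nat_lit 0, nat_lit 4, nat_lit 5], [nat_lit 0, nat_lit 6, nat_lit 7], [nat_lit 0, nat_lit 8, nat_lit 9], [nat_lit 1, nat_lit 5, nat_lit 6], [nat_lit 1, nat_lit 4, nat_lit 10], [nat_lit 2, nat_lit 4], [nat_lit 2], [nat_lit 3], [nat_lit 3], [nat_lit 5]],
  [[nat_lit 1, nat_lit 2, nat_lit 3], [nat_lit 0, nat_lit 4, nat_lit 5], [nat_lit 0, nat_lit 4, nat_lit 6], [nat_lit 0, nat_lit 7, nat_lit 8], [nat_lit 1, nat_lit 2, nat_lit 9], [nat_lit 1, nat_lit 6, nat_lit 10], [nat_lit 2, nat_lit 5], [nat_lit 3], [nat_lit 3], [nat_lit 4], [nat_lit 5]],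
  [[nat_lit 1, nat_lit 2, nat_lit 3], [nat_lit 0, nat_lit 4, nat_lit 5], [nat_lit 0, nat_lit 6, nat_lit 7], [nat_lit 0, nat_lit 8, nat_lit 9], [nat_lit 1, nat_lit 5, nat_lit 10], [nat_lit 1, nat_lit 4], [nat_lit 2, nat_lit 10], [nat_lit 2], [nat_lit 3, nat_lit 10], [nat_lit 3], [nat_lit 4, nat_lit 6, nat_lit 8]],
  [[nat_lit 1, nat_lit 2, nat_lit 3], [nat_lit 0, nat_lit 4, nat_lit 5], [nat_lit 0, nat_lit 6, nat_lit 7], [nat_lit 0, nat_lit 8, nat_lit 9], [nat_lit 1, nat_lit 5, nat_lit 10], [nat_lit 1, nat_lit 4], [nat_lit 2, nat_lit 8], [nat_lit 2, nat_lit 8], [nat_lit 3, nat_lit 6, nat_lit 7], [nat_lit 3], [nat_lit 4]],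
  [[nat_lit 1, nat_lit 2, nat_lit 3], [nat_lit 0, nat_lit 4, nat_lit 5], [nat_lit 0, nat_lit 6, nat_lit 7], [nat_lit 0, nat_lit 6, nat_lit 7], [nat_lit 1, nat_lit 8, nat_lit 9], [nat_lit 1], [nat_lit 2, nat_lit 3], [nat_lit 2, nat_lit 3], [nat_lit 4, nat_lit 9, nat_lit 10], [nat_lit 4, nat_lit 8], [nat_lit 8]],
  [[nat_lit 1, nat_lit 2, nat_lit 3], [nat_lit 0, nat_lit 4, nat_lit 5], [nat_lit 0, nat_lit 6, nat_lit 7], [nat_lit 0, nat_lit 8, nat_lit 9], [nat_lit 1, nat_lit 6, nat_lit 7], [nat_lit 1, nat_lit 10, nat_lit 11], [nat_lit 2, nat_lit 4], [nat_lit 2, nat_lit 4], [nat_lit 3, nat_lit 10], [nat_lit 3, nat_lit 11], [nat_lit 5, nat_lit 8], [nat_lit 5, nat_lit 9]],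
  [[nat_lit 1, nat_lit 2, nat_lit 3], [nat_lit 0, nat_lit 4, nat_lit 5], [nat_lit 0, nat_lit 6, nat_lit 7], [nat_lit 0, nat_lit 8, nat_lit 9], [nat_lit 1, nat_lit 5], [nat_lit 1, nat_lit 4, nat_lit 10], [nat_lit 2, nat_lit 8, nat_lit 11], [nat_lit 2, nat_lit 11], [nat_lit 3, nat_lit 6], [nat_lit 3, nat_lit 10], [nat_lit 5, nat_lit 9], [nat_lit 6, nat_lit 7]],
  [[nat_lit 1, nat_lit 2, nat_lit 3], [nat_lit 0, nat_lit 4, nat_lit 5], [nat_lit 0, nat_lit 6, nat_lit 7], [nat_lit 0, nat_lit 6, nat_lit 7], [nat_lit 1, nat_lit 8, nat_lit 9], [nat_lit 1, nat_lit 8, nat_lit 10], [nat_lit 2, nat_lit 3, nat_lit 11], [nat_lit 2, nat_lit 3, nat_lit 11], [nat_lit 4, nat_lit 5], [nat_lit 4, nat_lit 10], [nat_lit 5, nat_lit 9], [nat_lit 6, nat_lit 7]],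
  [[nat_lit 1, nat_lit 2, nat_lit 3], [nat_lit 0, nat_lit 4, nat_lit 5], [nat_lit 0, nat_lit 4, nat_lit 6], [nat_lit 0, nat_lit 7, nat_lit 8], [nat_lit 1, nat_lit 2, nat_lit 9], [nat_lit 1, nat_lit 10, nat_lit 11], [nat_lit 2, nat_lit 10], [nat_lit 3, nat_lit 9, nat_lit 11], [nat_lit 3, nat_lit 9], [nat_lit 4, nat_lit 7, nat_lit 8], [nat_lit 5, nat_lit 6], [nat_lit 5, nat_lit 7]],
  [[nat_lit 1, nat_lit 2, nat_lit 3], [nat_lit 0, nat_lit 4, nat_lit 5], [nat_lit 0, nat_lit 6, nat_lit 7], [nat_lit 0, nat_lit 8, nat_lit 9], [nat_lit 1, nat_lit 6, nat_lit 7], [nat_lit 1, nat_lit 8, nat_lit 10], [nat_lit 2, nat_lit 4, nat_lit 11], [nat_lit 2, nat_lit 4], [nat_lit 3, nat_lit 5, nat_lit 11], [nat_lit 3, nat_lit 10], [nat_lit 5, nat_lit 9], [nat_lit 6, nat_lit 8]],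
  [[nat_lit 1, nat_lit 2, nat_lit 3], [nat_lit 0, nat_lit 4, nat_lit 5], [nat_lit 0, nat_lit 6, nat_lit 7], [nat_lit 0, nat_lit 8], [nat_lit 1, nat_lit 6, nat_lit 8], [nat_lit 1, nat_lit 9, nat_lit 10], [nat_lit 2, nat_lit 4, nat_lit 11], [nat_lit 2, nat_lit 11], [nat_lit 3, nat_lit 4], [nat_lit 5, nat_lit 10, nat_lit 11], [nat_lit 5, nat_lit 9], [nat_lit 6, nat_lit 7, nat_lit 9]],
  [[nat_lit 1, nat_lit 2, nat_lit 3], [nat_lit 0, nat_lit 4, nat_lit 5], [nat_lit 0, nat_lit 6, nat_lit 7], [nat_lit 0, nat_lit 8, nat_lit 9], [nat_lit 1, nat_lit 6, nat_lit 7], [nat_lit 1, nat_lit 8, nat_lit 9], [nat_lit 2, nat_lit 4, nat_lit 10], [nat_lit 2, nat_lit 4, nat_lit 11], [nat_lit 3, nat_lit 5], [nat_lit 3, nat_lit 5], [nat_lit 6, nat_lit 11], [nat_lit 7, nat_lit 10]],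
  [[nat_lit 1, nat_lit 2, nat_lit 3], [nat_lit 0, nat_lit 4, nat_lit 5], [nat_lit 0, nat_lit 6, nat_lit 7], [nat_lit 0, nat_lit 6, nat_lit 7], [nat_lit 1, nat_lit 8, nat_lit 9], [nat_lit 1, nat_lit 8, nat_lit 9], [nat_lit 2, nat_lit 3, nat_lit 10], [nat_lit 2, nat_lit 3, nat_lit 10], [nat_lit 4, nat_lit 5, nat_lit 11], [nat_lit 4, nat_lit 5, nat_lit 11], [nat_lit 6, nat_lit 7], [nat_lit 8, nat_lit 9]],
  [[nat_lit 1, nat_lit 2, nat_lit 3], [nat_lit 0, nat_lit 4, nat_lit 5], [nat_lit 0, nat_lit 6, nat_lit 7], [nat_lit 0, nat_lit 8, nat_lit 9], [nat_lit 1, nat_lit 6, nat_lit 7], [nat_lit 1, nat_lit 10, nat_lit 11], [nat_lit 2, nat_lit 4, nat_lit 8], [nat_lit 2, nat_lit 4], [nat_lit 3, nat_lit 6], [nat_lit 3, nat_lit 10], [nat_lit 5, nat_lit 9], [nat_lit 5]],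
  [[nat_lit 1, nat_lit 2, nat_lit 3], [nat_lit 0, nat_lit 4, nat_lit 5], [nat_lit 0, nat_lit 6, nat_lit 7], [nat_lit 0, nat_lit 8, nat_lit 9], [nat_lit 1, nat_lit 5, nat_lit 10], [nat_lit 1, nat_lit 4, nat_lit 11], [nat_lit 2, nat_lit 8], [nat_lit 2, nat_lit 10, nat_lit 11], [nat_lit 3, nat_lit 6], [nat_lit 3], [nat_lit 4, nat_lit 7], [nat_lit 5, nat_lit 7]],
  [[nat_lit 1, nat_lit 2, nat_lit 3], [nat_lit 0, nat_lit 4, nat_lit 5], [nat_lit 0, nat_lit 4, nat_lit 6], [nat_lit 0, nat_lit 7, nat_lit 8], [nat_lit 1, nat_lit 2, nat_lit 9], [nat_lit 1, nat_lit 10, nat_lit 11], [nat_lit 2, nat_lit 10], [nat_lit 3, nat_lit 8, nat_lit 9], [nat_lit 3, nat_lit 7], [nat_lit 4, nat_lit 7], [nat_lit 5, nat_lit 6], [nat_lit 5]],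
  [[nat_lit 1, nat_lit 2, nat_lit 3], [nat_lit 0, nat_lit 4, nat_lit 5], [nat_lit 0, nat_lit 6, nat_lit 7], [nat_lit 0, nat_lit 8, nat_lit 9], [nat_lit 1, nat_lit 6, nat_lit 10], [nat_lit 1, nat_lit 7, nat_lit 10], [nat_lit 2, nat_lit 4, nat_lit 11], [nat_lit 2, nat_lit 5], [nat_lit 3, nat_lit 11], [nat_lit 3], [nat_lit 4, nat_lit 5], [nat_lit 6, nat_lit 8]],
  [[nat_lit 1, nat_lit 2, nat_lit 3], [nat_lit 0, nat_lit 4, nat_lit 5], [nat_lit 0, nat_lit 6, nat_lit 7], [nat_lit 0, nat_lit 8, nat_lit 9], [nat_lit 1, nat_lit 6, nat_lit 10], [nat_lit 1, nat_lit 7, nat_lit 11], [nat_lit 2, nat_lit 4], [nat_lit 2, nat_lit 5, nat_lit 10], [nat_lit 3, nat_lit 11], [nat_lit 3], [nat_lit 4, nat_lit 7], [nat_lit 5, nat_lit 8]],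
  [[nat_lit 1, nat_lit 2, nat_lit 3], [nat_lit 0, nat_lit 4, nat_lit 5], [nat_lit 0, nat_lit 6, nat_lit 7], [nat_lit 0, nat_lit 8], [nat_lit 1, nat_lit 6, nat_lit 9], [nat_lit 1, nat_lit 8, nat_lit 10], [nat_lit 2, nat_lit 4, nat_lit 11], [nat_lit 2, nat_lit 11], [nat_lit 3, nat_lit 5], [nat_lit 4, nat_lit 11], [nat_lit 5], [nat_lit 6, nat_lit 7, nat_lit 9]],
  [[nat_lit 1, nat_lit 2, nat_lit 3], [nat_lit 0, nat_lit 4, nat_lit 5], [nat_lit 0, nat_lit 6, nat_lit 7], [nat_lit 0, nat_lit 8, nat_lit 9], [nat_lit 1, nat_lit 6, nat_lit 10], [nat_lit 1, nat_lit 11], [nat_lit 2, nat_lit 4, nat_lit 11], [nat_lit 2, nat_lit 11], [nat_lit 3, nat_lit 10], [nat_lit 3], [nat_lit 4, nat_lit 8], [nat_lit 5, nat_lit 6, nat_lit 7]],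
  [[nat_lit 1, nat_lit 2, nat_lit 3], [nat_lit 0, nat_lit 4, nat_lit 5], [nat_lit 0, nat_lit 4, nat_lit 6], [nat_lit 0, nat_lit 7, nat_lit 8], [nat_lit 1, nat_lit 2, nat_lit 9], [nat_lit 1, nat_lit 10, nat_lit 11], [nat_lit 2, nat_lit 10], [nat_lit 3, nat_lit 9], [nat_lit 3, nat_lit 9], [nat_lit 4, nat_lit 7, nat_lit 8], [nat_lit 5, nat_lit 6], [nat_lit 5]],
  [[nat_lit 1, nat_lit 2, nat_lit 3], [nat_lit 0, nat_lit 4, nat_lit 5], [nat_lit 0, nat_lit 6, nat_lit 7], [nat_lit 0, nat_lit 8, nat_lit 9], [nat_lit 1, nat_lit 5, nat_lit 10], [nat_lit 1, nat_lit 4, nat_lit 10], [nat_lit 2, nat_lit 8, nat_lit 11], [nat_lit 2, nat_lit 11], [nat_lit 3, nat_lit 6], [nat_lit 3], [nat_lit 4, nat_lit 5], [nat_lit 6, nat_lit 7]],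
  [[nat_lit 1, nat_lit 2, nat_lit 3], [nat_lit 0, nat_lit 4, nat_lit 5], [nat_lit 0, nat_lit 6, nat_lit 7], [nat_lit 0, nat_lit 6, nat_lit 7], [nat_lit 1, nat_lit 8, nat_lit 9], [nat_lit 1, nat_lit 8, nat_lit 10], [nat_lit 2, nat_lit 3, nat_lit 11], [nat_lit 2, nat_lit 3], [nat_lit 4, nat_lit 5], [nat_lit 4, nat_lit 11], [nat_lit 5], [nat_lit 6, nat_lit 9]],
  [[nat_lit 1, nat_lit 2, nat_lit 3], [nat_lit 0, nat_lit 4, nat_lit 5], [nat_lit 0, nat_lit 6], [nat_lit 0, nat_lit 7, nat_lit 8], [nat_lit 1, nat_lit 6, nat_lit 9], [nat_lit 1, nat_lit 10, nat_lit 11], [nat_lit 2, nat_lit 4], [nat_lit 3, nat_lit 10], [nat_lit 3], [nat_lit 4, nat_lit 11], [nat_lit 5, nat_lit 7, nat_lit 11], [nat_lit 5, nat_lit 9, nat_lit 10]],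
  [[nat_lit 1, nat_lit 2, nat_lit 3], [nat_lit 0, nat_lit 4, nat_lit 5], [nat_lit 0, nat_lit 6, nat_lit 7], [nat_lit 0, nat_lit 8, nat_lit 9], [nat_lit 1, nat_lit 6, nat_lit 8], [nat_lit 1, nat_lit 7, nat_lit 10], [nat_lit 2, nat_lit 4, nat_lit 11], [nat_lit 2, nat_lit 5], [nat_lit 3, nat_lit 4], [nat_lit 3, nat_lit 11], [nat_lit 5], [nat_lit 6, nat_lit 9]],
  [[nat_lit 1, nat_lit 2, nat_lit 3], [nat_lit 0, nat_lit 4, nat_lit 5], [nat_lit 0, nat_lit 6, nat_lit 7], [nat_lit 0, nat_lit 8], [nat_lit 1, nat_lit 6, nat_lit 9], [nat_lit 1, nat_lit 7, nat_lit 10], [nat_lit 2, nat_lit 4, nat_lit 11], [nat_lit 2, nat_lit 5], [nat_lit 3, nat_lit 9], [nat_lit 4, nat_lit 8, nat_lit 11], [nat_lit 5], [nat_lit 6, nat_lit 9]],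
  [[nat_lit 1, nat_lit 2, nat_lit 3], [nat_lit 0, nat_lit 4, nat_lit 5], [nat_lit 0, nat_lit 6, nat_lit 7], [nat_lit 0, nat_lit 8, nat_lit 9], [nat_lit 1, nat_lit 6, nat_lit 8], [nat_lit 1, nat_lit 10, nat_lit 11], [nat_lit 2, nat_lit 4, nat_lit 10], [nat_lit 2, nat_lit 9], [nat_lit 3, nat_lit 4], [nat_lit 3, nat_lit 7], [nat_lit 5, nat_lit 6], [nat_lit 5]],
  [[nat_lit 1, nat_lit 2, nat_lit 3], [nat_lit 0, nat_lit 4, nat_lit 5], [nat_lit 0, nat_lit 6, nat_lit 7], [nat_lit 0, nat_lit 8], [nat_lit 1, nat_lit 6, nat_lit 9], [nat_lit 1, nat_lit 9, nat_lit 10], [nat_lit 2, nat_lit 4, nat_lit 11], [nat_lit 2, nat_lit 11], [nat_lit 3, nat_lit 11], [nat_lit 4, nat_lit 5], [nat_lit 5], [nat_lit 6, nat_lit 7, nat_lit 8]],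
  [[nat_lit 3, nat_lit 4], [nat_lit 5, nat_lit 6], [nat_lit 7, nat_lit 8], [nat_lit 0, nat_lit 5, nat_lit 6], [nat_lit 0, nat_lit 7, nat_lit 9], [nat_lit 1, nat_lit 3, nat_lit 10], [nat_lit 1, nat_lit 3, nat_lit 11], [nat_lit 2, nat_lit 4, nat_lit 11], [nat_lit 2, nat_lit 10], [nat_lit 4], [nat_lit 5, nat_lit 8, nat_lit 11], [nat_lit 6, nat_lit 7, nat_lit 10]],
  [[nat_lit 1, nat_lit 2, nat_lit 3], [nat_lit 0, nat_lit 4, nat_lit 5], [nat_lit 0, nat_lit 6, nat_lit 7], [nat_lit 0, nat_lit 8, nat_lit 9], [nat_lit 1, nat_lit 6, nat_lit 10], [nat_lit 1, nat_lit 8, nat_lit 10], [nat_lit 2, nat_lit 4, nat_lit 11], [nat_lit 2, nat_lit 11], [nat_lit 3, nat_lit 5], [nat_lit 3], [nat_lit 4, nat_lit 5], [nat_lit 6, nat_lit 7]]]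

noncomputable def lv18 : List (List (List Nat)) := [
  [[nat_lit 1, nat_lit 2, nat_lit 3], [nat_lit 0, nat_lit 4, nat_lit 5], [nat_lit 0, nat_lit 6, nat_lit 7], [nat_lit 0, nat_lit 8, nat_lit 9], [nat_lit 1, nat_lit 6, nat_lit 10], [nat_lit 1, nat_lit 8, nat_lit 11], [nat_lit 2, nat_lit 4, nat_lit 11], [nat_lit 2, nat_lit 10], [nat_lit 3, nat_lit 5], [nat_lit 3], [nat_lit 4, nat_lit 7], [nat_lit 5, nat_lit 6]],
  [[nat_lit 1, nat_lit 2, nat_lit 3], [nat_lit 0, nat_lit 4, nat_lit 5], [nat_lit 0, nat_lit 6, nat_lit 7], [nat_lit 0, nat_lit 8, nat_lit 9], [nat_lit 1, nat_lit 6, nat_lit 10], [nat_lit 1, nat_lit 11], [nat_lit 2, nat_lit 4, nat_lit 11], [nat_lit 2, nat_lit 10], [nat_lit 3, nat_lit 10], [nat_lit 3], [nat_lit 4, nat_lit 7, nat_lit 8], [nat_lit 5, nat_lit 6]],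
  [[nat_lit 1, nat_lit 2, nat_lit 3], [nat_lit 0, nat_lit 4, nat_lit 5], [nat_lit 0, nat_lit 6, nat_lit 7], [nat_lit 0, nat_lit 8, nat_lit 9], [nat_lit 1, nat_lit 5, nat_lit 10], [nat_lit 1, nat_lit 4, nat_lit 10], [nat_lit 2, nat_lit 8, nat_lit 11], [nat_lit 2], [nat_lit 3, nat_lit 6], [nat_lit 3, nat_lit 11], [nat_lit 4, nat_lit 5], [nat_lit 6, nat_lit 9]],
  [[nat_lit 1, nat_lit 2, nat_lit 3], [nat_lit 0, nat_lit 4, nat_lit 5], [nat_lit 0, nat_lit 6, nat_lit 7], [nat_lit 0, nat_lit 8, nat_lit 9], [nat_lit 1, nat_lit 6, nat_lit 8], [nat_lit 1, nat_lit 7, nat_lit 10], [nat_lit 2, nat_lit 4, nat_lit 11], [nat_lit 2, nat_lit 5], [nat_lit 3, nat_lit 4], [nat_lit 3, nat_lit 10], [nat_lit 5, nat_lit 9], [nat_lit 6]],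
  [[nat_lit 1, nat_lit 2, nat_lit 3], [nat_lit 0, nat_lit 2, nat_lit 4], [nat_lit 0, nat_lit 1, nat_lit 5], [nat_lit 0, nat_lit 6, nat_lit 7], [nat_lit 1, nat_lit 8, nat_lit 9], [nat_lit 2], [nat_lit 3, nat_lit 7], [nat_lit 3, nat_lit 6, nat_lit 10], [nat_lit 4, nat_lit 9, nat_lit 11], [nat_lit 4, nat_lit 8], [nat_lit 7, nat_lit 11], [nat_lit 8, nat_lit 10]],
  [[nat_lit 1, nat_lit 2, nat_lit 3], [nat_lit 0, nat_lit 4, nat_lit 5], [nat_lit 0, nat_lit 6, nat_lit 7], [nat_lit 0, nat_lit 8, nat_lit 9], [nat_lit 1, nat_lit 6], [nat_lit 1, nat_lit 10], [nat_lit 2, nat_lit 4, nat_lit 11], [nat_lit 2, nat_lit 11], [nat_lit 3, nat_lit 10, nat_lit 11], [nat_lit 3], [nat_lit 5, nat_lit 8], [nat_lit 6, nat_lit 7, nat_lit 8]],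
  [[nat_lit 1, nat_lit 2, nat_lit 3], [nat_lit 0, nat_lit 4, nat_lit 5], [nat_lit 0, nat_lit 6, nat_lit 7], [nat_lit 0, nat_lit 8, nat_lit 9], [nat_lit 1, nat_lit 5], [nat_lit 1, nat_lit 4, nat_lit 10], [nat_lit 2, nat_lit 8, nat_lit 11], [nat_lit 2], [nat_lit 3, nat_lit 6, nat_lit 11], [nat_lit 3, nat_lit 10], [nat_lit 5, nat_lit 9], [nat_lit 6, nat_lit 8]],
  [[nat_lit 1, nat_lit 2, nat_lit 3], [nat_lit 0, nat_lit 4, nat_lit 5], [nat_lit 0, nat_lit 6, nat_lit 7], [nat_lit 0, nat_lit 8, nat_lit 9], [nat_lit 1, nat_lit 6, nat_lit 8], [nat_lit 1, nat_lit 10, nat_lit 11], [nat_lit 2, nat_lit 4, nat_lit 10], [nat_lit 2], [nat_lit 3, nat_lit 4], [nat_lit 3, nat_lit 11], [nat_lit 5, nat_lit 6], [nat_lit 5, nat_lit 9]],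
  [[nat_lit 1, nat_lit 2, nat_lit 3], [nat_lit 0, nat_lit 4, nat_lit 5], [nat_lit 0, nat_lit 6], [nat_lit 0, nat_lit 7, nat_lit 8], [nat_lit 1, nat_lit 6, nat_lit 9], [nat_lit 1, nat_lit 7, nat_lit 10], [nat_lit 2, nat_lit 4, nat_lit 11], [nat_lit 3, nat_lit 5, nat_lit 11], [nat_lit 3, nat_lit 10], [nat_lit 4], [nat_lit 5, nat_lit 8], [nat_lit 6, nat_lit 7]],
  [[nat_lit 1, nat_lit 2, nat_lit 3], [nat_lit 0, nat_lit 4, nat_lit 5], [nat_lit 0, nat_lit 6], [nat_lit 0, nat_lit 7, nat_lit 8], [nat_lit 1, nat_lit 6, nat_lit 9], [nat_lit 1, nat_lit 7, nat_lit 10], [nat_lit 2, nat_lit 4, nat_lit 11], [nat_lit 3, nat_lit 5, nat_lit 11], [nat_lit 3, nat_lit 9], [nat_lit 4, nat_lit 8], [nat_lit 5], [nat_lit 6, nat_lit 7]],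
  [[nat_lit 1, nat_lit 2, nat_lit 3], [nat_lit 0, nat_lit 4, nat_lit 5], [nat_lit 0, nat_lit 6, nat_lit 7], [nat_lit 0, nat_lit 6, nat_lit 7], [nat_lit 1, nat_lit 8, nat_lit 9], [nat_lit 1, nat_lit 8, nat_lit 9], [nat_lit 2, nat_lit 3, nat_lit 10], [nat_lit 2, nat_lit 3, nat_lit 10], [nat_lit 4, nat_lit 5, nat_lit 11], [nat_lit 4, nat_lit 5], [nat_lit 6, nat_lit 7], [nat_lit 8]],
  [[nat_lit 1, nat_lit 2, nat_lit 3], [nat_lit 0, nat_lit 2, nat_lit 4], [nat_lit 0, nat_lit 1, nat_lit 5], [nat_lit 0, nat_lit 6, nat_lit 7], [nat_lit 1, nat_lit 8, nat_lit 9], [nat_lit 2], [nat_lit 3, nat_lit 7, nat_lit 10], [nat_lit 3, nat_lit 6, nat_lit 10], [nat_lit 4, nat_lit 9, nat_lit 11], [nat_lit 4, nat_lit 8, nat_lit 11], [nat_lit 6, nat_lit 7], [nat_lit 8, nat_lit 9]],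
  [[nat_lit 1, nat_lit 2, nat_lit 3], [nat_lit 0, nat_lit 4, nat_lit 5], [nat_lit 0, nat_lit 6, nat_lit 7], [nat_lit 0, nat_lit 8, nat_lit 9], [nat_lit 1, nat_lit 6, nat_lit 10], [nat_lit 1, nat_lit 10, nat_lit 11], [nat_lit 2, nat_lit 4], [nat_lit 2, nat_lit 11], [nat_lit 3], [nat_lit 3], [nat_lit 4, nat_lit 5], [nat_lit 5, nat_lit 7]],
  [[nat_lit 1, nat_lit 2, nat_lit 3], [nat_lit 0, nat_lit 4, nat_lit 5], [nat_lit 0, nat_lit 6, nat_lit 7], [nat_lit 0, nat_lit 8, nat_lit 9], [nat_lit 1, nat_lit 5], [nat_lit 1, nat_lit 4, nat_lit 10], [nat_lit 2, nat_lit 7, nat_lit 11], [nat_lit 2, nat_lit 6], [nat_lit 3], [nat_lit 3], [nat_lit 5, nat_lit 11], [nat_lit 6, nat_lit 10]],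
  [[nat_lit 1, nat_lit 2, nat_lit 3], [nat_lit 0, nat_lit 4, nat_lit 5], [nat_lit 0, nat_lit 6, nat_lit 7], [nat_lit 0, nat_lit 8, nat_lit 9], [nat_lit 1, nat_lit 6, nat_lit 7], [nat_lit 1, nat_lit 10, nat_lit 11], [nat_lit 2, nat_lit 4], [nat_lit 2, nat_lit 4], [nat_lit 3, nat_lit 10], [nat_lit 3], [nat_lit 5, nat_lit 8], [nat_lit 5]],
  [[nat_lit 1, nat_lit 2, nat_lit 3], [nat_lit 0, nat_lit 4, nat_lit 5], [nat_lit 0, nat_lit 6, nat_lit 7], [nat_lit 0, nat_lit 8, nat_lit 9], [nat_lit 1, nat_lit 6, nat_lit 10], [nat_lit 1, nat_lit 7, nat_lit 11], [nat_lit 2, nat_lit 4], [nat_lit 2, nat_lit 5], [nat_lit 3, nat_lit 10], [nat_lit 3], [nat_lit 4, nat_lit 8], [nat_lit 5]],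
  [[nat_lit 1, nat_lit 2, nat_lit 3], [nat_lit 0, nat_lit 4, nat_lit 5], [nat_lit 0, nat_lit 6], [nat_lit 0, nat_lit 7, nat_lit 8], [nat_lit 1, nat_lit 6, nat_lit 9], [nat_lit 1, nat_lit 10, nat_lit 11], [nat_lit 2, nat_lit 4, nat_lit 11], [nat_lit 3, nat_lit 10], [nat_lit 3], [nat_lit 4], [nat_lit 5, nat_lit 7], [nat_lit 5, nat_lit 6]],
  [[nat_lit 1, nat_lit 2, nat_lit 3], [nat_lit 0, nat_lit 4, nat_lit 5], [nat_lit 0, nat_lit 6], [nat_lit 0, nat_lit 7, nat_lit 8], [nat_lit 1, nat_lit 9, nat_lit 10], [nat_lit 1, nat_lit 9, nat_lit 11], [nat_lit 2, nat_lit 10], [nat_lit 3, nat_lit 10], [nat_lit 3], [nat_lit 4, nat_lit 5], [nat_lit 4, nat_lit 6, nat_lit 7], [nat_lit 5]],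
  [[nat_lit 1, nat_lit 2, nat_lit 3], [nat_lit 0, nat_lit 4, nat_lit 5], [nat_lit 0, nat_lit 6], [nat_lit 0, nat_lit 7], [nat_lit 1, nat_lit 8, nat_lit 9], [nat_lit 1], [nat_lit 2, nat_lit 8, nat_lit 10], [nat_lit 3, nat_lit 9], [nat_lit 4, nat_lit 6, nat_lit 11], [nat_lit 4, nat_lit 7, nat_lit 11], [nat_lit 6], [nat_lit 8, nat_lit 9]],
  [[nat_lit 1, nat_lit 2, nat_lit 3], [nat_lit 0, nat_lit 4, nat_lit 5], [nat_lit 0, nat_lit 4, nat_lit 6], [nat_lit 0, nat_lit 7, nat_lit 8], [nat_lit 1, nat_lit 2, nat_lit 9], [nat_lit 1, nat_lit 10, nat_lit 11], [nat_lit 2, nat_lit 10, nat_lit 11], [nat_lit 3, nat_lit 9], [nat_lit 3, nat_lit 9], [nat_lit 4, nat_lit 7, nat_lit 8], [nat_lit 5, nat_lit 6], [nat_lit 5, nat_lit 6]],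
  [[nat_lit 1, nat_lit 2, nat_lit 3], [nat_lit 0, nat_lit 4, nat_lit 5], [nat_lit 0, nat_lit 6, nat_lit 7], [nat_lit 0, nat_lit 8, nat_lit 9], [nat_lit 1, nat_lit 5, nat_lit 8], [nat_lit 1, nat_lit 4, nat_lit 9], [nat_lit 2, nat_lit 10, nat_lit 11], [nat_lit 2, nat_lit 10, nat_lit 11], [nat_lit 3, nat_lit 4], [nat_lit 3, nat_lit 5], [nat_lit 6, nat_lit 7], [nat_lit 6, nat_lit 7]],
  [[nat_lit 1, nat_lit 2, nat_lit 3], [nat_lit 0, nat_lit 4, nat_lit 5], [nat_lit 0, nat_lit 6, nat_lit 7], [nat_lit 0, nat_lit 8, nat_lit 9], [nat_lit 1, nat_lit 6, nat_lit 10], [nat_lit 1, nat_lit 7, nat_lit 11], [nat_lit 2, nat_lit 4], [nat_lit 2, nat_lit 5, nat_lit 10], [nat_lit 3, nat_lit 11], [nat_lit 3, nat_lit 11], [nat_lit 4, nat_lit 7], [nat_lit 5, nat_lit 8, nat_lit 9]],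
  [[nat_lit 1, nat_lit 2, nat_lit 3], [nat_lit 0, nat_lit 4, nat_lit 5], [nat_lit 0, nat_lit 6, nat_lit 7], [nat_lit 0, nat_lit 8, nat_lit 9], [nat_lit 1, nat_lit 6, nat_lit 10], [nat_lit 1, nat_lit 7, nat_lit 10], [nat_lit 2, nat_lit 4, nat_lit 11], [nat_lit 2, nat_lit 5], [nat_lit 3, nat_lit 11], [nat_lit 3, nat_lit 11], [nat_lit 4, nat_lit 5], [nat_lit 6, nat_lit 8, nat_lit 9]],
  [[nat_lit 1, nat_lit 2, nat_lit 3], [nat_lit 0, nat_lit 4, nat_lit 5], [nat_lit 0, nat_lit 6, nat_lit 7], [nat_lit 0, nat_lit 8, nat_lit 9], [nat_lit 1, nat_lit 5, nat_lit 10], [nat_lit 1, nat_lit 4, nat_lit 10], [nat_lit 2, nat_lit 7, nat_lit 11], [nat_lit 2, nat_lit 6], [nat_lit 3, nat_lit 11], [nat_lit 3, nat_lit 11], [nat_lit 4, nat_lit 5], [nat_lit 6, nat_lit 8, nat_lit 9]],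
  [[nat_lit 1, nat_lit 2, nat_lit 3], [nat_lit 0, nat_lit 4, nat_lit 5], [nat_lit 0, nat_lit 6, nat_lit 7], [nat_lit 0, nat_lit 6, nat_lit 7], [nat_lit 1, nat_lit 8, nat_lit 9], [nat_lit 1, nat_lit 10, nat_lit 11], [nat_lit 2, nat_lit 3, nat_lit 8], [nat_lit 2, nat_lit 3], [nat_lit 4, nat_lit 6], [nat_lit 4, nat_lit 10, nat_lit 11], [nat_lit 5, nat_lit 9], [nat_lit 5, nat_lit 9]],
  [[nat_lit 1, nat_lit 2, nat_lit 3], [nat_lit 0, nat_lit 4, nat_lit 5], [nat_lit 0, nat_lit 6, nat_lit 7], [nat_lit 0, nat_lit 8, nat_lit 9], [nat_lit 1, nat_lit 6, nat_lit 7], [nat_lit 1, nat_lit 10, nat_lit 11], [nat_lit 2, nat_lit 4, nat_lit 8], [nat_lit 2, nat_lit 4], [nat_lit 3, nat_lit 6], [nat_lit 3, nat_lit 10, nat_lit 11], [nat_lit 5, nat_lit 9], [nat_lit 5, nat_lit 9]],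
  [[nat_lit 1, nat_lit 2, nat_lit 3], [nat_lit 0, nat_lit 4, nat_lit 5], [nat_lit 0, nat_lit 6, nat_lit 7], [nat_lit 0, nat_lit 6, nat_lit 7], [nat_lit 1, nat_lit 8, nat_lit 9], [nat_lit 1, nat_lit 10, nat_lit 11], [nat_lit 2, nat_lit 3], [nat_lit 2, nat_lit 3], [nat_lit 4, nat_lit 10, nat_lit 11], [nat_lit 4, nat_lit 10], [nat_lit 5, nat_lit 8, nat_lit 9], [nat_lit 5, nat_lit 8]],
  [[nat_lit 1, nat_lit 2, nat_lit 3], [nat_lit 0, nat_lit 4, nat_lit 5], [nat_lit 0, nat_lit 6, nat_lit 7], [nat_lit 0, nat_lit 8, nat_lit 9], [nat_lit 1, nat_lit 6, nat_lit 7], [nat_lit 1, nat_lit 10, nat_lit 11], [nat_lit 2, nat_lit 4], [nat_lit 2, nat_lit 4], [nat_lit 3, nat_lit 10, nat_lit 11], [nat_lit 3, nat_lit 10], [nat_lit 5, nat_lit 8, nat_lit 9], [nat_lit 5, nat_lit 8]],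
  [[nat_lit 1, nat_lit 2, nat_lit 3], [nat_lit 0, nat_lit 4, nat_lit 5], [nat_lit 0, nat_lit 6, nat_lit 7], [nat_lit 0, nat_lit 8, nat_lit 9], [nat_lit 1, nat_lit 5, nat_lit 10], [nat_lit 1, nat_lit 4, nat_lit 10], [nat_lit 2, nat_lit 8, nat_lit 11], [nat_lit 2, nat_lit 9, nat_lit 11], [nat_lit 3, nat_lit 6], [nat_lit 3, nat_lit 7], [nat_lit 4, nat_lit 5], [nat_lit 6, nat_lit 7]],
  [[nat_lit 1, nat_lit 2, nat_lit 3], [nat_lit 0, nat_lit 4, nat_lit 5], [nat_lit 0, nat_lit 6, nat_lit 7], [nat_lit 0, nat_lit 6, nat_lit 7], [nat_lit 1, nat_lit 8, nat_lit 9], [nat_lit 1, nat_lit 8, nat_lit 10], [nat_lit 2, nat_lit 3, nat_lit 11], [nat_lit 2, nat_lit 3], [nat_lit 4, nat_lit 5], [nat_lit 4, nat_lit 11], [nat_lit 5, nat_lit 11], [nat_lit 6, nat_lit 9, nat_lit 10]],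
  [[nat_lit 1, nat_lit 2, nat_lit 3], [nat_lit 0, nat_lit 4, nat_lit 5], [nat_lit 0, nat_lit 6, nat_lit 7], [nat_lit 0, nat_lit 8, nat_lit 9], [nat_lit 1, nat_lit 6, nat_lit 8], [nat_lit 1, nat_lit 10, nat_lit 11], [nat_lit 2, nat_lit 4, nat_lit 10], [nat_lit 2, nat_lit 9, nat_lit 11], [nat_lit 3, nat_lit 4], [nat_lit 3, nat_lit 7], [nat_lit 5, nat_lit 6], [nat_lit 5, nat_lit 7]],
  [[nat_lit 1, nat_lit 2, nat_lit 3], [nat_lit 0, nat_lit 4, nat_lit 5], [nat_lit 0, nat_lit 6, nat_lit 7], [nat_lit 0, nat_lit 8, nat_lit 9], [nat_lit 1, nat_lit 5, nat_lit 10], [nat_lit 1, nat_lit 4, nat_lit 11], [nat_lit 2, nat_lit 8, nat_lit 10], [nat_lit 2, nat_lit 9, nat_lit 11], [nat_lit 3, nat_lit 6], [nat_lit 3, nat_lit 7], [nat_lit 4, nat_lit 6], [nat_lit 5, nat_lit 7]]]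

noncomputable def lv19 : List (List (List Nat)) := [
  [[nat_lit 1, nat_lit 2, nat_lit 3], [nat_lit 0, nat_lit 4, nat_lit 5], [nat_lit 0, nat_lit 6, nat_lit 7], [nat_lit 0, nat_lit 8, nat_lit 9], [nat_lit 1, nat_lit 6, nat_lit 10], [nat_lit 1, nat_lit 8, nat_lit 10], [nat_lit 2, nat_lit 4, nat_lit 11], [nat_lit 2, nat_lit 9, nat_lit 11], [nat_lit 3, nat_lit 5], [nat_lit 3, nat_lit 7], [nat_lit 4, nat_lit 5], [nat_lit 6, nat_lit 7]],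
  [[nat_lit 1, nat_lit 2, nat_lit 3], [nat_lit 0, nat_lit 4, nat_lit 5], [nat_lit 0, nat_lit 6, nat_lit 7], [nat_lit 0, nat_lit 8, nat_lit 9], [nat_lit 1, nat_lit 6, nat_lit 10], [nat_lit 1, nat_lit 8, nat_lit 11], [nat_lit 2, nat_lit 4, nat_lit 11], [nat_lit 2, nat_lit 9, nat_lit 10], [nat_lit 3, nat_lit 5], [nat_lit 3, nat_lit 7], [nat_lit 4, nat_lit 7], [nat_lit 5, nat_lit 6]],
  [[nat_lit 1, nat_lit 2, nat_lit 3], [nat_lit 0, nat_lit 4, nat_lit 5], [nat_lit 0, nat_lit 6, nat_lit 7], [nat_lit 0, nat_lit 8, nat_lit 9], [nat_lit 1, nat_lit 6, nat_lit 8], [nat_lit 1, nat_lit 7, nat_lit 10], [nat_lit 2, nat_lit 4, nat_lit 11], [nat_lit 2, nat_lit 5], [nat_lit 3, nat_lit 4], [nat_lit 3, nat_lit 11], [nat_lit 5, nat_lit 11], [nat_lit 6, nat_lit 9, nat_lit 10]],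
  [[nat_lit 1, nat_lit 2, nat_lit 3], [nat_lit 0, nat_lit 4, nat_lit 5], [nat_lit 0, nat_lit 6, nat_lit 7], [nat_lit 0, nat_lit 8, nat_lit 9], [nat_lit 1, nat_lit 6, nat_lit 10], [nat_lit 1, nat_lit 8, nat_lit 10], [nat_lit 2, nat_lit 4, nat_lit 11], [nat_lit 2, nat_lit 11], [nat_lit 3, nat_lit 5], [nat_lit 3, nat_lit 11], [nat_lit 4, nat_lit 5], [nat_lit 6, nat_lit 7, nat_lit 9]],
  [[nat_lit 1, nat_lit 2, nat_lit 3], [nat_lit 0, nat_lit 4, nat_lit 5], [nat_lit 0, nat_lit 6, nat_lit 7], [nat_lit 0, nat_lit 6, nat_lit 7], [nat_lit 1, nat_lit 8, nat_lit 9], [nat_lit 1, nat_lit 10, nat_lit 11], [nat_lit 2, nat_lit 3, nat_lit 8], [nat_lit 2, nat_lit 3], [nat_lit 4, nat_lit 6], [nat_lit 4, nat_lit 10], [nat_lit 5, nat_lit 9, nat_lit 11], [nat_lit 5, nat_lit 10]],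
  [[nat_lit 1, nat_lit 2, nat_lit 3], [nat_lit 0, nat_lit 4, nat_lit 5], [nat_lit 0, nat_lit 6, nat_lit 7], [nat_lit 0, nat_lit 8, nat_lit 9], [nat_lit 1, nat_lit 6, nat_lit 10], [nat_lit 1, nat_lit 8, nat_lit 11], [nat_lit 2, nat_lit 4], [nat_lit 2, nat_lit 10, nat_lit 11], [nat_lit 3, nat_lit 5], [nat_lit 3, nat_lit 10], [nat_lit 4, nat_lit 7, nat_lit 9], [nat_lit 5, nat_lit 7]],
  [[nat_lit 1, nat_lit 2, nat_lit 3], [nat_lit 0, nat_lit 4, nat_lit 5], [nat_lit 0, nat_lit 6, nat_lit 7], [nat_lit 0, nat_lit 8, nat_lit 9], [nat_lit 1, nat_lit 6, nat_lit 8], [nat_lit 1, nat_lit 10, nat_lit 11], [nat_lit 2, nat_lit 4], [nat_lit 2, nat_lit 9, nat_lit 10], [nat_lit 3, nat_lit 4], [nat_lit 3, nat_lit 7], [nat_lit 5, nat_lit 7, nat_lit 11], [nat_lit 5, nat_lit 10]],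
  [[nat_lit 1, nat_lit 2, nat_lit 3], [nat_lit 0, nat_lit 4, nat_lit 5], [nat_lit 0, nat_lit 6, nat_lit 7], [nat_lit 0, nat_lit 8, nat_lit 9], [nat_lit 1, nat_lit 6, nat_lit 10], [nat_lit 1, nat_lit 7, nat_lit 11], [nat_lit 2, nat_lit 4], [nat_lit 2, nat_lit 5], [nat_lit 3, nat_lit 10, nat_lit 11], [nat_lit 3, nat_lit 10], [nat_lit 4, nat_lit 8, nat_lit 9], [nat_lit 5, nat_lit 8]],
  [[nat_lit 1, nat_lit 2, nat_lit 3], [nat_lit 0, nat_lit 4, nat_lit 5], [nat_lit 0, nat_lit 6, nat_lit 7], [nat_lit 0, nat_lit 8, nat_lit 9], [nat_lit 1, nat_lit 5, nat_lit 10], [nat_lit 1, nat_lit 4, nat_lit 10], [nat_lit 2, nat_lit 8, nat_lit 11], [nat_lit 2, nat_lit 11], [nat_lit 3, nat_lit 6], [nat_lit 3, nat_lit 11], [nat_lit 4, nat_lit 5], [nat_lit 6, nat_lit 7, nat_lit 9]],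
  [[nat_lit 1, nat_lit 2, nat_lit 3], [nat_lit 0, nat_lit 4, nat_lit 5], [nat_lit 0, nat_lit 6, nat_lit 7], [nat_lit 0, nat_lit 6, nat_lit 7], [nat_lit 1, nat_lit 8, nat_lit 9], [nat_lit 1, nat_lit 8, nat_lit 10], [nat_lit 2, nat_lit 3, nat_lit 11], [nat_lit 2, nat_lit 3], [nat_lit 4, nat_lit 5], [nat_lit 4, nat_lit 10, nat_lit 11], [nat_lit 5, nat_lit 9], [nat_lit 6, nat_lit 9]],
  [[nat_lit 1, nat_lit 2, nat_lit 3], [nat_lit 0, nat_lit 4, nat_lit 5], [nat_lit 0, nat_lit 6, nat_lit 7], [nat_lit 0, nat_lit 8, nat_lit 9], [nat_lit 1, nat_lit 6, nat_lit 7], [nat_lit 1, nat_lit 8, nat_lit 10], [nat_lit 2, nat_lit 4, nat_lit 11], [nat_lit 2, nat_lit 4], [nat_lit 3, nat_lit 5], [nat_lit 3, nat_lit 10, nat_lit 11], [nat_lit 5, nat_lit 9], [nat_lit 6, nat_lit 9]],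
  [[nat_lit 1, nat_lit 2, nat_lit 3], [nat_lit 0, nat_lit 4, nat_lit 5], [nat_lit 0, nat_lit 6, nat_lit 7], [nat_lit 0, nat_lit 8, nat_lit 9], [nat_lit 1, nat_lit 6, nat_lit 8], [nat_lit 1, nat_lit 7, nat_lit 10], [nat_lit 2, nat_lit 4, nat_lit 11], [nat_lit 2, nat_lit 5], [nat_lit 3, nat_lit 4], [nat_lit 3, nat_lit 10, nat_lit 11], [nat_lit 5, nat_lit 9], [nat_lit 6, nat_lit 9]],
  [[nat_lit 1, nat_lit 2, nat_lit 3], [nat_lit 0, nat_lit 4, nat_lit 5], [nat_lit 0, nat_lit 6, nat_lit 7], [nat_lit 0, nat_lit 8, nat_lit 9], [nat_lit 1, nat_lit 6, nat_lit 8], [nat_lit 1, nat_lit 10, nat_lit 11], [nat_lit 2, nat_lit 4, nat_lit 10], [nat_lit 2, nat_lit 9], [nat_lit 3, nat_lit 4], [nat_lit 3, nat_lit 7, nat_lit 11], [nat_lit 5, nat_lit 6], [nat_lit 5, nat_lit 9]],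
  [[nat_lit 1, nat_lit 2, nat_lit 3], [nat_lit 0, nat_lit 4, nat_lit 5], [nat_lit 0, nat_lit 6, nat_lit 7], [nat_lit 0, nat_lit 8, nat_lit 9], [nat_lit 1, nat_lit 6, nat_lit 8], [nat_lit 1, nat_lit 10, nat_lit 11], [nat_lit 2, nat_lit 4, nat_lit 10], [nat_lit 2, nat_lit 11], [nat_lit 3, nat_lit 4], [nat_lit 3, nat_lit 11], [nat_lit 5, nat_lit 6], [nat_lit 5, nat_lit 7, nat_lit 9]],
  [[nat_lit 1, nat_lit 2, nat_lit 3], [nat_lit 0, nat_lit 4, nat_lit 5], [nat_lit 0, nat_lit 6, nat_lit 7], [nat_lit 0, nat_lit 8, nat_lit 9], [nat_lit 1, nat_lit 6, nat_lit 10], [nat_lit 1, nat_lit 11], [nat_lit 2, nat_lit 4], [nat_lit 2, nat_lit 10, nat_lit 11], [nat_lit 3, nat_lit 10], [nat_lit 3, nat_lit 11], [nat_lit 4, nat_lit 7, nat_lit 8], [nat_lit 5, nat_lit 7, nat_lit 9]],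
  [[nat_lit 1, nat_lit 2, nat_lit 3], [nat_lit 0, nat_lit 4, nat_lit 5], [nat_lit 0, nat_lit 6, nat_lit 7], [nat_lit 0, nat_lit 8, nat_lit 9], [nat_lit 1, nat_lit 6, nat_lit 8], [nat_lit 1, nat_lit 10, nat_lit 11], [nat_lit 2, nat_lit 4], [nat_lit 2, nat_lit 8], [nat_lit 3, nat_lit 4, nat_lit 7], [nat_lit 3, nat_lit 10], [nat_lit 5, nat_lit 9, nat_lit 11], [nat_lit 5, nat_lit 10]],
  [[nat_lit 1, nat_lit 2, nat_lit 3], [nat_lit 0, nat_lit 4, nat_lit 5], [nat_lit 0, nat_lit 6, nat_lit 7], [nat_lit 0, nat_lit 8, nat_lit 9], [nat_lit 1, nat_lit 6, nat_lit 10], [nat_lit 1, nat_lit 7, nat_lit 11], [nat_lit 2, nat_lit 4], [nat_lit 2, nat_lit 5], [nat_lit 3, nat_lit 10], [nat_lit 3, nat_lit 11], [nat_lit 4, nat_lit 8, nat_lit 11], [nat_lit 5, nat_lit 9, nat_lit 10]],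
  [[nat_lit 1, nat_lit 2, nat_lit 3], [nat_lit 0, nat_lit 4, nat_lit 5], [nat_lit 0, nat_lit 6, nat_lit 7], [nat_lit 0, nat_lit 8, nat_lit 9], [nat_lit 1, nat_lit 6, nat_lit 10], [nat_lit 1, nat_lit 11], [nat_lit 2, nat_lit 4], [nat_lit 2, nat_lit 10], [nat_lit 3, nat_lit 10, nat_lit 11], [nat_lit 3, nat_lit 11], [nat_lit 4, nat_lit 7, nat_lit 8], [nat_lit 5, nat_lit 8, nat_lit 9]],
  [[nat_lit 1, nat_lit 2, nat_lit 3], [nat_lit 0, nat_lit 4, nat_lit 5], [nat_lit 0, nat_lit 6, nat_lit 7], [nat_lit 0, nat_lit 8, nat_lit 9], [nat_lit 1, nat_lit 5, nat_lit 10], [nat_lit 1, nat_lit 4, nat_lit 10], [nat_lit 2, nat_lit 7, nat_lit 11], [nat_lit 2, nat_lit 6, nat_lit 11], [nat_lit 3], [nat_lit 3], [nat_lit 4, nat_lit 5], [nat_lit 6, nat_lit 7]],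
  [[nat_lit 1, nat_lit 2, nat_lit 3], [nat_lit 0, nat_lit 4, nat_lit 5], [nat_lit 0, nat_lit 6, nat_lit 7], [nat_lit 0, nat_lit 8, nat_lit 9], [nat_lit 1, nat_lit 6, nat_lit 10], [nat_lit 1, nat_lit 7, nat_lit 10], [nat_lit 2, nat_lit 4, nat_lit 11], [nat_lit 2, nat_lit 5, nat_lit 11], [nat_lit 3], [nat_lit 3], [nat_lit 4, nat_lit 5], [nat_lit 6, nat_lit 7]],
  [[nat_lit 1, nat_lit 2, nat_lit 3], [nat_lit 0, nat_lit 4, nat_lit 5], [nat_lit 0, nat_lit 6, nat_lit 7], [nat_lit 0, nat_lit 8, nat_lit 9], [nat_lit 1, nat_lit 6, nat_lit 10], [nat_lit 1, nat_lit 7, nat_lit 11], [nat_lit 2, nat_lit 4, nat_lit 11], [nat_lit 2, nat_lit 5, nat_lit 10], [nat_lit 3], [nat_lit 3], [nat_lit 4, nat_lit 7], [nat_lit 5, nat_lit 6]],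
  [[nat_lit 1, nat_lit 2, nat_lit 3], [nat_lit 0, nat_lit 4, nat_lit 5], [nat_lit 0, nat_lit 6, nat_lit 7], [nat_lit 0, nat_lit 6, nat_lit 7], [nat_lit 1, nat_lit 8, nat_lit 9], [nat_lit 1, nat_lit 8, nat_lit 10], [nat_lit 2, nat_lit 3, nat_lit 11], [nat_lit 2, nat_lit 3, nat_lit 11], [nat_lit 4, nat_lit 5], [nat_lit 4], [nat_lit 5], [nat_lit 6, nat_lit 7]],
  [[nat_lit 1, nat_lit 2, nat_lit 3], [nat_lit 0, nat_lit 4, nat_lit 5], [nat_lit 0, nat_lit 6, nat_lit 7], [nat_lit 0, nat_lit 8, nat_lit 9], [nat_lit 1, nat_lit 5, nat_lit 10], [nat_lit 1, nat_lit 4, nat_lit 11], [nat_lit 2, nat_lit 7, nat_lit 10], [nat_lit 2, nat_lit 6], [nat_lit 3, nat_lit 9, nat_lit 11], [nat_lit 3, nat_lit 8], [nat_lit 4, nat_lit 6], [nat_lit 5, nat_lit 8]],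
  [[nat_lit 1, nat_lit 2, nat_lit 3], [nat_lit 0, nat_lit 4, nat_lit 5], [nat_lit 0, nat_lit 4, nat_lit 6], [nat_lit 0, nat_lit 7, nat_lit 8], [nat_lit 1, nat_lit 2, nat_lit 9], [nat_lit 1, nat_lit 10, nat_lit 11], [nat_lit 2, nat_lit 10], [nat_lit 3, nat_lit 8, nat_lit 9], [nat_lit 3, nat_lit 7], [nat_lit 4, nat_lit 7], [nat_lit 5, nat_lit 6, nat_lit 11], [nat_lit 5, nat_lit 10]],
  [[nat_lit 1, nat_lit 2, nat_lit 3], [nat_lit 0, nat_lit 4, nat_lit 5], [nat_lit 0, nat_lit 6, nat_lit 7], [nat_lit 0, nat_lit 8, nat_lit 9], [nat_lit 1, nat_lit 5, nat_lit 10], [nat_lit 1, nat_lit 4, nat_lit 11], [nat_lit 2, nat_lit 8, nat_lit 10], [nat_lit 2, nat_lit 9], [nat_lit 3, nat_lit 6], [nat_lit 3, nat_lit 7, nat_lit 11], [nat_lit 4, nat_lit 6], [nat_lit 5, nat_lit 9]],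
  [[nat_lit 1, nat_lit 2, nat_lit 3], [nat_lit 0, nat_lit 4, nat_lit 5], [nat_lit 0, nat_lit 6, nat_lit 7], [nat_lit 0, nat_lit 8, nat_lit 9], [nat_lit 1, nat_lit 6, nat_lit 10], [nat_lit 1, nat_lit 8, nat_lit 11], [nat_lit 2, nat_lit 4], [nat_lit 2, nat_lit 10], [nat_lit 3, nat_lit 5], [nat_lit 3, nat_lit 10, nat_lit 11], [nat_lit 4, nat_lit 7, nat_lit 9], [nat_lit 5, nat_lit 9]],
  [[nat_lit 1, nat_lit 2, nat_lit 3], [nat_lit 0, nat_lit 4, nat_lit 5], [nat_lit 0, nat_lit 6, nat_lit 7], [nat_lit 0, nat_lit 8, nat_lit 9], [nat_lit 1, nat_lit 6, nat_lit 10], [nat_lit 1, nat_lit 8, nat_lit 11], [nat_lit 2, nat_lit 4], [nat_lit 2, nat_lit 9, nat_lit 11], [nat_lit 3, nat_lit 5], [nat_lit 3, nat_lit 7, nat_lit 10], [nat_lit 4, nat_lit 9], [nat_lit 5, nat_lit 7]],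
  [[nat_lit 1, nat_lit 2, nat_lit 3], [nat_lit 0, nat_lit 4, nat_lit 5], [nat_lit 0, nat_lit 6, nat_lit 7], [nat_lit 0, nat_lit 6, nat_lit 7], [nat_lit 1, nat_lit 8, nat_lit 9], [nat_lit 1, nat_lit 10, nat_lit 11], [nat_lit 2, nat_lit 3, nat_lit 8], [nat_lit 2, nat_lit 3], [nat_lit 4, nat_lit 6, nat_lit 10], [nat_lit 4], [nat_lit 5, nat_lit 8], [nat_lit 5]],
  [[nat_lit 1, nat_lit 2, nat_lit 3], [nat_lit 0, nat_lit 4, nat_lit 5], [nat_lit 0, nat_lit 6, nat_lit 7], [nat_lit 0, nat_lit 8, nat_lit 9], [nat_lit 1, nat_lit 6, nat_lit 7], [nat_lit 1, nat_lit 8, nat_lit 10], [nat_lit 2, nat_lit 4, nat_lit 11], [nat_lit 2, nat_lit 4], [nat_lit 3, nat_lit 5, nat_lit 11], [nat_lit 3], [nat_lit 5], [nat_lit 6, nat_lit 8]],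
  [[nat_lit 1, nat_lit 2, nat_lit 3], [nat_lit 0, nat_lit 4, nat_lit 5], [nat_lit 0, nat_lit 6, nat_lit 7], [nat_lit 0, nat_lit 8, nat_lit 9], [nat_lit 1, nat_lit 5, nat_lit 10], [nat_lit 1, nat_lit 4, nat_lit 10], [nat_lit 2, nat_lit 8, nat_lit 11], [nat_lit 2], [nat_lit 3, nat_lit 6, nat_lit 11], [nat_lit 3], [nat_lit 4, nat_lit 5], [nat_lit 6, nat_lit 8]],
  [[nat_lit 1, nat_lit 2, nat_lit 3], [nat_lit 0, nat_lit 4, nat_lit 5], [nat_lit 0, nat_lit 4, nat_lit 6], [nat_lit 0, nat_lit 7, nat_lit 8], [nat_lit 1, nat_lit 2, nat_lit 9], [nat_lit 1, nat_lit 10, nat_lit 11], [nat_lit 2, nat_lit 10, nat_lit 11], [nat_lit 3, nat_lit 8, nat_lit 9], [nat_lit 3, nat_lit 7], [nat_lit 4, nat_lit 7], [nat_lit 5, nat_lit 6], [nat_lit 5, nat_lit 6]],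
  [[nat_lit 1, nat_lit 2, nat_lit 3], [nat_lit 0, nat_lit 4, nat_lit 5], [nat_lit 0, nat_lit 4, nat_lit 6], [nat_lit 0, nat_lit 7, nat_lit 8], [nat_lit 1, nat_lit 2, nat_lit 9], [nat_lit 1, nat_lit 10, nat_lit 11], [nat_lit 2, nat_lit 10], [nat_lit 3, nat_lit 9], [nat_lit 3], [nat_lit 4, nat_lit 7], [nat_lit 5, nat_lit 6], [nat_lit 5]]]

noncomputable def lv20 : List (List (List Nat)) := [
  [[nat_lit 1, nat_lit 2, nat_lit 3], [nat_lit 0, nat_lit 4, nat_lit 5], [nat_lit 0, nat_lit 6, nat_lit 7], [nat_lit 0, nat_lit 8, nat_lit 9], [nat_lit 1, nat_lit 6, nat_lit 7], [nat_lit 1], [nat_lit 2, nat_lit 4, nat_lit 10], [nat_lit 2, nat_lit 4, nat_lit 11], [nat_lit 3], [nat_lit 3], [nat_lit 6, nat_lit 11], [nat_lit 7, nat_lit 10]],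
  [[nat_lit 1, nat_lit 2, nat_lit 3], [nat_lit 0, nat_lit 4, nat_lit 5], [nat_lit 0, nat_lit 6, nat_lit 7], [nat_lit 0, nat_lit 8, nat_lit 9], [nat_lit 1, nat_lit 6, nat_lit 10], [nat_lit 1, nat_lit 10, nat_lit 11], [nat_lit 2, nat_lit 4], [nat_lit 2, nat_lit 11], [nat_lit 3, nat_lit 11], [nat_lit 3], [nat_lit 4, nat_lit 5], [nat_lit 5, nat_lit 7, nat_lit 8]],
  [[nat_lit 1, nat_lit 2, nat_lit 3], [nat_lit 0, nat_lit 4, nat_lit 5], [nat_lit 0, nat_lit 6, nat_lit 7], [nat_lit 0, nat_lit 8, nat_lit 9], [nat_lit 1, nat_lit 6, nat_lit 10], [nat_lit 1, nat_lit 7, nat_lit 11], [nat_lit 2, nat_lit 4], [nat_lit 2, nat_lit 5], [nat_lit 3, nat_lit 10], [nat_lit 3], [nat_lit 4, nat_lit 8, nat_lit 11], [nat_lit 5, nat_lit 10]],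
  [[nat_lit 1, nat_lit 2, nat_lit 3], [nat_lit 0, nat_lit 4, nat_lit 5], [nat_lit 0, nat_lit 6, nat_lit 7], [nat_lit 0, nat_lit 8, nat_lit 9], [nat_lit 1, nat_lit 6, nat_lit 10], [nat_lit 1, nat_lit 11], [nat_lit 2, nat_lit 4], [nat_lit 2, nat_lit 10, nat_lit 11], [nat_lit 3, nat_lit 11], [nat_lit 3], [nat_lit 4, nat_lit 7], [nat_lit 5, nat_lit 7, nat_lit 8]],
  [[nat_lit 1, nat_lit 2, nat_lit 3], [nat_lit 0, nat_lit 4, nat_lit 5], [nat_lit 0, nat_lit 6, nat_lit 7], [nat_lit 0, nat_lit 6, nat_lit 7], [nat_lit 1, nat_lit 8, nat_lit 9], [nat_lit 1, nat_lit 10, nat_lit 11], [nat_lit 2, nat_lit 3], [nat_lit 2, nat_lit 3], [nat_lit 4, nat_lit 9, nat_lit 10], [nat_lit 4, nat_lit 8], [nat_lit 5, nat_lit 8], [nat_lit 5]],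
  [[nat_lit 1, nat_lit 2, nat_lit 3], [nat_lit 0, nat_lit 4, nat_lit 5], [nat_lit 0, nat_lit 6, nat_lit 7], [nat_lit 0, nat_lit 8, nat_lit 9], [nat_lit 1, nat_lit 6, nat_lit 10], [nat_lit 1, nat_lit 8, nat_lit 11], [nat_lit 2, nat_lit 4], [nat_lit 2, nat_lit 10], [nat_lit 3, nat_lit 5], [nat_lit 3, nat_lit 10], [nat_lit 4, nat_lit 7, nat_lit 9], [nat_lit 5]],
  [[nat_lit 1, nat_lit 2, nat_lit 3], [nat_lit 0, nat_lit 4, nat_lit 5], [nat_lit 0, nat_lit 6, nat_lit 7], [nat_lit 0, nat_lit 8, nat_lit 9], [nat_lit 1, nat_lit 6, nat_lit 10], [nat_lit 1, nat_lit 7, nat_lit 11], [nat_lit 2, nat_lit 4], [nat_lit 2, nat_lit 5], [nat_lit 3, nat_lit 10], [nat_lit 3, nat_lit 10], [nat_lit 4, nat_lit 8, nat_lit 9], [nat_lit 5]],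
  [[nat_lit 1, nat_lit 2, nat_lit 3], [nat_lit 0, nat_lit 4, nat_lit 5], [nat_lit 0, nat_lit 6, nat_lit 7], [nat_lit 0, nat_lit 8, nat_lit 9], [nat_lit 1, nat_lit 6, nat_lit 7], [nat_lit 1, nat_lit 10, nat_lit 11], [nat_lit 2, nat_lit 4, nat_lit 8], [nat_lit 2, nat_lit 4], [nat_lit 3, nat_lit 6], [nat_lit 3], [nat_lit 5], [nat_lit 5]],
  [[nat_lit 1, nat_lit 2, nat_lit 3], [nat_lit 0, nat_lit 4, nat_lit 5], [nat_lit 0, nat_lit 6, nat_lit 7], [nat_lit 0, nat_lit 8, nat_lit 9], [nat_lit 1, nat_lit 6, nat_lit 10], [nat_lit 1, nat_lit 7, nat_lit 10], [nat_lit 2, nat_lit 4, nat_lit 11], [nat_lit 2, nat_lit 5], [nat_lit 3], [nat_lit 3], [nat_lit 4, nat_lit 5], [nat_lit 6]],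
  [[nat_lit 1, nat_lit 2, nat_lit 3], [nat_lit 0, nat_lit 4, nat_lit 5], [nat_lit 0, nat_lit 6, nat_lit 7], [nat_lit 0, nat_lit 8, nat_lit 9], [nat_lit 1, nat_lit 6, nat_lit 10], [nat_lit 1, nat_lit 7, nat_lit 11], [nat_lit 2, nat_lit 4], [nat_lit 2, nat_lit 5, nat_lit 10], [nat_lit 3], [nat_lit 3], [nat_lit 4, nat_lit 7], [nat_lit 5]],
  [[nat_lit 1, nat_lit 2, nat_lit 3], [nat_lit 0, nat_lit 4, nat_lit 5], [nat_lit 0, nat_lit 6, nat_lit 7], [nat_lit 0, nat_lit 8, nat_lit 9], [nat_lit 1, nat_lit 6, nat_lit 10], [nat_lit 1, nat_lit 10], [nat_lit 2, nat_lit 4, nat_lit 11], [nat_lit 2], [nat_lit 3], [nat_lit 3], [nat_lit 4, nat_lit 5, nat_lit 11], [nat_lit 6, nat_lit 10]],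
  [[nat_lit 1, nat_lit 2, nat_lit 3], [nat_lit 0, nat_lit 4, nat_lit 5], [nat_lit 0, nat_lit 6, nat_lit 7], [nat_lit 0, nat_lit 8, nat_lit 9], [nat_lit 1, nat_lit 6, nat_lit 10], [nat_lit 1, nat_lit 11], [nat_lit 2, nat_lit 4, nat_lit 11], [nat_lit 2, nat_lit 11], [nat_lit 3], [nat_lit 3], [nat_lit 4], [nat_lit 5, nat_lit 6, nat_lit 7]],
  [[nat_lit 1, nat_lit 2, nat_lit 3], [nat_lit 0, nat_lit 4, nat_lit 5], [nat_lit 0, nat_lit 6, nat_lit 7], [nat_lit 0, nat_lit 8, nat_lit 9], [nat_lit 1, nat_lit 5, nat_lit 10], [nat_lit 1, nat_lit 4, nat_lit 10], [nat_lit 2, nat_lit 8, nat_lit 11], [nat_lit 2], [nat_lit 3, nat_lit 6], [nat_lit 3], [nat_lit 4, nat_lit 5], [nat_lit 6]],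
  [[nat_lit 1, nat_lit 2, nat_lit 3], [nat_lit 0, nat_lit 4, nat_lit 5], [nat_lit 0, nat_lit 6, nat_lit 7], [nat_lit 0, nat_lit 6, nat_lit 7], [nat_lit 1, nat_lit 8, nat_lit 9], [nat_lit 1, nat_lit 8, nat_lit 10], [nat_lit 2, nat_lit 3, nat_lit 11], [nat_lit 2, nat_lit 3], [nat_lit 4, nat_lit 5], [nat_lit 4], [nat_lit 5], [nat_lit 6]],
  [[nat_lit 1, nat_lit 2, nat_lit 3], [nat_lit 0, nat_lit 4, nat_lit 5], [nat_lit 0, nat_lit 6, nat_lit 7], [nat_lit 0, nat_lit 8, nat_lit 9], [nat_lit 1, nat_lit 6, nat_lit 8], [nat_lit 1, nat_lit 7, nat_lit 10], [nat_lit 2, nat_lit 4, nat_lit 11], [nat_lit 2, nat_lit 5], [nat_lit 3, nat_lit 4], [nat_lit 3], [nat_lit 5], [nat_lit 6]],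
  [[nat_lit 1, nat_lit 2, nat_lit 3], [nat_lit 0, nat_lit 4, nat_lit 5], [nat_lit 0, nat_lit 6, nat_lit 7], [nat_lit 0, nat_lit 8, nat_lit 9], [nat_lit 1, nat_lit 6, nat_lit 8], [nat_lit 1], [nat_lit 2, nat_lit 4, nat_lit 10], [nat_lit 2, nat_lit 10, nat_lit 11], [nat_lit 3, nat_lit 4], [nat_lit 3], [nat_lit 6, nat_lit 7], [nat_lit 7]],
  [[nat_lit 1, nat_lit 2, nat_lit 3], [nat_lit 0, nat_lit 4], [nat_lit 0, nat_lit 5, nat_lit 6], [nat_lit 0, nat_lit 5, nat_lit 6], [nat_lit 1, nat_lit 7, nat_lit 8], [nat_lit 2, nat_lit 3, nat_lit 11], [nat_lit 2, nat_lit 3], [nat_lit 4, nat_lit 9, nat_lit 11], [nat_lit 4], [nat_lit 7], [nat_lit 11], [nat_lit 5, nat_lit 7, nat_lit 10]],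
  [[nat_lit 1, nat_lit 2, nat_lit 3], [nat_lit 0, nat_lit 4, nat_lit 5], [nat_lit 0, nat_lit 6, nat_lit 7], [nat_lit 0, nat_lit 8, nat_lit 9], [nat_lit 1, nat_lit 6, nat_lit 10], [nat_lit 1], [nat_lit 2, nat_lit 4, nat_lit 11], [nat_lit 2, nat_lit 11], [nat_lit 3, nat_lit 11], [nat_lit 3], [nat_lit 4], [nat_lit 6, nat_lit 7, nat_lit 8]],
  [[nat_lit 1, nat_lit 2, nat_lit 3], [nat_lit 0, nat_lit 4, nat_lit 5], [nat_lit 0, nat_lit 6, nat_lit 7], [nat_lit 0, nat_lit 8, nat_lit 9], [nat_lit 1, nat_lit 6, nat_lit 8], [nat_lit 1, nat_lit 10, nat_lit 11], [nat_lit 2, nat_lit 4, nat_lit 10], [nat_lit 2], [nat_lit 3, nat_lit 4], [nat_lit 3], [nat_lit 5, nat_lit 6], [nat_lit 5]],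
  [[nat_lit 1, nat_lit 2, nat_lit 3], [nat_lit 0, nat_lit 4, nat_lit 5], [nat_lit 0, nat_lit 6, nat_lit 7], [nat_lit 0, nat_lit 6, nat_lit 7], [nat_lit 1, nat_lit 8, nat_lit 9], [nat_lit 1, nat_lit 10, nat_lit 11], [nat_lit 2, nat_lit 3], [nat_lit 2, nat_lit 3], [nat_lit 4, nat_lit 10], [nat_lit 4, nat_lit 10], [nat_lit 5, nat_lit 8, nat_lit 9], [nat_lit 5]],
  [[nat_lit 1, nat_lit 2, nat_lit 3], [nat_lit 0, nat_lit 4, nat_lit 5], [nat_lit 0, nat_lit 6, nat_lit 7], [nat_lit 0, nat_lit 8, nat_lit 9], [nat_lit 1, nat_lit 5, nat_lit 10], [nat_lit 1, nat_lit 4], [nat_lit 2, nat_lit 7, nat_lit 11], [nat_lit 2, nat_lit 6], [nat_lit 3, nat_lit 10, nat_lit 11], [nat_lit 3], [nat_lit 4, nat_lit 8], [nat_lit 6, nat_lit 8]],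
  [[nat_lit 1, nat_lit 2, nat_lit 3], [nat_lit 0, nat_lit 4, nat_lit 5], [nat_lit 0, nat_lit 6, nat_lit 7], [nat_lit 0, nat_lit 8, nat_lit 9], [nat_lit 1, nat_lit 6, nat_lit 7], [nat_lit 1, nat_lit 10, nat_lit 11], [nat_lit 2, nat_lit 4], [nat_lit 2, nat_lit 4], [nat_lit 3, nat_lit 10], [nat_lit 3, nat_lit 10], [nat_lit 5, nat_lit 8, nat_lit 9], [nat_lit 5]],
  [[nat_lit 1, nat_lit 2, nat_lit 3], [nat_lit 0, nat_lit 4, nat_lit 5], [nat_lit 0, nat_lit 6, nat_lit 7], [nat_lit 0, nat_lit 8, nat_lit 9], [nat_lit 1, nat_lit 6, nat_lit 10], [nat_lit 1, nat_lit 7, nat_lit 11], [nat_lit 2, nat_lit 4], [nat_lit 2, nat_lit 5], [nat_lit 3, nat_lit 10, nat_lit 11], [nat_lit 3], [nat_lit 4, nat_lit 8], [nat_lit 5, nat_lit 8]],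
  [[nat_lit 1, nat_lit 2, nat_lit 3], [nat_lit 0, nat_lit 4], [nat_lit 0, nat_lit 5, nat_lit 6], [nat_lit 0, nat_lit 7, nat_lit 8], [nat_lit 1, nat_lit 5, nat_lit 9], [nat_lit 2, nat_lit 4, nat_lit 11], [nat_lit 2, nat_lit 8, nat_lit 9], [nat_lit 3], [nat_lit 3, nat_lit 6, nat_lit 10], [nat_lit 4, nat_lit 6], [nat_lit 8], [nat_lit 5]],
  [[nat_lit 1, nat_lit 2, nat_lit 3], [nat_lit 0, nat_lit 4, nat_lit 5], [nat_lit 0, nat_lit 6], [nat_lit 0, nat_lit 7, nat_lit 8], [nat_lit 1, nat_lit 6], [nat_lit 1, nat_lit 7, nat_lit 9], [nat_lit 2, nat_lit 4, nat_lit 11], [nat_lit 3, nat_lit 5, nat_lit 11], [nat_lit 3], [nat_lit 5], [nat_lit 11], [nat_lit 6, nat_lit 7, nat_lit 10]],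
  [[nat_lit 1, nat_lit 2, nat_lit 3], [nat_lit 0, nat_lit 4, nat_lit 5], [nat_lit 0, nat_lit 6], [nat_lit 0, nat_lit 7, nat_lit 8], [nat_lit 1, nat_lit 6, nat_lit 9], [nat_lit 1, nat_lit 10, nat_lit 11], [nat_lit 2, nat_lit 4, nat_lit 10], [nat_lit 3, nat_lit 11], [nat_lit 3, nat_lit 11], [nat_lit 4], [nat_lit 5, nat_lit 6], [nat_lit 5, nat_lit 7, nat_lit 8]],
  [[nat_lit 1], [nat_lit 0, nat_lit 2, nat_lit 3], [nat_lit 1, nat_lit 8, nat_lit 9], [nat_lit 1, nat_lit 10, nat_lit 11], [nat_lit 8], [nat_lit 10, nat_lit 11], [nat_lit 9], [nat_lit 9], [nat_lit 2, nat_lit 4, nat_lit 11], [nat_lit 2, nat_lit 6, nat_lit 7], [nat_lit 3, nat_lit 5], [nat_lit 3, nat_lit 5, nat_lit 8]],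
  [[nat_lit 1, nat_lit 2, nat_lit 3], [nat_lit 0, nat_lit 4, nat_lit 5], [nat_lit 0, nat_lit 6, nat_lit 7], [nat_lit 0, nat_lit 8, nat_lit 9], [nat_lit 1, nat_lit 6, nat_lit 7], [nat_lit 1, nat_lit 10, nat_lit 11], [nat_lit 2, nat_lit 4], [nat_lit 2, nat_lit 4], [nat_lit 3], [nat_lit 3], [nat_lit 5], [nat_lit 5]],
  [[nat_lit 1, nat_lit 2, nat_lit 3], [nat_lit 0, nat_lit 4, nat_lit 5], [nat_lit 0, nat_lit 6, nat_lit 7], [nat_lit 0, nat_lit 8, nat_lit 9], [nat_lit 1, nat_lit 6, nat_lit 10], [nat_lit 1, nat_lit 7, nat_lit 11], [nat_lit 2, nat_lit 4], [nat_lit 2, nat_lit 5], [nat_lit 3], [nat_lit 3], [nat_lit 4], [nat_lit 5]],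
  [[nat_lit 1, nat_lit 2, nat_lit 3], [nat_lit 0, nat_lit 4, nat_lit 5], [nat_lit 0, nat_lit 6, nat_lit 7], [nat_lit 0, nat_lit 8, nat_lit 9], [nat_lit 1, nat_lit 6, nat_lit 10], [nat_lit 1], [nat_lit 2, nat_lit 4, nat_lit 11], [nat_lit 2], [nat_lit 3], [nat_lit 3], [nat_lit 4], [nat_lit 6]],
  [[nat_lit 1, nat_lit 2, nat_lit 3], [nat_lit 0, nat_lit 4, nat_lit 5], [nat_lit 0], [nat_lit 0, nat_lit 6, nat_lit 7], [nat_lit 1, nat_lit 8, nat_lit 9], [nat_lit 1, nat_lit 10, nat_lit 11], [nat_lit 3, nat_lit 9], [nat_lit 3], [nat_lit 4], [nat_lit 4, nat_lit 6, nat_lit 11], [nat_lit 5], [nat_lit 5, nat_lit 9]],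
  [[nat_lit 1, nat_lit 2, nat_lit 3], [nat_lit 0, nat_lit 4, nat_lit 5], [nat_lit 0, nat_lit 6, nat_lit 7], [nat_lit 0, nat_lit 8, nat_lit 9], [nat_lit 1, nat_lit 6, nat_lit 10], [nat_lit 1, nat_lit 11, nat_lit 12], [nat_lit 2, nat_lit 4], [nat_lit 2, nat_lit 10], [nat_lit 3, nat_lit 11], [nat_lit 3, nat_lit 12], [nat_lit 4, nat_lit 7], [nat_lit 5, nat_lit 8], [nat_lit 5, nat_lit 9]]]

noncomputable def lv21 : List (List (List Nat)) := [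
  [[nat_lit 1, nat_lit 2, nat_lit 3], [nat_lit 0, nat_lit 4, nat_lit 5], [nat_lit 0, nat_lit 6, nat_lit 7], [nat_lit 0, nat_lit 8, nat_lit 9], [nat_lit 1, nat_lit 6, nat_lit 10], [nat_lit 1, nat_lit 11, nat_lit 12], [nat_lit 2, nat_lit 4], [nat_lit 2, nat_lit 11], [nat_lit 3, nat_lit 10], [nat_lit 3, nat_lit 12], [nat_lit 4, nat_lit 8], [nat_lit 5, nat_lit 7], [nat_lit 5, nat_lit 9]],
  [[nat_lit 1, nat_lit 2, nat_lit 3], [nat_lit 0, nat_lit 4, nat_lit 5], [nat_lit 0, nat_lit 6, nat_lit 7], [nat_lit 0, nat_lit 8, nat_lit 9], [nat_lit 1, nat_lit 5, nat_lit 8], [nat_lit 1, nat_lit 4, nat_lit 9], [nat_lit 2, nat_lit 10, nat_lit 11], [nat_lit 2, nat_lit 10, nat_lit 12], [nat_lit 3, nat_lit 4], [nat_lit 3, nat_lit 5], [nat_lit 6, nat_lit 7], [nat_lit 6, nat_lit 12], [nat_lit 7, nat_lit 11]],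
  [[nat_lit 1, nat_lit 2, nat_lit 3], [nat_lit 0, nat_lit 4, nat_lit 5], [nat_lit 0, nat_lit 6, nat_lit 7], [nat_lit 0, nat_lit 8, nat_lit 9], [nat_lit 1, nat_lit 5, nat_lit 10], [nat_lit 1, nat_lit 4, nat_lit 10], [nat_lit 2, nat_lit 8, nat_lit 11], [nat_lit 2, nat_lit 9, nat_lit 12], [nat_lit 3, nat_lit 6], [nat_lit 3, nat_lit 7], [nat_lit 4, nat_lit 5], [nat_lit 6, nat_lit 12], [nat_lit 7, nat_lit 11]],
  [[nat_lit 3, nat_lit 4], [nat_lit 5, nat_lit 6], [nat_lit 7, nat_lit 8], [nat_lit 0, nat_lit 4, nat_lit 9], [nat_lit 0, nat_lit 3, nat_lit 10], [nat_lit 1, nat_lit 6, nat_lit 9], [nat_lit 1, nat_lit 5, nat_lit 11], [nat_lit 2, nat_lit 8, nat_lit 12], [nat_lit 2, nat_lit 7, nat_lit 12], [nat_lit 3, nat_lit 5, nat_lit 12], [nat_lit 4, nat_lit 11], [nat_lit 6, nat_lit 10], [nat_lit 7, nat_lit 8, nat_lit 9]],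
  [[nat_lit 1, nat_lit 2, nat_lit 3], [nat_lit 0, nat_lit 4, nat_lit 5], [nat_lit 0, nat_lit 6, nat_lit 7], [nat_lit 0, nat_lit 6, nat_lit 7], [nat_lit 1, nat_lit 8, nat_lit 9], [nat_lit 1, nat_lit 10, nat_lit 11], [nat_lit 2, nat_lit 3, nat_lit 12], [nat_lit 2, nat_lit 3], [nat_lit 4, nat_lit 10, nat_lit 12], [nat_lit 4, nat_lit 11], [nat_lit 5, nat_lit 8], [nat_lit 5, nat_lit 9], [nat_lit 6, nat_lit 8]],
  [[nat_lit 1, nat_lit 2, nat_lit 3], [nat_lit 0, nat_lit 4, nat_lit 5], [nat_lit 0, nat_lit 6, nat_lit 7], [nat_lit 0, nat_lit 8, nat_lit 9], [nat_lit 1, nat_lit 6, nat_lit 10], [nat_lit 1, nat_lit 8, nat_lit 11], [nat_lit 2, nat_lit 4, nat_lit 12], [nat_lit 2, nat_lit 9], [nat_lit 3, nat_lit 5], [nat_lit 3, nat_lit 7], [nat_lit 4, nat_lit 12], [nat_lit 5, nat_lit 12], [nat_lit 6, nat_lit 10, nat_lit 11]],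
  [[nat_lit 1, nat_lit 2, nat_lit 3], [nat_lit 0, nat_lit 4, nat_lit 5], [nat_lit 0, nat_lit 6, nat_lit 7], [nat_lit 0, nat_lit 8, nat_lit 9], [nat_lit 1, nat_lit 5, nat_lit 10], [nat_lit 1, nat_lit 4, nat_lit 11], [nat_lit 2, nat_lit 7, nat_lit 12], [nat_lit 2, nat_lit 6], [nat_lit 3, nat_lit 10, nat_lit 11], [nat_lit 3, nat_lit 12], [nat_lit 4, nat_lit 8], [nat_lit 5, nat_lit 8], [nat_lit 6, nat_lit 9]],
  [[nat_lit 1, nat_lit 2, nat_lit 3], [nat_lit 0, nat_lit 4, nat_lit 5], [nat_lit 0, nat_lit 6, nat_lit 7], [nat_lit 0, nat_lit 8, nat_lit 9], [nat_lit 1, nat_lit 5, nat_lit 8], [nat_lit 1, nat_lit 4, nat_lit 9], [nat_lit 2, nat_lit 10, nat_lit 11], [nat_lit 2, nat_lit 12], [nat_lit 3, nat_lit 4], [nat_lit 3, nat_lit 5], [nat_lit 6, nat_lit 11, nat_lit 12], [nat_lit 6, nat_lit 10], [nat_lit 7, nat_lit 10]],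
  [[nat_lit 1, nat_lit 2, nat_lit 3], [nat_lit 0, nat_lit 4, nat_lit 5], [nat_lit 0, nat_lit 6, nat_lit 7], [nat_lit 0, nat_lit 8, nat_lit 9], [nat_lit 1, nat_lit 6, nat_lit 10], [nat_lit 1, nat_lit 8, nat_lit 11], [nat_lit 2, nat_lit 4, nat_lit 12], [nat_lit 2, nat_lit 9], [nat_lit 3, nat_lit 5], [nat_lit 3, nat_lit 7, nat_lit 12], [nat_lit 4, nat_lit 11], [nat_lit 5, nat_lit 10], [nat_lit 6, nat_lit 9]],
  [[nat_lit 1, nat_lit 2, nat_lit 3], [nat_lit 0, nat_lit 4, nat_lit 5], [nat_lit 0, nat_lit 6, nat_lit 7], [nat_lit 0, nat_lit 8, nat_lit 9], [nat_lit 1, nat_lit 6, nat_lit 10], [nat_lit 1, nat_lit 8, nat_lit 11], [nat_lit 2, nat_lit 4, nat_lit 12], [nat_lit 2, nat_lit 10], [nat_lit 3, nat_lit 5], [nat_lit 3, nat_lit 12], [nat_lit 4, nat_lit 7], [nat_lit 5, nat_lit 12], [nat_lit 6, nat_lit 9, nat_lit 11]],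
  [[nat_lit 1, nat_lit 2, nat_lit 3], [nat_lit 0, nat_lit 4, nat_lit 5], [nat_lit 0, nat_lit 6, nat_lit 7], [nat_lit 0, nat_lit 8, nat_lit 9], [nat_lit 1, nat_lit 6, nat_lit 10], [nat_lit 1, nat_lit 10, nat_lit 11], [nat_lit 2, nat_lit 4, nat_lit 12], [nat_lit 2, nat_lit 12], [nat_lit 3, nat_lit 11], [nat_lit 3], [nat_lit 4, nat_lit 5], [nat_lit 5, nat_lit 8], [nat_lit 6, nat_lit 7]],
  [[nat_lit 1, nat_lit 2, nat_lit 3], [nat_lit 0, nat_lit 4, nat_lit 5], [nat_lit 0, nat_lit 6, nat_lit 7], [nat_lit 0, nat_lit 8, nat_lit 9], [nat_lit 1, nat_lit 6, nat_lit 10], [nat_lit 1, nat_lit 8, nat_lit 11], [nat_lit 2, nat_lit 4, nat_lit 12], [nat_lit 2, nat_lit 9], [nat_lit 3, nat_lit 5], [nat_lit 3, nat_lit 7], [nat_lit 4, nat_lit 12], [nat_lit 5], [nat_lit 6, nat_lit 10]],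
  [[nat_lit 1, nat_lit 2, nat_lit 3], [nat_lit 0, nat_lit 4, nat_lit 5], [nat_lit 0, nat_lit 6, nat_lit 7], [nat_lit 0, nat_lit 8, nat_lit 9], [nat_lit 1, nat_lit 6, nat_lit 10], [nat_lit 1, nat_lit 11, nat_lit 12], [nat_lit 2, nat_lit 4], [nat_lit 2, nat_lit 10], [nat_lit 3, nat_lit 11], [nat_lit 3], [nat_lit 4, nat_lit 7, nat_lit 12], [nat_lit 5, nat_lit 8], [nat_lit 5, nat_lit 10]],
  [[nat_lit 1, nat_lit 2, nat_lit 3], [nat_lit 0, nat_lit 4, nat_lit 5], [nat_lit 0, nat_lit 6, nat_lit 7], [nat_lit 0, nat_lit 8, nat_lit 9], [nat_lit 1, nat_lit 6, nat_lit 10], [nat_lit 1, nat_lit 11, nat_lit 12], [nat_lit 2, nat_lit 4], [nat_lit 2, nat_lit 11], [nat_lit 3, nat_lit 12], [nat_lit 3], [nat_lit 4, nat_lit 11], [nat_lit 5, nat_lit 7, nat_lit 10], [nat_lit 5, nat_lit 8]],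
  [[nat_lit 1, nat_lit 2, nat_lit 3], [nat_lit 0, nat_lit 4, nat_lit 5], [nat_lit 0, nat_lit 6, nat_lit 7], [nat_lit 0, nat_lit 8, nat_lit 9], [nat_lit 1, nat_lit 6, nat_lit 10], [nat_lit 1, nat_lit 11, nat_lit 12], [nat_lit 2, nat_lit 4], [nat_lit 2], [nat_lit 3, nat_lit 11], [nat_lit 3, nat_lit 11], [nat_lit 4, nat_lit 12], [nat_lit 5, nat_lit 8, nat_lit 9], [nat_lit 5, nat_lit 10]],
  [[nat_lit 1, nat_lit 2, nat_lit 3], [nat_lit 0, nat_lit 4, nat_lit 5], [nat_lit 0, nat_lit 6, nat_lit 7], [nat_lit 0, nat_lit 8, nat_lit 9], [nat_lit 1, nat_lit 10, nat_lit 11], [nat_lit 1, nat_lit 12], [nat_lit 2, nat_lit 10], [nat_lit 2], [nat_lit 3, nat_lit 11], [nat_lit 3, nat_lit 11], [nat_lit 4, nat_lit 6, nat_lit 12], [nat_lit 4, nat_lit 8, nat_lit 9], [nat_lit 5, nat_lit 10]],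
  [[nat_lit 1, nat_lit 2, nat_lit 3], [nat_lit 0, nat_lit 4, nat_lit 5], [nat_lit 0, nat_lit 6, nat_lit 7], [nat_lit 0, nat_lit 8, nat_lit 9], [nat_lit 1, nat_lit 10, nat_lit 11], [nat_lit 1, nat_lit 12], [nat_lit 2, nat_lit 10], [nat_lit 2, nat_lit 12], [nat_lit 3, nat_lit 11], [nat_lit 3], [nat_lit 4, nat_lit 6], [nat_lit 4, nat_lit 8, nat_lit 12], [nat_lit 5, nat_lit 7, nat_lit 11]],
  [[nat_lit 1, nat_lit 2, nat_lit 3], [nat_lit 0, nat_lit 4, nat_lit 5], [nat_lit 0, nat_lit 6, nat_lit 7], [nat_lit 0, nat_lit 8, nat_lit 9], [nat_lit 1, nat_lit 10, nat_lit 11], [nat_lit 1], [nat_lit 2, nat_lit 10, nat_lit 12], [nat_lit 2, nat_lit 12], [nat_lit 3, nat_lit 11], [nat_lit 3, nat_lit 12], [nat_lit 4, nat_lit 6], [nat_lit 4, nat_lit 8], [nat_lit 6, nat_lit 7, nat_lit 9]],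
  [[nat_lit 1, nat_lit 2, nat_lit 3], [nat_lit 0, nat_lit 4, nat_lit 5], [nat_lit 0, nat_lit 6, nat_lit 7], [nat_lit 0, nat_lit 8, nat_lit 9], [nat_lit 1, nat_lit 5, nat_lit 10], [nat_lit 1, nat_lit 4, nat_lit 10], [nat_lit 2, nat_lit 7, nat_lit 11], [nat_lit 2, nat_lit 6, nat_lit 11], [nat_lit 3, nat_lit 9, nat_lit 12], [nat_lit 3, nat_lit 8, nat_lit 12], [nat_lit 4, nat_lit 5], [nat_lit 6, nat_lit 7], [nat_lit 8, nat_lit 9]],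
  [[nat_lit 1, nat_lit 2, nat_lit 3], [nat_lit 0, nat_lit 4, nat_lit 5], [nat_lit 0, nat_lit 6, nat_lit 7], [nat_lit 0, nat_lit 6, nat_lit 7], [nat_lit 1, nat_lit 8, nat_lit 9], [nat_lit 1, nat_lit 10, nat_lit 11], [nat_lit 2, nat_lit 3, nat_lit 12], [nat_lit 2, nat_lit 3], [nat_lit 4, nat_lit 10, nat_lit 12], [nat_lit 4, nat_lit 11], [nat_lit 5, nat_lit 8], [nat_lit 5, nat_lit 9, nat_lit 12], [nat_lit 6, nat_lit 8, nat_lit 11]],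
  [[nat_lit 1, nat_lit 2, nat_lit 3], [nat_lit 0, nat_lit 4, nat_lit 5], [nat_lit 0, nat_lit 6, nat_lit 7], [nat_lit 0, nat_lit 8, nat_lit 9], [nat_lit 1, nat_lit 6, nat_lit 10], [nat_lit 1, nat_lit 8, nat_lit 11], [nat_lit 2, nat_lit 4, nat_lit 12], [nat_lit 2, nat_lit 9], [nat_lit 3, nat_lit 5], [nat_lit 3, nat_lit 7, nat_lit 12], [nat_lit 4, nat_lit 11], [nat_lit 5, nat_lit 10, nat_lit 12], [nat_lit 6, nat_lit 9, nat_lit 11]],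
  [[nat_lit 1, nat_lit 2, nat_lit 3], [nat_lit 0, nat_lit 4, nat_lit 5], [nat_lit 0, nat_lit 6, nat_lit 7], [nat_lit 0, nat_lit 8, nat_lit 9], [nat_lit 1, nat_lit 6, nat_lit 10], [nat_lit 1, nat_lit 8, nat_lit 11], [nat_lit 2, nat_lit 4, nat_lit 12], [nat_lit 2, nat_lit 9], [nat_lit 3, nat_lit 5], [nat_lit 3, nat_lit 7], [nat_lit 4, nat_lit 11], [nat_lit 5, nat_lit 10], [nat_lit 6]],
  [[nat_lit 1, nat_lit 2, nat_lit 3], [nat_lit 0, nat_lit 4, nat_lit 5], [nat_lit 0, nat_lit 6, nat_lit 7], [nat_lit 0, nat_lit 8, nat_lit 9], [nat_lit 1, nat_lit 6, nat_lit 10], [nat_lit 1, nat_lit 8, nat_lit 11], [nat_lit 2, nat_lit 4, nat_lit 12], [nat_lit 2, nat_lit 9], [nat_lit 3, nat_lit 5], [nat_lit 3, nat_lit 7], [nat_lit 4], [nat_lit 5, nat_lit 12], [nat_lit 6, nat_lit 11]],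
  [[nat_lit 1, nat_lit 2, nat_lit 3], [nat_lit 0, nat_lit 4, nat_lit 5], [nat_lit 0, nat_lit 6, nat_lit 7], [nat_lit 0, nat_lit 8, nat_lit 9], [nat_lit 1, nat_lit 6, nat_lit 10], [nat_lit 1, nat_lit 11, nat_lit 12], [nat_lit 2, nat_lit 4], [nat_lit 2, nat_lit 10], [nat_lit 3, nat_lit 11], [nat_lit 3], [nat_lit 4, nat_lit 7], [nat_lit 5, nat_lit 8], [nat_lit 5]],
  [[nat_lit 1, nat_lit 2, nat_lit 3], [nat_lit 0, nat_lit 4, nat_lit 5], [nat_lit 0, nat_lit 6, nat_lit 7], [nat_lit 0, nat_lit 8, nat_lit 9], [nat_lit 1, nat_lit 6, nat_lit 10], [nat_lit 1, nat_lit 11, nat_lit 12], [nat_lit 2, nat_lit 4], [nat_lit 2], [nat_lit 3, nat_lit 11], [nat_lit 3], [nat_lit 4, nat_lit 12], [nat_lit 5, nat_lit 8], [nat_lit 5, nat_lit 10]],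
  [[nat_lit 1, nat_lit 2, nat_lit 3], [nat_lit 0, nat_lit 4, nat_lit 5], [nat_lit 0, nat_lit 6, nat_lit 7], [nat_lit 0, nat_lit 8, nat_lit 9], [nat_lit 1, nat_lit 6, nat_lit 10], [nat_lit 1, nat_lit 11, nat_lit 12], [nat_lit 2, nat_lit 4], [nat_lit 2], [nat_lit 3, nat_lit 10], [nat_lit 3, nat_lit 11], [nat_lit 4, nat_lit 8], [nat_lit 5, nat_lit 9], [nat_lit 5]],
  [[nat_lit 1, nat_lit 2, nat_lit 3], [nat_lit 0, nat_lit 4, nat_lit 5], [nat_lit 0, nat_lit 6, nat_lit 7], [nat_lit 0, nat_lit 8, nat_lit 9], [nat_lit 1], [nat_lit 1, nat_lit 10, nat_lit 11], [nat_lit 2, nat_lit 10, nat_lit 12], [nat_lit 2, nat_lit 10, nat_lit 12], [nat_lit 3, nat_lit 11], [nat_lit 3, nat_lit 11], [nat_lit 5, nat_lit 6, nat_lit 7], [nat_lit 5, nat_lit 8, nat_lit 9], [nat_lit 6, nat_lit 7]],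
  [[nat_lit 1, nat_lit 2, nat_lit 3], [nat_lit 0, nat_lit 4, nat_lit 5], [nat_lit 0, nat_lit 6, nat_lit 7], [nat_lit 0, nat_lit 8, nat_lit 9], [nat_lit 1, nat_lit 6, nat_lit 10], [nat_lit 1, nat_lit 8, nat_lit 11], [nat_lit 2, nat_lit 4, nat_lit 12], [nat_lit 2, nat_lit 9], [nat_lit 3, nat_lit 5], [nat_lit 3, nat_lit 7, nat_lit 12], [nat_lit 4], [nat_lit 5, nat_lit 12], [nat_lit 6, nat_lit 9, nat_lit 11]],
  [[nat_lit 1, nat_lit 2, nat_lit 3], [nat_lit 0, nat_lit 4, nat_lit 5], [nat_lit 0, nat_lit 6, nat_lit 7], [nat_lit 0, nat_lit 8, nat_lit 9], [nat_lit 1], [nat_lit 1, nat_lit 10, nat_lit 11], [nat_lit 2, nat_lit 10, nat_lit 12], [nat_lit 2, nat_lit 10], [nat_lit 3, nat_lit 11, nat_lit 12], [nat_lit 3, nat_lit 11], [nat_lit 5, nat_lit 6, nat_lit 7], [nat_lit 5, nat_lit 8, nat_lit 9], [nat_lit 6, nat_lit 8]],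
  [[nat_lit 1, nat_lit 2, nat_lit 3], [nat_lit 0, nat_lit 4, nat_lit 5], [nat_lit 0, nat_lit 6, nat_lit 7], [nat_lit 0, nat_lit 8, nat_lit 9], [nat_lit 1, nat_lit 10, nat_lit 11], [nat_lit 1, nat_lit 10, nat_lit 12], [nat_lit 2, nat_lit 11], [nat_lit 2], [nat_lit 3, nat_lit 12], [nat_lit 3], [nat_lit 4, nat_lit 5], [nat_lit 4, nat_lit 6], [nat_lit 5, nat_lit 8]],
  [[nat_lit 1, nat_lit 2, nat_lit 3], [nat_lit 0, nat_lit 4, nat_lit 5], [nat_lit 0, nat_lit 6, nat_lit 7], [nat_lit 0, nat_lit 8, nat_lit 9], [nat_lit 1, nat_lit 6, nat_lit 10], [nat_lit 1, nat_lit 11, nat_lit 12], [nat_lit 2, nat_lit 4], [nat_lit 2], [nat_lit 3, nat_lit 11], [nat_lit 3, nat_lit 12], [nat_lit 4], [nat_lit 5, nat_lit 8], [nat_lit 5, nat_lit 9]],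
  [[nat_lit 1, nat_lit 2, nat_lit 3], [nat_lit 0, nat_lit 4, nat_lit 5], [nat_lit 0, nat_lit 6, nat_lit 7], [nat_lit 0, nat_lit 8, nat_lit 9], [nat_lit 1, nat_lit 6, nat_lit 10], [nat_lit 1, nat_lit 11, nat_lit 12], [nat_lit 2, nat_lit 4], [nat_lit 2, nat_lit 11], [nat_lit 3, nat_lit 12], [nat_lit 3, nat_lit 12], [nat_lit 4, nat_lit 11], [nat_lit 5, nat_lit 7, nat_lit 10], [nat_lit 5, nat_lit 8, nat_lit 9]]]

noncomputable def lv22 : List (List (List Nat)) := [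
  [[nat_lit 1, nat_lit 2, nat_lit 3], [nat_lit 0, nat_lit 4, nat_lit 5], [nat_lit 0, nat_lit 6, nat_lit 7], [nat_lit 0, nat_lit 8, nat_lit 9], [nat_lit 1, nat_lit 6, nat_lit 10], [nat_lit 1, nat_lit 11, nat_lit 12], [nat_lit 2, nat_lit 4], [nat_lit 2, nat_lit 10], [nat_lit 3, nat_lit 11], [nat_lit 3, nat_lit 11], [nat_lit 4, nat_lit 7, nat_lit 12], [nat_lit 5, nat_lit 8, nat_lit 9], [nat_lit 5, nat_lit 10]],
  [[nat_lit 1, nat_lit 2, nat_lit 3], [nat_lit 0, nat_lit 4, nat_lit 5], [nat_lit 0, nat_lit 6, nat_lit 7], [nat_lit 0, nat_lit 8, nat_lit 9], [nat_lit 1, nat_lit 5, nat_lit 8], [nat_lit 1, nat_lit 4, nat_lit 9], [nat_lit 2, nat_lit 10, nat_lit 11], [nat_lit 2, nat_lit 10, nat_lit 12], [nat_lit 3, nat_lit 4], [nat_lit 3, nat_lit 5], [nat_lit 6, nat_lit 7], [nat_lit 6], [nat_lit 7]],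
  [[nat_lit 1, nat_lit 2, nat_lit 3], [nat_lit 0, nat_lit 4, nat_lit 5], [nat_lit 0, nat_lit 6, nat_lit 7], [nat_lit 0, nat_lit 8, nat_lit 9], [nat_lit 1, nat_lit 5, nat_lit 10], [nat_lit 1, nat_lit 4, nat_lit 10], [nat_lit 2, nat_lit 8, nat_lit 11], [nat_lit 2, nat_lit 9, nat_lit 12], [nat_lit 3, nat_lit 6], [nat_lit 3, nat_lit 7], [nat_lit 4, nat_lit 5], [nat_lit 6], [nat_lit 7]],
  [[nat_lit 1, nat_lit 2, nat_lit 3], [nat_lit 0, nat_lit 4, nat_lit 5], [nat_lit 0, nat_lit 6, nat_lit 7], [nat_lit 0, nat_lit 6, nat_lit 7], [nat_lit 1, nat_lit 8, nat_lit 9], [nat_lit 1, nat_lit 10, nat_lit 11], [nat_lit 2, nat_lit 3, nat_lit 12], [nat_lit 2, nat_lit 3], [nat_lit 4, nat_lit 12], [nat_lit 4], [nat_lit 5, nat_lit 12], [nat_lit 5], [nat_lit 6, nat_lit 8, nat_lit 10]],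
  [[nat_lit 1, nat_lit 2, nat_lit 3], [nat_lit 0, nat_lit 4, nat_lit 5], [nat_lit 0, nat_lit 6, nat_lit 7], [nat_lit 0, nat_lit 6, nat_lit 7], [nat_lit 1, nat_lit 8, nat_lit 9], [nat_lit 1, nat_lit 10, nat_lit 11], [nat_lit 2, nat_lit 3, nat_lit 12], [nat_lit 2, nat_lit 3], [nat_lit 4, nat_lit 10, nat_lit 12], [nat_lit 4], [nat_lit 5, nat_lit 8], [nat_lit 5], [nat_lit 6, nat_lit 8]],
  [[nat_lit 1, nat_lit 2, nat_lit 3], [nat_lit 0, nat_lit 4, nat_lit 5], [nat_lit 0, nat_lit 6, nat_lit 7], [nat_lit 0, nat_lit 8, nat_lit 9], [nat_lit 1, nat_lit 10, nat_lit 11], [nat_lit 1, nat_lit 10], [nat_lit 2, nat_lit 11, nat_lit 12], [nat_lit 2], [nat_lit 3, nat_lit 12], [nat_lit 3], [nat_lit 4, nat_lit 5, nat_lit 12], [nat_lit 4, nat_lit 6], [nat_lit 6, nat_lit 8, nat_lit 10]],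
  [[nat_lit 1, nat_lit 2, nat_lit 3], [nat_lit 0, nat_lit 4, nat_lit 5], [nat_lit 0, nat_lit 6, nat_lit 7], [nat_lit 0, nat_lit 8, nat_lit 9], [nat_lit 1, nat_lit 10, nat_lit 11], [nat_lit 1, nat_lit 12], [nat_lit 2, nat_lit 10], [nat_lit 2, nat_lit 12], [nat_lit 3, nat_lit 11], [nat_lit 3, nat_lit 11], [nat_lit 4, nat_lit 6, nat_lit 12], [nat_lit 4, nat_lit 8, nat_lit 9], [nat_lit 5, nat_lit 7, nat_lit 10]],
  [[nat_lit 1, nat_lit 2, nat_lit 3], [nat_lit 0, nat_lit 4, nat_lit 5], [nat_lit 0, nat_lit 6, nat_lit 7], [nat_lit 0, nat_lit 8, nat_lit 9], [nat_lit 1, nat_lit 6, nat_lit 10], [nat_lit 1], [nat_lit 2, nat_lit 4, nat_lit 10], [nat_lit 2], [nat_lit 3, nat_lit 11, nat_lit 12], [nat_lit 3, nat_lit 11, nat_lit 12], [nat_lit 4, nat_lit 6], [nat_lit 8, nat_lit 9], [nat_lit 8, nat_lit 9]],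
  [[nat_lit 1, nat_lit 2, nat_lit 3], [nat_lit 0, nat_lit 4, nat_lit 5], [nat_lit 0, nat_lit 6, nat_lit 7], [nat_lit 0, nat_lit 8, nat_lit 9], [nat_lit 1, nat_lit 6, nat_lit 10], [nat_lit 1, nat_lit 8, nat_lit 11], [nat_lit 2, nat_lit 4, nat_lit 12], [nat_lit 2], [nat_lit 3, nat_lit 5], [nat_lit 3, nat_lit 12], [nat_lit 4], [nat_lit 5, nat_lit 12], [nat_lit 6, nat_lit 9, nat_lit 11]],
  [[nat_lit 1, nat_lit 2, nat_lit 3], [nat_lit 0, nat_lit 4, nat_lit 5], [nat_lit 0, nat_lit 6, nat_lit 7], [nat_lit 0, nat_lit 8, nat_lit 9], [nat_lit 1, nat_lit 6, nat_lit 10], [nat_lit 1], [nat_lit 2, nat_lit 4, nat_lit 11], [nat_lit 2], [nat_lit 3, nat_lit 10, nat_lit 12], [nat_lit 3, nat_lit 11, nat_lit 12], [nat_lit 4, nat_lit 8], [nat_lit 6, nat_lit 9], [nat_lit 8, nat_lit 9]],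
  [[nat_lit 1, nat_lit 2, nat_lit 3], [nat_lit 0, nat_lit 4, nat_lit 5], [nat_lit 0, nat_lit 6, nat_lit 7], [nat_lit 0, nat_lit 8, nat_lit 9], [nat_lit 1, nat_lit 10, nat_lit 11], [nat_lit 1], [nat_lit 2, nat_lit 10, nat_lit 12], [nat_lit 2], [nat_lit 3, nat_lit 11], [nat_lit 3, nat_lit 12], [nat_lit 4, nat_lit 6], [nat_lit 4, nat_lit 8, nat_lit 12], [nat_lit 6, nat_lit 9, nat_lit 11]],
  [[nat_lit 1, nat_lit 2, nat_lit 3], [nat_lit 0, nat_lit 4, nat_lit 5], [nat_lit 0, nat_lit 6, nat_lit 7], [nat_lit 0, nat_lit 8, nat_lit 9], [nat_lit 1, nat_lit 6], [nat_lit 1], [nat_lit 2, nat_lit 4], [nat_lit 2], [nat_lit 3, nat_lit 10, nat_lit 11], [nat_lit 3, nat_lit 10, nat_lit 12], [nat_lit 8, nat_lit 9], [nat_lit 8], [nat_lit 9]],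
  [[nat_lit 1, nat_lit 2, nat_lit 3], [nat_lit 0, nat_lit 4, nat_lit 5], [nat_lit 0, nat_lit 6, nat_lit 7], [nat_lit 0, nat_lit 8, nat_lit 9], [nat_lit 1, nat_lit 6, nat_lit 10], [nat_lit 1, nat_lit 11, nat_lit 12], [nat_lit 2, nat_lit 4], [nat_lit 2], [nat_lit 3, nat_lit 11], [nat_lit 3], [nat_lit 4], [nat_lit 5, nat_lit 8], [nat_lit 5]],
  [[nat_lit 1, nat_lit 2, nat_lit 3], [nat_lit 0, nat_lit 4, nat_lit 5], [nat_lit 0, nat_lit 6, nat_lit 7], [nat_lit 0, nat_lit 6, nat_lit 7], [nat_lit 1, nat_lit 8, nat_lit 9], [nat_lit 1, nat_lit 10, nat_lit 11], [nat_lit 2, nat_lit 3, nat_lit 12], [nat_lit 2, nat_lit 3], [nat_lit 4], [nat_lit 4], [nat_lit 5], [nat_lit 5], [nat_lit 6]],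
  [[nat_lit 1, nat_lit 2, nat_lit 3], [nat_lit 0, nat_lit 4, nat_lit 5], [nat_lit 0, nat_lit 6, nat_lit 7], [nat_lit 0, nat_lit 8, nat_lit 9], [nat_lit 1, nat_lit 10, nat_lit 11], [nat_lit 1], [nat_lit 2, nat_lit 10, nat_lit 12], [nat_lit 2], [nat_lit 3, nat_lit 11, nat_lit 12], [nat_lit 3], [nat_lit 4, nat_lit 6], [nat_lit 4, nat_lit 8], [nat_lit 6, nat_lit 8]],
  [[nat_lit 1, nat_lit 2, nat_lit 3], [nat_lit 0, nat_lit 4, nat_lit 5], [nat_lit 0, nat_lit 6, nat_lit 7], [nat_lit 0, nat_lit 8, nat_lit 9], [nat_lit 1, nat_lit 10], [nat_lit 1, nat_lit 11, nat_lit 12], [nat_lit 2, nat_lit 10, nat_lit 13], [nat_lit 2, nat_lit 11], [nat_lit 3], [nat_lit 3, nat_lit 12, nat_lit 13], [nat_lit 4, nat_lit 6], [nat_lit 5, nat_lit 7], [nat_lit 5, nat_lit 9], [nat_lit 6, nat_lit 9]],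
  [[nat_lit 1, nat_lit 2, nat_lit 3], [nat_lit 0, nat_lit 4, nat_lit 5], [nat_lit 0, nat_lit 6, nat_lit 7], [nat_lit 0, nat_lit 8, nat_lit 9], [nat_lit 1, nat_lit 10, nat_lit 11], [nat_lit 1], [nat_lit 2, nat_lit 12, nat_lit 13], [nat_lit 2, nat_lit 12], [nat_lit 3, nat_lit 13], [nat_lit 3], [nat_lit 4, nat_lit 11, nat_lit 12], [nat_lit 4, nat_lit 10], [nat_lit 6, nat_lit 7, nat_lit 10], [nat_lit 6, nat_lit 8]],
  [[nat_lit 1, nat_lit 2, nat_lit 3], [nat_lit 0, nat_lit 4, nat_lit 5], [nat_lit 0, nat_lit 6, nat_lit 7], [nat_lit 0, nat_lit 8, nat_lit 9], [nat_lit 1, nat_lit 6, nat_lit 10], [nat_lit 1], [nat_lit 2, nat_lit 4, nat_lit 10], [nat_lit 2], [nat_lit 3, nat_lit 11, nat_lit 12], [nat_lit 3, nat_lit 11, nat_lit 13], [nat_lit 4, nat_lit 6], [nat_lit 8, nat_lit 9], [nat_lit 8, nat_lit 13], [nat_lit 9, nat_lit 12]],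
  [[nat_lit 1, nat_lit 2, nat_lit 3], [nat_lit 0, nat_lit 4, nat_lit 5], [nat_lit 0, nat_lit 6, nat_lit 7], [nat_lit 0, nat_lit 8, nat_lit 9], [nat_lit 1, nat_lit 6, nat_lit 10], [nat_lit 1], [nat_lit 2, nat_lit 4, nat_lit 10], [nat_lit 2], [nat_lit 3, nat_lit 11, nat_lit 12], [nat_lit 3, nat_lit 13], [nat_lit 4, nat_lit 6], [nat_lit 8, nat_lit 12, nat_lit 13], [nat_lit 8, nat_lit 11], [nat_lit 9, nat_lit 11]],
  [[nat_lit 1, nat_lit 2, nat_lit 3], [nat_lit 0, nat_lit 4, nat_lit 5], [nat_lit 0, nat_lit 6, nat_lit 7], [nat_lit 0, nat_lit 8, nat_lit 9], [nat_lit 1, nat_lit 10, nat_lit 11], [nat_lit 1], [nat_lit 2, nat_lit 12, nat_lit 13], [nat_lit 2, nat_lit 12], [nat_lit 3, nat_lit 13], [nat_lit 3, nat_lit 13], [nat_lit 4, nat_lit 11, nat_lit 12], [nat_lit 4, nat_lit 10], [nat_lit 6, nat_lit 7, nat_lit 10], [nat_lit 6, nat_lit 8, nat_lit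 9]],
  [[nat_lit 1, nat_lit 2, nat_lit 3], [nat_lit 0, nat_lit 4, nat_lit 5], [nat_lit 0, nat_lit 6, nat_lit 7], [nat_lit 0, nat_lit 8, nat_lit 9], [nat_lit 1], [nat_lit 1], [nat_lit 2, nat_lit 10, nat_lit 11], [nat_lit 2, nat_lit 10, nat_lit 11], [nat_lit 3, nat_lit 12, nat_lit 13], [nat_lit 3, nat_lit 12], [nat_lit 6, nat_lit 7], [nat_lit 6, nat_lit 7], [nat_lit 8, nat_lit 9, nat_lit 13], [nat_lit 8, nat_lit 12]]]

noncomputable def op0 : List (List (List Nat)) := [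
  [[]],
  [[nat_lit 1], [nat_lit 0]],
  [[nat_lit 1, nat_lit 2], [nat_lit 0, nat_lit 2], [nat_lit 0, nat_lit 1]],
  [[nat_lit 1, nat_lit 2], [nat_lit 0], [nat_lit 0]],
  [[nat_lit 1, nat_lit 2, nat_lit 3], [nat_lit 0, nat_lit 2, nat_lit 3], [nat_lit 0, nat_lit 1], [nat_lit 0, nat_lit 1]],
  [[nat_lit 1, nat_lit 2, nat_lit 3], [nat_lit 0, nat_lit 2], [nat_lit 0, nat_lit 1], [nat_lit 0]],
  [[nat_lit 1, nat_lit 2, nat_lit 3], [nat_lit 0], [nat_lit 0], [nat_lit 0]],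
  [[nat_lit 1, nat_lit 2, nat_lit 3], [nat_lit 0, nat_lit 2, nat_lit 3], [nat_lit 0, nat_lit 1, nat_lit 4], [nat_lit 0, nat_lit 1, nat_lit 4], [nat_lit 2, nat_lit 3]],
  [[nat_lit 1, nat_lit 2, nat_lit 3], [nat_lit 0, nat_lit 2, nat_lit 3], [nat_lit 0, nat_lit 1, nat_lit 4], [nat_lit 0, nat_lit 1], [nat_lit 2]],
  [[nat_lit 1, nat_lit 2, nat_lit 3], [nat_lit 0, nat_lit 2, nat_lit 4], [nat_lit 0, nat_lit 1], [nat_lit 0, nat_lit 4], [nat_lit 1, nat_lit 3]],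
  [[nat_lit 1, nat_lit 2, nat_lit 3], [nat_lit 0, nat_lit 2, nat_lit 4], [nat_lit 0, nat_lit 1], [nat_lit 0], [nat_lit 1]],
  [[nat_lit 1, nat_lit 2, nat_lit 3], [nat_lit 0, nat_lit 4], [nat_lit 0, nat_lit 4], [nat_lit 0, nat_lit 4], [nat_lit 1, nat_lit 2, nat_lit 3]],
  [[nat_lit 1, nat_lit 2, nat_lit 3], [nat_lit 0, nat_lit 4], [nat_lit 0, nat_lit 4], [nat_lit 0], [nat_lit 1, nat_lit 2]],
  [[nat_lit 1, nat_lit 2, nat_lit 3], [nat_lit 0, nat_lit 4], [nat_lit 0], [nat_lit 0], [nat_lit 1]],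
  [[nat_lit 1, nat_lit 2, nat_lit 3], [nat_lit 0, nat_lit 2, nat_lit 3], [nat_lit 0, nat_lit 1, nat_lit 4], [nat_lit 0, nat_lit 1, nat_lit 4], [nat_lit 2, nat_lit 3, nat_lit 5], [nat_lit 4]],
  [[nat_lit 1, nat_lit 2, nat_lit 3], [nat_lit 0, nat_lit 2, nat_lit 3], [nat_lit 0, nat_lit 1, nat_lit 4], [nat_lit 0, nat_lit 1, nat_lit 5], [nat_lit 2, nat_lit 5], [nat_lit 3, nat_lit 4]],
  [[nat_lit 1, nat_lit 2, nat_lit 3], [nat_lit 0, nat_lit 2, nat_lit 3], [nat_lit 0, nat_lit 1, nat_lit 4], [nat_lit 0, nat_lit 1, nat_lit 5], [nat_lit 2], [nat_lit 3]],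
  [[nat_lit 1, nat_lit 2, nat_lit 3], [nat_lit 0, nat_lit 2, nat_lit 4], [nat_lit 0, nat_lit 1, nat_lit 5], [nat_lit 0, nat_lit 4, nat_lit 5], [nat_lit 1, nat_lit 3], [nat_lit 2, nat_lit 3]],
  [[nat_lit 1, nat_lit 2, nat_lit 3], [nat_lit 0, nat_lit 2, nat_lit 4], [nat_lit 0, nat_lit 1, nat_lit 5], [nat_lit 0, nat_lit 4], [nat_lit 1, nat_lit 3], [nat_lit 2]],
  [[nat_lit 1, nat_lit 2, nat_lit 3], [nat_lit 0, nat_lit 2, nat_lit 4], [nat_lit 0, nat_lit 1, nat_lit 5], [nat_lit 0], [nat_lit 1], [nat_lit 2]],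
  [[nat_lit 1, nat_lit 2, nat_lit 3], [nat_lit 0, nat_lit 4, nat_lit 5], [nat_lit 0, nat_lit 4, nat_lit 5], [nat_lit 0, nat_lit 4], [nat_lit 1, nat_lit 2, nat_lit 3], [nat_lit 1, nat_lit 2]],
  [[nat_lit 1, nat_lit 2, nat_lit 3], [nat_lit 0, nat_lit 4, nat_lit 5], [nat_lit 0, nat_lit 4], [nat_lit 0, nat_lit 4], [nat_lit 1, nat_lit 2, nat_lit 3], [nat_lit 1]],
  [[nat_lit 1, nat_lit 2, nat_lit 3], [nat_lit 0, nat_lit 4, nat_lit 5], [nat_lit 0, nat_lit 4], [nat_lit 0, nat_lit 5], [nat_lit 1, nat_lit 2], [nat_lit 1, nat_lit 3]],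
  [[nat_lit 1, nat_lit 2, nat_lit 3], [nat_lit 0, nat_lit 4, nat_lit 5], [nat_lit 0, nat_lit 4], [nat_lit 0], [nat_lit 1, nat_lit 2, nat_lit 5], [nat_lit 1, nat_lit 4]],
  [[nat_lit 1, nat_lit 2, nat_lit 3], [nat_lit 0, nat_lit 4, nat_lit 5], [nat_lit 0, nat_lit 4], [nat_lit 0], [nat_lit 1, nat_lit 2], [nat_lit 1]],
  [[nat_lit 1, nat_lit 2, nat_lit 3], [nat_lit 0, nat_lit 4, nat_lit 5], [nat_lit 0], [nat_lit 0], [nat_lit 1, nat_lit 5], [nat_lit 1, nat_lit 4]],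
  [[nat_lit 1, nat_lit 2, nat_lit 3], [nat_lit 0, nat_lit 4, nat_lit 5], [nat_lit 0], [nat_lit 0], [nat_lit 1], [nat_lit 1]],
  [[nat_lit 1, nat_lit 2, nat_lit 3], [nat_lit 0, nat_lit 2, nat_lit 3], [nat_lit 0, nat_lit 1, nat_lit 4], [nat_lit 0, nat_lit 1, nat_lit 4], [nat_lit 2, nat_lit 3, nat_lit 5], [nat_lit 4, nat_lit 6], [nat_lit 5]],
  [[nat_lit 1, nat_lit 2, nat_lit 3], [nat_lit 0, nat_lit 2, nat_lit 3], [nat_lit 0, nat_lit 1, nat_lit 4], [nat_lit 0, nat_lit 1, nat_lit 5], [nat_lit 2, nat_lit 5, nat_lit 6], [nat_lit 3, nat_lit 4], [nat_lit 4]],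
  [[nat_lit 1, nat_lit 2, nat_lit 3], [nat_lit 0, nat_lit 2, nat_lit 3], [nat_lit 0, nat_lit 1, nat_lit 4], [nat_lit 0, nat_lit 1, nat_lit 5], [nat_lit 2, nat_lit 6], [nat_lit 3, nat_lit 6], [nat_lit 4, nat_lit 5]],
  [[nat_lit 1, nat_lit 2, nat_lit 3], [nat_lit 0, nat_lit 2, nat_lit 3], [nat_lit 0, nat_lit 1, nat_lit 4], [nat_lit 0, nat_lit 1, nat_lit 5], [nat_lit 2, nat_lit 6], [nat_lit 3], [nat_lit 4]],
  [[nat_lit 1, nat_lit 2, nat_lit 3], [nat_lit 0, nat_lit 2, nat_lit 4], [nat_lit 0, nat_lit 1, nat_lit 5], [nat_lit 0, nat_lit 4, nat_lit 6], [nat_lit 1, nat_lit 3, nat_lit 6], [nat_lit 2], [nat_lit 3, nat_lit 4]]]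

noncomputable def op1 : List (List (List Nat)) := [
  [[nat_lit 1, nat_lit 2, nat_lit 3], [nat_lit 0, nat_lit 2, nat_lit 4], [nat_lit 0, nat_lit 1, nat_lit 5], [nat_lit 0, nat_lit 4, nat_lit 6], [nat_lit 1, nat_lit 3], [nat_lit 2, nat_lit 6], [nat_lit 3, nat_lit 5]],
  [[nat_lit 1, nat_lit 2, nat_lit 3], [nat_lit 0, nat_lit 2, nat_lit 4], [nat_lit 0, nat_lit 1, nat_lit 5], [nat_lit 0, nat_lit 4, nat_lit 6], [nat_lit 1, nat_lit 3], [nat_lit 2], [nat_lit 3]],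
  [[nat_lit 1, nat_lit 2, nat_lit 3], [nat_lit 0, nat_lit 2, nat_lit 4], [nat_lit 0, nat_lit 1, nat_lit 5], [nat_lit 0, nat_lit 6], [nat_lit 1, nat_lit 6], [nat_lit 2, nat_lit 6], [nat_lit 3, nat_lit 4, nat_lit 5]],
  [[nat_lit 1, nat_lit 2, nat_lit 3], [nat_lit 0, nat_lit 2, nat_lit 4], [nat_lit 0, nat_lit 1, nat_lit 5], [nat_lit 0, nat_lit 6], [nat_lit 1, nat_lit 6], [nat_lit 2], [nat_lit 3, nat_lit 4]],
  [[nat_lit 1, nat_lit 2, nat_lit 3], [nat_lit 0, nat_lit 2, nat_lit 4], [nat_lit 0, nat_lit 1, nat_lit 5], [nat_lit 0, nat_lit 6], [nat_lit 1], [nat_lit 2], [nat_lit 3]],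
  [[nat_lit 1, nat_lit 2, nat_lit 3], [nat_lit 0, nat_lit 4, nat_lit 5], [nat_lit 0, nat_lit 4, nat_lit 5], [nat_lit 0, nat_lit 4, nat_lit 6], [nat_lit 1, nat_lit 2, nat_lit 3], [nat_lit 1, nat_lit 2, nat_lit 6], [nat_lit 3, nat_lit 5]],
  [[nat_lit 1, nat_lit 2, nat_lit 3], [nat_lit 0, nat_lit 4, nat_lit 5], [nat_lit 0, nat_lit 4, nat_lit 5], [nat_lit 0, nat_lit 4, nat_lit 6], [nat_lit 1, nat_lit 2, nat_lit 3], [nat_lit 1, nat_lit 2], [nat_lit 3]],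
  [[nat_lit 1, nat_lit 2, nat_lit 3], [nat_lit 0, nat_lit 4, nat_lit 5], [nat_lit 0, nat_lit 4, nat_lit 6], [nat_lit 0, nat_lit 4], [nat_lit 1, nat_lit 2, nat_lit 3], [nat_lit 1, nat_lit 6], [nat_lit 2, nat_lit 5]],
  [[nat_lit 1, nat_lit 2, nat_lit 3], [nat_lit 0, nat_lit 4, nat_lit 5], [nat_lit 0, nat_lit 4, nat_lit 6], [nat_lit 0, nat_lit 4], [nat_lit 1, nat_lit 2, nat_lit 3], [nat_lit 1], [nat_lit 2]],
  [[nat_lit 1, nat_lit 2, nat_lit 3], [nat_lit 0, nat_lit 4, nat_lit 5], [nat_lit 0, nat_lit 4, nat_lit 6], [nat_lit 0, nat_lit 5, nat_lit 6], [nat_lit 1, nat_lit 2], [nat_lit 1, nat_lit 3], [nat_lit 2, nat_lit 3]],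
  [[nat_lit 1, nat_lit 2, nat_lit 3], [nat_lit 0, nat_lit 4, nat_lit 5], [nat_lit 0, nat_lit 4, nat_lit 6], [nat_lit 0, nat_lit 5], [nat_lit 1, nat_lit 2, nat_lit 6], [nat_lit 1, nat_lit 3], [nat_lit 2, nat_lit 4]],
  [[nat_lit 1, nat_lit 2, nat_lit 3], [nat_lit 0, nat_lit 4, nat_lit 5], [nat_lit 0, nat_lit 4, nat_lit 6], [nat_lit 0, nat_lit 5], [nat_lit 1, nat_lit 2], [nat_lit 1, nat_lit 3, nat_lit 6], [nat_lit 2, nat_lit 5]],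
  [[nat_lit 1, nat_lit 2, nat_lit 3], [nat_lit 0, nat_lit 4, nat_lit 5], [nat_lit 0, nat_lit 4, nat_lit 6], [nat_lit 0, nat_lit 5], [nat_lit 1, nat_lit 2], [nat_lit 1, nat_lit 3], [nat_lit 2]],
  [[nat_lit 1, nat_lit 2, nat_lit 3], [nat_lit 0, nat_lit 4, nat_lit 5], [nat_lit 0, nat_lit 4, nat_lit 6], [nat_lit 0], [nat_lit 1, nat_lit 2, nat_lit 5], [nat_lit 1, nat_lit 4], [nat_lit 2]],
  [[nat_lit 1, nat_lit 2, nat_lit 3], [nat_lit 0, nat_lit 4, nat_lit 5], [nat_lit 0, nat_lit 4, nat_lit 6], [nat_lit 0], [nat_lit 1, nat_lit 2], [nat_lit 1, nat_lit 6], [nat_lit 2, nat_lit 5]],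
  [[nat_lit 1, nat_lit 2, nat_lit 3], [nat_lit 0, nat_lit 4, nat_lit 5], [nat_lit 0, nat_lit 4, nat_lit 6], [nat_lit 0], [nat_lit 1, nat_lit 2], [nat_lit 1], [nat_lit 2]],
  [[nat_lit 1, nat_lit 2, nat_lit 3], [nat_lit 0, nat_lit 4, nat_lit 5], [nat_lit 0, nat_lit 6], [nat_lit 0, nat_lit 6], [nat_lit 1, nat_lit 5, nat_lit 6], [nat_lit 1, nat_lit 4], [nat_lit 2, nat_lit 3, nat_lit 4]],
  [[nat_lit 1, nat_lit 2, nat_lit 3], [nat_lit 0, nat_lit 4, nat_lit 5], [nat_lit 0, nat_lit 6], [nat_lit 0, nat_lit 6], [nat_lit 1, nat_lit 5], [nat_lit 1, nat_lit 4], [nat_lit 2, nat_lit 3]],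
  [[nat_lit 1, nat_lit 2, nat_lit 3], [nat_lit 0, nat_lit 4, nat_lit 5], [nat_lit 0, nat_lit 6], [nat_lit 0], [nat_lit 1, nat_lit 5, nat_lit 6], [nat_lit 1, nat_lit 4], [nat_lit 2, nat_lit 4]],
  [[nat_lit 1, nat_lit 2, nat_lit 3], [nat_lit 0, nat_lit 4, nat_lit 5], [nat_lit 0, nat_lit 6], [nat_lit 0], [nat_lit 1, nat_lit 5], [nat_lit 1, nat_lit 4], [nat_lit 2]],
  [[nat_lit 1, nat_lit 2, nat_lit 3], [nat_lit 0, nat_lit 4, nat_lit 5], [nat_lit 0, nat_lit 6], [nat_lit 0, nat_lit 6], [nat_lit 1, nat_lit 6], [nat_lit 1], [nat_lit 2, nat_lit 3, nat_lit 4]],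
  [[nat_lit 1, nat_lit 2, nat_lit 3], [nat_lit 0, nat_lit 4, nat_lit 5], [nat_lit 0, nat_lit 6], [nat_lit 0, nat_lit 6], [nat_lit 1], [nat_lit 1], [nat_lit 2, nat_lit 3]],
  [[nat_lit 1, nat_lit 2, nat_lit 3], [nat_lit 0, nat_lit 4, nat_lit 5], [nat_lit 0, nat_lit 6], [nat_lit 0], [nat_lit 1, nat_lit 6], [nat_lit 1], [nat_lit 2, nat_lit 4]],
  [[nat_lit 1, nat_lit 2, nat_lit 3], [nat_lit 0, nat_lit 4, nat_lit 5], [nat_lit 0, nat_lit 6], [nat_lit 0], [nat_lit 1], [nat_lit 1], [nat_lit 2]],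
  [[nat_lit 1, nat_lit 2, nat_lit 3], [nat_lit 0, nat_lit 2, nat_lit 3], [nat_lit 0, nat_lit 1, nat_lit 4], [nat_lit 0, nat_lit 1, nat_lit 4], [nat_lit 2, nat_lit 3, nat_lit 5], [nat_lit 4, nat_lit 6, nat_lit 7], [nat_lit 5, nat_lit 7], [nat_lit 5, nat_lit 6]],
  [[nat_lit 1, nat_lit 2, nat_lit 3], [nat_lit 0, nat_lit 2, nat_lit 3], [nat_lit 0, nat_lit 1, nat_lit 4], [nat_lit 0, nat_lit 1, nat_lit 5], [nat_lit 2, nat_lit 5, nat_lit 6], [nat_lit 3, nat_lit 4, nat_lit 7], [nat_lit 4, nat_lit 7], [nat_lit 5, nat_lit 6]],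
  [[nat_lit 1, nat_lit 2, nat_lit 3], [nat_lit 0, nat_lit 2, nat_lit 3], [nat_lit 0, nat_lit 1, nat_lit 4], [nat_lit 0, nat_lit 1, nat_lit 5], [nat_lit 2, nat_lit 6, nat_lit 7], [nat_lit 3, nat_lit 6, nat_lit 7], [nat_lit 4, nat_lit 5], [nat_lit 4, nat_lit 5]],
  [[nat_lit 1, nat_lit 2, nat_lit 3], [nat_lit 0, nat_lit 2, nat_lit 3], [nat_lit 0, nat_lit 1, nat_lit 4], [nat_lit 0, nat_lit 1, nat_lit 5], [nat_lit 2, nat_lit 6, nat_lit 7], [nat_lit 3, nat_lit 6], [nat_lit 4, nat_lit 5, nat_lit 7], [nat_lit 4, nat_lit 6]],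
  [[nat_lit 1, nat_lit 2, nat_lit 3], [nat_lit 0, nat_lit 2, nat_lit 3], [nat_lit 0, nat_lit 1, nat_lit 4], [nat_lit 0, nat_lit 1, nat_lit 5], [nat_lit 2, nat_lit 6, nat_lit 7], [nat_lit 3, nat_lit 6], [nat_lit 4, nat_lit 5], [nat_lit 4]],
  [[nat_lit 1, nat_lit 2, nat_lit 3], [nat_lit 0, nat_lit 2, nat_lit 3], [nat_lit 0, nat_lit 1, nat_lit 4], [nat_lit 0, nat_lit 1, nat_lit 5], [nat_lit 2, nat_lit 6, nat_lit 7], [nat_lit 3], [nat_lit 4, nat_lit 7], [nat_lit 4, nat_lit 6]],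
  [[nat_lit 1, nat_lit 2, nat_lit 3], [nat_lit 0, nat_lit 2, nat_lit 4], [nat_lit 0, nat_lit 1, nat_lit 5], [nat_lit 0, nat_lit 4, nat_lit 6], [nat_lit 1, nat_lit 3, nat_lit 6], [nat_lit 2, nat_lit 7], [nat_lit 3, nat_lit 4, nat_lit 7], [nat_lit 5, nat_lit 6]],
  [[nat_lit 1, nat_lit 2, nat_lit 3], [nat_lit 0, nat_lit 2, nat_lit 4], [nat_lit 0, nat_lit 1, nat_lit 5], [nat_lit 0, nat_lit 4, nat_lit 6], [nat_lit 1, nat_lit 3, nat_lit 6], [nat_lit 2, nat_lit 7], [nat_lit 3, nat_lit 4], [nat_lit 5]]]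

noncomputable def op2 : List (List (List Nat)) := [
  [[nat_lit 1, nat_lit 2, nat_lit 3], [nat_lit 0, nat_lit 2, nat_lit 4], [nat_lit 0, nat_lit 1, nat_lit 5], [nat_lit 0, nat_lit 4, nat_lit 6], [nat_lit 1, nat_lit 3, nat_lit 7], [nat_lit 2, nat_lit 6, nat_lit 7], [nat_lit 3, nat_lit 5], [nat_lit 4, nat_lit 5]],
  [[nat_lit 1, nat_lit 2, nat_lit 3], [nat_lit 0, nat_lit 2, nat_lit 4], [nat_lit 0, nat_lit 1, nat_lit 5], [nat_lit 0, nat_lit 4, nat_lit 6], [nat_lit 1, nat_lit 3, nat_lit 7], [nat_lit 2, nat_lit 6], [nat_lit 3, nat_lit 5, nat_lit 7], [nat_lit 4, nat_lit 6]],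
  [[nat_lit 1, nat_lit 2, nat_lit 3], [nat_lit 0, nat_lit 2, nat_lit 4], [nat_lit 0, nat_lit 1, nat_lit 5], [nat_lit 0, nat_lit 4, nat_lit 6], [nat_lit 1, nat_lit 3, nat_lit 7], [nat_lit 2, nat_lit 6], [nat_lit 3, nat_lit 5], [nat_lit 4]],
  [[nat_lit 1, nat_lit 2, nat_lit 3], [nat_lit 0, nat_lit 2, nat_lit 4], [nat_lit 0, nat_lit 1, nat_lit 5], [nat_lit 0, nat_lit 4, nat_lit 6], [nat_lit 1, nat_lit 3, nat_lit 7], [nat_lit 2], [nat_lit 3, nat_lit 7], [nat_lit 4, nat_lit 6]],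
  [[nat_lit 1, nat_lit 2, nat_lit 3], [nat_lit 0, nat_lit 2, nat_lit 4], [nat_lit 0, nat_lit 1, nat_lit 5], [nat_lit 0, nat_lit 6, nat_lit 7], [nat_lit 1, nat_lit 6, nat_lit 7], [nat_lit 2, nat_lit 6], [nat_lit 3, nat_lit 4, nat_lit 5], [nat_lit 3, nat_lit 4]],
  [[nat_lit 1, nat_lit 2, nat_lit 3], [nat_lit 0, nat_lit 2, nat_lit 4], [nat_lit 0, nat_lit 1, nat_lit 5], [nat_lit 0, nat_lit 6, nat_lit 7], [nat_lit 1, nat_lit 6], [nat_lit 2, nat_lit 6], [nat_lit 3, nat_lit 4, nat_lit 5], [nat_lit 3]],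
  [[nat_lit 1, nat_lit 2, nat_lit 3], [nat_lit 0, nat_lit 2, nat_lit 4], [nat_lit 0, nat_lit 1, nat_lit 5], [nat_lit 0, nat_lit 6, nat_lit 7], [nat_lit 1, nat_lit 6, nat_lit 7], [nat_lit 2], [nat_lit 3, nat_lit 4], [nat_lit 3, nat_lit 4]],
  [[nat_lit 1, nat_lit 2, nat_lit 3], [nat_lit 0, nat_lit 2, nat_lit 4], [nat_lit 0, nat_lit 1, nat_lit 5], [nat_lit 0, nat_lit 6, nat_lit 7], [nat_lit 1, nat_lit 6], [nat_lit 2, nat_lit 7], [nat_lit 3, nat_lit 4, nat_lit 7], [nat_lit 3, nat_lit 5, nat_lit 6]],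
  [[nat_lit 1, nat_lit 2, nat_lit 3], [nat_lit 0, nat_lit 2, nat_lit 4], [nat_lit 0, nat_lit 1, nat_lit 5], [nat_lit 0, nat_lit 6, nat_lit 7], [nat_lit 1, nat_lit 6], [nat_lit 2, nat_lit 7], [nat_lit 3, nat_lit 4], [nat_lit 3, nat_lit 5]],
  [[nat_lit 1, nat_lit 2, nat_lit 3], [nat_lit 0, nat_lit 2, nat_lit 4], [nat_lit 0, nat_lit 1, nat_lit 5], [nat_lit 0, nat_lit 6, nat_lit 7], [nat_lit 1, nat_lit 6], [nat_lit 2], [nat_lit 3, nat_lit 4, nat_lit 7], [nat_lit 3, nat_lit 6]],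
  [[nat_lit 1, nat_lit 2, nat_lit 3], [nat_lit 0, nat_lit 2, nat_lit 4], [nat_lit 0, nat_lit 1, nat_lit 5], [nat_lit 0, nat_lit 6, nat_lit 7], [nat_lit 1, nat_lit 6], [nat_lit 2], [nat_lit 3, nat_lit 4], [nat_lit 3]],
  [[nat_lit 1, nat_lit 2, nat_lit 3], [nat_lit 0, nat_lit 2, nat_lit 4], [nat_lit 0, nat_lit 1, nat_lit 5], [nat_lit 0, nat_lit 6, nat_lit 7], [nat_lit 1], [nat_lit 2], [nat_lit 3, nat_lit 7], [nat_lit 3, nat_lit 6]],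
  [[nat_lit 1, nat_lit 2, nat_lit 3], [nat_lit 0, nat_lit 2, nat_lit 4], [nat_lit 0, nat_lit 1, nat_lit 5], [nat_lit 0, nat_lit 6, nat_lit 7], [nat_lit 1], [nat_lit 2], [nat_lit 3], [nat_lit 3]],
  [[nat_lit 1, nat_lit 2, nat_lit 3], [nat_lit 0, nat_lit 4, nat_lit 5], [nat_lit 0, nat_lit 4, nat_lit 5], [nat_lit 0, nat_lit 4, nat_lit 6], [nat_lit 1, nat_lit 2, nat_lit 3], [nat_lit 1, nat_lit 2, nat_lit 7], [nat_lit 3, nat_lit 7], [nat_lit 5, nat_lit 6]],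
  [[nat_lit 1, nat_lit 2, nat_lit 3], [nat_lit 0, nat_lit 4, nat_lit 5], [nat_lit 0, nat_lit 4, nat_lit 5], [nat_lit 0, nat_lit 4, nat_lit 6], [nat_lit 1, nat_lit 2, nat_lit 3], [nat_lit 1, nat_lit 2, nat_lit 7], [nat_lit 3], [nat_lit 5]],
  [[nat_lit 1, nat_lit 2, nat_lit 3], [nat_lit 0, nat_lit 4, nat_lit 5], [nat_lit 0, nat_lit 4, nat_lit 6], [nat_lit 0, nat_lit 4, nat_lit 7], [nat_lit 1, nat_lit 2, nat_lit 3], [nat_lit 1, nat_lit 6, nat_lit 7], [nat_lit 2, nat_lit 5], [nat_lit 3, nat_lit 5]],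
  [[nat_lit 1, nat_lit 2, nat_lit 3], [nat_lit 0, nat_lit 4, nat_lit 5], [nat_lit 0, nat_lit 4, nat_lit 6], [nat_lit 0, nat_lit 4, nat_lit 7], [nat_lit 1, nat_lit 2, nat_lit 3], [nat_lit 1, nat_lit 6], [nat_lit 2, nat_lit 5], [nat_lit 3]],
  [[nat_lit 1, nat_lit 2, nat_lit 3], [nat_lit 0, nat_lit 4, nat_lit 5], [nat_lit 0, nat_lit 4, nat_lit 6], [nat_lit 0, nat_lit 4, nat_lit 7], [nat_lit 1, nat_lit 2, nat_lit 3], [nat_lit 1], [nat_lit 2], [nat_lit 3]],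
  [[nat_lit 1, nat_lit 2, nat_lit 3], [nat_lit 0, nat_lit 4, nat_lit 5], [nat_lit 0, nat_lit 4, nat_lit 6], [nat_lit 0, nat_lit 5, nat_lit 6], [nat_lit 1, nat_lit 2, nat_lit 7], [nat_lit 1, nat_lit 3, nat_lit 7], [nat_lit 2, nat_lit 3], [nat_lit 4, nat_lit 5]],
  [[nat_lit 1, nat_lit 2, nat_lit 3], [nat_lit 0, nat_lit 4, nat_lit 5], [nat_lit 0, nat_lit 4, nat_lit 6], [nat_lit 0, nat_lit 5, nat_lit 6], [nat_lit 1, nat_lit 2, nat_lit 7], [nat_lit 1, nat_lit 3], [nat_lit 2, nat_lit 3], [nat_lit 4]],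
  [[nat_lit 1, nat_lit 2, nat_lit 3], [nat_lit 0, nat_lit 4, nat_lit 5], [nat_lit 0, nat_lit 4, nat_lit 6], [nat_lit 0, nat_lit 5, nat_lit 7], [nat_lit 1, nat_lit 2, nat_lit 6], [nat_lit 1, nat_lit 3, nat_lit 7], [nat_lit 2, nat_lit 4], [nat_lit 3, nat_lit 5]],
  [[nat_lit 1, nat_lit 2, nat_lit 3], [nat_lit 0, nat_lit 4, nat_lit 5], [nat_lit 0, nat_lit 4, nat_lit 6], [nat_lit 0, nat_lit 5, nat_lit 7], [nat_lit 1, nat_lit 2, nat_lit 6], [nat_lit 1, nat_lit 3], [nat_lit 2, nat_lit 4], [nat_lit 3]],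
  [[nat_lit 1, nat_lit 2, nat_lit 3], [nat_lit 0, nat_lit 4, nat_lit 5], [nat_lit 0, nat_lit 4, nat_lit 6], [nat_lit 0, nat_lit 5, nat_lit 7], [nat_lit 1, nat_lit 2, nat_lit 7], [nat_lit 1, nat_lit 3, nat_lit 6], [nat_lit 2, nat_lit 5], [nat_lit 3, nat_lit 4]],
  [[nat_lit 1, nat_lit 2, nat_lit 3], [nat_lit 0, nat_lit 4, nat_lit 5], [nat_lit 0, nat_lit 4, nat_lit 6], [nat_lit 0, nat_lit 5, nat_lit 7], [nat_lit 1, nat_lit 2], [nat_lit 1, nat_lit 3, nat_lit 6], [nat_lit 2, nat_lit 5, nat_lit 7], [nat_lit 3, nat_lit 6]],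
  [[nat_lit 1, nat_lit 2, nat_lit 3], [nat_lit 0, nat_lit 4, nat_lit 5], [nat_lit 0, nat_lit 4, nat_lit 6], [nat_lit 0, nat_lit 5, nat_lit 7], [nat_lit 1, nat_lit 2], [nat_lit 1, nat_lit 3, nat_lit 6], [nat_lit 2, nat_lit 5], [nat_lit 3]],
  [[nat_lit 1, nat_lit 2, nat_lit 3], [nat_lit 0, nat_lit 4, nat_lit 5], [nat_lit 0, nat_lit 4, nat_lit 6], [nat_lit 0, nat_lit 5, nat_lit 7], [nat_lit 1, nat_lit 2], [nat_lit 1, nat_lit 3], [nat_lit 2, nat_lit 7], [nat_lit 3, nat_lit 6]],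
  [[nat_lit 1, nat_lit 2, nat_lit 3], [nat_lit 0, nat_lit 4, nat_lit 5], [nat_lit 0, nat_lit 4, nat_lit 6], [nat_lit 0, nat_lit 5, nat_lit 7], [nat_lit 1, nat_lit 2], [nat_lit 1, nat_lit 3], [nat_lit 2], [nat_lit 3]],
  [[nat_lit 1, nat_lit 2, nat_lit 3], [nat_lit 0, nat_lit 4, nat_lit 5], [nat_lit 0, nat_lit 4, nat_lit 6], [nat_lit 0, nat_lit 7], [nat_lit 1, nat_lit 2, nat_lit 5], [nat_lit 1, nat_lit 4], [nat_lit 2, nat_lit 7], [nat_lit 3, nat_lit 6]],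
  [[nat_lit 1, nat_lit 2, nat_lit 3], [nat_lit 0, nat_lit 4, nat_lit 5], [nat_lit 0, nat_lit 4, nat_lit 6], [nat_lit 0, nat_lit 7], [nat_lit 1, nat_lit 2, nat_lit 5], [nat_lit 1, nat_lit 4], [nat_lit 2], [nat_lit 3]],
  [[nat_lit 1, nat_lit 2, nat_lit 3], [nat_lit 0, nat_lit 4, nat_lit 5], [nat_lit 0, nat_lit 4, nat_lit 6], [nat_lit 0, nat_lit 7], [nat_lit 1, nat_lit 2, nat_lit 7], [nat_lit 1, nat_lit 6], [nat_lit 2, nat_lit 5], [nat_lit 3, nat_lit 4]],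
  [[nat_lit 1, nat_lit 2, nat_lit 3], [nat_lit 0, nat_lit 4, nat_lit 5], [nat_lit 0, nat_lit 4, nat_lit 6], [nat_lit 0, nat_lit 7], [nat_lit 1, nat_lit 2], [nat_lit 1, nat_lit 6, nat_lit 7], [nat_lit 2, nat_lit 5], [nat_lit 3, nat_lit 5]],
  [[nat_lit 1, nat_lit 2, nat_lit 3], [nat_lit 0, nat_lit 4, nat_lit 5], [nat_lit 0, nat_lit 4, nat_lit 6], [nat_lit 0, nat_lit 7], [nat_lit 1, nat_lit 2], [nat_lit 1, nat_lit 6], [nat_lit 2, nat_lit 5], [nat_lit 3]]]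

noncomputable def op3 : List (List (List Nat)) := [
  [[nat_lit 1, nat_lit 2, nat_lit 3], [nat_lit 0, nat_lit 4, nat_lit 5], [nat_lit 0, nat_lit 4, nat_lit 6], [nat_lit 0, nat_lit 7], [nat_lit 1, nat_lit 2, nat_lit 7], [nat_lit 1], [nat_lit 2], [nat_lit 3, nat_lit 4]],
  [[nat_lit 1, nat_lit 2, nat_lit 3], [nat_lit 0, nat_lit 4, nat_lit 5], [nat_lit 0, nat_lit 4, nat_lit 6], [nat_lit 0, nat_lit 7], [nat_lit 1, nat_lit 2], [nat_lit 1, nat_lit 7], [nat_lit 2, nat_lit 7], [nat_lit 3, nat_lit 5, nat_lit 6]],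
  [[nat_lit 1, nat_lit 2, nat_lit 3], [nat_lit 0, nat_lit 4, nat_lit 5], [nat_lit 0, nat_lit 4, nat_lit 6], [nat_lit 0, nat_lit 7], [nat_lit 1, nat_lit 2], [nat_lit 1, nat_lit 7], [nat_lit 2], [nat_lit 3, nat_lit 5]],
  [[nat_lit 1, nat_lit 2, nat_lit 3], [nat_lit 0, nat_lit 4, nat_lit 5], [nat_lit 0, nat_lit 4, nat_lit 6], [nat_lit 0, nat_lit 7], [nat_lit 1, nat_lit 2], [nat_lit 1], [nat_lit 2], [nat_lit 3]],
  [[nat_lit 1, nat_lit 2, nat_lit 3], [nat_lit 0, nat_lit 4, nat_lit 5], [nat_lit 0, nat_lit 6, nat_lit 7], [nat_lit 0, nat_lit 6, nat_lit 7], [nat_lit 1, nat_lit 5, nat_lit 6], [nat_lit 1, nat_lit 4], [nat_lit 2, nat_lit 3, nat_lit 4], [nat_lit 2, nat_lit 3]],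
  [[nat_lit 1, nat_lit 2, nat_lit 3], [nat_lit 0, nat_lit 4, nat_lit 5], [nat_lit 0, nat_lit 6, nat_lit 7], [nat_lit 0, nat_lit 6], [nat_lit 1, nat_lit 5, nat_lit 6], [nat_lit 1, nat_lit 4], [nat_lit 2, nat_lit 3, nat_lit 4], [nat_lit 2]],
  [[nat_lit 1, nat_lit 2, nat_lit 3], [nat_lit 0, nat_lit 4, nat_lit 5], [nat_lit 0, nat_lit 6, nat_lit 7], [nat_lit 0, nat_lit 6, nat_lit 7], [nat_lit 1, nat_lit 5], [nat_lit 1, nat_lit 4], [nat_lit 2, nat_lit 3], [nat_lit 2, nat_lit 3]],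
  [[nat_lit 1, nat_lit 2, nat_lit 3], [nat_lit 0, nat_lit 4, nat_lit 5], [nat_lit 0, nat_lit 6, nat_lit 7], [nat_lit 0, nat_lit 6], [nat_lit 1, nat_lit 5, nat_lit 7], [nat_lit 1, nat_lit 4], [nat_lit 2, nat_lit 3, nat_lit 7], [nat_lit 2, nat_lit 4, nat_lit 6]],
  [[nat_lit 1, nat_lit 2, nat_lit 3], [nat_lit 0, nat_lit 4, nat_lit 5], [nat_lit 0, nat_lit 6, nat_lit 7], [nat_lit 0, nat_lit 6], [nat_lit 1, nat_lit 5, nat_lit 7], [nat_lit 1, nat_lit 4], [nat_lit 2, nat_lit 3], [nat_lit 2, nat_lit 4]],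
  [[nat_lit 1, nat_lit 2, nat_lit 3], [nat_lit 0, nat_lit 4, nat_lit 5], [nat_lit 0, nat_lit 6, nat_lit 7], [nat_lit 0, nat_lit 6], [nat_lit 1, nat_lit 5], [nat_lit 1, nat_lit 4], [nat_lit 2, nat_lit 3, nat_lit 7], [nat_lit 2, nat_lit 6]],
  [[nat_lit 1, nat_lit 2, nat_lit 3], [nat_lit 0, nat_lit 4, nat_lit 5], [nat_lit 0, nat_lit 6, nat_lit 7], [nat_lit 0, nat_lit 6], [nat_lit 1, nat_lit 5], [nat_lit 1, nat_lit 4], [nat_lit 2, nat_lit 3], [nat_lit 2]],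
  [[nat_lit 1, nat_lit 2, nat_lit 3], [nat_lit 0, nat_lit 4, nat_lit 5], [nat_lit 0, nat_lit 6, nat_lit 7], [nat_lit 0], [nat_lit 1, nat_lit 5, nat_lit 6], [nat_lit 1, nat_lit 4], [nat_lit 2, nat_lit 4, nat_lit 7], [nat_lit 2, nat_lit 6]],
  [[nat_lit 1, nat_lit 2, nat_lit 3], [nat_lit 0, nat_lit 4, nat_lit 5], [nat_lit 0, nat_lit 6, nat_lit 7], [nat_lit 0], [nat_lit 1, nat_lit 5, nat_lit 6], [nat_lit 1, nat_lit 4], [nat_lit 2, nat_lit 4], [nat_lit 2]],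
  [[nat_lit 1, nat_lit 2, nat_lit 3], [nat_lit 0, nat_lit 4, nat_lit 5], [nat_lit 0, nat_lit 6, nat_lit 7], [nat_lit 0], [nat_lit 1, nat_lit 5], [nat_lit 1, nat_lit 4], [nat_lit 2, nat_lit 7], [nat_lit 2, nat_lit 6]],
  [[nat_lit 1, nat_lit 2, nat_lit 3], [nat_lit 0, nat_lit 4, nat_lit 5], [nat_lit 0, nat_lit 6, nat_lit 7], [nat_lit 0], [nat_lit 1, nat_lit 5], [nat_lit 1, nat_lit 4], [nat_lit 2], [nat_lit 2]],
  [[nat_lit 1, nat_lit 2, nat_lit 3], [nat_lit 0, nat_lit 4, nat_lit 5], [nat_lit 0, nat_lit 6, nat_lit 7], [nat_lit 0, nat_lit 6, nat_lit 7], [nat_lit 1, nat_lit 6], [nat_lit 1], [nat_lit 2, nat_lit 3, nat_lit 4], [nat_lit 2, nat_lit 3]],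
  [[nat_lit 1, nat_lit 2, nat_lit 3], [nat_lit 0, nat_lit 4, nat_lit 5], [nat_lit 0, nat_lit 6, nat_lit 7], [nat_lit 0, nat_lit 6], [nat_lit 1, nat_lit 6, nat_lit 7], [nat_lit 1], [nat_lit 2, nat_lit 3, nat_lit 4], [nat_lit 2, nat_lit 4]],
  [[nat_lit 1, nat_lit 2, nat_lit 3], [nat_lit 0, nat_lit 4, nat_lit 5], [nat_lit 0, nat_lit 6, nat_lit 7], [nat_lit 0, nat_lit 6], [nat_lit 1, nat_lit 6], [nat_lit 1], [nat_lit 2, nat_lit 3, nat_lit 4], [nat_lit 2]],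
  [[nat_lit 1, nat_lit 2, nat_lit 3], [nat_lit 0, nat_lit 4, nat_lit 5], [nat_lit 0, nat_lit 6, nat_lit 7], [nat_lit 0, nat_lit 6, nat_lit 7], [nat_lit 1], [nat_lit 1], [nat_lit 2, nat_lit 3], [nat_lit 2, nat_lit 3]],
  [[nat_lit 1, nat_lit 2, nat_lit 3], [nat_lit 0, nat_lit 4, nat_lit 5], [nat_lit 0, nat_lit 6, nat_lit 7], [nat_lit 0, nat_lit 6], [nat_lit 1, nat_lit 7], [nat_lit 1, nat_lit 7], [nat_lit 2, nat_lit 3], [nat_lit 2, nat_lit 4, nat_lit 5]],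
  [[nat_lit 1, nat_lit 2, nat_lit 3], [nat_lit 0, nat_lit 4, nat_lit 5], [nat_lit 0, nat_lit 6, nat_lit 7], [nat_lit 0, nat_lit 6], [nat_lit 1, nat_lit 7], [nat_lit 1], [nat_lit 2, nat_lit 3, nat_lit 7], [nat_lit 2, nat_lit 4, nat_lit 6]],
  [[nat_lit 1, nat_lit 2, nat_lit 3], [nat_lit 0, nat_lit 4, nat_lit 5], [nat_lit 0, nat_lit 6, nat_lit 7], [nat_lit 0, nat_lit 6], [nat_lit 1, nat_lit 7], [nat_lit 1], [nat_lit 2, nat_lit 3], [nat_lit 2, nat_lit 4]],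
  [[nat_lit 1, nat_lit 2, nat_lit 3], [nat_lit 0, nat_lit 4, nat_lit 5], [nat_lit 0, nat_lit 6, nat_lit 7], [nat_lit 0, nat_lit 6], [nat_lit 1], [nat_lit 1], [nat_lit 2, nat_lit 3, nat_lit 7], [nat_lit 2, nat_lit 6]],
  [[nat_lit 1, nat_lit 2, nat_lit 3], [nat_lit 0, nat_lit 4, nat_lit 5], [nat_lit 0, nat_lit 6, nat_lit 7], [nat_lit 0, nat_lit 6], [nat_lit 1], [nat_lit 1], [nat_lit 2, nat_lit 3], [nat_lit 2]],
  [[nat_lit 1, nat_lit 2, nat_lit 3], [nat_lit 0, nat_lit 4, nat_lit 5], [nat_lit 0, nat_lit 6, nat_lit 7], [nat_lit 0], [nat_lit 1, nat_lit 6, nat_lit 7], [nat_lit 1], [nat_lit 2, nat_lit 4], [nat_lit 2, nat_lit 4]],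
  [[nat_lit 1, nat_lit 2, nat_lit 3], [nat_lit 0, nat_lit 4, nat_lit 5], [nat_lit 0, nat_lit 6, nat_lit 7], [nat_lit 0], [nat_lit 1, nat_lit 6], [nat_lit 1, nat_lit 7], [nat_lit 2, nat_lit 4], [nat_lit 2, nat_lit 5]],
  [[nat_lit 1, nat_lit 2, nat_lit 3], [nat_lit 0, nat_lit 4, nat_lit 5], [nat_lit 0, nat_lit 6, nat_lit 7], [nat_lit 0], [nat_lit 1, nat_lit 6], [nat_lit 1], [nat_lit 2, nat_lit 4], [nat_lit 2]],
  [[nat_lit 1, nat_lit 2, nat_lit 3], [nat_lit 0, nat_lit 4, nat_lit 5], [nat_lit 0, nat_lit 6, nat_lit 7], [nat_lit 0], [nat_lit 1], [nat_lit 1], [nat_lit 2], [nat_lit 2]],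
  [[nat_lit 1, nat_lit 2, nat_lit 3], [nat_lit 0, nat_lit 2, nat_lit 3], [nat_lit 0, nat_lit 1, nat_lit 4], [nat_lit 0, nat_lit 1, nat_lit 5], [nat_lit 2, nat_lit 6, nat_lit 7], [nat_lit 3, nat_lit 6, nat_lit 7], [nat_lit 4, nat_lit 5, nat_lit 8], [nat_lit 4, nat_lit 5], [nat_lit 6]],
  [[nat_lit 1, nat_lit 2, nat_lit 3], [nat_lit 0, nat_lit 2, nat_lit 3], [nat_lit 0, nat_lit 1, nat_lit 4], [nat_lit 0, nat_lit 1, nat_lit 5], [nat_lit 2, nat_lit 6, nat_lit 7], [nat_lit 3, nat_lit 8], [nat_lit 4, nat_lit 7], [nat_lit 4, nat_lit 6], [nat_lit 5]],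
  [[nat_lit 1, nat_lit 2, nat_lit 3], [nat_lit 0, nat_lit 2, nat_lit 4], [nat_lit 0, nat_lit 1, nat_lit 5], [nat_lit 0, nat_lit 4, nat_lit 6], [nat_lit 1, nat_lit 3, nat_lit 6], [nat_lit 2, nat_lit 7, nat_lit 8], [nat_lit 3, nat_lit 4], [nat_lit 5, nat_lit 8], [nat_lit 5, nat_lit 7]],
  [[nat_lit 1, nat_lit 2, nat_lit 3], [nat_lit 0, nat_lit 2, nat_lit 4], [nat_lit 0, nat_lit 1, nat_lit 5], [nat_lit 0, nat_lit 4, nat_lit 6], [nat_lit 1, nat_lit 3, nat_lit 7], [nat_lit 2, nat_lit 8], [nat_lit 3, nat_lit 7], [nat_lit 4, nat_lit 6], [nat_lit 5]]]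

noncomputable def op4 : List (List (List Nat)) := [
  [[nat_lit 1, nat_lit 2, nat_lit 3], [nat_lit 0, nat_lit 2, nat_lit 4], [nat_lit 0, nat_lit 1, nat_lit 5], [nat_lit 0, nat_lit 6, nat_lit 7], [nat_lit 1, nat_lit 6, nat_lit 8], [nat_lit 2, nat_lit 6], [nat_lit 3, nat_lit 4, nat_lit 5], [nat_lit 3, nat_lit 8], [nat_lit 4, nat_lit 7]],
  [[nat_lit 1, nat_lit 2, nat_lit 3], [nat_lit 0, nat_lit 2, nat_lit 4], [nat_lit 0, nat_lit 1, nat_lit 5], [nat_lit 0, nat_lit 6, nat_lit 7], [nat_lit 1, nat_lit 6, nat_lit 7], [nat_lit 2, nat_lit 8], [nat_lit 3, nat_lit 4, nat_lit 8], [nat_lit 3, nat_lit 4], [nat_lit 5, nat_lit 6]],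
  [[nat_lit 1, nat_lit 2, nat_lit 3], [nat_lit 0, nat_lit 2, nat_lit 4], [nat_lit 0, nat_lit 1, nat_lit 5], [nat_lit 0, nat_lit 6, nat_lit 7], [nat_lit 1, nat_lit 6, nat_lit 7], [nat_lit 2, nat_lit 8], [nat_lit 3, nat_lit 4], [nat_lit 3, nat_lit 4], [nat_lit 5]],
  [[nat_lit 1, nat_lit 2, nat_lit 3], [nat_lit 0, nat_lit 2, nat_lit 4], [nat_lit 0, nat_lit 1, nat_lit 5], [nat_lit 0, nat_lit 6, nat_lit 7], [nat_lit 1, nat_lit 6, nat_lit 8], [nat_lit 2, nat_lit 7, nat_lit 8], [nat_lit 3, nat_lit 4], [nat_lit 3, nat_lit 5], [nat_lit 4, nat_lit 5]],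
  [[nat_lit 1, nat_lit 2, nat_lit 3], [nat_lit 0, nat_lit 2, nat_lit 4], [nat_lit 0, nat_lit 1, nat_lit 5], [nat_lit 0, nat_lit 6, nat_lit 7], [nat_lit 1, nat_lit 6, nat_lit 8], [nat_lit 2, nat_lit 7], [nat_lit 3, nat_lit 4], [nat_lit 3, nat_lit 5, nat_lit 8], [nat_lit 4, nat_lit 7]],
  [[nat_lit 1, nat_lit 2, nat_lit 3], [nat_lit 0, nat_lit 2, nat_lit 4], [nat_lit 0, nat_lit 1, nat_lit 5], [nat_lit 0, nat_lit 6, nat_lit 7], [nat_lit 1, nat_lit 6, nat_lit 8], [nat_lit 2, nat_lit 7], [nat_lit 3, nat_lit 4], [nat_lit 3, nat_lit 5], [nat_lit 4]],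
  [[nat_lit 1, nat_lit 2, nat_lit 3], [nat_lit 0, nat_lit 2, nat_lit 4], [nat_lit 0, nat_lit 1, nat_lit 5], [nat_lit 0, nat_lit 6, nat_lit 7], [nat_lit 1, nat_lit 6, nat_lit 8], [nat_lit 2], [nat_lit 3, nat_lit 4], [nat_lit 3, nat_lit 8], [nat_lit 4, nat_lit 7]],
  [[nat_lit 1, nat_lit 2, nat_lit 3], [nat_lit 0, nat_lit 2, nat_lit 4], [nat_lit 0, nat_lit 1, nat_lit 5], [nat_lit 0, nat_lit 6, nat_lit 7], [nat_lit 1, nat_lit 6, nat_lit 8], [nat_lit 2], [nat_lit 3, nat_lit 4], [nat_lit 3], [nat_lit 4]],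
  [[nat_lit 1, nat_lit 2, nat_lit 3], [nat_lit 0, nat_lit 2, nat_lit 4], [nat_lit 0, nat_lit 1, nat_lit 5], [nat_lit 0, nat_lit 6, nat_lit 7], [nat_lit 1, nat_lit 8], [nat_lit 2, nat_lit 8], [nat_lit 3, nat_lit 7, nat_lit 8], [nat_lit 3, nat_lit 6], [nat_lit 4, nat_lit 5, nat_lit 6]],
  [[nat_lit 1, nat_lit 2, nat_lit 3], [nat_lit 0, nat_lit 2, nat_lit 4], [nat_lit 0, nat_lit 1, nat_lit 5], [nat_lit 0, nat_lit 6, nat_lit 7], [nat_lit 1, nat_lit 8], [nat_lit 2, nat_lit 8], [nat_lit 3, nat_lit 7], [nat_lit 3, nat_lit 6], [nat_lit 4, nat_lit 5]],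
  [[nat_lit 1, nat_lit 2, nat_lit 3], [nat_lit 0, nat_lit 2, nat_lit 4], [nat_lit 0, nat_lit 1, nat_lit 5], [nat_lit 0, nat_lit 6, nat_lit 7], [nat_lit 1, nat_lit 8], [nat_lit 2], [nat_lit 3, nat_lit 7, nat_lit 8], [nat_lit 3, nat_lit 6], [nat_lit 4, nat_lit 6]],
  [[nat_lit 1, nat_lit 2, nat_lit 3], [nat_lit 0, nat_lit 2, nat_lit 4], [nat_lit 0, nat_lit 1, nat_lit 5], [nat_lit 0, nat_lit 6, nat_lit 7], [nat_lit 1, nat_lit 8], [nat_lit 2], [nat_lit 3, nat_lit 7], [nat_lit 3, nat_lit 6], [nat_lit 4]],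
  [[nat_lit 1, nat_lit 2, nat_lit 3], [nat_lit 0, nat_lit 2, nat_lit 4], [nat_lit 0, nat_lit 1, nat_lit 5], [nat_lit 0, nat_lit 6, nat_lit 7], [nat_lit 1, nat_lit 8], [nat_lit 2, nat_lit 8], [nat_lit 3, nat_lit 8], [nat_lit 3], [nat_lit 4, nat_lit 5, nat_lit 6]],
  [[nat_lit 1, nat_lit 2, nat_lit 3], [nat_lit 0, nat_lit 2, nat_lit 4], [nat_lit 0, nat_lit 1, nat_lit 5], [nat_lit 0, nat_lit 6, nat_lit 7], [nat_lit 1, nat_lit 8], [nat_lit 2, nat_lit 8], [nat_lit 3], [nat_lit 3], [nat_lit 4, nat_lit 5]],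
  [[nat_lit 1, nat_lit 2, nat_lit 3], [nat_lit 0, nat_lit 2, nat_lit 4], [nat_lit 0, nat_lit 1, nat_lit 5], [nat_lit 0, nat_lit 6, nat_lit 7], [nat_lit 1, nat_lit 8], [nat_lit 2], [nat_lit 3, nat_lit 8], [nat_lit 3, nat_lit 8], [nat_lit 4, nat_lit 6, nat_lit 7]],
  [[nat_lit 1, nat_lit 2, nat_lit 3], [nat_lit 0, nat_lit 2, nat_lit 4], [nat_lit 0, nat_lit 1, nat_lit 5], [nat_lit 0, nat_lit 6, nat_lit 7], [nat_lit 1, nat_lit 8], [nat_lit 2], [nat_lit 3, nat_lit 8], [nat_lit 3], [nat_lit 4, nat_lit 6]],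
  [[nat_lit 1, nat_lit 2, nat_lit 3], [nat_lit 0, nat_lit 2, nat_lit 4], [nat_lit 0, nat_lit 1, nat_lit 5], [nat_lit 0, nat_lit 6, nat_lit 7], [nat_lit 1, nat_lit 8], [nat_lit 2], [nat_lit 3], [nat_lit 3], [nat_lit 4]],
  [[nat_lit 1, nat_lit 2, nat_lit 3], [nat_lit 0, nat_lit 4, nat_lit 5], [nat_lit 0, nat_lit 4, nat_lit 5], [nat_lit 0, nat_lit 4, nat_lit 6], [nat_lit 1, nat_lit 2, nat_lit 3], [nat_lit 1, nat_lit 2, nat_lit 7], [nat_lit 3, nat_lit 8], [nat_lit 5, nat_lit 8], [nat_lit 6, nat_lit 7]],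
  [[nat_lit 1, nat_lit 2, nat_lit 3], [nat_lit 0, nat_lit 4, nat_lit 5], [nat_lit 0, nat_lit 4, nat_lit 5], [nat_lit 0, nat_lit 4, nat_lit 6], [nat_lit 1, nat_lit 2, nat_lit 3], [nat_lit 1, nat_lit 2, nat_lit 7], [nat_lit 3, nat_lit 8], [nat_lit 5], [nat_lit 6]],
  [[nat_lit 1, nat_lit 2, nat_lit 3], [nat_lit 0, nat_lit 4, nat_lit 5], [nat_lit 0, nat_lit 4, nat_lit 6], [nat_lit 0, nat_lit 4, nat_lit 7], [nat_lit 1, nat_lit 2, nat_lit 3], [nat_lit 1, nat_lit 8], [nat_lit 2, nat_lit 8], [nat_lit 3, nat_lit 8], [nat_lit 5, nat_lit 6, nat_lit 7]],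
  [[nat_lit 1, nat_lit 2, nat_lit 3], [nat_lit 0, nat_lit 4, nat_lit 5], [nat_lit 0, nat_lit 4, nat_lit 6], [nat_lit 0, nat_lit 4, nat_lit 7], [nat_lit 1, nat_lit 2, nat_lit 3], [nat_lit 1, nat_lit 8], [nat_lit 2, nat_lit 8], [nat_lit 3], [nat_lit 5, nat_lit 6]],
  [[nat_lit 1, nat_lit 2, nat_lit 3], [nat_lit 0, nat_lit 4, nat_lit 5], [nat_lit 0, nat_lit 4, nat_lit 6], [nat_lit 0, nat_lit 4, nat_lit 7], [nat_lit 1, nat_lit 2, nat_lit 3], [nat_lit 1, nat_lit 8], [nat_lit 2], [nat_lit 3], [nat_lit 5]],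
  [[nat_lit 1, nat_lit 2, nat_lit 3], [nat_lit 0, nat_lit 4, nat_lit 5], [nat_lit 0, nat_lit 4, nat_lit 6], [nat_lit 0, nat_lit 5, nat_lit 7], [nat_lit 1, nat_lit 2, nat_lit 8], [nat_lit 1, nat_lit 3], [nat_lit 2, nat_lit 7, nat_lit 8], [nat_lit 3, nat_lit 6], [nat_lit 4, nat_lit 6]],
  [[nat_lit 1, nat_lit 2, nat_lit 3], [nat_lit 0, nat_lit 4, nat_lit 5], [nat_lit 0, nat_lit 4, nat_lit 6], [nat_lit 0, nat_lit 5, nat_lit 7], [nat_lit 1, nat_lit 2, nat_lit 8], [nat_lit 1, nat_lit 3], [nat_lit 2, nat_lit 7], [nat_lit 3, nat_lit 6, nat_lit 8], [nat_lit 4, nat_lit 7]],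
  [[nat_lit 1, nat_lit 2, nat_lit 3], [nat_lit 0, nat_lit 4, nat_lit 5], [nat_lit 0, nat_lit 4, nat_lit 6], [nat_lit 0, nat_lit 5, nat_lit 7], [nat_lit 1, nat_lit 2, nat_lit 8], [nat_lit 1, nat_lit 3], [nat_lit 2, nat_lit 7], [nat_lit 3, nat_lit 6], [nat_lit 4]],
  [[nat_lit 1, nat_lit 2, nat_lit 3], [nat_lit 0, nat_lit 4, nat_lit 5], [nat_lit 0, nat_lit 4, nat_lit 6], [nat_lit 0, nat_lit 5, nat_lit 7], [nat_lit 1, nat_lit 2, nat_lit 8], [nat_lit 1, nat_lit 3], [nat_lit 2, nat_lit 8], [nat_lit 3, nat_lit 8], [nat_lit 4, nat_lit 6, nat_lit 7]],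
  [[nat_lit 1, nat_lit 2, nat_lit 3], [nat_lit 0, nat_lit 4, nat_lit 5], [nat_lit 0, nat_lit 4, nat_lit 6], [nat_lit 0, nat_lit 5, nat_lit 7], [nat_lit 1, nat_lit 2, nat_lit 8], [nat_lit 1, nat_lit 3], [nat_lit 2, nat_lit 8], [nat_lit 3], [nat_lit 4, nat_lit 6]],
  [[nat_lit 1, nat_lit 2, nat_lit 3], [nat_lit 0, nat_lit 4, nat_lit 5], [nat_lit 0, nat_lit 4, nat_lit 6], [nat_lit 0, nat_lit 5, nat_lit 7], [nat_lit 1, nat_lit 2, nat_lit 8], [nat_lit 1, nat_lit 3], [nat_lit 2], [nat_lit 3, nat_lit 8], [nat_lit 4, nat_lit 7]],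
  [[nat_lit 1, nat_lit 2, nat_lit 3], [nat_lit 0, nat_lit 4, nat_lit 5], [nat_lit 0, nat_lit 4, nat_lit 6], [nat_lit 0, nat_lit 5, nat_lit 7], [nat_lit 1, nat_lit 2, nat_lit 8], [nat_lit 1, nat_lit 3], [nat_lit 2], [nat_lit 3], [nat_lit 4]],
  [[nat_lit 1, nat_lit 2, nat_lit 3], [nat_lit 0, nat_lit 4, nat_lit 5], [nat_lit 0, nat_lit 4, nat_lit 6], [nat_lit 0, nat_lit 7, nat_lit 8], [nat_lit 1, nat_lit 2, nat_lit 5], [nat_lit 1, nat_lit 4], [nat_lit 2, nat_lit 7], [nat_lit 3, nat_lit 6], [nat_lit 3]],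
  [[nat_lit 1, nat_lit 2, nat_lit 3], [nat_lit 0, nat_lit 4, nat_lit 5], [nat_lit 0, nat_lit 4, nat_lit 6], [nat_lit 0, nat_lit 7, nat_lit 8], [nat_lit 1, nat_lit 2, nat_lit 5], [nat_lit 1, nat_lit 4], [nat_lit 2], [nat_lit 3, nat_lit 8], [nat_lit 3, nat_lit 7]],
  [[nat_lit 1, nat_lit 2, nat_lit 3], [nat_lit 0, nat_lit 4, nat_lit 5], [nat_lit 0, nat_lit 4, nat_lit 6], [nat_lit 0, nat_lit 7, nat_lit 8], [nat_lit 1, nat_lit 2, nat_lit 7], [nat_lit 1, nat_lit 6, nat_lit 8], [nat_lit 2, nat_lit 5], [nat_lit 3, nat_lit 4], [nat_lit 3, nat_lit 5]]]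

noncomputable def op5 : List (List (List Nat)) := [
  [[nat_lit 1, nat_lit 2, nat_lit 3], [nat_lit 0, nat_lit 4, nat_lit 5], [nat_lit 0, nat_lit 4, nat_lit 6], [nat_lit 0, nat_lit 7, nat_lit 8], [nat_lit 1, nat_lit 2, nat_lit 7], [nat_lit 1, nat_lit 6], [nat_lit 2, nat_lit 5], [nat_lit 3, nat_lit 4, nat_lit 8], [nat_lit 3, nat_lit 7]],
  [[nat_lit 1, nat_lit 2, nat_lit 3], [nat_lit 0, nat_lit 4, nat_lit 5], [nat_lit 0, nat_lit 4, nat_lit 6], [nat_lit 0, nat_lit 7, nat_lit 8], [nat_lit 1, nat_lit 2, nat_lit 7], [nat_lit 1, nat_lit 6], [nat_lit 2, nat_lit 5], [nat_lit 3, nat_lit 4], [nat_lit 3]],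
  [[nat_lit 1, nat_lit 2, nat_lit 3], [nat_lit 0, nat_lit 4, nat_lit 5], [nat_lit 0, nat_lit 4, nat_lit 6], [nat_lit 0, nat_lit 7, nat_lit 8], [nat_lit 1, nat_lit 2], [nat_lit 1, nat_lit 6, nat_lit 7], [nat_lit 2, nat_lit 5, nat_lit 8], [nat_lit 3, nat_lit 5], [nat_lit 3, nat_lit 6]],
  [[nat_lit 1, nat_lit 2, nat_lit 3], [nat_lit 0, nat_lit 4, nat_lit 5], [nat_lit 0, nat_lit 4, nat_lit 6], [nat_lit 0, nat_lit 7, nat_lit 8], [nat_lit 1, nat_lit 2], [nat_lit 1, nat_lit 6, nat_lit 7], [nat_lit 2, nat_lit 5], [nat_lit 3, nat_lit 5, nat_lit 8], [nat_lit 3, nat_lit 7]],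
  [[nat_lit 1, nat_lit 2, nat_lit 3], [nat_lit 0, nat_lit 4, nat_lit 5], [nat_lit 0, nat_lit 4, nat_lit 6], [nat_lit 0, nat_lit 7, nat_lit 8], [nat_lit 1, nat_lit 2], [nat_lit 1, nat_lit 6, nat_lit 7], [nat_lit 2, nat_lit 5], [nat_lit 3, nat_lit 5], [nat_lit 3]],
  [[nat_lit 1, nat_lit 2, nat_lit 3], [nat_lit 0, nat_lit 4, nat_lit 5], [nat_lit 0, nat_lit 4, nat_lit 6], [nat_lit 0, nat_lit 7, nat_lit 8], [nat_lit 1, nat_lit 2], [nat_lit 1, nat_lit 6], [nat_lit 2, nat_lit 5], [nat_lit 3, nat_lit 8], [nat_lit 3, nat_lit 7]],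
  [[nat_lit 1, nat_lit 2, nat_lit 3], [nat_lit 0, nat_lit 4, nat_lit 5], [nat_lit 0, nat_lit 4, nat_lit 6], [nat_lit 0, nat_lit 7, nat_lit 8], [nat_lit 1, nat_lit 2], [nat_lit 1, nat_lit 6], [nat_lit 2, nat_lit 5], [nat_lit 3], [nat_lit 3]],
  [[nat_lit 1, nat_lit 2, nat_lit 3], [nat_lit 0, nat_lit 4, nat_lit 5], [nat_lit 0, nat_lit 4, nat_lit 6], [nat_lit 0, nat_lit 7, nat_lit 8], [nat_lit 1, nat_lit 2, nat_lit 7], [nat_lit 1, nat_lit 8], [nat_lit 2, nat_lit 8], [nat_lit 3, nat_lit 4], [nat_lit 3, nat_lit 5, nat_lit 6]],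
  [[nat_lit 1, nat_lit 2, nat_lit 3], [nat_lit 0, nat_lit 4, nat_lit 5], [nat_lit 0, nat_lit 4, nat_lit 6], [nat_lit 0, nat_lit 7, nat_lit 8], [nat_lit 1, nat_lit 2, nat_lit 7], [nat_lit 1, nat_lit 8], [nat_lit 2], [nat_lit 3, nat_lit 4], [nat_lit 3, nat_lit 5]],
  [[nat_lit 1, nat_lit 2, nat_lit 3], [nat_lit 0, nat_lit 4, nat_lit 5], [nat_lit 0, nat_lit 4, nat_lit 6], [nat_lit 0, nat_lit 7, nat_lit 8], [nat_lit 1, nat_lit 2, nat_lit 7], [nat_lit 1], [nat_lit 2], [nat_lit 3, nat_lit 4], [nat_lit 3]],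
  [[nat_lit 1, nat_lit 2, nat_lit 3], [nat_lit 0, nat_lit 4, nat_lit 5], [nat_lit 0, nat_lit 4, nat_lit 6], [nat_lit 0, nat_lit 7, nat_lit 8], [nat_lit 1, nat_lit 2], [nat_lit 1, nat_lit 7, nat_lit 8], [nat_lit 2, nat_lit 7], [nat_lit 3, nat_lit 5, nat_lit 6], [nat_lit 3, nat_lit 5]],
  [[nat_lit 1, nat_lit 2, nat_lit 3], [nat_lit 0, nat_lit 4, nat_lit 5], [nat_lit 0, nat_lit 4, nat_lit 6], [nat_lit 0, nat_lit 7, nat_lit 8], [nat_lit 1, nat_lit 2], [nat_lit 1, nat_lit 7], [nat_lit 2, nat_lit 7], [nat_lit 3, nat_lit 5, nat_lit 6], [nat_lit 3]],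
  [[nat_lit 1, nat_lit 2, nat_lit 3], [nat_lit 0, nat_lit 4, nat_lit 5], [nat_lit 0, nat_lit 4, nat_lit 6], [nat_lit 0, nat_lit 7, nat_lit 8], [nat_lit 1, nat_lit 2], [nat_lit 1, nat_lit 7, nat_lit 8], [nat_lit 2], [nat_lit 3, nat_lit 5], [nat_lit 3, nat_lit 5]],
  [[nat_lit 1, nat_lit 2, nat_lit 3], [nat_lit 0, nat_lit 4, nat_lit 5], [nat_lit 0, nat_lit 4, nat_lit 6], [nat_lit 0, nat_lit 7, nat_lit 8], [nat_lit 1, nat_lit 2], [nat_lit 1, nat_lit 7], [nat_lit 2, nat_lit 8], [nat_lit 3, nat_lit 5, nat_lit 8], [nat_lit 3, nat_lit 6, nat_lit 7]],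
  [[nat_lit 1, nat_lit 2, nat_lit 3], [nat_lit 0, nat_lit 4, nat_lit 5], [nat_lit 0, nat_lit 4, nat_lit 6], [nat_lit 0, nat_lit 7, nat_lit 8], [nat_lit 1, nat_lit 2], [nat_lit 1, nat_lit 7], [nat_lit 2, nat_lit 8], [nat_lit 3, nat_lit 5], [nat_lit 3, nat_lit 6]],
  [[nat_lit 1, nat_lit 2, nat_lit 3], [nat_lit 0, nat_lit 4, nat_lit 5], [nat_lit 0, nat_lit 4, nat_lit 6], [nat_lit 0, nat_lit 7, nat_lit 8], [nat_lit 1, nat_lit 2], [nat_lit 1, nat_lit 7], [nat_lit 2], [nat_lit 3, nat_lit 5, nat_lit 8], [nat_lit 3, nat_lit 7]],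
  [[nat_lit 1, nat_lit 2, nat_lit 3], [nat_lit 0, nat_lit 4, nat_lit 5], [nat_lit 0, nat_lit 4, nat_lit 6], [nat_lit 0, nat_lit 7, nat_lit 8], [nat_lit 1, nat_lit 2], [nat_lit 1, nat_lit 7], [nat_lit 2], [nat_lit 3, nat_lit 5], [nat_lit 3]],
  [[nat_lit 1, nat_lit 2, nat_lit 3], [nat_lit 0, nat_lit 4, nat_lit 5], [nat_lit 0, nat_lit 4, nat_lit 6], [nat_lit 0, nat_lit 7, nat_lit 8], [nat_lit 1, nat_lit 2], [nat_lit 1], [nat_lit 2], [nat_lit 3, nat_lit 8], [nat_lit 3, nat_lit 7]],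
  [[nat_lit 1, nat_lit 2, nat_lit 3], [nat_lit 0, nat_lit 4, nat_lit 5], [nat_lit 0, nat_lit 4, nat_lit 6], [nat_lit 0, nat_lit 7, nat_lit 8], [nat_lit 1, nat_lit 2], [nat_lit 1], [nat_lit 2], [nat_lit 3], [nat_lit 3]],
  [[nat_lit 1, nat_lit 2, nat_lit 3], [nat_lit 0, nat_lit 4, nat_lit 5], [nat_lit 0, nat_lit 6, nat_lit 7], [nat_lit 0, nat_lit 6, nat_lit 7], [nat_lit 1, nat_lit 5, nat_lit 8], [nat_lit 1, nat_lit 4, nat_lit 8], [nat_lit 2, nat_lit 3], [nat_lit 2, nat_lit 3], [nat_lit 4, nat_lit 5]],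
  [[nat_lit 1, nat_lit 2, nat_lit 3], [nat_lit 0, nat_lit 4, nat_lit 5], [nat_lit 0, nat_lit 6, nat_lit 7], [nat_lit 0, nat_lit 6, nat_lit 7], [nat_lit 1, nat_lit 5, nat_lit 8], [nat_lit 1, nat_lit 4], [nat_lit 2, nat_lit 3, nat_lit 8], [nat_lit 2, nat_lit 3], [nat_lit 4, nat_lit 6]],
  [[nat_lit 1, nat_lit 2, nat_lit 3], [nat_lit 0, nat_lit 4, nat_lit 5], [nat_lit 0, nat_lit 6, nat_lit 7], [nat_lit 0, nat_lit 6, nat_lit 7], [nat_lit 1, nat_lit 5, nat_lit 8], [nat_lit 1, nat_lit 4], [nat_lit 2, nat_lit 3], [nat_lit 2, nat_lit 3], [nat_lit 4]],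
  [[nat_lit 1, nat_lit 2, nat_lit 3], [nat_lit 0, nat_lit 4, nat_lit 5], [nat_lit 0, nat_lit 6, nat_lit 7], [nat_lit 0, nat_lit 8], [nat_lit 1, nat_lit 5, nat_lit 6], [nat_lit 1, nat_lit 4], [nat_lit 2, nat_lit 4, nat_lit 7], [nat_lit 2, nat_lit 6], [nat_lit 3]],
  [[nat_lit 1, nat_lit 2, nat_lit 3], [nat_lit 0, nat_lit 4, nat_lit 5], [nat_lit 0, nat_lit 6, nat_lit 7], [nat_lit 0, nat_lit 8], [nat_lit 1, nat_lit 5, nat_lit 6], [nat_lit 1, nat_lit 4, nat_lit 8], [nat_lit 2, nat_lit 4], [nat_lit 2], [nat_lit 3, nat_lit 5]],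
  [[nat_lit 1, nat_lit 2, nat_lit 3], [nat_lit 0, nat_lit 4, nat_lit 5], [nat_lit 0, nat_lit 6, nat_lit 7], [nat_lit 0, nat_lit 8], [nat_lit 1, nat_lit 5, nat_lit 6], [nat_lit 1, nat_lit 4], [nat_lit 2, nat_lit 4, nat_lit 8], [nat_lit 2], [nat_lit 3, nat_lit 6]],
  [[nat_lit 1, nat_lit 2, nat_lit 3], [nat_lit 0, nat_lit 4, nat_lit 5], [nat_lit 0, nat_lit 6, nat_lit 7], [nat_lit 0, nat_lit 8], [nat_lit 1, nat_lit 5, nat_lit 6], [nat_lit 1, nat_lit 4], [nat_lit 2, nat_lit 4], [nat_lit 2, nat_lit 8], [nat_lit 3, nat_lit 7]],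
  [[nat_lit 1, nat_lit 2, nat_lit 3], [nat_lit 0, nat_lit 4, nat_lit 5], [nat_lit 0, nat_lit 6, nat_lit 7], [nat_lit 0, nat_lit 8], [nat_lit 1, nat_lit 5, nat_lit 6], [nat_lit 1, nat_lit 4], [nat_lit 2, nat_lit 4], [nat_lit 2], [nat_lit 3]],
  [[nat_lit 1, nat_lit 2, nat_lit 3], [nat_lit 0, nat_lit 4, nat_lit 5], [nat_lit 0, nat_lit 6, nat_lit 7], [nat_lit 0, nat_lit 8], [nat_lit 1, nat_lit 5, nat_lit 8], [nat_lit 1, nat_lit 4, nat_lit 8], [nat_lit 2, nat_lit 7], [nat_lit 2, nat_lit 6], [nat_lit 3, nat_lit 4, nat_lit 5]],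
  [[nat_lit 1, nat_lit 2, nat_lit 3], [nat_lit 0, nat_lit 4, nat_lit 5], [nat_lit 0, nat_lit 6, nat_lit 7], [nat_lit 0, nat_lit 8], [nat_lit 1, nat_lit 5, nat_lit 8], [nat_lit 1, nat_lit 4], [nat_lit 2, nat_lit 7, nat_lit 8], [nat_lit 2, nat_lit 6], [nat_lit 3, nat_lit 4, nat_lit 6]],
  [[nat_lit 1, nat_lit 2, nat_lit 3], [nat_lit 0, nat_lit 4, nat_lit 5], [nat_lit 0, nat_lit 6, nat_lit 7], [nat_lit 0, nat_lit 8], [nat_lit 1, nat_lit 5, nat_lit 8], [nat_lit 1, nat_lit 4], [nat_lit 2, nat_lit 7], [nat_lit 2, nat_lit 6], [nat_lit 3, nat_lit 4]],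
  [[nat_lit 1, nat_lit 2, nat_lit 3], [nat_lit 0, nat_lit 4, nat_lit 5], [nat_lit 0, nat_lit 6, nat_lit 7], [nat_lit 0, nat_lit 8], [nat_lit 1, nat_lit 5], [nat_lit 1, nat_lit 4], [nat_lit 2, nat_lit 7], [nat_lit 2, nat_lit 6], [nat_lit 3]],
  [[nat_lit 1, nat_lit 2, nat_lit 3], [nat_lit 0, nat_lit 4, nat_lit 5], [nat_lit 0, nat_lit 6, nat_lit 7], [nat_lit 0, nat_lit 8], [nat_lit 1, nat_lit 5, nat_lit 8], [nat_lit 1, nat_lit 4], [nat_lit 2, nat_lit 8], [nat_lit 2], [nat_lit 3, nat_lit 4, nat_lit 6]]]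

noncomputable def op6 : List (List (List Nat)) := [
  [[nat_lit 1, nat_lit 2, nat_lit 3], [nat_lit 0, nat_lit 4, nat_lit 5], [nat_lit 0, nat_lit 6, nat_lit 7], [nat_lit 0, nat_lit 8], [nat_lit 1, nat_lit 5, nat_lit 8], [nat_lit 1, nat_lit 4], [nat_lit 2], [nat_lit 2], [nat_lit 3, nat_lit 4]],
  [[nat_lit 1, nat_lit 2, nat_lit 3], [nat_lit 0, nat_lit 4, nat_lit 5], [nat_lit 0, nat_lit 6, nat_lit 7], [nat_lit 0, nat_lit 8], [nat_lit 1, nat_lit 5], [nat_lit 1, nat_lit 4], [nat_lit 2, nat_lit 8], [nat_lit 2, nat_lit 8], [nat_lit 3, nat_lit 6, nat_lit 7]],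
  [[nat_lit 1, nat_lit 2, nat_lit 3], [nat_lit 0, nat_lit 4, nat_lit 5], [nat_lit 0, nat_lit 6, nat_lit 7], [nat_lit 0, nat_lit 8], [nat_lit 1, nat_lit 5], [nat_lit 1, nat_lit 4], [nat_lit 2, nat_lit 8], [nat_lit 2], [nat_lit 3, nat_lit 6]],
  [[nat_lit 1, nat_lit 2, nat_lit 3], [nat_lit 0, nat_lit 4, nat_lit 5], [nat_lit 0, nat_lit 6, nat_lit 7], [nat_lit 0, nat_lit 8], [nat_lit 1, nat_lit 5], [nat_lit 1, nat_lit 4], [nat_lit 2], [nat_lit 2], [nat_lit 3]],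
  [[nat_lit 1, nat_lit 2, nat_lit 3], [nat_lit 0, nat_lit 4, nat_lit 5], [nat_lit 0, nat_lit 6, nat_lit 7], [nat_lit 0, nat_lit 6, nat_lit 7], [nat_lit 1, nat_lit 6, nat_lit 8], [nat_lit 1, nat_lit 8], [nat_lit 2, nat_lit 3, nat_lit 4], [nat_lit 2, nat_lit 3], [nat_lit 4, nat_lit 5]],
  [[nat_lit 1, nat_lit 2, nat_lit 3], [nat_lit 0, nat_lit 4, nat_lit 5], [nat_lit 0, nat_lit 6, nat_lit 7], [nat_lit 0, nat_lit 6, nat_lit 7], [nat_lit 1, nat_lit 6, nat_lit 8], [nat_lit 1], [nat_lit 2, nat_lit 3, nat_lit 4], [nat_lit 2, nat_lit 3], [nat_lit 4]],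
  [[nat_lit 1, nat_lit 2, nat_lit 3], [nat_lit 0, nat_lit 4, nat_lit 5], [nat_lit 0, nat_lit 6, nat_lit 7], [nat_lit 0, nat_lit 6, nat_lit 7], [nat_lit 1, nat_lit 8], [nat_lit 1, nat_lit 8], [nat_lit 2, nat_lit 3, nat_lit 8], [nat_lit 2, nat_lit 3], [nat_lit 4, nat_lit 5, nat_lit 6]],
  [[nat_lit 1, nat_lit 2, nat_lit 3], [nat_lit 0, nat_lit 4, nat_lit 5], [nat_lit 0, nat_lit 6, nat_lit 7], [nat_lit 0, nat_lit 6, nat_lit 7], [nat_lit 1, nat_lit 8], [nat_lit 1, nat_lit 8], [nat_lit 2, nat_lit 3], [nat_lit 2, nat_lit 3], [nat_lit 4, nat_lit 5]],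
  [[nat_lit 1, nat_lit 2, nat_lit 3], [nat_lit 0, nat_lit 4, nat_lit 5], [nat_lit 0, nat_lit 6, nat_lit 7], [nat_lit 0, nat_lit 6, nat_lit 7], [nat_lit 1, nat_lit 8], [nat_lit 1], [nat_lit 2, nat_lit 3, nat_lit 8], [nat_lit 2, nat_lit 3], [nat_lit 4, nat_lit 6]],
  [[nat_lit 1, nat_lit 2, nat_lit 3], [nat_lit 0, nat_lit 4, nat_lit 5], [nat_lit 0, nat_lit 6, nat_lit 7], [nat_lit 0, nat_lit 6, nat_lit 7], [nat_lit 1, nat_lit 8], [nat_lit 1], [nat_lit 2, nat_lit 3], [nat_lit 2, nat_lit 3], [nat_lit 4]],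
  [[nat_lit 1, nat_lit 2, nat_lit 3], [nat_lit 0, nat_lit 4, nat_lit 5], [nat_lit 0, nat_lit 6, nat_lit 7], [nat_lit 0, nat_lit 8], [nat_lit 1, nat_lit 6, nat_lit 7], [nat_lit 1, nat_lit 8], [nat_lit 2, nat_lit 4], [nat_lit 2, nat_lit 4], [nat_lit 3, nat_lit 5]],
  [[nat_lit 1, nat_lit 2, nat_lit 3], [nat_lit 0, nat_lit 4, nat_lit 5], [nat_lit 0, nat_lit 6, nat_lit 7], [nat_lit 0, nat_lit 8], [nat_lit 1, nat_lit 6, nat_lit 7], [nat_lit 1], [nat_lit 2, nat_lit 4, nat_lit 8], [nat_lit 2, nat_lit 4], [nat_lit 3, nat_lit 6]],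
  [[nat_lit 1, nat_lit 2, nat_lit 3], [nat_lit 0, nat_lit 4, nat_lit 5], [nat_lit 0, nat_lit 6, nat_lit 7], [nat_lit 0, nat_lit 8], [nat_lit 1, nat_lit 6, nat_lit 7], [nat_lit 1], [nat_lit 2, nat_lit 4], [nat_lit 2, nat_lit 4], [nat_lit 3]],
  [[nat_lit 1, nat_lit 2, nat_lit 3], [nat_lit 0, nat_lit 4, nat_lit 5], [nat_lit 0, nat_lit 6, nat_lit 7], [nat_lit 0, nat_lit 8], [nat_lit 1, nat_lit 6, nat_lit 8], [nat_lit 1, nat_lit 7], [nat_lit 2, nat_lit 4], [nat_lit 2, nat_lit 5, nat_lit 8], [nat_lit 3, nat_lit 4, nat_lit 7]],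
  [[nat_lit 1, nat_lit 2, nat_lit 3], [nat_lit 0, nat_lit 4, nat_lit 5], [nat_lit 0, nat_lit 6, nat_lit 7], [nat_lit 0, nat_lit 8], [nat_lit 1, nat_lit 6, nat_lit 8], [nat_lit 1, nat_lit 7], [nat_lit 2, nat_lit 4], [nat_lit 2, nat_lit 5], [nat_lit 3, nat_lit 4]],
  [[nat_lit 1, nat_lit 2, nat_lit 3], [nat_lit 0, nat_lit 4, nat_lit 5], [nat_lit 0, nat_lit 6, nat_lit 7], [nat_lit 0, nat_lit 8], [nat_lit 1, nat_lit 6], [nat_lit 1, nat_lit 7], [nat_lit 2, nat_lit 4], [nat_lit 2, nat_lit 5], [nat_lit 3]],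
  [[nat_lit 1, nat_lit 2, nat_lit 3], [nat_lit 0, nat_lit 4, nat_lit 5], [nat_lit 0, nat_lit 6, nat_lit 7], [nat_lit 0, nat_lit 8], [nat_lit 1, nat_lit 6, nat_lit 8], [nat_lit 1, nat_lit 8], [nat_lit 2, nat_lit 4], [nat_lit 2], [nat_lit 3, nat_lit 4, nat_lit 5]],
  [[nat_lit 1, nat_lit 2, nat_lit 3], [nat_lit 0, nat_lit 4, nat_lit 5], [nat_lit 0, nat_lit 6, nat_lit 7], [nat_lit 0, nat_lit 8], [nat_lit 1, nat_lit 6, nat_lit 8], [nat_lit 1], [nat_lit 2, nat_lit 4], [nat_lit 2, nat_lit 8], [nat_lit 3, nat_lit 4, nat_lit 7]],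
  [[nat_lit 1, nat_lit 2, nat_lit 3], [nat_lit 0, nat_lit 4, nat_lit 5], [nat_lit 0, nat_lit 6, nat_lit 7], [nat_lit 0, nat_lit 8], [nat_lit 1, nat_lit 6, nat_lit 8], [nat_lit 1], [nat_lit 2, nat_lit 4], [nat_lit 2], [nat_lit 3, nat_lit 4]],
  [[nat_lit 1, nat_lit 2, nat_lit 3], [nat_lit 0, nat_lit 4, nat_lit 5], [nat_lit 0, nat_lit 6, nat_lit 7], [nat_lit 0, nat_lit 8], [nat_lit 1, nat_lit 6], [nat_lit 1, nat_lit 8], [nat_lit 2, nat_lit 4], [nat_lit 2, nat_lit 8], [nat_lit 3, nat_lit 5, nat_lit 7]],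
  [[nat_lit 1, nat_lit 2, nat_lit 3], [nat_lit 0, nat_lit 4, nat_lit 5], [nat_lit 0, nat_lit 6, nat_lit 7], [nat_lit 0, nat_lit 8], [nat_lit 1, nat_lit 6], [nat_lit 1, nat_lit 8], [nat_lit 2, nat_lit 4], [nat_lit 2], [nat_lit 3, nat_lit 5]],
  [[nat_lit 1, nat_lit 2, nat_lit 3], [nat_lit 0, nat_lit 4, nat_lit 5], [nat_lit 0, nat_lit 6, nat_lit 7], [nat_lit 0, nat_lit 8], [nat_lit 1, nat_lit 6], [nat_lit 1], [nat_lit 2, nat_lit 4], [nat_lit 2], [nat_lit 3]],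
  [[nat_lit 1, nat_lit 2, nat_lit 3], [nat_lit 0, nat_lit 4, nat_lit 5], [nat_lit 0, nat_lit 6, nat_lit 7], [nat_lit 0, nat_lit 8], [nat_lit 1, nat_lit 8], [nat_lit 1, nat_lit 8], [nat_lit 2], [nat_lit 2], [nat_lit 3, nat_lit 4, nat_lit 5]],
  [[nat_lit 1, nat_lit 2, nat_lit 3], [nat_lit 0, nat_lit 4, nat_lit 5], [nat_lit 0, nat_lit 6, nat_lit 7], [nat_lit 0, nat_lit 8], [nat_lit 1, nat_lit 8], [nat_lit 1], [nat_lit 2, nat_lit 8], [nat_lit 2], [nat_lit 3, nat_lit 4, nat_lit 6]],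
  [[nat_lit 1, nat_lit 2, nat_lit 3], [nat_lit 0, nat_lit 4, nat_lit 5], [nat_lit 0, nat_lit 6, nat_lit 7], [nat_lit 0, nat_lit 8], [nat_lit 1, nat_lit 8], [nat_lit 1], [nat_lit 2], [nat_lit 2], [nat_lit 3, nat_lit 4]],
  [[nat_lit 1, nat_lit 2, nat_lit 3], [nat_lit 0, nat_lit 4, nat_lit 5], [nat_lit 0, nat_lit 6, nat_lit 7], [nat_lit 0, nat_lit 8], [nat_lit 1], [nat_lit 1], [nat_lit 2], [nat_lit 2], [nat_lit 3]],
  [[nat_lit 1, nat_lit 2, nat_lit 3], [nat_lit 0, nat_lit 2, nat_lit 3], [nat_lit 0, nat_lit 1, nat_lit 4], [nat_lit 0, nat_lit 1, nat_lit 5], [nat_lit 2, nat_lit 6, nat_lit 7], [nat_lit 3, nat_lit 6, nat_lit 7], [nat_lit 4, nat_lit 5, nat_lit 8], [nat_lit 4, nat_lit 5, nat_lit 9], [nat_lit 6, nat_lit 9], [nat_lit 7, nat_lit 8]],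
  [[nat_lit 1, nat_lit 2, nat_lit 3], [nat_lit 0, nat_lit 2, nat_lit 3], [nat_lit 0, nat_lit 1, nat_lit 4], [nat_lit 0, nat_lit 1, nat_lit 5], [nat_lit 2, nat_lit 6, nat_lit 7], [nat_lit 3, nat_lit 8, nat_lit 9], [nat_lit 4, nat_lit 7], [nat_lit 4, nat_lit 6], [nat_lit 5, nat_lit 9], [nat_lit 5, nat_lit 8]],
  [[nat_lit 1, nat_lit 2, nat_lit 3], [nat_lit 0, nat_lit 2, nat_lit 4], [nat_lit 0, nat_lit 1, nat_lit 5], [nat_lit 0, nat_lit 4, nat_lit 6], [nat_lit 1, nat_lit 3, nat_lit 7], [nat_lit 2, nat_lit 8, nat_lit 9], [nat_lit 3, nat_lit 7], [nat_lit 4, nat_lit 6], [nat_lit 5, nat_lit 9], [nat_lit 5, nat_lit 8]],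
  [[nat_lit 1, nat_lit 2, nat_lit 3], [nat_lit 0, nat_lit 2, nat_lit 4], [nat_lit 0, nat_lit 1, nat_lit 5], [nat_lit 0, nat_lit 6, nat_lit 7], [nat_lit 1, nat_lit 6, nat_lit 7], [nat_lit 2, nat_lit 8, nat_lit 9], [nat_lit 3, nat_lit 4], [nat_lit 3, nat_lit 4], [nat_lit 5, nat_lit 9], [nat_lit 5, nat_lit 8]],
  [[nat_lit 1, nat_lit 2, nat_lit 3], [nat_lit 0, nat_lit 2, nat_lit 4], [nat_lit 0, nat_lit 1, nat_lit 5], [nat_lit 0, nat_lit 6, nat_lit 7], [nat_lit 1, nat_lit 6, nat_lit 8], [nat_lit 2, nat_lit 9], [nat_lit 3, nat_lit 4, nat_lit 9], [nat_lit 3, nat_lit 8], [nat_lit 4, nat_lit 7], [nat_lit 5, nat_lit 6]],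
  [[nat_lit 1, nat_lit 2, nat_lit 3], [nat_lit 0, nat_lit 2, nat_lit 4], [nat_lit 0, nat_lit 1, nat_lit 5], [nat_lit 0, nat_lit 6, nat_lit 7], [nat_lit 1, nat_lit 6, nat_lit 8], [nat_lit 2, nat_lit 9], [nat_lit 3, nat_lit 4], [nat_lit 3, nat_lit 8, nat_lit 9], [nat_lit 4, nat_lit 7], [nat_lit 5, nat_lit 7]]]

noncomputable def op7 : List (List (List Nat)) := [
  [[nat_lit 1, nat_lit 2, nat_lit 3], [nat_lit 0, nat_lit 2, nat_lit 4], [nat_lit 0, nat_lit 1, nat_lit 5], [nat_lit 0, nat_lit 6, nat_lit 7], [nat_lit 1, nat_lit 6, nat_lit 8], [nat_lit 2, nat_lit 9], [nat_lit 3, nat_lit 4], [nat_lit 3, nat_lit 8], [nat_lit 4, nat_lit 7], [nat_lit 5]],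
  [[nat_lit 1, nat_lit 2, nat_lit 3], [nat_lit 0, nat_lit 2, nat_lit 4], [nat_lit 0, nat_lit 1, nat_lit 5], [nat_lit 0, nat_lit 6, nat_lit 7], [nat_lit 1, nat_lit 6, nat_lit 8], [nat_lit 2, nat_lit 9], [nat_lit 3, nat_lit 4, nat_lit 9], [nat_lit 3], [nat_lit 4], [nat_lit 5, nat_lit 6]],
  [[nat_lit 1, nat_lit 2, nat_lit 3], [nat_lit 0, nat_lit 2, nat_lit 4], [nat_lit 0, nat_lit 1, nat_lit 5], [nat_lit 0, nat_lit 6, nat_lit 7], [nat_lit 1, nat_lit 6, nat_lit 8], [nat_lit 2, nat_lit 9], [nat_lit 3, nat_lit 4], [nat_lit 3, nat_lit 9], [nat_lit 4, nat_lit 9], [nat_lit 5, nat_lit 7, nat_lit 8]],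
  [[nat_lit 1, nat_lit 2, nat_lit 3], [nat_lit 0, nat_lit 2, nat_lit 4], [nat_lit 0, nat_lit 1, nat_lit 5], [nat_lit 0, nat_lit 6, nat_lit 7], [nat_lit 1, nat_lit 6, nat_lit 8], [nat_lit 2, nat_lit 9], [nat_lit 3, nat_lit 4], [nat_lit 3, nat_lit 9], [nat_lit 4], [nat_lit 5, nat_lit 7]],
  [[nat_lit 1, nat_lit 2, nat_lit 3], [nat_lit 0, nat_lit 2, nat_lit 4], [nat_lit 0, nat_lit 1, nat_lit 5], [nat_lit 0, nat_lit 6, nat_lit 7], [nat_lit 1, nat_lit 6, nat_lit 8], [nat_lit 2, nat_lit 9], [nat_lit 3, nat_lit 4], [nat_lit 3], [nat_lit 4], [nat_lit 5]],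
  [[nat_lit 1, nat_lit 2, nat_lit 3], [nat_lit 0, nat_lit 2, nat_lit 4], [nat_lit 0, nat_lit 1, nat_lit 5], [nat_lit 0, nat_lit 6, nat_lit 7], [nat_lit 1, nat_lit 8, nat_lit 9], [nat_lit 2, nat_lit 8], [nat_lit 3, nat_lit 7], [nat_lit 3, nat_lit 6], [nat_lit 4, nat_lit 5, nat_lit 9], [nat_lit 4, nat_lit 8]],
  [[nat_lit 1, nat_lit 2, nat_lit 3], [nat_lit 0, nat_lit 2, nat_lit 4], [nat_lit 0, nat_lit 1, nat_lit 5], [nat_lit 0, nat_lit 6, nat_lit 7], [nat_lit 1, nat_lit 8, nat_lit 9], [nat_lit 2, nat_lit 8], [nat_lit 3, nat_lit 7], [nat_lit 3, nat_lit 6], [nat_lit 4, nat_lit 5], [nat_lit 4]],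
  [[nat_lit 1, nat_lit 2, nat_lit 3], [nat_lit 0, nat_lit 2, nat_lit 4], [nat_lit 0, nat_lit 1, nat_lit 5], [nat_lit 0, nat_lit 6, nat_lit 7], [nat_lit 1, nat_lit 8, nat_lit 9], [nat_lit 2], [nat_lit 3, nat_lit 7], [nat_lit 3, nat_lit 6], [nat_lit 4, nat_lit 9], [nat_lit 4, nat_lit 8]],
  [[nat_lit 1, nat_lit 2, nat_lit 3], [nat_lit 0, nat_lit 2, nat_lit 4], [nat_lit 0, nat_lit 1, nat_lit 5], [nat_lit 0, nat_lit 6, nat_lit 7], [nat_lit 1, nat_lit 8, nat_lit 9], [nat_lit 2], [nat_lit 3, nat_lit 7], [nat_lit 3, nat_lit 6], [nat_lit 4], [nat_lit 4]],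
  [[nat_lit 1, nat_lit 2, nat_lit 3], [nat_lit 0, nat_lit 2, nat_lit 4], [nat_lit 0, nat_lit 1, nat_lit 5], [nat_lit 0, nat_lit 6, nat_lit 7], [nat_lit 1, nat_lit 8, nat_lit 9], [nat_lit 2, nat_lit 8], [nat_lit 3, nat_lit 9], [nat_lit 3, nat_lit 9], [nat_lit 4, nat_lit 5], [nat_lit 4, nat_lit 6, nat_lit 7]],
  [[nat_lit 1, nat_lit 2, nat_lit 3], [nat_lit 0, nat_lit 2, nat_lit 4], [nat_lit 0, nat_lit 1, nat_lit 5], [nat_lit 0, nat_lit 6, nat_lit 7], [nat_lit 1, nat_lit 8, nat_lit 9], [nat_lit 2, nat_lit 8], [nat_lit 3, nat_lit 9], [nat_lit 3], [nat_lit 4, nat_lit 5], [nat_lit 4, nat_lit 6]],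
  [[nat_lit 1, nat_lit 2, nat_lit 3], [nat_lit 0, nat_lit 2, nat_lit 4], [nat_lit 0, nat_lit 1, nat_lit 5], [nat_lit 0, nat_lit 6, nat_lit 7], [nat_lit 1, nat_lit 8, nat_lit 9], [nat_lit 2], [nat_lit 3, nat_lit 8], [nat_lit 3, nat_lit 9], [nat_lit 4, nat_lit 6], [nat_lit 4, nat_lit 7]],
  [[nat_lit 1, nat_lit 2, nat_lit 3], [nat_lit 0, nat_lit 2, nat_lit 4], [nat_lit 0, nat_lit 1, nat_lit 5], [nat_lit 0, nat_lit 6, nat_lit 7], [nat_lit 1, nat_lit 8, nat_lit 9], [nat_lit 2], [nat_lit 3, nat_lit 8], [nat_lit 3], [nat_lit 4, nat_lit 6], [nat_lit 4]],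
  [[nat_lit 1, nat_lit 2, nat_lit 3], [nat_lit 0, nat_lit 4, nat_lit 5], [nat_lit 0, nat_lit 4, nat_lit 5], [nat_lit 0, nat_lit 4, nat_lit 6], [nat_lit 1, nat_lit 2, nat_lit 3], [nat_lit 1, nat_lit 2, nat_lit 7], [nat_lit 3, nat_lit 8, nat_lit 9], [nat_lit 5], [nat_lit 6, nat_lit 9], [nat_lit 6, nat_lit 8]],
  [[nat_lit 1, nat_lit 2, nat_lit 3], [nat_lit 0, nat_lit 4, nat_lit 5], [nat_lit 0, nat_lit 4, nat_lit 6], [nat_lit 0, nat_lit 4, nat_lit 7], [nat_lit 1, nat_lit 2, nat_lit 3], [nat_lit 1, nat_lit 8, nat_lit 9], [nat_lit 2, nat_lit 8], [nat_lit 3, nat_lit 9], [nat_lit 5, nat_lit 6, nat_lit 9], [nat_lit 5, nat_lit 7, nat_lit 8]],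
  [[nat_lit 1, nat_lit 2, nat_lit 3], [nat_lit 0, nat_lit 4, nat_lit 5], [nat_lit 0, nat_lit 4, nat_lit 6], [nat_lit 0, nat_lit 4, nat_lit 7], [nat_lit 1, nat_lit 2, nat_lit 3], [nat_lit 1, nat_lit 8, nat_lit 9], [nat_lit 2, nat_lit 8], [nat_lit 3, nat_lit 9], [nat_lit 5, nat_lit 6], [nat_lit 5, nat_lit 7]],
  [[nat_lit 1, nat_lit 2, nat_lit 3], [nat_lit 0, nat_lit 4, nat_lit 5], [nat_lit 0, nat_lit 4, nat_lit 6], [nat_lit 0, nat_lit 4, nat_lit 7], [nat_lit 1, nat_lit 2, nat_lit 3], [nat_lit 1, nat_lit 8, nat_lit 9], [nat_lit 2], [nat_lit 3], [nat_lit 5, nat_lit 9], [nat_lit 5, nat_lit 8]],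
  [[nat_lit 1, nat_lit 2, nat_lit 3], [nat_lit 0, nat_lit 4, nat_lit 5], [nat_lit 0, nat_lit 4, nat_lit 6], [nat_lit 0, nat_lit 5, nat_lit 7], [nat_lit 1, nat_lit 2, nat_lit 8], [nat_lit 1, nat_lit 3, nat_lit 9], [nat_lit 2, nat_lit 7], [nat_lit 3, nat_lit 6], [nat_lit 4, nat_lit 9], [nat_lit 5, nat_lit 8]],
  [[nat_lit 1, nat_lit 2, nat_lit 3], [nat_lit 0, nat_lit 4, nat_lit 5], [nat_lit 0, nat_lit 4, nat_lit 6], [nat_lit 0, nat_lit 5, nat_lit 7], [nat_lit 1, nat_lit 2, nat_lit 8], [nat_lit 1, nat_lit 3, nat_lit 9], [nat_lit 2, nat_lit 8], [nat_lit 3, nat_lit 9], [nat_lit 4, nat_lit 6], [nat_lit 5, nat_lit 7]],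
  [[nat_lit 1, nat_lit 2, nat_lit 3], [nat_lit 0, nat_lit 4, nat_lit 5], [nat_lit 0, nat_lit 4, nat_lit 6], [nat_lit 0, nat_lit 5, nat_lit 7], [nat_lit 1, nat_lit 2, nat_lit 8], [nat_lit 1, nat_lit 3, nat_lit 9], [nat_lit 2, nat_lit 9], [nat_lit 3, nat_lit 8], [nat_lit 4, nat_lit 7], [nat_lit 5, nat_lit 6]],
  [[nat_lit 1, nat_lit 2, nat_lit 3], [nat_lit 0, nat_lit 4, nat_lit 5], [nat_lit 0, nat_lit 4, nat_lit 6], [nat_lit 0, nat_lit 7, nat_lit 8], [nat_lit 1, nat_lit 2, nat_lit 5], [nat_lit 1, nat_lit 4, nat_lit 9], [nat_lit 2, nat_lit 9], [nat_lit 3, nat_lit 8], [nat_lit 3, nat_lit 7], [nat_lit 5, nat_lit 6]],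
  [[nat_lit 1, nat_lit 2, nat_lit 3], [nat_lit 0, nat_lit 4, nat_lit 5], [nat_lit 0, nat_lit 4, nat_lit 6], [nat_lit 0, nat_lit 7, nat_lit 8], [nat_lit 1, nat_lit 2, nat_lit 7], [nat_lit 1, nat_lit 6, nat_lit 9], [nat_lit 2, nat_lit 5], [nat_lit 3, nat_lit 4], [nat_lit 3, nat_lit 9], [nat_lit 5, nat_lit 8]],
  [[nat_lit 1, nat_lit 2, nat_lit 3], [nat_lit 0, nat_lit 4, nat_lit 5], [nat_lit 0, nat_lit 4, nat_lit 6], [nat_lit 0, nat_lit 7, nat_lit 8], [nat_lit 1, nat_lit 2, nat_lit 7], [nat_lit 1, nat_lit 6, nat_lit 9], [nat_lit 2, nat_lit 5], [nat_lit 3, nat_lit 4], [nat_lit 3], [nat_lit 5]],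
  [[nat_lit 1, nat_lit 2, nat_lit 3], [nat_lit 0, nat_lit 4, nat_lit 5], [nat_lit 0, nat_lit 4, nat_lit 6], [nat_lit 0, nat_lit 7, nat_lit 8], [nat_lit 1, nat_lit 2, nat_lit 9], [nat_lit 1, nat_lit 6, nat_lit 9], [nat_lit 2, nat_lit 5], [nat_lit 3, nat_lit 8], [nat_lit 3, nat_lit 7], [nat_lit 4, nat_lit 5]],
  [[nat_lit 1, nat_lit 2, nat_lit 3], [nat_lit 0, nat_lit 4, nat_lit 5], [nat_lit 0, nat_lit 4, nat_lit 6], [nat_lit 0, nat_lit 7, nat_lit 8], [nat_lit 1, nat_lit 2, nat_lit 9], [nat_lit 1, nat_lit 6], [nat_lit 2, nat_lit 5], [nat_lit 3, nat_lit 8, nat_lit 9], [nat_lit 3, nat_lit 7], [nat_lit 4, nat_lit 7]],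
  [[nat_lit 1, nat_lit 2, nat_lit 3], [nat_lit 0, nat_lit 4, nat_lit 5], [nat_lit 0, nat_lit 4, nat_lit 6], [nat_lit 0, nat_lit 7, nat_lit 8], [nat_lit 1, nat_lit 2, nat_lit 9], [nat_lit 1, nat_lit 6], [nat_lit 2, nat_lit 5], [nat_lit 3, nat_lit 8], [nat_lit 3, nat_lit 7], [nat_lit 4]],
  [[nat_lit 1, nat_lit 2, nat_lit 3], [nat_lit 0, nat_lit 4, nat_lit 5], [nat_lit 0, nat_lit 4, nat_lit 6], [nat_lit 0, nat_lit 7, nat_lit 8], [nat_lit 1, nat_lit 2, nat_lit 9], [nat_lit 1, nat_lit 6], [nat_lit 2, nat_lit 5], [nat_lit 3, nat_lit 9], [nat_lit 3, nat_lit 9], [nat_lit 4, nat_lit 7, nat_lit 8]],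
  [[nat_lit 1, nat_lit 2, nat_lit 3], [nat_lit 0, nat_lit 4, nat_lit 5], [nat_lit 0, nat_lit 4, nat_lit 6], [nat_lit 0, nat_lit 7, nat_lit 8], [nat_lit 1, nat_lit 2, nat_lit 9], [nat_lit 1, nat_lit 6], [nat_lit 2, nat_lit 5], [nat_lit 3, nat_lit 9], [nat_lit 3], [nat_lit 4, nat_lit 7]],
  [[nat_lit 1, nat_lit 2, nat_lit 3], [nat_lit 0, nat_lit 4, nat_lit 5], [nat_lit 0, nat_lit 4, nat_lit 6], [nat_lit 0, nat_lit 7, nat_lit 8], [nat_lit 1, nat_lit 2, nat_lit 9], [nat_lit 1, nat_lit 6], [nat_lit 2, nat_lit 5], [nat_lit 3], [nat_lit 3], [nat_lit 4]],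
  [[nat_lit 1, nat_lit 2, nat_lit 3], [nat_lit 0, nat_lit 4, nat_lit 5], [nat_lit 0, nat_lit 4, nat_lit 6], [nat_lit 0, nat_lit 7, nat_lit 8], [nat_lit 1, nat_lit 2, nat_lit 7], [nat_lit 1, nat_lit 9], [nat_lit 2, nat_lit 9], [nat_lit 3, nat_lit 4], [nat_lit 3, nat_lit 9], [nat_lit 5, nat_lit 6, nat_lit 8]],
  [[nat_lit 1, nat_lit 2, nat_lit 3], [nat_lit 0, nat_lit 4, nat_lit 5], [nat_lit 0, nat_lit 4, nat_lit 6], [nat_lit 0, nat_lit 7, nat_lit 8], [nat_lit 1, nat_lit 2, nat_lit 7], [nat_lit 1, nat_lit 9], [nat_lit 2, nat_lit 9], [nat_lit 3, nat_lit 4], [nat_lit 3], [nat_lit 5, nat_lit 6]],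
  [[nat_lit 1, nat_lit 2, nat_lit 3], [nat_lit 0, nat_lit 4, nat_lit 5], [nat_lit 0, nat_lit 4, nat_lit 6], [nat_lit 0, nat_lit 7, nat_lit 8], [nat_lit 1, nat_lit 2, nat_lit 7], [nat_lit 1, nat_lit 9], [nat_lit 2], [nat_lit 3, nat_lit 4], [nat_lit 3, nat_lit 9], [nat_lit 5, nat_lit 8]]]

noncomputable def op8 : List (List (List Nat)) := [
  [[nat_lit 1, nat_lit 2, nat_lit 3], [nat_lit 0, nat_lit 4, nat_lit 5], [nat_lit 0, nat_lit 4, nat_lit 6], [nat_lit 0, nat_lit 7, nat_lit 8], [nat_lit 1, nat_lit 2, nat_lit 7], [nat_lit 1, nat_lit 9], [nat_lit 2], [nat_lit 3, nat_lit 4], [nat_lit 3], [nat_lit 5]],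
  [[nat_lit 1, nat_lit 2, nat_lit 3], [nat_lit 0, nat_lit 4, nat_lit 5], [nat_lit 0, nat_lit 4, nat_lit 6], [nat_lit 0, nat_lit 7, nat_lit 8], [nat_lit 1, nat_lit 2, nat_lit 9], [nat_lit 1, nat_lit 7], [nat_lit 2, nat_lit 7], [nat_lit 3, nat_lit 5, nat_lit 6], [nat_lit 3, nat_lit 9], [nat_lit 4, nat_lit 8]],
  [[nat_lit 1, nat_lit 2, nat_lit 3], [nat_lit 0, nat_lit 4, nat_lit 5], [nat_lit 0, nat_lit 4, nat_lit 6], [nat_lit 0, nat_lit 7, nat_lit 8], [nat_lit 1, nat_lit 2, nat_lit 9], [nat_lit 1, nat_lit 7, nat_lit 8], [nat_lit 2, nat_lit 9], [nat_lit 3, nat_lit 5], [nat_lit 3, nat_lit 5], [nat_lit 4, nat_lit 6]],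
  [[nat_lit 1, nat_lit 2, nat_lit 3], [nat_lit 0, nat_lit 4, nat_lit 5], [nat_lit 0, nat_lit 4, nat_lit 6], [nat_lit 0, nat_lit 7, nat_lit 8], [nat_lit 1, nat_lit 2, nat_lit 9], [nat_lit 1, nat_lit 7], [nat_lit 2, nat_lit 8], [nat_lit 3, nat_lit 5, nat_lit 9], [nat_lit 3, nat_lit 6, nat_lit 9], [nat_lit 4, nat_lit 7, nat_lit 8]],
  [[nat_lit 1, nat_lit 2, nat_lit 3], [nat_lit 0, nat_lit 4, nat_lit 5], [nat_lit 0, nat_lit 4, nat_lit 6], [nat_lit 0, nat_lit 7, nat_lit 8], [nat_lit 1, nat_lit 2, nat_lit 9], [nat_lit 1, nat_lit 7], [nat_lit 2, nat_lit 8], [nat_lit 3, nat_lit 5, nat_lit 9], [nat_lit 3, nat_lit 6], [nat_lit 4, nat_lit 7]],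
  [[nat_lit 1, nat_lit 2, nat_lit 3], [nat_lit 0, nat_lit 4, nat_lit 5], [nat_lit 0, nat_lit 4, nat_lit 6], [nat_lit 0, nat_lit 7, nat_lit 8], [nat_lit 1, nat_lit 2, nat_lit 9], [nat_lit 1, nat_lit 7], [nat_lit 2, nat_lit 8], [nat_lit 3, nat_lit 5], [nat_lit 3, nat_lit 6], [nat_lit 4]],
  [[nat_lit 1, nat_lit 2, nat_lit 3], [nat_lit 0, nat_lit 4, nat_lit 5], [nat_lit 0, nat_lit 4, nat_lit 6], [nat_lit 0, nat_lit 7, nat_lit 8], [nat_lit 1, nat_lit 2, nat_lit 9], [nat_lit 1, nat_lit 7], [nat_lit 2, nat_lit 9], [nat_lit 3, nat_lit 5, nat_lit 8], [nat_lit 3, nat_lit 7], [nat_lit 4, nat_lit 6]],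
  [[nat_lit 1, nat_lit 2, nat_lit 3], [nat_lit 0, nat_lit 4, nat_lit 5], [nat_lit 0, nat_lit 4, nat_lit 6], [nat_lit 0, nat_lit 7, nat_lit 8], [nat_lit 1, nat_lit 2, nat_lit 9], [nat_lit 1, nat_lit 7], [nat_lit 2, nat_lit 9], [nat_lit 3, nat_lit 5], [nat_lit 3, nat_lit 9], [nat_lit 4, nat_lit 6, nat_lit 8]],
  [[nat_lit 1, nat_lit 2, nat_lit 3], [nat_lit 0, nat_lit 4, nat_lit 5], [nat_lit 0, nat_lit 4, nat_lit 6], [nat_lit 0, nat_lit 7, nat_lit 8], [nat_lit 1, nat_lit 2, nat_lit 9], [nat_lit 1, nat_lit 7], [nat_lit 2, nat_lit 9], [nat_lit 3, nat_lit 5], [nat_lit 3], [nat_lit 4, nat_lit 6]],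
  [[nat_lit 1, nat_lit 2, nat_lit 3], [nat_lit 0, nat_lit 4, nat_lit 5], [nat_lit 0, nat_lit 4, nat_lit 6], [nat_lit 0, nat_lit 7, nat_lit 8], [nat_lit 1, nat_lit 2, nat_lit 9], [nat_lit 1, nat_lit 7], [nat_lit 2], [nat_lit 3, nat_lit 5, nat_lit 9], [nat_lit 3, nat_lit 9], [nat_lit 4, nat_lit 7, nat_lit 8]],
  [[nat_lit 1, nat_lit 2, nat_lit 3], [nat_lit 0, nat_lit 4, nat_lit 5], [nat_lit 0, nat_lit 4, nat_lit 6], [nat_lit 0, nat_lit 7, nat_lit 8], [nat_lit 1, nat_lit 2, nat_lit 9], [nat_lit 1, nat_lit 7], [nat_lit 2], [nat_lit 3, nat_lit 5], [nat_lit 3, nat_lit 9], [nat_lit 4, nat_lit 8]],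
  [[nat_lit 1, nat_lit 2, nat_lit 3], [nat_lit 0, nat_lit 4, nat_lit 5], [nat_lit 0, nat_lit 4, nat_lit 6], [nat_lit 0, nat_lit 7, nat_lit 8], [nat_lit 1, nat_lit 2, nat_lit 9], [nat_lit 1, nat_lit 9], [nat_lit 2, nat_lit 9], [nat_lit 3, nat_lit 8], [nat_lit 3, nat_lit 7], [nat_lit 4, nat_lit 5, nat_lit 6]],
  [[nat_lit 1, nat_lit 2, nat_lit 3], [nat_lit 0, nat_lit 4, nat_lit 5], [nat_lit 0, nat_lit 4, nat_lit 6], [nat_lit 0, nat_lit 7, nat_lit 8], [nat_lit 1, nat_lit 2, nat_lit 9], [nat_lit 1, nat_lit 9], [nat_lit 2], [nat_lit 3, nat_lit 8], [nat_lit 3, nat_lit 7], [nat_lit 4, nat_lit 5]],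
  [[nat_lit 1, nat_lit 2, nat_lit 3], [nat_lit 0, nat_lit 4, nat_lit 5], [nat_lit 0, nat_lit 4, nat_lit 6], [nat_lit 0, nat_lit 7, nat_lit 8], [nat_lit 1, nat_lit 2, nat_lit 9], [nat_lit 1], [nat_lit 2], [nat_lit 3, nat_lit 8, nat_lit 9], [nat_lit 3, nat_lit 7], [nat_lit 4, nat_lit 7]],
  [[nat_lit 1, nat_lit 2, nat_lit 3], [nat_lit 0, nat_lit 4, nat_lit 5], [nat_lit 0, nat_lit 4, nat_lit 6], [nat_lit 0, nat_lit 7, nat_lit 8], [nat_lit 1, nat_lit 2, nat_lit 9], [nat_lit 1], [nat_lit 2], [nat_lit 3, nat_lit 8], [nat_lit 3, nat_lit 7], [nat_lit 4]],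
  [[nat_lit 1, nat_lit 2, nat_lit 3], [nat_lit 0, nat_lit 4, nat_lit 5], [nat_lit 0, nat_lit 4, nat_lit 6], [nat_lit 0, nat_lit 7, nat_lit 8], [nat_lit 1, nat_lit 2, nat_lit 9], [nat_lit 1], [nat_lit 2], [nat_lit 3, nat_lit 9], [nat_lit 3, nat_lit 9], [nat_lit 4, nat_lit 7, nat_lit 8]],
  [[nat_lit 1, nat_lit 2, nat_lit 3], [nat_lit 0, nat_lit 4, nat_lit 5], [nat_lit 0, nat_lit 4, nat_lit 6], [nat_lit 0, nat_lit 7, nat_lit 8], [nat_lit 1, nat_lit 2, nat_lit 9], [nat_lit 1], [nat_lit 2], [nat_lit 3, nat_lit 9], [nat_lit 3], [nat_lit 4, nat_lit 7]],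
  [[nat_lit 1, nat_lit 2, nat_lit 3], [nat_lit 0, nat_lit 4, nat_lit 5], [nat_lit 0, nat_lit 6, nat_lit 7], [nat_lit 0, nat_lit 6, nat_lit 7], [nat_lit 1, nat_lit 5, nat_lit 8], [nat_lit 1, nat_lit 4, nat_lit 8], [nat_lit 2, nat_lit 3, nat_lit 9], [nat_lit 2, nat_lit 3], [nat_lit 4, nat_lit 5], [nat_lit 6]],
  [[nat_lit 1, nat_lit 2, nat_lit 3], [nat_lit 0, nat_lit 4, nat_lit 5], [nat_lit 0, nat_lit 6, nat_lit 7], [nat_lit 0, nat_lit 6, nat_lit 7], [nat_lit 1, nat_lit 5, nat_lit 8], [nat_lit 1, nat_lit 4, nat_lit 9], [nat_lit 2, nat_lit 3, nat_lit 8], [nat_lit 2, nat_lit 3], [nat_lit 4, nat_lit 6], [nat_lit 5]],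
  [[nat_lit 1, nat_lit 2, nat_lit 3], [nat_lit 0, nat_lit 4, nat_lit 5], [nat_lit 0, nat_lit 6, nat_lit 7], [nat_lit 0, nat_lit 6, nat_lit 7], [nat_lit 1, nat_lit 5, nat_lit 8], [nat_lit 1, nat_lit 4, nat_lit 9], [nat_lit 2, nat_lit 3], [nat_lit 2, nat_lit 3], [nat_lit 4, nat_lit 9], [nat_lit 5, nat_lit 8]],
  [[nat_lit 1, nat_lit 2, nat_lit 3], [nat_lit 0, nat_lit 4, nat_lit 5], [nat_lit 0, nat_lit 6, nat_lit 7], [nat_lit 0, nat_lit 6, nat_lit 7], [nat_lit 1, nat_lit 5, nat_lit 8], [nat_lit 1, nat_lit 4, nat_lit 9], [nat_lit 2, nat_lit 3], [nat_lit 2, nat_lit 3], [nat_lit 4], [nat_lit 5]],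
  [[nat_lit 1, nat_lit 2, nat_lit 3], [nat_lit 0, nat_lit 4, nat_lit 5], [nat_lit 0, nat_lit 6, nat_lit 7], [nat_lit 0, nat_lit 8, nat_lit 9], [nat_lit 1, nat_lit 5, nat_lit 6], [nat_lit 1, nat_lit 4], [nat_lit 2, nat_lit 4, nat_lit 7], [nat_lit 2, nat_lit 6], [nat_lit 3, nat_lit 9], [nat_lit 3, nat_lit 8]],
  [[nat_lit 1, nat_lit 2, nat_lit 3], [nat_lit 0, nat_lit 4, nat_lit 5], [nat_lit 0, nat_lit 6, nat_lit 7], [nat_lit 0, nat_lit 8, nat_lit 9], [nat_lit 1, nat_lit 5, nat_lit 6], [nat_lit 1, nat_lit 4, nat_lit 8], [nat_lit 2, nat_lit 4], [nat_lit 2, nat_lit 9], [nat_lit 3, nat_lit 5], [nat_lit 3, nat_lit 7]],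
  [[nat_lit 1, nat_lit 2, nat_lit 3], [nat_lit 0, nat_lit 4, nat_lit 5], [nat_lit 0, nat_lit 6, nat_lit 7], [nat_lit 0, nat_lit 8, nat_lit 9], [nat_lit 1, nat_lit 5, nat_lit 6], [nat_lit 1, nat_lit 4, nat_lit 8], [nat_lit 2, nat_lit 4], [nat_lit 2], [nat_lit 3, nat_lit 5], [nat_lit 3]],
  [[nat_lit 1, nat_lit 2, nat_lit 3], [nat_lit 0, nat_lit 4, nat_lit 5], [nat_lit 0, nat_lit 6, nat_lit 7], [nat_lit 0, nat_lit 8, nat_lit 9], [nat_lit 1, nat_lit 5, nat_lit 6], [nat_lit 1, nat_lit 4], [nat_lit 2, nat_lit 4, nat_lit 8], [nat_lit 2, nat_lit 9], [nat_lit 3, nat_lit 6], [nat_lit 3, nat_lit 7]],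
  [[nat_lit 1, nat_lit 2, nat_lit 3], [nat_lit 0, nat_lit 4, nat_lit 5], [nat_lit 0, nat_lit 6, nat_lit 7], [nat_lit 0, nat_lit 8, nat_lit 9], [nat_lit 1, nat_lit 5, nat_lit 6], [nat_lit 1, nat_lit 4], [nat_lit 2, nat_lit 4], [nat_lit 2, nat_lit 8, nat_lit 9], [nat_lit 3, nat_lit 7], [nat_lit 3, nat_lit 7]],
  [[nat_lit 1, nat_lit 2, nat_lit 3], [nat_lit 0, nat_lit 4, nat_lit 5], [nat_lit 0, nat_lit 6, nat_lit 7], [nat_lit 0, nat_lit 8, nat_lit 9], [nat_lit 1, nat_lit 5, nat_lit 6], [nat_lit 1, nat_lit 4], [nat_lit 2, nat_lit 4], [nat_lit 2, nat_lit 8], [nat_lit 3, nat_lit 7, nat_lit 9], [nat_lit 3, nat_lit 8]],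
  [[nat_lit 1, nat_lit 2, nat_lit 3], [nat_lit 0, nat_lit 4, nat_lit 5], [nat_lit 0, nat_lit 6, nat_lit 7], [nat_lit 0, nat_lit 8, nat_lit 9], [nat_lit 1, nat_lit 5, nat_lit 6], [nat_lit 1, nat_lit 4], [nat_lit 2, nat_lit 4], [nat_lit 2, nat_lit 8], [nat_lit 3, nat_lit 7], [nat_lit 3]],
  [[nat_lit 1, nat_lit 2, nat_lit 3], [nat_lit 0, nat_lit 4, nat_lit 5], [nat_lit 0, nat_lit 6, nat_lit 7], [nat_lit 0, nat_lit 8, nat_lit 9], [nat_lit 1, nat_lit 5, nat_lit 6], [nat_lit 1, nat_lit 4], [nat_lit 2, nat_lit 4], [nat_lit 2], [nat_lit 3, nat_lit 9], [nat_lit 3, nat_lit 8]],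
  [[nat_lit 1, nat_lit 2, nat_lit 3], [nat_lit 0, nat_lit 4, nat_lit 5], [nat_lit 0, nat_lit 6, nat_lit 7], [nat_lit 0, nat_lit 8, nat_lit 9], [nat_lit 1, nat_lit 5, nat_lit 6], [nat_lit 1, nat_lit 4], [nat_lit 2, nat_lit 4], [nat_lit 2], [nat_lit 3], [nat_lit 3]],
  [[nat_lit 1, nat_lit 2, nat_lit 3], [nat_lit 0, nat_lit 4, nat_lit 5], [nat_lit 0, nat_lit 6, nat_lit 7], [nat_lit 0, nat_lit 8, nat_lit 9], [nat_lit 1, nat_lit 5, nat_lit 8], [nat_lit 1, nat_lit 4, nat_lit 9], [nat_lit 2, nat_lit 7], [nat_lit 2, nat_lit 6], [nat_lit 3, nat_lit 4], [nat_lit 3, nat_lit 5]],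
  [[nat_lit 1, nat_lit 2, nat_lit 3], [nat_lit 0, nat_lit 4, nat_lit 5], [nat_lit 0, nat_lit 6, nat_lit 7], [nat_lit 0, nat_lit 8, nat_lit 9], [nat_lit 1, nat_lit 5], [nat_lit 1, nat_lit 4], [nat_lit 2, nat_lit 7], [nat_lit 2, nat_lit 6], [nat_lit 3, nat_lit 9], [nat_lit 3, nat_lit 8]]]

noncomputable def op9 : List (List (List Nat)) := [
  [[nat_lit 1, nat_lit 2, nat_lit 3], [nat_lit 0, nat_lit 4, nat_lit 5], [nat_lit 0, nat_lit 6, nat_lit 7], [nat_lit 0, nat_lit 8, nat_lit 9], [nat_lit 1, nat_lit 5], [nat_lit 1, nat_lit 4], [nat_lit 2, nat_lit 7], [nat_lit 2, nat_lit 6], [nat_lit 3], [nat_lit 3]],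
  [[nat_lit 1, nat_lit 2, nat_lit 3], [nat_lit 0, nat_lit 4, nat_lit 5], [nat_lit 0, nat_lit 6, nat_lit 7], [nat_lit 0, nat_lit 8, nat_lit 9], [nat_lit 1, nat_lit 5, nat_lit 8], [nat_lit 1, nat_lit 4, nat_lit 9], [nat_lit 2], [nat_lit 2], [nat_lit 3, nat_lit 4], [nat_lit 3, nat_lit 5]],
  [[nat_lit 1, nat_lit 2, nat_lit 3], [nat_lit 0, nat_lit 4, nat_lit 5], [nat_lit 0, nat_lit 6, nat_lit 7], [nat_lit 0, nat_lit 8, nat_lit 9], [nat_lit 1, nat_lit 5], [nat_lit 1, nat_lit 4], [nat_lit 2, nat_lit 8, nat_lit 9], [nat_lit 2, nat_lit 8], [nat_lit 3, nat_lit 6, nat_lit 7], [nat_lit 3, nat_lit 6]],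
  [[nat_lit 1, nat_lit 2, nat_lit 3], [nat_lit 0, nat_lit 4, nat_lit 5], [nat_lit 0, nat_lit 6, nat_lit 7], [nat_lit 0, nat_lit 8, nat_lit 9], [nat_lit 1, nat_lit 5], [nat_lit 1, nat_lit 4], [nat_lit 2, nat_lit 8], [nat_lit 2, nat_lit 8], [nat_lit 3, nat_lit 6, nat_lit 7], [nat_lit 3]],
  [[nat_lit 1, nat_lit 2, nat_lit 3], [nat_lit 0, nat_lit 4, nat_lit 5], [nat_lit 0, nat_lit 6, nat_lit 7], [nat_lit 0, nat_lit 8, nat_lit 9], [nat_lit 1, nat_lit 5], [nat_lit 1, nat_lit 4], [nat_lit 2, nat_lit 8], [nat_lit 2, nat_lit 9], [nat_lit 3, nat_lit 6], [nat_lit 3, nat_lit 7]],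
  [[nat_lit 1, nat_lit 2, nat_lit 3], [nat_lit 0, nat_lit 4, nat_lit 5], [nat_lit 0, nat_lit 6, nat_lit 7], [nat_lit 0, nat_lit 8, nat_lit 9], [nat_lit 1, nat_lit 5], [nat_lit 1, nat_lit 4], [nat_lit 2, nat_lit 8], [nat_lit 2], [nat_lit 3, nat_lit 6], [nat_lit 3]],
  [[nat_lit 1, nat_lit 2, nat_lit 3], [nat_lit 0, nat_lit 4, nat_lit 5], [nat_lit 0, nat_lit 6, nat_lit 7], [nat_lit 0, nat_lit 8, nat_lit 9], [nat_lit 1, nat_lit 5], [nat_lit 1, nat_lit 4], [nat_lit 2], [nat_lit 2], [nat_lit 3], [nat_lit 3]],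
  [[nat_lit 1, nat_lit 2, nat_lit 3], [nat_lit 0, nat_lit 4, nat_lit 5], [nat_lit 0, nat_lit 6, nat_lit 7], [nat_lit 0, nat_lit 6, nat_lit 7], [nat_lit 1, nat_lit 6, nat_lit 8], [nat_lit 1, nat_lit 9], [nat_lit 2, nat_lit 3, nat_lit 4], [nat_lit 2, nat_lit 3], [nat_lit 4, nat_lit 9], [nat_lit 5, nat_lit 8]],
  [[nat_lit 1, nat_lit 2, nat_lit 3], [nat_lit 0, nat_lit 4, nat_lit 5], [nat_lit 0, nat_lit 6, nat_lit 7], [nat_lit 0, nat_lit 6, nat_lit 7], [nat_lit 1, nat_lit 6, nat_lit 8], [nat_lit 1, nat_lit 9], [nat_lit 2, nat_lit 3, nat_lit 4], [nat_lit 2, nat_lit 3], [nat_lit 4], [nat_lit 5]],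
  [[nat_lit 1, nat_lit 2, nat_lit 3], [nat_lit 0, nat_lit 4, nat_lit 5], [nat_lit 0, nat_lit 6, nat_lit 7], [nat_lit 0, nat_lit 6, nat_lit 7], [nat_lit 1, nat_lit 8, nat_lit 9], [nat_lit 1, nat_lit 8, nat_lit 9], [nat_lit 2, nat_lit 3, nat_lit 8], [nat_lit 2, nat_lit 3], [nat_lit 4, nat_lit 5, nat_lit 6], [nat_lit 4, nat_lit 5]],
  [[nat_lit 1, nat_lit 2, nat_lit 3], [nat_lit 0, nat_lit 4, nat_lit 5], [nat_lit 0, nat_lit 6, nat_lit 7], [nat_lit 0, nat_lit 6, nat_lit 7], [nat_lit 1, nat_lit 8, nat_lit 9], [nat_lit 1, nat_lit 8], [nat_lit 2, nat_lit 3, nat_lit 8], [nat_lit 2, nat_lit 3], [nat_lit 4, nat_lit 5, nat_lit 6], [nat_lit 4]],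
  [[nat_lit 1, nat_lit 2, nat_lit 3], [nat_lit 0, nat_lit 4, nat_lit 5], [nat_lit 0, nat_lit 6, nat_lit 7], [nat_lit 0, nat_lit 6, nat_lit 7], [nat_lit 1, nat_lit 8, nat_lit 9], [nat_lit 1, nat_lit 8, nat_lit 9], [nat_lit 2, nat_lit 3], [nat_lit 2, nat_lit 3], [nat_lit 4, nat_lit 5], [nat_lit 4, nat_lit 5]],
  [[nat_lit 1, nat_lit 2, nat_lit 3], [nat_lit 0, nat_lit 4, nat_lit 5], [nat_lit 0, nat_lit 6, nat_lit 7], [nat_lit 0, nat_lit 6, nat_lit 7], [nat_lit 1, nat_lit 8, nat_lit 9], [nat_lit 1, nat_lit 8], [nat_lit 2, nat_lit 3, nat_lit 9], [nat_lit 2, nat_lit 3], [nat_lit 4, nat_lit 5], [nat_lit 4, nat_lit 6]],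
  [[nat_lit 1, nat_lit 2, nat_lit 3], [nat_lit 0, nat_lit 4, nat_lit 5], [nat_lit 0, nat_lit 6, nat_lit 7], [nat_lit 0, nat_lit 6, nat_lit 7], [nat_lit 1, nat_lit 8, nat_lit 9], [nat_lit 1, nat_lit 8], [nat_lit 2, nat_lit 3], [nat_lit 2, nat_lit 3], [nat_lit 4, nat_lit 5, nat_lit 9], [nat_lit 4, nat_lit 8]],
  [[nat_lit 1, nat_lit 2, nat_lit 3], [nat_lit 0, nat_lit 4, nat_lit 5], [nat_lit 0, nat_lit 6, nat_lit 7], [nat_lit 0, nat_lit 6, nat_lit 7], [nat_lit 1, nat_lit 8, nat_lit 9], [nat_lit 1, nat_lit 8], [nat_lit 2, nat_lit 3], [nat_lit 2, nat_lit 3], [nat_lit 4, nat_lit 5], [nat_lit 4]],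
  [[nat_lit 1, nat_lit 2, nat_lit 3], [nat_lit 0, nat_lit 4, nat_lit 5], [nat_lit 0, nat_lit 6, nat_lit 7], [nat_lit 0, nat_lit 6, nat_lit 7], [nat_lit 1, nat_lit 8, nat_lit 9], [nat_lit 1], [nat_lit 2, nat_lit 3, nat_lit 8], [nat_lit 2, nat_lit 3], [nat_lit 4, nat_lit 6, nat_lit 9], [nat_lit 4, nat_lit 8]],
  [[nat_lit 1, nat_lit 2, nat_lit 3], [nat_lit 0, nat_lit 4, nat_lit 5], [nat_lit 0, nat_lit 6, nat_lit 7], [nat_lit 0, nat_lit 6, nat_lit 7], [nat_lit 1, nat_lit 8, nat_lit 9], [nat_lit 1], [nat_lit 2, nat_lit 3, nat_lit 8], [nat_lit 2, nat_lit 3], [nat_lit 4, nat_lit 6], [nat_lit 4]],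
  [[nat_lit 1, nat_lit 2, nat_lit 3], [nat_lit 0, nat_lit 4, nat_lit 5], [nat_lit 0, nat_lit 6, nat_lit 7], [nat_lit 0, nat_lit 6, nat_lit 7], [nat_lit 1, nat_lit 8, nat_lit 9], [nat_lit 1], [nat_lit 2, nat_lit 3], [nat_lit 2, nat_lit 3], [nat_lit 4, nat_lit 9], [nat_lit 4, nat_lit 8]],
  [[nat_lit 1, nat_lit 2, nat_lit 3], [nat_lit 0, nat_lit 4, nat_lit 5], [nat_lit 0, nat_lit 6, nat_lit 7], [nat_lit 0, nat_lit 6, nat_lit 7], [nat_lit 1, nat_lit 8, nat_lit 9], [nat_lit 1], [nat_lit 2, nat_lit 3], [nat_lit 2, nat_lit 3], [nat_lit 4], [nat_lit 4]],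
  [[nat_lit 1, nat_lit 2, nat_lit 3], [nat_lit 0, nat_lit 4, nat_lit 5], [nat_lit 0, nat_lit 6, nat_lit 7], [nat_lit 0, nat_lit 8, nat_lit 9], [nat_lit 1, nat_lit 6, nat_lit 7], [nat_lit 1, nat_lit 8, nat_lit 9], [nat_lit 2, nat_lit 4], [nat_lit 2, nat_lit 4], [nat_lit 3, nat_lit 5], [nat_lit 3, nat_lit 5]],
  [[nat_lit 1, nat_lit 2, nat_lit 3], [nat_lit 0, nat_lit 4, nat_lit 5], [nat_lit 0, nat_lit 6, nat_lit 7], [nat_lit 0, nat_lit 8, nat_lit 9], [nat_lit 1, nat_lit 6, nat_lit 7], [nat_lit 1, nat_lit 8], [nat_lit 2, nat_lit 4, nat_lit 9], [nat_lit 2, nat_lit 4], [nat_lit 3, nat_lit 5], [nat_lit 3, nat_lit 6]],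
  [[nat_lit 1, nat_lit 2, nat_lit 3], [nat_lit 0, nat_lit 4, nat_lit 5], [nat_lit 0, nat_lit 6, nat_lit 7], [nat_lit 0, nat_lit 8, nat_lit 9], [nat_lit 1, nat_lit 6, nat_lit 7], [nat_lit 1, nat_lit 8], [nat_lit 2, nat_lit 4], [nat_lit 2, nat_lit 4], [nat_lit 3, nat_lit 5], [nat_lit 3]],
  [[nat_lit 1, nat_lit 2, nat_lit 3], [nat_lit 0, nat_lit 4, nat_lit 5], [nat_lit 0, nat_lit 6, nat_lit 7], [nat_lit 0, nat_lit 8, nat_lit 9], [nat_lit 1, nat_lit 6, nat_lit 7], [nat_lit 1], [nat_lit 2, nat_lit 4, nat_lit 8], [nat_lit 2, nat_lit 4], [nat_lit 3, nat_lit 6], [nat_lit 3]],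
  [[nat_lit 1, nat_lit 2, nat_lit 3], [nat_lit 0, nat_lit 4, nat_lit 5], [nat_lit 0, nat_lit 6, nat_lit 7], [nat_lit 0, nat_lit 8, nat_lit 9], [nat_lit 1, nat_lit 6, nat_lit 7], [nat_lit 1], [nat_lit 2, nat_lit 4], [nat_lit 2, nat_lit 4], [nat_lit 3], [nat_lit 3]],
  [[nat_lit 1, nat_lit 2, nat_lit 3], [nat_lit 0, nat_lit 4, nat_lit 5], [nat_lit 0, nat_lit 6, nat_lit 7], [nat_lit 0, nat_lit 8, nat_lit 9], [nat_lit 1, nat_lit 6, nat_lit 8], [nat_lit 1, nat_lit 7, nat_lit 9], [nat_lit 2, nat_lit 4], [nat_lit 2, nat_lit 5, nat_lit 8], [nat_lit 3, nat_lit 4, nat_lit 7], [nat_lit 3, nat_lit 5]],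
  [[nat_lit 1, nat_lit 2, nat_lit 3], [nat_lit 0, nat_lit 4, nat_lit 5], [nat_lit 0, nat_lit 6, nat_lit 7], [nat_lit 0, nat_lit 8, nat_lit 9], [nat_lit 1, nat_lit 6, nat_lit 8], [nat_lit 1, nat_lit 7], [nat_lit 2, nat_lit 4], [nat_lit 2, nat_lit 5, nat_lit 8], [nat_lit 3, nat_lit 4, nat_lit 7], [nat_lit 3]],
  [[nat_lit 1, nat_lit 2, nat_lit 3], [nat_lit 0, nat_lit 4, nat_lit 5], [nat_lit 0, nat_lit 6, nat_lit 7], [nat_lit 0, nat_lit 8, nat_lit 9], [nat_lit 1, nat_lit 6, nat_lit 8], [nat_lit 1, nat_lit 7, nat_lit 9], [nat_lit 2, nat_lit 4], [nat_lit 2, nat_lit 5], [nat_lit 3, nat_lit 4], [nat_lit 3, nat_lit 5]],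
  [[nat_lit 1, nat_lit 2, nat_lit 3], [nat_lit 0, nat_lit 4, nat_lit 5], [nat_lit 0, nat_lit 6, nat_lit 7], [nat_lit 0, nat_lit 8, nat_lit 9], [nat_lit 1, nat_lit 6, nat_lit 8], [nat_lit 1, nat_lit 7], [nat_lit 2, nat_lit 4, nat_lit 9], [nat_lit 2, nat_lit 5], [nat_lit 3, nat_lit 4], [nat_lit 3, nat_lit 6]],
  [[nat_lit 1, nat_lit 2, nat_lit 3], [nat_lit 0, nat_lit 4, nat_lit 5], [nat_lit 0, nat_lit 6, nat_lit 7], [nat_lit 0, nat_lit 8, nat_lit 9], [nat_lit 1, nat_lit 6, nat_lit 8], [nat_lit 1, nat_lit 7], [nat_lit 2, nat_lit 4], [nat_lit 2, nat_lit 5, nat_lit 9], [nat_lit 3, nat_lit 4], [nat_lit 3, nat_lit 7]],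
  [[nat_lit 1, nat_lit 2, nat_lit 3], [nat_lit 0, nat_lit 4, nat_lit 5], [nat_lit 0, nat_lit 6, nat_lit 7], [nat_lit 0, nat_lit 8, nat_lit 9], [nat_lit 1, nat_lit 6, nat_lit 8], [nat_lit 1, nat_lit 7], [nat_lit 2, nat_lit 4], [nat_lit 2, nat_lit 5], [nat_lit 3, nat_lit 4], [nat_lit 3]],
  [[nat_lit 1, nat_lit 2, nat_lit 3], [nat_lit 0, nat_lit 4, nat_lit 5], [nat_lit 0, nat_lit 6, nat_lit 7], [nat_lit 0, nat_lit 8, nat_lit 9], [nat_lit 1, nat_lit 6], [nat_lit 1, nat_lit 7], [nat_lit 2, nat_lit 4], [nat_lit 2, nat_lit 5], [nat_lit 3], [nat_lit 3]],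
  [[nat_lit 1, nat_lit 2, nat_lit 3], [nat_lit 0, nat_lit 4, nat_lit 5], [nat_lit 0, nat_lit 6, nat_lit 7], [nat_lit 0, nat_lit 8, nat_lit 9], [nat_lit 1, nat_lit 6, nat_lit 8], [nat_lit 1], [nat_lit 2, nat_lit 4], [nat_lit 2, nat_lit 8], [nat_lit 3, nat_lit 4, nat_lit 7], [nat_lit 3]]]

noncomputable def op10 : List (List (List Nat)) := [
  [[nat_lit 1, nat_lit 2, nat_lit 3], [nat_lit 0, nat_lit 4, nat_lit 5], [nat_lit 0, nat_lit 6, nat_lit 7], [nat_lit 0, nat_lit 8, nat_lit 9], [nat_lit 1, nat_lit 6, nat_lit 8], [nat_lit 1], [nat_lit 2, nat_lit 4], [nat_lit 2, nat_lit 9], [nat_lit 3, nat_lit 4], [nat_lit 3, nat_lit 7]],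
  [[nat_lit 1, nat_lit 2, nat_lit 3], [nat_lit 0, nat_lit 4, nat_lit 5], [nat_lit 0, nat_lit 6, nat_lit 7], [nat_lit 0, nat_lit 8, nat_lit 9], [nat_lit 1, nat_lit 6, nat_lit 8], [nat_lit 1], [nat_lit 2, nat_lit 4], [nat_lit 2], [nat_lit 3, nat_lit 4], [nat_lit 3]],
  [[nat_lit 1, nat_lit 2, nat_lit 3], [nat_lit 0, nat_lit 4, nat_lit 5], [nat_lit 0, nat_lit 6, nat_lit 7], [nat_lit 0, nat_lit 8, nat_lit 9], [nat_lit 1, nat_lit 6], [nat_lit 1, nat_lit 8], [nat_lit 2, nat_lit 4], [nat_lit 2, nat_lit 9], [nat_lit 3, nat_lit 5], [nat_lit 3, nat_lit 7]],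
  [[nat_lit 1, nat_lit 2, nat_lit 3], [nat_lit 0, nat_lit 4, nat_lit 5], [nat_lit 0, nat_lit 6, nat_lit 7], [nat_lit 0, nat_lit 8, nat_lit 9], [nat_lit 1, nat_lit 6], [nat_lit 1, nat_lit 8], [nat_lit 2, nat_lit 4], [nat_lit 2], [nat_lit 3, nat_lit 5], [nat_lit 3]],
  [[nat_lit 1, nat_lit 2, nat_lit 3], [nat_lit 0, nat_lit 4, nat_lit 5], [nat_lit 0, nat_lit 6, nat_lit 7], [nat_lit 0, nat_lit 8, nat_lit 9], [nat_lit 1, nat_lit 6], [nat_lit 1], [nat_lit 2, nat_lit 4], [nat_lit 2], [nat_lit 3], [nat_lit 3]],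
  [[nat_lit 1, nat_lit 2, nat_lit 3], [nat_lit 0, nat_lit 4, nat_lit 5], [nat_lit 0, nat_lit 6, nat_lit 7], [nat_lit 0, nat_lit 8, nat_lit 9], [nat_lit 1, nat_lit 8, nat_lit 9], [nat_lit 1, nat_lit 8], [nat_lit 2], [nat_lit 2], [nat_lit 3, nat_lit 4, nat_lit 5], [nat_lit 3, nat_lit 4]],
  [[nat_lit 1, nat_lit 2, nat_lit 3], [nat_lit 0, nat_lit 4, nat_lit 5], [nat_lit 0, nat_lit 6, nat_lit 7], [nat_lit 0, nat_lit 8, nat_lit 9], [nat_lit 1], [nat_lit 1], [nat_lit 2], [nat_lit 2], [nat_lit 3], [nat_lit 3]],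
  [[nat_lit 1, nat_lit 2, nat_lit 3], [nat_lit 0, nat_lit 2, nat_lit 4], [nat_lit 0, nat_lit 1, nat_lit 5], [nat_lit 0, nat_lit 6, nat_lit 7], [nat_lit 1, nat_lit 6, nat_lit 7], [nat_lit 2, nat_lit 8, nat_lit 9], [nat_lit 3, nat_lit 4, nat_lit 10], [nat_lit 3, nat_lit 4], [nat_lit 5, nat_lit 9], [nat_lit 5, nat_lit 8], [nat_lit 6]],
  [[nat_lit 1, nat_lit 2, nat_lit 3], [nat_lit 0, nat_lit 2, nat_lit 4], [nat_lit 0, nat_lit 1, nat_lit 5], [nat_lit 0, nat_lit 6, nat_lit 7], [nat_lit 1, nat_lit 6, nat_lit 8], [nat_lit 2, nat_lit 9, nat_lit 10], [nat_lit 3, nat_lit 4], [nat_lit 3, nat_lit 8], [nat_lit 4, nat_lit 7], [nat_lit 5, nat_lit 10], [nat_lit 5, nat_lit 9]],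
  [[nat_lit 1, nat_lit 2, nat_lit 3], [nat_lit 0, nat_lit 2, nat_lit 4], [nat_lit 0, nat_lit 1, nat_lit 5], [nat_lit 0, nat_lit 6, nat_lit 7], [nat_lit 1, nat_lit 6, nat_lit 8], [nat_lit 2, nat_lit 9, nat_lit 10], [nat_lit 3, nat_lit 4], [nat_lit 3], [nat_lit 4], [nat_lit 5, nat_lit 10], [nat_lit 5, nat_lit 9]],
  [[nat_lit 1, nat_lit 2, nat_lit 3], [nat_lit 0, nat_lit 2, nat_lit 4], [nat_lit 0, nat_lit 1, nat_lit 5], [nat_lit 0, nat_lit 6, nat_lit 7], [nat_lit 1, nat_lit 8, nat_lit 9], [nat_lit 2, nat_lit 10], [nat_lit 3, nat_lit 7, nat_lit 10], [nat_lit 3, nat_lit 6], [nat_lit 4, nat_lit 9], [nat_lit 4, nat_lit 8], [nat_lit 5, nat_lit 6]],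
  [[nat_lit 1, nat_lit 2, nat_lit 3], [nat_lit 0, nat_lit 2, nat_lit 4], [nat_lit 0, nat_lit 1, nat_lit 5], [nat_lit 0, nat_lit 6, nat_lit 7], [nat_lit 1, nat_lit 8, nat_lit 9], [nat_lit 2, nat_lit 10], [nat_lit 3, nat_lit 7], [nat_lit 3, nat_lit 6], [nat_lit 4, nat_lit 9], [nat_lit 4, nat_lit 8], [nat_lit 5]],
  [[nat_lit 1, nat_lit 2, nat_lit 3], [nat_lit 0, nat_lit 2, nat_lit 4], [nat_lit 0, nat_lit 1, nat_lit 5], [nat_lit 0, nat_lit 6, nat_lit 7], [nat_lit 1, nat_lit 8, nat_lit 9], [nat_lit 2, nat_lit 10], [nat_lit 3, nat_lit 7], [nat_lit 3, nat_lit 6], [nat_lit 4, nat_lit 10], [nat_lit 4, nat_lit 10], [nat_lit 5, nat_lit 8, nat_lit 9]],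
  [[nat_lit 1, nat_lit 2, nat_lit 3], [nat_lit 0, nat_lit 2, nat_lit 4], [nat_lit 0, nat_lit 1, nat_lit 5], [nat_lit 0, nat_lit 6, nat_lit 7], [nat_lit 1, nat_lit 8, nat_lit 9], [nat_lit 2, nat_lit 10], [nat_lit 3, nat_lit 7], [nat_lit 3, nat_lit 6], [nat_lit 4, nat_lit 10], [nat_lit 4], [nat_lit 5, nat_lit 8]],
  [[nat_lit 1, nat_lit 2, nat_lit 3], [nat_lit 0, nat_lit 2, nat_lit 4], [nat_lit 0, nat_lit 1, nat_lit 5], [nat_lit 0, nat_lit 6, nat_lit 7], [nat_lit 1, nat_lit 8, nat_lit 9], [nat_lit 2, nat_lit 10], [nat_lit 3, nat_lit 7], [nat_lit 3, nat_lit 6], [nat_lit 4], [nat_lit 4], [nat_lit 5]],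
  [[nat_lit 1, nat_lit 2, nat_lit 3], [nat_lit 0, nat_lit 2, nat_lit 4], [nat_lit 0, nat_lit 1, nat_lit 5], [nat_lit 0, nat_lit 6, nat_lit 7], [nat_lit 1, nat_lit 8, nat_lit 9], [nat_lit 2, nat_lit 10], [nat_lit 3, nat_lit 8], [nat_lit 3, nat_lit 9], [nat_lit 4, nat_lit 6], [nat_lit 4, nat_lit 7], [nat_lit 5]],
  [[nat_lit 1, nat_lit 2, nat_lit 3], [nat_lit 0, nat_lit 2, nat_lit 4], [nat_lit 0, nat_lit 1, nat_lit 5], [nat_lit 0, nat_lit 6, nat_lit 7], [nat_lit 1, nat_lit 8, nat_lit 9], [nat_lit 2, nat_lit 10], [nat_lit 3, nat_lit 8], [nat_lit 3, nat_lit 10], [nat_lit 4, nat_lit 6], [nat_lit 4, nat_lit 10], [nat_lit 5, nat_lit 7, nat_lit 9]],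
  [[nat_lit 1, nat_lit 2, nat_lit 3], [nat_lit 0, nat_lit 2, nat_lit 4], [nat_lit 0, nat_lit 1, nat_lit 5], [nat_lit 0, nat_lit 6, nat_lit 7], [nat_lit 1, nat_lit 8, nat_lit 9], [nat_lit 2, nat_lit 10], [nat_lit 3, nat_lit 8], [nat_lit 3, nat_lit 10], [nat_lit 4, nat_lit 6], [nat_lit 4], [nat_lit 5, nat_lit 7]],
  [[nat_lit 1, nat_lit 2, nat_lit 3], [nat_lit 0, nat_lit 2, nat_lit 4], [nat_lit 0, nat_lit 1, nat_lit 5], [nat_lit 0, nat_lit 6, nat_lit 7], [nat_lit 1, nat_lit 8, nat_lit 9], [nat_lit 2, nat_lit 10], [nat_lit 3, nat_lit 8], [nat_lit 3], [nat_lit 4, nat_lit 6], [nat_lit 4], [nat_lit 5]],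
  [[nat_lit 1, nat_lit 2, nat_lit 3], [nat_lit 0, nat_lit 4, nat_lit 5], [nat_lit 0, nat_lit 4, nat_lit 5], [nat_lit 0, nat_lit 4, nat_lit 6], [nat_lit 1, nat_lit 2, nat_lit 3], [nat_lit 1, nat_lit 2, nat_lit 7], [nat_lit 3, nat_lit 8, nat_lit 9], [nat_lit 5, nat_lit 10], [nat_lit 6, nat_lit 9], [nat_lit 6, nat_lit 8], [nat_lit 7]],
  [[nat_lit 1, nat_lit 2, nat_lit 3], [nat_lit 0, nat_lit 4, nat_lit 5], [nat_lit 0, nat_lit 4, nat_lit 6], [nat_lit 0, nat_lit 4, nat_lit 7], [nat_lit 1, nat_lit 2, nat_lit 3], [nat_lit 1, nat_lit 8, nat_lit 9], [nat_lit 2, nat_lit 10], [nat_lit 3, nat_lit 10], [nat_lit 5, nat_lit 9], [nat_lit 5, nat_lit 8], [nat_lit 6, nat_lit 7]],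
  [[nat_lit 1, nat_lit 2, nat_lit 3], [nat_lit 0, nat_lit 4, nat_lit 5], [nat_lit 0, nat_lit 4, nat_lit 6], [nat_lit 0, nat_lit 4, nat_lit 7], [nat_lit 1, nat_lit 2, nat_lit 3], [nat_lit 1, nat_lit 8, nat_lit 9], [nat_lit 2, nat_lit 10], [nat_lit 3], [nat_lit 5, nat_lit 9], [nat_lit 5, nat_lit 8], [nat_lit 6]],
  [[nat_lit 1, nat_lit 2, nat_lit 3], [nat_lit 0, nat_lit 4, nat_lit 5], [nat_lit 0, nat_lit 4, nat_lit 6], [nat_lit 0, nat_lit 7, nat_lit 8], [nat_lit 1, nat_lit 2, nat_lit 7], [nat_lit 1, nat_lit 6, nat_lit 9], [nat_lit 2, nat_lit 5, nat_lit 10], [nat_lit 3, nat_lit 4], [nat_lit 3], [nat_lit 5, nat_lit 10], [nat_lit 6, nat_lit 9]],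
  [[nat_lit 1, nat_lit 2, nat_lit 3], [nat_lit 0, nat_lit 4, nat_lit 5], [nat_lit 0, nat_lit 4, nat_lit 6], [nat_lit 0, nat_lit 7, nat_lit 8], [nat_lit 1, nat_lit 2, nat_lit 9], [nat_lit 1, nat_lit 6, nat_lit 10], [nat_lit 2, nat_lit 5], [nat_lit 3, nat_lit 8], [nat_lit 3, nat_lit 7], [nat_lit 4, nat_lit 10], [nat_lit 5, nat_lit 9]],
  [[nat_lit 1, nat_lit 2, nat_lit 3], [nat_lit 0, nat_lit 4, nat_lit 5], [nat_lit 0, nat_lit 4, nat_lit 6], [nat_lit 0, nat_lit 7, nat_lit 8], [nat_lit 1, nat_lit 2, nat_lit 9], [nat_lit 1, nat_lit 6, nat_lit 10], [nat_lit 2, nat_lit 5], [nat_lit 3, nat_lit 8], [nat_lit 3, nat_lit 7], [nat_lit 4], [nat_lit 5]],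
  [[nat_lit 1, nat_lit 2, nat_lit 3], [nat_lit 0, nat_lit 4, nat_lit 5], [nat_lit 0, nat_lit 4, nat_lit 6], [nat_lit 0, nat_lit 7, nat_lit 8], [nat_lit 1, nat_lit 2, nat_lit 9], [nat_lit 1, nat_lit 9, nat_lit 10], [nat_lit 2, nat_lit 10], [nat_lit 3, nat_lit 8], [nat_lit 3, nat_lit 7], [nat_lit 4, nat_lit 5], [nat_lit 5, nat_lit 6]],
  [[nat_lit 1, nat_lit 2, nat_lit 3], [nat_lit 0, nat_lit 4, nat_lit 5], [nat_lit 0, nat_lit 4, nat_lit 6], [nat_lit 0, nat_lit 7, nat_lit 8], [nat_lit 1, nat_lit 2, nat_lit 9], [nat_lit 1, nat_lit 9, nat_lit 10], [nat_lit 2], [nat_lit 3, nat_lit 8], [nat_lit 3, nat_lit 7], [nat_lit 4, nat_lit 5], [nat_lit 5]],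
  [[nat_lit 1, nat_lit 2, nat_lit 3], [nat_lit 0, nat_lit 4, nat_lit 5], [nat_lit 0, nat_lit 4, nat_lit 6], [nat_lit 0, nat_lit 7, nat_lit 8], [nat_lit 1, nat_lit 2, nat_lit 9], [nat_lit 1, nat_lit 10], [nat_lit 2, nat_lit 10], [nat_lit 3, nat_lit 8, nat_lit 9], [nat_lit 3, nat_lit 7], [nat_lit 4, nat_lit 7], [nat_lit 5, nat_lit 6]],
  [[nat_lit 1, nat_lit 2, nat_lit 3], [nat_lit 0, nat_lit 4, nat_lit 5], [nat_lit 0, nat_lit 4, nat_lit 6], [nat_lit 0, nat_lit 7, nat_lit 8], [nat_lit 1, nat_lit 2, nat_lit 9], [nat_lit 1, nat_lit 10], [nat_lit 2], [nat_lit 3, nat_lit 8, nat_lit 9], [nat_lit 3, nat_lit 7], [nat_lit 4, nat_lit 7], [nat_lit 5]],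
  [[nat_lit 1, nat_lit 2, nat_lit 3], [nat_lit 0, nat_lit 4, nat_lit 5], [nat_lit 0, nat_lit 4, nat_lit 6], [nat_lit 0, nat_lit 7, nat_lit 8], [nat_lit 1, nat_lit 2, nat_lit 9], [nat_lit 1, nat_lit 10], [nat_lit 2, nat_lit 10], [nat_lit 3, nat_lit 8], [nat_lit 3, nat_lit 7], [nat_lit 4, nat_lit 10], [nat_lit 5, nat_lit 6, nat_lit 9]],
  [[nat_lit 1, nat_lit 2, nat_lit 3], [nat_lit 0, nat_lit 4, nat_lit 5], [nat_lit 0, nat_lit 4, nat_lit 6], [nat_lit 0, nat_lit 7, nat_lit 8], [nat_lit 1, nat_lit 2, nat_lit 9], [nat_lit 1, nat_lit 10], [nat_lit 2, nat_lit 10], [nat_lit 3, nat_lit 8], [nat_lit 3, nat_lit 7], [nat_lit 4], [nat_lit 5, nat_lit 6]],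
  [[nat_lit 1, nat_lit 2, nat_lit 3], [nat_lit 0, nat_lit 4, nat_lit 5], [nat_lit 0, nat_lit 4, nat_lit 6], [nat_lit 0, nat_lit 7, nat_lit 8], [nat_lit 1, nat_lit 2, nat_lit 9], [nat_lit 1, nat_lit 10], [nat_lit 2], [nat_lit 3, nat_lit 8], [nat_lit 3, nat_lit 7], [nat_lit 4, nat_lit 10], [nat_lit 5, nat_lit 9]]]

noncomputable def op11 : List (List (List Nat)) := [
  [[nat_lit 1, nat_lit 2, nat_lit 3], [nat_lit 0, nat_lit 4, nat_lit 5], [nat_lit 0, nat_lit 4, nat_lit 6], [nat_lit 0, nat_lit 7, nat_lit 8], [nat_lit 1, nat_lit 2, nat_lit 9], [nat_lit 1, nat_lit 10], [nat_lit 2], [nat_lit 3, nat_lit 8], [nat_lit 3, nat_lit 7], [nat_lit 4], [nat_lit 5]],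
  [[nat_lit 1, nat_lit 2, nat_lit 3], [nat_lit 0, nat_lit 4, nat_lit 5], [nat_lit 0, nat_lit 4, nat_lit 6], [nat_lit 0, nat_lit 7, nat_lit 8], [nat_lit 1, nat_lit 2, nat_lit 9], [nat_lit 1, nat_lit 10], [nat_lit 2, nat_lit 10], [nat_lit 3, nat_lit 9], [nat_lit 3, nat_lit 9], [nat_lit 4, nat_lit 7, nat_lit 8], [nat_lit 5, nat_lit 6]],
  [[nat_lit 1, nat_lit 2, nat_lit 3], [nat_lit 0, nat_lit 4, nat_lit 5], [nat_lit 0, nat_lit 4, nat_lit 6], [nat_lit 0, nat_lit 7, nat_lit 8], [nat_lit 1, nat_lit 2, nat_lit 9], [nat_lit 1, nat_lit 10], [nat_lit 2], [nat_lit 3, nat_lit 9, nat_lit 10], [nat_lit 3, nat_lit 9], [nat_lit 4, nat_lit 7, nat_lit 8], [nat_lit 5, nat_lit 7]],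
  [[nat_lit 1, nat_lit 2, nat_lit 3], [nat_lit 0, nat_lit 4, nat_lit 5], [nat_lit 0, nat_lit 4, nat_lit 6], [nat_lit 0, nat_lit 7, nat_lit 8], [nat_lit 1, nat_lit 2, nat_lit 9], [nat_lit 1, nat_lit 10], [nat_lit 2], [nat_lit 3, nat_lit 9], [nat_lit 3, nat_lit 9], [nat_lit 4, nat_lit 7, nat_lit 8], [nat_lit 5]],
  [[nat_lit 1, nat_lit 2, nat_lit 3], [nat_lit 0, nat_lit 4, nat_lit 5], [nat_lit 0, nat_lit 4, nat_lit 6], [nat_lit 0, nat_lit 7, nat_lit 8], [nat_lit 1, nat_lit 2, nat_lit 9], [nat_lit 1, nat_lit 10], [nat_lit 2, nat_lit 10], [nat_lit 3, nat_lit 9], [nat_lit 3, nat_lit 10], [nat_lit 4, nat_lit 7], [nat_lit 5, nat_lit 6, nat_lit 8]],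
  [[nat_lit 1, nat_lit 2, nat_lit 3], [nat_lit 0, nat_lit 4, nat_lit 5], [nat_lit 0, nat_lit 4, nat_lit 6], [nat_lit 0, nat_lit 7, nat_lit 8], [nat_lit 1, nat_lit 2, nat_lit 9], [nat_lit 1, nat_lit 10], [nat_lit 2, nat_lit 10], [nat_lit 3, nat_lit 9], [nat_lit 3], [nat_lit 4, nat_lit 7], [nat_lit 5, nat_lit 6]],
  [[nat_lit 1, nat_lit 2, nat_lit 3], [nat_lit 0, nat_lit 4, nat_lit 5], [nat_lit 0, nat_lit 4, nat_lit 6], [nat_lit 0, nat_lit 7, nat_lit 8], [nat_lit 1, nat_lit 2, nat_lit 9], [nat_lit 1, nat_lit 10], [nat_lit 2], [nat_lit 3, nat_lit 9], [nat_lit 3, nat_lit 10], [nat_lit 4, nat_lit 7], [nat_lit 5, nat_lit 8]],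
  [[nat_lit 1, nat_lit 2, nat_lit 3], [nat_lit 0, nat_lit 4, nat_lit 5], [nat_lit 0, nat_lit 4, nat_lit 6], [nat_lit 0, nat_lit 7, nat_lit 8], [nat_lit 1, nat_lit 2, nat_lit 9], [nat_lit 1, nat_lit 10], [nat_lit 2], [nat_lit 3, nat_lit 9], [nat_lit 3], [nat_lit 4, nat_lit 7], [nat_lit 5]],
  [[nat_lit 1, nat_lit 2, nat_lit 3], [nat_lit 0, nat_lit 4, nat_lit 5], [nat_lit 0, nat_lit 6, nat_lit 7], [nat_lit 0, nat_lit 6, nat_lit 7], [nat_lit 1, nat_lit 5, nat_lit 8], [nat_lit 1, nat_lit 4, nat_lit 9], [nat_lit 2, nat_lit 3, nat_lit 10], [nat_lit 2, nat_lit 3], [nat_lit 4, nat_lit 9], [nat_lit 5, nat_lit 8], [nat_lit 6]],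
  [[nat_lit 1, nat_lit 2, nat_lit 3], [nat_lit 0, nat_lit 4, nat_lit 5], [nat_lit 0, nat_lit 6, nat_lit 7], [nat_lit 0, nat_lit 6, nat_lit 7], [nat_lit 1, nat_lit 5, nat_lit 8], [nat_lit 1, nat_lit 4, nat_lit 9], [nat_lit 2, nat_lit 3, nat_lit 10], [nat_lit 2, nat_lit 3], [nat_lit 4, nat_lit 10], [nat_lit 5, nat_lit 10], [nat_lit 6, nat_lit 8, nat_lit 9]],
  [[nat_lit 1, nat_lit 2, nat_lit 3], [nat_lit 0, nat_lit 4, nat_lit 5], [nat_lit 0, nat_lit 6, nat_lit 7], [nat_lit 0, nat_lit 6, nat_lit 7], [nat_lit 1, nat_lit 5, nat_lit 8], [nat_lit 1, nat_lit 4, nat_lit 9], [nat_lit 2, nat_lit 3, nat_lit 10], [nat_lit 2, nat_lit 3], [nat_lit 4, nat_lit 10], [nat_lit 5], [nat_lit 6, nat_lit 8]],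
  [[nat_lit 1, nat_lit 2, nat_lit 3], [nat_lit 0, nat_lit 4, nat_lit 5], [nat_lit 0, nat_lit 6, nat_lit 7], [nat_lit 0, nat_lit 6, nat_lit 7], [nat_lit 1, nat_lit 5, nat_lit 8], [nat_lit 1, nat_lit 4, nat_lit 9], [nat_lit 2, nat_lit 3, nat_lit 10], [nat_lit 2, nat_lit 3], [nat_lit 4], [nat_lit 5], [nat_lit 6]],
  [[nat_lit 1, nat_lit 2, nat_lit 3], [nat_lit 0, nat_lit 4, nat_lit 5], [nat_lit 0, nat_lit 6, nat_lit 7], [nat_lit 0, nat_lit 8, nat_lit 9], [nat_lit 1, nat_lit 5, nat_lit 6], [nat_lit 1, nat_lit 4, nat_lit 10], [nat_lit 2, nat_lit 4], [nat_lit 2, nat_lit 8], [nat_lit 3, nat_lit 7], [nat_lit 3, nat_lit 10], [nat_lit 5, nat_lit 9]],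
  [[nat_lit 1, nat_lit 2, nat_lit 3], [nat_lit 0, nat_lit 4, nat_lit 5], [nat_lit 0, nat_lit 6, nat_lit 7], [nat_lit 0, nat_lit 8, nat_lit 9], [nat_lit 1, nat_lit 5, nat_lit 6], [nat_lit 1, nat_lit 4, nat_lit 10], [nat_lit 2, nat_lit 4], [nat_lit 2, nat_lit 8], [nat_lit 3, nat_lit 7], [nat_lit 3], [nat_lit 5]],
  [[nat_lit 1, nat_lit 2, nat_lit 3], [nat_lit 0, nat_lit 4, nat_lit 5], [nat_lit 0, nat_lit 6, nat_lit 7], [nat_lit 0, nat_lit 8, nat_lit 9], [nat_lit 1, nat_lit 5, nat_lit 6], [nat_lit 1, nat_lit 4, nat_lit 10], [nat_lit 2, nat_lit 4], [nat_lit 2, nat_lit 10], [nat_lit 3, nat_lit 9], [nat_lit 3, nat_lit 8], [nat_lit 5, nat_lit 7]],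
  [[nat_lit 1, nat_lit 2, nat_lit 3], [nat_lit 0, nat_lit 4, nat_lit 5], [nat_lit 0, nat_lit 6, nat_lit 7], [nat_lit 0, nat_lit 8, nat_lit 9], [nat_lit 1, nat_lit 5, nat_lit 6], [nat_lit 1, nat_lit 4, nat_lit 10], [nat_lit 2, nat_lit 4], [nat_lit 2], [nat_lit 3, nat_lit 9], [nat_lit 3, nat_lit 8], [nat_lit 5]],
  [[nat_lit 1, nat_lit 2, nat_lit 3], [nat_lit 0, nat_lit 4, nat_lit 5], [nat_lit 0, nat_lit 6, nat_lit 7], [nat_lit 0, nat_lit 8, nat_lit 9], [nat_lit 1, nat_lit 5, nat_lit 10], [nat_lit 1, nat_lit 4, nat_lit 10], [nat_lit 2, nat_lit 7], [nat_lit 2, nat_lit 6], [nat_lit 3, nat_lit 9], [nat_lit 3, nat_lit 8], [nat_lit 4, nat_lit 5]],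
  [[nat_lit 1, nat_lit 2, nat_lit 3], [nat_lit 0, nat_lit 4, nat_lit 5], [nat_lit 0, nat_lit 6, nat_lit 7], [nat_lit 0, nat_lit 8, nat_lit 9], [nat_lit 1, nat_lit 5, nat_lit 10], [nat_lit 1, nat_lit 4], [nat_lit 2, nat_lit 7, nat_lit 10], [nat_lit 2, nat_lit 6], [nat_lit 3, nat_lit 9, nat_lit 10], [nat_lit 3, nat_lit 8], [nat_lit 4, nat_lit 6, nat_lit 8]],
  [[nat_lit 1, nat_lit 2, nat_lit 3], [nat_lit 0, nat_lit 4, nat_lit 5], [nat_lit 0, nat_lit 6, nat_lit 7], [nat_lit 0, nat_lit 8, nat_lit 9], [nat_lit 1, nat_lit 5, nat_lit 10], [nat_lit 1, nat_lit 4], [nat_lit 2, nat_lit 7, nat_lit 10], [nat_lit 2, nat_lit 6], [nat_lit 3, nat_lit 9], [nat_lit 3, nat_lit 8], [nat_lit 4, nat_lit 6]],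
  [[nat_lit 1, nat_lit 2, nat_lit 3], [nat_lit 0, nat_lit 4, nat_lit 5], [nat_lit 0, nat_lit 6, nat_lit 7], [nat_lit 0, nat_lit 8, nat_lit 9], [nat_lit 1, nat_lit 5, nat_lit 10], [nat_lit 1, nat_lit 4], [nat_lit 2, nat_lit 7], [nat_lit 2, nat_lit 6], [nat_lit 3, nat_lit 9], [nat_lit 3, nat_lit 8], [nat_lit 4]],
  [[nat_lit 1, nat_lit 2, nat_lit 3], [nat_lit 0, nat_lit 4, nat_lit 5], [nat_lit 0, nat_lit 6, nat_lit 7], [nat_lit 0, nat_lit 8, nat_lit 9], [nat_lit 1, nat_lit 5, nat_lit 10], [nat_lit 1, nat_lit 4, nat_lit 10], [nat_lit 2, nat_lit 7], [nat_lit 2, nat_lit 6], [nat_lit 3], [nat_lit 3], [nat_lit 4, nat_lit 5]],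
  [[nat_lit 1, nat_lit 2, nat_lit 3], [nat_lit 0, nat_lit 4, nat_lit 5], [nat_lit 0, nat_lit 6, nat_lit 7], [nat_lit 0, nat_lit 8, nat_lit 9], [nat_lit 1, nat_lit 5, nat_lit 10], [nat_lit 1, nat_lit 4], [nat_lit 2, nat_lit 7], [nat_lit 2, nat_lit 6], [nat_lit 3, nat_lit 10], [nat_lit 3, nat_lit 10], [nat_lit 4, nat_lit 8, nat_lit 9]],
  [[nat_lit 1, nat_lit 2, nat_lit 3], [nat_lit 0, nat_lit 4, nat_lit 5], [nat_lit 0, nat_lit 6, nat_lit 7], [nat_lit 0, nat_lit 8, nat_lit 9], [nat_lit 1, nat_lit 5, nat_lit 10], [nat_lit 1, nat_lit 4], [nat_lit 2, nat_lit 7], [nat_lit 2, nat_lit 6], [nat_lit 3, nat_lit 10], [nat_lit 3], [nat_lit 4, nat_lit 8]],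
  [[nat_lit 1, nat_lit 2, nat_lit 3], [nat_lit 0, nat_lit 4, nat_lit 5], [nat_lit 0, nat_lit 6, nat_lit 7], [nat_lit 0, nat_lit 8, nat_lit 9], [nat_lit 1, nat_lit 5, nat_lit 10], [nat_lit 1, nat_lit 4], [nat_lit 2, nat_lit 7], [nat_lit 2, nat_lit 6], [nat_lit 3], [nat_lit 3], [nat_lit 4]],
  [[nat_lit 1, nat_lit 2, nat_lit 3], [nat_lit 0, nat_lit 4, nat_lit 5], [nat_lit 0, nat_lit 6, nat_lit 7], [nat_lit 0, nat_lit 8, nat_lit 9], [nat_lit 1, nat_lit 5, nat_lit 8], [nat_lit 1, nat_lit 4, nat_lit 9], [nat_lit 2, nat_lit 10], [nat_lit 2, nat_lit 10], [nat_lit 3, nat_lit 4], [nat_lit 3, nat_lit 5], [nat_lit 6, nat_lit 7]],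
  [[nat_lit 1, nat_lit 2, nat_lit 3], [nat_lit 0, nat_lit 4, nat_lit 5], [nat_lit 0, nat_lit 6, nat_lit 7], [nat_lit 0, nat_lit 8, nat_lit 9], [nat_lit 1, nat_lit 5, nat_lit 8], [nat_lit 1, nat_lit 4, nat_lit 9], [nat_lit 2, nat_lit 10], [nat_lit 2], [nat_lit 3, nat_lit 4], [nat_lit 3, nat_lit 5], [nat_lit 6]],
  [[nat_lit 1, nat_lit 2, nat_lit 3], [nat_lit 0, nat_lit 4, nat_lit 5], [nat_lit 0, nat_lit 6, nat_lit 7], [nat_lit 0, nat_lit 8, nat_lit 9], [nat_lit 1, nat_lit 5, nat_lit 10], [nat_lit 1, nat_lit 4, nat_lit 10], [nat_lit 2, nat_lit 8], [nat_lit 2, nat_lit 9], [nat_lit 3, nat_lit 6], [nat_lit 3, nat_lit 7], [nat_lit 4, nat_lit 5]],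
  [[nat_lit 1, nat_lit 2, nat_lit 3], [nat_lit 0, nat_lit 4, nat_lit 5], [nat_lit 0, nat_lit 6, nat_lit 7], [nat_lit 0, nat_lit 8, nat_lit 9], [nat_lit 1, nat_lit 5, nat_lit 10], [nat_lit 1, nat_lit 4], [nat_lit 2, nat_lit 8, nat_lit 10], [nat_lit 2, nat_lit 9], [nat_lit 3, nat_lit 6], [nat_lit 3, nat_lit 7], [nat_lit 4, nat_lit 6]],
  [[nat_lit 1, nat_lit 2, nat_lit 3], [nat_lit 0, nat_lit 4, nat_lit 5], [nat_lit 0, nat_lit 6, nat_lit 7], [nat_lit 0, nat_lit 8, nat_lit 9], [nat_lit 1, nat_lit 5, nat_lit 10], [nat_lit 1, nat_lit 4], [nat_lit 2, nat_lit 8], [nat_lit 2, nat_lit 9], [nat_lit 3, nat_lit 6], [nat_lit 3, nat_lit 7], [nat_lit 4]],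
  [[nat_lit 1, nat_lit 2, nat_lit 3], [nat_lit 0, nat_lit 4, nat_lit 5], [nat_lit 0, nat_lit 6, nat_lit 7], [nat_lit 0, nat_lit 8, nat_lit 9], [nat_lit 1, nat_lit 5, nat_lit 10], [nat_lit 1, nat_lit 4, nat_lit 10], [nat_lit 2, nat_lit 8], [nat_lit 2], [nat_lit 3, nat_lit 6], [nat_lit 3], [nat_lit 4, nat_lit 5]],
  [[nat_lit 1, nat_lit 2, nat_lit 3], [nat_lit 0, nat_lit 4, nat_lit 5], [nat_lit 0, nat_lit 6, nat_lit 7], [nat_lit 0, nat_lit 8, nat_lit 9], [nat_lit 1, nat_lit 5, nat_lit 10], [nat_lit 1, nat_lit 4], [nat_lit 2, nat_lit 8], [nat_lit 2, nat_lit 10], [nat_lit 3, nat_lit 6], [nat_lit 3, nat_lit 10], [nat_lit 4, nat_lit 7, nat_lit 9]],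
  [[nat_lit 1, nat_lit 2, nat_lit 3], [nat_lit 0, nat_lit 4, nat_lit 5], [nat_lit 0, nat_lit 6, nat_lit 7], [nat_lit 0, nat_lit 8, nat_lit 9], [nat_lit 1, nat_lit 5, nat_lit 10], [nat_lit 1, nat_lit 4], [nat_lit 2, nat_lit 8], [nat_lit 2, nat_lit 10], [nat_lit 3, nat_lit 6], [nat_lit 3], [nat_lit 4, nat_lit 7]]]

noncomputable def op12 : List (List (List Nat)) := [
  [[nat_lit 1, nat_lit 2, nat_lit 3], [nat_lit 0, nat_lit 4, nat_lit 5], [nat_lit 0, nat_lit 6, nat_lit 7], [nat_lit 0, nat_lit 8, nat_lit 9], [nat_lit 1, nat_lit 5, nat_lit 10], [nat_lit 1, nat_lit 4], [nat_lit 2, nat_lit 8], [nat_lit 2], [nat_lit 3, nat_lit 6], [nat_lit 3], [nat_lit 4]],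
  [[nat_lit 1, nat_lit 2, nat_lit 3], [nat_lit 0, nat_lit 4, nat_lit 5], [nat_lit 0, nat_lit 6, nat_lit 7], [nat_lit 0, nat_lit 6, nat_lit 7], [nat_lit 1, nat_lit 6, nat_lit 8], [nat_lit 1, nat_lit 9, nat_lit 10], [nat_lit 2, nat_lit 3, nat_lit 4], [nat_lit 2, nat_lit 3], [nat_lit 4], [nat_lit 5, nat_lit 10], [nat_lit 5, nat_lit 9]],
  [[nat_lit 1, nat_lit 2, nat_lit 3], [nat_lit 0, nat_lit 4, nat_lit 5], [nat_lit 0, nat_lit 6, nat_lit 7], [nat_lit 0, nat_lit 6, nat_lit 7], [nat_lit 1, nat_lit 8, nat_lit 9], [nat_lit 1, nat_lit 8, nat_lit 9], [nat_lit 2, nat_lit 3, nat_lit 10], [nat_lit 2, nat_lit 3, nat_lit 10], [nat_lit 4, nat_lit 5], [nat_lit 4, nat_lit 5], [nat_lit 6, nat_lit 7]],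
  [[nat_lit 1, nat_lit 2, nat_lit 3], [nat_lit 0, nat_lit 4, nat_lit 5], [nat_lit 0, nat_lit 6, nat_lit 7], [nat_lit 0, nat_lit 6, nat_lit 7], [nat_lit 1, nat_lit 8, nat_lit 9], [nat_lit 1, nat_lit 8, nat_lit 9], [nat_lit 2, nat_lit 3, nat_lit 10], [nat_lit 2, nat_lit 3], [nat_lit 4, nat_lit 5, nat_lit 10], [nat_lit 4, nat_lit 5], [nat_lit 6, nat_lit 8]],
  [[nat_lit 1, nat_lit 2, nat_lit 3], [nat_lit 0, nat_lit 4, nat_lit 5], [nat_lit 0, nat_lit 6, nat_lit 7], [nat_lit 0, nat_lit 6, nat_lit 7], [nat_lit 1, nat_lit 8, nat_lit 9], [nat_lit 1, nat_lit 8, nat_lit 9], [nat_lit 2, nat_lit 3, nat_lit 10], [nat_lit 2, nat_lit 3], [nat_lit 4, nat_lit 5], [nat_lit 4, nat_lit 5], [nat_lit 6]],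
  [[nat_lit 1, nat_lit 2, nat_lit 3], [nat_lit 0, nat_lit 4, nat_lit 5], [nat_lit 0, nat_lit 6, nat_lit 7], [nat_lit 0, nat_lit 6, nat_lit 7], [nat_lit 1, nat_lit 8, nat_lit 9], [nat_lit 1, nat_lit 8, nat_lit 10], [nat_lit 2, nat_lit 3, nat_lit 9], [nat_lit 2, nat_lit 3], [nat_lit 4, nat_lit 5], [nat_lit 4, nat_lit 6], [nat_lit 5]],
  [[nat_lit 1, nat_lit 2, nat_lit 3], [nat_lit 0, nat_lit 4, nat_lit 5], [nat_lit 0, nat_lit 6, nat_lit 7], [nat_lit 0, nat_lit 6, nat_lit 7], [nat_lit 1, nat_lit 8, nat_lit 9], [nat_lit 1, nat_lit 8, nat_lit 10], [nat_lit 2, nat_lit 3], [nat_lit 2, nat_lit 3], [nat_lit 4, nat_lit 5], [nat_lit 4, nat_lit 10], [nat_lit 5, nat_lit 9]],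
  [[nat_lit 1, nat_lit 2, nat_lit 3], [nat_lit 0, nat_lit 4, nat_lit 5], [nat_lit 0, nat_lit 6, nat_lit 7], [nat_lit 0, nat_lit 6, nat_lit 7], [nat_lit 1, nat_lit 8, nat_lit 9], [nat_lit 1, nat_lit 8, nat_lit 10], [nat_lit 2, nat_lit 3], [nat_lit 2, nat_lit 3], [nat_lit 4, nat_lit 5], [nat_lit 4], [nat_lit 5]],
  [[nat_lit 1, nat_lit 2, nat_lit 3], [nat_lit 0, nat_lit 4, nat_lit 5], [nat_lit 0, nat_lit 6, nat_lit 7], [nat_lit 0, nat_lit 6, nat_lit 7], [nat_lit 1, nat_lit 8, nat_lit 9], [nat_lit 1, nat_lit 10], [nat_lit 2, nat_lit 3, nat_lit 8], [nat_lit 2, nat_lit 3], [nat_lit 4, nat_lit 6, nat_lit 9], [nat_lit 4, nat_lit 8], [nat_lit 5]],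
  [[nat_lit 1, nat_lit 2, nat_lit 3], [nat_lit 0, nat_lit 4, nat_lit 5], [nat_lit 0, nat_lit 6, nat_lit 7], [nat_lit 0, nat_lit 6, nat_lit 7], [nat_lit 1, nat_lit 8, nat_lit 9], [nat_lit 1, nat_lit 10], [nat_lit 2, nat_lit 3, nat_lit 8], [nat_lit 2, nat_lit 3], [nat_lit 4, nat_lit 6, nat_lit 10], [nat_lit 4], [nat_lit 5, nat_lit 8]],
  [[nat_lit 1, nat_lit 2, nat_lit 3], [nat_lit 0, nat_lit 4, nat_lit 5], [nat_lit 0, nat_lit 6, nat_lit 7], [nat_lit 0, nat_lit 6, nat_lit 7], [nat_lit 1, nat_lit 8, nat_lit 9], [nat_lit 1, nat_lit 10], [nat_lit 2, nat_lit 3, nat_lit 8], [nat_lit 2, nat_lit 3], [nat_lit 4, nat_lit 6], [nat_lit 4, nat_lit 10], [nat_lit 5, nat_lit 9]],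
  [[nat_lit 1, nat_lit 2, nat_lit 3], [nat_lit 0, nat_lit 4, nat_lit 5], [nat_lit 0, nat_lit 6, nat_lit 7], [nat_lit 0, nat_lit 6, nat_lit 7], [nat_lit 1, nat_lit 8, nat_lit 9], [nat_lit 1, nat_lit 10], [nat_lit 2, nat_lit 3, nat_lit 8], [nat_lit 2, nat_lit 3], [nat_lit 4, nat_lit 6], [nat_lit 4], [nat_lit 5]],
  [[nat_lit 1, nat_lit 2, nat_lit 3], [nat_lit 0, nat_lit 4, nat_lit 5], [nat_lit 0, nat_lit 6, nat_lit 7], [nat_lit 0, nat_lit 6, nat_lit 7], [nat_lit 1, nat_lit 8, nat_lit 9], [nat_lit 1, nat_lit 10], [nat_lit 2, nat_lit 3, nat_lit 10], [nat_lit 2, nat_lit 3], [nat_lit 4, nat_lit 9], [nat_lit 4, nat_lit 8], [nat_lit 5, nat_lit 6]],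
  [[nat_lit 1, nat_lit 2, nat_lit 3], [nat_lit 0, nat_lit 4, nat_lit 5], [nat_lit 0, nat_lit 6, nat_lit 7], [nat_lit 0, nat_lit 6, nat_lit 7], [nat_lit 1, nat_lit 8, nat_lit 9], [nat_lit 1, nat_lit 10], [nat_lit 2, nat_lit 3], [nat_lit 2, nat_lit 3], [nat_lit 4, nat_lit 9, nat_lit 10], [nat_lit 4, nat_lit 8], [nat_lit 5, nat_lit 8]],
  [[nat_lit 1, nat_lit 2, nat_lit 3], [nat_lit 0, nat_lit 4, nat_lit 5], [nat_lit 0, nat_lit 6, nat_lit 7], [nat_lit 0, nat_lit 6, nat_lit 7], [nat_lit 1, nat_lit 8, nat_lit 9], [nat_lit 1, nat_lit 10], [nat_lit 2, nat_lit 3], [nat_lit 2, nat_lit 3], [nat_lit 4, nat_lit 9], [nat_lit 4, nat_lit 8], [nat_lit 5]],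
  [[nat_lit 1, nat_lit 2, nat_lit 3], [nat_lit 0, nat_lit 4, nat_lit 5], [nat_lit 0, nat_lit 6, nat_lit 7], [nat_lit 0, nat_lit 6, nat_lit 7], [nat_lit 1, nat_lit 8, nat_lit 9], [nat_lit 1, nat_lit 10], [nat_lit 2, nat_lit 3, nat_lit 10], [nat_lit 2, nat_lit 3], [nat_lit 4, nat_lit 10], [nat_lit 4], [nat_lit 5, nat_lit 6, nat_lit 8]],
  [[nat_lit 1, nat_lit 2, nat_lit 3], [nat_lit 0, nat_lit 4, nat_lit 5], [nat_lit 0, nat_lit 6, nat_lit 7], [nat_lit 0, nat_lit 6, nat_lit 7], [nat_lit 1, nat_lit 8, nat_lit 9], [nat_lit 1, nat_lit 10], [nat_lit 2, nat_lit 3, nat_lit 10], [nat_lit 2, nat_lit 3], [nat_lit 4], [nat_lit 4], [nat_lit 5, nat_lit 6]],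
  [[nat_lit 1, nat_lit 2, nat_lit 3], [nat_lit 0, nat_lit 4, nat_lit 5], [nat_lit 0, nat_lit 6, nat_lit 7], [nat_lit 0, nat_lit 6, nat_lit 7], [nat_lit 1, nat_lit 8, nat_lit 9], [nat_lit 1, nat_lit 10], [nat_lit 2, nat_lit 3], [nat_lit 2, nat_lit 3], [nat_lit 4, nat_lit 10], [nat_lit 4, nat_lit 10], [nat_lit 5, nat_lit 8, nat_lit 9]],
  [[nat_lit 1, nat_lit 2, nat_lit 3], [nat_lit 0, nat_lit 4, nat_lit 5], [nat_lit 0, nat_lit 6, nat_lit 7], [nat_lit 0, nat_lit 6, nat_lit 7], [nat_lit 1, nat_lit 8, nat_lit 9], [nat_lit 1, nat_lit 10], [nat_lit 2, nat_lit 3], [nat_lit 2, nat_lit 3], [nat_lit 4, nat_lit 10], [nat_lit 4], [nat_lit 5, nat_lit 8]],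
  [[nat_lit 1, nat_lit 2, nat_lit 3], [nat_lit 0, nat_lit 4, nat_lit 5], [nat_lit 0, nat_lit 6, nat_lit 7], [nat_lit 0, nat_lit 6, nat_lit 7], [nat_lit 1, nat_lit 8, nat_lit 9], [nat_lit 1, nat_lit 10], [nat_lit 2, nat_lit 3], [nat_lit 2, nat_lit 3], [nat_lit 4], [nat_lit 4], [nat_lit 5]],
  [[nat_lit 1, nat_lit 2, nat_lit 3], [nat_lit 0, nat_lit 4, nat_lit 5], [nat_lit 0, nat_lit 6, nat_lit 7], [nat_lit 0, nat_lit 8, nat_lit 9], [nat_lit 1, nat_lit 6, nat_lit 7], [nat_lit 1, nat_lit 8, nat_lit 9], [nat_lit 2, nat_lit 4, nat_lit 10], [nat_lit 2, nat_lit 4], [nat_lit 3, nat_lit 5, nat_lit 10], [nat_lit 3, nat_lit 5], [nat_lit 6, nat_lit 8]],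
  [[nat_lit 1, nat_lit 2, nat_lit 3], [nat_lit 0, nat_lit 4, nat_lit 5], [nat_lit 0, nat_lit 6, nat_lit 7], [nat_lit 0, nat_lit 8, nat_lit 9], [nat_lit 1, nat_lit 6, nat_lit 7], [nat_lit 1, nat_lit 8, nat_lit 9], [nat_lit 2, nat_lit 4, nat_lit 10], [nat_lit 2, nat_lit 4], [nat_lit 3, nat_lit 5], [nat_lit 3, nat_lit 5], [nat_lit 6]],
  [[nat_lit 1, nat_lit 2, nat_lit 3], [nat_lit 0, nat_lit 4, nat_lit 5], [nat_lit 0, nat_lit 6, nat_lit 7], [nat_lit 0, nat_lit 8, nat_lit 9], [nat_lit 1, nat_lit 6, nat_lit 7], [nat_lit 1, nat_lit 8, nat_lit 10], [nat_lit 2, nat_lit 4, nat_lit 9], [nat_lit 2, nat_lit 4], [nat_lit 3, nat_lit 5], [nat_lit 3, nat_lit 6], [nat_lit 5]],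
  [[nat_lit 1, nat_lit 2, nat_lit 3], [nat_lit 0, nat_lit 4, nat_lit 5], [nat_lit 0, nat_lit 6, nat_lit 7], [nat_lit 0, nat_lit 8, nat_lit 9], [nat_lit 1, nat_lit 6, nat_lit 7], [nat_lit 1, nat_lit 8, nat_lit 10], [nat_lit 2, nat_lit 4], [nat_lit 2, nat_lit 4], [nat_lit 3, nat_lit 5], [nat_lit 3, nat_lit 10], [nat_lit 5, nat_lit 9]],
  [[nat_lit 1, nat_lit 2, nat_lit 3], [nat_lit 0, nat_lit 4, nat_lit 5], [nat_lit 0, nat_lit 6, nat_lit 7], [nat_lit 0, nat_lit 8, nat_lit 9], [nat_lit 1, nat_lit 6, nat_lit 7], [nat_lit 1, nat_lit 8, nat_lit 10], [nat_lit 2, nat_lit 4], [nat_lit 2, nat_lit 4], [nat_lit 3, nat_lit 5], [nat_lit 3], [nat_lit 5]],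
  [[nat_lit 1, nat_lit 2, nat_lit 3], [nat_lit 0, nat_lit 4, nat_lit 5], [nat_lit 0, nat_lit 6, nat_lit 7], [nat_lit 0, nat_lit 8, nat_lit 9], [nat_lit 1, nat_lit 6, nat_lit 7], [nat_lit 1, nat_lit 10], [nat_lit 2, nat_lit 4, nat_lit 8], [nat_lit 2, nat_lit 4], [nat_lit 3, nat_lit 6], [nat_lit 3, nat_lit 10], [nat_lit 5, nat_lit 9]],
  [[nat_lit 1, nat_lit 2, nat_lit 3], [nat_lit 0, nat_lit 4, nat_lit 5], [nat_lit 0, nat_lit 6, nat_lit 7], [nat_lit 0, nat_lit 8, nat_lit 9], [nat_lit 1, nat_lit 6, nat_lit 7], [nat_lit 1, nat_lit 10], [nat_lit 2, nat_lit 4, nat_lit 8], [nat_lit 2, nat_lit 4], [nat_lit 3, nat_lit 6], [nat_lit 3], [nat_lit 5]],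
  [[nat_lit 1, nat_lit 2, nat_lit 3], [nat_lit 0, nat_lit 4, nat_lit 5], [nat_lit 0, nat_lit 6, nat_lit 7], [nat_lit 0, nat_lit 8, nat_lit 9], [nat_lit 1, nat_lit 6, nat_lit 7], [nat_lit 1, nat_lit 10], [nat_lit 2, nat_lit 4, nat_lit 10], [nat_lit 2, nat_lit 4], [nat_lit 3, nat_lit 10], [nat_lit 3], [nat_lit 5, nat_lit 6, nat_lit 8]],
  [[nat_lit 1, nat_lit 2, nat_lit 3], [nat_lit 0, nat_lit 4, nat_lit 5], [nat_lit 0, nat_lit 6, nat_lit 7], [nat_lit 0, nat_lit 8, nat_lit 9], [nat_lit 1, nat_lit 6, nat_lit 7], [nat_lit 1, nat_lit 10], [nat_lit 2, nat_lit 4, nat_lit 10], [nat_lit 2, nat_lit 4], [nat_lit 3], [nat_lit 3], [nat_lit 5, nat_lit 6]],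
  [[nat_lit 1, nat_lit 2, nat_lit 3], [nat_lit 0, nat_lit 4, nat_lit 5], [nat_lit 0, nat_lit 6, nat_lit 7], [nat_lit 0, nat_lit 8, nat_lit 9], [nat_lit 1, nat_lit 6, nat_lit 7], [nat_lit 1, nat_lit 10], [nat_lit 2, nat_lit 4], [nat_lit 2, nat_lit 4], [nat_lit 3, nat_lit 10], [nat_lit 3, nat_lit 10], [nat_lit 5, nat_lit 8, nat_lit 9]],
  [[nat_lit 1, nat_lit 2, nat_lit 3], [nat_lit 0, nat_lit 4, nat_lit 5], [nat_lit 0, nat_lit 6, nat_lit 7], [nat_lit 0, nat_lit 8, nat_lit 9], [nat_lit 1, nat_lit 6, nat_lit 7], [nat_lit 1, nat_lit 10], [nat_lit 2, nat_lit 4], [nat_lit 2, nat_lit 4], [nat_lit 3, nat_lit 10], [nat_lit 3], [nat_lit 5, nat_lit 8]],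
  [[nat_lit 1, nat_lit 2, nat_lit 3], [nat_lit 0, nat_lit 4, nat_lit 5], [nat_lit 0, nat_lit 6, nat_lit 7], [nat_lit 0, nat_lit 8, nat_lit 9], [nat_lit 1, nat_lit 6, nat_lit 7], [nat_lit 1, nat_lit 10], [nat_lit 2, nat_lit 4], [nat_lit 2, nat_lit 4], [nat_lit 3], [nat_lit 3], [nat_lit 5]]]

noncomputable def op13 : List (List (List Nat)) := [
  [[nat_lit 1, nat_lit 2, nat_lit 3], [nat_lit 0, nat_lit 4, nat_lit 5], [nat_lit 0, nat_lit 6, nat_lit 7], [nat_lit 0, nat_lit 8, nat_lit 9], [nat_lit 1, nat_lit 6, nat_lit 8], [nat_lit 1, nat_lit 7, nat_lit 10], [nat_lit 2, nat_lit 4], [nat_lit 2, nat_lit 5], [nat_lit 3, nat_lit 4], [nat_lit 3, nat_lit 10], [nat_lit 5, nat_lit 9]],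
  [[nat_lit 1, nat_lit 2, nat_lit 3], [nat_lit 0, nat_lit 4, nat_lit 5], [nat_lit 0, nat_lit 6, nat_lit 7], [nat_lit 0, nat_lit 8, nat_lit 9], [nat_lit 1, nat_lit 6, nat_lit 8], [nat_lit 1, nat_lit 7, nat_lit 10], [nat_lit 2, nat_lit 4], [nat_lit 2, nat_lit 5], [nat_lit 3, nat_lit 4], [nat_lit 3], [nat_lit 5]],
  [[nat_lit 1, nat_lit 2, nat_lit 3], [nat_lit 0, nat_lit 4, nat_lit 5], [nat_lit 0, nat_lit 6, nat_lit 7], [nat_lit 0, nat_lit 8, nat_lit 9], [nat_lit 1, nat_lit 6, nat_lit 10], [nat_lit 1, nat_lit 7, nat_lit 10], [nat_lit 2, nat_lit 4], [nat_lit 2, nat_lit 5], [nat_lit 3], [nat_lit 3], [nat_lit 4, nat_lit 5]],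
  [[nat_lit 1, nat_lit 2, nat_lit 3], [nat_lit 0, nat_lit 4, nat_lit 5], [nat_lit 0, nat_lit 6, nat_lit 7], [nat_lit 0, nat_lit 8, nat_lit 9], [nat_lit 1, nat_lit 6, nat_lit 10], [nat_lit 1, nat_lit 7], [nat_lit 2, nat_lit 4, nat_lit 10], [nat_lit 2, nat_lit 5], [nat_lit 3], [nat_lit 3], [nat_lit 4, nat_lit 6]],
  [[nat_lit 1, nat_lit 2, nat_lit 3], [nat_lit 0, nat_lit 4, nat_lit 5], [nat_lit 0, nat_lit 6, nat_lit 7], [nat_lit 0, nat_lit 8, nat_lit 9], [nat_lit 1, nat_lit 6, nat_lit 10], [nat_lit 1, nat_lit 7], [nat_lit 2, nat_lit 4], [nat_lit 2, nat_lit 5, nat_lit 10], [nat_lit 3, nat_lit 10], [nat_lit 3], [nat_lit 4, nat_lit 7, nat_lit 8]],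
  [[nat_lit 1, nat_lit 2, nat_lit 3], [nat_lit 0, nat_lit 4, nat_lit 5], [nat_lit 0, nat_lit 6, nat_lit 7], [nat_lit 0, nat_lit 8, nat_lit 9], [nat_lit 1, nat_lit 6, nat_lit 10], [nat_lit 1, nat_lit 7], [nat_lit 2, nat_lit 4], [nat_lit 2, nat_lit 5, nat_lit 10], [nat_lit 3], [nat_lit 3], [nat_lit 4, nat_lit 7]],
  [[nat_lit 1, nat_lit 2, nat_lit 3], [nat_lit 0, nat_lit 4, nat_lit 5], [nat_lit 0, nat_lit 6, nat_lit 7], [nat_lit 0, nat_lit 8, nat_lit 9], [nat_lit 1, nat_lit 6, nat_lit 10], [nat_lit 1, nat_lit 7], [nat_lit 2, nat_lit 4], [nat_lit 2, nat_lit 5], [nat_lit 3, nat_lit 10], [nat_lit 3, nat_lit 10], [nat_lit 4, nat_lit 8, nat_lit 9]],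
  [[nat_lit 1, nat_lit 2, nat_lit 3], [nat_lit 0, nat_lit 4, nat_lit 5], [nat_lit 0, nat_lit 6, nat_lit 7], [nat_lit 0, nat_lit 8, nat_lit 9], [nat_lit 1, nat_lit 6, nat_lit 10], [nat_lit 1, nat_lit 7], [nat_lit 2, nat_lit 4], [nat_lit 2, nat_lit 5], [nat_lit 3, nat_lit 10], [nat_lit 3], [nat_lit 4, nat_lit 8]],
  [[nat_lit 1, nat_lit 2, nat_lit 3], [nat_lit 0, nat_lit 4, nat_lit 5], [nat_lit 0, nat_lit 6, nat_lit 7], [nat_lit 0, nat_lit 8, nat_lit 9], [nat_lit 1, nat_lit 6, nat_lit 10], [nat_lit 1, nat_lit 7], [nat_lit 2, nat_lit 4], [nat_lit 2, nat_lit 5], [nat_lit 3], [nat_lit 3], [nat_lit 4]],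
  [[nat_lit 1, nat_lit 2, nat_lit 3], [nat_lit 0, nat_lit 4, nat_lit 5], [nat_lit 0, nat_lit 6, nat_lit 7], [nat_lit 0, nat_lit 8, nat_lit 9], [nat_lit 1, nat_lit 6, nat_lit 8], [nat_lit 1, nat_lit 10], [nat_lit 2, nat_lit 4], [nat_lit 2, nat_lit 8], [nat_lit 3, nat_lit 4, nat_lit 7], [nat_lit 3, nat_lit 10], [nat_lit 5, nat_lit 9]],
  [[nat_lit 1, nat_lit 2, nat_lit 3], [nat_lit 0, nat_lit 4, nat_lit 5], [nat_lit 0, nat_lit 6, nat_lit 7], [nat_lit 0, nat_lit 8, nat_lit 9], [nat_lit 1, nat_lit 6, nat_lit 8], [nat_lit 1, nat_lit 10], [nat_lit 2, nat_lit 4], [nat_lit 2, nat_lit 8], [nat_lit 3, nat_lit 4, nat_lit 7], [nat_lit 3], [nat_lit 5]],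
  [[nat_lit 1, nat_lit 2, nat_lit 3], [nat_lit 0, nat_lit 4, nat_lit 5], [nat_lit 0, nat_lit 6, nat_lit 7], [nat_lit 0, nat_lit 8, nat_lit 9], [nat_lit 1, nat_lit 6, nat_lit 8], [nat_lit 1, nat_lit 10], [nat_lit 2, nat_lit 4, nat_lit 10], [nat_lit 2, nat_lit 9], [nat_lit 3, nat_lit 4], [nat_lit 3, nat_lit 7], [nat_lit 5, nat_lit 6]],
  [[nat_lit 1, nat_lit 2, nat_lit 3], [nat_lit 0, nat_lit 4, nat_lit 5], [nat_lit 0, nat_lit 6, nat_lit 7], [nat_lit 0, nat_lit 8, nat_lit 9], [nat_lit 1, nat_lit 6, nat_lit 8], [nat_lit 1, nat_lit 10], [nat_lit 2, nat_lit 4], [nat_lit 2, nat_lit 9, nat_lit 10], [nat_lit 3, nat_lit 4], [nat_lit 3, nat_lit 7], [nat_lit 5, nat_lit 7]],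
  [[nat_lit 1, nat_lit 2, nat_lit 3], [nat_lit 0, nat_lit 4, nat_lit 5], [nat_lit 0, nat_lit 6, nat_lit 7], [nat_lit 0, nat_lit 8, nat_lit 9], [nat_lit 1, nat_lit 6, nat_lit 8], [nat_lit 1, nat_lit 10], [nat_lit 2, nat_lit 4], [nat_lit 2, nat_lit 9], [nat_lit 3, nat_lit 4], [nat_lit 3, nat_lit 7], [nat_lit 5]],
  [[nat_lit 1, nat_lit 2, nat_lit 3], [nat_lit 0, nat_lit 4, nat_lit 5], [nat_lit 0, nat_lit 6, nat_lit 7], [nat_lit 0, nat_lit 8, nat_lit 9], [nat_lit 1, nat_lit 6, nat_lit 8], [nat_lit 1, nat_lit 10], [nat_lit 2, nat_lit 4, nat_lit 10], [nat_lit 2, nat_lit 10], [nat_lit 3, nat_lit 4], [nat_lit 3], [nat_lit 5, nat_lit 6, nat_lit 7]],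
  [[nat_lit 1, nat_lit 2, nat_lit 3], [nat_lit 0, nat_lit 4, nat_lit 5], [nat_lit 0, nat_lit 6, nat_lit 7], [nat_lit 0, nat_lit 8, nat_lit 9], [nat_lit 1, nat_lit 6, nat_lit 8], [nat_lit 1, nat_lit 10], [nat_lit 2, nat_lit 4, nat_lit 10], [nat_lit 2], [nat_lit 3, nat_lit 4], [nat_lit 3], [nat_lit 5, nat_lit 6]],
  [[nat_lit 1, nat_lit 2, nat_lit 3], [nat_lit 0, nat_lit 4, nat_lit 5], [nat_lit 0, nat_lit 6, nat_lit 7], [nat_lit 0, nat_lit 8, nat_lit 9], [nat_lit 1, nat_lit 6, nat_lit 8], [nat_lit 1, nat_lit 10], [nat_lit 2, nat_lit 4], [nat_lit 2, nat_lit 10], [nat_lit 3, nat_lit 4], [nat_lit 3, nat_lit 10], [nat_lit 5, nat_lit 7, nat_lit 9]],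
  [[nat_lit 1, nat_lit 2, nat_lit 3], [nat_lit 0, nat_lit 4, nat_lit 5], [nat_lit 0, nat_lit 6, nat_lit 7], [nat_lit 0, nat_lit 8, nat_lit 9], [nat_lit 1, nat_lit 6, nat_lit 8], [nat_lit 1, nat_lit 10], [nat_lit 2, nat_lit 4], [nat_lit 2, nat_lit 10], [nat_lit 3, nat_lit 4], [nat_lit 3], [nat_lit 5, nat_lit 7]],
  [[nat_lit 1, nat_lit 2, nat_lit 3], [nat_lit 0, nat_lit 4, nat_lit 5], [nat_lit 0, nat_lit 6, nat_lit 7], [nat_lit 0, nat_lit 8, nat_lit 9], [nat_lit 1, nat_lit 6, nat_lit 8], [nat_lit 1, nat_lit 10], [nat_lit 2, nat_lit 4], [nat_lit 2], [nat_lit 3, nat_lit 4], [nat_lit 3], [nat_lit 5]],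
  [[nat_lit 1, nat_lit 2, nat_lit 3], [nat_lit 0, nat_lit 4, nat_lit 5], [nat_lit 0, nat_lit 6, nat_lit 7], [nat_lit 0, nat_lit 8, nat_lit 9], [nat_lit 1, nat_lit 6, nat_lit 10], [nat_lit 1, nat_lit 8, nat_lit 10], [nat_lit 2, nat_lit 4], [nat_lit 2, nat_lit 9], [nat_lit 3, nat_lit 5], [nat_lit 3, nat_lit 7], [nat_lit 4, nat_lit 5]],
  [[nat_lit 1, nat_lit 2, nat_lit 3], [nat_lit 0, nat_lit 4, nat_lit 5], [nat_lit 0, nat_lit 6, nat_lit 7], [nat_lit 0, nat_lit 8, nat_lit 9], [nat_lit 1, nat_lit 6, nat_lit 10], [nat_lit 1, nat_lit 8], [nat_lit 2, nat_lit 4, nat_lit 10], [nat_lit 2, nat_lit 9], [nat_lit 3, nat_lit 5], [nat_lit 3, nat_lit 7], [nat_lit 4, nat_lit 6]],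
  [[nat_lit 1, nat_lit 2, nat_lit 3], [nat_lit 0, nat_lit 4, nat_lit 5], [nat_lit 0, nat_lit 6, nat_lit 7], [nat_lit 0, nat_lit 8, nat_lit 9], [nat_lit 1, nat_lit 6, nat_lit 10], [nat_lit 1, nat_lit 8], [nat_lit 2, nat_lit 4], [nat_lit 2, nat_lit 9, nat_lit 10], [nat_lit 3, nat_lit 5, nat_lit 10], [nat_lit 3, nat_lit 7], [nat_lit 4, nat_lit 7, nat_lit 8]],
  [[nat_lit 1, nat_lit 2, nat_lit 3], [nat_lit 0, nat_lit 4, nat_lit 5], [nat_lit 0, nat_lit 6, nat_lit 7], [nat_lit 0, nat_lit 8, nat_lit 9], [nat_lit 1, nat_lit 6, nat_lit 10], [nat_lit 1, nat_lit 8], [nat_lit 2, nat_lit 4], [nat_lit 2, nat_lit 9, nat_lit 10], [nat_lit 3, nat_lit 5], [nat_lit 3, nat_lit 7], [nat_lit 4, nat_lit 7]],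
  [[nat_lit 1, nat_lit 2, nat_lit 3], [nat_lit 0, nat_lit 4, nat_lit 5], [nat_lit 0, nat_lit 6, nat_lit 7], [nat_lit 0, nat_lit 8, nat_lit 9], [nat_lit 1, nat_lit 6, nat_lit 10], [nat_lit 1, nat_lit 8], [nat_lit 2, nat_lit 4], [nat_lit 2, nat_lit 9], [nat_lit 3, nat_lit 5], [nat_lit 3, nat_lit 7, nat_lit 10], [nat_lit 4, nat_lit 9]],
  [[nat_lit 1, nat_lit 2, nat_lit 3], [nat_lit 0, nat_lit 4, nat_lit 5], [nat_lit 0, nat_lit 6, nat_lit 7], [nat_lit 0, nat_lit 8, nat_lit 9], [nat_lit 1, nat_lit 6, nat_lit 10], [nat_lit 1, nat_lit 8], [nat_lit 2, nat_lit 4], [nat_lit 2, nat_lit 9], [nat_lit 3, nat_lit 5], [nat_lit 3, nat_lit 7], [nat_lit 4]],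
  [[nat_lit 1, nat_lit 2, nat_lit 3], [nat_lit 0, nat_lit 4, nat_lit 5], [nat_lit 0, nat_lit 6, nat_lit 7], [nat_lit 0, nat_lit 8, nat_lit 9], [nat_lit 1, nat_lit 6, nat_lit 10], [nat_lit 1, nat_lit 8, nat_lit 10], [nat_lit 2, nat_lit 4], [nat_lit 2], [nat_lit 3, nat_lit 5], [nat_lit 3], [nat_lit 4, nat_lit 5]],
  [[nat_lit 1, nat_lit 2, nat_lit 3], [nat_lit 0, nat_lit 4, nat_lit 5], [nat_lit 0, nat_lit 6, nat_lit 7], [nat_lit 0, nat_lit 8, nat_lit 9], [nat_lit 1, nat_lit 6, nat_lit 10], [nat_lit 1, nat_lit 8], [nat_lit 2, nat_lit 4, nat_lit 10], [nat_lit 2], [nat_lit 3, nat_lit 5], [nat_lit 3], [nat_lit 4, nat_lit 6]],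
  [[nat_lit 1, nat_lit 2, nat_lit 3], [nat_lit 0, nat_lit 4, nat_lit 5], [nat_lit 0, nat_lit 6, nat_lit 7], [nat_lit 0, nat_lit 8, nat_lit 9], [nat_lit 1, nat_lit 6, nat_lit 10], [nat_lit 1, nat_lit 8], [nat_lit 2, nat_lit 4], [nat_lit 2, nat_lit 10], [nat_lit 3, nat_lit 5, nat_lit 10], [nat_lit 3], [nat_lit 4, nat_lit 7, nat_lit 8]],
  [[nat_lit 1, nat_lit 2, nat_lit 3], [nat_lit 0, nat_lit 4, nat_lit 5], [nat_lit 0, nat_lit 6, nat_lit 7], [nat_lit 0, nat_lit 8, nat_lit 9], [nat_lit 1, nat_lit 6, nat_lit 10], [nat_lit 1, nat_lit 8], [nat_lit 2, nat_lit 4], [nat_lit 2, nat_lit 10], [nat_lit 3, nat_lit 5], [nat_lit 3, nat_lit 10], [nat_lit 4, nat_lit 7, nat_lit 9]],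
  [[nat_lit 1, nat_lit 2, nat_lit 3], [nat_lit 0, nat_lit 4, nat_lit 5], [nat_lit 0, nat_lit 6, nat_lit 7], [nat_lit 0, nat_lit 8, nat_lit 9], [nat_lit 1, nat_lit 6, nat_lit 10], [nat_lit 1, nat_lit 8], [nat_lit 2, nat_lit 4], [nat_lit 2, nat_lit 10], [nat_lit 3, nat_lit 5], [nat_lit 3], [nat_lit 4, nat_lit 7]],
  [[nat_lit 1, nat_lit 2, nat_lit 3], [nat_lit 0, nat_lit 4, nat_lit 5], [nat_lit 0, nat_lit 6, nat_lit 7], [nat_lit 0, nat_lit 8, nat_lit 9], [nat_lit 1, nat_lit 6, nat_lit 10], [nat_lit 1, nat_lit 8], [nat_lit 2, nat_lit 4], [nat_lit 2], [nat_lit 3, nat_lit 5, nat_lit 10], [nat_lit 3, nat_lit 10], [nat_lit 4, nat_lit 8, nat_lit 9]],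
  [[nat_lit 1, nat_lit 2, nat_lit 3], [nat_lit 0, nat_lit 4, nat_lit 5], [nat_lit 0, nat_lit 6, nat_lit 7], [nat_lit 0, nat_lit 8, nat_lit 9], [nat_lit 1, nat_lit 6, nat_lit 10], [nat_lit 1, nat_lit 8], [nat_lit 2, nat_lit 4], [nat_lit 2], [nat_lit 3, nat_lit 5, nat_lit 10], [nat_lit 3], [nat_lit 4, nat_lit 8]]]

noncomputable def op14 : List (List (List Nat)) := [
  [[nat_lit 1, nat_lit 2, nat_lit 3], [nat_lit 0, nat_lit 4, nat_lit 5], [nat_lit 0, nat_lit 6, nat_lit 7], [nat_lit 0, nat_lit 8, nat_lit 9], [nat_lit 1, nat_lit 6, nat_lit 10], [nat_lit 1, nat_lit 8], [nat_lit 2, nat_lit 4], [nat_lit 2], [nat_lit 3, nat_lit 5], [nat_lit 3, nat_lit 10], [nat_lit 4, nat_lit 9]],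
  [[nat_lit 1, nat_lit 2, nat_lit 3], [nat_lit 0, nat_lit 4, nat_lit 5], [nat_lit 0, nat_lit 6, nat_lit 7], [nat_lit 0, nat_lit 8, nat_lit 9], [nat_lit 1, nat_lit 6, nat_lit 10], [nat_lit 1, nat_lit 8], [nat_lit 2, nat_lit 4], [nat_lit 2], [nat_lit 3, nat_lit 5], [nat_lit 3], [nat_lit 4]],
  [[nat_lit 1, nat_lit 2, nat_lit 3], [nat_lit 0, nat_lit 4, nat_lit 5], [nat_lit 0, nat_lit 6, nat_lit 7], [nat_lit 0, nat_lit 8, nat_lit 9], [nat_lit 1, nat_lit 6, nat_lit 10], [nat_lit 1, nat_lit 10], [nat_lit 2, nat_lit 4], [nat_lit 2, nat_lit 10], [nat_lit 3], [nat_lit 3], [nat_lit 4, nat_lit 5, nat_lit 7]],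
  [[nat_lit 1, nat_lit 2, nat_lit 3], [nat_lit 0, nat_lit 4, nat_lit 5], [nat_lit 0, nat_lit 6, nat_lit 7], [nat_lit 0, nat_lit 8, nat_lit 9], [nat_lit 1, nat_lit 6, nat_lit 10], [nat_lit 1, nat_lit 10], [nat_lit 2, nat_lit 4], [nat_lit 2], [nat_lit 3, nat_lit 10], [nat_lit 3], [nat_lit 4, nat_lit 5, nat_lit 8]],
  [[nat_lit 1, nat_lit 2, nat_lit 3], [nat_lit 0, nat_lit 4, nat_lit 5], [nat_lit 0, nat_lit 6, nat_lit 7], [nat_lit 0, nat_lit 8, nat_lit 9], [nat_lit 1, nat_lit 6, nat_lit 10], [nat_lit 1, nat_lit 10], [nat_lit 2, nat_lit 4], [nat_lit 2], [nat_lit 3], [nat_lit 3], [nat_lit 4, nat_lit 5]],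
  [[nat_lit 1, nat_lit 2, nat_lit 3], [nat_lit 0, nat_lit 4, nat_lit 5], [nat_lit 0, nat_lit 6, nat_lit 7], [nat_lit 0, nat_lit 8, nat_lit 9], [nat_lit 1, nat_lit 6, nat_lit 10], [nat_lit 1], [nat_lit 2, nat_lit 4, nat_lit 10], [nat_lit 2], [nat_lit 3], [nat_lit 3], [nat_lit 4, nat_lit 6]],
  [[nat_lit 1, nat_lit 2, nat_lit 3], [nat_lit 0, nat_lit 4, nat_lit 5], [nat_lit 0, nat_lit 6, nat_lit 7], [nat_lit 0, nat_lit 8, nat_lit 9], [nat_lit 1, nat_lit 6, nat_lit 10], [nat_lit 1], [nat_lit 2, nat_lit 4], [nat_lit 2, nat_lit 10], [nat_lit 3, nat_lit 10], [nat_lit 3], [nat_lit 4, nat_lit 7, nat_lit 8]],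
  [[nat_lit 1, nat_lit 2, nat_lit 3], [nat_lit 0, nat_lit 4, nat_lit 5], [nat_lit 0, nat_lit 6, nat_lit 7], [nat_lit 0, nat_lit 8, nat_lit 9], [nat_lit 1, nat_lit 6, nat_lit 10], [nat_lit 1], [nat_lit 2, nat_lit 4], [nat_lit 2, nat_lit 10], [nat_lit 3], [nat_lit 3], [nat_lit 4, nat_lit 7]],
  [[nat_lit 1, nat_lit 2, nat_lit 3], [nat_lit 0, nat_lit 4, nat_lit 5], [nat_lit 0, nat_lit 6, nat_lit 7], [nat_lit 0, nat_lit 8, nat_lit 9], [nat_lit 1, nat_lit 6, nat_lit 10], [nat_lit 1], [nat_lit 2, nat_lit 4], [nat_lit 2], [nat_lit 3, nat_lit 10], [nat_lit 3, nat_lit 10], [nat_lit 4, nat_lit 8, nat_lit 9]],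
  [[nat_lit 1, nat_lit 2, nat_lit 3], [nat_lit 0, nat_lit 4, nat_lit 5], [nat_lit 0, nat_lit 6, nat_lit 7], [nat_lit 0, nat_lit 8, nat_lit 9], [nat_lit 1, nat_lit 6, nat_lit 10], [nat_lit 1], [nat_lit 2, nat_lit 4], [nat_lit 2], [nat_lit 3, nat_lit 10], [nat_lit 3], [nat_lit 4, nat_lit 8]],
  [[nat_lit 1, nat_lit 2, nat_lit 3], [nat_lit 0, nat_lit 4, nat_lit 5], [nat_lit 0, nat_lit 6, nat_lit 7], [nat_lit 0, nat_lit 8, nat_lit 9], [nat_lit 1, nat_lit 6, nat_lit 10], [nat_lit 1], [nat_lit 2, nat_lit 4], [nat_lit 2], [nat_lit 3], [nat_lit 3], [nat_lit 4]],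
  [[nat_lit 1, nat_lit 2, nat_lit 3], [nat_lit 0, nat_lit 4, nat_lit 5], [nat_lit 0, nat_lit 6, nat_lit 7], [nat_lit 0, nat_lit 8, nat_lit 9], [nat_lit 1, nat_lit 10], [nat_lit 1, nat_lit 10], [nat_lit 2, nat_lit 10], [nat_lit 2], [nat_lit 3], [nat_lit 3], [nat_lit 4, nat_lit 5, nat_lit 6]],
  [[nat_lit 1, nat_lit 2, nat_lit 3], [nat_lit 0, nat_lit 4, nat_lit 5], [nat_lit 0, nat_lit 6, nat_lit 7], [nat_lit 0, nat_lit 8, nat_lit 9], [nat_lit 1, nat_lit 10], [nat_lit 1, nat_lit 10], [nat_lit 2], [nat_lit 2], [nat_lit 3], [nat_lit 3], [nat_lit 4, nat_lit 5]],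
  [[nat_lit 1, nat_lit 2, nat_lit 3], [nat_lit 0, nat_lit 4, nat_lit 5], [nat_lit 0, nat_lit 6, nat_lit 7], [nat_lit 0, nat_lit 8, nat_lit 9], [nat_lit 1, nat_lit 10], [nat_lit 1], [nat_lit 2, nat_lit 10], [nat_lit 2], [nat_lit 3, nat_lit 10], [nat_lit 3], [nat_lit 4, nat_lit 6, nat_lit 8]],
  [[nat_lit 1, nat_lit 2, nat_lit 3], [nat_lit 0, nat_lit 4, nat_lit 5], [nat_lit 0, nat_lit 6, nat_lit 7], [nat_lit 0, nat_lit 8, nat_lit 9], [nat_lit 1, nat_lit 10], [nat_lit 1], [nat_lit 2, nat_lit 10], [nat_lit 2], [nat_lit 3], [nat_lit 3], [nat_lit 4, nat_lit 6]],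
  [[nat_lit 1, nat_lit 2, nat_lit 3], [nat_lit 0, nat_lit 4, nat_lit 5], [nat_lit 0, nat_lit 6, nat_lit 7], [nat_lit 0, nat_lit 8, nat_lit 9], [nat_lit 1, nat_lit 10], [nat_lit 1], [nat_lit 2], [nat_lit 2], [nat_lit 3], [nat_lit 3], [nat_lit 4]],
  [[nat_lit 1, nat_lit 2, nat_lit 3], [nat_lit 0, nat_lit 2, nat_lit 4], [nat_lit 0, nat_lit 1, nat_lit 5], [nat_lit 0, nat_lit 6, nat_lit 7], [nat_lit 1, nat_lit 8, nat_lit 9], [nat_lit 2, nat_lit 10, nat_lit 11], [nat_lit 3, nat_lit 7], [nat_lit 3, nat_lit 6], [nat_lit 4, nat_lit 9], [nat_lit 4, nat_lit 8], [nat_lit 5, nat_lit 11], [nat_lit 5, nat_lit 10]],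
  [[nat_lit 1, nat_lit 2, nat_lit 3], [nat_lit 0, nat_lit 2, nat_lit 4], [nat_lit 0, nat_lit 1, nat_lit 5], [nat_lit 0, nat_lit 6, nat_lit 7], [nat_lit 1, nat_lit 8, nat_lit 9], [nat_lit 2, nat_lit 10, nat_lit 11], [nat_lit 3, nat_lit 7], [nat_lit 3, nat_lit 6], [nat_lit 4, nat_lit 9], [nat_lit 4, nat_lit 8], [nat_lit 5], [nat_lit 5]],
  [[nat_lit 1, nat_lit 2, nat_lit 3], [nat_lit 0, nat_lit 2, nat_lit 4], [nat_lit 0, nat_lit 1, nat_lit 5], [nat_lit 0, nat_lit 6, nat_lit 7], [nat_lit 1, nat_lit 8, nat_lit 9], [nat_lit 2, nat_lit 10, nat_lit 11], [nat_lit 3, nat_lit 7], [nat_lit 3, nat_lit 6], [nat_lit 4, nat_lit 10], [nat_lit 4, nat_lit 11], [nat_lit 5, nat_lit 8], [nat_lit 5, nat_lit 9]],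
  [[nat_lit 1, nat_lit 2, nat_lit 3], [nat_lit 0, nat_lit 2, nat_lit 4], [nat_lit 0, nat_lit 1, nat_lit 5], [nat_lit 0, nat_lit 6, nat_lit 7], [nat_lit 1, nat_lit 8, nat_lit 9], [nat_lit 2, nat_lit 10, nat_lit 11], [nat_lit 3, nat_lit 7], [nat_lit 3, nat_lit 6], [nat_lit 4, nat_lit 10], [nat_lit 4], [nat_lit 5, nat_lit 8], [nat_lit 5]],
  [[nat_lit 1, nat_lit 2, nat_lit 3], [nat_lit 0, nat_lit 2, nat_lit 4], [nat_lit 0, nat_lit 1, nat_lit 5], [nat_lit 0, nat_lit 6, nat_lit 7], [nat_lit 1, nat_lit 8, nat_lit 9], [nat_lit 2, nat_lit 10, nat_lit 11], [nat_lit 3, nat_lit 8], [nat_lit 3, nat_lit 10], [nat_lit 4, nat_lit 6], [nat_lit 4, nat_lit 11], [nat_lit 5, nat_lit 7], [nat_lit 5, nat_lit 9]],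
  [[nat_lit 1, nat_lit 2, nat_lit 3], [nat_lit 0, nat_lit 4, nat_lit 5], [nat_lit 0, nat_lit 4, nat_lit 5], [nat_lit 0, nat_lit 4, nat_lit 6], [nat_lit 1, nat_lit 2, nat_lit 3], [nat_lit 1, nat_lit 2, nat_lit 7], [nat_lit 3, nat_lit 8, nat_lit 9], [nat_lit 5, nat_lit 10, nat_lit 11], [nat_lit 6, nat_lit 9], [nat_lit 6, nat_lit 8], [nat_lit 7, nat_lit 11], [nat_lit 7, nat_lit 10]],
  [[nat_lit 1, nat_lit 2, nat_lit 3], [nat_lit 0, nat_lit 4, nat_lit 5], [nat_lit 0, nat_lit 4, nat_lit 6], [nat_lit 0, nat_lit 4, nat_lit 7], [nat_lit 1, nat_lit 2, nat_lit 3], [nat_lit 1, nat_lit 8, nat_lit 9], [nat_lit 2, nat_lit 10, nat_lit 11], [nat_lit 3], [nat_lit 5, nat_lit 9], [nat_lit 5, nat_lit 8], [nat_lit 6, nat_lit 11], [nat_lit 6, nat_lit 10]],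
  [[nat_lit 1, nat_lit 2, nat_lit 3], [nat_lit 0, nat_lit 4, nat_lit 5], [nat_lit 0, nat_lit 4, nat_lit 6], [nat_lit 0, nat_lit 7, nat_lit 8], [nat_lit 1, nat_lit 2, nat_lit 7], [nat_lit 1, nat_lit 6, nat_lit 9], [nat_lit 2, nat_lit 5, nat_lit 10], [nat_lit 3, nat_lit 4, nat_lit 11], [nat_lit 3, nat_lit 11], [nat_lit 5, nat_lit 10], [nat_lit 6, nat_lit 9], [nat_lit 7, nat_lit 8]],
  [[nat_lit 1, nat_lit 2, nat_lit 3], [nat_lit 0, nat_lit 4, nat_lit 5], [nat_lit 0, nat_lit 4, nat_lit 6], [nat_lit 0, nat_lit 7, nat_lit 8], [nat_lit 1, nat_lit 2, nat_lit 9], [nat_lit 1, nat_lit 6, nat_lit 10], [nat_lit 2, nat_lit 5, nat_lit 11], [nat_lit 3, nat_lit 8], [nat_lit 3, nat_lit 7], [nat_lit 4], [nat_lit 5, nat_lit 11], [nat_lit 6, nat_lit 10]],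
  [[nat_lit 1, nat_lit 2, nat_lit 3], [nat_lit 0, nat_lit 4, nat_lit 5], [nat_lit 0, nat_lit 4, nat_lit 6], [nat_lit 0, nat_lit 7, nat_lit 8], [nat_lit 1, nat_lit 2, nat_lit 9], [nat_lit 1, nat_lit 9, nat_lit 10], [nat_lit 2, nat_lit 11], [nat_lit 3, nat_lit 8], [nat_lit 3, nat_lit 7], [nat_lit 4, nat_lit 5], [nat_lit 5, nat_lit 11], [nat_lit 6, nat_lit 10]],
  [[nat_lit 1, nat_lit 2, nat_lit 3], [nat_lit 0, nat_lit 4, nat_lit 5], [nat_lit 0, nat_lit 4, nat_lit 6], [nat_lit 0, nat_lit 7, nat_lit 8], [nat_lit 1, nat_lit 2, nat_lit 9], [nat_lit 1, nat_lit 9, nat_lit 10], [nat_lit 2, nat_lit 11], [nat_lit 3, nat_lit 8], [nat_lit 3, nat_lit 7], [nat_lit 4, nat_lit 5], [nat_lit 5], [nat_lit 6]],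
  [[nat_lit 1, nat_lit 2, nat_lit 3], [nat_lit 0, nat_lit 4, nat_lit 5], [nat_lit 0, nat_lit 4, nat_lit 6], [nat_lit 0, nat_lit 7, nat_lit 8], [nat_lit 1, nat_lit 2, nat_lit 9], [nat_lit 1, nat_lit 10, nat_lit 11], [nat_lit 2], [nat_lit 3, nat_lit 8, nat_lit 9], [nat_lit 3, nat_lit 7], [nat_lit 4, nat_lit 7], [nat_lit 5, nat_lit 11], [nat_lit 5, nat_lit 10]],
  [[nat_lit 1, nat_lit 2, nat_lit 3], [nat_lit 0, nat_lit 4, nat_lit 5], [nat_lit 0, nat_lit 4, nat_lit 6], [nat_lit 0, nat_lit 7, nat_lit 8], [nat_lit 1, nat_lit 2, nat_lit 9], [nat_lit 1, nat_lit 10, nat_lit 11], [nat_lit 2, nat_lit 10, nat_lit 11], [nat_lit 3, nat_lit 8], [nat_lit 3, nat_lit 7], [nat_lit 4, nat_lit 10], [nat_lit 5, nat_lit 6, nat_lit 9], [nat_lit 5, nat_lit 6]],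
  [[nat_lit 1, nat_lit 2, nat_lit 3], [nat_lit 0, nat_lit 4, nat_lit 5], [nat_lit 0, nat_lit 4, nat_lit 6], [nat_lit 0, nat_lit 7, nat_lit 8], [nat_lit 1, nat_lit 2, nat_lit 9], [nat_lit 1, nat_lit 10, nat_lit 11], [nat_lit 2, nat_lit 10, nat_lit 11], [nat_lit 3, nat_lit 8], [nat_lit 3, nat_lit 7], [nat_lit 4], [nat_lit 5, nat_lit 6], [nat_lit 5, nat_lit 6]],
  [[nat_lit 1, nat_lit 2, nat_lit 3], [nat_lit 0, nat_lit 4, nat_lit 5], [nat_lit 0, nat_lit 4, nat_lit 6], [nat_lit 0, nat_lit 7, nat_lit 8], [nat_lit 1, nat_lit 2, nat_lit 9], [nat_lit 1, nat_lit 10, nat_lit 11], [nat_lit 2, nat_lit 10], [nat_lit 3, nat_lit 8], [nat_lit 3, nat_lit 7], [nat_lit 4, nat_lit 11], [nat_lit 5, nat_lit 6], [nat_lit 5, nat_lit 9]],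
  [[nat_lit 1, nat_lit 2, nat_lit 3], [nat_lit 0, nat_lit 4, nat_lit 5], [nat_lit 0, nat_lit 4, nat_lit 6], [nat_lit 0, nat_lit 7, nat_lit 8], [nat_lit 1, nat_lit 2, nat_lit 9], [nat_lit 1, nat_lit 10, nat_lit 11], [nat_lit 2, nat_lit 10], [nat_lit 3, nat_lit 8], [nat_lit 3, nat_lit 7], [nat_lit 4], [nat_lit 5, nat_lit 6], [nat_lit 5]]]

noncomputable def op15 : List (List (List Nat)) := [
  [[nat_lit 1, nat_lit 2, nat_lit 3], [nat_lit 0, nat_lit 4, nat_lit 5], [nat_lit 0, nat_lit 4, nat_lit 6], [nat_lit 0, nat_lit 7, nat_lit 8], [nat_lit 1, nat_lit 2, nat_lit 9], [nat_lit 1, nat_lit 10, nat_lit 11], [nat_lit 2], [nat_lit 3, nat_lit 8], [nat_lit 3, nat_lit 7], [nat_lit 4], [nat_lit 5, nat_lit 11], [nat_lit 5, nat_lit 10]],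
  [[nat_lit 1, nat_lit 2, nat_lit 3], [nat_lit 0, nat_lit 4, nat_lit 5], [nat_lit 0, nat_lit 4, nat_lit 6], [nat_lit 0, nat_lit 7, nat_lit 8], [nat_lit 1, nat_lit 2, nat_lit 9], [nat_lit 1, nat_lit 10, nat_lit 11], [nat_lit 2, nat_lit 10], [nat_lit 3, nat_lit 9], [nat_lit 3, nat_lit 11], [nat_lit 4, nat_lit 7], [nat_lit 5, nat_lit 6], [nat_lit 5, nat_lit 8]],
  [[nat_lit 1, nat_lit 2, nat_lit 3], [nat_lit 0, nat_lit 4, nat_lit 5], [nat_lit 0, nat_lit 6, nat_lit 7], [nat_lit 0, nat_lit 8, nat_lit 9], [nat_lit 1, nat_lit 5, nat_lit 6], [nat_lit 1, nat_lit 4, nat_lit 10], [nat_lit 2, nat_lit 4, nat_lit 11], [nat_lit 2, nat_lit 10], [nat_lit 3, nat_lit 9], [nat_lit 3, nat_lit 8], [nat_lit 5, nat_lit 7], [nat_lit 6]],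
  [[nat_lit 1, nat_lit 2, nat_lit 3], [nat_lit 0, nat_lit 4, nat_lit 5], [nat_lit 0, nat_lit 6, nat_lit 7], [nat_lit 0, nat_lit 8, nat_lit 9], [nat_lit 1, nat_lit 5, nat_lit 10], [nat_lit 1, nat_lit 4, nat_lit 10], [nat_lit 2, nat_lit 7, nat_lit 11], [nat_lit 2, nat_lit 6, nat_lit 11], [nat_lit 3, nat_lit 9], [nat_lit 3, nat_lit 8], [nat_lit 4, nat_lit 5], [nat_lit 6, nat_lit 7]],
  [[nat_lit 1, nat_lit 2, nat_lit 3], [nat_lit 0, nat_lit 4, nat_lit 5], [nat_lit 0, nat_lit 6, nat_lit 7], [nat_lit 0, nat_lit 8, nat_lit 9], [nat_lit 1, nat_lit 5, nat_lit 10], [nat_lit 1, nat_lit 4, nat_lit 10], [nat_lit 2, nat_lit 7, nat_lit 11], [nat_lit 2, nat_lit 6], [nat_lit 3, nat_lit 9], [nat_lit 3, nat_lit 8], [nat_lit 4, nat_lit 5], [nat_lit 6]],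
  [[nat_lit 1, nat_lit 2, nat_lit 3], [nat_lit 0, nat_lit 4, nat_lit 5], [nat_lit 0, nat_lit 6, nat_lit 7], [nat_lit 0, nat_lit 8, nat_lit 9], [nat_lit 1, nat_lit 5, nat_lit 10], [nat_lit 1, nat_lit 4, nat_lit 11], [nat_lit 2, nat_lit 7, nat_lit 10], [nat_lit 2, nat_lit 6, nat_lit 11], [nat_lit 3, nat_lit 9], [nat_lit 3, nat_lit 8], [nat_lit 4, nat_lit 6], [nat_lit 5, nat_lit 7]],
  [[nat_lit 1, nat_lit 2, nat_lit 3], [nat_lit 0, nat_lit 4, nat_lit 5], [nat_lit 0, nat_lit 6, nat_lit 7], [nat_lit 0, nat_lit 8, nat_lit 9], [nat_lit 1, nat_lit 5, nat_lit 10], [nat_lit 1, nat_lit 4, nat_lit 11], [nat_lit 2, nat_lit 7, nat_lit 10], [nat_lit 2, nat_lit 6], [nat_lit 3, nat_lit 9], [nat_lit 3, nat_lit 8], [nat_lit 4, nat_lit 6], [nat_lit 5]],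
  [[nat_lit 1, nat_lit 2, nat_lit 3], [nat_lit 0, nat_lit 4, nat_lit 5], [nat_lit 0, nat_lit 6, nat_lit 7], [nat_lit 0, nat_lit 8, nat_lit 9], [nat_lit 1, nat_lit 5, nat_lit 10], [nat_lit 1, nat_lit 4, nat_lit 11], [nat_lit 2, nat_lit 7], [nat_lit 2, nat_lit 6], [nat_lit 3, nat_lit 9], [nat_lit 3, nat_lit 8], [nat_lit 4, nat_lit 11], [nat_lit 5, nat_lit 10]],
  [[nat_lit 1, nat_lit 2, nat_lit 3], [nat_lit 0, nat_lit 4, nat_lit 5], [nat_lit 0, nat_lit 6, nat_lit 7], [nat_lit 0, nat_lit 8, nat_lit 9], [nat_lit 1, nat_lit 5, nat_lit 10], [nat_lit 1, nat_lit 4, nat_lit 11], [nat_lit 2, nat_lit 7], [nat_lit 2, nat_lit 6], [nat_lit 3, nat_lit 9], [nat_lit 3, nat_lit 8], [nat_lit 4], [nat_lit 5]],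
  [[nat_lit 1, nat_lit 2, nat_lit 3], [nat_lit 0, nat_lit 4, nat_lit 5], [nat_lit 0, nat_lit 6, nat_lit 7], [nat_lit 0, nat_lit 8, nat_lit 9], [nat_lit 1, nat_lit 5, nat_lit 10], [nat_lit 1, nat_lit 4, nat_lit 11], [nat_lit 2, nat_lit 7], [nat_lit 2, nat_lit 6], [nat_lit 3, nat_lit 10, nat_lit 11], [nat_lit 3], [nat_lit 4, nat_lit 8], [nat_lit 5, nat_lit 8]],
  [[nat_lit 1, nat_lit 2, nat_lit 3], [nat_lit 0, nat_lit 4, nat_lit 5], [nat_lit 0, nat_lit 6, nat_lit 7], [nat_lit 0, nat_lit 8, nat_lit 9], [nat_lit 1, nat_lit 5, nat_lit 10], [nat_lit 1, nat_lit 4, nat_lit 11], [nat_lit 2, nat_lit 7], [nat_lit 2, nat_lit 6], [nat_lit 3, nat_lit 10], [nat_lit 3, nat_lit 11], [nat_lit 4, nat_lit 8], [nat_lit 5, nat_lit 9]],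
  [[nat_lit 1, nat_lit 2, nat_lit 3], [nat_lit 0, nat_lit 4, nat_lit 5], [nat_lit 0, nat_lit 6, nat_lit 7], [nat_lit 0, nat_lit 8, nat_lit 9], [nat_lit 1, nat_lit 5, nat_lit 10], [nat_lit 1, nat_lit 4, nat_lit 11], [nat_lit 2, nat_lit 7], [nat_lit 2, nat_lit 6], [nat_lit 3, nat_lit 10], [nat_lit 3], [nat_lit 4, nat_lit 8], [nat_lit 5]],
  [[nat_lit 1, nat_lit 2, nat_lit 3], [nat_lit 0, nat_lit 4, nat_lit 5], [nat_lit 0, nat_lit 6, nat_lit 7], [nat_lit 0, nat_lit 8, nat_lit 9], [nat_lit 1, nat_lit 5, nat_lit 10], [nat_lit 1, nat_lit 4, nat_lit 11], [nat_lit 2, nat_lit 7], [nat_lit 2, nat_lit 6], [nat_lit 3], [nat_lit 3], [nat_lit 4, nat_lit 11], [nat_lit 5, nat_lit 10]],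
  [[nat_lit 1, nat_lit 2, nat_lit 3], [nat_lit 0, nat_lit 4, nat_lit 5], [nat_lit 0, nat_lit 6, nat_lit 7], [nat_lit 0, nat_lit 8, nat_lit 9], [nat_lit 1, nat_lit 5, nat_lit 10], [nat_lit 1, nat_lit 4, nat_lit 11], [nat_lit 2, nat_lit 7], [nat_lit 2, nat_lit 6], [nat_lit 3], [nat_lit 3], [nat_lit 4], [nat_lit 5]],
  [[nat_lit 1, nat_lit 2, nat_lit 3], [nat_lit 0, nat_lit 4, nat_lit 5], [nat_lit 0, nat_lit 6, nat_lit 7], [nat_lit 0, nat_lit 8, nat_lit 9], [nat_lit 1, nat_lit 5, nat_lit 8], [nat_lit 1, nat_lit 4, nat_lit 9], [nat_lit 2, nat_lit 10, nat_lit 11], [nat_lit 2, nat_lit 10], [nat_lit 3, nat_lit 4], [nat_lit 3, nat_lit 5], [nat_lit 6, nat_lit 7, nat_lit 11], [nat_lit 6, nat_lit 10]],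
  [[nat_lit 1, nat_lit 2, nat_lit 3], [nat_lit 0, nat_lit 4, nat_lit 5], [nat_lit 0, nat_lit 6, nat_lit 7], [nat_lit 0, nat_lit 8, nat_lit 9], [nat_lit 1, nat_lit 5, nat_lit 8], [nat_lit 1, nat_lit 4, nat_lit 9], [nat_lit 2, nat_lit 10, nat_lit 11], [nat_lit 2, nat_lit 10], [nat_lit 3, nat_lit 4], [nat_lit 3, nat_lit 5], [nat_lit 6, nat_lit 7], [nat_lit 6]],
  [[nat_lit 1, nat_lit 2, nat_lit 3], [nat_lit 0, nat_lit 4, nat_lit 5], [nat_lit 0, nat_lit 6, nat_lit 7], [nat_lit 0, nat_lit 8, nat_lit 9], [nat_lit 1, nat_lit 5, nat_lit 8], [nat_lit 1, nat_lit 4, nat_lit 9], [nat_lit 2, nat_lit 10, nat_lit 11], [nat_lit 2], [nat_lit 3, nat_lit 4], [nat_lit 3, nat_lit 5], [nat_lit 6, nat_lit 11], [nat_lit 6, nat_lit 10]],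
  [[nat_lit 1, nat_lit 2, nat_lit 3], [nat_lit 0, nat_lit 4, nat_lit 5], [nat_lit 0, nat_lit 6, nat_lit 7], [nat_lit 0, nat_lit 8, nat_lit 9], [nat_lit 1, nat_lit 5, nat_lit 10], [nat_lit 1, nat_lit 4, nat_lit 10], [nat_lit 2, nat_lit 8, nat_lit 11], [nat_lit 2, nat_lit 9], [nat_lit 3, nat_lit 6, nat_lit 11], [nat_lit 3, nat_lit 7], [nat_lit 4, nat_lit 5], [nat_lit 6, nat_lit 8]],
  [[nat_lit 1, nat_lit 2, nat_lit 3], [nat_lit 0, nat_lit 4, nat_lit 5], [nat_lit 0, nat_lit 6, nat_lit 7], [nat_lit 0, nat_lit 8, nat_lit 9], [nat_lit 1, nat_lit 5, nat_lit 10], [nat_lit 1, nat_lit 4, nat_lit 10], [nat_lit 2, nat_lit 8, nat_lit 11], [nat_lit 2, nat_lit 9], [nat_lit 3, nat_lit 6], [nat_lit 3, nat_lit 7], [nat_lit 4, nat_lit 5], [nat_lit 6]],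
  [[nat_lit 1, nat_lit 2, nat_lit 3], [nat_lit 0, nat_lit 4, nat_lit 5], [nat_lit 0, nat_lit 6, nat_lit 7], [nat_lit 0, nat_lit 8, nat_lit 9], [nat_lit 1, nat_lit 5, nat_lit 10], [nat_lit 1, nat_lit 4, nat_lit 11], [nat_lit 2, nat_lit 8, nat_lit 10], [nat_lit 2, nat_lit 9], [nat_lit 3, nat_lit 6, nat_lit 11], [nat_lit 3, nat_lit 7], [nat_lit 4, nat_lit 6], [nat_lit 5, nat_lit 8]],
  [[nat_lit 1, nat_lit 2, nat_lit 3], [nat_lit 0, nat_lit 4, nat_lit 5], [nat_lit 0, nat_lit 6, nat_lit 7], [nat_lit 0, nat_lit 8, nat_lit 9], [nat_lit 1, nat_lit 5, nat_lit 10], [nat_lit 1, nat_lit 4, nat_lit 11], [nat_lit 2, nat_lit 8, nat_lit 10], [nat_lit 2, nat_lit 9], [nat_lit 3, nat_lit 6], [nat_lit 3, nat_lit 7], [nat_lit 4, nat_lit 6], [nat_lit 5]],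
  [[nat_lit 1, nat_lit 2, nat_lit 3], [nat_lit 0, nat_lit 4, nat_lit 5], [nat_lit 0, nat_lit 6, nat_lit 7], [nat_lit 0, nat_lit 8, nat_lit 9], [nat_lit 1, nat_lit 5, nat_lit 10], [nat_lit 1, nat_lit 4, nat_lit 11], [nat_lit 2, nat_lit 8], [nat_lit 2, nat_lit 9], [nat_lit 3, nat_lit 6], [nat_lit 3, nat_lit 7], [nat_lit 4, nat_lit 11], [nat_lit 5, nat_lit 10]],
  [[nat_lit 1, nat_lit 2, nat_lit 3], [nat_lit 0, nat_lit 4, nat_lit 5], [nat_lit 0, nat_lit 6, nat_lit 7], [nat_lit 0, nat_lit 8, nat_lit 9], [nat_lit 1, nat_lit 5, nat_lit 10], [nat_lit 1, nat_lit 4, nat_lit 11], [nat_lit 2, nat_lit 8], [nat_lit 2, nat_lit 9], [nat_lit 3, nat_lit 6], [nat_lit 3, nat_lit 7], [nat_lit 4], [nat_lit 5]],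
  [[nat_lit 1, nat_lit 2, nat_lit 3], [nat_lit 0, nat_lit 4, nat_lit 5], [nat_lit 0, nat_lit 6, nat_lit 7], [nat_lit 0, nat_lit 8, nat_lit 9], [nat_lit 1, nat_lit 5, nat_lit 10], [nat_lit 1, nat_lit 4, nat_lit 11], [nat_lit 2, nat_lit 8], [nat_lit 2, nat_lit 10], [nat_lit 3, nat_lit 6], [nat_lit 3, nat_lit 11], [nat_lit 4, nat_lit 7], [nat_lit 5, nat_lit 9]],
  [[nat_lit 1, nat_lit 2, nat_lit 3], [nat_lit 0, nat_lit 4, nat_lit 5], [nat_lit 0, nat_lit 6, nat_lit 7], [nat_lit 0, nat_lit 8, nat_lit 9], [nat_lit 1, nat_lit 5, nat_lit 10], [nat_lit 1, nat_lit 4, nat_lit 11], [nat_lit 2, nat_lit 8], [nat_lit 2, nat_lit 10], [nat_lit 3, nat_lit 6], [nat_lit 3], [nat_lit 4, nat_lit 7], [nat_lit 5]],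
  [[nat_lit 1, nat_lit 2, nat_lit 3], [nat_lit 0, nat_lit 4, nat_lit 5], [nat_lit 0, nat_lit 6, nat_lit 7], [nat_lit 0, nat_lit 8, nat_lit 9], [nat_lit 1, nat_lit 5, nat_lit 10], [nat_lit 1, nat_lit 4, nat_lit 11], [nat_lit 2, nat_lit 8], [nat_lit 2], [nat_lit 3, nat_lit 6], [nat_lit 3], [nat_lit 4, nat_lit 11], [nat_lit 5, nat_lit 10]],
  [[nat_lit 1, nat_lit 2, nat_lit 3], [nat_lit 0, nat_lit 4, nat_lit 5], [nat_lit 0, nat_lit 6, nat_lit 7], [nat_lit 0, nat_lit 8, nat_lit 9], [nat_lit 1, nat_lit 5, nat_lit 10], [nat_lit 1, nat_lit 4, nat_lit 11], [nat_lit 2, nat_lit 8], [nat_lit 2], [nat_lit 3, nat_lit 6], [nat_lit 3], [nat_lit 4], [nat_lit 5]],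
  [[nat_lit 1, nat_lit 2, nat_lit 3], [nat_lit 0, nat_lit 4, nat_lit 5], [nat_lit 0, nat_lit 6, nat_lit 7], [nat_lit 0, nat_lit 6, nat_lit 7], [nat_lit 1, nat_lit 8, nat_lit 9], [nat_lit 1, nat_lit 8, nat_lit 10], [nat_lit 2, nat_lit 3, nat_lit 11], [nat_lit 2, nat_lit 3], [nat_lit 4, nat_lit 5], [nat_lit 4, nat_lit 10], [nat_lit 5, nat_lit 9], [nat_lit 6]],
  [[nat_lit 1, nat_lit 2, nat_lit 3], [nat_lit 0, nat_lit 4, nat_lit 5], [nat_lit 0, nat_lit 6, nat_lit 7], [nat_lit 0, nat_lit 6, nat_lit 7], [nat_lit 1, nat_lit 8, nat_lit 9], [nat_lit 1, nat_lit 10, nat_lit 11], [nat_lit 2, nat_lit 3, nat_lit 8], [nat_lit 2, nat_lit 3], [nat_lit 4, nat_lit 6, nat_lit 9], [nat_lit 4, nat_lit 8], [nat_lit 5, nat_lit 11], [nat_lit 5, nat_lit 10]],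
  [[nat_lit 1, nat_lit 2, nat_lit 3], [nat_lit 0, nat_lit 4, nat_lit 5], [nat_lit 0, nat_lit 6, nat_lit 7], [nat_lit 0, nat_lit 6, nat_lit 7], [nat_lit 1, nat_lit 8, nat_lit 9], [nat_lit 1, nat_lit 10, nat_lit 11], [nat_lit 2, nat_lit 3, nat_lit 8], [nat_lit 2, nat_lit 3], [nat_lit 4, nat_lit 6, nat_lit 10], [nat_lit 4, nat_lit 11], [nat_lit 5, nat_lit 8], [nat_lit 5, nat_lit 9]],
  [[nat_lit 1, nat_lit 2, nat_lit 3], [nat_lit 0, nat_lit 4, nat_lit 5], [nat_lit 0, nat_lit 6, nat_lit 7], [nat_lit 0, nat_lit 6, nat_lit 7], [nat_lit 1, nat_lit 8, nat_lit 9], [nat_lit 1, nat_lit 10, nat_lit 11], [nat_lit 2, nat_lit 3, nat_lit 8], [nat_lit 2, nat_lit 3], [nat_lit 4, nat_lit 6], [nat_lit 4, nat_lit 10], [nat_lit 5, nat_lit 9], [nat_lit 5]],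
  [[nat_lit 1, nat_lit 2, nat_lit 3], [nat_lit 0, nat_lit 4, nat_lit 5], [nat_lit 0, nat_lit 6, nat_lit 7], [nat_lit 0, nat_lit 6, nat_lit 7], [nat_lit 1, nat_lit 8, nat_lit 9], [nat_lit 1, nat_lit 10, nat_lit 11], [nat_lit 2, nat_lit 3, nat_lit 8], [nat_lit 2, nat_lit 3], [nat_lit 4, nat_lit 6], [nat_lit 4], [nat_lit 5, nat_lit 11], [nat_lit 5, nat_lit 10]]]

noncomputable def op16 : List (List (List Nat)) := [
  [[nat_lit 1, nat_lit 2, nat_lit 3], [nat_lit 0, nat_lit 4, nat_lit 5], [nat_lit 0, nat_lit 6, nat_lit 7], [nat_lit 0, nat_lit 6, nat_lit 7], [nat_lit 1, nat_lit 8, nat_lit 9], [nat_lit 1, nat_lit 10, nat_lit 11], [nat_lit 2, nat_lit 3, nat_lit 8], [nat_lit 2, nat_lit 3], [nat_lit 4, nat_lit 6], [nat_lit 4], [nat_lit 5], [nat_lit 5]],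
  [[nat_lit 1, nat_lit 2, nat_lit 3], [nat_lit 0, nat_lit 4, nat_lit 5], [nat_lit 0, nat_lit 6, nat_lit 7], [nat_lit 0, nat_lit 6, nat_lit 7], [nat_lit 1, nat_lit 8, nat_lit 9], [nat_lit 1, nat_lit 10, nat_lit 11], [nat_lit 2, nat_lit 3], [nat_lit 2, nat_lit 3], [nat_lit 4, nat_lit 9], [nat_lit 4, nat_lit 8], [nat_lit 5, nat_lit 11], [nat_lit 5, nat_lit 10]],
  [[nat_lit 1, nat_lit 2, nat_lit 3], [nat_lit 0, nat_lit 4, nat_lit 5], [nat_lit 0, nat_lit 6, nat_lit 7], [nat_lit 0, nat_lit 6, nat_lit 7], [nat_lit 1, nat_lit 8, nat_lit 9], [nat_lit 1, nat_lit 10, nat_lit 11], [nat_lit 2, nat_lit 3], [nat_lit 2, nat_lit 3], [nat_lit 4, nat_lit 9], [nat_lit 4, nat_lit 8], [nat_lit 5], [nat_lit 5]],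
  [[nat_lit 1, nat_lit 2, nat_lit 3], [nat_lit 0, nat_lit 4, nat_lit 5], [nat_lit 0, nat_lit 6, nat_lit 7], [nat_lit 0, nat_lit 6, nat_lit 7], [nat_lit 1, nat_lit 8, nat_lit 9], [nat_lit 1, nat_lit 10, nat_lit 11], [nat_lit 2, nat_lit 3], [nat_lit 2, nat_lit 3], [nat_lit 4, nat_lit 10], [nat_lit 4, nat_lit 11], [nat_lit 5, nat_lit 8], [nat_lit 5, nat_lit 9]],
  [[nat_lit 1, nat_lit 2, nat_lit 3], [nat_lit 0, nat_lit 4, nat_lit 5], [nat_lit 0, nat_lit 6, nat_lit 7], [nat_lit 0, nat_lit 6, nat_lit 7], [nat_lit 1, nat_lit 8, nat_lit 9], [nat_lit 1, nat_lit 10, nat_lit 11], [nat_lit 2, nat_lit 3], [nat_lit 2, nat_lit 3], [nat_lit 4, nat_lit 10], [nat_lit 4], [nat_lit 5, nat_lit 8], [nat_lit 5]],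
  [[nat_lit 1, nat_lit 2, nat_lit 3], [nat_lit 0, nat_lit 4, nat_lit 5], [nat_lit 0, nat_lit 6, nat_lit 7], [nat_lit 0, nat_lit 6, nat_lit 7], [nat_lit 1, nat_lit 8, nat_lit 9], [nat_lit 1, nat_lit 10, nat_lit 11], [nat_lit 2, nat_lit 3], [nat_lit 2, nat_lit 3], [nat_lit 4], [nat_lit 4], [nat_lit 5], [nat_lit 5]],
  [[nat_lit 1, nat_lit 2, nat_lit 3], [nat_lit 0, nat_lit 4, nat_lit 5], [nat_lit 0, nat_lit 6, nat_lit 7], [nat_lit 0, nat_lit 8, nat_lit 9], [nat_lit 1, nat_lit 6, nat_lit 7], [nat_lit 1, nat_lit 8, nat_lit 10], [nat_lit 2, nat_lit 4, nat_lit 11], [nat_lit 2, nat_lit 4], [nat_lit 3, nat_lit 5], [nat_lit 3, nat_lit 10], [nat_lit 5, nat_lit 9], [nat_lit 6]],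
  [[nat_lit 1, nat_lit 2, nat_lit 3], [nat_lit 0, nat_lit 4, nat_lit 5], [nat_lit 0, nat_lit 6, nat_lit 7], [nat_lit 0, nat_lit 8, nat_lit 9], [nat_lit 1, nat_lit 6, nat_lit 7], [nat_lit 1, nat_lit 8, nat_lit 10], [nat_lit 2, nat_lit 4, nat_lit 11], [nat_lit 2, nat_lit 4], [nat_lit 3, nat_lit 5], [nat_lit 3, nat_lit 11], [nat_lit 5, nat_lit 11], [nat_lit 6, nat_lit 9, nat_lit 10]],
  [[nat_lit 1, nat_lit 2, nat_lit 3], [nat_lit 0, nat_lit 4, nat_lit 5], [nat_lit 0, nat_lit 6, nat_lit 7], [nat_lit 0, nat_lit 8, nat_lit 9], [nat_lit 1, nat_lit 6, nat_lit 7], [nat_lit 1, nat_lit 8, nat_lit 10], [nat_lit 2, nat_lit 4, nat_lit 11], [nat_lit 2, nat_lit 4], [nat_lit 3, nat_lit 5], [nat_lit 3, nat_lit 11], [nat_lit 5], [nat_lit 6, nat_lit 9]],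
  [[nat_lit 1, nat_lit 2, nat_lit 3], [nat_lit 0, nat_lit 4, nat_lit 5], [nat_lit 0, nat_lit 6, nat_lit 7], [nat_lit 0, nat_lit 8, nat_lit 9], [nat_lit 1, nat_lit 6, nat_lit 7], [nat_lit 1, nat_lit 8, nat_lit 10], [nat_lit 2, nat_lit 4, nat_lit 11], [nat_lit 2, nat_lit 4], [nat_lit 3, nat_lit 5], [nat_lit 3], [nat_lit 5], [nat_lit 6]],
  [[nat_lit 1, nat_lit 2, nat_lit 3], [nat_lit 0, nat_lit 4, nat_lit 5], [nat_lit 0, nat_lit 6, nat_lit 7], [nat_lit 0, nat_lit 8, nat_lit 9], [nat_lit 1, nat_lit 6, nat_lit 7], [nat_lit 1, nat_lit 10, nat_lit 11], [nat_lit 2, nat_lit 4, nat_lit 8], [nat_lit 2, nat_lit 4], [nat_lit 3, nat_lit 6], [nat_lit 3], [nat_lit 5, nat_lit 11], [nat_lit 5, nat_lit 10]],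
  [[nat_lit 1, nat_lit 2, nat_lit 3], [nat_lit 0, nat_lit 4, nat_lit 5], [nat_lit 0, nat_lit 6, nat_lit 7], [nat_lit 0, nat_lit 8, nat_lit 9], [nat_lit 1, nat_lit 6, nat_lit 7], [nat_lit 1, nat_lit 10, nat_lit 11], [nat_lit 2, nat_lit 4], [nat_lit 2, nat_lit 4], [nat_lit 3], [nat_lit 3], [nat_lit 5, nat_lit 11], [nat_lit 5, nat_lit 10]],
  [[nat_lit 1, nat_lit 2, nat_lit 3], [nat_lit 0, nat_lit 4, nat_lit 5], [nat_lit 0, nat_lit 6, nat_lit 7], [nat_lit 0, nat_lit 8, nat_lit 9], [nat_lit 1, nat_lit 6, nat_lit 10], [nat_lit 1, nat_lit 7, nat_lit 11], [nat_lit 2, nat_lit 4], [nat_lit 2, nat_lit 5], [nat_lit 3, nat_lit 10], [nat_lit 3, nat_lit 11], [nat_lit 4, nat_lit 8], [nat_lit 5, nat_lit 9]],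
  [[nat_lit 1, nat_lit 2, nat_lit 3], [nat_lit 0, nat_lit 4, nat_lit 5], [nat_lit 0, nat_lit 6, nat_lit 7], [nat_lit 0, nat_lit 8, nat_lit 9], [nat_lit 1, nat_lit 6, nat_lit 10], [nat_lit 1, nat_lit 7, nat_lit 11], [nat_lit 2, nat_lit 4], [nat_lit 2, nat_lit 5], [nat_lit 3], [nat_lit 3], [nat_lit 4, nat_lit 11], [nat_lit 5, nat_lit 10]],
  [[nat_lit 1, nat_lit 2, nat_lit 3], [nat_lit 0, nat_lit 4, nat_lit 5], [nat_lit 0, nat_lit 6, nat_lit 7], [nat_lit 0, nat_lit 8, nat_lit 9], [nat_lit 1, nat_lit 6, nat_lit 8], [nat_lit 1, nat_lit 10, nat_lit 11], [nat_lit 2, nat_lit 4], [nat_lit 2, nat_lit 8], [nat_lit 3, nat_lit 4, nat_lit 7], [nat_lit 3], [nat_lit 5, nat_lit 11], [nat_lit 5, nat_lit 10]],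
  [[nat_lit 1, nat_lit 2, nat_lit 3], [nat_lit 0, nat_lit 4, nat_lit 5], [nat_lit 0, nat_lit 6, nat_lit 7], [nat_lit 0, nat_lit 8, nat_lit 9], [nat_lit 1, nat_lit 6, nat_lit 8], [nat_lit 1, nat_lit 10, nat_lit 11], [nat_lit 2, nat_lit 4], [nat_lit 2, nat_lit 9], [nat_lit 3, nat_lit 4], [nat_lit 3, nat_lit 7], [nat_lit 5, nat_lit 11], [nat_lit 5, nat_lit 10]],
  [[nat_lit 1, nat_lit 2, nat_lit 3], [nat_lit 0, nat_lit 4, nat_lit 5], [nat_lit 0, nat_lit 6, nat_lit 7], [nat_lit 0, nat_lit 8, nat_lit 9], [nat_lit 1, nat_lit 6, nat_lit 8], [nat_lit 1, nat_lit 10, nat_lit 11], [nat_lit 2, nat_lit 4], [nat_lit 2], [nat_lit 3, nat_lit 4], [nat_lit 3], [nat_lit 5, nat_lit 11], [nat_lit 5, nat_lit 10]],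
  [[nat_lit 1, nat_lit 2, nat_lit 3], [nat_lit 0, nat_lit 4, nat_lit 5], [nat_lit 0, nat_lit 6, nat_lit 7], [nat_lit 0, nat_lit 8, nat_lit 9], [nat_lit 1, nat_lit 6, nat_lit 10], [nat_lit 1, nat_lit 8, nat_lit 11], [nat_lit 2, nat_lit 4], [nat_lit 2, nat_lit 9, nat_lit 10], [nat_lit 3, nat_lit 5], [nat_lit 3, nat_lit 7, nat_lit 11], [nat_lit 4, nat_lit 7], [nat_lit 5, nat_lit 9]],
  [[nat_lit 1, nat_lit 2, nat_lit 3], [nat_lit 0, nat_lit 4, nat_lit 5], [nat_lit 0, nat_lit 6, nat_lit 7], [nat_lit 0, nat_lit 8, nat_lit 9], [nat_lit 1, nat_lit 6, nat_lit 10], [nat_lit 1, nat_lit 8, nat_lit 11], [nat_lit 2, nat_lit 4], [nat_lit 2, nat_lit 9, nat_lit 10], [nat_lit 3, nat_lit 5], [nat_lit 3, nat_lit 7], [nat_lit 4, nat_lit 7, nat_lit 11], [nat_lit 5, nat_lit 10]],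
  [[nat_lit 1, nat_lit 2, nat_lit 3], [nat_lit 0, nat_lit 4, nat_lit 5], [nat_lit 0, nat_lit 6, nat_lit 7], [nat_lit 0, nat_lit 8, nat_lit 9], [nat_lit 1, nat_lit 6, nat_lit 10], [nat_lit 1, nat_lit 8, nat_lit 11], [nat_lit 2, nat_lit 4], [nat_lit 2, nat_lit 9, nat_lit 10], [nat_lit 3, nat_lit 5], [nat_lit 3, nat_lit 7], [nat_lit 4, nat_lit 7], [nat_lit 5]],
  [[nat_lit 1, nat_lit 2, nat_lit 3], [nat_lit 0, nat_lit 4, nat_lit 5], [nat_lit 0, nat_lit 6, nat_lit 7], [nat_lit 0, nat_lit 8, nat_lit 9], [nat_lit 1, nat_lit 6, nat_lit 10], [nat_lit 1, nat_lit 8, nat_lit 11], [nat_lit 2, nat_lit 4], [nat_lit 2, nat_lit 9], [nat_lit 3, nat_lit 5], [nat_lit 3, nat_lit 7, nat_lit 10], [nat_lit 4, nat_lit 9, nat_lit 11], [nat_lit 5, nat_lit 10]],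
  [[nat_lit 1, nat_lit 2, nat_lit 3], [nat_lit 0, nat_lit 4, nat_lit 5], [nat_lit 0, nat_lit 6, nat_lit 7], [nat_lit 0, nat_lit 8, nat_lit 9], [nat_lit 1, nat_lit 6, nat_lit 10], [nat_lit 1, nat_lit 8, nat_lit 11], [nat_lit 2, nat_lit 4], [nat_lit 2, nat_lit 9], [nat_lit 3, nat_lit 5], [nat_lit 3, nat_lit 7, nat_lit 10], [nat_lit 4, nat_lit 9], [nat_lit 5]],
  [[nat_lit 1, nat_lit 2, nat_lit 3], [nat_lit 0, nat_lit 4, nat_lit 5], [nat_lit 0, nat_lit 6, nat_lit 7], [nat_lit 0, nat_lit 8, nat_lit 9], [nat_lit 1, nat_lit 6, nat_lit 10], [nat_lit 1, nat_lit 8, nat_lit 11], [nat_lit 2, nat_lit 4], [nat_lit 2, nat_lit 9], [nat_lit 3, nat_lit 5], [nat_lit 3, nat_lit 7], [nat_lit 4, nat_lit 11], [nat_lit 5, nat_lit 10]],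
  [[nat_lit 1, nat_lit 2, nat_lit 3], [nat_lit 0, nat_lit 4, nat_lit 5], [nat_lit 0, nat_lit 6, nat_lit 7], [nat_lit 0, nat_lit 8, nat_lit 9], [nat_lit 1, nat_lit 6, nat_lit 10], [nat_lit 1, nat_lit 8, nat_lit 11], [nat_lit 2, nat_lit 4], [nat_lit 2, nat_lit 9], [nat_lit 3, nat_lit 5], [nat_lit 3, nat_lit 7], [nat_lit 4], [nat_lit 5]],
  [[nat_lit 1, nat_lit 2, nat_lit 3], [nat_lit 0, nat_lit 4, nat_lit 5], [nat_lit 0, nat_lit 6, nat_lit 7], [nat_lit 0, nat_lit 8, nat_lit 9], [nat_lit 1, nat_lit 6, nat_lit 10], [nat_lit 1, nat_lit 8, nat_lit 11], [nat_lit 2, nat_lit 4], [nat_lit 2, nat_lit 10], [nat_lit 3, nat_lit 5], [nat_lit 3, nat_lit 11], [nat_lit 4, nat_lit 7], [nat_lit 5, nat_lit 9]],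
  [[nat_lit 1, nat_lit 2, nat_lit 3], [nat_lit 0, nat_lit 4, nat_lit 5], [nat_lit 0, nat_lit 6, nat_lit 7], [nat_lit 0, nat_lit 8, nat_lit 9], [nat_lit 1, nat_lit 6, nat_lit 10], [nat_lit 1, nat_lit 8, nat_lit 11], [nat_lit 2, nat_lit 4], [nat_lit 2, nat_lit 10], [nat_lit 3, nat_lit 5], [nat_lit 3], [nat_lit 4, nat_lit 7], [nat_lit 5]],
  [[nat_lit 1, nat_lit 2, nat_lit 3], [nat_lit 0, nat_lit 4, nat_lit 5], [nat_lit 0, nat_lit 6, nat_lit 7], [nat_lit 0, nat_lit 8, nat_lit 9], [nat_lit 1, nat_lit 6, nat_lit 10], [nat_lit 1, nat_lit 8, nat_lit 11], [nat_lit 2, nat_lit 4], [nat_lit 2, nat_lit 11], [nat_lit 3, nat_lit 5], [nat_lit 3, nat_lit 10], [nat_lit 4, nat_lit 9], [nat_lit 5, nat_lit 7]],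
  [[nat_lit 1, nat_lit 2, nat_lit 3], [nat_lit 0, nat_lit 4, nat_lit 5], [nat_lit 0, nat_lit 6, nat_lit 7], [nat_lit 0, nat_lit 8, nat_lit 9], [nat_lit 1, nat_lit 6, nat_lit 10], [nat_lit 1, nat_lit 8, nat_lit 11], [nat_lit 2, nat_lit 4], [nat_lit 2], [nat_lit 3, nat_lit 5], [nat_lit 3, nat_lit 10], [nat_lit 4, nat_lit 9], [nat_lit 5]],
  [[nat_lit 1, nat_lit 2, nat_lit 3], [nat_lit 0, nat_lit 4, nat_lit 5], [nat_lit 0, nat_lit 6, nat_lit 7], [nat_lit 0, nat_lit 8, nat_lit 9], [nat_lit 1, nat_lit 6, nat_lit 10], [nat_lit 1, nat_lit 8, nat_lit 11], [nat_lit 2, nat_lit 4], [nat_lit 2], [nat_lit 3, nat_lit 5], [nat_lit 3], [nat_lit 4], [nat_lit 5]],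
  [[nat_lit 1, nat_lit 2, nat_lit 3], [nat_lit 0, nat_lit 4, nat_lit 5], [nat_lit 0, nat_lit 6, nat_lit 7], [nat_lit 0, nat_lit 8, nat_lit 9], [nat_lit 1, nat_lit 6, nat_lit 10], [nat_lit 1, nat_lit 10, nat_lit 11], [nat_lit 2, nat_lit 4], [nat_lit 2], [nat_lit 3, nat_lit 11], [nat_lit 3], [nat_lit 4, nat_lit 5], [nat_lit 5, nat_lit 8]],
  [[nat_lit 1, nat_lit 2, nat_lit 3], [nat_lit 0, nat_lit 4, nat_lit 5], [nat_lit 0, nat_lit 6, nat_lit 7], [nat_lit 0, nat_lit 8, nat_lit 9], [nat_lit 1, nat_lit 6, nat_lit 10], [nat_lit 1, nat_lit 11], [nat_lit 2, nat_lit 4, nat_lit 10], [nat_lit 2, nat_lit 11], [nat_lit 3, nat_lit 11], [nat_lit 3], [nat_lit 4, nat_lit 6], [nat_lit 5, nat_lit 7, nat_lit 8]],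
  [[nat_lit 1, nat_lit 2, nat_lit 3], [nat_lit 0, nat_lit 4, nat_lit 5], [nat_lit 0, nat_lit 6, nat_lit 7], [nat_lit 0, nat_lit 8, nat_lit 9], [nat_lit 1, nat_lit 6, nat_lit 10], [nat_lit 1, nat_lit 11], [nat_lit 2, nat_lit 4, nat_lit 10], [nat_lit 2, nat_lit 11], [nat_lit 3], [nat_lit 3], [nat_lit 4, nat_lit 6], [nat_lit 5, nat_lit 7]]]

noncomputable def op17 : List (List (List Nat)) := [
  [[nat_lit 1, nat_lit 2, nat_lit 3], [nat_lit 0, nat_lit 4, nat_lit 5], [nat_lit 0, nat_lit 6, nat_lit 7], [nat_lit 0, nat_lit 8, nat_lit 9], [nat_lit 1, nat_lit 6, nat_lit 10], [nat_lit 1, nat_lit 11], [nat_lit 2, nat_lit 4, nat_lit 10], [nat_lit 2], [nat_lit 3, nat_lit 11], [nat_lit 3, nat_lit 11], [nat_lit 4, nat_lit 6], [nat_lit 5, nat_lit 8, nat_lit 9]],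
  [[nat_lit 1, nat_lit 2, nat_lit 3], [nat_lit 0, nat_lit 4, nat_lit 5], [nat_lit 0, nat_lit 6, nat_lit 7], [nat_lit 0, nat_lit 8, nat_lit 9], [nat_lit 1, nat_lit 6, nat_lit 10], [nat_lit 1, nat_lit 11], [nat_lit 2, nat_lit 4, nat_lit 10], [nat_lit 2], [nat_lit 3, nat_lit 11], [nat_lit 3], [nat_lit 4, nat_lit 6], [nat_lit 5, nat_lit 8]],
  [[nat_lit 1, nat_lit 2, nat_lit 3], [nat_lit 0, nat_lit 4, nat_lit 5], [nat_lit 0, nat_lit 6, nat_lit 7], [nat_lit 0, nat_lit 8, nat_lit 9], [nat_lit 1, nat_lit 6, nat_lit 10], [nat_lit 1, nat_lit 11], [nat_lit 2, nat_lit 4, nat_lit 10], [nat_lit 2], [nat_lit 3], [nat_lit 3], [nat_lit 4, nat_lit 6], [nat_lit 5]],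
  [[nat_lit 1, nat_lit 2, nat_lit 3], [nat_lit 0, nat_lit 4, nat_lit 5], [nat_lit 0, nat_lit 6, nat_lit 7], [nat_lit 0, nat_lit 8, nat_lit 9], [nat_lit 1, nat_lit 6, nat_lit 10], [nat_lit 1, nat_lit 11], [nat_lit 2, nat_lit 4], [nat_lit 2, nat_lit 10], [nat_lit 3, nat_lit 10], [nat_lit 3, nat_lit 11], [nat_lit 4, nat_lit 7, nat_lit 8], [nat_lit 5, nat_lit 9]],
  [[nat_lit 1, nat_lit 2, nat_lit 3], [nat_lit 0, nat_lit 4, nat_lit 5], [nat_lit 0, nat_lit 6, nat_lit 7], [nat_lit 0, nat_lit 8, nat_lit 9], [nat_lit 1, nat_lit 6, nat_lit 10], [nat_lit 1, nat_lit 11], [nat_lit 2, nat_lit 4], [nat_lit 2, nat_lit 10], [nat_lit 3, nat_lit 10], [nat_lit 3], [nat_lit 4, nat_lit 7, nat_lit 8], [nat_lit 5]],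
  [[nat_lit 1, nat_lit 2, nat_lit 3], [nat_lit 0, nat_lit 4, nat_lit 5], [nat_lit 0, nat_lit 6, nat_lit 7], [nat_lit 0, nat_lit 8, nat_lit 9], [nat_lit 1, nat_lit 6, nat_lit 10], [nat_lit 1, nat_lit 11], [nat_lit 2, nat_lit 4, nat_lit 11], [nat_lit 2, nat_lit 10], [nat_lit 3], [nat_lit 3], [nat_lit 4, nat_lit 7], [nat_lit 5, nat_lit 6]],
  [[nat_lit 1, nat_lit 2, nat_lit 3], [nat_lit 0, nat_lit 4, nat_lit 5], [nat_lit 0, nat_lit 6, nat_lit 7], [nat_lit 0, nat_lit 8, nat_lit 9], [nat_lit 1, nat_lit 6, nat_lit 10], [nat_lit 1, nat_lit 11], [nat_lit 2, nat_lit 4], [nat_lit 2, nat_lit 10], [nat_lit 3, nat_lit 11], [nat_lit 3, nat_lit 11], [nat_lit 4, nat_lit 7], [nat_lit 5, nat_lit 8, nat_lit 9]],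
  [[nat_lit 1, nat_lit 2, nat_lit 3], [nat_lit 0, nat_lit 4, nat_lit 5], [nat_lit 0, nat_lit 6, nat_lit 7], [nat_lit 0, nat_lit 8, nat_lit 9], [nat_lit 1, nat_lit 6, nat_lit 10], [nat_lit 1, nat_lit 11], [nat_lit 2, nat_lit 4], [nat_lit 2, nat_lit 10], [nat_lit 3, nat_lit 11], [nat_lit 3], [nat_lit 4, nat_lit 7, nat_lit 11], [nat_lit 5, nat_lit 8, nat_lit 10]],
  [[nat_lit 1, nat_lit 2, nat_lit 3], [nat_lit 0, nat_lit 4, nat_lit 5], [nat_lit 0, nat_lit 6, nat_lit 7], [nat_lit 0, nat_lit 8, nat_lit 9], [nat_lit 1, nat_lit 6, nat_lit 10], [nat_lit 1, nat_lit 11], [nat_lit 2, nat_lit 4], [nat_lit 2, nat_lit 10], [nat_lit 3, nat_lit 11], [nat_lit 3], [nat_lit 4, nat_lit 7], [nat_lit 5, nat_lit 8]],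
  [[nat_lit 1, nat_lit 2, nat_lit 3], [nat_lit 0, nat_lit 4, nat_lit 5], [nat_lit 0, nat_lit 6, nat_lit 7], [nat_lit 0, nat_lit 8, nat_lit 9], [nat_lit 1, nat_lit 6, nat_lit 10], [nat_lit 1, nat_lit 11], [nat_lit 2, nat_lit 4], [nat_lit 2, nat_lit 10], [nat_lit 3], [nat_lit 3], [nat_lit 4, nat_lit 7, nat_lit 11], [nat_lit 5, nat_lit 10]],
  [[nat_lit 1, nat_lit 2, nat_lit 3], [nat_lit 0, nat_lit 4, nat_lit 5], [nat_lit 0, nat_lit 6, nat_lit 7], [nat_lit 0, nat_lit 8, nat_lit 9], [nat_lit 1, nat_lit 6, nat_lit 10], [nat_lit 1, nat_lit 11], [nat_lit 2, nat_lit 4], [nat_lit 2, nat_lit 10], [nat_lit 3], [nat_lit 3], [nat_lit 4, nat_lit 7], [nat_lit 5]],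
  [[nat_lit 1, nat_lit 2, nat_lit 3], [nat_lit 0, nat_lit 4, nat_lit 5], [nat_lit 0, nat_lit 6, nat_lit 7], [nat_lit 0, nat_lit 8, nat_lit 9], [nat_lit 1, nat_lit 6, nat_lit 10], [nat_lit 1, nat_lit 11], [nat_lit 2, nat_lit 4], [nat_lit 2, nat_lit 11], [nat_lit 3, nat_lit 10], [nat_lit 3, nat_lit 10], [nat_lit 4, nat_lit 8, nat_lit 9], [nat_lit 5, nat_lit 7]],
  [[nat_lit 1, nat_lit 2, nat_lit 3], [nat_lit 0, nat_lit 4, nat_lit 5], [nat_lit 0, nat_lit 6, nat_lit 7], [nat_lit 0, nat_lit 8, nat_lit 9], [nat_lit 1, nat_lit 6, nat_lit 10], [nat_lit 1, nat_lit 11], [nat_lit 2, nat_lit 4], [nat_lit 2], [nat_lit 3, nat_lit 10], [nat_lit 3, nat_lit 10], [nat_lit 4, nat_lit 8, nat_lit 9], [nat_lit 5]],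
  [[nat_lit 1, nat_lit 2, nat_lit 3], [nat_lit 0, nat_lit 4, nat_lit 5], [nat_lit 0, nat_lit 6, nat_lit 7], [nat_lit 0, nat_lit 8, nat_lit 9], [nat_lit 1, nat_lit 6, nat_lit 10], [nat_lit 1, nat_lit 11], [nat_lit 2, nat_lit 4], [nat_lit 2, nat_lit 11], [nat_lit 3, nat_lit 10], [nat_lit 3, nat_lit 11], [nat_lit 4, nat_lit 8], [nat_lit 5, nat_lit 7, nat_lit 9]],
  [[nat_lit 1, nat_lit 2, nat_lit 3], [nat_lit 0, nat_lit 4, nat_lit 5], [nat_lit 0, nat_lit 6, nat_lit 7], [nat_lit 0, nat_lit 8, nat_lit 9], [nat_lit 1, nat_lit 6, nat_lit 10], [nat_lit 1, nat_lit 11], [nat_lit 2, nat_lit 4], [nat_lit 2, nat_lit 11], [nat_lit 3, nat_lit 10], [nat_lit 3], [nat_lit 4, nat_lit 8, nat_lit 11], [nat_lit 5, nat_lit 7, nat_lit 10]],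
  [[nat_lit 1, nat_lit 2, nat_lit 3], [nat_lit 0, nat_lit 4, nat_lit 5], [nat_lit 0, nat_lit 6, nat_lit 7], [nat_lit 0, nat_lit 8, nat_lit 9], [nat_lit 1, nat_lit 6, nat_lit 10], [nat_lit 1, nat_lit 11], [nat_lit 2, nat_lit 4], [nat_lit 2, nat_lit 11], [nat_lit 3, nat_lit 10], [nat_lit 3], [nat_lit 4, nat_lit 8], [nat_lit 5, nat_lit 7]],
  [[nat_lit 1, nat_lit 2, nat_lit 3], [nat_lit 0, nat_lit 4, nat_lit 5], [nat_lit 0, nat_lit 6, nat_lit 7], [nat_lit 0, nat_lit 8, nat_lit 9], [nat_lit 1, nat_lit 6, nat_lit 10], [nat_lit 1, nat_lit 11], [nat_lit 2, nat_lit 4], [nat_lit 2], [nat_lit 3, nat_lit 10], [nat_lit 3, nat_lit 11], [nat_lit 4, nat_lit 8, nat_lit 11], [nat_lit 5, nat_lit 9, nat_lit 10]],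
  [[nat_lit 1, nat_lit 2, nat_lit 3], [nat_lit 0, nat_lit 4, nat_lit 5], [nat_lit 0, nat_lit 6, nat_lit 7], [nat_lit 0, nat_lit 8, nat_lit 9], [nat_lit 1, nat_lit 6, nat_lit 10], [nat_lit 1, nat_lit 11], [nat_lit 2, nat_lit 4], [nat_lit 2], [nat_lit 3, nat_lit 10], [nat_lit 3, nat_lit 11], [nat_lit 4, nat_lit 8], [nat_lit 5, nat_lit 9]],
  [[nat_lit 1, nat_lit 2, nat_lit 3], [nat_lit 0, nat_lit 4, nat_lit 5], [nat_lit 0, nat_lit 6, nat_lit 7], [nat_lit 0, nat_lit 8, nat_lit 9], [nat_lit 1, nat_lit 6, nat_lit 10], [nat_lit 1, nat_lit 11], [nat_lit 2, nat_lit 4], [nat_lit 2], [nat_lit 3, nat_lit 10], [nat_lit 3], [nat_lit 4, nat_lit 8, nat_lit 11], [nat_lit 5, nat_lit 10]],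
  [[nat_lit 1, nat_lit 2, nat_lit 3], [nat_lit 0, nat_lit 4, nat_lit 5], [nat_lit 0, nat_lit 6, nat_lit 7], [nat_lit 0, nat_lit 8, nat_lit 9], [nat_lit 1, nat_lit 6, nat_lit 10], [nat_lit 1, nat_lit 11], [nat_lit 2, nat_lit 4], [nat_lit 2], [nat_lit 3, nat_lit 10], [nat_lit 3], [nat_lit 4, nat_lit 8], [nat_lit 5]],
  [[nat_lit 1, nat_lit 2, nat_lit 3], [nat_lit 0, nat_lit 4, nat_lit 5], [nat_lit 0, nat_lit 6, nat_lit 7], [nat_lit 0, nat_lit 8, nat_lit 9], [nat_lit 1, nat_lit 6, nat_lit 10], [nat_lit 1, nat_lit 11], [nat_lit 2, nat_lit 4], [nat_lit 2, nat_lit 11], [nat_lit 3, nat_lit 11], [nat_lit 3], [nat_lit 4], [nat_lit 5, nat_lit 7, nat_lit 8]],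
  [[nat_lit 1, nat_lit 2, nat_lit 3], [nat_lit 0, nat_lit 4, nat_lit 5], [nat_lit 0, nat_lit 6, nat_lit 7], [nat_lit 0, nat_lit 8, nat_lit 9], [nat_lit 1, nat_lit 6, nat_lit 10], [nat_lit 1, nat_lit 11], [nat_lit 2, nat_lit 4], [nat_lit 2, nat_lit 11], [nat_lit 3], [nat_lit 3], [nat_lit 4, nat_lit 11], [nat_lit 5, nat_lit 7, nat_lit 10]],
  [[nat_lit 1, nat_lit 2, nat_lit 3], [nat_lit 0, nat_lit 4, nat_lit 5], [nat_lit 0, nat_lit 6, nat_lit 7], [nat_lit 0, nat_lit 8, nat_lit 9], [nat_lit 1, nat_lit 6, nat_lit 10], [nat_lit 1, nat_lit 11], [nat_lit 2, nat_lit 4], [nat_lit 2, nat_lit 11], [nat_lit 3], [nat_lit 3], [nat_lit 4], [nat_lit 5, nat_lit 7]],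
  [[nat_lit 1, nat_lit 2, nat_lit 3], [nat_lit 0, nat_lit 4, nat_lit 5], [nat_lit 0, nat_lit 6, nat_lit 7], [nat_lit 0, nat_lit 8, nat_lit 9], [nat_lit 1, nat_lit 6, nat_lit 10], [nat_lit 1, nat_lit 11], [nat_lit 2, nat_lit 4], [nat_lit 2], [nat_lit 3, nat_lit 11], [nat_lit 3, nat_lit 11], [nat_lit 4], [nat_lit 5, nat_lit 8, nat_lit 9]],
  [[nat_lit 1, nat_lit 2, nat_lit 3], [nat_lit 0, nat_lit 4, nat_lit 5], [nat_lit 0, nat_lit 6, nat_lit 7], [nat_lit 0, nat_lit 8, nat_lit 9], [nat_lit 1, nat_lit 6, nat_lit 10], [nat_lit 1, nat_lit 11], [nat_lit 2, nat_lit 4], [nat_lit 2], [nat_lit 3, nat_lit 11], [nat_lit 3], [nat_lit 4, nat_lit 11], [nat_lit 5, nat_lit 8, nat_lit 10]],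
  [[nat_lit 1, nat_lit 2, nat_lit 3], [nat_lit 0, nat_lit 4, nat_lit 5], [nat_lit 0, nat_lit 6, nat_lit 7], [nat_lit 0, nat_lit 8, nat_lit 9], [nat_lit 1, nat_lit 6, nat_lit 10], [nat_lit 1, nat_lit 11], [nat_lit 2, nat_lit 4], [nat_lit 2], [nat_lit 3, nat_lit 11], [nat_lit 3], [nat_lit 4], [nat_lit 5, nat_lit 8]],
  [[nat_lit 1, nat_lit 2, nat_lit 3], [nat_lit 0, nat_lit 4, nat_lit 5], [nat_lit 0, nat_lit 6, nat_lit 7], [nat_lit 0, nat_lit 8, nat_lit 9], [nat_lit 1, nat_lit 6, nat_lit 10], [nat_lit 1, nat_lit 11], [nat_lit 2, nat_lit 4], [nat_lit 2], [nat_lit 3], [nat_lit 3], [nat_lit 4, nat_lit 11], [nat_lit 5, nat_lit 10]],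
  [[nat_lit 1, nat_lit 2, nat_lit 3], [nat_lit 0, nat_lit 4, nat_lit 5], [nat_lit 0, nat_lit 6, nat_lit 7], [nat_lit 0, nat_lit 8, nat_lit 9], [nat_lit 1, nat_lit 6, nat_lit 10], [nat_lit 1, nat_lit 11], [nat_lit 2, nat_lit 4], [nat_lit 2], [nat_lit 3], [nat_lit 3], [nat_lit 4], [nat_lit 5]],
  [[nat_lit 1, nat_lit 2, nat_lit 3], [nat_lit 0, nat_lit 4, nat_lit 5], [nat_lit 0, nat_lit 6, nat_lit 7], [nat_lit 0, nat_lit 8, nat_lit 9], [nat_lit 1, nat_lit 10, nat_lit 11], [nat_lit 1, nat_lit 10], [nat_lit 2, nat_lit 10], [nat_lit 2], [nat_lit 3, nat_lit 11], [nat_lit 3], [nat_lit 4, nat_lit 5, nat_lit 6], [nat_lit 4, nat_lit 8]],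
  [[nat_lit 1, nat_lit 2, nat_lit 3], [nat_lit 0, nat_lit 4, nat_lit 5], [nat_lit 0, nat_lit 6, nat_lit 7], [nat_lit 0, nat_lit 8, nat_lit 9], [nat_lit 1, nat_lit 10, nat_lit 11], [nat_lit 1, nat_lit 10], [nat_lit 2, nat_lit 11], [nat_lit 2, nat_lit 11], [nat_lit 3], [nat_lit 3], [nat_lit 4, nat_lit 5], [nat_lit 4, nat_lit 6, nat_lit 7]],
  [[nat_lit 1, nat_lit 2, nat_lit 3], [nat_lit 0, nat_lit 4, nat_lit 5], [nat_lit 0, nat_lit 6, nat_lit 7], [nat_lit 0, nat_lit 8, nat_lit 9], [nat_lit 1, nat_lit 10, nat_lit 11], [nat_lit 1, nat_lit 10], [nat_lit 2, nat_lit 11], [nat_lit 2], [nat_lit 3, nat_lit 11], [nat_lit 3], [nat_lit 4, nat_lit 5], [nat_lit 4, nat_lit 6, nat_lit 8]],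
  [[nat_lit 1, nat_lit 2, nat_lit 3], [nat_lit 0, nat_lit 4, nat_lit 5], [nat_lit 0, nat_lit 6, nat_lit 7], [nat_lit 0, nat_lit 8, nat_lit 9], [nat_lit 1, nat_lit 10, nat_lit 11], [nat_lit 1, nat_lit 10], [nat_lit 2, nat_lit 11], [nat_lit 2], [nat_lit 3], [nat_lit 3], [nat_lit 4, nat_lit 5, nat_lit 11], [nat_lit 4, nat_lit 6, nat_lit 10]]]

noncomputable def op18 : List (List (List Nat)) := [
  [[nat_lit 1, nat_lit 2, nat_lit 3], [nat_lit 0, nat_lit 4, nat_lit 5], [nat_lit 0, nat_lit 6, nat_lit 7], [nat_lit 0, nat_lit 8, nat_lit 9], [nat_lit 1, nat_lit 10, nat_lit 11], [nat_lit 1, nat_lit 10], [nat_lit 2, nat_lit 11], [nat_lit 2], [nat_lit 3], [nat_lit 3], [nat_lit 4, nat_lit 5], [nat_lit 4, nat_lit 6]],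
  [[nat_lit 1, nat_lit 2, nat_lit 3], [nat_lit 0, nat_lit 4, nat_lit 5], [nat_lit 0, nat_lit 6, nat_lit 7], [nat_lit 0, nat_lit 8, nat_lit 9], [nat_lit 1, nat_lit 10, nat_lit 11], [nat_lit 1, nat_lit 10], [nat_lit 2], [nat_lit 2], [nat_lit 3], [nat_lit 3], [nat_lit 4, nat_lit 5, nat_lit 11], [nat_lit 4, nat_lit 10]],
  [[nat_lit 1, nat_lit 2, nat_lit 3], [nat_lit 0, nat_lit 4, nat_lit 5], [nat_lit 0, nat_lit 6, nat_lit 7], [nat_lit 0, nat_lit 8, nat_lit 9], [nat_lit 1, nat_lit 10, nat_lit 11], [nat_lit 1, nat_lit 10], [nat_lit 2], [nat_lit 2], [nat_lit 3], [nat_lit 3], [nat_lit 4, nat_lit 5], [nat_lit 4]],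
  [[nat_lit 1, nat_lit 2, nat_lit 3], [nat_lit 0, nat_lit 4, nat_lit 5], [nat_lit 0, nat_lit 6, nat_lit 7], [nat_lit 0, nat_lit 8, nat_lit 9], [nat_lit 1, nat_lit 10, nat_lit 11], [nat_lit 1], [nat_lit 2, nat_lit 10], [nat_lit 2], [nat_lit 3, nat_lit 11], [nat_lit 3, nat_lit 11], [nat_lit 4, nat_lit 6], [nat_lit 4, nat_lit 8, nat_lit 9]],
  [[nat_lit 1, nat_lit 2, nat_lit 3], [nat_lit 0, nat_lit 4, nat_lit 5], [nat_lit 0, nat_lit 6, nat_lit 7], [nat_lit 0, nat_lit 8, nat_lit 9], [nat_lit 1, nat_lit 10, nat_lit 11], [nat_lit 1], [nat_lit 2, nat_lit 10], [nat_lit 2], [nat_lit 3, nat_lit 11], [nat_lit 3], [nat_lit 4, nat_lit 6], [nat_lit 4, nat_lit 8]],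
  [[nat_lit 1, nat_lit 2, nat_lit 3], [nat_lit 0, nat_lit 4, nat_lit 5], [nat_lit 0, nat_lit 6, nat_lit 7], [nat_lit 0, nat_lit 8, nat_lit 9], [nat_lit 1, nat_lit 10, nat_lit 11], [nat_lit 1], [nat_lit 2], [nat_lit 2], [nat_lit 3], [nat_lit 3], [nat_lit 4, nat_lit 11], [nat_lit 4, nat_lit 10]],
  [[nat_lit 1, nat_lit 2, nat_lit 3], [nat_lit 0, nat_lit 2, nat_lit 4], [nat_lit 0, nat_lit 1, nat_lit 5], [nat_lit 0, nat_lit 6, nat_lit 7], [nat_lit 1, nat_lit 8, nat_lit 9], [nat_lit 2, nat_lit 10, nat_lit 11], [nat_lit 3, nat_lit 7, nat_lit 12], [nat_lit 3, nat_lit 6, nat_lit 12], [nat_lit 4, nat_lit 9], [nat_lit 4, nat_lit 8], [nat_lit 5, nat_lit 11], [nat_lit 5, nat_lit 10], [nat_lit 6, nat_lit 7]],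
  [[nat_lit 1, nat_lit 2, nat_lit 3], [nat_lit 0, nat_lit 2, nat_lit 4], [nat_lit 0, nat_lit 1, nat_lit 5], [nat_lit 0, nat_lit 6, nat_lit 7], [nat_lit 1, nat_lit 8, nat_lit 9], [nat_lit 2, nat_lit 10, nat_lit 11], [nat_lit 3, nat_lit 7, nat_lit 12], [nat_lit 3, nat_lit 6], [nat_lit 4, nat_lit 9], [nat_lit 4, nat_lit 8], [nat_lit 5, nat_lit 11], [nat_lit 5, nat_lit 10], [nat_lit 6]],
  [[nat_lit 1, nat_lit 2, nat_lit 3], [nat_lit 0, nat_lit 4, nat_lit 5], [nat_lit 0, nat_lit 4, nat_lit 6], [nat_lit 0, nat_lit 4, nat_lit 7], [nat_lit 1, nat_lit 2, nat_lit 3], [nat_lit 1, nat_lit 8, nat_lit 9], [nat_lit 2, nat_lit 10, nat_lit 11], [nat_lit 3, nat_lit 12], [nat_lit 5, nat_lit 9], [nat_lit 5, nat_lit 8], [nat_lit 6, nat_lit 11], [nat_lit 6, nat_lit 10], [nat_lit 7]],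
  [[nat_lit 1, nat_lit 2, nat_lit 3], [nat_lit 0, nat_lit 4, nat_lit 5], [nat_lit 0, nat_lit 4, nat_lit 6], [nat_lit 0, nat_lit 7, nat_lit 8], [nat_lit 1, nat_lit 2, nat_lit 9], [nat_lit 1, nat_lit 9, nat_lit 10], [nat_lit 2, nat_lit 11, nat_lit 12], [nat_lit 3, nat_lit 8], [nat_lit 3, nat_lit 7], [nat_lit 4, nat_lit 5], [nat_lit 5], [nat_lit 6, nat_lit 12], [nat_lit 6, nat_lit 11]],
  [[nat_lit 1, nat_lit 2, nat_lit 3], [nat_lit 0, nat_lit 4, nat_lit 5], [nat_lit 0, nat_lit 4, nat_lit 6], [nat_lit 0, nat_lit 7, nat_lit 8], [nat_lit 1, nat_lit 2, nat_lit 9], [nat_lit 1, nat_lit 10, nat_lit 11], [nat_lit 2, nat_lit 12], [nat_lit 3, nat_lit 8, nat_lit 9], [nat_lit 3, nat_lit 7], [nat_lit 4, nat_lit 7], [nat_lit 5, nat_lit 11], [nat_lit 5, nat_lit 10], [nat_lit 6]],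
  [[nat_lit 1, nat_lit 2, nat_lit 3], [nat_lit 0, nat_lit 4, nat_lit 5], [nat_lit 0, nat_lit 4, nat_lit 6], [nat_lit 0, nat_lit 7, nat_lit 8], [nat_lit 1, nat_lit 2, nat_lit 9], [nat_lit 1, nat_lit 10, nat_lit 11], [nat_lit 2, nat_lit 12], [nat_lit 3, nat_lit 8], [nat_lit 3, nat_lit 7], [nat_lit 4, nat_lit 12], [nat_lit 5, nat_lit 11], [nat_lit 5, nat_lit 10], [nat_lit 6, nat_lit 9]],
  [[nat_lit 1, nat_lit 2, nat_lit 3], [nat_lit 0, nat_lit 4, nat_lit 5], [nat_lit 0, nat_lit 4, nat_lit 6], [nat_lit 0, nat_lit 7, nat_lit 8], [nat_lit 1, nat_lit 2, nat_lit 9], [nat_lit 1, nat_lit 10, nat_lit 11], [nat_lit 2, nat_lit 12], [nat_lit 3, nat_lit 8], [nat_lit 3, nat_lit 7], [nat_lit 4], [nat_lit 5, nat_lit 11], [nat_lit 5, nat_lit 10], [nat_lit 6]],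
  [[nat_lit 1, nat_lit 2, nat_lit 3], [nat_lit 0, nat_lit 4, nat_lit 5], [nat_lit 0, nat_lit 6, nat_lit 7], [nat_lit 0, nat_lit 8, nat_lit 9], [nat_lit 1, nat_lit 5, nat_lit 10], [nat_lit 1, nat_lit 4, nat_lit 10], [nat_lit 2, nat_lit 7, nat_lit 11], [nat_lit 2, nat_lit 6, nat_lit 12], [nat_lit 3, nat_lit 9], [nat_lit 3, nat_lit 8], [nat_lit 4, nat_lit 5], [nat_lit 6, nat_lit 12], [nat_lit 7, nat_lit 11]],
  [[nat_lit 1, nat_lit 2, nat_lit 3], [nat_lit 0, nat_lit 4, nat_lit 5], [nat_lit 0, nat_lit 6, nat_lit 7], [nat_lit 0, nat_lit 8, nat_lit 9], [nat_lit 1, nat_lit 5, nat_lit 10], [nat_lit 1, nat_lit 4, nat_lit 10], [nat_lit 2, nat_lit 7, nat_lit 11], [nat_lit 2, nat_lit 6, nat_lit 12], [nat_lit 3, nat_lit 9], [nat_lit 3, nat_lit 8], [nat_lit 4, nat_lit 5], [nat_lit 6], [nat_lit 7]],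
  [[nat_lit 1, nat_lit 2, nat_lit 3], [nat_lit 0, nat_lit 4, nat_lit 5], [nat_lit 0, nat_lit 6, nat_lit 7], [nat_lit 0, nat_lit 8, nat_lit 9], [nat_lit 1, nat_lit 5, nat_lit 10], [nat_lit 1, nat_lit 4, nat_lit 11], [nat_lit 2, nat_lit 7, nat_lit 10], [nat_lit 2, nat_lit 6, nat_lit 12], [nat_lit 3, nat_lit 9], [nat_lit 3, nat_lit 8], [nat_lit 4, nat_lit 6], [nat_lit 5, nat_lit 12], [nat_lit 7, nat_lit 11]],
  [[nat_lit 1, nat_lit 2, nat_lit 3], [nat_lit 0, nat_lit 4, nat_lit 5], [nat_lit 0, nat_lit 6, nat_lit 7], [nat_lit 0, nat_lit 8, nat_lit 9], [nat_lit 1, nat_lit 5, nat_lit 10], [nat_lit 1, nat_lit 4, nat_lit 11], [nat_lit 2, nat_lit 7, nat_lit 10], [nat_lit 2, nat_lit 6, nat_lit 12], [nat_lit 3, nat_lit 9], [nat_lit 3, nat_lit 8], [nat_lit 4, nat_lit 6], [nat_lit 5], [nat_lit 7]],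
  [[nat_lit 1, nat_lit 2, nat_lit 3], [nat_lit 0, nat_lit 4, nat_lit 5], [nat_lit 0, nat_lit 6, nat_lit 7], [nat_lit 0, nat_lit 8, nat_lit 9], [nat_lit 1, nat_lit 5, nat_lit 10], [nat_lit 1, nat_lit 4, nat_lit 11], [nat_lit 2, nat_lit 7, nat_lit 12], [nat_lit 2, nat_lit 6], [nat_lit 3, nat_lit 9], [nat_lit 3, nat_lit 8], [nat_lit 4, nat_lit 11], [nat_lit 5, nat_lit 10], [nat_lit 6]],
  [[nat_lit 1, nat_lit 2, nat_lit 3], [nat_lit 0, nat_lit 4, nat_lit 5], [nat_lit 0, nat_lit 6, nat_lit 7], [nat_lit 0, nat_lit 8, nat_lit 9], [nat_lit 1, nat_lit 5, nat_lit 10], [nat_lit 1, nat_lit 4, nat_lit 11], [nat_lit 2, nat_lit 7, nat_lit 12], [nat_lit 2, nat_lit 6], [nat_lit 3, nat_lit 9], [nat_lit 3, nat_lit 8], [nat_lit 4, nat_lit 12], [nat_lit 5, nat_lit 12], [nat_lit 6, nat_lit 10, nat_lit 11]],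
  [[nat_lit 1, nat_lit 2, nat_lit 3], [nat_lit 0, nat_lit 4, nat_lit 5], [nat_lit 0, nat_lit 6, nat_lit 7], [nat_lit 0, nat_lit 8, nat_lit 9], [nat_lit 1, nat_lit 5, nat_lit 10], [nat_lit 1, nat_lit 4, nat_lit 11], [nat_lit 2, nat_lit 7, nat_lit 12], [nat_lit 2, nat_lit 6], [nat_lit 3, nat_lit 9], [nat_lit 3, nat_lit 8], [nat_lit 4, nat_lit 12], [nat_lit 5], [nat_lit 6, nat_lit 10]],
  [[nat_lit 1, nat_lit 2, nat_lit 3], [nat_lit 0, nat_lit 4, nat_lit 5], [nat_lit 0, nat_lit 6, nat_lit 7], [nat_lit 0, nat_lit 8, nat_lit 9], [nat_lit 1, nat_lit 5, nat_lit 10], [nat_lit 1, nat_lit 4, nat_lit 11], [nat_lit 2, nat_lit 7, nat_lit 12], [nat_lit 2, nat_lit 6], [nat_lit 3, nat_lit 9], [nat_lit 3, nat_lit 8], [nat_lit 4], [nat_lit 5], [nat_lit 6]],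
  [[nat_lit 1, nat_lit 2, nat_lit 3], [nat_lit 0, nat_lit 4, nat_lit 5], [nat_lit 0, nat_lit 6, nat_lit 7], [nat_lit 0, nat_lit 8, nat_lit 9], [nat_lit 1, nat_lit 5, nat_lit 8], [nat_lit 1, nat_lit 4, nat_lit 9], [nat_lit 2, nat_lit 10, nat_lit 11], [nat_lit 2, nat_lit 12], [nat_lit 3, nat_lit 4], [nat_lit 3, nat_lit 5], [nat_lit 6, nat_lit 11], [nat_lit 6, nat_lit 10], [nat_lit 7]],
  [[nat_lit 1, nat_lit 2, nat_lit 3], [nat_lit 0, nat_lit 4, nat_lit 5], [nat_lit 0, nat_lit 6, nat_lit 7], [nat_lit 0, nat_lit 8, nat_lit 9], [nat_lit 1, nat_lit 5, nat_lit 10], [nat_lit 1, nat_lit 4, nat_lit 11], [nat_lit 2, nat_lit 8, nat_lit 12], [nat_lit 2, nat_lit 9], [nat_lit 3, nat_lit 6, nat_lit 12], [nat_lit 3, nat_lit 7], [nat_lit 4, nat_lit 11], [nat_lit 5, nat_lit 10], [nat_lit 6, nat_lit 8]],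
  [[nat_lit 1, nat_lit 2, nat_lit 3], [nat_lit 0, nat_lit 4, nat_lit 5], [nat_lit 0, nat_lit 6, nat_lit 7], [nat_lit 0, nat_lit 8, nat_lit 9], [nat_lit 1, nat_lit 5, nat_lit 10], [nat_lit 1, nat_lit 4, nat_lit 11], [nat_lit 2, nat_lit 8, nat_lit 12], [nat_lit 2, nat_lit 9], [nat_lit 3, nat_lit 6], [nat_lit 3, nat_lit 7], [nat_lit 4, nat_lit 11], [nat_lit 5, nat_lit 10], [nat_lit 6]],
  [[nat_lit 1, nat_lit 2, nat_lit 3], [nat_lit 0, nat_lit 4, nat_lit 5], [nat_lit 0, nat_lit 6, nat_lit 7], [nat_lit 0, nat_lit 8, nat_lit 9], [nat_lit 1, nat_lit 5, nat_lit 10], [nat_lit 1, nat_lit 4, nat_lit 11], [nat_lit 2, nat_lit 8, nat_lit 12], [nat_lit 2, nat_lit 9], [nat_lit 3, nat_lit 6, nat_lit 12], [nat_lit 3, nat_lit 7], [nat_lit 4], [nat_lit 5], [nat_lit 6, nat_lit 8]],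
  [[nat_lit 1, nat_lit 2, nat_lit 3], [nat_lit 0, nat_lit 4, nat_lit 5], [nat_lit 0, nat_lit 6, nat_lit 7], [nat_lit 0, nat_lit 8, nat_lit 9], [nat_lit 1, nat_lit 5, nat_lit 10], [nat_lit 1, nat_lit 4, nat_lit 11], [nat_lit 2, nat_lit 8, nat_lit 12], [nat_lit 2, nat_lit 9], [nat_lit 3, nat_lit 6], [nat_lit 3, nat_lit 7], [nat_lit 4, nat_lit 12], [nat_lit 5, nat_lit 12], [nat_lit 6, nat_lit 10, nat_lit 11]],
  [[nat_lit 1, nat_lit 2, nat_lit 3], [nat_lit 0, nat_lit 4, nat_lit 5], [nat_lit 0, nat_lit 6, nat_lit 7], [nat_lit 0, nat_lit 8, nat_lit 9], [nat_lit 1, nat_lit 5, nat_lit 10], [nat_lit 1, nat_lit 4, nat_lit 11], [nat_lit 2, nat_lit 8, nat_lit 12], [nat_lit 2, nat_lit 9], [nat_lit 3, nat_lit 6], [nat_lit 3, nat_lit 7], [nat_lit 4, nat_lit 12], [nat_lit 5], [nat_lit 6, nat_lit 10]],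
  [[nat_lit 1, nat_lit 2, nat_lit 3], [nat_lit 0, nat_lit 4, nat_lit 5], [nat_lit 0, nat_lit 6, nat_lit 7], [nat_lit 0, nat_lit 8, nat_lit 9], [nat_lit 1, nat_lit 5, nat_lit 10], [nat_lit 1, nat_lit 4, nat_lit 11], [nat_lit 2, nat_lit 8, nat_lit 12], [nat_lit 2, nat_lit 9], [nat_lit 3, nat_lit 6], [nat_lit 3, nat_lit 7], [nat_lit 4], [nat_lit 5], [nat_lit 6]],
  [[nat_lit 1, nat_lit 2, nat_lit 3], [nat_lit 0, nat_lit 4, nat_lit 5], [nat_lit 0, nat_lit 6, nat_lit 7], [nat_lit 0, nat_lit 6, nat_lit 7], [nat_lit 1, nat_lit 8, nat_lit 9], [nat_lit 1, nat_lit 10, nat_lit 11], [nat_lit 2, nat_lit 3, nat_lit 12], [nat_lit 2, nat_lit 3, nat_lit 12], [nat_lit 4, nat_lit 9], [nat_lit 4, nat_lit 8], [nat_lit 5, nat_lit 11], [nat_lit 5, nat_lit 10], [nat_lit 6, nat_lit 7]],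
  [[nat_lit 1, nat_lit 2, nat_lit 3], [nat_lit 0, nat_lit 4, nat_lit 5], [nat_lit 0, nat_lit 6, nat_lit 7], [nat_lit 0, nat_lit 6, nat_lit 7], [nat_lit 1, nat_lit 8, nat_lit 9], [nat_lit 1, nat_lit 10, nat_lit 11], [nat_lit 2, nat_lit 3, nat_lit 12], [nat_lit 2, nat_lit 3], [nat_lit 4, nat_lit 9], [nat_lit 4, nat_lit 8], [nat_lit 5, nat_lit 11], [nat_lit 5, nat_lit 10], [nat_lit 6]],
  [[nat_lit 1, nat_lit 2, nat_lit 3], [nat_lit 0, nat_lit 4, nat_lit 5], [nat_lit 0, nat_lit 6, nat_lit 7], [nat_lit 0, nat_lit 6, nat_lit 7], [nat_lit 1, nat_lit 8, nat_lit 9], [nat_lit 1, nat_lit 10, nat_lit 11], [nat_lit 2, nat_lit 3, nat_lit 12], [nat_lit 2, nat_lit 3], [nat_lit 4, nat_lit 9], [nat_lit 4, nat_lit 8], [nat_lit 5, nat_lit 12], [nat_lit 5, nat_lit 12], [nat_lit 6, nat_lit 10, nat_lit 11]],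
  [[nat_lit 1, nat_lit 2, nat_lit 3], [nat_lit 0, nat_lit 4, nat_lit 5], [nat_lit 0, nat_lit 6, nat_lit 7], [nat_lit 0, nat_lit 6, nat_lit 7], [nat_lit 1, nat_lit 8, nat_lit 9], [nat_lit 1, nat_lit 10, nat_lit 11], [nat_lit 2, nat_lit 3, nat_lit 12], [nat_lit 2, nat_lit 3], [nat_lit 4, nat_lit 9], [nat_lit 4, nat_lit 8], [nat_lit 5, nat_lit 12], [nat_lit 5], [nat_lit 6, nat_lit 10]]]

noncomputable def op19 : List (List (List Nat)) := [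
  [[nat_lit 1, nat_lit 2, nat_lit 3], [nat_lit 0, nat_lit 4, nat_lit 5], [nat_lit 0, nat_lit 6, nat_lit 7], [nat_lit 0, nat_lit 6, nat_lit 7], [nat_lit 1, nat_lit 8, nat_lit 9], [nat_lit 1, nat_lit 10, nat_lit 11], [nat_lit 2, nat_lit 3, nat_lit 12], [nat_lit 2, nat_lit 3], [nat_lit 4, nat_lit 9], [nat_lit 4, nat_lit 8], [nat_lit 5], [nat_lit 5], [nat_lit 6]],
  [[nat_lit 1, nat_lit 2, nat_lit 3], [nat_lit 0, nat_lit 4, nat_lit 5], [nat_lit 0, nat_lit 6, nat_lit 7], [nat_lit 0, nat_lit 6, nat_lit 7], [nat_lit 1, nat_lit 8, nat_lit 9], [nat_lit 1, nat_lit 10, nat_lit 11], [nat_lit 2, nat_lit 3, nat_lit 12], [nat_lit 2, nat_lit 3], [nat_lit 4, nat_lit 10], [nat_lit 4, nat_lit 11], [nat_lit 5, nat_lit 8], [nat_lit 5, nat_lit 9], [nat_lit 6]],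
  [[nat_lit 1, nat_lit 2, nat_lit 3], [nat_lit 0, nat_lit 4, nat_lit 5], [nat_lit 0, nat_lit 6, nat_lit 7], [nat_lit 0, nat_lit 6, nat_lit 7], [nat_lit 1, nat_lit 8, nat_lit 9], [nat_lit 1, nat_lit 10, nat_lit 11], [nat_lit 2, nat_lit 3, nat_lit 12], [nat_lit 2, nat_lit 3], [nat_lit 4, nat_lit 10], [nat_lit 4, nat_lit 12], [nat_lit 5, nat_lit 8], [nat_lit 5, nat_lit 12], [nat_lit 6, nat_lit 9, nat_lit 11]],
  [[nat_lit 1, nat_lit 2, nat_lit 3], [nat_lit 0, nat_lit 4, nat_lit 5], [nat_lit 0, nat_lit 6, nat_lit 7], [nat_lit 0, nat_lit 6, nat_lit 7], [nat_lit 1, nat_lit 8, nat_lit 9], [nat_lit 1, nat_lit 10, nat_lit 11], [nat_lit 2, nat_lit 3, nat_lit 12], [nat_lit 2, nat_lit 3], [nat_lit 4, nat_lit 10], [nat_lit 4, nat_lit 12], [nat_lit 5, nat_lit 8], [nat_lit 5], [nat_lit 6, nat_lit 9]],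
  [[nat_lit 1, nat_lit 2, nat_lit 3], [nat_lit 0, nat_lit 4, nat_lit 5], [nat_lit 0, nat_lit 6, nat_lit 7], [nat_lit 0, nat_lit 6, nat_lit 7], [nat_lit 1, nat_lit 8, nat_lit 9], [nat_lit 1, nat_lit 10, nat_lit 11], [nat_lit 2, nat_lit 3, nat_lit 12], [nat_lit 2, nat_lit 3], [nat_lit 4, nat_lit 10], [nat_lit 4], [nat_lit 5, nat_lit 8], [nat_lit 5], [nat_lit 6]],
  [[nat_lit 1, nat_lit 2, nat_lit 3], [nat_lit 0, nat_lit 4, nat_lit 5], [nat_lit 0, nat_lit 6, nat_lit 7], [nat_lit 0, nat_lit 8, nat_lit 9], [nat_lit 1, nat_lit 6, nat_lit 7], [nat_lit 1, nat_lit 10, nat_lit 11], [nat_lit 2, nat_lit 4, nat_lit 12], [nat_lit 2, nat_lit 4], [nat_lit 3, nat_lit 12], [nat_lit 3, nat_lit 12], [nat_lit 5, nat_lit 11], [nat_lit 5, nat_lit 10], [nat_lit 6, nat_lit 8, nat_lit 9]],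
  [[nat_lit 1, nat_lit 2, nat_lit 3], [nat_lit 0, nat_lit 4, nat_lit 5], [nat_lit 0, nat_lit 6, nat_lit 7], [nat_lit 0, nat_lit 8, nat_lit 9], [nat_lit 1, nat_lit 6, nat_lit 7], [nat_lit 1, nat_lit 10, nat_lit 11], [nat_lit 2, nat_lit 4, nat_lit 12], [nat_lit 2, nat_lit 4], [nat_lit 3, nat_lit 12], [nat_lit 3], [nat_lit 5, nat_lit 11], [nat_lit 5, nat_lit 10], [nat_lit 6, nat_lit 8]],
  [[nat_lit 1, nat_lit 2, nat_lit 3], [nat_lit 0, nat_lit 4, nat_lit 5], [nat_lit 0, nat_lit 6, nat_lit 7], [nat_lit 0, nat_lit 8, nat_lit 9], [nat_lit 1, nat_lit 6, nat_lit 7], [nat_lit 1, nat_lit 10, nat_lit 11], [nat_lit 2, nat_lit 4, nat_lit 12], [nat_lit 2, nat_lit 4], [nat_lit 3], [nat_lit 3], [nat_lit 5, nat_lit 11], [nat_lit 5, nat_lit 10], [nat_lit 6]],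
  [[nat_lit 1, nat_lit 2, nat_lit 3], [nat_lit 0, nat_lit 4, nat_lit 5], [nat_lit 0, nat_lit 6, nat_lit 7], [nat_lit 0, nat_lit 8, nat_lit 9], [nat_lit 1, nat_lit 6, nat_lit 8], [nat_lit 1, nat_lit 10, nat_lit 11], [nat_lit 2, nat_lit 4, nat_lit 12], [nat_lit 2, nat_lit 12], [nat_lit 3, nat_lit 4], [nat_lit 3], [nat_lit 5, nat_lit 11], [nat_lit 5, nat_lit 10], [nat_lit 6, nat_lit 7]],
  [[nat_lit 1, nat_lit 2, nat_lit 3], [nat_lit 0, nat_lit 4, nat_lit 5], [nat_lit 0, nat_lit 6, nat_lit 7], [nat_lit 0, nat_lit 8, nat_lit 9], [nat_lit 1, nat_lit 6, nat_lit 10], [nat_lit 1, nat_lit 11, nat_lit 12], [nat_lit 2, nat_lit 4, nat_lit 10], [nat_lit 2], [nat_lit 3], [nat_lit 3], [nat_lit 4, nat_lit 6], [nat_lit 5, nat_lit 12], [nat_lit 5, nat_lit 11]],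
  [[nat_lit 1, nat_lit 2, nat_lit 3], [nat_lit 0, nat_lit 4, nat_lit 5], [nat_lit 0, nat_lit 6, nat_lit 7], [nat_lit 0, nat_lit 8, nat_lit 9], [nat_lit 1, nat_lit 6, nat_lit 10], [nat_lit 1, nat_lit 11, nat_lit 12], [nat_lit 2, nat_lit 4], [nat_lit 2, nat_lit 10], [nat_lit 3, nat_lit 10], [nat_lit 3], [nat_lit 4, nat_lit 7, nat_lit 8], [nat_lit 5, nat_lit 12], [nat_lit 5, nat_lit 11]],
  [[nat_lit 1, nat_lit 2, nat_lit 3], [nat_lit 0, nat_lit 4, nat_lit 5], [nat_lit 0, nat_lit 6, nat_lit 7], [nat_lit 0, nat_lit 8, nat_lit 9], [nat_lit 1, nat_lit 6, nat_lit 10], [nat_lit 1, nat_lit 11, nat_lit 12], [nat_lit 2, nat_lit 4], [nat_lit 2, nat_lit 10], [nat_lit 3], [nat_lit 3], [nat_lit 4, nat_lit 7], [nat_lit 5, nat_lit 12], [nat_lit 5, nat_lit 11]],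
  [[nat_lit 1, nat_lit 2, nat_lit 3], [nat_lit 0, nat_lit 4, nat_lit 5], [nat_lit 0, nat_lit 6, nat_lit 7], [nat_lit 0, nat_lit 8, nat_lit 9], [nat_lit 1, nat_lit 6, nat_lit 10], [nat_lit 1, nat_lit 11, nat_lit 12], [nat_lit 2, nat_lit 4], [nat_lit 2], [nat_lit 3, nat_lit 10], [nat_lit 3, nat_lit 10], [nat_lit 4, nat_lit 8, nat_lit 9], [nat_lit 5, nat_lit 12], [nat_lit 5, nat_lit 11]],
  [[nat_lit 1, nat_lit 2, nat_lit 3], [nat_lit 0, nat_lit 4, nat_lit 5], [nat_lit 0, nat_lit 6, nat_lit 7], [nat_lit 0, nat_lit 8, nat_lit 9], [nat_lit 1, nat_lit 6, nat_lit 10], [nat_lit 1, nat_lit 11, nat_lit 12], [nat_lit 2, nat_lit 4], [nat_lit 2], [nat_lit 3, nat_lit 10], [nat_lit 3], [nat_lit 4, nat_lit 8], [nat_lit 5, nat_lit 12], [nat_lit 5, nat_lit 11]],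
  [[nat_lit 1, nat_lit 2, nat_lit 3], [nat_lit 0, nat_lit 4, nat_lit 5], [nat_lit 0, nat_lit 6, nat_lit 7], [nat_lit 0, nat_lit 8, nat_lit 9], [nat_lit 1, nat_lit 6, nat_lit 10], [nat_lit 1, nat_lit 11, nat_lit 12], [nat_lit 2, nat_lit 4], [nat_lit 2], [nat_lit 3], [nat_lit 3], [nat_lit 4], [nat_lit 5, nat_lit 12], [nat_lit 5, nat_lit 11]],
  [[nat_lit 1, nat_lit 2, nat_lit 3], [nat_lit 0, nat_lit 4, nat_lit 5], [nat_lit 0, nat_lit 6, nat_lit 7], [nat_lit 0, nat_lit 8, nat_lit 9], [nat_lit 1, nat_lit 10, nat_lit 11], [nat_lit 1, nat_lit 10, nat_lit 12], [nat_lit 2, nat_lit 11], [nat_lit 2, nat_lit 12], [nat_lit 3], [nat_lit 3], [nat_lit 4, nat_lit 5], [nat_lit 4, nat_lit 6], [nat_lit 5, nat_lit 7]],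
  [[nat_lit 1, nat_lit 2, nat_lit 3], [nat_lit 0, nat_lit 4, nat_lit 5], [nat_lit 0, nat_lit 6, nat_lit 7], [nat_lit 0, nat_lit 8, nat_lit 9], [nat_lit 1, nat_lit 10, nat_lit 11], [nat_lit 1, nat_lit 12], [nat_lit 2, nat_lit 10], [nat_lit 2, nat_lit 12], [nat_lit 3, nat_lit 11], [nat_lit 3, nat_lit 11], [nat_lit 4, nat_lit 6], [nat_lit 4, nat_lit 8, nat_lit 9], [nat_lit 5, nat_lit 7]],
  [[nat_lit 1, nat_lit 2, nat_lit 3], [nat_lit 0, nat_lit 4, nat_lit 5], [nat_lit 0, nat_lit 6, nat_lit 7], [nat_lit 0, nat_lit 8, nat_lit 9], [nat_lit 1, nat_lit 10, nat_lit 11], [nat_lit 1, nat_lit 12], [nat_lit 2, nat_lit 10], [nat_lit 2], [nat_lit 3, nat_lit 11], [nat_lit 3, nat_lit 11], [nat_lit 4, nat_lit 6], [nat_lit 4, nat_lit 8, nat_lit 9], [nat_lit 5]],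
  [[nat_lit 1, nat_lit 2, nat_lit 3], [nat_lit 0, nat_lit 4, nat_lit 5], [nat_lit 0, nat_lit 6, nat_lit 7], [nat_lit 0, nat_lit 8, nat_lit 9], [nat_lit 1, nat_lit 10, nat_lit 11], [nat_lit 1, nat_lit 12], [nat_lit 2, nat_lit 10], [nat_lit 2, nat_lit 12], [nat_lit 3, nat_lit 11], [nat_lit 3, nat_lit 12], [nat_lit 4, nat_lit 6], [nat_lit 4, nat_lit 8], [nat_lit 5, nat_lit 7, nat_lit 9]],
  [[nat_lit 1, nat_lit 2, nat_lit 3], [nat_lit 0, nat_lit 4, nat_lit 5], [nat_lit 0, nat_lit 6, nat_lit 7], [nat_lit 0, nat_lit 8, nat_lit 9], [nat_lit 1, nat_lit 10, nat_lit 11], [nat_lit 1, nat_lit 12], [nat_lit 2, nat_lit 10], [nat_lit 2, nat_lit 12], [nat_lit 3, nat_lit 11], [nat_lit 3], [nat_lit 4, nat_lit 6], [nat_lit 4, nat_lit 8], [nat_lit 5, nat_lit 7]],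
  [[nat_lit 1, nat_lit 2, nat_lit 3], [nat_lit 0, nat_lit 4, nat_lit 5], [nat_lit 0, nat_lit 6, nat_lit 7], [nat_lit 0, nat_lit 8, nat_lit 9], [nat_lit 1, nat_lit 10, nat_lit 11], [nat_lit 1, nat_lit 12], [nat_lit 2, nat_lit 10], [nat_lit 2], [nat_lit 3, nat_lit 11], [nat_lit 3], [nat_lit 4, nat_lit 6], [nat_lit 4, nat_lit 8], [nat_lit 5]],
  [[nat_lit 1, nat_lit 2, nat_lit 3], [nat_lit 0, nat_lit 4, nat_lit 5], [nat_lit 0, nat_lit 6, nat_lit 7], [nat_lit 0, nat_lit 8, nat_lit 9], [nat_lit 1, nat_lit 10, nat_lit 11], [nat_lit 1, nat_lit 12], [nat_lit 2, nat_lit 12], [nat_lit 2, nat_lit 12], [nat_lit 3], [nat_lit 3], [nat_lit 4, nat_lit 11], [nat_lit 4, nat_lit 10], [nat_lit 5, nat_lit 6, nat_lit 7]],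
  [[nat_lit 1, nat_lit 2, nat_lit 3], [nat_lit 0, nat_lit 4, nat_lit 5], [nat_lit 0, nat_lit 6, nat_lit 7], [nat_lit 0, nat_lit 8, nat_lit 9], [nat_lit 1, nat_lit 10, nat_lit 11], [nat_lit 1, nat_lit 12], [nat_lit 2, nat_lit 12], [nat_lit 2], [nat_lit 3, nat_lit 12], [nat_lit 3], [nat_lit 4, nat_lit 11], [nat_lit 4, nat_lit 10], [nat_lit 5, nat_lit 6, nat_lit 8]],
  [[nat_lit 1, nat_lit 2, nat_lit 3], [nat_lit 0, nat_lit 4, nat_lit 5], [nat_lit 0, nat_lit 6, nat_lit 7], [nat_lit 0, nat_lit 8, nat_lit 9], [nat_lit 1, nat_lit 10, nat_lit 11], [nat_lit 1, nat_lit 12], [nat_lit 2, nat_lit 12], [nat_lit 2], [nat_lit 3], [nat_lit 3], [nat_lit 4, nat_lit 11], [nat_lit 4, nat_lit 10], [nat_lit 5, nat_lit 6]],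
  [[nat_lit 1, nat_lit 2, nat_lit 3], [nat_lit 0, nat_lit 4, nat_lit 5], [nat_lit 0, nat_lit 6, nat_lit 7], [nat_lit 0, nat_lit 8, nat_lit 9], [nat_lit 1, nat_lit 10, nat_lit 11], [nat_lit 1, nat_lit 12], [nat_lit 2], [nat_lit 2], [nat_lit 3], [nat_lit 3], [nat_lit 4, nat_lit 11], [nat_lit 4, nat_lit 10], [nat_lit 5]],
  [[nat_lit 1, nat_lit 2, nat_lit 3], [nat_lit 0, nat_lit 2, nat_lit 4], [nat_lit 0, nat_lit 1, nat_lit 5], [nat_lit 0, nat_lit 6, nat_lit 7], [nat_lit 1, nat_lit 8, nat_lit 9], [nat_lit 2, nat_lit 10, nat_lit 11], [nat_lit 3, nat_lit 7, nat_lit 12], [nat_lit 3, nat_lit 6, nat_lit 13], [nat_lit 4, nat_lit 9], [nat_lit 4, nat_lit 8], [nat_lit 5, nat_lit 11], [nat_lit 5, nat_lit 10], [nat_lit 6, nat_lit 13], [nat_lit 7, nat_lit 12]],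
  [[nat_lit 1, nat_lit 2, nat_lit 3], [nat_lit 0, nat_lit 2, nat_lit 4], [nat_lit 0, nat_lit 1, nat_lit 5], [nat_lit 0, nat_lit 6, nat_lit 7], [nat_lit 1, nat_lit 8, nat_lit 9], [nat_lit 2, nat_lit 10, nat_lit 11], [nat_lit 3, nat_lit 7, nat_lit 12], [nat_lit 3, nat_lit 6, nat_lit 13], [nat_lit 4, nat_lit 9], [nat_lit 4, nat_lit 8], [nat_lit 5, nat_lit 11], [nat_lit 5, nat_lit 10], [nat_lit 6], [nat_lit 7]],
  [[nat_lit 1, nat_lit 2, nat_lit 3], [nat_lit 0, nat_lit 4, nat_lit 5], [nat_lit 0, nat_lit 4, nat_lit 6], [nat_lit 0, nat_lit 4, nat_lit 7], [nat_lit 1, nat_lit 2, nat_lit 3], [nat_lit 1, nat_lit 8, nat_lit 9], [nat_lit 2, nat_lit 10, nat_lit 11], [nat_lit 3, nat_lit 12, nat_lit 13], [nat_lit 5, nat_lit 9], [nat_lit 5, nat_lit 8], [nat_lit 6, nat_lit 11], [nat_lit 6, nat_lit 10], [nat_lit 7, nat_lit 13], [nat_lit 7, nat_lit 12]],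
  [[nat_lit 1, nat_lit 2, nat_lit 3], [nat_lit 0, nat_lit 4, nat_lit 5], [nat_lit 0, nat_lit 4, nat_lit 6], [nat_lit 0, nat_lit 7, nat_lit 8], [nat_lit 1, nat_lit 2, nat_lit 9], [nat_lit 1, nat_lit 10, nat_lit 11], [nat_lit 2, nat_lit 12, nat_lit 13], [nat_lit 3, nat_lit 8, nat_lit 9], [nat_lit 3, nat_lit 7], [nat_lit 4, nat_lit 7], [nat_lit 5, nat_lit 11], [nat_lit 5, nat_lit 10], [nat_lit 6, nat_lit 13], [nat_lit 6, nat_lit 12]],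
  [[nat_lit 1, nat_lit 2, nat_lit 3], [nat_lit 0, nat_lit 4, nat_lit 5], [nat_lit 0, nat_lit 4, nat_lit 6], [nat_lit 0, nat_lit 7, nat_lit 8], [nat_lit 1, nat_lit 2, nat_lit 9], [nat_lit 1, nat_lit 10, nat_lit 11], [nat_lit 2, nat_lit 12, nat_lit 13], [nat_lit 3, nat_lit 8], [nat_lit 3, nat_lit 7], [nat_lit 4], [nat_lit 5, nat_lit 11], [nat_lit 5, nat_lit 10], [nat_lit 6, nat_lit 13], [nat_lit 6, nat_lit 12]],
  [[nat_lit 1, nat_lit 2, nat_lit 3], [nat_lit 0, nat_lit 4, nat_lit 5], [nat_lit 0, nat_lit 6, nat_lit 7], [nat_lit 0, nat_lit 8, nat_lit 9], [nat_lit 1, nat_lit 5, nat_lit 10], [nat_lit 1, nat_lit 4, nat_lit 11], [nat_lit 2, nat_lit 7, nat_lit 12], [nat_lit 2, nat_lit 6, nat_lit 13], [nat_lit 3, nat_lit 9], [nat_lit 3, nat_lit 8], [nat_lit 4, nat_lit 11], [nat_lit 5, nat_lit 10], [nat_lit 6, nat_lit 13], [nat_lit 7, nat_lit 12]],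
  [[nat_lit 1, nat_lit 2, nat_lit 3], [nat_lit 0, nat_lit 4, nat_lit 5], [nat_lit 0, nat_lit 6, nat_lit 7], [nat_lit 0, nat_lit 8, nat_lit 9], [nat_lit 1, nat_lit 5, nat_lit 10], [nat_lit 1, nat_lit 4, nat_lit 11], [nat_lit 2, nat_lit 7, nat_lit 12], [nat_lit 2, nat_lit 6, nat_lit 13], [nat_lit 3, nat_lit 9], [nat_lit 3, nat_lit 8], [nat_lit 4, nat_lit 11], [nat_lit 5, nat_lit 10], [nat_lit 6], [nat_lit 7]]]

noncomputable def op20 : List (List (List Nat)) := [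
  [[nat_lit 1, nat_lit 2, nat_lit 3], [nat_lit 0, nat_lit 4, nat_lit 5], [nat_lit 0, nat_lit 6, nat_lit 7], [nat_lit 0, nat_lit 8, nat_lit 9], [nat_lit 1, nat_lit 5, nat_lit 10], [nat_lit 1, nat_lit 4, nat_lit 11], [nat_lit 2, nat_lit 7, nat_lit 12], [nat_lit 2, nat_lit 6, nat_lit 13], [nat_lit 3, nat_lit 9], [nat_lit 3, nat_lit 8], [nat_lit 4, nat_lit 12], [nat_lit 5, nat_lit 13], [nat_lit 6, nat_lit 10], [nat_lit 7, nat_lit 11]],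
  [[nat_lit 1, nat_lit 2, nat_lit 3], [nat_lit 0, nat_lit 4, nat_lit 5], [nat_lit 0, nat_lit 6, nat_lit 7], [nat_lit 0, nat_lit 8, nat_lit 9], [nat_lit 1, nat_lit 5, nat_lit 10], [nat_lit 1, nat_lit 4, nat_lit 11], [nat_lit 2, nat_lit 7, nat_lit 12], [nat_lit 2, nat_lit 6, nat_lit 13], [nat_lit 3, nat_lit 9], [nat_lit 3, nat_lit 8], [nat_lit 4, nat_lit 12], [nat_lit 5], [nat_lit 6, nat_lit 10], [nat_lit 7]],
  [[nat_lit 1, nat_lit 2, nat_lit 3], [nat_lit 0, nat_lit 4, nat_lit 5], [nat_lit 0, nat_lit 6, nat_lit 7], [nat_lit 0, nat_lit 8, nat_lit 9], [nat_lit 1, nat_lit 5, nat_lit 10], [nat_lit 1, nat_lit 4, nat_lit 11], [nat_lit 2, nat_lit 7, nat_lit 12], [nat_lit 2, nat_lit 6, nat_lit 13], [nat_lit 3, nat_lit 9], [nat_lit 3, nat_lit 8], [nat_lit 4], [nat_lit 5], [nat_lit 6], [nat_lit 7]],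
  [[nat_lit 1, nat_lit 2, nat_lit 3], [nat_lit 0, nat_lit 4, nat_lit 5], [nat_lit 0, nat_lit 6, nat_lit 7], [nat_lit 0, nat_lit 8, nat_lit 9], [nat_lit 1, nat_lit 5, nat_lit 8], [nat_lit 1, nat_lit 4, nat_lit 9], [nat_lit 2, nat_lit 10, nat_lit 11], [nat_lit 2, nat_lit 12, nat_lit 13], [nat_lit 3, nat_lit 4], [nat_lit 3, nat_lit 5], [nat_lit 6, nat_lit 11], [nat_lit 6, nat_lit 10], [nat_lit 7, nat_lit 13], [nat_lit 7, nat_lit 12]],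
  [[nat_lit 1, nat_lit 2, nat_lit 3], [nat_lit 0, nat_lit 4, nat_lit 5], [nat_lit 0, nat_lit 6, nat_lit 7], [nat_lit 0, nat_lit 8, nat_lit 9], [nat_lit 1, nat_lit 6, nat_lit 10], [nat_lit 1, nat_lit 11, nat_lit 12], [nat_lit 2, nat_lit 4, nat_lit 10], [nat_lit 2, nat_lit 13], [nat_lit 3, nat_lit 13], [nat_lit 3, nat_lit 13], [nat_lit 4, nat_lit 6], [nat_lit 5, nat_lit 12], [nat_lit 5, nat_lit 11], [nat_lit 7, nat_lit 8, nat_lit 9]],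
  [[nat_lit 1, nat_lit 2, nat_lit 3], [nat_lit 0, nat_lit 4, nat_lit 5], [nat_lit 0, nat_lit 6, nat_lit 7], [nat_lit 0, nat_lit 8, nat_lit 9], [nat_lit 1, nat_lit 6, nat_lit 10], [nat_lit 1, nat_lit 11, nat_lit 12], [nat_lit 2, nat_lit 4, nat_lit 10], [nat_lit 2, nat_lit 13], [nat_lit 3, nat_lit 13], [nat_lit 3], [nat_lit 4, nat_lit 6], [nat_lit 5, nat_lit 12], [nat_lit 5, nat_lit 11], [nat_lit 7, nat_lit 8]],
  [[nat_lit 1, nat_lit 2, nat_lit 3], [nat_lit 0, nat_lit 4, nat_lit 5], [nat_lit 0, nat_lit 6, nat_lit 7], [nat_lit 0, nat_lit 8, nat_lit 9], [nat_lit 1, nat_lit 6, nat_lit 10], [nat_lit 1, nat_lit 11, nat_lit 12], [nat_lit 2, nat_lit 4, nat_lit 10], [nat_lit 2, nat_lit 13], [nat_lit 3], [nat_lit 3], [nat_lit 4, nat_lit 6], [nat_lit 5, nat_lit 12], [nat_lit 5, nat_lit 11], [nat_lit 7]],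
  [[nat_lit 1, nat_lit 2, nat_lit 3], [nat_lit 0, nat_lit 4, nat_lit 5], [nat_lit 0, nat_lit 6, nat_lit 7], [nat_lit 0, nat_lit 8, nat_lit 9], [nat_lit 1, nat_lit 6, nat_lit 10], [nat_lit 1, nat_lit 11, nat_lit 12], [nat_lit 2, nat_lit 4, nat_lit 13], [nat_lit 2, nat_lit 13], [nat_lit 3, nat_lit 10], [nat_lit 3, nat_lit 10], [nat_lit 4, nat_lit 8, nat_lit 9], [nat_lit 5, nat_lit 12], [nat_lit 5, nat_lit 11], [nat_lit 6, nat_lit 7]],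
  [[nat_lit 1, nat_lit 2, nat_lit 3], [nat_lit 0, nat_lit 4, nat_lit 5], [nat_lit 0, nat_lit 6, nat_lit 7], [nat_lit 0, nat_lit 8, nat_lit 9], [nat_lit 1, nat_lit 6, nat_lit 10], [nat_lit 1, nat_lit 11, nat_lit 12], [nat_lit 2, nat_lit 4, nat_lit 13], [nat_lit 2, nat_lit 13], [nat_lit 3, nat_lit 10], [nat_lit 3, nat_lit 13], [nat_lit 4, nat_lit 8], [nat_lit 5, nat_lit 12], [nat_lit 5, nat_lit 11], [nat_lit 6, nat_lit 7, nat_lit 9]],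
  [[nat_lit 1, nat_lit 2, nat_lit 3], [nat_lit 0, nat_lit 4, nat_lit 5], [nat_lit 0, nat_lit 6, nat_lit 7], [nat_lit 0, nat_lit 8, nat_lit 9], [nat_lit 1, nat_lit 6, nat_lit 10], [nat_lit 1, nat_lit 11, nat_lit 12], [nat_lit 2, nat_lit 4, nat_lit 13], [nat_lit 2, nat_lit 13], [nat_lit 3, nat_lit 10], [nat_lit 3], [nat_lit 4, nat_lit 8], [nat_lit 5, nat_lit 12], [nat_lit 5, nat_lit 11], [nat_lit 6, nat_lit 7]],
  [[nat_lit 1, nat_lit 2, nat_lit 3], [nat_lit 0, nat_lit 4, nat_lit 5], [nat_lit 0, nat_lit 6, nat_lit 7], [nat_lit 0, nat_lit 8, nat_lit 9], [nat_lit 1, nat_lit 6, nat_lit 10], [nat_lit 1, nat_lit 11, nat_lit 12], [nat_lit 2, nat_lit 4, nat_lit 13], [nat_lit 2], [nat_lit 3, nat_lit 10], [nat_lit 3, nat_lit 13], [nat_lit 4, nat_lit 8], [nat_lit 5, nat_lit 12], [nat_lit 5, nat_lit 11], [nat_lit 6, nat_lit 9]],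
  [[nat_lit 1, nat_lit 2, nat_lit 3], [nat_lit 0, nat_lit 4, nat_lit 5], [nat_lit 0, nat_lit 6, nat_lit 7], [nat_lit 0, nat_lit 8, nat_lit 9], [nat_lit 1, nat_lit 6, nat_lit 10], [nat_lit 1, nat_lit 11, nat_lit 12], [nat_lit 2, nat_lit 4, nat_lit 13], [nat_lit 2, nat_lit 13], [nat_lit 3], [nat_lit 3], [nat_lit 4], [nat_lit 5, nat_lit 12], [nat_lit 5, nat_lit 11], [nat_lit 6, nat_lit 7]],
  [[nat_lit 1, nat_lit 2, nat_lit 3], [nat_lit 0, nat_lit 4, nat_lit 5], [nat_lit 0, nat_lit 6, nat_lit 7], [nat_lit 0, nat_lit 8, nat_lit 9], [nat_lit 1, nat_lit 10, nat_lit 11], [nat_lit 1, nat_lit 12, nat_lit 13], [nat_lit 2, nat_lit 10], [nat_lit 2], [nat_lit 3, nat_lit 11], [nat_lit 3, nat_lit 11], [nat_lit 4, nat_lit 6], [nat_lit 4, nat_lit 8, nat_lit 9], [nat_lit 5, nat_lit 13], [nat_lit 5, nat_lit 12]],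
  [[nat_lit 1, nat_lit 2, nat_lit 3], [nat_lit 0, nat_lit 4, nat_lit 5], [nat_lit 0, nat_lit 6, nat_lit 7], [nat_lit 0, nat_lit 8, nat_lit 9], [nat_lit 1, nat_lit 10, nat_lit 11], [nat_lit 1, nat_lit 12, nat_lit 13], [nat_lit 2, nat_lit 10], [nat_lit 2, nat_lit 12], [nat_lit 3, nat_lit 11], [nat_lit 3, nat_lit 13], [nat_lit 4, nat_lit 6], [nat_lit 4, nat_lit 8], [nat_lit 5, nat_lit 7], [nat_lit 5, nat_lit 9]],
  [[nat_lit 1, nat_lit 2, nat_lit 3], [nat_lit 0, nat_lit 4, nat_lit 5], [nat_lit 0, nat_lit 6, nat_lit 7], [nat_lit 0, nat_lit 8, nat_lit 9], [nat_lit 1, nat_lit 10, nat_lit 11], [nat_lit 1, nat_lit 12, nat_lit 13], [nat_lit 2, nat_lit 10], [nat_lit 2], [nat_lit 3, nat_lit 11], [nat_lit 3], [nat_lit 4, nat_lit 6], [nat_lit 4, nat_lit 8], [nat_lit 5, nat_lit 13], [nat_lit 5, nat_lit 12]],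
  [[nat_lit 1, nat_lit 2, nat_lit 3], [nat_lit 0, nat_lit 4, nat_lit 5], [nat_lit 0, nat_lit 6, nat_lit 7], [nat_lit 0, nat_lit 8, nat_lit 9], [nat_lit 1, nat_lit 10, nat_lit 11], [nat_lit 1, nat_lit 12, nat_lit 13], [nat_lit 2, nat_lit 12], [nat_lit 2, nat_lit 12], [nat_lit 3, nat_lit 13], [nat_lit 3, nat_lit 13], [nat_lit 4, nat_lit 11], [nat_lit 4, nat_lit 10], [nat_lit 5, nat_lit 6, nat_lit 7], [nat_lit 5, nat_lit 8, nat_lit 9]],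
  [[nat_lit 1, nat_lit 2, nat_lit 3], [nat_lit 0, nat_lit 4, nat_lit 5], [nat_lit 0, nat_lit 6, nat_lit 7], [nat_lit 0, nat_lit 8, nat_lit 9], [nat_lit 1, nat_lit 10, nat_lit 11], [nat_lit 1, nat_lit 12, nat_lit 13], [nat_lit 2], [nat_lit 2], [nat_lit 3], [nat_lit 3], [nat_lit 4, nat_lit 11], [nat_lit 4, nat_lit 10], [nat_lit 5, nat_lit 13], [nat_lit 5, nat_lit 12]],
  [[nat_lit 1, nat_lit 2, nat_lit 3], [nat_lit 0, nat_lit 4, nat_lit 5], [nat_lit 0, nat_lit 6, nat_lit 7], [nat_lit 0, nat_lit 8, nat_lit 9], [nat_lit 1, nat_lit 6, nat_lit 10], [nat_lit 1, nat_lit 11, nat_lit 12], [nat_lit 2, nat_lit 4, nat_lit 10], [nat_lit 2, nat_lit 13, nat_lit 14], [nat_lit 3], [nat_lit 3], [nat_lit 4, nat_lit 6], [nat_lit 5, nat_lit 12], [nat_lit 5, nat_lit 11], [nat_lit 7, nat_lit 14], [nat_lit 7, nat_lit 13]],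
  [[nat_lit 1, nat_lit 2, nat_lit 3], [nat_lit 0, nat_lit 4, nat_lit 5], [nat_lit 0, nat_lit 6, nat_lit 7], [nat_lit 0, nat_lit 8, nat_lit 9], [nat_lit 1, nat_lit 6, nat_lit 10], [nat_lit 1, nat_lit 11, nat_lit 12], [nat_lit 2, nat_lit 4, nat_lit 13], [nat_lit 2, nat_lit 14], [nat_lit 3, nat_lit 10], [nat_lit 3, nat_lit 13], [nat_lit 4, nat_lit 8, nat_lit 14], [nat_lit 5, nat_lit 12], [nat_lit 5, nat_lit 11], [nat_lit 6, nat_lit 9], [nat_lit 7, nat_lit 10]],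
  [[nat_lit 1, nat_lit 2, nat_lit 3], [nat_lit 0, nat_lit 4, nat_lit 5], [nat_lit 0, nat_lit 6, nat_lit 7], [nat_lit 0, nat_lit 8, nat_lit 9], [nat_lit 1, nat_lit 6, nat_lit 10], [nat_lit 1, nat_lit 11, nat_lit 12], [nat_lit 2, nat_lit 4, nat_lit 13], [nat_lit 2, nat_lit 14], [nat_lit 3, nat_lit 10], [nat_lit 3, nat_lit 13], [nat_lit 4, nat_lit 8], [nat_lit 5, nat_lit 12], [nat_lit 5, nat_lit 11], [nat_lit 6, nat_lit 9], [nat_lit 7]],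
  [[nat_lit 1, nat_lit 2, nat_lit 3], [nat_lit 0, nat_lit 4, nat_lit 5], [nat_lit 0, nat_lit 6, nat_lit 7], [nat_lit 0, nat_lit 8, nat_lit 9], [nat_lit 1, nat_lit 10, nat_lit 11], [nat_lit 1, nat_lit 12, nat_lit 13], [nat_lit 2, nat_lit 10, nat_lit 14], [nat_lit 2], [nat_lit 3, nat_lit 11], [nat_lit 3, nat_lit 14], [nat_lit 4, nat_lit 6], [nat_lit 4, nat_lit 8], [nat_lit 5, nat_lit 13], [nat_lit 5, nat_lit 12], [nat_lit 6, nat_lit 9]],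
  [[nat_lit 1, nat_lit 2, nat_lit 3], [nat_lit 0, nat_lit 4, nat_lit 5], [nat_lit 0, nat_lit 6, nat_lit 7], [nat_lit 0, nat_lit 8, nat_lit 9], [nat_lit 1, nat_lit 10, nat_lit 11], [nat_lit 1, nat_lit 12, nat_lit 13], [nat_lit 2, nat_lit 14], [nat_lit 2, nat_lit 14], [nat_lit 3, nat_lit 14], [nat_lit 3], [nat_lit 4, nat_lit 11], [nat_lit 4, nat_lit 10], [nat_lit 5, nat_lit 13], [nat_lit 5, nat_lit 12], [nat_lit 6, nat_lit 7, nat_lit 8]],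
  [[nat_lit 1, nat_lit 2, nat_lit 3], [nat_lit 0, nat_lit 4, nat_lit 5], [nat_lit 0, nat_lit 6, nat_lit 7], [nat_lit 0, nat_lit 8, nat_lit 9], [nat_lit 1, nat_lit 10, nat_lit 11], [nat_lit 1, nat_lit 12, nat_lit 13], [nat_lit 2, nat_lit 14], [nat_lit 2, nat_lit 14], [nat_lit 3], [nat_lit 3], [nat_lit 4, nat_lit 11, nat_lit 14], [nat_lit 4, nat_lit 10], [nat_lit 5, nat_lit 13], [nat_lit 5, nat_lit 12], [nat_lit 6, nat_lit 7, nat_lit 10]],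
  [[nat_lit 1, nat_lit 2, nat_lit 3], [nat_lit 0, nat_lit 4, nat_lit 5], [nat_lit 0, nat_lit 6, nat_lit 7], [nat_lit 0, nat_lit 8, nat_lit 9], [nat_lit 1, nat_lit 10, nat_lit 11], [nat_lit 1, nat_lit 12, nat_lit 13], [nat_lit 2, nat_lit 14], [nat_lit 2, nat_lit 14], [nat_lit 3], [nat_lit 3], [nat_lit 4, nat_lit 11], [nat_lit 4, nat_lit 10], [nat_lit 5, nat_lit 13], [nat_lit 5, nat_lit 12], [nat_lit 6, nat_lit 7]],
  [[nat_lit 1, nat_lit 2, nat_lit 3], [nat_lit 0, nat_lit 4, nat_lit 5], [nat_lit 0, nat_lit 6, nat_lit 7], [nat_lit 0, nat_lit 8, nat_lit 9], [nat_lit 1, nat_lit 10, nat_lit 11], [nat_lit 1, nat_lit 12, nat_lit 13], [nat_lit 2, nat_lit 14], [nat_lit 2], [nat_lit 3, nat_lit 14], [nat_lit 3], [nat_lit 4, nat_lit 11, nat_lit 14], [nat_lit 4, nat_lit 10], [nat_lit 5, nat_lit 13], [nat_lit 5, nat_lit 12], [nat_lit 6, nat_lit 8, nat_lit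 10]],
  [[nat_lit 1, nat_lit 2, nat_lit 3], [nat_lit 0, nat_lit 4, nat_lit 5], [nat_lit 0, nat_lit 6, nat_lit 7], [nat_lit 0, nat_lit 8, nat_lit 9], [nat_lit 1, nat_lit 10, nat_lit 11], [nat_lit 1, nat_lit 12, nat_lit 13], [nat_lit 2, nat_lit 14], [nat_lit 2], [nat_lit 3, nat_lit 14], [nat_lit 3], [nat_lit 4, nat_lit 11], [nat_lit 4, nat_lit 10], [nat_lit 5, nat_lit 13], [nat_lit 5, nat_lit 12], [nat_lit 6, nat_lit 8]],
  [[nat_lit 1, nat_lit 2, nat_lit 3], [nat_lit 0, nat_lit 4, nat_lit 5], [nat_lit 0, nat_lit 6, nat_lit 7], [nat_lit 0, nat_lit 8, nat_lit 9], [nat_lit 1, nat_lit 10, nat_lit 11], [nat_lit 1, nat_lit 12, nat_lit 13], [nat_lit 2, nat_lit 14], [nat_lit 2], [nat_lit 3], [nat_lit 3], [nat_lit 4, nat_lit 11, nat_lit 14], [nat_lit 4, nat_lit 10], [nat_lit 5, nat_lit 13], [nat_lit 5, nat_lit 12], [nat_lit 6, nat_lit 10]],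
  [[nat_lit 1, nat_lit 2, nat_lit 3], [nat_lit 0, nat_lit 4, nat_lit 5], [nat_lit 0, nat_lit 6, nat_lit 7], [nat_lit 0, nat_lit 8, nat_lit 9], [nat_lit 1, nat_lit 10, nat_lit 11], [nat_lit 1, nat_lit 12, nat_lit 13], [nat_lit 2, nat_lit 14], [nat_lit 2], [nat_lit 3], [nat_lit 3], [nat_lit 4, nat_lit 11], [nat_lit 4, nat_lit 10], [nat_lit 5, nat_lit 13], [nat_lit 5, nat_lit 12], [nat_lit 6]],
  [[nat_lit 1, nat_lit 2, nat_lit 3], [nat_lit 0, nat_lit 4, nat_lit 5], [nat_lit 0, nat_lit 6, nat_lit 7], [nat_lit 0, nat_lit 8, nat_lit 9], [nat_lit 1, nat_lit 6, nat_lit 10], [nat_lit 1, nat_lit 11, nat_lit 12], [nat_lit 2, nat_lit 4, nat_lit 10], [nat_lit 2, nat_lit 13, nat_lit 14], [nat_lit 3, nat_lit 15], [nat_lit 3, nat_lit 15], [nat_lit 4, nat_lit 6], [nat_lit 5, nat_lit 12], [nat_lit 5, nat_lit 11], [nat_lit 7, nat_lit 14], [nat_lit 7, nat_lit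 13], [nat_lit 8, nat_lit 9]],
  [[nat_lit 1, nat_lit 2, nat_lit 3], [nat_lit 0, nat_lit 4, nat_lit 5], [nat_lit 0, nat_lit 6, nat_lit 7], [nat_lit 0, nat_lit 8, nat_lit 9], [nat_lit 1, nat_lit 6, nat_lit 10], [nat_lit 1, nat_lit 11, nat_lit 12], [nat_lit 2, nat_lit 4, nat_lit 10], [nat_lit 2, nat_lit 13, nat_lit 14], [nat_lit 3, nat_lit 15], [nat_lit 3], [nat_lit 4, nat_lit 6], [nat_lit 5, nat_lit 12], [nat_lit 5, nat_lit 11], [nat_lit 7, nat_lit 14], [nat_lit 7, nat_lit 13], [nat_lit 8]],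
  [[nat_lit 1, nat_lit 2, nat_lit 3], [nat_lit 0, nat_lit 4, nat_lit 5], [nat_lit 0, nat_lit 6, nat_lit 7], [nat_lit 0, nat_lit 8, nat_lit 9], [nat_lit 1, nat_lit 6, nat_lit 10], [nat_lit 1, nat_lit 11, nat_lit 12], [nat_lit 2, nat_lit 4, nat_lit 13], [nat_lit 2, nat_lit 14, nat_lit 15], [nat_lit 3, nat_lit 10], [nat_lit 3, nat_lit 13], [nat_lit 4, nat_lit 8], [nat_lit 5, nat_lit 12], [nat_lit 5, nat_lit 11], [nat_lit 6, nat_lit 9], [nat_lit 7, nat_lit 15], [nat_lit 7, nat_lit 14]],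
  [[nat_lit 1, nat_lit 2, nat_lit 3], [nat_lit 0, nat_lit 4, nat_lit 5], [nat_lit 0, nat_lit 6, nat_lit 7], [nat_lit 0, nat_lit 8, nat_lit 9], [nat_lit 1, nat_lit 10, nat_lit 11], [nat_lit 1, nat_lit 12, nat_lit 13], [nat_lit 2, nat_lit 10, nat_lit 14], [nat_lit 2, nat_lit 15], [nat_lit 3, nat_lit 11], [nat_lit 3, nat_lit 14], [nat_lit 4, nat_lit 6], [nat_lit 4, nat_lit 8, nat_lit 15], [nat_lit 5, nat_lit 13], [nat_lit 5, nat_lit 12], [nat_lit 6, nat_lit 9], [nat_lit 7, nat_lit 11]]]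

noncomputable def op21 : List (List (List Nat)) := [
  [[nat_lit 1, nat_lit 2, nat_lit 3], [nat_lit 0, nat_lit 4, nat_lit 5], [nat_lit 0, nat_lit 6, nat_lit 7], [nat_lit 0, nat_lit 8, nat_lit 9], [nat_lit 1, nat_lit 10, nat_lit 11], [nat_lit 1, nat_lit 12, nat_lit 13], [nat_lit 2, nat_lit 10, nat_lit 14], [nat_lit 2, nat_lit 15], [nat_lit 3, nat_lit 11], [nat_lit 3, nat_lit 14], [nat_lit 4, nat_lit 6], [nat_lit 4, nat_lit 8], [nat_lit 5, nat_lit 13], [nat_lit 5, nat_lit 12], [nat_lit 6, nat_lit 9], [nat_lit 7]],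
  [[nat_lit 1, nat_lit 2, nat_lit 3], [nat_lit 0, nat_lit 4, nat_lit 5], [nat_lit 0, nat_lit 6, nat_lit 7], [nat_lit 0, nat_lit 8, nat_lit 9], [nat_lit 1, nat_lit 10, nat_lit 11], [nat_lit 1, nat_lit 12, nat_lit 13], [nat_lit 2, nat_lit 14, nat_lit 15], [nat_lit 2, nat_lit 14, nat_lit 15], [nat_lit 3, nat_lit 14], [nat_lit 3], [nat_lit 4, nat_lit 11], [nat_lit 4, nat_lit 10], [nat_lit 5, nat_lit 13], [nat_lit 5, nat_lit 12], [nat_lit 6, nat_lit 7, nat_lit 8], [nat_lit 6, nat_lit 7]],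
  [[nat_lit 1, nat_lit 2, nat_lit 3], [nat_lit 0, nat_lit 4, nat_lit 5], [nat_lit 0, nat_lit 6, nat_lit 7], [nat_lit 0, nat_lit 8, nat_lit 9], [nat_lit 1, nat_lit 10, nat_lit 11], [nat_lit 1, nat_lit 12, nat_lit 13], [nat_lit 2, nat_lit 14, nat_lit 15], [nat_lit 2, nat_lit 14, nat_lit 15], [nat_lit 3], [nat_lit 3], [nat_lit 4, nat_lit 11], [nat_lit 4, nat_lit 10], [nat_lit 5, nat_lit 13], [nat_lit 5, nat_lit 12], [nat_lit 6, nat_lit 7], [nat_lit 6, nat_lit 7]],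
  [[nat_lit 1, nat_lit 2, nat_lit 3], [nat_lit 0, nat_lit 4, nat_lit 5], [nat_lit 0, nat_lit 6, nat_lit 7], [nat_lit 0, nat_lit 8, nat_lit 9], [nat_lit 1, nat_lit 10, nat_lit 11], [nat_lit 1, nat_lit 12, nat_lit 13], [nat_lit 2, nat_lit 14, nat_lit 15], [nat_lit 2, nat_lit 14], [nat_lit 3, nat_lit 15], [nat_lit 3, nat_lit 15], [nat_lit 4, nat_lit 11], [nat_lit 4, nat_lit 10], [nat_lit 5, nat_lit 13], [nat_lit 5, nat_lit 12], [nat_lit 6, nat_lit 7], [nat_lit 6, nat_lit 8, nat_lit 9]],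
  [[nat_lit 1, nat_lit 2, nat_lit 3], [nat_lit 0, nat_lit 4, nat_lit 5], [nat_lit 0, nat_lit 6, nat_lit 7], [nat_lit 0, nat_lit 8, nat_lit 9], [nat_lit 1, nat_lit 10, nat_lit 11], [nat_lit 1, nat_lit 12, nat_lit 13], [nat_lit 2, nat_lit 14, nat_lit 15], [nat_lit 2, nat_lit 14], [nat_lit 3, nat_lit 15], [nat_lit 3], [nat_lit 4, nat_lit 11, nat_lit 15], [nat_lit 4, nat_lit 10], [nat_lit 5, nat_lit 13], [nat_lit 5, nat_lit 12], [nat_lit 6, nat_lit 7], [nat_lit 6, nat_lit 8, nat_lit 10]],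
  [[nat_lit 1, nat_lit 2, nat_lit 3], [nat_lit 0, nat_lit 4, nat_lit 5], [nat_lit 0, nat_lit 6, nat_lit 7], [nat_lit 0, nat_lit 8, nat_lit 9], [nat_lit 1, nat_lit 10, nat_lit 11], [nat_lit 1, nat_lit 12, nat_lit 13], [nat_lit 2, nat_lit 14, nat_lit 15], [nat_lit 2, nat_lit 14], [nat_lit 3, nat_lit 15], [nat_lit 3], [nat_lit 4, nat_lit 11], [nat_lit 4, nat_lit 10], [nat_lit 5, nat_lit 13], [nat_lit 5, nat_lit 12], [nat_lit 6, nat_lit 7, nat_lit 15], [nat_lit 6, nat_lit 8, nat_lit 14]],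
  [[nat_lit 1, nat_lit 2, nat_lit 3], [nat_lit 0, nat_lit 4, nat_lit 5], [nat_lit 0, nat_lit 6, nat_lit 7], [nat_lit 0, nat_lit 8, nat_lit 9], [nat_lit 1, nat_lit 10, nat_lit 11], [nat_lit 1, nat_lit 12, nat_lit 13], [nat_lit 2, nat_lit 14, nat_lit 15], [nat_lit 2, nat_lit 14], [nat_lit 3, nat_lit 15], [nat_lit 3], [nat_lit 4, nat_lit 11], [nat_lit 4, nat_lit 10], [nat_lit 5, nat_lit 13], [nat_lit 5, nat_lit 12], [nat_lit 6, nat_lit 7], [nat_lit 6, nat_lit 8]],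
  [[nat_lit 1, nat_lit 2, nat_lit 3], [nat_lit 0, nat_lit 4, nat_lit 5], [nat_lit 0, nat_lit 6, nat_lit 7], [nat_lit 0, nat_lit 8, nat_lit 9], [nat_lit 1, nat_lit 10, nat_lit 11], [nat_lit 1, nat_lit 12, nat_lit 13], [nat_lit 2, nat_lit 14, nat_lit 15], [nat_lit 2, nat_lit 14], [nat_lit 3], [nat_lit 3], [nat_lit 4, nat_lit 11], [nat_lit 4, nat_lit 10], [nat_lit 5, nat_lit 13], [nat_lit 5, nat_lit 12], [nat_lit 6, nat_lit 7, nat_lit 15], [nat_lit 6, nat_lit 14]],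
  [[nat_lit 1, nat_lit 2, nat_lit 3], [nat_lit 0, nat_lit 4, nat_lit 5], [nat_lit 0, nat_lit 6, nat_lit 7], [nat_lit 0, nat_lit 8, nat_lit 9], [nat_lit 1, nat_lit 10, nat_lit 11], [nat_lit 1, nat_lit 12, nat_lit 13], [nat_lit 2, nat_lit 14, nat_lit 15], [nat_lit 2, nat_lit 14], [nat_lit 3], [nat_lit 3], [nat_lit 4, nat_lit 11], [nat_lit 4, nat_lit 10], [nat_lit 5, nat_lit 13], [nat_lit 5, nat_lit 12], [nat_lit 6, nat_lit 7], [nat_lit 6]],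
  [[nat_lit 1, nat_lit 2, nat_lit 3], [nat_lit 0, nat_lit 4, nat_lit 5], [nat_lit 0, nat_lit 6, nat_lit 7], [nat_lit 0, nat_lit 8, nat_lit 9], [nat_lit 1, nat_lit 10, nat_lit 11], [nat_lit 1, nat_lit 12, nat_lit 13], [nat_lit 2, nat_lit 14, nat_lit 15], [nat_lit 2], [nat_lit 3], [nat_lit 3], [nat_lit 4, nat_lit 11], [nat_lit 4, nat_lit 10], [nat_lit 5, nat_lit 13], [nat_lit 5, nat_lit 12], [nat_lit 6, nat_lit 15], [nat_lit 6, nat_lit 14]],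
  [[nat_lit 1, nat_lit 2, nat_lit 3], [nat_lit 0, nat_lit 4, nat_lit 5], [nat_lit 0, nat_lit 6, nat_lit 7], [nat_lit 0, nat_lit 8, nat_lit 9], [nat_lit 1, nat_lit 6, nat_lit 10], [nat_lit 1, nat_lit 11, nat_lit 12], [nat_lit 2, nat_lit 4, nat_lit 10], [nat_lit 2, nat_lit 13, nat_lit 14], [nat_lit 3, nat_lit 15, nat_lit 16], [nat_lit 3, nat_lit 15], [nat_lit 4, nat_lit 6], [nat_lit 5, nat_lit 12], [nat_lit 5, nat_lit 11], [nat_lit 7, nat_lit 14], [nat_lit 7, nat_lit 13], [nat_lit 8, nat_lit 9, nat_lit 16], [nat_lit 8, nat_lit 15]],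
  [[nat_lit 1, nat_lit 2, nat_lit 3], [nat_lit 0, nat_lit 4, nat_lit 5], [nat_lit 0, nat_lit 6, nat_lit 7], [nat_lit 0, nat_lit 8, nat_lit 9], [nat_lit 1, nat_lit 6, nat_lit 10], [nat_lit 1, nat_lit 11, nat_lit 12], [nat_lit 2, nat_lit 4, nat_lit 10], [nat_lit 2, nat_lit 13, nat_lit 14], [nat_lit 3, nat_lit 15, nat_lit 16], [nat_lit 3, nat_lit 15], [nat_lit 4, nat_lit 6], [nat_lit 5, nat_lit 12], [nat_lit 5, nat_lit 11], [nat_lit 7, nat_lit 14], [nat_lit 7, nat_lit 13], [nat_lit 8, nat_lit 9], [nat_lit 8]],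
  [[nat_lit 1, nat_lit 2, nat_lit 3], [nat_lit 0, nat_lit 4, nat_lit 5], [nat_lit 0, nat_lit 6, nat_lit 7], [nat_lit 0, nat_lit 8, nat_lit 9], [nat_lit 1, nat_lit 6, nat_lit 10], [nat_lit 1, nat_lit 11, nat_lit 12], [nat_lit 2, nat_lit 4, nat_lit 10], [nat_lit 2, nat_lit 13, nat_lit 14], [nat_lit 3, nat_lit 15, nat_lit 16], [nat_lit 3], [nat_lit 4, nat_lit 6], [nat_lit 5, nat_lit 12], [nat_lit 5, nat_lit 11], [nat_lit 7, nat_lit 14], [nat_lit 7, nat_lit 13], [nat_lit 8, nat_lit 16], [nat_lit 8, nat_lit 15]],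
  [[nat_lit 1, nat_lit 2, nat_lit 3], [nat_lit 0, nat_lit 4, nat_lit 5], [nat_lit 0, nat_lit 6, nat_lit 7], [nat_lit 0, nat_lit 8, nat_lit 9], [nat_lit 1, nat_lit 10, nat_lit 11], [nat_lit 1, nat_lit 12, nat_lit 13], [nat_lit 2, nat_lit 10, nat_lit 14], [nat_lit 2, nat_lit 15, nat_lit 16], [nat_lit 3, nat_lit 11], [nat_lit 3, nat_lit 14], [nat_lit 4, nat_lit 6], [nat_lit 4, nat_lit 8], [nat_lit 5, nat_lit 13], [nat_lit 5, nat_lit 12], [nat_lit 6, nat_lit 9], [nat_lit 7, nat_lit 16], [nat_lit 7, nat_lit 15]],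
  [[nat_lit 1, nat_lit 2, nat_lit 3], [nat_lit 0, nat_lit 4, nat_lit 5], [nat_lit 0, nat_lit 6, nat_lit 7], [nat_lit 0, nat_lit 8, nat_lit 9], [nat_lit 1, nat_lit 10, nat_lit 11], [nat_lit 1, nat_lit 12, nat_lit 13], [nat_lit 2, nat_lit 14, nat_lit 15], [nat_lit 2, nat_lit 14, nat_lit 15], [nat_lit 3, nat_lit 14, nat_lit 16], [nat_lit 3, nat_lit 16], [nat_lit 4, nat_lit 11], [nat_lit 4, nat_lit 10], [nat_lit 5, nat_lit 13], [nat_lit 5, nat_lit 12], [nat_lit 6, nat_lit 7, nat_lit 8], [nat_lit 6, nat_lit 7], [nat_lit 8, nat_lit 9]],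
  [[nat_lit 1, nat_lit 2, nat_lit 3], [nat_lit 0, nat_lit 4, nat_lit 5], [nat_lit 0, nat_lit 6, nat_lit 7], [nat_lit 0, nat_lit 8, nat_lit 9], [nat_lit 1, nat_lit 10, nat_lit 11], [nat_lit 1, nat_lit 12, nat_lit 13], [nat_lit 2, nat_lit 14, nat_lit 15], [nat_lit 2, nat_lit 14, nat_lit 15], [nat_lit 3, nat_lit 16], [nat_lit 3, nat_lit 16], [nat_lit 4, nat_lit 11], [nat_lit 4, nat_lit 10], [nat_lit 5, nat_lit 13], [nat_lit 5, nat_lit 12], [nat_lit 6, nat_lit 7], [nat_lit 6, nat_lit 7], [nat_lit 8, nat_lit 9]],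
  [[nat_lit 1, nat_lit 2, nat_lit 3], [nat_lit 0, nat_lit 4, nat_lit 5], [nat_lit 0, nat_lit 6, nat_lit 7], [nat_lit 0, nat_lit 8, nat_lit 9], [nat_lit 1, nat_lit 10, nat_lit 11], [nat_lit 1, nat_lit 12, nat_lit 13], [nat_lit 2, nat_lit 14, nat_lit 15], [nat_lit 2, nat_lit 14, nat_lit 15], [nat_lit 3, nat_lit 16], [nat_lit 3], [nat_lit 4, nat_lit 11], [nat_lit 4, nat_lit 10], [nat_lit 5, nat_lit 13], [nat_lit 5, nat_lit 12], [nat_lit 6, nat_lit 7], [nat_lit 6, nat_lit 7], [nat_lit 8]],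
  [[nat_lit 1, nat_lit 2, nat_lit 3], [nat_lit 0, nat_lit 4, nat_lit 5], [nat_lit 0, nat_lit 6, nat_lit 7], [nat_lit 0, nat_lit 8, nat_lit 9], [nat_lit 1, nat_lit 10, nat_lit 11], [nat_lit 1, nat_lit 12, nat_lit 13], [nat_lit 2, nat_lit 14, nat_lit 15], [nat_lit 2, nat_lit 14, nat_lit 16], [nat_lit 3, nat_lit 15], [nat_lit 3, nat_lit 16], [nat_lit 4, nat_lit 11], [nat_lit 4, nat_lit 10], [nat_lit 5, nat_lit 13], [nat_lit 5, nat_lit 12], [nat_lit 6, nat_lit 7], [nat_lit 6, nat_lit 8], [nat_lit 7, nat_lit 9]],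
  [[nat_lit 1, nat_lit 2, nat_lit 3], [nat_lit 0, nat_lit 4, nat_lit 5], [nat_lit 0, nat_lit 6, nat_lit 7], [nat_lit 0, nat_lit 8, nat_lit 9], [nat_lit 1, nat_lit 10, nat_lit 11], [nat_lit 1, nat_lit 12, nat_lit 13], [nat_lit 2, nat_lit 14, nat_lit 15], [nat_lit 2, nat_lit 16], [nat_lit 3, nat_lit 16], [nat_lit 3, nat_lit 16], [nat_lit 4, nat_lit 11], [nat_lit 4, nat_lit 10], [nat_lit 5, nat_lit 13], [nat_lit 5, nat_lit 12], [nat_lit 6, nat_lit 15], [nat_lit 6, nat_lit 14], [nat_lit 7, nat_lit 8, nat_lit 9]],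
  [[nat_lit 1, nat_lit 2, nat_lit 3], [nat_lit 0, nat_lit 4, nat_lit 5], [nat_lit 0, nat_lit 6, nat_lit 7], [nat_lit 0, nat_lit 8, nat_lit 9], [nat_lit 1, nat_lit 10, nat_lit 11], [nat_lit 1, nat_lit 12, nat_lit 13], [nat_lit 2, nat_lit 14, nat_lit 15], [nat_lit 2, nat_lit 16], [nat_lit 3, nat_lit 16], [nat_lit 3], [nat_lit 4, nat_lit 11, nat_lit 16], [nat_lit 4, nat_lit 10], [nat_lit 5, nat_lit 13], [nat_lit 5, nat_lit 12], [nat_lit 6, nat_lit 15], [nat_lit 6, nat_lit 14], [nat_lit 7, nat_lit 8, nat_lit 10]],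
  [[nat_lit 1, nat_lit 2, nat_lit 3], [nat_lit 0, nat_lit 4, nat_lit 5], [nat_lit 0, nat_lit 6, nat_lit 7], [nat_lit 0, nat_lit 8, nat_lit 9], [nat_lit 1, nat_lit 10, nat_lit 11], [nat_lit 1, nat_lit 12, nat_lit 13], [nat_lit 2, nat_lit 14, nat_lit 15], [nat_lit 2, nat_lit 16], [nat_lit 3, nat_lit 16], [nat_lit 3], [nat_lit 4, nat_lit 11], [nat_lit 4, nat_lit 10], [nat_lit 5, nat_lit 13], [nat_lit 5, nat_lit 12], [nat_lit 6, nat_lit 15], [nat_lit 6, nat_lit 14], [nat_lit 7, nat_lit 8]],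
  [[nat_lit 1, nat_lit 2, nat_lit 3], [nat_lit 0, nat_lit 4, nat_lit 5], [nat_lit 0, nat_lit 6, nat_lit 7], [nat_lit 0, nat_lit 8, nat_lit 9], [nat_lit 1, nat_lit 10, nat_lit 11], [nat_lit 1, nat_lit 12, nat_lit 13], [nat_lit 2, nat_lit 14, nat_lit 15], [nat_lit 2, nat_lit 16], [nat_lit 3], [nat_lit 3], [nat_lit 4, nat_lit 11, nat_lit 16], [nat_lit 4, nat_lit 10], [nat_lit 5, nat_lit 13], [nat_lit 5, nat_lit 12], [nat_lit 6, nat_lit 15], [nat_lit 6, nat_lit 14], [nat_lit 7, nat_lit 10]],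
  [[nat_lit 1, nat_lit 2, nat_lit 3], [nat_lit 0, nat_lit 4, nat_lit 5], [nat_lit 0, nat_lit 6, nat_lit 7], [nat_lit 0, nat_lit 8, nat_lit 9], [nat_lit 1, nat_lit 10, nat_lit 11], [nat_lit 1, nat_lit 12, nat_lit 13], [nat_lit 2, nat_lit 14, nat_lit 15], [nat_lit 2, nat_lit 16], [nat_lit 3], [nat_lit 3], [nat_lit 4, nat_lit 11], [nat_lit 4, nat_lit 10], [nat_lit 5, nat_lit 13], [nat_lit 5, nat_lit 12], [nat_lit 6, nat_lit 15], [nat_lit 6, nat_lit 14], [nat_lit 7]],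
  [[nat_lit 1, nat_lit 2, nat_lit 3], [nat_lit 0, nat_lit 4, nat_lit 5], [nat_lit 0, nat_lit 6, nat_lit 7], [nat_lit 0, nat_lit 8, nat_lit 9], [nat_lit 1, nat_lit 6, nat_lit 10], [nat_lit 1, nat_lit 11, nat_lit 12], [nat_lit 2, nat_lit 4, nat_lit 10], [nat_lit 2, nat_lit 13, nat_lit 14], [nat_lit 3, nat_lit 15, nat_lit 16], [nat_lit 3, nat_lit 17], [nat_lit 4, nat_lit 6], [nat_lit 5, nat_lit 12], [nat_lit 5, nat_lit 11], [nat_lit 7, nat_lit 14], [nat_lit 7, nat_lit 13], [nat_lit 8, nat_lit 16], [nat_lit 8, nat_lit 15], [nat_lit 9]],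
  [[nat_lit 1, nat_lit 2, nat_lit 3], [nat_lit 0, nat_lit 4, nat_lit 5], [nat_lit 0, nat_lit 6, nat_lit 7], [nat_lit 0, nat_lit 8, nat_lit 9], [nat_lit 1, nat_lit 10, nat_lit 11], [nat_lit 1, nat_lit 12, nat_lit 13], [nat_lit 2, nat_lit 14, nat_lit 15], [nat_lit 2, nat_lit 14, nat_lit 15], [nat_lit 3, nat_lit 16, nat_lit 17], [nat_lit 3, nat_lit 16, nat_lit 17], [nat_lit 4, nat_lit 11], [nat_lit 4, nat_lit 10], [nat_lit 5, nat_lit 13], [nat_lit 5, nat_lit 12], [nat_lit 6, nat_lit 7], [nat_lit 6, nat_lit 7], [nat_lit 8, nat_lit 9], [nat_lit 8, nat_lit 9]],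
  [[nat_lit 1, nat_lit 2, nat_lit 3], [nat_lit 0, nat_lit 4, nat_lit 5], [nat_lit 0, nat_lit 6, nat_lit 7], [nat_lit 0, nat_lit 8, nat_lit 9], [nat_lit 1, nat_lit 10, nat_lit 11], [nat_lit 1, nat_lit 12, nat_lit 13], [nat_lit 2, nat_lit 14, nat_lit 15], [nat_lit 2, nat_lit 14, nat_lit 15], [nat_lit 3, nat_lit 16, nat_lit 17], [nat_lit 3, nat_lit 16], [nat_lit 4, nat_lit 11], [nat_lit 4, nat_lit 10], [nat_lit 5, nat_lit 13], [nat_lit 5, nat_lit 12], [nat_lit 6, nat_lit 7], [nat_lit 6, nat_lit 7], [nat_lit 8, nat_lit 9], [nat_lit 8]],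
  [[nat_lit 1, nat_lit 2, nat_lit 3], [nat_lit 0, nat_lit 4, nat_lit 5], [nat_lit 0, nat_lit 6, nat_lit 7], [nat_lit 0, nat_lit 8, nat_lit 9], [nat_lit 1, nat_lit 10, nat_lit 11], [nat_lit 1, nat_lit 12, nat_lit 13], [nat_lit 2, nat_lit 14, nat_lit 15], [nat_lit 2, nat_lit 14, nat_lit 15], [nat_lit 3, nat_lit 16, nat_lit 17], [nat_lit 3], [nat_lit 4, nat_lit 11], [nat_lit 4, nat_lit 10], [nat_lit 5, nat_lit 13], [nat_lit 5, nat_lit 12], [nat_lit 6, nat_lit 7], [nat_lit 6, nat_lit 7], [nat_lit 8, nat_lit 17], [nat_lit 8, nat_lit 16]],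
  [[nat_lit 1, nat_lit 2, nat_lit 3], [nat_lit 0, nat_lit 4, nat_lit 5], [nat_lit 0, nat_lit 6, nat_lit 7], [nat_lit 0, nat_lit 8, nat_lit 9], [nat_lit 1, nat_lit 10, nat_lit 11], [nat_lit 1, nat_lit 12, nat_lit 13], [nat_lit 2, nat_lit 14, nat_lit 15], [nat_lit 2, nat_lit 16, nat_lit 17], [nat_lit 3], [nat_lit 3], [nat_lit 4, nat_lit 11], [nat_lit 4, nat_lit 10], [nat_lit 5, nat_lit 13], [nat_lit 5, nat_lit 12], [nat_lit 6, nat_lit 15], [nat_lit 6, nat_lit 14], [nat_lit 7, nat_lit 17], [nat_lit 7, nat_lit 16]],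
  [[nat_lit 1, nat_lit 2, nat_lit 3], [nat_lit 0, nat_lit 4, nat_lit 5], [nat_lit 0, nat_lit 6, nat_lit 7], [nat_lit 0, nat_lit 8, nat_lit 9], [nat_lit 1, nat_lit 6, nat_lit 10], [nat_lit 1, nat_lit 11, nat_lit 12], [nat_lit 2, nat_lit 4, nat_lit 10], [nat_lit 2, nat_lit 13, nat_lit 14], [nat_lit 3, nat_lit 15, nat_lit 16], [nat_lit 3, nat_lit 17, nat_lit 18], [nat_lit 4, nat_lit 6], [nat_lit 5, nat_lit 12], [nat_lit 5, nat_lit 11], [nat_lit 7, nat_lit 14], [nat_lit 7, nat_lit 13], [nat_lit 8, nat_lit 16], [nat_lit 8, nat_lit 15], [nat_lit 9, nat_lit 18], [nat_lit 9, nat_lit 17]],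
  [[nat_lit 1, nat_lit 2, nat_lit 3], [nat_lit 0, nat_lit 4, nat_lit 5], [nat_lit 0, nat_lit 6, nat_lit 7], [nat_lit 0, nat_lit 8, nat_lit 9], [nat_lit 1, nat_lit 10, nat_lit 11], [nat_lit 1, nat_lit 12, nat_lit 13], [nat_lit 2, nat_lit 14, nat_lit 15], [nat_lit 2, nat_lit 14, nat_lit 15], [nat_lit 3, nat_lit 16, nat_lit 17], [nat_lit 3, nat_lit 18], [nat_lit 4, nat_lit 11], [nat_lit 4, nat_lit 10], [nat_lit 5, nat_lit 13], [nat_lit 5, nat_lit 12], [nat_lit 6, nat_lit 7], [nat_lit 6, nat_lit 7], [nat_lit 8, nat_lit 17], [nat_lit 8, nat_lit 16], [nat_lit 9]],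
  [[nat_lit 1, nat_lit 2, nat_lit 3], [nat_lit 0, nat_lit 4, nat_lit 5], [nat_lit 0, nat_lit 6, nat_lit 7], [nat_lit 0, nat_lit 8, nat_lit 9], [nat_lit 1, nat_lit 10, nat_lit 11], [nat_lit 1, nat_lit 12, nat_lit 13], [nat_lit 2, nat_lit 14, nat_lit 15], [nat_lit 2, nat_lit 16, nat_lit 17], [nat_lit 3, nat_lit 18], [nat_lit 3, nat_lit 18], [nat_lit 4, nat_lit 11, nat_lit 18], [nat_lit 4, nat_lit 10], [nat_lit 5, nat_lit 13], [nat_lit 5, nat_lit 12], [nat_lit 6, nat_lit 15], [nat_lit 6, nat_lit 14], [nat_lit 7, nat_lit 17], [nat_lit 7, nat_lit 16], [nat_lit 8, nat_lit 9, nat_lit 10]],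
  [[nat_lit 1, nat_lit 2, nat_lit 3], [nat_lit 0, nat_lit 4, nat_lit 5], [nat_lit 0, nat_lit 6, nat_lit 7], [nat_lit 0, nat_lit 8, nat_lit 9], [nat_lit 1, nat_lit 10, nat_lit 11], [nat_lit 1, nat_lit 12, nat_lit 13], [nat_lit 2, nat_lit 14, nat_lit 15], [nat_lit 2, nat_lit 16, nat_lit 17], [nat_lit 3, nat_lit 18], [nat_lit 3, nat_lit 18], [nat_lit 4, nat_lit 11], [nat_lit 4, nat_lit 10], [nat_lit 5, nat_lit 13], [nat_lit 5, nat_lit 12], [nat_lit 6, nat_lit 15], [nat_lit 6, nat_lit 14], [nat_lit 7, nat_lit 17], [nat_lit 7, nat_lit 16], [nat_lit 8, nat_lit 9]]]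

noncomputable def op22 : List (List (List Nat)) := [
  [[nat_lit 1, nat_lit 2, nat_lit 3], [nat_lit 0, nat_lit 4, nat_lit 5], [nat_lit 0, nat_lit 6, nat_lit 7], [nat_lit 0, nat_lit 8, nat_lit 9], [nat_lit 1, nat_lit 10, nat_lit 11], [nat_lit 1, nat_lit 12, nat_lit 13], [nat_lit 2, nat_lit 14, nat_lit 15], [nat_lit 2, nat_lit 16, nat_lit 17], [nat_lit 3, nat_lit 18], [nat_lit 3], [nat_lit 4, nat_lit 11, nat_lit 18], [nat_lit 4, nat_lit 10], [nat_lit 5, nat_lit 13], [nat_lit 5, nat_lit 12], [nat_lit 6, nat_lit 15], [nat_lit 6, nat_lit 14], [nat_lit 7, nat_lit 17], [nat_lit 7, nat_lit 16], [nat_lit 8, nat_lit 10]],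
  [[nat_lit 1, nat_lit 2, nat_lit 3], [nat_lit 0, nat_lit 4, nat_lit 5], [nat_lit 0, nat_lit 6, nat_lit 7], [nat_lit 0, nat_lit 8, nat_lit 9], [nat_lit 1, nat_lit 10, nat_lit 11], [nat_lit 1, nat_lit 12, nat_lit 13], [nat_lit 2, nat_lit 14, nat_lit 15], [nat_lit 2, nat_lit 16, nat_lit 17], [nat_lit 3, nat_lit 18], [nat_lit 3], [nat_lit 4, nat_lit 11], [nat_lit 4, nat_lit 10], [nat_lit 5, nat_lit 13], [nat_lit 5, nat_lit 12], [nat_lit 6, nat_lit 15], [nat_lit 6, nat_lit 14], [nat_lit 7, nat_lit 17], [nat_lit 7, nat_lit 16], [nat_lit 8]],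
  [[nat_lit 1, nat_lit 2, nat_lit 3], [nat_lit 0, nat_lit 4, nat_lit 5], [nat_lit 0, nat_lit 6, nat_lit 7], [nat_lit 0, nat_lit 8, nat_lit 9], [nat_lit 1, nat_lit 10, nat_lit 11], [nat_lit 1, nat_lit 12, nat_lit 13], [nat_lit 2, nat_lit 14, nat_lit 15], [nat_lit 2, nat_lit 14, nat_lit 15], [nat_lit 3, nat_lit 16, nat_lit 17], [nat_lit 3, nat_lit 18, nat_lit 19], [nat_lit 4, nat_lit 11], [nat_lit 4, nat_lit 10], [nat_lit 5, nat_lit 13], [nat_lit 5, nat_lit 12], [nat_lit 6, nat_lit 7], [nat_lit 6, nat_lit 7], [nat_lit 8, nat_lit 17], [nat_lit 8, nat_lit 16], [nat_lit 9, nat_lit 19], [nat_lit 9, nat_lit 18]],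
  [[nat_lit 1, nat_lit 2, nat_lit 3], [nat_lit 0, nat_lit 4, nat_lit 5], [nat_lit 0, nat_lit 6, nat_lit 7], [nat_lit 0, nat_lit 8, nat_lit 9], [nat_lit 1, nat_lit 10, nat_lit 11], [nat_lit 1, nat_lit 12, nat_lit 13], [nat_lit 2, nat_lit 14, nat_lit 15], [nat_lit 2, nat_lit 16, nat_lit 17], [nat_lit 3, nat_lit 18, nat_lit 19], [nat_lit 3, nat_lit 18], [nat_lit 4, nat_lit 11], [nat_lit 4, nat_lit 10], [nat_lit 5, nat_lit 13], [nat_lit 5, nat_lit 12], [nat_lit 6, nat_lit 15], [nat_lit 6, nat_lit 14], [nat_lit 7, nat_lit 17], [nat_lit 7, nat_lit 16], [nat_lit 8, nat_lit 9, nat_lit 19], [nat_lit 8, nat_lit 18]],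
  [[nat_lit 1, nat_lit 2, nat_lit 3], [nat_lit 0, nat_lit 4, nat_lit 5], [nat_lit 0, nat_lit 6, nat_lit 7], [nat_lit 0, nat_lit 8, nat_lit 9], [nat_lit 1, nat_lit 10, nat_lit 11], [nat_lit 1, nat_lit 12, nat_lit 13], [nat_lit 2, nat_lit 14, nat_lit 15], [nat_lit 2, nat_lit 16, nat_lit 17], [nat_lit 3, nat_lit 18, nat_lit 19], [nat_lit 3, nat_lit 18], [nat_lit 4, nat_lit 11], [nat_lit 4, nat_lit 10], [nat_lit 5, nat_lit 13], [nat_lit 5, nat_lit 12], [nat_lit 6, nat_lit 15], [nat_lit 6, nat_lit 14], [nat_lit 7, nat_lit 17], [nat_lit 7, nat_lit 16], [nat_lit 8, nat_lit 9], [nat_lit 8]],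
  [[nat_lit 1, nat_lit 2, nat_lit 3], [nat_lit 0, nat_lit 4, nat_lit 5], [nat_lit 0, nat_lit 6, nat_lit 7], [nat_lit 0, nat_lit 8, nat_lit 9], [nat_lit 1, nat_lit 10, nat_lit 11], [nat_lit 1, nat_lit 12, nat_lit 13], [nat_lit 2, nat_lit 14, nat_lit 15], [nat_lit 2, nat_lit 16, nat_lit 17], [nat_lit 3, nat_lit 18, nat_lit 19], [nat_lit 3], [nat_lit 4, nat_lit 11], [nat_lit 4, nat_lit 10], [nat_lit 5, nat_lit 13], [nat_lit 5, nat_lit 12], [nat_lit 6, nat_lit 15], [nat_lit 6, nat_lit 14], [nat_lit 7, nat_lit 17], [nat_lit 7, nat_lit 16], [nat_lit 8, nat_lit 19], [nat_lit 8, nat_lit 18]],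
  [[nat_lit 1, nat_lit 2, nat_lit 3], [nat_lit 0, nat_lit 4, nat_lit 5], [nat_lit 0, nat_lit 6, nat_lit 7], [nat_lit 0, nat_lit 8, nat_lit 9], [nat_lit 1, nat_lit 10, nat_lit 11], [nat_lit 1, nat_lit 12, nat_lit 13], [nat_lit 2, nat_lit 14, nat_lit 15], [nat_lit 2, nat_lit 16, nat_lit 17], [nat_lit 3, nat_lit 18, nat_lit 19], [nat_lit 3, nat_lit 20], [nat_lit 4, nat_lit 11, nat_lit 20], [nat_lit 4, nat_lit 10], [nat_lit 5, nat_lit 13], [nat_lit 5, nat_lit 12], [nat_lit 6, nat_lit 15], [nat_lit 6, nat_lit 14], [nat_lit 7, nat_lit 17], [nat_lit 7, nat_lit 16], [nat_lit 8, nat_lit 19], [nat_lit 8, nat_lit 18], [nat_lit 9, nat_lit 10]],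
  [[nat_lit 1, nat_lit 2, nat_lit 3], [nat_lit 0, nat_lit 4, nat_lit 5], [nat_lit 0, nat_lit 6, nat_lit 7], [nat_lit 0, nat_lit 8, nat_lit 9], [nat_lit 1, nat_lit 10, nat_lit 11], [nat_lit 1, nat_lit 12, nat_lit 13], [nat_lit 2, nat_lit 14, nat_lit 15], [nat_lit 2, nat_lit 16, nat_lit 17], [nat_lit 3, nat_lit 18, nat_lit 19], [nat_lit 3, nat_lit 20], [nat_lit 4, nat_lit 11], [nat_lit 4, nat_lit 10], [nat_lit 5, nat_lit 13], [nat_lit 5, nat_lit 12], [nat_lit 6, nat_lit 15], [nat_lit 6, nat_lit 14], [nat_lit 7, nat_lit 17], [nat_lit 7, nat_lit 16], [nat_lit 8, nat_lit 19], [nat_lit 8, nat_lit 18], [nat_lit 9]],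
  [[nat_lit 1, nat_lit 2, nat_lit 3], [nat_lit 0, nat_lit 4, nat_lit 5], [nat_lit 0, nat_lit 6, nat_lit 7], [nat_lit 0, nat_lit 8, nat_lit 9], [nat_lit 1, nat_lit 10, nat_lit 11], [nat_lit 1, nat_lit 12, nat_lit 13], [nat_lit 2, nat_lit 14, nat_lit 15], [nat_lit 2, nat_lit 16, nat_lit 17], [nat_lit 3, nat_lit 18, nat_lit 19], [nat_lit 3, nat_lit 20, nat_lit 21], [nat_lit 4, nat_lit 11], [nat_lit 4, nat_lit 10], [nat_lit 5, nat_lit 13], [nat_lit 5, nat_lit 12], [nat_lit 6, nat_lit 15], [nat_lit 6, nat_lit 14], [nat_lit 7, nat_lit 17], [nat_lit 7, nat_lit 16], [nat_lit 8, nat_lit 19], [nat_lit 8, nat_lit 18], [nat_lit 9, nat_lit 21], [nat_lit 9, nat_lit 20]]]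

noncomputable def leaves : List (List (List (List Nat))) :=
  [lv0, lv1, lv2, lv3, lv4, lv5, lv6, lv7, lv8, lv9, lv10, lv11, lv12, lv13, lv14, lv15, lv16, lv17, lv18, lv19, lv20, lv21, lv22]

noncomputable def opens : List (List (List (List Nat))) :=
  [op0, op1, op2, op3, op4, op5, op6, op7, op8, op9, op10, op11, op12, op13, op14, op15, op16, op17, op18, op19, op20, op21, op22]

end Pool.Agent.Work.MP_1e13ac_Fast
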